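import Pool.Agent.H.MP_47f0a1_an.ModelR

/-!
# The norm of a sum of creation operators with coefficients
-/

open scoped InnerProductSpace

namespace H47

/-- Purely algebraic product formula. Here `a, b` are families of creation-like operators whose
compressions are scalar on the star subalgebra `B`. -/
theorem cre_mul {R : Type*} [Ring R] [StarRing R] [Algebra ℂ R] [StarModule ℂ R]
    {ι : Type*} [Fintype ι] [DecidableEq ι] (B : StarSubalgebra ℂ R) (ω : R →ₗ[ℂ] ℂ)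
    (a b : ι → R)
    (hab : ∀ s t, ∀ x ∈ B, star (a s) * x * b t = if s = t then algebraMap ℂ R (ω x) else 0)
    (α β α' β' : ι → R) (hα : ∀ t, α t ∈ B) (hα' : ∀ t, α' t ∈ B) :
    star (∑ t, α t * a t * β t) * (∑ t, α' t * b t * β' t) =
      ∑ t, ω (star (α t) * α' t) • (star (β t) * β' t) := by
  rw [star_sum, Finset.sum_mul]
  refine Finset.sum_congr rfl fun s _ => ?_
  rw [Finset.mul_sum]
  have key : ∀ t, star (α s * a s * β s) * (α' t * b t * β' t) =
      if s = t then ω (star (α s) * α' s) • (star (β s) * β' s) else 0 := by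
    intro t
    have h1 : star (α s * a s * β s) * (α' t * b t * β' t) =
        star (β s) * (star (a s) * (star (α s) * α' t) * b t) * β' t := by
      rw [star_mul, star_mul]
      simp only [mul_assoc]
    rw [h1, hab s t _ (mul_mem (star_mem (hα s)) (hα' t))]
    split_ifs with h
    · subst h
      rw [← Algebra.commutes, mul_assoc, ← Algebra.smul_def]
    · rw [mul_zero, zero_mul]
  rw [Finset.sum_congr rfl fun t _ => key t, Finset.sum_ite_eq]
  simp

/-- Two families with vanishing mutual compressions give a zero product. -/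
theorem cre_mul_zero {R : Type*} [Ring R] [StarRing R] [Algebra ℂ R] [StarModule ℂ R]
    {ι κ : Type*} [Fintype ι] [Fintype κ] (B : StarSubalgebra ℂ R)
    (a : ι → R) (b : κ → R) (hab : ∀ s t, ∀ x ∈ B, star (a s) * x * b t = 0)
    (α β : ι → R) (α' β' : κ → R) (hα : ∀ t, α t ∈ B) (hα' : ∀ t, α' t ∈ B) :
    star (∑ t, α t * a t * β t) * (∑ t, α' t * b t * β' t) = 0 := by
  rw [star_sum, Finset.sum_mul]
  refine Finset.sum_eq_zero fun s _ => ?_
  rw [Finset.mul_sum]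
  refine Finset.sum_eq_zero fun t _ => ?_
  have h1 : star (α s * a s * β s) * (α' t * b t * β' t) =
      star (β s) * (star (a s) * (star (α s) * α' t) * b t) * β' t := by
    rw [star_mul, star_mul]
    simp only [mul_assoc]
  rw [h1, hab s t _ (mul_mem (star_mem (hα s)) (hα' t)), mul_zero, zero_mul]

variable {K : Type*} [NormedAddCommGroup K] [InnerProductSpace ℂ K] [CompleteSpace K]

/-- Norm of a vector: with `ω = ⟨Om, · Om⟩`,
`‖(∑ α_t a_t β_t) ξ‖² = ∑ ‖α_t Om‖² ‖β_t ξ‖²`. Proof: `‖L ξ‖² = ⟨ξ, L* L ξ⟩` and `cre_mul`;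
`ω (star (α t) * α t) = ‖α t Om‖²`. -/
theorem cre_norm_sq {ι : Type*} [Fintype ι] [DecidableEq ι] (B : StarSubalgebra ℂ (K →L[ℂ] K))
    (Om : K) (a : ι → (K →L[ℂ] K))
    (ha : ∀ s t, ∀ x ∈ B, star (a s) * x * a t =
      if s = t then algebraMap ℂ (K →L[ℂ] K) ⟪Om, x Om⟫_ℂ else 0)
    (α β : ι → (K →L[ℂ] K)) (hα : ∀ t, α t ∈ B) (ξ : K) :
    ‖(∑ t, α t * a t * β t) ξ‖ ^ 2 = ∑ t, ‖α t Om‖ ^ 2 * ‖β t ξ‖ ^ 2 := by
  have hin : ∀ (T : K →L[ℂ] K) (η : K), ⟪η, (star T * T) η⟫_ℂ = ((‖T η‖ ^ 2 : ℝ) : ℂ) := by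
    intro T η
    rw [ContinuousLinearMap.mul_apply, ContinuousLinearMap.star_eq_adjoint,
      ContinuousLinearMap.adjoint_inner_right, inner_self_eq_norm_sq_to_K]
    norm_cast
  let ω : (K →L[ℂ] K) →ₗ[ℂ] ℂ :=
    { toFun := fun x => ⟪Om, x Om⟫_ℂ
      map_add' := fun x y => by simp [inner_add_right]
      map_smul' := fun c x => by simp [inner_smul_right] }
  have hmul := cre_mul B ω a a ha α β α β hα hα
  have h1 := hin (∑ t, α t * a t * β t) ξ
  rw [hmul] at h1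
  have h2 : ⟪ξ, (∑ t, ω (star (α t) * α t) • (star (β t) * β t)) ξ⟫_ℂ =
      ((∑ t, ‖α t Om‖ ^ 2 * ‖β t ξ‖ ^ 2 : ℝ) : ℂ) := by
    rw [ContinuousLinearMap.sum_apply, inner_sum, Complex.ofReal_sum]
    refine Finset.sum_congr rfl fun t _ => ?_
    rw [ContinuousLinearMap.smul_apply, inner_smul_right, hin (β t) ξ]
    have h3 : ω (star (α t) * α t) = ((‖α t Om‖ ^ 2 : ℝ) : ℂ) := hin (α t) Om
    rw [h3, Complex.ofReal_mul]
  rw [h2] at h1
  exact (Complex.ofReal_injective h1).symm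

/-- Norm bound for an operator: if `∑ ‖α_t Om‖² ‖β_t ξ‖² ≤ C² ‖ξ‖²` for all `ξ` then
`‖∑ α_t a_t β_t‖ ≤ C`, and the same for `‖∑ β_t* a_t* α_t*‖` (the adjoint operator). -/
theorem cre_norm_le {ι : Type*} [Fintype ι] [DecidableEq ι] (B : StarSubalgebra ℂ (K →L[ℂ] K))
    (Om : K) (a : ι → (K →L[ℂ] K))
    (ha : ∀ s t, ∀ x ∈ B, star (a s) * x * a t =
      if s = t then algebraMap ℂ (K →L[ℂ] K) ⟪Om, x Om⟫_ℂ else 0)
    (α β : ι → (K →L[ℂ] K)) (hα : ∀ t, α t ∈ B) (C : ℝ) (hC : 0 ≤ C)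
    (h : ∀ ξ, ∑ t, ‖α t Om‖ ^ 2 * ‖β t ξ‖ ^ 2 ≤ C ^ 2 * ‖ξ‖ ^ 2) :
    ‖∑ t, α t * a t * β t‖ ≤ C ∧ ‖∑ t, star (β t) * star (a t) * star (α t)‖ ≤ C := by
  have h1 : ‖∑ t, α t * a t * β t‖ ≤ C := by
    refine ContinuousLinearMap.opNorm_le_bound _ hC fun ξ => ?_
    have h2 := h ξ
    rw [← cre_norm_sq B Om a ha α β hα ξ, ← mul_pow] at h2
    exact (sq_le_sq₀ (norm_nonneg _) (by positivity)).1 h2
  refine ⟨h1, ?_⟩
  have h3 : ∑ t, star (β t) * star (a t) * star (α t) = star (∑ t, α t * a t * β t) := by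
    rw [star_sum]
    refine Finset.sum_congr rfl fun t _ => ?_
    rw [star_mul, star_mul, mul_assoc]
  rw [h3, norm_star]
  exact h1

namespace FModel

variable {A : Type*} [Ring A] [StarRing A] [Algebra ℂ A] [StarModule ℂ A]
  {τ : A →ₗ[ℂ] ℂ} (M : FModel A τ K)

/-- The compression hypothesis for the creation operators of a model with injective labels
outside `S`. -/
theorem compress_fam (S : Set ℕ) {ι : Type*} [DecidableEq ι] (i : ι → ℕ)
    (hi : Function.Injective i) (hS : ∀ t, i t ∉ S) (s t : ι) (x : K →L[ℂ] K) (hx : x ∈ M.E S) :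
    star (M.ell (i s)) * x * M.ell (i t) =
      if s = t then algebraMap ℂ (K →L[ℂ] K) ⟪M.Om, x M.Om⟫_ℂ else 0 := by
  rw [M.compress S _ _ (hS s) (hS t) x hx]
  simp only [hi.eq_iff, FModel.st_apply]

end FModel

end H47
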