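import Pool.Agent.H.MP_47f0a1_an.IncSum
import Pool.Agent.H.MP_47f0a1_an.NormL

/-!
# The two basic norm estimates of the absorption lemma
-/

open scoped InnerProductSpace
open MeasureTheory

namespace H47
namespace FModel

variable {Z : Type} [MetricSpace Z] [CompactSpace Z] [MeasurableSpace Z] [BorelSpace Z]
  {μ : Measure Z} [IsProbabilityMeasure μ]
  {K : Type} [NormedAddCommGroup K] [InnerProductSpace ℂ K] [CompleteSpace K]
  (M : FModel C(Z, ℂ) (intL μ) K)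

/-- Creation part `∑ m_j^{-1/2} a_j (1-d) ℓ_{i(j)} e b_j`. -/
noncomputable def crL {n : ℕ} (m : Fin n → ℝ) (i : Fin n → ℕ) (d e : K →L[ℂ] K)
    (a b : Fin n → C(Z, ℂ)) : K →L[ℂ] K :=
  ∑ j, (((Real.sqrt (m j))⁻¹ : ℝ) : ℂ) •
    (M.inc (a j) * (1 - d) * M.ell (i j) * (e * M.inc (b j)))

/-- Annihilation part `∑ m_j^{-1/2} a_j (1-d) ℓ_{i(j)}* e b_j`. -/
noncomputable def crR {n : ℕ} (m : Fin n → ℝ) (i : Fin n → ℕ) (d e : K →L[ℂ] K)
    (a b : Fin n → C(Z, ℂ)) : K →L[ℂ] K :=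
  ∑ j, (((Real.sqrt (m j))⁻¹ : ℝ) : ℂ) •
    (M.inc (a j) * (1 - d) * star (M.ell (i j)) * (e * M.inc (b j)))

variable {n : ℕ} (m : Fin n → ℝ) (hm : ∀ j, 0 < m j) (S : Set ℕ) (i : Fin n → ℕ)
  (hi : Function.Injective i) (hiS : ∀ j, i j ∉ S) (d e : K →L[ℂ] K) (hd : d ∈ M.E S)
  (he : e ∈ M.E S) (hds : star d = d) (hes : star e = e) (hd1 : ‖1 - d‖ ≤ 1) (he1 : ‖e‖ ≤ 1)

include hm hi hiS hd he hds hd1 he1 in
/-- The creation part is bounded independently of the number of summands.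

Proof. `cre_norm_le` with `α_j = m_j^{-1/2} inc (a j) (1-d)`, `β_j = e * inc (b j)` and
`compress_fam`. `‖α_j Ω‖² = m_j⁻¹ ‖inc (a j) (1-d) Ω‖²` and by the trace property
(`norm_star_Om`, `intL_comm`) `‖inc (a j) (1-d) Ω‖ = ‖(1-d) inc (star (a j)) Ω‖
≤ ‖inc (star (a j)) Ω‖`, whose square is `∫ |a j|² ≤ Ca² m_j` (`norm_inc_Om_sq`). Finally
`∑ ‖e inc (b j) ξ‖² ≤ ∑ ‖inc (b j) ξ‖² ≤ Cb² ‖ξ‖²` (`sum_inc_le`). -/
theorem norm_crL_le (a b : Fin n → C(Z, ℂ)) (Ca Cb : ℝ) (hCa : 0 ≤ Ca) (hCb : 0 ≤ Cb)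
    (ha : ∀ j, (intL μ (star (a j) * a j)).re ≤ Ca ^ 2 * m j)
    (hb : ∀ x, ∑ j, ‖b j x‖ ^ 2 ≤ Cb ^ 2) : ‖M.crL m i d e a b‖ ≤ Ca * Cb := by
  have hrw : M.crL m i d e a b = ∑ j, ((((Real.sqrt (m j))⁻¹ : ℝ) : ℂ) •
      (M.inc (a j) * (1 - d))) * M.ell (i j) * (e * M.inc (b j)) := by
    rw [crL]
    refine Finset.sum_congr rfl fun j _ => ?_
    rw [smul_mul_assoc, smul_mul_assoc]
  rw [hrw]
  have hd' : (1 - d) ∈ M.E S := sub_mem (one_mem _) hd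
  refine (cre_norm_le (M.E S) M.Om (fun j => M.ell (i j))
    (fun s t x hx => M.compress_fam S i hi hiS s t x hx) _ _ (fun t => ?_) (Ca * Cb)
    (mul_nonneg hCa hCb) (fun ξ => ?_)).1
  · exact SMulMemClass.smul_mem _ (mul_mem (M.inc_mem S _) hd')
  · have hα : ∀ t, ‖((((Real.sqrt (m t))⁻¹ : ℝ) : ℂ) • (M.inc (a t) * (1 - d))) M.Om‖ ^ 2 ≤
        Ca ^ 2 := by
      intro t
      have hmt := hm t
      have hx : M.inc (a t) * (1 - d) ∈ M.E Set.univ :=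
        M.E_mono (Set.subset_univ S) (mul_mem (M.inc_mem S _) hd')
      have h1 : ‖(M.inc (a t) * (1 - d)) M.Om‖ ≤ ‖M.inc (a t) M.Om‖ := by
        rw [← M.norm_star_Om (intL_comm μ) _ hx,
          ← M.norm_star_Om (intL_comm μ) _ (M.inc_mem Set.univ (a t))]
        have h2 : (star (M.inc (a t) * (1 - d))) M.Om =
            (star (1 - d)) ((star (M.inc (a t))) M.Om) := by
          rw [star_mul]
          rfl
        rw [h2]
        refine ((star (1 - d)).le_opNorm _).trans ?_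
        rw [norm_star]
        exact mul_le_of_le_one_left (norm_nonneg _) hd1
      have h2 : ‖M.inc (a t) M.Om‖ ^ 2 ≤ Ca ^ 2 * m t := by
        rw [M.norm_inc_Om_sq]
        exact ha t
      rw [smul_apply, norm_smul, mul_pow, Complex.norm_real, Real.norm_eq_abs, sq_abs, inv_pow,
        Real.sq_sqrt hmt.le]
      calc (m t)⁻¹ * ‖(M.inc (a t) * (1 - d)) M.Om‖ ^ 2 ≤ (m t)⁻¹ * (Ca ^ 2 * m t) := by
            refine mul_le_mul_of_nonneg_left ?_ (inv_nonneg.2 hmt.le)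
            exact (pow_le_pow_left₀ (norm_nonneg _) h1 2).trans h2
        _ = Ca ^ 2 := by field_simp
    have hβ : ∀ t, ‖(e * M.inc (b t)) ξ‖ ^ 2 ≤ ‖M.inc (b t) ξ‖ ^ 2 := by
      intro t
      refine pow_le_pow_left₀ (norm_nonneg _) ?_ 2
      have h2 : (e * M.inc (b t)) ξ = e (M.inc (b t) ξ) := rfl
      rw [h2]
      exact (e.le_opNorm _).trans (mul_le_of_le_one_left (norm_nonneg _) he1)
    calc ∑ t, ‖((((Real.sqrt (m t))⁻¹ : ℝ) : ℂ) • (M.inc (a t) * (1 - d))) M.Om‖ ^ 2 *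
          ‖(e * M.inc (b t)) ξ‖ ^ 2 ≤ ∑ t, Ca ^ 2 * ‖M.inc (b t) ξ‖ ^ 2 := by
          refine Finset.sum_le_sum fun t _ => ?_
          exact mul_le_mul (hα t) (hβ t) (sq_nonneg _) (sq_nonneg _)
      _ = Ca ^ 2 * ∑ t, ‖M.inc (b t) ξ‖ ^ 2 := by rw [Finset.mul_sum]
      _ ≤ Ca ^ 2 * (Cb ^ 2 * ‖ξ‖ ^ 2) :=
          mul_le_mul_of_nonneg_left (M.sum_inc_le b Cb hb ξ) (sq_nonneg _)
      _ = (Ca * Cb) ^ 2 * ‖ξ‖ ^ 2 := by ring

include hm hi hiS hd he hds hes hd1 in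
/-- The annihilation part is small if `‖e Ω‖` is small.

Proof. `crR = ∑ star (β_j) star (ℓ) star (α_j)` with `α_j = inc (star (b j)) * e` and
`β_j = m_j^{-1/2} (1-d) inc (star (a j))` (`star e = e`, `star d = d`). By `cre_norm_le` (second
part): `‖α_j Ω‖ ≤ Cb ‖e Ω‖` (`norm_inc_le`),
`∑ ‖β_j ξ‖² ≤ m0⁻¹ ∑ ‖inc (star (a j)) ξ‖² ≤ m0⁻¹ Ca² ‖ξ‖²` (`sum_inc_le`). -/
theorem norm_crR_le (a b : Fin n → C(Z, ℂ)) (Ca Cb m0 : ℝ) (hCa : 0 ≤ Ca) (hCb : 0 ≤ Cb)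
    (hm0 : 0 < m0) (hm0' : ∀ j, m0 ≤ m j)
    (ha : ∀ x, ∑ j, ‖a j x‖ ^ 2 ≤ Ca ^ 2)
    (hb : ∀ j x, ‖b j x‖ ≤ Cb) :
    ‖M.crR m i d e a b‖ ≤ Ca * Cb * ‖e M.Om‖ / Real.sqrt m0 := by
  have hrw : M.crR m i d e a b = ∑ j, star ((((Real.sqrt (m j))⁻¹ : ℝ) : ℂ) •
      ((1 - d) * M.inc (star (a j)))) * star (M.ell (i j)) *
      star (M.inc (star (b j)) * e) := by
    rw [crR]
    refine Finset.sum_congr rfl fun j _ => ?_
    rw [star_smul, star_mul, star_mul, star_sub, star_one, hds, hes, map_star, map_star,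
      star_star, star_star, RCLike.star_def, Complex.conj_ofReal, smul_mul_assoc, smul_mul_assoc]
  rw [hrw]
  refine (cre_norm_le (M.E S) M.Om (fun j => M.ell (i j))
    (fun s t x hx => M.compress_fam S i hi hiS s t x hx) _ _ (fun t => ?_)
    (Ca * Cb * ‖e M.Om‖ / Real.sqrt m0) (by positivity) (fun ξ => ?_)).2
  · exact mul_mem (M.inc_mem S _) he
  · have hα : ∀ t, ‖(M.inc (star (b t)) * e) M.Om‖ ^ 2 ≤ (Cb * ‖e M.Om‖) ^ 2 := by
      intro t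
      refine pow_le_pow_left₀ (norm_nonneg _) ?_ 2
      have h2 : (M.inc (star (b t)) * e) M.Om = M.inc (star (b t)) (e M.Om) := rfl
      rw [h2]
      refine ((M.inc (star (b t))).le_opNorm _).trans ?_
      refine mul_le_mul_of_nonneg_right ?_ (norm_nonneg _)
      refine M.norm_inc_le _ Cb hCb fun x => ?_
      rw [ContinuousMap.star_apply, norm_star]
      exact hb t x
    have hβ : ∀ t, ‖((((Real.sqrt (m t))⁻¹ : ℝ) : ℂ) • ((1 - d) * M.inc (star (a t)))) ξ‖ ^ 2 ≤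
        m0⁻¹ * ‖M.inc (star (a t)) ξ‖ ^ 2 := by
      intro t
      have hmt := hm t
      rw [smul_apply, norm_smul, mul_pow, Complex.norm_real, Real.norm_eq_abs, sq_abs, inv_pow,
        Real.sq_sqrt hmt.le]
      refine mul_le_mul (inv_anti₀ hm0 (hm0' t)) ?_ (sq_nonneg _) (inv_nonneg.2 hm0.le)
      refine pow_le_pow_left₀ (norm_nonneg _) ?_ 2
      have h2 : ((1 - d) * M.inc (star (a t))) ξ = (1 - d) (M.inc (star (a t)) ξ) := rfl
      rw [h2]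
      exact ((1 - d).le_opNorm _).trans (mul_le_of_le_one_left (norm_nonneg _) hd1)
    have hs : ∀ x, ∑ j, ‖(star (a j)) x‖ ^ 2 ≤ Ca ^ 2 := by
      intro x
      refine le_trans (le_of_eq ?_) (ha x)
      refine Finset.sum_congr rfl fun j _ => ?_
      rw [ContinuousMap.star_apply, norm_star]
    calc ∑ t, ‖(M.inc (star (b t)) * e) M.Om‖ ^ 2 *
          ‖((((Real.sqrt (m t))⁻¹ : ℝ) : ℂ) • ((1 - d) * M.inc (star (a t)))) ξ‖ ^ 2
          ≤ ∑ t, (Cb * ‖e M.Om‖) ^ 2 * (m0⁻¹ * ‖M.inc (star (a t)) ξ‖ ^ 2) := by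
          refine Finset.sum_le_sum fun t _ => ?_
          exact mul_le_mul (hα t) (hβ t) (sq_nonneg _) (sq_nonneg _)
      _ = (Cb * ‖e M.Om‖) ^ 2 * (m0⁻¹ * ∑ t, ‖M.inc (star (a t)) ξ‖ ^ 2) := by
          rw [Finset.mul_sum, Finset.mul_sum]
      _ ≤ (Cb * ‖e M.Om‖) ^ 2 * (m0⁻¹ * (Ca ^ 2 * ‖ξ‖ ^ 2)) := by
          refine mul_le_mul_of_nonneg_left ?_ (sq_nonneg _)
          exact mul_le_mul_of_nonneg_left (M.sum_inc_le (fun j => star (a j)) Ca hs ξ)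
            (inv_nonneg.2 hm0.le)
      _ = (Ca * Cb * ‖e M.Om‖ / Real.sqrt m0) ^ 2 * ‖ξ‖ ^ 2 := by
          rw [div_pow, Real.sq_sqrt hm0.le]
          ring

end FModel
end H47
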