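import Pool.Agent.H.MP_47f0a1_an.AbsB

/-!
# One block of the absorption lemma
-/

open scoped InnerProductSpace
open MeasureTheory

namespace H47
namespace FModel

variable {Z : Type} [MetricSpace Z] [CompactSpace Z] [MeasurableSpace Z] [BorelSpace Z]
  {μ : Measure Z} [IsProbabilityMeasure μ]
  {K : Type} [NormedAddCommGroup K] [InnerProductSpace ℂ K] [CompleteSpace K]
  (M : FModel C(Z, ℂ) (intL μ) K)

theorem absblock_h_sum {F : Finset C(Z, ℂ)} {ε : ℝ} (P : Part μ F ε) (x : Z) :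
    ∑ j, ‖P.h j x‖ ^ 2 = 1 := by
  have h1 : ∀ j, ((‖P.h j x‖ ^ 2 : ℝ) : ℂ) = P.h j x * P.h j x := by
    intro j
    have h2 : star (P.h j x) = P.h j x := by
      have h3 := congrArg (fun f : C(Z, ℂ) => f x) (P.sa j)
      exact h3
    have h4 : (starRingEnd ℂ) (P.h j x) * P.h j x = ((‖P.h j x‖ ^ 2 : ℝ) : ℂ) := by
      rw [Complex.conj_mul']
      push_cast
      rfl
    rw [← h4]
    congr 1
  have h5 := congrArg (fun f : C(Z, ℂ) => f x) P.sum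
  simp only [ContinuousMap.coe_sum, Finset.sum_apply, ContinuousMap.mul_apply,
    ContinuousMap.one_apply] at h5
  have h6 : ((∑ j, ‖P.h j x‖ ^ 2 : ℝ) : ℂ) = 1 := by
    push_cast
    rw [← h5]
    refine Finset.sum_congr rfl fun j _ => ?_
    rw [← h1 j]
    push_cast
    rfl
  exact_mod_cast h6

theorem absblock_h_le {F : Finset C(Z, ℂ)} {ε : ℝ} (P : Part μ F ε) (j : Fin P.n) (x : Z) :
    ‖P.h j x‖ ≤ 1 := by
  have h1 := absblock_h_sum P x
  have h2 : ‖P.h j x‖ ^ 2 ≤ ∑ j, ‖P.h j x‖ ^ 2 :=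
    Finset.single_le_sum (f := fun j => ‖P.h j x‖ ^ 2) (fun _ _ => sq_nonneg _)
      (Finset.mem_univ j)
  rw [h1] at h2
  nlinarith [norm_nonneg (P.h j x)]

theorem absblock_add {n : ℕ} (m : Fin n → ℝ) (i : Fin n → ℕ) (d e : K →L[ℂ] K)
    (a b : Fin n → C(Z, ℂ)) :
    M.crL m i d e a b + M.crR m i d e a b = ∑ j, (((Real.sqrt (m j))⁻¹ : ℝ) : ℂ) •
      (M.inc (a j) * (1 - d) * M.s (i j) * (e * M.inc (b j))) := by
  rw [crL, crR, ← Finset.sum_add_distrib]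
  refine Finset.sum_congr rfl fun j _ => ?_
  rw [← smul_add, FModel.s, mul_add, add_mul]

/-- The functions `k_j = (a - a (z j)) h_j`. -/
noncomputable def absblockK {F : Finset C(Z, ℂ)} {ε : ℝ} (P : Part μ F ε) (a : C(Z, ℂ))
    (j : Fin P.n) : C(Z, ℂ) := (a - algebraMap ℂ C(Z, ℂ) (a (P.z j))) * P.h j

theorem absblockK_norm {F : Finset C(Z, ℂ)} {ε : ℝ} (P : Part μ F ε) (a : C(Z, ℂ)) (ha : a ∈ F)
    (j : Fin P.n) (x : Z) : ‖absblockK P a j x‖ ≤ ε * ‖P.h j x‖ := P.osc a ha j x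

theorem absblock_mul {F : Finset C(Z, ℂ)} {ε : ℝ} (P : Part μ F ε) (a : C(Z, ℂ))
    (j : Fin P.n) : a * P.h j = absblockK P a j + a (P.z j) • P.h j := by
  rw [absblockK, sub_mul, Algebra.smul_def]
  abel

theorem absblock_mass {F : Finset C(Z, ℂ)} {ε : ℝ} (P : Part μ F ε) (j : Fin P.n) :
    ∫ x, ‖P.h j x‖ ^ 2 ∂μ = P.m j := by
  have h1 := P.mass j
  have h2 := base_intL_star_mul μ (P.h j)
  rw [P.sa j, h1] at h2
  exact_mod_cast h2.symm

theorem absblock_ma {F : Finset C(Z, ℂ)} {ε : ℝ} (P : Part μ F ε) (j : Fin P.n) :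
    (intL μ (star (P.h j) * P.h j)).re ≤ 1 ^ 2 * P.m j := by
  rw [base_intL_star_mul, Complex.ofReal_re, absblock_mass, one_pow, one_mul]

theorem absblockK_ma {F : Finset C(Z, ℂ)} {ε : ℝ} (P : Part μ F ε) (a : C(Z, ℂ))
    (ha : a ∈ F) (j : Fin P.n) :
    (intL μ (star (absblockK P a j) * absblockK P a j)).re ≤ ε ^ 2 * P.m j := by
  rw [base_intL_star_mul, Complex.ofReal_re, ← absblock_mass P j, ← integral_const_mul]
  have hint : ∀ f : C(Z, ℂ), Integrable (fun x => ‖f x‖ ^ 2) μ := by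
    intro f
    have h1 : Continuous fun x => ‖f x‖ ^ 2 := f.continuous.norm.pow 2
    exact BoundedContinuousFunction.integrable μ
      (BoundedContinuousFunction.mkOfCompact ⟨fun x => ‖f x‖ ^ 2, h1⟩)
  refine integral_mono (hint _) ((hint _).const_mul _) fun x => ?_
  have h2 := absblockK_norm P a ha j x
  calc ‖absblockK P a j x‖ ^ 2 ≤ (ε * ‖P.h j x‖) ^ 2 := pow_le_pow_left₀ (norm_nonneg _) h2 2
    _ = ε ^ 2 * ‖P.h j x‖ ^ 2 := by ring

theorem absblockK_sum {F : Finset C(Z, ℂ)} {ε : ℝ} (P : Part μ F ε) (a : C(Z, ℂ))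
    (ha : a ∈ F) (x : Z) : ∑ j, ‖absblockK P a j x‖ ^ 2 ≤ ε ^ 2 := by
  calc ∑ j, ‖absblockK P a j x‖ ^ 2 ≤ ∑ j, ε ^ 2 * ‖P.h j x‖ ^ 2 := by
        refine Finset.sum_le_sum fun j _ => ?_
        have h2 := absblockK_norm P a ha j x
        calc ‖absblockK P a j x‖ ^ 2 ≤ (ε * ‖P.h j x‖) ^ 2 :=
              pow_le_pow_left₀ (norm_nonneg _) h2 2
          _ = ε ^ 2 * ‖P.h j x‖ ^ 2 := by ring
    _ = ε ^ 2 := by rw [← Finset.mul_sum, absblock_h_sum, mul_one]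

theorem absblock_int {F : Finset C(Z, ℂ)} {ε : ℝ} (P : Part μ F ε) (t : C(Z, Z))
    (d e : K →L[ℂ] K) (x : Fin P.n → (K →L[ℂ] K)) (a : C(Z, ℂ)) :
    M.inc a * (∑ j, (((Real.sqrt (P.m j))⁻¹ : ℝ) : ℂ) •
      (M.inc (P.h j) * (1 - d) * x j * (e * M.inc ((P.h j).comp t)))) -
    (∑ j, (((Real.sqrt (P.m j))⁻¹ : ℝ) : ℂ) •
      (M.inc (P.h j) * (1 - d) * x j * (e * M.inc ((P.h j).comp t)))) * M.inc (a.comp t) =
    (∑ j, (((Real.sqrt (P.m j))⁻¹ : ℝ) : ℂ) •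
      (M.inc (absblockK P a j) * (1 - d) * x j * (e * M.inc ((P.h j).comp t)))) -
    (∑ j, (((Real.sqrt (P.m j))⁻¹ : ℝ) : ℂ) •
      (M.inc (P.h j) * (1 - d) * x j * (e * M.inc ((absblockK P a j).comp t)))) := by
  rw [Finset.mul_sum, Finset.sum_mul, ← Finset.sum_sub_distrib, ← Finset.sum_sub_distrib]
  refine Finset.sum_congr rfl fun j _ => ?_
  rw [mul_smul_comm, smul_mul_assoc, ← smul_sub, ← smul_sub]
  congr 1
  have h1 : M.inc a * M.inc (P.h j) =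
      M.inc (absblockK P a j) + a (P.z j) • M.inc (P.h j) := by
    rw [← map_mul, absblock_mul, map_add, map_smul]
  have h2 : M.inc ((P.h j).comp t) * M.inc (a.comp t) =
      M.inc ((absblockK P a j).comp t) + a (P.z j) • M.inc ((P.h j).comp t) := by
    rw [← map_mul]
    have h3 : (P.h j).comp t * a.comp t = (absblockK P a j).comp t +
        a (P.z j) • (P.h j).comp t := by
      have h4 : (P.h j).comp t * a.comp t = (a * P.h j).comp t := by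
        ext x
        simp [mul_comm]
      rw [h4, absblock_mul]
      ext x
      simp
    rw [h3, map_add, map_smul]
  have h5 : M.inc a * (M.inc (P.h j) * (1 - d) * x j * (e * M.inc ((P.h j).comp t))) =
      (M.inc a * M.inc (P.h j)) * (1 - d) * x j * (e * M.inc ((P.h j).comp t)) := by
    simp only [mul_assoc]
  have h6 : M.inc (P.h j) * (1 - d) * x j * (e * M.inc ((P.h j).comp t)) * M.inc (a.comp t) =
      M.inc (P.h j) * (1 - d) * x j * (e * (M.inc ((P.h j).comp t) * M.inc (a.comp t))) := by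
    simp only [mul_assoc]
  rw [h5, h6, h1, h2, add_mul, add_mul, add_mul, mul_add, mul_add, smul_mul_assoc,
    smul_mul_assoc, smul_mul_assoc, mul_smul_comm, mul_smul_comm]
  abel

theorem absblock_star_inner (A : K →L[ℂ] K) (x y : K) :
    ⟪(star A) x, y⟫_ℂ = ⟪x, A y⟫_ℂ := by
  rw [ContinuousLinearMap.star_eq_adjoint, ContinuousLinearMap.adjoint_inner_left]

/-- Bessel inequality for contractions with orthogonal ranges. -/
theorem absblock_bessel {X : Type*} [Fintype X] [DecidableEq X] (L : X → (K →L[ℂ] K))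
    (hL : ∀ x y, x ≠ y → star (L x) * L y = 0) (hL1 : ∀ x, ‖L x‖ ≤ 1) (η : K) :
    ∑ x, ‖(star (L x)) η‖ ^ 2 ≤ ‖η‖ ^ 2 := by
  set s : ℝ := ∑ x, ‖(star (L x)) η‖ ^ 2 with hs
  set ζ : K := ∑ x, (L x) ((star (L x)) η) with hζ
  have hs0 : 0 ≤ s := Finset.sum_nonneg fun x _ => sq_nonneg _
  have h1 : ⟪η, ζ⟫_ℂ = (s : ℂ) := by
    rw [hζ, inner_sum, hs]
    push_cast
    refine Finset.sum_congr rfl fun x _ => ?_
    rw [← absblock_star_inner, inner_self_eq_norm_sq_to_K]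
    norm_cast
  have h2 : s ≤ ‖η‖ * ‖ζ‖ := by
    have h3 := norm_inner_le_norm (𝕜 := ℂ) η ζ
    rw [h1, Complex.norm_real, Real.norm_eq_abs, abs_of_nonneg hs0] at h3
    exact h3
  have h4 : ‖ζ‖ ^ 2 ≤ s := by
    have h5 : ⟪ζ, ζ⟫_ℂ = ∑ x, ⟪(L x) ((star (L x)) η), (L x) ((star (L x)) η)⟫_ℂ := by
      rw [hζ, sum_inner]
      refine Finset.sum_congr rfl fun x _ => ?_
      rw [inner_sum]
      refine Finset.sum_eq_single x (fun y _ hy => ?_) (fun h => absurd (Finset.mem_univ _) h)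
      have h6 : (star (L x)) ((L y) ((star (L y)) η)) = 0 := by
        have h7 : (star (L x) * L y) ((star (L y)) η) = 0 := by
          rw [hL x y (Ne.symm hy)]
          rfl
        exact h7
      have h8 : ⟪(L x) ((star (L x)) η), (L y) ((star (L y)) η)⟫_ℂ =
          ⟪(star (L x)) η, (star (L x)) ((L y) ((star (L y)) η))⟫_ℂ := by
        have h9 := absblock_star_inner (star (L x)) ((star (L x)) η) ((L y) ((star (L y)) η))
        rw [star_star] at h9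
        exact h9
      rw [h8, h6, inner_zero_right]
    have h9 : (‖ζ‖ ^ 2 : ℝ) = ∑ x, ‖(L x) ((star (L x)) η)‖ ^ 2 := by
      have h10 := h5
      rw [inner_self_eq_norm_sq_to_K] at h10
      simp only [inner_self_eq_norm_sq_to_K] at h10
      exact_mod_cast h10
    rw [h9, hs]
    refine Finset.sum_le_sum fun x _ => ?_
    refine pow_le_pow_left₀ (norm_nonneg _) ?_ 2
    exact ((L x).le_opNorm _).trans (mul_le_of_le_one_left (norm_nonneg _) (hL1 x))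
  rcases eq_or_lt_of_le hs0 with h0 | h0
  · rw [← h0]
    exact sq_nonneg _
  · have h5 : s ^ 2 ≤ ‖η‖ ^ 2 * s := by
      calc s ^ 2 ≤ (‖η‖ * ‖ζ‖) ^ 2 := pow_le_pow_left₀ hs0 h2 2
        _ = ‖η‖ ^ 2 * ‖ζ‖ ^ 2 := by ring
        _ ≤ ‖η‖ ^ 2 * s := mul_le_mul_of_nonneg_left h4 (sq_nonneg _)
    nlinarith

/-- The norm of a sum `∑ V_x V_x*` from the column bound. -/
theorem absblock_col {X : Type*} [Fintype X] (V : X → (K →L[ℂ] K)) (C : ℝ) (hC : 0 ≤ C)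
    (h : ∀ η, ∑ x, ‖(star (V x)) η‖ ^ 2 ≤ C ^ 2 * ‖η‖ ^ 2) :
    ‖∑ x, V x * star (V x)‖ ≤ C ^ 2 := by
  refine ContinuousLinearMap.opNorm_le_bound _ (sq_nonneg _) fun η => ?_
  set ζ : K := (∑ x, V x * star (V x)) η with hζ
  have h0 : ⟪ζ, ζ⟫_ℂ = ∑ x, ⟪(star (V x)) ζ, (star (V x)) η⟫_ℂ := by
    have h1 : ζ = ∑ x, (V x) ((star (V x)) η) := by
      rw [hζ, _root_.sum_apply]
      rfl
    conv_lhs => rw [h1]
    conv_lhs => rw [← h1]
    conv_lhs => arg 3; rw [h1]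
    rw [inner_sum]
    refine Finset.sum_congr rfl fun x _ => ?_
    rw [absblock_star_inner]
  have h2 : ‖ζ‖ ^ 2 ≤ (C * ‖ζ‖) * (C * ‖η‖) := by
    have h3 : (‖ζ‖ ^ 2 : ℝ) = ‖⟪ζ, ζ⟫_ℂ‖ := by
      rw [inner_self_eq_norm_sq_to_K]
      simp
    rw [h3, h0]
    refine (norm_sum_le _ _).trans ?_
    calc ∑ x, ‖⟪(star (V x)) ζ, (star (V x)) η⟫_ℂ‖
        ≤ ∑ x, ‖(star (V x)) ζ‖ * ‖(star (V x)) η‖ :=
          Finset.sum_le_sum fun x _ => norm_inner_le_norm _ _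
      _ ≤ Real.sqrt (∑ x, ‖(star (V x)) ζ‖ ^ 2) * Real.sqrt (∑ x, ‖(star (V x)) η‖ ^ 2) :=
          Real.sum_mul_le_sqrt_mul_sqrt _ _ _
      _ ≤ (C * ‖ζ‖) * (C * ‖η‖) := by
          refine mul_le_mul ?_ ?_ (Real.sqrt_nonneg _) (by positivity)
          · refine Real.sqrt_le_iff.2 ⟨by positivity, ?_⟩
            rw [mul_pow]
            exact h ζ
          · refine Real.sqrt_le_iff.2 ⟨by positivity, ?_⟩
            rw [mul_pow]
            exact h η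
  rcases eq_or_lt_of_le (norm_nonneg ζ) with h0 | h0
  · rw [← h0]
    positivity
  · have h3 : ‖ζ‖ * ‖ζ‖ ≤ ‖ζ‖ * (C ^ 2 * ‖η‖) := by nlinarith
    exact le_of_mul_le_mul_left h3 h0

/-- One block, all estimates. Parameters: a partition `P` (fineness `ε`), a continuous map `t`, labels
`i j ∉ S`, cut-offs `d, e ∈ E S`. Put `v = crL + crR`. Then `v` almost intertwines, and is close to
its creation part.

Proof. (1) `v = ∑ m_j^{-1/2} inc (h j) (1-d) s_{i j} e inc (h j ∘ t) ∈ E univ`.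
(2) `inc a * v - v * inc (a ∘ t) = [crL + crR](k, h∘t) - [crL + crR](h, k∘t)` with
`k j = (a - a (z j)) * h j` (the constants `a (z j)` cancel), `|k j| ≤ ε |h j|` by `P.osc`; the four
terms are bounded by `norm_crL_le` (with `(Ca, Cb) = (ε, 1)` and `(1, ε)`) and `norm_crR_le`
(the same), giving `2 ε + 2 ε ‖e Ω‖/√m0 ≤ 4 ε`.
(3) `‖crL‖ ≤ 1`, `‖crR‖ ≤ ‖e Ω‖/√m0`. -/
theorem block {F : Finset C(Z, ℂ)} {ε : ℝ} (hε : 0 ≤ ε) (P : Part μ F ε) (t : C(Z, Z))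
    (S : Set ℕ) (i : Fin P.n → ℕ) (hi : Function.Injective i) (hiS : ∀ j, i j ∉ S)
    (d e : K →L[ℂ] K) (hd : d ∈ M.E S) (he : e ∈ M.E S) (hds : star d = d) (hes : star e = e)
    (hd1 : ‖1 - d‖ ≤ 1) (he1 : ‖e‖ ≤ 1) (m0 : ℝ) (hm0 : 0 < m0) (hm0' : ∀ j, m0 ≤ P.m j)
    (heO : ‖e M.Om‖ ≤ Real.sqrt m0) :
    (M.crL P.m i d e P.h (fun j => (P.h j).comp t) +
        M.crR P.m i d e P.h (fun j => (P.h j).comp t) ∈ M.E Set.univ) ∧
    (∀ a ∈ F, ‖M.inc a * (M.crL P.m i d e P.h (fun j => (P.h j).comp t) +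
        M.crR P.m i d e P.h (fun j => (P.h j).comp t)) -
      (M.crL P.m i d e P.h (fun j => (P.h j).comp t) +
        M.crR P.m i d e P.h (fun j => (P.h j).comp t)) * M.inc (a.comp t)‖ ≤ 4 * ε) ∧
    ‖M.crL P.m i d e P.h (fun j => (P.h j).comp t)‖ ≤ 1 ∧
    ‖M.crR P.m i d e P.h (fun j => (P.h j).comp t)‖ ≤ ‖e M.Om‖ / Real.sqrt m0 := by
  have hm : ∀ j, 0 < P.m j := P.pos
  have hs0 : 0 < Real.sqrt m0 := Real.sqrt_pos.2 hm0
  have hratio : ‖e M.Om‖ / Real.sqrt m0 ≤ 1 := by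
    rw [div_le_one hs0]
    exact heO
  have hht : ∀ x, ∑ j, ‖((P.h j).comp t) x‖ ^ 2 ≤ 1 ^ 2 := by
    intro x
    rw [one_pow]
    exact (absblock_h_sum P (t x)).le
  have hht' : ∀ j x, ‖((P.h j).comp t) x‖ ≤ 1 := fun j x => absblock_h_le P j (t x)
  have hh : ∀ x, ∑ j, ‖P.h j x‖ ^ 2 ≤ 1 ^ 2 := by
    intro x
    rw [one_pow]
    exact (absblock_h_sum P x).le
  refine ⟨?_, ?_, ?_, ?_⟩
  · rw [absblock_add]
    refine sum_mem fun j _ => ?_
    refine SMulMemClass.smul_mem _ ?_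
    have hdu := M.E_mono (Set.subset_univ S) hd
    have heu := M.E_mono (Set.subset_univ S) he
    exact mul_mem (mul_mem (mul_mem (M.inc_mem _ _) (sub_mem (one_mem _) hdu))
      (M.s_mem _ _ (Set.mem_univ _))) (mul_mem heu (M.inc_mem _ _))
  · intro a ha
    have hkt : ∀ x, ∑ j, ‖((absblockK P a j).comp t) x‖ ^ 2 ≤ ε ^ 2 :=
      fun x => absblockK_sum P a ha (t x)
    have hkt' : ∀ j x, ‖((absblockK P a j).comp t) x‖ ≤ ε := by
      intro j x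
      refine (absblockK_norm P a ha j (t x)).trans ?_
      exact mul_le_of_le_one_right hε (absblock_h_le P j (t x))
    have e1 := M.absblock_int P t d e (fun j => M.ell (i j)) a
    have e2 := M.absblock_int P t d e (fun j => star (M.ell (i j))) a
    have n1 := M.norm_crL_le P.m hm S i hi hiS d e hd he hds hd1 he1 (absblockK P a)
      (fun j => (P.h j).comp t) ε 1 hε zero_le_one (absblockK_ma P a ha) hht
    have n2 := M.norm_crL_le P.m hm S i hi hiS d e hd he hds hd1 he1 P.h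
      (fun j => (absblockK P a j).comp t) 1 ε zero_le_one hε (absblock_ma P) hkt
    have n3 := M.norm_crR_le P.m hm S i hi hiS d e hd he hds hes hd1 (absblockK P a)
      (fun j => (P.h j).comp t) ε 1 m0 hε zero_le_one hm0 hm0' (absblockK_sum P a ha) hht'
    have n4 := M.norm_crR_le P.m hm S i hi hiS d e hd he hds hes hd1 P.h
      (fun j => (absblockK P a j).comp t) 1 ε m0 zero_le_one hε hm0 hm0' hh hkt'
    have e3 : M.inc a * (M.crL P.m i d e P.h (fun j => (P.h j).comp t) +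
        M.crR P.m i d e P.h (fun j => (P.h j).comp t)) -
      (M.crL P.m i d e P.h (fun j => (P.h j).comp t) +
        M.crR P.m i d e P.h (fun j => (P.h j).comp t)) * M.inc (a.comp t) =
      (M.crL P.m i d e (absblockK P a) (fun j => (P.h j).comp t) -
        M.crL P.m i d e P.h (fun j => (absblockK P a j).comp t)) +
      (M.crR P.m i d e (absblockK P a) (fun j => (P.h j).comp t) -
        M.crR P.m i d e P.h (fun j => (absblockK P a j).comp t)) := by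
      simp only [crL, crR]
      rw [← e1, ← e2]
      rw [mul_add, add_mul]
      abel
    rw [e3]
    have n3' : ‖M.crR P.m i d e (absblockK P a) (fun j => (P.h j).comp t)‖ ≤ ε := by
      refine n3.trans ?_
      calc ε * 1 * ‖e M.Om‖ / Real.sqrt m0 = ε * (‖e M.Om‖ / Real.sqrt m0) := by ring
        _ ≤ ε * 1 := mul_le_mul_of_nonneg_left hratio hε
        _ = ε := mul_one _
    have n4' : ‖M.crR P.m i d e P.h (fun j => (absblockK P a j).comp t)‖ ≤ ε := by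
      refine n4.trans ?_
      calc 1 * ε * ‖e M.Om‖ / Real.sqrt m0 = ε * (‖e M.Om‖ / Real.sqrt m0) := by ring
        _ ≤ ε * 1 := mul_le_mul_of_nonneg_left hratio hε
        _ = ε := mul_one _
    refine (norm_add_le _ _).trans ?_
    refine (add_le_add (norm_sub_le _ _) (norm_sub_le _ _)).trans ?_
    linarith
  · have n1 := M.norm_crL_le P.m hm S i hi hiS d e hd he hds hd1 he1 P.h
      (fun j => (P.h j).comp t) 1 1 zero_le_one zero_le_one (absblock_ma P) hht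
    rw [mul_one] at n1
    exact n1
  · have n3 := M.norm_crR_le P.m hm S i hi hiS d e hd he hds hes hd1 P.h
      (fun j => (P.h j).comp t) 1 1 m0 zero_le_one zero_le_one hm0 hm0' hh hht'
    rw [one_mul, one_mul] at n3
    exact n3

/-- Left annihilation: `‖y v‖ ≤ n m0^{-1/2} 2 ρ` if `‖y inc (h j) (1-d)‖ ≤ ρ` for all `j`. Termwise
estimate, with `‖ell + star ell‖ ≤ 2`, `‖e‖ ≤ 1`, `‖inc (h j ∘ t)‖ ≤ 1`. -/
theorem block_left {F : Finset C(Z, ℂ)} {ε : ℝ} (P : Part μ F ε) (t : C(Z, Z))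
    (i : Fin P.n → ℕ) (d e : K →L[ℂ] K) (he1 : ‖e‖ ≤ 1) (m0 : ℝ) (hm0 : 0 < m0)
    (hm0' : ∀ j, m0 ≤ P.m j) (y : K →L[ℂ] K) (ρ : ℝ)
    (hρ : ∀ j, ‖y * (M.inc (P.h j) * (1 - d))‖ ≤ ρ) :
    ‖y * (M.crL P.m i d e P.h (fun j => (P.h j).comp t) +
        M.crR P.m i d e P.h (fun j => (P.h j).comp t))‖ ≤ P.n * (2 * ρ / Real.sqrt m0) := by
  rw [absblock_add, Finset.mul_sum]
  refine (norm_sum_le _ _).trans ?_
  have h1 : ∀ j ∈ (Finset.univ : Finset (Fin P.n)), ‖y * ((((Real.sqrt (P.m j))⁻¹ : ℝ) : ℂ) •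
      (M.inc (P.h j) * (1 - d) * M.s (i j) * (e * M.inc ((P.h j).comp t))))‖ ≤
      2 * ρ / Real.sqrt m0 := by
    intro j _
    have hm : 0 < P.m j := P.pos j
    have h2 : y * ((((Real.sqrt (P.m j))⁻¹ : ℝ) : ℂ) •
      (M.inc (P.h j) * (1 - d) * M.s (i j) * (e * M.inc ((P.h j).comp t)))) =
      (((Real.sqrt (P.m j))⁻¹ : ℝ) : ℂ) • ((y * (M.inc (P.h j) * (1 - d))) * M.s (i j) *
        (e * M.inc ((P.h j).comp t))) := by
      rw [mul_smul_comm]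
      simp only [mul_assoc]
    rw [h2, norm_smul, Complex.norm_real, Real.norm_eq_abs,
      abs_of_nonneg (inv_nonneg.2 (Real.sqrt_nonneg _))]
    have hρ0 : 0 ≤ ρ := (norm_nonneg _).trans (hρ j)
    have h3 : ‖(y * (M.inc (P.h j) * (1 - d))) * M.s (i j) *
        (e * M.inc ((P.h j).comp t))‖ ≤ ρ * 2 * (1 * 1) := by
      refine (norm_mul_le _ _).trans (mul_le_mul ?_ ?_ (norm_nonneg _) (by positivity))
      · exact (norm_mul_le _ _).trans (mul_le_mul (hρ j) (M.norm_s_le _) (norm_nonneg _) hρ0)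
      · refine (norm_mul_le _ _).trans (mul_le_mul he1 ?_ (norm_nonneg _) zero_le_one)
        exact M.norm_inc_le _ 1 zero_le_one fun x => absblock_h_le P j (t x)
    have h4 : (Real.sqrt (P.m j))⁻¹ ≤ (Real.sqrt m0)⁻¹ :=
      inv_anti₀ (Real.sqrt_pos.2 hm0) (Real.sqrt_le_sqrt (hm0' j))
    calc (Real.sqrt (P.m j))⁻¹ * ‖(y * (M.inc (P.h j) * (1 - d))) * M.s (i j) *
        (e * M.inc ((P.h j).comp t))‖ ≤ (Real.sqrt m0)⁻¹ * (ρ * 2 * (1 * 1)) :=
          mul_le_mul h4 h3 (norm_nonneg _) (inv_nonneg.2 (Real.sqrt_nonneg _))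
      _ = 2 * ρ / Real.sqrt m0 := by ring
  refine (Finset.sum_le_card_nsmul _ _ _ h1).trans ?_
  rw [Finset.card_univ, Fintype.card_fin, nsmul_eq_mul]

/-- Row bound: `‖∑ v_x v_x*‖ ≤ 4` for contractions `L_x` with orthogonal ranges and small `R_x`.

Proof. `‖∑ v_x v_x*‖ = ‖V‖²` where `V (ξ_x) = ∑ v_x ξ_x`; in terms of vectors: for `η`,
`⟪η, ∑ v_x v_x* η⟫ = ∑ ‖v_x* η‖² ≤ (√(∑ ‖L_x* η‖²) + √(∑ ‖R_x* η‖²))²` (Minkowski), and
`∑ ‖L_x* η‖² ≤ ‖η‖²` since `L_x* L_y = 0` for `x ≠ y` and `‖L_x‖ ≤ 1`: with `ζ = ∑ L_x L_x* η`,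
`∑ ‖L_x* η‖² = ⟪η, ζ⟫ ≤ ‖η‖ ‖ζ‖` and `‖ζ‖² = ∑ ‖L_x L_x* η‖² ≤ ∑ ‖L_x* η‖²`. The second sum is at
most `(∑ ‖R_x‖²) ‖η‖² ≤ ‖η‖²`. -/
theorem row_bound {X : Type*} [Fintype X] [DecidableEq X] (L R : X → (K →L[ℂ] K))
    (hL : ∀ x y, x ≠ y → star (L x) * L y = 0) (hL1 : ∀ x, ‖L x‖ ≤ 1)
    (hR : ∑ x, ‖R x‖ ^ 2 ≤ 1) :
    ‖∑ x, (L x + R x) * star (L x + R x)‖ ≤ 4 := by
  have h := absblock_col (fun x => L x + R x) 2 (by norm_num) (fun η => ?_)
  · have e : (2 : ℝ) ^ 2 = 4 := by norm_num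
    rw [e] at h
    exact h
  · have h1 : ∀ x, ‖(star (L x + R x)) η‖ ^ 2 ≤
        2 * ‖(star (L x)) η‖ ^ 2 + 2 * (‖R x‖ ^ 2 * ‖η‖ ^ 2) := by
      intro x
      have h2 : (star (L x + R x)) η = (star (L x)) η + (star (R x)) η := by
        rw [star_add]
        rfl
      have h3 : ‖(star (R x)) η‖ ≤ ‖R x‖ * ‖η‖ := by
        rw [← norm_star (R x)]
        exact (star (R x)).le_opNorm η
      have h4 : ‖(star (L x + R x)) η‖ ≤ ‖(star (L x)) η‖ + ‖R x‖ * ‖η‖ := by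
        rw [h2]
        exact (norm_add_le _ _).trans (add_le_add le_rfl h3)
      calc ‖(star (L x + R x)) η‖ ^ 2 ≤ (‖(star (L x)) η‖ + ‖R x‖ * ‖η‖) ^ 2 :=
            pow_le_pow_left₀ (norm_nonneg _) h4 2
        _ ≤ 2 * ‖(star (L x)) η‖ ^ 2 + 2 * (‖R x‖ ^ 2 * ‖η‖ ^ 2) := by
            nlinarith [sq_nonneg (‖(star (L x)) η‖ - ‖R x‖ * ‖η‖)]
    calc ∑ x, ‖(star (L x + R x)) η‖ ^ 2
        ≤ ∑ x, (2 * ‖(star (L x)) η‖ ^ 2 + 2 * (‖R x‖ ^ 2 * ‖η‖ ^ 2)) :=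
          Finset.sum_le_sum fun x _ => h1 x
      _ = 2 * ∑ x, ‖(star (L x)) η‖ ^ 2 + 2 * ((∑ x, ‖R x‖ ^ 2) * ‖η‖ ^ 2) := by
          rw [Finset.sum_add_distrib, Finset.mul_sum, Finset.sum_mul, Finset.mul_sum]
      _ ≤ 2 * ‖η‖ ^ 2 + 2 * (1 * ‖η‖ ^ 2) := by
          refine add_le_add (mul_le_mul_of_nonneg_left (absblock_bessel L hL hL1 η) (by norm_num)) ?_
          refine mul_le_mul_of_nonneg_left ?_ (by norm_num)
          exact mul_le_mul_of_nonneg_right hR (sq_nonneg _)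
      _ = 2 ^ 2 * ‖η‖ ^ 2 := by ring

end FModel
end H47
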