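import Pool.Agent.H.MP_47f0a1_an.Defs

/-!
# Freeness: monotonicity, reindexing, homomorphisms
-/

namespace H47

variable {A B I J : Type*} [Ring A] [StarRing A] [Algebra ℂ A] [StarModule ℂ A]
  [Ring B] [StarRing B] [Algebra ℂ B] [StarModule ℂ B]

/-- Smaller subalgebras of a free family are free. Immediate. -/
theorem free_mono (φ : A →ₗ[ℂ] ℂ) (S T : I → StarSubalgebra ℂ A) (h : ∀ i, T i ≤ S i)
    (hS : IsFree φ S) : IsFree φ T :=
  fun l hl hc hp => hS l hl hc (fun p hpl => ⟨h _ (hp p hpl).1, (hp p hpl).2⟩)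

/-- Reindexing along an injective map. Proof: map the list by `Prod.map e id`; `List.isChain_map`
turns the chain condition for `e p.1 ≠ e q.1` into that of `p.1 ≠ q.1`. -/
theorem free_reindex (φ : A →ₗ[ℂ] ℂ) (S : I → StarSubalgebra ℂ A) (e : J → I)
    (he : Function.Injective e) (hS : IsFree φ S) : IsFree φ (fun j => S (e j)) := by
  intro l hl hc hp
  have h1 := hS (l.map (Prod.map e id)) (by simpa using hl) (by
    rw [List.isChain_map]
    exact hc.imp (fun p q hpq => fun h => hpq (he h))) (by
    intro p hpl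
    rw [List.mem_map] at hpl
    obtain ⟨q, hq, rfl⟩ := hpl
    exact hp q hq)
  rw [List.map_map] at h1
  exact h1

/-- Pull back: if `f : A → B` is a unital star homomorphism, `f (T i) ⊆ S i` and the `S i` are free
for `φ` then the `T i` are free for `φ ∘ f`. Proof: map the list by `Prod.map id f`, and
`map_list_prod`. -/
theorem free_comp (φ : B →ₗ[ℂ] ℂ) (f : A →⋆ₐ[ℂ] B) (T : I → StarSubalgebra ℂ A)
    (S : I → StarSubalgebra ℂ B) (h : ∀ i, ∀ x ∈ T i, f x ∈ S i) (hS : IsFree φ S)
    (ψ : A →ₗ[ℂ] ℂ) (hψ : ∀ x, ψ x = φ (f x)) : IsFree ψ T := by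
  intro l hl hc hp
  have h1 := hS (l.map (Prod.map id f)) (by simpa using hl) (by
    rw [List.isChain_map]
    exact hc) (by
    intro p hpl
    rw [List.mem_map] at hpl
    obtain ⟨q, hq, rfl⟩ := hpl
    refine ⟨h _ _ (hp q hq).1, ?_⟩
    have := (hp q hq).2
    rw [hψ] at this
    exact this)
  rw [hψ, map_list_prod, List.map_map]
  rw [List.map_map] at h1
  exact h1

/-- Lifting a word letter by letter. -/
theorem freebasic_lift (φ : B →ₗ[ℂ] ℂ) (f : A →⋆ₐ[ℂ] B) (T : I → StarSubalgebra ℂ A)
    (S : I → StarSubalgebra ℂ B) (h : ∀ i, ∀ y ∈ S i, ∃ x ∈ T i, f x = y)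
    (l : List (I × B)) (hp : ∀ p ∈ l, p.2 ∈ S p.1 ∧ φ p.2 = 0) :
    ∃ l' : List (I × A), l'.map (Prod.map id f) = l ∧ ∀ p ∈ l', p.2 ∈ T p.1 := by
  induction l with
  | nil => exact ⟨[], rfl, by simp⟩
  | cons q l ih =>
    obtain ⟨l', h1, h2⟩ := ih (fun p hp' => hp p (List.mem_cons_of_mem _ hp'))
    obtain ⟨x, hx, hfx⟩ := h q.1 q.2 (hp q List.mem_cons_self).1
    refine ⟨(q.1, x) :: l', ?_, ?_⟩
    · rw [List.map_cons, h1]
      simp only [Prod.map, id, hfx]
    · intro p hp'
      rcases List.mem_cons.1 hp' with rfl | hp'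
      · exact hx
      · exact h2 p hp'

/-- Push forward: if the `T i` are free for `φ ∘ f`, and `S i ⊆ f (T i)`, then the `S i` are free
for `φ`. Proof: lift each letter of the word to `T i` (choice, by induction on the list or with
`List.map` over `List.attach`): every list `l` over `I × B` with letters in `f (T i)` is
`l'.map (Prod.map id f)` for a list `l'` with letters in `T i`. -/
theorem free_push (φ : B →ₗ[ℂ] ℂ) (f : A →⋆ₐ[ℂ] B) (T : I → StarSubalgebra ℂ A)
    (S : I → StarSubalgebra ℂ B) (h : ∀ i, ∀ y ∈ S i, ∃ x ∈ T i, f x = y)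
    (ψ : A →ₗ[ℂ] ℂ) (hψ : ∀ x, ψ x = φ (f x)) (hT : IsFree ψ T) : IsFree φ S := by
  intro l hl hc hp
  obtain ⟨l', rfl, h2⟩ := freebasic_lift φ f T S h l hp
  have h1 := hT l' (by simpa using hl) (by
    rw [List.isChain_map] at hc
    exact hc) (by
    intro p hpl
    refine ⟨h2 p hpl, ?_⟩
    rw [hψ]
    exact (hp (Prod.map id f p) (List.mem_map_of_mem hpl)).2)
  rw [hψ, map_list_prod, List.map_map] at h1
  rw [List.map_map]
  exact h1

/-- The inclusion of the members of a family into their supremum is free for a two-member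
family given by a pair: freeness of `![S, T]` is freeness of the family indexed by `Option Unit`,
etc. We only need this form: a family indexed by `Option J` whose `none` member is `S none`.
If `e : Option J → I` is injective and surjective then nothing changes. This is `free_reindex`. -/
theorem free_reindex_equiv (φ : A →ₗ[ℂ] ℂ) (S : I → StarSubalgebra ℂ A) (e : J ≃ I) :
    IsFree φ (fun j => S (e j)) ↔ IsFree φ S := by
  constructor
  · intro h
    have h1 := free_reindex φ (fun j => S (e j)) e.symm e.symm.injective h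
    simpa using h1
  · exact free_reindex φ S e e.injective

end H47
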