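import Pool.Agent.H.MP_47f0a1_an.FreeSpan

/-!
# Freeness: traces
-/

namespace H47

variable {A I : Type*} [Ring A] [StarRing A] [Algebra ℂ A] [StarModule ℂ A]

omit [StarRing A] [StarModule ℂ A] in
/-- Multiplying by a scalar on the left. -/
theorem freetrace_smul (φ : A →ₗ[ℂ] ℂ) (c : ℂ) (x : A) :
    φ (algebraMap ℂ A c * x) = c * φ x := by
  rw [← Algebra.smul_def, map_smul, smul_eq_mul]

omit [StarRing A] [StarModule ℂ A] in
/-- The centring of an element is centred. -/
theorem freetrace_center (φ : A →ₗ[ℂ] ℂ) (h1 : φ 1 = 1) (x : A) :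
    φ (x - algebraMap ℂ A (φ x)) = 0 := by
  have h : φ (algebraMap ℂ A (φ x)) = φ x := by
    have := freetrace_smul φ (φ x) 1
    rw [mul_one, h1, mul_one] at this
    exact this
  rw [map_sub, h, sub_self]

/-- The left hand side vanishes on words of length at least two. -/
theorem freetrace_left (φ : A →ₗ[ℂ] ℂ) (h1 : φ 1 = 1) (S : I → StarSubalgebra ℂ A)
    (hS : IsFree φ S) (i : I) (a : A) (ha : a ∈ S i) (ha0 : φ a = 0) (j : I) (b : A)
    (l : List (I × A)) (hl : l ≠ [])
    (hc : ((j, b) :: l).IsChain (fun p q => p.1 ≠ q.1))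
    (hm : ∀ p ∈ ((j, b) :: l), p.2 ∈ S p.1 ∧ φ p.2 = 0) :
    φ (a * (((j, b) :: l).map Prod.snd).prod) = 0 := by
  by_cases hij : i = j
  · subst hij
    have hb : b ∈ S i := (hm _ List.mem_cons_self).1
    rw [List.isChain_cons] at hc
    have hl0 : φ (l.map Prod.snd).prod = 0 :=
      hS l hl hc.2 (fun p hp => hm p (List.mem_cons_of_mem _ hp))
    have hk := hS ((i, a * b - algebraMap ℂ A (φ (a * b))) :: l) (by simp)
      (by rw [List.isChain_cons]; exact ⟨hc.1, hc.2⟩)
      (by
        intro p hp
        rcases List.mem_cons.1 hp with rfl | hp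
        · exact ⟨sub_mem (mul_mem ha hb) ((S i).algebraMap_mem _), freetrace_center φ h1 _⟩
        · exact hm p (List.mem_cons_of_mem _ hp))
    rw [List.map_cons, List.prod_cons, sub_mul, map_sub, freetrace_smul, hl0, mul_zero,
      sub_zero] at hk
    rw [List.map_cons, List.prod_cons, ← mul_assoc]
    exact hk
  · have hk := hS ((i, a) :: (j, b) :: l) (by simp)
      (by
        rw [List.isChain_cons]
        refine ⟨?_, hc⟩
        intro y hy
        simp only [List.head?_cons, Option.mem_def, Option.some.injEq] at hy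
        subst hy
        exact hij)
      (by
        intro p hp
        rcases List.mem_cons.1 hp with rfl | hp
        · exact ⟨ha, ha0⟩
        · exact hm p hp)
    rw [List.map_cons, List.prod_cons] at hk
    exact hk

/-- The right hand side vanishes on words of length at least two. -/
theorem freetrace_right (φ : A →ₗ[ℂ] ℂ) (h1 : φ 1 = 1) (S : I → StarSubalgebra ℂ A)
    (hS : IsFree φ S) (i : I) (a : A) (ha : a ∈ S i) (ha0 : φ a = 0) (j : I) (b : A)
    (l : List (I × A)) (hl : l ≠ [])
    (hc : (l ++ [(j, b)]).IsChain (fun p q => p.1 ≠ q.1))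
    (hm : ∀ p ∈ (l ++ [(j, b)]), p.2 ∈ S p.1 ∧ φ p.2 = 0) :
    φ (((l ++ [(j, b)]).map Prod.snd).prod * a) = 0 := by
  by_cases hij : i = j
  · subst hij
    have hb : b ∈ S i := (hm (i, b) (by simp)).1
    rw [List.isChain_append] at hc
    have hl0 : φ (l.map Prod.snd).prod = 0 :=
      hS l hl hc.1 (fun p hp => hm p (List.mem_append_left _ hp))
    have hk := hS (l ++ [(i, b * a - algebraMap ℂ A (φ (b * a)))]) (by simp)
      (by
        rw [List.isChain_append]
        refine ⟨hc.1, List.isChain_singleton _, ?_⟩
        intro x hx y hy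
        simp only [List.head?_cons, Option.mem_def, Option.some.injEq] at hy
        subst hy
        exact hc.2.2 x hx (i, b) (by simp))
      (by
        intro p hp
        rcases List.mem_append.1 hp with hp | hp
        · exact hm p (List.mem_append_left _ hp)
        · rw [List.mem_singleton] at hp
          subst hp
          exact ⟨sub_mem (mul_mem hb ha) ((S i).algebraMap_mem _), freetrace_center φ h1 _⟩)
    rw [List.map_append, List.prod_append, List.map_singleton, List.prod_singleton, mul_sub,
      map_sub, ← Algebra.commutes, freetrace_smul, hl0, mul_zero, sub_zero] at hk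
    rw [List.map_append, List.prod_append, List.map_singleton, List.prod_singleton, mul_assoc]
    exact hk
  · have hk := hS ((l ++ [(j, b)]) ++ [(i, a)]) (by simp)
      (by
        rw [List.isChain_append]
        refine ⟨hc, List.isChain_singleton _, ?_⟩
        intro x hx y hy
        simp only [List.head?_cons, Option.mem_def, Option.some.injEq] at hy
        simp only [List.getLast?_concat, Option.mem_def, Option.some.injEq] at hx
        subst hx hy
        exact fun h => hij h.symm)
      (by
        intro p hp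
        rcases List.mem_append.1 hp with hp | hp
        · exact hm p hp
        · rw [List.mem_singleton] at hp
          subst hp
          exact ⟨ha, ha0⟩)
    rw [List.map_append, List.prod_append, List.map_singleton, List.prod_singleton] at hk
    exact hk

/-- The case of a centred letter and a word. -/
theorem freetrace_word (φ : A →ₗ[ℂ] ℂ) (h1 : φ 1 = 1) (S : I → StarSubalgebra ℂ A)
    (hS : IsFree φ S) (htr : ∀ i, ∀ x ∈ S i, ∀ y ∈ S i, φ (x * y) = φ (y * x))
    (i : I) (a : A) (ha : a ∈ S i) (ha0 : φ a = 0)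
    (l : List (I × A)) (hl : l ≠ []) (hc : l.IsChain (fun p q => p.1 ≠ q.1))
    (hm : ∀ p ∈ l, p.2 ∈ S p.1 ∧ φ p.2 = 0) :
    φ (a * (l.map Prod.snd).prod) = φ ((l.map Prod.snd).prod * a) := by
  match l, hl, hc, hm with
  | [(j, b)], _, _, hm =>
    have hb := hm (j, b) (by simp)
    simp only [List.map_cons, List.map_nil, List.prod_cons, List.prod_nil, mul_one]
    by_cases hij : i = j
    · subst hij
      exact htr i a ha b hb.1
    · have e1 := hS [(i, a), (j, b)] (by simp) (by simp [hij])
        (by
          intro p hp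
          simp only [List.mem_cons, List.not_mem_nil, or_false] at hp
          rcases hp with rfl | rfl
          · exact ⟨ha, ha0⟩
          · exact hb)
      have e2 := hS [(j, b), (i, a)] (by simp) (by simp [Ne.symm hij])
        (by
          intro p hp
          simp only [List.mem_cons, List.not_mem_nil, or_false] at hp
          rcases hp with rfl | rfl
          · exact hb
          · exact ⟨ha, ha0⟩)
      simp only [List.map_cons, List.map_nil, List.prod_cons, List.prod_nil, mul_one] at e1 e2
      rw [e1, e2]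
  | (j, b) :: q :: l', _, hc, hm =>
    rw [freetrace_left φ h1 S hS i a ha ha0 j b (q :: l') (by simp) hc hm]
    obtain ⟨L, r, hL⟩ : ∃ L r, (j, b) :: q :: l' = L ++ [r] :=
      ⟨_, _, (List.dropLast_append_getLast (by simp)).symm⟩
    obtain ⟨k, c⟩ := r
    have hLne : L ≠ [] := by
      rintro rfl
      simp at hL
    rw [hL] at hc hm ⊢
    rw [freetrace_right φ h1 S hS i a ha ha0 k c L hLne hc hm]

/-- The case of a letter and an element of the generated algebra. -/
theorem freetrace_letter (φ : A →ₗ[ℂ] ℂ) (h1 : φ 1 = 1) (S : I → StarSubalgebra ℂ A)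
    (hS : IsFree φ S) (htr : ∀ i, ∀ x ∈ S i, ∀ y ∈ S i, φ (x * y) = φ (y * x))
    (i : I) (a : A) (ha : a ∈ S i) (y : A) (hy : y ∈ ⨆ i, S i) :
    φ (a * y) = φ (y * a) := by
  have key : ∀ w ∈ Submodule.span ℂ (cwords φ S), φ (a * w) = φ (w * a) := by
    intro w hw
    induction hw using Submodule.span_induction with
    | mem w hw =>
      obtain ⟨l, hl, hc, hm, rfl⟩ := hw
      have h := freetrace_word φ h1 S hS htr i (a - algebraMap ℂ A (φ a))
        (sub_mem ha ((S i).algebraMap_mem _)) (freetrace_center φ h1 a) l hl hc hm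
      rw [sub_mul, mul_sub, map_sub, map_sub, Algebra.commutes] at h
      exact sub_left_injective h
    | zero => simp
    | add x y _ _ hx hy => rw [mul_add, add_mul, map_add, map_add, hx, hy]
    | smul c x _ hx => rw [mul_smul_comm, smul_mul_assoc, map_smul, map_smul, hx]
  have h := key _ (span_words_free φ h1 S hS y hy)
  rw [sub_mul, mul_sub, map_sub, map_sub, Algebra.commutes] at h
  exact sub_left_injective h

/-- A functional for which the family is free and which is tracial on every member is tracial on
the algebra generated by the family.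

Proof. The set of `a` such that `φ (a b) = φ (b a)` for all `b` in the algebra `G = ⨆ S i` is, inside
`G`, closed under products (`φ (a a' b) = φ (a' b a) = φ (b a a')`), sums, and contains scalars; so it
suffices to take `a ∈ S i`, and, subtracting `φ a`, we may assume `φ a = 0`. By `span_words_free` it
suffices to take for `b` the value of a nonempty alternating centred list
`(i₁,b₁) :: … :: (iₙ,bₙ)`. Put `w = b₂ ⋯ bₙ`, `w' = b₁ ⋯ bₙ₋₁`.
If `i₁ ≠ i` then `φ (a b) = 0` by freeness. If `i₁ = i` then
`a b = (a b₁ - φ (a b₁)) w + φ (a b₁) w`, whose first term is a centred alternating word, so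
`φ (a b) = φ (a b₁) φ w`, which is `φ (a b₁)` if `n = 1` and `0` if `n ≥ 2`.
Symmetrically `φ (b a) = 0` if `iₙ ≠ i` and otherwise `φ (b a) = φ w' φ (bₙ a)`, which is
`φ (b₁ a)` if `n = 1` and `0` if `n ≥ 2`. For `n = 1` and `i₁ = i` the two agree because `φ` is
tracial on `S i`; in all other cases both are `0`. (For the right-hand side use lists of the form
`l ++ [(iₙ, bₙ)]`, `List.isChain_append`.) -/
theorem free_tracial (φ : A →ₗ[ℂ] ℂ) (h1 : φ 1 = 1) (S : I → StarSubalgebra ℂ A)
    (hS : IsFree φ S) (htr : ∀ i, ∀ x ∈ S i, ∀ y ∈ S i, φ (x * y) = φ (y * x)) :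
    ∀ x ∈ ⨆ i, S i, ∀ y ∈ ⨆ i, S i, φ (x * y) = φ (y * x) := by
  let T : StarSubalgebra ℂ A :=
    { carrier := {a | a ∈ ⨆ i, S i ∧ (∀ y ∈ ⨆ i, S i, φ (a * y) = φ (y * a)) ∧
        (∀ y ∈ ⨆ i, S i, φ (star a * y) = φ (y * star a))}
      mul_mem' := by
        rintro a b ⟨ha, ha1, ha2⟩ ⟨hb, hb1, hb2⟩
        refine ⟨mul_mem ha hb, fun y hy => ?_, fun y hy => ?_⟩
        · rw [mul_assoc, ha1 _ (mul_mem hb hy), mul_assoc, hb1 _ (mul_mem hy ha), mul_assoc]
        · rw [star_mul, mul_assoc, hb2 _ (mul_mem (star_mem ha) hy), mul_assoc,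
            ha2 _ (mul_mem hy (star_mem hb)), mul_assoc]
      add_mem' := by
        rintro a b ⟨ha, ha1, ha2⟩ ⟨hb, hb1, hb2⟩
        refine ⟨add_mem ha hb, fun y hy => ?_, fun y hy => ?_⟩
        · rw [mul_add, add_mul, map_add, map_add, ha1 y hy, hb1 y hy]
        · rw [star_add, mul_add, add_mul, map_add, map_add, ha2 y hy, hb2 y hy]
      algebraMap_mem' := by
        intro c
        refine ⟨(⨆ i, S i).algebraMap_mem c, fun y _ => ?_, fun y _ => ?_⟩
        · rw [Algebra.commutes]
        · rw [← algebraMap_star_comm, Algebra.commutes]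
      star_mem' := by
        rintro a ⟨ha, ha1, ha2⟩
        refine ⟨star_mem ha, ha2, fun y hy => ?_⟩
        rw [star_star]
        exact ha1 y hy }
  have hT : (⨆ i, S i) ≤ T := iSup_le fun i a ha =>
    ⟨(le_iSup S i) ha, fun y hy => freetrace_letter φ h1 S hS htr i a ha y hy,
      fun y hy => freetrace_letter φ h1 S hS htr i (star a) (star_mem ha) y hy⟩
  intro x hx y hy
  exact (hT hx).2.1 y hy

end H47
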