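import Pool.Agent.H.MP_47f0a1_an.ModelFree
import Pool.Agent.H.MP_47f0a1_an.FreeTrace
import Pool.Agent.H.MP_47f0a1_an.FreeBasic

/-!
# Fock models: the vacuum state is a trace on `E univ`, faithful if the model is cyclic
-/

open scoped InnerProductSpace

namespace H47
namespace FModel

variable {A : Type*} [Ring A] [StarRing A] [Algebra ℂ A] [StarModule ℂ A]
  {τ : A →ₗ[ℂ] ℂ} {K : Type*} [NormedAddCommGroup K] [InnerProductSpace ℂ K]
  [CompleteSpace K] (M : FModel A τ K)

/-- The free family generated by `inc` and by the `s j`. -/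
noncomputable def modelTrace_fam : Option {j : ℕ // j ∉ (∅ : Set ℕ)} → StarSubalgebra ℂ (K →L[ℂ] K)
  | none => M.inc.range
  | some j => StarAlgebra.elemental ℂ (M.s j.1)

theorem modelTrace_free : IsFree M.st M.modelTrace_fam := by
  refine free_mono M.st (M.fam ∅) M.modelTrace_fam ?_ (M.free_fam ∅)
  intro i
  cases i with
  | none =>
    intro x hx
    obtain ⟨a, rfl⟩ := hx
    exact M.inc_mem ∅ a
  | some j => exact le_refl _

theorem modelTrace_tr_member (hτ : ∀ a b, τ (a * b) = τ (b * a))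
    (i : Option {j : ℕ // j ∉ (∅ : Set ℕ)}) :
    ∀ x ∈ M.modelTrace_fam i, ∀ y ∈ M.modelTrace_fam i, M.st (x * y) = M.st (y * x) := by
  cases i with
  | none =>
    intro x hx y hy
    obtain ⟨a, rfl⟩ := hx
    obtain ⟨b, rfl⟩ := hy
    have h1 : (M.inc : A →⋆ₐ[ℂ] (K →L[ℂ] K)) a * M.inc b = M.inc (a * b) := (map_mul _ _ _).symm
    have h2 : (M.inc : A →⋆ₐ[ℂ] (K →L[ℂ] K)) b * M.inc a = M.inc (b * a) := (map_mul _ _ _).symm
    have h3 : M.st (M.inc a * M.inc b) = M.st (M.inc b * M.inc a) := by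
      rw [h1, h2, M.st_inc, M.st_inc, hτ]
    exact h3
  | some j =>
    intro x hx y hy
    have : IsStarNormal (M.s j.1) := ⟨by rw [M.s_star j.1]⟩
    have h := mul_comm (⟨x, hx⟩ : StarAlgebra.elemental ℂ (M.s j.1)) ⟨y, hy⟩
    have h' : x * y = y * x := congrArg Subtype.val h
    rw [h']

theorem modelTrace_E_le : M.E Set.univ ≤ (⨆ i, M.modelTrace_fam i).topologicalClosure := by
  refine M.E_le Set.univ _ (StarSubalgebra.isClosed_topologicalClosure _) ?_ ?_
  · intro a
    apply StarSubalgebra.le_topologicalClosure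
    have h : M.modelTrace_fam none ≤ ⨆ i, M.modelTrace_fam i := le_iSup M.modelTrace_fam none
    exact h ⟨a, rfl⟩
  · intro j _
    apply StarSubalgebra.le_topologicalClosure
    have h : M.modelTrace_fam (some ⟨j, by simp⟩) ≤ ⨆ i, M.modelTrace_fam i :=
      le_iSup M.modelTrace_fam (some ⟨j, by simp⟩)
    exact h (StarAlgebra.elemental.self_mem ℂ (M.s j))

/-- Trace property.

Proof. The family `{range inc} ∪ {C*(s_j)}_{j ∈ ℕ}` is free (`free_fam` with `S = ∅`, `free_mono`,
reindexing), and `st` is tracial on each member (`st (inc a) = τ a`; `C*(s_j)` is commutative, as the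
closure of the polynomials in the selfadjoint element `s_j`; there is an instance for
`StarAlgebra.elemental` of a normal element). By `free_tracial` it is tracial on the algebra that
they generate, which is dense in `E univ`; conclude by continuity of `st` and of the product
(first in `x`, then in `y`). -/
theorem st_tr (hτ : ∀ a b, τ (a * b) = τ (b * a)) (x y : K →L[ℂ] K) (hx : x ∈ M.E Set.univ)
    (hy : y ∈ M.E Set.univ) : M.st (x * y) = M.st (y * x) := by
  have htr := free_tracial M.st M.st_one M.modelTrace_fam M.modelTrace_free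
    (M.modelTrace_tr_member hτ)
  have hx' := M.modelTrace_E_le hx
  have hy' := M.modelTrace_E_le hy
  have hcl : ∀ z, z ∈ (⨆ i, M.modelTrace_fam i).topologicalClosure ↔
      z ∈ closure ((⨆ i, M.modelTrace_fam i : StarSubalgebra ℂ (K →L[ℂ] K)) :
        Set (K →L[ℂ] K)) := fun z => by
    rw [← StarSubalgebra.topologicalClosure_coe]
    rfl
  rw [hcl] at hx' hy'
  have step : ∀ y ∈ ⨆ i, M.modelTrace_fam i, M.st (x * y) = M.st (y * x) := by
    intro y hy
    have hc : IsClosed {z : K →L[ℂ] K | M.st (z * y) = M.st (y * z)} :=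
      isClosed_eq (M.st_continuous.comp (continuous_id.mul continuous_const))
        (M.st_continuous.comp (continuous_const.mul continuous_id))
    exact closure_minimal (fun z hz => htr z hz y hy) hc hx'
  have hc : IsClosed {z : K →L[ℂ] K | M.st (x * z) = M.st (z * x)} :=
    isClosed_eq (M.st_continuous.comp (continuous_const.mul continuous_id))
      (M.st_continuous.comp (continuous_id.mul continuous_const))
  exact closure_minimal (fun z hz => step z hz) hc hy'

/-- `‖x* Ω‖ = ‖x Ω‖` by the trace property and `st_star_mul`. -/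
theorem norm_star_Om (hτ : ∀ a b, τ (a * b) = τ (b * a)) (x : K →L[ℂ] K)
    (hx : x ∈ M.E Set.univ) : ‖(star x) M.Om‖ = ‖x M.Om‖ := by
  have h1 := M.st_star_mul x
  have h2 := M.st_star_mul (star x)
  rw [star_star] at h2
  have h3 := M.st_tr hτ (star x) x (star_mem hx) hx
  rw [h1, h2] at h3
  have h4 : ‖x M.Om‖ ^ 2 = ‖(star x) M.Om‖ ^ 2 := by exact_mod_cast h3
  exact ((sq_eq_sq₀ (norm_nonneg _) (norm_nonneg _)).1 h4).symm

/-- `‖x y Ω‖ ≤ ‖y‖ ‖x Ω‖`: `‖x y Ω‖ = ‖y* x* Ω‖ ≤ ‖y*‖ ‖x* Ω‖`. -/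
theorem norm_mul_Om_le (hτ : ∀ a b, τ (a * b) = τ (b * a)) (x y : K →L[ℂ] K)
    (hx : x ∈ M.E Set.univ) (hy : y ∈ M.E Set.univ) : ‖x (y M.Om)‖ ≤ ‖y‖ * ‖x M.Om‖ := by
  have h1 : ‖(star (x * y)) M.Om‖ = ‖(x * y) M.Om‖ := M.norm_star_Om hτ (x * y) (mul_mem hx hy)
  have h2 : (x * y) M.Om = x (y M.Om) := rfl
  have h3 : (star (x * y)) M.Om = (star y) ((star x) M.Om) := by
    rw [star_mul]
    rfl
  rw [← h2, ← h1, h3, ← M.norm_star_Om hτ x hx]
  refine ((star y).le_opNorm _).trans ?_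
  rw [norm_star]

/-- Faithfulness: if `x Ω = 0` then `x y Ω = 0` for all `y ∈ E univ` (`norm_mul_Om_le`), so `x = 0`
by cyclicity. -/
theorem eq_zero_of_Om (hτ : ∀ a b, τ (a * b) = τ (b * a)) (hc : M.Cyclic) (x : K →L[ℂ] K)
    (hx : x ∈ M.E Set.univ) (h0 : x M.Om = 0) : x = 0 := by
  ext ξ
  have hξ : ξ ∈ closure {ξ | ∃ x ∈ M.E Set.univ, x M.Om = ξ} := by
    rw [hc]
    exact Set.mem_univ ξ
  have hcl : IsClosed {ξ : K | x ξ = 0} := isClosed_eq x.continuous continuous_const
  have hsub : {ξ | ∃ x ∈ M.E Set.univ, x M.Om = ξ} ⊆ {ξ : K | x ξ = 0} := by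
    rintro _ ⟨y, hy, rfl⟩
    have h := M.norm_mul_Om_le hτ x y hx hy
    rw [h0, norm_zero, mul_zero] at h
    exact norm_le_zero_iff.1 h
  exact closure_minimal hsub hcl hξ

end FModel
end H47
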