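import Pool.Agent.H.MP_47f0a1_an.AbsB
import Pool.Agent.H.MP_47f0a1_an.ModelTrace

/-!
# The creation parts are almost isometric on the range of `b`, and mutually orthogonal
-/

open scoped InnerProductSpace
open MeasureTheory

namespace H47
namespace FModel

variable {Z : Type} [MetricSpace Z] [CompactSpace Z] [MeasurableSpace Z] [BorelSpace Z]
  {μ : Measure Z} [IsProbabilityMeasure μ]
  {K : Type} [NormedAddCommGroup K] [InnerProductSpace ℂ K] [CompleteSpace K]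
  (M : FModel C(Z, ℂ) (intL μ) K)

/-- `crL` in the form `∑ α_j ℓ_j β_j` with the scalars moved into `α_j`. -/
theorem absC_crL_eq {n : ℕ} (m : Fin n → ℝ) (i : Fin n → ℕ) (d e : K →L[ℂ] K)
    (a b : Fin n → C(Z, ℂ)) :
    M.crL m i d e a b = ∑ j, ((((Real.sqrt (m j))⁻¹ : ℝ) : ℂ) • (M.inc (a j) * (1 - d))) *
      M.ell (i j) * (e * M.inc (b j)) := by
  unfold crL
  refine Finset.sum_congr rfl fun j _ => ?_
  rw [smul_mul_assoc, smul_mul_assoc]

theorem absC_mem (S : Set ℕ) (c : ℂ) (a : C(Z, ℂ)) (d : K →L[ℂ] K) (hd : d ∈ M.E S) :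
    c • (M.inc a * (1 - d)) ∈ M.E S :=
  (M.E S).smul_mem (mul_mem (M.inc_mem S _) (sub_mem (one_mem _) hd)) c

/-- Orthogonality for different labels: `crL* crL' = 0`. Proof: `cre_mul_zero` (move the scalars
`m_j^{-1/2}` into `α_j`) and `FModel.compress` with `i ≠ j`. -/
theorem crL_orth {n : ℕ} (m m' : Fin n → ℝ) (S : Set ℕ) (i i' : Fin n → ℕ)
    (hne : ∀ j j', i j ≠ i' j') (hiS : ∀ j, i j ∉ S) (hiS' : ∀ j, i' j ∉ S)
    (d e : K →L[ℂ] K) (hd : d ∈ M.E S) (he : e ∈ M.E S) (a b a' b' : Fin n → C(Z, ℂ)) :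
    star (M.crL m i d e a b) * M.crL m' i' d e a' b' = 0 := by
  have _he := he
  rw [M.absC_crL_eq m, M.absC_crL_eq m']
  refine cre_mul_zero (M.E S) (fun t => M.ell (i t)) (fun t => M.ell (i' t)) ?_ _ _ _ _
    (fun t => M.absC_mem S _ _ d hd) (fun t => M.absC_mem S _ _ d hd)
  intro s t x hx
  rw [M.compress S _ _ (hiS s) (hiS' t) x hx, if_neg (hne s t)]

omit [IsProbabilityMeasure μ] in
/-- Pointwise: `|h j x| ≤ 1`. -/
theorem absC_h_le [IsFiniteMeasure μ] {F : Finset C(Z, ℂ)} {ε : ℝ} (P : Part μ F ε) (j : Fin P.n)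
    (x : Z) : ‖P.h j x‖ ≤ 1 := by
  have h0 : ∀ k, P.h k x * P.h k x = ((‖P.h k x‖ ^ 2 : ℝ) : ℂ) := by
    intro k
    have hk := congrArg (fun f : C(Z, ℂ) => f x) (P.sa k)
    simp only [ContinuousMap.star_apply] at hk
    have h2 : star (P.h k x) * P.h k x = ((‖P.h k x‖ ^ 2 : ℝ) : ℂ) := by
      rw [Complex.star_def, Complex.conj_mul']
      push_cast
      rfl
    rw [hk] at h2
    exact h2
  have h1 := congrArg (fun f : C(Z, ℂ) => f x) P.sum
  simp only [ContinuousMap.sum_apply, ContinuousMap.mul_apply, ContinuousMap.one_apply] at h1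
  simp only [h0] at h1
  have h2 : ∑ k, ‖P.h k x‖ ^ 2 = 1 := by
    exact_mod_cast h1
  have h3 : ‖P.h j x‖ ^ 2 ≤ 1 := by
    rw [← h2]
    exact Finset.single_le_sum (f := fun k => ‖P.h k x‖ ^ 2) (fun k _ => sq_nonneg _)
      (Finset.mem_univ j)
  have h4 := norm_nonneg (P.h j x)
  nlinarith

/-- The norms of the vectors `α_j Ω`. -/
theorem absC_coef {F : Finset C(Z, ℂ)} {ε : ℝ} (P : Part μ F ε) (S : Set ℕ) (d : K →L[ℂ] K)
    (hd : d ∈ M.E S) (hds : star d = d) (hd1 : ‖1 - d‖ ≤ 1) (m0 σ : ℝ) (hm0 : 0 < m0)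
    (hm0' : ∀ j, m0 ≤ P.m j) (hσ : 0 ≤ σ) (hσ1 : σ ≤ 1)
    (hdσ : ‖d M.Om‖ ≤ σ * Real.sqrt m0) (j : Fin P.n) :
    |‖((((Real.sqrt (P.m j))⁻¹ : ℝ) : ℂ) • (M.inc (P.h j) * (1 - d))) M.Om‖ ^ 2 - 1| ≤ 2 * σ := by
  have hmj : 0 < P.m j := P.pos j
  have hs : 0 < Real.sqrt (P.m j) := Real.sqrt_pos.2 hmj
  have hOm : ‖M.inc (P.h j) M.Om‖ = Real.sqrt (P.m j) := by
    have h := M.norm_inc_Om_sq (P.h j)
    rw [P.sa j, P.mass j, Complex.ofReal_re] at h
    rw [← h, Real.sqrt_sq (norm_nonneg _)]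
  have hup : ‖(M.inc (P.h j) * (1 - d)) M.Om‖ ≤ Real.sqrt (P.m j) := by
    have hx : M.inc (P.h j) * (1 - d) ∈ M.E Set.univ :=
      mul_mem (M.inc_mem _ _) (sub_mem (one_mem _) (M.E_mono (Set.subset_univ S) hd))
    rw [← M.norm_star_Om (fun a b => intL_comm μ a b) _ hx, star_mul, star_sub, star_one, hds,
      ← map_star, P.sa j, ContinuousLinearMap.mul_apply]
    calc ‖(1 - d) (M.inc (P.h j) M.Om)‖ ≤ ‖1 - d‖ * ‖M.inc (P.h j) M.Om‖ :=
          ContinuousLinearMap.le_opNorm _ _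
      _ ≤ 1 * Real.sqrt (P.m j) := by
          rw [hOm]
          exact mul_le_mul_of_nonneg_right hd1 hs.le
      _ = _ := one_mul _
  have hincle : ‖M.inc (P.h j)‖ ≤ 1 := M.norm_inc_le _ 1 zero_le_one (absC_h_le P j)
  have hsm : Real.sqrt m0 ≤ Real.sqrt (P.m j) := Real.sqrt_le_sqrt (hm0' j)
  have hlo : (1 - σ) * Real.sqrt (P.m j) ≤ ‖(M.inc (P.h j) * (1 - d)) M.Om‖ := by
    have h1 : (M.inc (P.h j) * (1 - d)) M.Om = M.inc (P.h j) M.Om - M.inc (P.h j) (d M.Om) := by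
      rw [ContinuousLinearMap.mul_apply, ContinuousLinearMap.sub_apply,
        ContinuousLinearMap.one_apply, map_sub]
    rw [h1]
    have h2 := norm_sub_norm_le (M.inc (P.h j) M.Om) (M.inc (P.h j) (d M.Om))
    have h3 : ‖M.inc (P.h j) (d M.Om)‖ ≤ σ * Real.sqrt (P.m j) := by
      calc ‖M.inc (P.h j) (d M.Om)‖ ≤ ‖M.inc (P.h j)‖ * ‖d M.Om‖ :=
            ContinuousLinearMap.le_opNorm _ _
        _ ≤ 1 * (σ * Real.sqrt m0) :=
            mul_le_mul hincle hdσ (norm_nonneg _) zero_le_one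
        _ ≤ σ * Real.sqrt (P.m j) := by
            rw [one_mul]
            exact mul_le_mul_of_nonneg_left hsm hσ
    rw [hOm] at h2
    linarith
  have hval : ‖((((Real.sqrt (P.m j))⁻¹ : ℝ) : ℂ) • (M.inc (P.h j) * (1 - d))) M.Om‖ =
      (Real.sqrt (P.m j))⁻¹ * ‖(M.inc (P.h j) * (1 - d)) M.Om‖ := by
    rw [ContinuousLinearMap.smul_apply, norm_smul, Complex.norm_real, Real.norm_eq_abs,
      abs_of_pos (inv_pos.2 hs)]
  rw [hval]
  set y := ‖(M.inc (P.h j) * (1 - d)) M.Om‖ with hy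
  set q := (Real.sqrt (P.m j))⁻¹ * y with hq
  have hqs : q * Real.sqrt (P.m j) = y := by
    rw [hq, mul_comm, ← mul_assoc, mul_inv_cancel₀ hs.ne', one_mul]
  have hq1 : q ≤ 1 := by
    by_contra hcon
    push Not at hcon
    nlinarith
  have hq2 : 1 - σ ≤ q := by
    by_contra hcon
    push Not at hcon
    nlinarith
  rw [abs_le]
  constructor <;> nlinarith

/-- Almost isometric: with a partition `h` of masses `m`, and `h j ∘ t`, and
`‖(1-e) inc (h j ∘ t) b‖ ≤ ρ`, `‖d Ω‖ ≤ σ √m0`: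
`‖L* L b - b‖ ≤ n (2 σ ‖b‖ + 2 ρ)`.

Proof. By `cre_mul`, `L* L = ∑_j c_j inc (h j ∘ t) e² inc (h j ∘ t)` with
`c_j = m_j⁻¹ ‖inc (h j) (1-d) Ω‖²`. Here `‖inc (h j) (1-d) Ω‖ = ‖(1-d) inc (h j) Ω‖ ≤ √m_j` by the
trace property (`norm_star_Om`) and `≥ ‖inc (h j) Ω‖ - ‖inc (h j)‖ ‖d Ω‖ ≥ √m_j - σ √m0 ≥ (1 - σ) √m_j`,
so `0 ≤ 1 - c_j ≤ 2 σ`. And `∑_j inc (h j ∘ t) inc (h j ∘ t) b = b`. So
`L* L b - b = ∑_j (c_j - 1) inc(h_j∘t) e² inc(h_j∘t) b + ∑_j inc(h_j∘t) (e² - 1) inc(h_j∘t) b`, and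
`‖(e² - 1) y‖ ≤ ‖1 + e‖ ‖(1-e) y‖ ≤ 2 ρ` for `y = inc (h j ∘ t) b`. Use `‖inc (h j ∘ t)‖ ≤ 1`
(`h j` is real with `∑ h j² = 1`), `‖e‖ ≤ 1`. -/
theorem crL_isom {F : Finset C(Z, ℂ)} {ε : ℝ} (P : Part μ F ε) (t : C(Z, Z)) (S : Set ℕ)
    (i : Fin P.n → ℕ) (hi : Function.Injective i) (hiS : ∀ j, i j ∉ S) (d e : K →L[ℂ] K)
    (hd : d ∈ M.E S) (he : e ∈ M.E S) (hds : star d = d) (hes : star e = e)
    (hd1 : ‖1 - d‖ ≤ 1) (he1 : ‖e‖ ≤ 1) (m0 σ ρ : ℝ) (hm0 : 0 < m0) (hm0' : ∀ j, m0 ≤ P.m j)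
    (hσ : 0 ≤ σ) (hσ1 : σ ≤ 1) (hdσ : ‖d M.Om‖ ≤ σ * Real.sqrt m0) (b : K →L[ℂ] K)
    (hρ : ∀ j, ‖(1 - e) * (M.inc ((P.h j).comp t) * b)‖ ≤ ρ) :
    ‖star (M.crL P.m i d e P.h (fun j => (P.h j).comp t)) *
        M.crL P.m i d e P.h (fun j => (P.h j).comp t) * b - b‖ ≤
      P.n * (2 * σ * ‖b‖ + 2 * ρ) := by
  have hHle : ∀ j, ‖M.inc ((P.h j).comp t)‖ ≤ 1 := fun j =>
    M.norm_inc_le _ 1 zero_le_one (fun x => absC_h_le P j (t x))
  have hHs : ∀ j, star (M.inc ((P.h j).comp t)) = M.inc ((P.h j).comp t) := by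
    intro j
    rw [← map_star]
    congr 1
    ext x
    exact congrArg (fun f : C(Z, ℂ) => f (t x)) (P.sa j)
  have hHsum : ∑ j, M.inc ((P.h j).comp t) * M.inc ((P.h j).comp t) = 1 := by
    simp only [← map_mul]
    rw [← map_sum]
    have h1 : (∑ j, (P.h j).comp t * (P.h j).comp t : C(Z, ℂ)) = 1 := by
      ext x
      have h2 := congrArg (fun f : C(Z, ℂ) => f (t x)) P.sum
      simp only [ContinuousMap.sum_apply, ContinuousMap.mul_apply, ContinuousMap.one_apply] at h2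
      simp only [ContinuousMap.sum_apply, ContinuousMap.mul_apply, ContinuousMap.comp_apply,
        ContinuousMap.one_apply]
      exact h2
    rw [h1, map_one]
  rw [M.absC_crL_eq P.m]
  rw [cre_mul (M.E S) M.st (fun j => M.ell (i j)) (fun j => M.ell (i j))
    (fun s t x hx => by
      rw [M.compress_fam S i hi hiS s t x hx, M.st_apply]) _ _ _ _
    (fun j => M.absC_mem S _ _ d hd) (fun j => M.absC_mem S _ _ d hd)]
  have hsplit : (∑ j, M.st (star ((((Real.sqrt (P.m j))⁻¹ : ℝ) : ℂ) • (M.inc (P.h j) * (1 - d))) *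
        ((((Real.sqrt (P.m j))⁻¹ : ℝ) : ℂ) • (M.inc (P.h j) * (1 - d)))) •
        (star (e * M.inc ((P.h j).comp t)) * (e * M.inc ((P.h j).comp t)))) * b - b =
      ∑ j, ((((‖((((Real.sqrt (P.m j))⁻¹ : ℝ) : ℂ) • (M.inc (P.h j) * (1 - d))) M.Om‖ ^ 2 - 1 : ℝ) :
        ℂ) • (M.inc ((P.h j).comp t) * (e * (e * (M.inc ((P.h j).comp t) * b))))) -
        M.inc ((P.h j).comp t) * ((1 + e) * ((1 - e) * (M.inc ((P.h j).comp t) * b)))) := by
    have hb : b = ∑ j, M.inc ((P.h j).comp t) * (M.inc ((P.h j).comp t) * b) := by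
      simp only [← mul_assoc]
      rw [← Finset.sum_mul, hHsum, one_mul]
    have h3 : (∑ j, M.st (star ((((Real.sqrt (P.m j))⁻¹ : ℝ) : ℂ) • (M.inc (P.h j) * (1 - d))) *
        ((((Real.sqrt (P.m j))⁻¹ : ℝ) : ℂ) • (M.inc (P.h j) * (1 - d)))) •
        (star (e * M.inc ((P.h j).comp t)) * (e * M.inc ((P.h j).comp t)))) * b - b =
        (∑ j, M.st (star ((((Real.sqrt (P.m j))⁻¹ : ℝ) : ℂ) • (M.inc (P.h j) * (1 - d))) *
        ((((Real.sqrt (P.m j))⁻¹ : ℝ) : ℂ) • (M.inc (P.h j) * (1 - d)))) •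
        (star (e * M.inc ((P.h j).comp t)) * (e * M.inc ((P.h j).comp t)))) * b -
        ∑ j, M.inc ((P.h j).comp t) * (M.inc ((P.h j).comp t) * b) := by
      rw [← hb]
    rw [h3, Finset.sum_mul, ← Finset.sum_sub_distrib]
    refine Finset.sum_congr rfl fun j _ => ?_
    rw [M.st_star_mul, star_mul, hes, hHs]
    push_cast
    rw [sub_smul, one_smul]
    simp only [smul_mul_assoc]
    noncomm_ring
  rw [hsplit]
  refine (norm_sum_le _ _).trans ?_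
  have hterm : ∀ j ∈ (Finset.univ : Finset (Fin P.n)),
      ‖(((‖((((Real.sqrt (P.m j))⁻¹ : ℝ) : ℂ) • (M.inc (P.h j) * (1 - d))) M.Om‖ ^ 2 - 1 : ℝ) :
        ℂ) • (M.inc ((P.h j).comp t) * (e * (e * (M.inc ((P.h j).comp t) * b))))) -
        M.inc ((P.h j).comp t) * ((1 + e) * ((1 - e) * (M.inc ((P.h j).comp t) * b)))‖ ≤
      2 * σ * ‖b‖ + 2 * ρ := by
    intro j _
    refine (norm_sub_le _ _).trans (add_le_add ?_ ?_)
    · rw [norm_smul, Complex.norm_real, Real.norm_eq_abs]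
      refine mul_le_mul (M.absC_coef P S d hd hds hd1 m0 σ hm0 hm0' hσ hσ1 hdσ j) ?_
        (norm_nonneg _) (by positivity)
      calc ‖M.inc ((P.h j).comp t) * (e * (e * (M.inc ((P.h j).comp t) * b)))‖
          ≤ ‖M.inc ((P.h j).comp t)‖ * (‖e‖ * (‖e‖ * (‖M.inc ((P.h j).comp t)‖ * ‖b‖))) := by
            refine (norm_mul_le _ _).trans (mul_le_mul_of_nonneg_left ?_ (norm_nonneg _))
            refine (norm_mul_le _ _).trans (mul_le_mul_of_nonneg_left ?_ (norm_nonneg _))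
            refine (norm_mul_le _ _).trans (mul_le_mul_of_nonneg_left ?_ (norm_nonneg _))
            exact norm_mul_le _ _
        _ ≤ 1 * (1 * (1 * (1 * ‖b‖))) := by
            gcongr
            · exact hHle j
            · exact hHle j
        _ = ‖b‖ := by ring
    · have hone : ‖(1 : K →L[ℂ] K)‖ ≤ 1 := ContinuousLinearMap.norm_id_le
      have h1e : ‖1 + e‖ ≤ 2 := by
        refine (norm_add_le _ _).trans ?_
        linarith
      calc ‖M.inc ((P.h j).comp t) * ((1 + e) * ((1 - e) * (M.inc ((P.h j).comp t) * b)))‖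
          ≤ ‖M.inc ((P.h j).comp t)‖ *
            (‖1 + e‖ * ‖(1 - e) * (M.inc ((P.h j).comp t) * b)‖) := by
            refine (norm_mul_le _ _).trans (mul_le_mul_of_nonneg_left ?_ (norm_nonneg _))
            exact norm_mul_le _ _
        _ ≤ 1 * (2 * ρ) := by
            refine mul_le_mul (hHle j) ?_ (by positivity) zero_le_one
            exact mul_le_mul h1e (hρ j) (norm_nonneg _) (by norm_num)
        _ = 2 * ρ := one_mul _
  refine (Finset.sum_le_sum hterm).trans ?_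
  rw [Finset.sum_const, Finset.card_univ, Fintype.card_fin, nsmul_eq_mul]

end FModel
end H47
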