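import Pool.Agent.H.MP_47f0a1_an.Util
import Pool.Agent.H.MP_47f0a1_an.ModelTrace

/-!
# Cutting off a small positive operator
-/

open scoped InnerProductSpace

namespace H47
namespace FModel

variable {A : Type*} [Ring A] [StarRing A] [Algebra ℂ A] [StarModule ℂ A]
  {τ : A →ₗ[ℂ] ℂ} {K : Type} [NormedAddCommGroup K] [InnerProductSpace ℂ K]
  [CompleteSpace K] (M : FModel A τ K)

theorem cut_inner_sum {ι : Type*} [Fintype ι] (z : ι → (K →L[ℂ] K)) (ξ : K) :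
    ⟪ξ, (∑ i, star (z i) * z i) ξ⟫_ℂ = ((∑ i, ‖z i ξ‖ ^ 2 : ℝ) : ℂ) := by
  rw [ContinuousLinearMap.sum_apply, inner_sum, Complex.ofReal_sum]
  refine Finset.sum_congr rfl fun i _ => ?_
  rw [ContinuousLinearMap.mul_apply, ContinuousLinearMap.star_eq_adjoint,
    ContinuousLinearMap.adjoint_inner_right, inner_self_eq_norm_sq_to_K]
  norm_cast

theorem cut_nonneg {ι : Type*} [Fintype ι] (z : ι → (K →L[ℂ] K)) :
    0 ≤ ∑ i, star (z i) * z i :=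
  Finset.sum_nonneg fun i _ => star_mul_self_nonneg (z i)

/-- Let `X ∈ E S` be a finite sum of operators `z* z`, with `st X` small. There is a positive
contraction `d ∈ E S` with small `‖d Ω‖` such that `(1-d) X (1-d)` is small in norm. Take
`d = cfc (fun t => min 1 (t/δ)) X`.

Proof. `X` is positive (`star_mul_self_nonneg`, the Loewner order on `K →L[ℂ] K`), so its spectrum
is in `[0, ∞)`. `(1-d) X (1-d) = cfc (t ↦ (1 - min 1 (t/δ))² t) X` and the function is between `0`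
and `δ` on `[0, ∞)`. `d² ≤ d ≤ X/δ` by comparison of functions on `[0, ∞)`, so
`‖d Ω‖² = ⟪Ω, d² Ω⟫ ≤ ⟪Ω, X Ω⟫/δ`. `0 ≤ d ≤ 1` gives `‖d‖ ≤ 1`, `‖1-d‖ ≤ 1`. -/
theorem exists_cut (S : Set ℕ) {ι : Type*} [Fintype ι] (z : ι → (K →L[ℂ] K)) (δ : ℝ) (hδ : 0 < δ)
    (hX : ∑ i, star (z i) * z i ∈ M.E S) :
    ∃ d ∈ M.E S, star d = d ∧ ‖d‖ ≤ 1 ∧ ‖1 - d‖ ≤ 1 ∧
      ‖(1 - d) * (∑ i, star (z i) * z i) * (1 - d)‖ ≤ δ ∧
      ‖d M.Om‖ ^ 2 ≤ (∑ i, ‖z i M.Om‖ ^ 2) / δ := by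
  set X : K →L[ℂ] K := ∑ i, star (z i) * z i with hXd
  have hX0 : 0 ≤ X := cut_nonneg z
  have hXs : IsSelfAdjoint X := hX0.isSelfAdjoint
  have hsp : ∀ t ∈ spectrum ℝ X, 0 ≤ t := fun t ht => spectrum_nonneg_of_nonneg hX0 ht
  let f : ℝ → ℝ := fun t => min 1 (t / δ)
  have hf : Continuous f := continuous_const.min (continuous_id.div_const δ)
  have hf0 : ∀ t ∈ spectrum ℝ X, 0 ≤ f t := fun t ht =>
    le_min zero_le_one (div_nonneg (hsp t ht) hδ.le)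
  have hf1 : ∀ t, f t ≤ 1 := fun t => min_le_left _ _
  have hfd : ∀ t, f t ≤ t / δ := fun t => min_le_right _ _
  have h1d : 1 - cfc f X = cfc (fun t => 1 - f t) X := by
    rw [cfc_sub (fun _ => (1 : ℝ)) f X (by fun_prop) hf.continuousOn, cfc_const_one ℝ X]
  refine ⟨cfc f X, cfc_mem_of_isClosed (M.E S) (M.isClosed_E S) X hX hXs f hf, ?_, ?_, ?_, ?_, ?_⟩
  · exact (cfc_predicate f X).star_eq
  · refine norm_cfc_le zero_le_one fun t ht => ?_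
    rw [Real.norm_eq_abs, abs_of_nonneg (hf0 t ht)]
    exact hf1 t
  · rw [h1d]
    refine norm_cfc_le zero_le_one fun t ht => ?_
    rw [Real.norm_eq_abs, abs_of_nonneg (by linarith [hf1 t])]
    linarith [hf0 t ht]
  · have hc : ContinuousOn (fun t => 1 - f t) (spectrum ℝ X) :=
      (continuous_const.sub hf).continuousOn
    have hid : ContinuousOn (fun t : ℝ => t) (spectrum ℝ X) := continuousOn_id
    have e : (1 - cfc f X) * X * (1 - cfc f X)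
        = cfc (fun t => (1 - f t) * t * (1 - f t)) X := by
      rw [h1d, cfc_mul (fun t => (1 - f t) * t) (fun t => 1 - f t) X (hc.mul hid) hc,
        cfc_mul (fun t => 1 - f t) (fun t => t) X hc hid, cfc_id' ℝ X]
    rw [e]
    refine norm_cfc_le hδ.le fun t ht => ?_
    have h0 := hsp t ht
    have ha : 0 ≤ 1 - f t := by linarith [hf1 t]
    rw [Real.norm_eq_abs, abs_of_nonneg (mul_nonneg (mul_nonneg ha h0) ha)]
    rcases le_total (t / δ) 1 with h | h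
    · have ht1 : t ≤ δ := by rwa [div_le_one hδ] at h
      have hb : 1 - f t ≤ 1 := by linarith [hf0 t ht]
      calc (1 - f t) * t * (1 - f t) ≤ 1 * t * 1 := by gcongr
        _ ≤ δ := by linarith
    · have : f t = 1 := min_eq_left h
      rw [this]
      simpa using hδ.le
  · have hle : cfc (fun t => f t * f t) X ≤ cfc (fun t => δ⁻¹ * t) X := by
      refine cfc_mono (fun t ht => ?_) (hf.mul hf).continuousOn (by fun_prop)
      calc f t * f t ≤ 1 * (t / δ) := mul_le_mul (hf1 t) (hfd t) (hf0 t ht) zero_le_one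
        _ = δ⁻¹ * t := by ring
    rw [cfc_mul f f X hf.continuousOn hf.continuousOn, cfc_const_mul δ⁻¹ (fun t => t) X (by fun_prop),
      cfc_id' ℝ X, ContinuousLinearMap.le_def] at hle
    have h2 := hle.re_inner_nonneg_right M.Om
    have h3 : ⟪M.Om, (cfc f X * cfc f X) M.Om⟫_ℂ = ((‖(cfc f X) M.Om‖ ^ 2 : ℝ) : ℂ) := by
      have := M.st_star_mul (cfc f X)
      rw [(cfc_predicate f X).star_eq] at this
      exact this
    have h4 := cut_inner_sum z M.Om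
    rw [← hXd] at h4
    have h7 : ⟪M.Om, (δ⁻¹ • X) M.Om⟫_ℂ = ((δ⁻¹ * ∑ i, ‖z i M.Om‖ ^ 2 : ℝ) : ℂ) := by
      rw [ContinuousLinearMap.smul_apply, RCLike.real_smul_eq_coe_smul (K := ℂ), inner_smul_right,
        h4, Complex.ofReal_mul]
      rfl
    rw [ContinuousLinearMap.sub_apply, inner_sub_right, h3, h7, ← Complex.ofReal_sub] at h2
    have h5 : ‖(cfc f X) M.Om‖ ^ 2 ≤ δ⁻¹ * ∑ i, ‖z i M.Om‖ ^ 2 := by
      have h6 : (0 : ℝ) ≤ δ⁻¹ * ∑ i, ‖z i M.Om‖ ^ 2 - ‖(cfc f X) M.Om‖ ^ 2 := h2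
      linarith
    rw [div_eq_inv_mul]
    exact h5

/-- Consequence: `‖z i * (1-d)‖² ≤ δ` for every `i`.
Proof: `(z i (1-d))* (z i (1-d)) ≤ (1-d) X (1-d)`, or with vectors:
`‖z i (1-d) ξ‖² ≤ ∑ ‖z i' (1-d) ξ‖² = ⟪ξ, (1-d) X (1-d) ξ⟫ ≤ δ ‖ξ‖²`. -/
theorem cut_each {ι : Type*} [Fintype ι] (z : ι → (K →L[ℂ] K)) (δ : ℝ) (d : K →L[ℂ] K)
    (hd : star d = d) (h : ‖(1 - d) * (∑ i, star (z i) * z i) * (1 - d)‖ ≤ δ) (i : ι) :
    ‖z i * (1 - d)‖ ^ 2 ≤ δ := by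
  have hδ : 0 ≤ δ := (norm_nonneg _).trans h
  have key : ∀ ξ, ‖(z i * (1 - d)) ξ‖ ^ 2 ≤ δ * ‖ξ‖ ^ 2 := fun ξ => by
    have h1 : ‖(z i * (1 - d)) ξ‖ ^ 2 ≤ ∑ k, ‖z k ((1 - d) ξ)‖ ^ 2 :=
      Finset.single_le_sum (f := fun k => ‖z k ((1 - d) ξ)‖ ^ 2) (fun k _ => sq_nonneg _)
        (Finset.mem_univ i)
    have h2 := cut_inner_sum z ((1 - d) ξ)
    have h3 : ⟪ξ, ((1 - d) * (∑ i, star (z i) * z i) * (1 - d)) ξ⟫_ℂ
        = ((∑ k, ‖z k ((1 - d) ξ)‖ ^ 2 : ℝ) : ℂ) := by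
      rw [← h2, ContinuousLinearMap.mul_apply, ContinuousLinearMap.mul_apply,
        ← ContinuousLinearMap.adjoint_inner_left, ← ContinuousLinearMap.star_eq_adjoint,
        star_sub, star_one, hd]
    have h4 : (∑ k, ‖z k ((1 - d) ξ)‖ ^ 2 : ℝ)
        = ‖⟪ξ, ((1 - d) * (∑ i, star (z i) * z i) * (1 - d)) ξ⟫_ℂ‖ := by
      rw [h3, Complex.norm_real, Real.norm_eq_abs,
        abs_of_nonneg (Finset.sum_nonneg fun k _ => sq_nonneg _)]
    calc ‖(z i * (1 - d)) ξ‖ ^ 2 ≤ ∑ k, ‖z k ((1 - d) ξ)‖ ^ 2 := h1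
      _ = ‖⟪ξ, ((1 - d) * (∑ i, star (z i) * z i) * (1 - d)) ξ⟫_ℂ‖ := h4
      _ ≤ ‖ξ‖ * ‖((1 - d) * (∑ i, star (z i) * z i) * (1 - d)) ξ‖ := norm_inner_le_norm _ _
      _ ≤ ‖ξ‖ * (‖(1 - d) * (∑ i, star (z i) * z i) * (1 - d)‖ * ‖ξ‖) :=
          mul_le_mul_of_nonneg_left (ContinuousLinearMap.le_opNorm _ _) (norm_nonneg _)
      _ ≤ ‖ξ‖ * (δ * ‖ξ‖) := by gcongr
      _ = δ * ‖ξ‖ ^ 2 := by ring
  have h5 : ‖z i * (1 - d)‖ ≤ Real.sqrt δ := by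
    refine ContinuousLinearMap.opNorm_le_bound _ (Real.sqrt_nonneg _) fun ξ => ?_
    refine abs_le_of_sq_le_sq' ?_ (by positivity) |>.2
    rw [mul_pow, Real.sq_sqrt hδ]
    exact key ξ
  calc ‖z i * (1 - d)‖ ^ 2 ≤ Real.sqrt δ ^ 2 := by gcongr
    _ = δ := Real.sq_sqrt hδ

end FModel
end H47
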