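import Pool.Agent.H.MP_47f0a1_an.AbsC
import Pool.Agent.H.MP_47f0a1_an.AbsBlock
import Pool.Agent.H.MP_47f0a1_an.Cut

/-!
# The absorption lemma
-/

open scoped InnerProductSpace
open MeasureTheory

namespace H47
namespace FModel

variable {Z : Type} [MetricSpace Z] [CompactSpace Z] [MeasurableSpace Z] [BorelSpace Z]
  {μ : Measure Z} [IsProbabilityMeasure μ]
  {K : Type} [NormedAddCommGroup K] [InnerProductSpace ℂ K] [CompleteSpace K]
  (M : FModel C(Z, ℂ) (intL μ) K)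

theorem absorb_sq {a b : ℝ} (h : a ^ 2 ≤ b ^ 2) (hb : 0 ≤ b) : a ≤ b := by
  nlinarith [abs_le_of_sq_le_sq h hb, le_abs_self a]

/-- the pointwise bound for the functions of a partition -/
theorem absorb_hle {F : Finset C(Z, ℂ)} {ε : ℝ} (P : Part μ F ε) (j : Fin P.n) (x : Z) :
    ‖P.h j x‖ ≤ 1 := by
  have hre : ∀ j, ((‖P.h j x‖ ^ 2 : ℝ) : ℂ) = P.h j x * P.h j x := by
    intro j
    have h1 : star (P.h j x) = P.h j x := by
      have h2 := congrArg (fun f : C(Z, ℂ) => f x) (P.sa j)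
      simpa using h2
    have h3 : star (P.h j x) * P.h j x = ((‖P.h j x‖ ^ 2 : ℝ) : ℂ) := by
      rw [Complex.star_def, Complex.conj_mul']
      push_cast
      rfl
    rw [← h3, h1]
  have hs : ∑ j, (‖P.h j x‖ ^ 2 : ℝ) = 1 := by
    have h2 := congrArg (fun f : C(Z, ℂ) => f x) P.sum
    simp only [ContinuousMap.coe_sum, Finset.sum_apply, ContinuousMap.mul_apply,
      ContinuousMap.one_apply] at h2
    have h4 : (((∑ j, (‖P.h j x‖ ^ 2 : ℝ)) : ℝ) : ℂ) = 1 := by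
      rw [Complex.ofReal_sum, ← h2]
      exact Finset.sum_congr rfl fun j _ => hre j
    exact_mod_cast h4
  have h5 : ‖P.h j x‖ ^ 2 ≤ ∑ j, (‖P.h j x‖ ^ 2 : ℝ) :=
    Finset.single_le_sum (f := fun j => (‖P.h j x‖ ^ 2 : ℝ)) (fun j _ => by positivity)
      (Finset.mem_univ j)
  rw [hs] at h5
  nlinarith [norm_nonneg (P.h j x)]

theorem absorb_inc {F : Finset C(Z, ℂ)} {ε : ℝ} (P : Part μ F ε) (j : Fin P.n) :
    ‖M.inc (P.h j)‖ ≤ 1 :=
  M.norm_inc_le _ 1 zero_le_one fun x => absorb_hle P j x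

theorem absorb_incc {F : Finset C(Z, ℂ)} {ε : ℝ} (P : Part μ F ε) (t : C(Z, Z)) (j : Fin P.n) :
    ‖M.inc ((P.h j).comp t)‖ ≤ 1 :=
  M.norm_inc_le _ 1 zero_le_one fun x => absorb_hle P j (t x)

/-- a lower bound for the masses -/
theorem absorb_mass {F : Finset C(Z, ℂ)} {ε : ℝ} (P : Part μ F ε) :
    ∃ m0 : ℝ, 0 < m0 ∧ ∀ j, m0 ≤ P.m j := by
  rcases isEmpty_or_nonempty (Fin P.n) with h | h
  · exact ⟨1, one_pos, fun j => (h.false j).elim⟩
  · obtain ⟨j0, hj0⟩ := Finite.exists_min P.m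
    exact ⟨P.m j0, P.pos j0, hj0⟩

/-- the cut-off with all its properties -/
theorem absorb_cut (S : Set ℕ) {ι' : Type*} [Fintype ι'] (z : ι' → (K →L[ℂ] K)) (τ κ m0 : ℝ)
    (hτ : 0 < τ) (hm0 : 0 ≤ m0) (hz : ∀ i, z i ∈ M.E S) (hκ : ∀ i, ‖z i M.Om‖ ≤ κ)
    (hcard : (Fintype.card ι' : ℝ) * κ ^ 2 ≤ τ ^ 4 * m0) :
    ∃ d ∈ M.E S, star d = d ∧ ‖d‖ ≤ 1 ∧ ‖1 - d‖ ≤ 1 ∧ (∀ i, ‖z i * (1 - d)‖ ≤ τ) ∧
      ‖d M.Om‖ ≤ τ * Real.sqrt m0 := by
  have hX : ∑ i, star (z i) * z i ∈ M.E S :=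
    sum_mem fun i _ => mul_mem (star_mem (hz i)) (hz i)
  obtain ⟨d, hdS, hds, hd1, hd2, hcut, hdO⟩ :=
    M.exists_cut S z (τ ^ 2) (by positivity) hX
  refine ⟨d, hdS, hds, hd1, hd2, fun i => ?_, ?_⟩
  · exact absorb_sq (cut_each z (τ ^ 2) d hds hcut i) hτ.le
  · have h1 : ∑ i, ‖z i M.Om‖ ^ 2 ≤ (Fintype.card ι' : ℝ) * κ ^ 2 := by
      have h2 : ∑ i, ‖z i M.Om‖ ^ 2 ≤ ∑ _i : ι', κ ^ 2 :=
        Finset.sum_le_sum fun i _ => pow_le_pow_left₀ (norm_nonneg _) (hκ i) 2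
      simpa using h2
    have h3 : ‖d M.Om‖ ^ 2 ≤ (τ * Real.sqrt m0) ^ 2 := by
      rw [mul_pow, Real.sq_sqrt hm0]
      refine hdO.trans ?_
      rw [div_le_iff₀ (by positivity)]
      calc ∑ i, ‖z i M.Om‖ ^ 2 ≤ τ ^ 4 * m0 := h1.trans hcard
        _ = τ ^ 2 * m0 * τ ^ 2 := by ring
    exact absorb_sq h3 (by positivity)

/-- **Absorption lemma.**

Proof. Let `Cb ≥ 0` be the bound `C`. Choose `P : Part μ F (ε/4)`, `m0 = min (P.m j)`,
`n = P.n`, `δ > 0` and `κ > 0` small, depending on `ε, C, n, m0, |X|, |ι|`.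
Given `y, b`, put `S = {j | j < k}`,
`d` = cut of the family `z = (y i * inc (h j))_{i, j}` at level `δ` (`exists_cut`, `cut_each`), so that
`‖y i inc (h j) (1-d)‖² ≤ δ` and `‖d Ω‖² ≤ (∑_{i,j} ‖y i inc (h j) Ω‖²)/δ ≤ n |ι| κ²/δ` (by the trace
property `norm_mul_Om_le` and `‖inc (h j)‖ ≤ 1`);
`e` = cut of the family `z = (star (inc (h j ∘ t x) * b i))_{x, i, j}`, so that
`‖(1-e) inc (h j ∘ t x) b i‖² ≤ δ` (take stars) and `‖e Ω‖² ≤ n |X| |ι| κ²/δ`
(`norm_star_Om`, `norm_mul_Om_le`).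
Labels: an injective map `X × Fin n → ℕ` with values `≥ k` (`k +` an injective enumeration,
`Fintype.equivFin`).
`v x = L x + R x`, `L x = crL`, `R x = crR` with these labels.
`block` (with `S = {j | j < k}`) gives membership and the intertwining. `block_left` gives
`‖y i v x‖ ≤ n 2 √δ/√m0 ≤ ε`. For the products:
`v_x* v_y b - δ_xy b = (L_x* L_y b - δ_xy b) + L_x* R_y b + R_x* L_y b + R_x* R_y b`, the first term by
`crL_isom` (`x = y`), `crL_orth` (`x ≠ y`), the others by the smallness of `‖R‖ ≤ ‖e Ω‖/√m0`. The last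
bound is `row_bound`. -/
theorem absorb [μ.IsOpenPosMeasure] {X ι : Type} [Fintype X] [DecidableEq X] [Fintype ι]
    (t : X → C(Z, Z)) (F : Finset C(Z, ℂ)) (C ε : ℝ) (hC : 0 ≤ C) (hε : 0 < ε) :
    ∃ κ : ℝ, 0 < κ ∧ ∀ (k : ℕ) (y b : ι → (K →L[ℂ] K)),
      (∀ i, y i ∈ M.E {j | j < k} ∧ ‖y i‖ ≤ C ∧ ‖y i M.Om‖ ≤ κ) →
      (∀ i, b i ∈ M.E {j | j < k} ∧ ‖b i‖ ≤ C ∧ ‖b i M.Om‖ ≤ κ) →
      ∃ v : X → (K →L[ℂ] K), (∀ x, v x ∈ M.E Set.univ) ∧
        (∀ x, ∀ a ∈ F, ‖M.inc a * v x - v x * M.inc (a.comp (t x))‖ ≤ ε) ∧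
        (∀ x y i, ‖star (v x) * v y * b i - (if x = y then b i else 0)‖ ≤ ε) ∧
        (∀ x i, ‖y i * v x‖ ≤ ε) ∧ ‖∑ x, v x * star (v x)‖ ≤ 4 := by
  obtain ⟨P⟩ := exists_part μ F (ε / 4) (by positivity)
  obtain ⟨m0, hm0, hm0'⟩ := absorb_mass P
  have hsm : 0 < Real.sqrt m0 := Real.sqrt_pos.2 hm0
  obtain ⟨τ, hτ, hτ1, hτ2, hτ3, hτ4⟩ : ∃ τ : ℝ, 0 < τ ∧ τ ≤ 1 ∧
      τ * (2 * P.n * C + 2 * P.n + 3 * C) ≤ ε ∧ τ * (2 * P.n / Real.sqrt m0) ≤ ε ∧
      τ * Fintype.card X ≤ 1 := by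
    have hD0 : 0 ≤ 2 * (P.n : ℝ) * C + 2 * P.n + 3 * C := by positivity
    have hD1 : 0 ≤ 2 * (P.n : ℝ) / Real.sqrt m0 := by positivity
    have hD2 : (0 : ℝ) ≤ Fintype.card X := by positivity
    set D : ℝ := 1 + (2 * (P.n : ℝ) * C + 2 * P.n + 3 * C) + 2 * (P.n : ℝ) / Real.sqrt m0 +
      Fintype.card X with hD
    have hDpos : 0 < D := by positivity
    have hmin : 0 < min 1 ε := lt_min one_pos hε
    have hτ : 0 < min 1 ε / D := div_pos hmin hDpos
    have hτD : min 1 ε / D * D = min 1 ε := div_mul_cancel₀ _ hDpos.ne'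
    have key : ∀ r : ℝ, r ≤ D → min 1 ε / D * r ≤ min 1 ε := fun r hr =>
      (mul_le_mul_of_nonneg_left hr hτ.le).trans (le_of_eq hτD)
    refine ⟨min 1 ε / D, hτ, ?_, ?_, ?_, ?_⟩
    · have := key 1 (by linarith)
      rw [mul_one] at this
      exact this.trans (min_le_left _ _)
    · exact (key _ (by linarith)).trans (min_le_right _ _)
    · exact (key _ (by linarith)).trans (min_le_right _ _)
    · exact (key _ (by linarith)).trans (min_le_left _ _)
  obtain ⟨κ, hκ, hκ1, hκ2⟩ : ∃ κ : ℝ, 0 < κ ∧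
      (Fintype.card (ι × Fin P.n) : ℝ) * κ ^ 2 ≤ τ ^ 4 * m0 ∧
      (Fintype.card (X × ι × Fin P.n) : ℝ) * κ ^ 2 ≤ τ ^ 4 * m0 := by
    set W : ℝ := (Fintype.card (ι × Fin P.n) : ℝ) + Fintype.card (X × ι × Fin P.n) + 1 with hW
    have hW1 : 1 ≤ W := by
      have h1 : (0 : ℝ) ≤ Fintype.card (ι × Fin P.n) := by positivity
      have h2 : (0 : ℝ) ≤ Fintype.card (X × ι × Fin P.n) := by positivity
      linarith
    have hW0 : 0 < W := by linarith
    have key : ∀ r : ℝ, 0 ≤ r → r ≤ W → r * (τ ^ 2 * Real.sqrt m0 / W) ^ 2 ≤ τ ^ 4 * m0 := by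
      intro r hr0 hr
      rw [div_pow, mul_pow, Real.sq_sqrt hm0.le, mul_div_assoc', div_le_iff₀ (by positivity)]
      have h1 : r ≤ W ^ 2 := by nlinarith
      calc r * ((τ ^ 2) ^ 2 * m0) ≤ W ^ 2 * ((τ ^ 2) ^ 2 * m0) :=
            mul_le_mul_of_nonneg_right h1 (by positivity)
        _ = τ ^ 4 * m0 * W ^ 2 := by ring
    refine ⟨τ ^ 2 * Real.sqrt m0 / W, by positivity, key _ (by positivity) ?_,
      key _ (by positivity) ?_⟩
    · have h2 : (0 : ℝ) ≤ Fintype.card (X × ι × Fin P.n) := by positivity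
      linarith
    · have h1 : (0 : ℝ) ≤ Fintype.card (ι × Fin P.n) := by positivity
      linarith
  refine ⟨κ, hκ, fun k y b hy hb => ?_⟩
  have hSU : M.E {j | j < k} ≤ M.E Set.univ := M.E_mono (Set.subset_univ _)
  -- the two cut-offs
  obtain ⟨d, hd, hds, -, hd1, hdz, hdO⟩ := M.absorb_cut {j | j < k}
    (fun p : ι × Fin P.n => y p.1 * M.inc (P.h p.2)) τ κ m0 hτ hm0.le
    (fun p => mul_mem (hy p.1).1 (M.inc_mem _ _))
    (fun p => by
      have h1 := M.norm_mul_Om_le (intL_comm μ) (y p.1) (M.inc (P.h p.2)) (hSU (hy p.1).1)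
        (M.inc_mem _ _)
      have h2 := M.absorb_inc P p.2
      calc ‖(y p.1 * M.inc (P.h p.2)) M.Om‖ ≤ ‖M.inc (P.h p.2)‖ * ‖y p.1 M.Om‖ := h1
        _ ≤ 1 * κ := mul_le_mul h2 (hy p.1).2.2 (norm_nonneg _) zero_le_one
        _ = κ := one_mul κ)
    hκ1
  obtain ⟨e, he, hes, he1, -, hez, heO⟩ := M.absorb_cut {j | j < k}
    (fun p : X × ι × Fin P.n => star (M.inc ((P.h p.2.2).comp (t p.1)) * b p.2.1)) τ κ m0 hτ
    hm0.le
    (fun p => star_mem (mul_mem (M.inc_mem _ _) (hb p.2.1).1))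
    (fun p => by
      rw [M.norm_star_Om (intL_comm μ) _ (mul_mem (M.inc_mem _ _) (hSU (hb p.2.1).1))]
      have h2 := M.absorb_incc P (t p.1) p.2.2
      calc ‖(M.inc ((P.h p.2.2).comp (t p.1)) * b p.2.1) M.Om‖
          ≤ ‖M.inc ((P.h p.2.2).comp (t p.1))‖ * ‖b p.2.1 M.Om‖ := by
            exact ContinuousLinearMap.le_opNorm (M.inc ((P.h p.2.2).comp (t p.1)))
              (b p.2.1 M.Om)
        _ ≤ 1 * κ := mul_le_mul h2 (hb p.2.1).2.2 (norm_nonneg _) zero_le_one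
        _ = κ := one_mul κ)
    hκ2
  have heO1 : ‖e M.Om‖ ≤ Real.sqrt m0 := heO.trans (mul_le_of_le_one_left hsm.le hτ1)
  have hr : ‖e M.Om‖ / Real.sqrt m0 ≤ τ := by
    rw [div_le_iff₀ hsm]
    exact heO
  -- labels
  obtain ⟨lab, hlab, hlabS⟩ : ∃ lab : X → Fin P.n → ℕ,
      (∀ x j x' j', lab x j = lab x' j' → x = x' ∧ j = j') ∧ ∀ x j, k ≤ lab x j := by
    refine ⟨fun x j => k + (Fintype.equivFin (X × Fin P.n) (x, j) : ℕ), fun x j x' j' h => ?_,
      fun x j => Nat.le_add_right _ _⟩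
    have h1 := Nat.add_left_cancel h
    have h2 := (Fintype.equivFin (X × Fin P.n)).injective (Fin.ext h1)
    exact ⟨congrArg Prod.fst h2, congrArg Prod.snd h2⟩
  have hlabi : ∀ x, Function.Injective (lab x) := fun x j j' h => (hlab x j x j' h).2
  have hlabS' : ∀ x j, lab x j ∉ {j | j < k} := fun x j h => absurd (hlabS x j) (not_le.2 h)
  set L : X → (K →L[ℂ] K) := fun x =>
    M.crL P.m (lab x) d e P.h (fun j => (P.h j).comp (t x)) with hLdef
  set R : X → (K →L[ℂ] K) := fun x =>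
    M.crR P.m (lab x) d e P.h (fun j => (P.h j).comp (t x)) with hRdef
  have hblock := fun x => M.block (by positivity) P (t x) {j | j < k} (lab x) (hlabi x)
    (hlabS' x) d e hd he hds hes hd1 he1 m0 hm0 hm0' heO1
  have hL1 : ∀ x, ‖L x‖ ≤ 1 := fun x => (hblock x).2.2.1
  have hR1 : ∀ x, ‖R x‖ ≤ τ := fun x => (hblock x).2.2.2.trans hr
  have hLo : ∀ x y, x ≠ y → star (L x) * L y = 0 := fun x y hxy =>
    M.crL_orth P.m P.m {j | j < k} (lab x) (lab y)
      (fun j j' h => hxy (hlab x j y j' h).1) (hlabS' x) (hlabS' y) d e hd he P.h _ P.h _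
  have hcC : ∀ i, ‖b i‖ ≤ C := fun i => (hb i).2.1
  refine ⟨fun x => L x + R x, fun x => (hblock x).1, fun x a ha => ?_, fun x y' i => ?_,
    fun x i => ?_, ?_⟩
  · refine ((hblock x).2.1 a ha).trans (le_of_eq ?_)
    ring
  · have hLL : ‖star (L x) * L y' * b i - (if x = y' then b i else 0)‖ ≤
        P.n * (2 * τ * C + 2 * τ) := by
      split_ifs with hxy
      · subst hxy
        refine (M.crL_isom P (t x) {j | j < k} (lab x) (hlabi x) (hlabS' x) d e hd he hds hes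
          hd1 he1 m0 τ τ hm0 hm0' hτ.le hτ1 hdO (b i) (fun j => ?_)).trans ?_
        · have h1 := hez (x, i, j)
          have h2 : star (star (M.inc ((P.h j).comp (t x)) * b i) * (1 - e)) =
              (1 - e) * (M.inc ((P.h j).comp (t x)) * b i) := by
            rw [star_mul, star_star, star_sub, star_one, hes]
          rw [← h2, norm_star]
          exact h1
        · have h3 : 2 * τ * ‖b i‖ ≤ 2 * τ * C :=
            mul_le_mul_of_nonneg_left (hcC i) (by positivity)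
          exact mul_le_mul_of_nonneg_left (by linarith) (by positivity)
      · rw [hLo x y' hxy, zero_mul, sub_zero, norm_zero]
        positivity
    have h1 : ‖star (L x) * R y' * b i‖ ≤ τ * C := by
      calc ‖star (L x) * R y' * b i‖ ≤ ‖star (L x)‖ * ‖R y'‖ * ‖b i‖ :=
            (norm_mul_le _ _).trans (mul_le_mul_of_nonneg_right (norm_mul_le _ _) (norm_nonneg _))
        _ ≤ 1 * τ * C := by
            rw [norm_star]
            exact mul_le_mul (mul_le_mul (hL1 x) (hR1 y') (norm_nonneg _) zero_le_one) (hcC i)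
              (norm_nonneg _) (by positivity)
        _ = τ * C := by ring
    have h2 : ‖star (R x) * L y' * b i‖ ≤ τ * C := by
      calc ‖star (R x) * L y' * b i‖ ≤ ‖star (R x)‖ * ‖L y'‖ * ‖b i‖ :=
            (norm_mul_le _ _).trans (mul_le_mul_of_nonneg_right (norm_mul_le _ _) (norm_nonneg _))
        _ ≤ τ * 1 * C := by
            rw [norm_star]
            exact mul_le_mul (mul_le_mul (hR1 x) (hL1 y') (norm_nonneg _) hτ.le) (hcC i)
              (norm_nonneg _) (by positivity)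
        _ = τ * C := by ring
    have h3 : ‖star (R x) * R y' * b i‖ ≤ τ * C := by
      calc ‖star (R x) * R y' * b i‖ ≤ ‖star (R x)‖ * ‖R y'‖ * ‖b i‖ :=
            (norm_mul_le _ _).trans (mul_le_mul_of_nonneg_right (norm_mul_le _ _) (norm_nonneg _))
        _ ≤ τ * 1 * C := by
            rw [norm_star]
            exact mul_le_mul (mul_le_mul (hR1 x) ((hR1 y').trans hτ1) (norm_nonneg _) hτ.le)
              (hcC i) (norm_nonneg _) (by positivity)
        _ = τ * C := by ring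
    have h4 : star (L x + R x) * (L y' + R y') * b i - (if x = y' then b i else 0) =
        (star (L x) * L y' * b i - (if x = y' then b i else 0)) + star (L x) * R y' * b i +
          star (R x) * L y' * b i + star (R x) * R y' * b i := by
      rw [star_add]
      simp only [add_mul, mul_add]
      abel
    show ‖star (L x + R x) * (L y' + R y') * b i - (if x = y' then b i else 0)‖ ≤ ε
    rw [h4]
    refine (norm_add_le _ _).trans ?_
    have h5 := norm_add_le ((star (L x) * L y' * b i - (if x = y' then b i else 0)) +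
      star (L x) * R y' * b i) (star (R x) * L y' * b i)
    have h6 := norm_add_le (star (L x) * L y' * b i - (if x = y' then b i else 0))
      (star (L x) * R y' * b i)
    have h7 : (P.n : ℝ) * (2 * τ * C + 2 * τ) + 3 * (τ * C) =
        τ * (2 * P.n * C + 2 * P.n + 3 * C) := by ring
    linarith
  · refine (M.block_left P (t x) (lab x) d e he1 m0 hm0 hm0' (y i) τ (fun j => ?_)).trans ?_
    · have h1 := hdz (i, j)
      rw [← mul_assoc]
      exact h1
    · refine (le_of_eq ?_).trans hτ3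
      ring
  · refine row_bound L R hLo hL1 ?_
    calc ∑ x, ‖R x‖ ^ 2 ≤ ∑ _x : X, τ := Finset.sum_le_sum fun x _ => by
          have h1 := hR1 x
          have h2 := norm_nonneg (R x)
          nlinarith
      _ = τ * Fintype.card X := by
          rw [Finset.sum_const, Finset.card_univ, nsmul_eq_mul, mul_comm]
      _ ≤ 1 := hτ4

end FModel
end H47
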