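import Pool.Agent.H.MP_47f0a1_an.StateA
import Pool.Agent.H.MP_47f0a1_an.FreeBasic

/-!
# The universal property of reduced free products with faithful states
-/

namespace H47

variable {P P' I : Type*} [CStarAlgebra P] [CStarAlgebra P']

/-- Existence of homomorphisms. Here `Γ i` is the graph of the prescribed map on the `i`-th member.

Proof. Let `G` be the closure of `⨆ i, Γ i` in the C*-algebra `P × P'`. The functionals `φ ∘ fst` and
`φ' ∘ snd` agree on `⨆ i, Γ i` by `free_eq`, and on `G` by continuity (`IsSt.continuous`).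
The projection `fst : G → P` is injective: if `z ∈ G` and `z.1 = 0` then `star z * z ∈ G` and
`φ' (star z.2 * z.2) = φ (star z.1 * z.1) = 0`, so that `z.2 = 0`. An injective star homomorphism
between C*-algebras is isometric (`NonUnitalStarAlgHom.norm_map` or `StarAlgHom.norm_map`), so its
range is closed (`Isometry.isClosedEmbedding`, `G` is complete), and it is dense by `hgen`. So
`fst : G → P` is bijective. In the same way `snd : G → P'` is injective, hence isometric. Put
`Φ = snd ∘ fst⁻¹` (`StarAlgEquiv.ofBijective`). -/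
theorem univ_hom (φ : P →ₗ[ℂ] ℂ) (φ' : P' →ₗ[ℂ] ℂ) (hφ : IsSt φ) (hφ' : IsSt φ')
    (hf : ∀ x, φ (star x * x) = 0 → x = 0) (hf' : ∀ x, φ' (star x * x) = 0 → x = 0)
    (Γ : I → StarSubalgebra ℂ (P × P'))
    (hfree : IsFree (φ ∘ₗ LinearMap.fst ℂ P P') Γ)
    (hfree' : IsFree (φ' ∘ₗ LinearMap.snd ℂ P P') Γ)
    (heq : ∀ i, ∀ z ∈ Γ i, φ z.1 = φ' z.2)
    (hgen : ∀ x, x ∈ closure (Prod.fst '' ((⨆ i, Γ i : StarSubalgebra ℂ (P × P')) : Set (P × P')))) :
    ∃ Φ : P →⋆ₐ[ℂ] P', (∀ i, ∀ z ∈ Γ i, Φ z.1 = z.2) ∧ (∀ x, φ' (Φ x) = φ x) ∧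
      ∀ x, ‖Φ x‖ = ‖x‖ := by
  let G0 : StarSubalgebra ℂ (P × P') := ⨆ i, Γ i
  let G : StarSubalgebra ℂ (P × P') := G0.topologicalClosure
  have hG : IsClosed (G : Set (P × P')) := G0.isClosed_topologicalClosure
  have h0 : ∀ z ∈ G0, φ z.1 = φ' z.2 := by
    intro z hz
    exact free_eq (φ ∘ₗ LinearMap.fst ℂ P P') (φ' ∘ₗ LinearMap.snd ℂ P P') hφ.one hφ'.one Γ
      hfree hfree' heq z hz
  have h1 : ∀ z ∈ G, φ z.1 = φ' z.2 := by
    have hcl : IsClosed {z : P × P' | φ z.1 = φ' z.2} :=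
      isClosed_eq (hφ.continuous.comp continuous_fst) (hφ'.continuous.comp continuous_snd)
    intro z hz
    have hsub : (G : Set (P × P')) ⊆ {z | φ z.1 = φ' z.2} := by
      rw [StarSubalgebra.topologicalClosure_coe]
      exact closure_minimal h0 hcl
    exact hsub hz
  let f1 : G →⋆ₐ[ℂ] P := (StarAlgHom.fst ℂ P P').comp G.subtype
  let f2 : G →⋆ₐ[ℂ] P' := (StarAlgHom.snd ℂ P P').comp G.subtype
  have hf1 : ∀ z : G, f1 z = (z : P × P').1 := fun z => rfl
  have hf2 : ∀ z : G, f2 z = (z : P × P').2 := fun z => rfl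
  have hi1 : Function.Injective f1 := by
    rw [injective_iff_map_eq_zero]
    intro z hz
    rw [hf1] at hz
    have h2 := h1 _ (star z * z).2
    have h3 : ((star z * z : G) : P × P').1 = star (z : P × P').1 * (z : P × P').1 := rfl
    have h4 : ((star z * z : G) : P × P').2 = star (z : P × P').2 * (z : P × P').2 := rfl
    rw [h3, h4, hz, mul_zero, map_zero] at h2
    have h5 := hf' _ h2.symm
    exact Subtype.ext (Prod.ext hz h5)
  have hi2 : Function.Injective f2 := by
    rw [injective_iff_map_eq_zero]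
    intro z hz
    rw [hf2] at hz
    have h2 := h1 _ (star z * z).2
    have h3 : ((star z * z : G) : P × P').1 = star (z : P × P').1 * (z : P × P').1 := rfl
    have h4 : ((star z * z : G) : P × P').2 = star (z : P × P').2 * (z : P × P').2 := rfl
    rw [h3, h4, hz, mul_zero, map_zero] at h2
    have h5 := hf _ h2
    exact Subtype.ext (Prod.ext h5 hz)
  have hiso1 : Isometry f1 := NonUnitalStarAlgHom.isometry f1 hi1
  have hs1 : Function.Surjective f1 := by
    intro x
    have hr : IsClosed (Set.range f1) := hiso1.isClosedEmbedding.isClosed_range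
    have hsub : closure (Prod.fst '' (G0 : Set (P × P'))) ⊆ Set.range f1 := by
      refine closure_minimal ?_ hr
      rintro _ ⟨z, hz, rfl⟩
      exact ⟨⟨z, G0.le_topologicalClosure hz⟩, rfl⟩
    exact hsub (hgen x)
  let e : G ≃⋆ₐ[ℂ] P := StarAlgEquiv.ofBijective f1 ⟨hi1, hs1⟩
  have he : ∀ z, e z = f1 z := fun z => rfl
  have hes : ∀ x, f1 (e.symm x) = x := fun x => by
    rw [← he]
    exact e.apply_symm_apply x
  refine ⟨f2.comp (e.symm : P →⋆ₐ[ℂ] G), ?_, ?_, ?_⟩
  · intro i z hz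
    have hzG : z ∈ G := G0.le_topologicalClosure ((le_iSup Γ i) hz)
    have h6 : e.symm z.1 = ⟨z, hzG⟩ := by
      apply hi1
      rw [hes]
      exact (hf1 ⟨z, hzG⟩).symm
    change f2 (e.symm z.1) = z.2
    rw [h6]
    exact hf2 ⟨z, hzG⟩
  · intro x
    change φ' (f2 (e.symm x)) = φ x
    have h7 := h1 _ (e.symm x).2
    rw [hf2, ← h7, ← hf1, hes]
  · intro x
    change ‖f2 (e.symm x)‖ = ‖x‖
    rw [NonUnitalStarAlgHom.norm_map f2 hi2, ← NonUnitalStarAlgHom.norm_map f1 hi1, hes]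

/-- Two homomorphisms that agree on a generating family are equal (they are continuous). -/
theorem hom_ext_gen (S : I → StarSubalgebra ℂ P) (hgen : (⨆ i, S i).topologicalClosure = ⊤)
    (Φ Ψ : P →⋆ₐ[ℂ] P') (h : ∀ i, ∀ x ∈ S i, Φ x = Ψ x) : Φ = Ψ := by
  have hΦ : Continuous Φ :=
    AddMonoidHomClass.continuous_of_bound Φ 1 (fun x => by
      rw [one_mul]
      exact NonUnitalStarAlgHom.norm_apply_le Φ x)
  have hΨ : Continuous Ψ :=
    AddMonoidHomClass.continuous_of_bound Ψ 1 (fun x => by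
      rw [one_mul]
      exact NonUnitalStarAlgHom.norm_apply_le Ψ x)
  have h1 : (⨆ i, S i) ≤ StarAlgHom.equalizer Φ Ψ := iSup_le fun i x hx => h i x hx
  have h2 : (⨆ i, S i).topologicalClosure ≤ StarAlgHom.equalizer Φ Ψ :=
    StarSubalgebra.topologicalClosure_minimal h1 (isClosed_eq hΦ hΨ)
  refine StarAlgHom.ext fun x => ?_
  have h3 : x ∈ (⨆ i, S i).topologicalClosure := by
    rw [hgen]
    exact StarSubalgebra.mem_top
  exact h2 h3

/-- The form of `univ_hom` for families of ranges of homomorphisms with a common index type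
of sources. `α i` and `α' i` are two embeddings of the same algebra `C i`.

Proof: `univ_hom` with `Γ i = (StarAlgHom.prod (α i) (α' i)).range`. Freeness of `Γ` for
`φ ∘ fst` and `φ' ∘ snd` is `free_comp`. For `hgen`: the image under `fst` of the star subalgebra
`⨆ Γ i` is a star subalgebra which contains the ranges of the `α i`
(`StarSubalgebra.map`, with `StarAlgHom.fst`). -/
theorem univ_ranges {C : I → Type*} [∀ i, CStarAlgebra (C i)]
    (φ : P →ₗ[ℂ] ℂ) (φ' : P' →ₗ[ℂ] ℂ) (hφ : IsSt φ) (hφ' : IsSt φ')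
    (hf : ∀ x, φ (star x * x) = 0 → x = 0) (hf' : ∀ x, φ' (star x * x) = 0 → x = 0)
    (α : ∀ i, C i →⋆ₐ[ℂ] P) (α' : ∀ i, C i →⋆ₐ[ℂ] P')
    (hfree : IsFree φ (fun i => (α i).range)) (hfree' : IsFree φ' (fun i => (α' i).range))
    (heq : ∀ i c, φ (α i c) = φ' (α' i c))
    (hgen : (⨆ i, (α i).range).topologicalClosure = ⊤) :
    ∃ Φ : P →⋆ₐ[ℂ] P', (∀ i c, Φ (α i c) = α' i c) ∧ (∀ x, φ' (Φ x) = φ x) ∧
      ∀ x, ‖Φ x‖ = ‖x‖ := by
  have hΓ : ∀ i, ∀ z ∈ (StarAlgHom.prod (α i) (α' i)).range, ∃ c, z.1 = α i c ∧ z.2 = α' i c := by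
    rintro i _ ⟨c, rfl⟩
    exact ⟨c, rfl, rfl⟩
  have hmem : ∀ i c, ((α i c, α' i c) : P × P') ∈ (StarAlgHom.prod (α i) (α' i)).range :=
    fun i c => ⟨c, rfl⟩
  obtain ⟨Φ, h1, h2, h3⟩ := univ_hom φ φ' hφ hφ' hf hf'
    (fun i => (StarAlgHom.prod (α i) (α' i)).range)
    (free_comp φ (StarAlgHom.fst ℂ P P') _ (fun i => (α i).range) (by
      intro i z hz
      obtain ⟨c, hc, -⟩ := hΓ i z hz
      exact ⟨c, hc.symm⟩) hfree _ (fun x => rfl))
    (free_comp φ' (StarAlgHom.snd ℂ P P') _ (fun i => (α' i).range) (by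
      intro i z hz
      obtain ⟨c, -, hc⟩ := hΓ i z hz
      exact ⟨c, hc.symm⟩) hfree' _ (fun x => rfl))
    (by
      intro i z hz
      obtain ⟨c, hc, hc'⟩ := hΓ i z hz
      rw [hc, hc', heq])
    (by
      intro x
      have h4 : (⨆ i, (α i).range) ≤
          (⨆ i, (StarAlgHom.prod (α i) (α' i)).range : StarSubalgebra ℂ (P × P')).map
            (StarAlgHom.fst ℂ P P') := by
        refine iSup_le fun i => ?_
        rintro _ ⟨c, rfl⟩
        exact ⟨(α i c, α' i c),
          (le_iSup (fun i => (StarAlgHom.prod (α i) (α' i)).range) i) (hmem i c), rfl⟩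
      have h5 := StarSubalgebra.topologicalClosure_mono h4
      have h6 : x ∈ (⨆ i, (α i).range).topologicalClosure := by
        rw [hgen]
        exact StarSubalgebra.mem_top
      have h7 := h5 h6
      exact h7)
  exact ⟨Φ, fun i c => h1 i _ (hmem i c), h2, h3⟩

end H47
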