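import Pool.Agent.H.MP_47f0a1_an.ModelP
import Pool.Agent.H.MP_47f0a1_an.Uniq

/-!
# Automorphisms of the algebra of a Fock model
-/

open scoped InnerProductSpace
open MeasureTheory

namespace H47

/-- Conjugation by a unitary. -/
noncomputable def aut_conj {A : Type*} [Ring A] [StarRing A] [Algebra ℂ A] [StarModule ℂ A] (u : A)
    (h1 : star u * u = 1) (h2 : u * star u = 1) : A →⋆ₐ[ℂ] A where
  toFun x := u * x * star u
  map_one' := by rw [mul_one, h2]
  map_mul' x y := by
    calc u * (x * y) * star u = u * x * 1 * (y * star u) := by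
          rw [mul_one]; simp only [mul_assoc]
      _ = u * x * (star u * u) * (y * star u) := by rw [h1]
      _ = u * x * star u * (u * y * star u) := by simp only [mul_assoc]
  map_zero' := by rw [mul_zero, zero_mul]
  map_add' x y := by rw [mul_add, add_mul]
  commutes' r := by
    show u * algebraMap ℂ A r * star u = algebraMap ℂ A r
    rw [← Algebra.commutes, mul_assoc, h2, mul_one]
  map_star' x := by
    show u * star x * star u = star (u * x * star u)
    rw [star_mul, star_mul, star_star]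
    simp only [mul_assoc]

theorem aut_conj_apply {A : Type*} [Ring A] [StarRing A] [Algebra ℂ A] [StarModule ℂ A] (u : A)
    (h1 : star u * u = 1) (h2 : u * star u = 1) (x : A) :
    aut_conj u h1 h2 x = u * x * star u := rfl

/-- A family of endomorphisms of the members of a free generating family that preserve a faithful
trace is induced by an endomorphism. -/
theorem aut_univ {P I : Type*} [CStarAlgebra P] (φ : P →ₗ[ℂ] ℂ) (hφ : IsFT φ)
    (S : I → StarSubalgebra ℂ P) (hfree : IsFree φ S) (hgen : (⨆ i, S i).topologicalClosure = ⊤)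
    (θ : I → (P →⋆ₐ[ℂ] P)) (hθ : ∀ i, ∀ x ∈ S i, θ i x ∈ S i)
    (hst : ∀ i, ∀ x ∈ S i, φ (θ i x) = φ x) :
    ∃ Φ : P →⋆ₐ[ℂ] P, ∀ i, ∀ x ∈ S i, Φ x = θ i x := by
  let Γ : I → StarSubalgebra ℂ (P × P) := fun i =>
    (S i).map (StarAlgHom.prod (StarAlgHom.id ℂ P) (θ i))
  have hmem : ∀ i, ∀ z ∈ Γ i, z.1 ∈ S i ∧ z.2 = θ i z.1 := by
    intro i z hz
    obtain ⟨x, hx, rfl⟩ := StarSubalgebra.mem_map.1 hz
    exact ⟨hx, rfl⟩
  have hmem' : ∀ i, ∀ x ∈ S i, (x, θ i x) ∈ Γ i := by
    intro i x hx
    exact StarSubalgebra.mem_map.2 ⟨x, hx, rfl⟩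
  obtain ⟨Φ, hΦ, -, -⟩ := univ_hom φ φ hφ.st hφ.st hφ.faithful hφ.faithful Γ
    (free_comp φ (StarAlgHom.fst ℂ P P) Γ S (fun i z hz => (hmem i z hz).1) hfree _
      (fun x => rfl))
    (free_comp φ (StarAlgHom.snd ℂ P P) Γ S (fun i z hz => by
        show z.2 ∈ S i
        rw [(hmem i z hz).2]
        exact hθ i _ (hmem i z hz).1) hfree _
      (fun x => rfl))
    (fun i z hz => by
      rw [(hmem i z hz).2]
      exact (hst i _ (hmem i z hz).1).symm)
    (by
      have hle : (⨆ i, S i) ≤ (⨆ i, Γ i).map (StarAlgHom.fst ℂ P P) := by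
        apply iSup_le
        intro i x hx
        exact StarSubalgebra.mem_map.2 ⟨(x, θ i x), le_iSup Γ i (hmem' i x hx), rfl⟩
      intro x
      have hx : x ∈ (⨆ i, S i).topologicalClosure := by rw [hgen]; exact StarSubalgebra.mem_top
      have hx' : x ∈ closure ((⨆ i, S i : StarSubalgebra ℂ P) : Set P) := hx
      refine closure_mono ?_ hx'
      intro y hy
      obtain ⟨z, hz, hzy⟩ := StarSubalgebra.mem_map.1 (hle hy)
      exact ⟨z, hz, hzy⟩)
  exact ⟨Φ, fun i x hx => hΦ i _ (hmem' i x hx)⟩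

namespace FModel

variable {Z : Type} [MetricSpace Z] [CompactSpace Z] [MeasurableSpace Z] [BorelSpace Z]
  {μ : Measure Z} [IsProbabilityMeasure μ]
  {K : Type} [NormedAddCommGroup K] [InnerProductSpace ℂ K] [CompleteSpace K]
  (M : FModel C(Z, ℂ) (intL μ) K)

/-- The endomorphism which is conjugation by `u` on the member `none` and the identity on the others.

Proof. `univ_hom` with `φ = φ' = trP` and `Γ none = ` the range of the star homomorphism
`x ↦ (x, u x u*)` on the star subalgebra `famP m none`, `Γ (some j) = ` the range of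
`f ↦ (kapP j f, kapP j f)`. Freeness of `Γ` for `trP ∘ fst` and `trP ∘ snd` is `free_comp` with
`free_famP` (`u x u*` is again in the member `none`). The states agree because `trP` is a trace.
`hgen`: the projection of `⨆ Γ i` to the first factor contains all the members of `famP m`, `gen_famP`. -/
theorem exists_conj (hc : M.Cyclic) (m : ℕ) (u : M.PA) (hu : u ∈ M.famP m none)
    (h1 : star u * u = 1) (h2 : u * star u = 1) :
    ∃ Φ : M.PA →⋆ₐ[ℂ] M.PA, (∀ x ∈ M.famP m none, Φ x = u * x * star u) ∧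
      ∀ (j : Fin m) f, Φ (M.kapP j f) = M.kapP j f := by
  let θ : Option (Fin m) → (M.PA →⋆ₐ[ℂ] M.PA) := fun i =>
    match i with
    | none => aut_conj u h1 h2
    | some _ => StarAlgHom.id ℂ M.PA
  obtain ⟨Φ, hΦ⟩ := aut_univ M.trP (M.trP_ft hc) (M.famP m) (M.free_famP m) (M.gen_famP m) θ
    (by
      intro i x hx
      match i, hx with
      | none, hx => exact mul_mem (mul_mem hu hx) (star_mem hu)
      | some j, hx => exact hx)
    (by
      intro i x hx
      match i, hx with
      | none, hx =>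
        show M.trP (u * x * star u) = M.trP x
        rw [(M.trP_ft hc).tr, ← mul_assoc, h1, one_mul]
      | some j, hx => rfl)
  refine ⟨Φ, fun x hx => ?_, fun j f => ?_⟩
  · exact hΦ none x hx
  · exact hΦ (some j) (M.kapP j f) ⟨f, rfl⟩

/-- It is an automorphism: the inverse is the one of `star u` (`hom_ext_gen`). -/
theorem exists_aut (hc : M.Cyclic) (m : ℕ) (u : M.PA) (hu : u ∈ M.famP m none)
    (h1 : star u * u = 1) (h2 : u * star u = 1) :
    ∃ α : M.PA ≃⋆ₐ[ℂ] M.PA, (∀ x ∈ M.famP m none, α x = u * x * star u) ∧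
      ∀ (j : Fin m) f, α (M.kapP j f) = M.kapP j f := by
  have hu' : star u ∈ M.famP m none := star_mem hu
  obtain ⟨Φ, hΦ, hΦ'⟩ := M.exists_conj hc m u hu h1 h2
  obtain ⟨Ψ, hΨ, hΨ'⟩ := M.exists_conj hc m (star u) hu' (by rw [star_star]; exact h2)
    (by rw [star_star]; exact h1)
  have e1 : Ψ.comp Φ = StarAlgHom.id ℂ M.PA := by
    apply hom_ext_gen (M.famP m) (M.gen_famP m)
    intro i x hx
    match i, hx with
    | none, hx =>
      show Ψ (Φ x) = x
      rw [hΦ x hx, hΨ _ (mul_mem (mul_mem hu hx) hu'), star_star]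
      calc star u * (u * x * star u) * u = (star u * u) * x * (star u * u) := by
            simp only [mul_assoc]
        _ = x := by rw [h1, one_mul, mul_one]
    | some j, hx =>
      obtain ⟨f, rfl⟩ := hx
      show Ψ (Φ (M.kapP j f)) = M.kapP j f
      rw [hΦ', hΨ']
  have e2 : Φ.comp Ψ = StarAlgHom.id ℂ M.PA := by
    apply hom_ext_gen (M.famP m) (M.gen_famP m)
    intro i x hx
    match i, hx with
    | none, hx =>
      show Φ (Ψ x) = x
      rw [hΨ x hx, star_star, hΦ _ (mul_mem (mul_mem hu' hx) hu)]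
      calc u * (star u * x * u) * star u = (u * star u) * x * (u * star u) := by
            simp only [mul_assoc]
        _ = x := by rw [h2, one_mul, mul_one]
    | some j, hx =>
      obtain ⟨f, rfl⟩ := hx
      show Φ (Ψ (M.kapP j f)) = M.kapP j f
      rw [hΨ', hΦ']
  exact ⟨StarAlgEquiv.ofStarAlgHom Φ Ψ e1 e2, hΦ, hΦ'⟩

end FModel
end H47
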