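import Mathlib

/-!
# Approximation of an endomorphism by automorphisms on generators
-/

namespace H47

/-- The property used for the approximation. -/
def intertwCGood {P : Type*} [CStarAlgebra P] (G0 : Set P) (Φ : P →⋆ₐ[ℂ] P) (x : P) : Prop :=
  ∀ ε : ℝ, 0 < ε → ∃ F : Finset P, (∀ y ∈ F, y ∈ G0) ∧ ∃ δ : ℝ, 0 < δ ∧
    ∀ α : P ≃⋆ₐ[ℂ] P, (∀ y ∈ F, ‖Φ y - α y‖ ≤ δ) → ‖Φ x - α x‖ ≤ ε

theorem intertwC_norm {P : Type*} [CStarAlgebra P] (Φ : P →⋆ₐ[ℂ] P) (x : P) : ‖Φ x‖ ≤ ‖x‖ :=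
  NonUnitalStarAlgHom.norm_apply_le Φ x

theorem intertwC_norm' {P : Type*} [CStarAlgebra P] (α : P ≃⋆ₐ[ℂ] P) (x : P) : ‖α x‖ ≤ ‖x‖ :=
  intertwC_norm (α : P →⋆ₐ[ℂ] P) x

theorem intertwC_two {P : Type*} [CStarAlgebra P] {G0 : Set P} {Φ : P →⋆ₐ[ℂ] P} {x y : P}
    (hx : intertwCGood G0 Φ x) (hy : intertwCGood G0 Φ y) {ε₁ ε₂ : ℝ} (h1 : 0 < ε₁)
    (h2 : 0 < ε₂) : ∃ F : Finset P, (∀ y ∈ F, y ∈ G0) ∧ ∃ δ : ℝ, 0 < δ ∧
      ∀ α : P ≃⋆ₐ[ℂ] P, (∀ y ∈ F, ‖Φ y - α y‖ ≤ δ) → ‖Φ x - α x‖ ≤ ε₁ ∧ ‖Φ y - α y‖ ≤ ε₂ := by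
  classical
  obtain ⟨F₁, hF₁, δ₁, hδ₁, H₁⟩ := hx ε₁ h1
  obtain ⟨F₂, hF₂, δ₂, hδ₂, H₂⟩ := hy ε₂ h2
  refine ⟨F₁ ∪ F₂, ?_, min δ₁ δ₂, lt_min hδ₁ hδ₂, ?_⟩
  · intro z hz
    rcases Finset.mem_union.1 hz with h | h
    · exact hF₁ z h
    · exact hF₂ z h
  · intro α hα
    exact ⟨H₁ α fun z hz => (hα z (Finset.mem_union_left _ hz)).trans (min_le_left _ _),
      H₂ α fun z hz => (hα z (Finset.mem_union_right _ hz)).trans (min_le_right _ _)⟩

theorem intertwC_adjoin {P : Type*} [CStarAlgebra P] (G0 : Set P) (Φ : P →⋆ₐ[ℂ] P) (x : P)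
    (hx : x ∈ StarAlgebra.adjoin ℂ G0) : intertwCGood G0 Φ x := by
  induction hx using StarAlgebra.adjoin_induction with
  | mem x hx =>
    intro ε hε
    refine ⟨{x}, ?_, ε, hε, fun α hα => hα x (Finset.mem_singleton_self x)⟩
    intro y hy
    rw [Finset.mem_singleton.1 hy]
    exact hx
  | algebraMap c =>
    intro ε hε
    refine ⟨∅, fun y hy => absurd hy (Finset.notMem_empty y), 1, one_pos, fun α _ => ?_⟩
    have h1 : Φ (algebraMap ℂ P c) = algebraMap ℂ P c := AlgHomClass.commutes Φ c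
    have h2 : α (algebraMap ℂ P c) = algebraMap ℂ P c := by
      rw [Algebra.algebraMap_eq_smul_one, map_smul, map_one]
    rw [h1, h2, sub_self, norm_zero]
    exact hε.le
  | add x y _ _ h1 h2 =>
    intro ε hε
    obtain ⟨F, hF, δ, hδ, H⟩ := intertwC_two h1 h2 (half_pos hε) (half_pos hε)
    refine ⟨F, hF, δ, hδ, fun α hα => ?_⟩
    obtain ⟨h3, h4⟩ := H α hα
    have h5 : Φ (x + y) - α (x + y) = (Φ x - α x) + (Φ y - α y) := by
      rw [map_add, map_add]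
      abel
    rw [h5]
    linarith [norm_add_le (Φ x - α x) (Φ y - α y)]
  | mul x y _ _ h1 h2 =>
    intro ε hε
    have hx1 : 0 < ‖x‖ + 1 := by positivity
    have hy1 : 0 < ‖y‖ + 1 := by positivity
    obtain ⟨F, hF, δ, hδ, H⟩ := intertwC_two h1 h2 (div_pos (half_pos hε) hy1)
      (div_pos (half_pos hε) hx1)
    refine ⟨F, hF, δ, hδ, fun α hα => ?_⟩
    obtain ⟨h3, h4⟩ := H α hα
    have h5 : Φ (x * y) - α (x * y) = (Φ x - α x) * Φ y + α x * (Φ y - α y) := by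
      rw [map_mul, map_mul, sub_mul, mul_sub]
      abel
    have h6 : ‖(Φ x - α x) * Φ y‖ ≤ ε / 2 := by
      refine (norm_mul_le _ _).trans ?_
      calc ‖Φ x - α x‖ * ‖Φ y‖ ≤ (ε / 2 / (‖y‖ + 1)) * (‖y‖ + 1) :=
            mul_le_mul h3 ((intertwC_norm Φ y).trans (by linarith)) (norm_nonneg _)
              (div_pos (half_pos hε) hy1).le
        _ = ε / 2 := div_mul_cancel₀ _ hy1.ne'
    have h7 : ‖α x * (Φ y - α y)‖ ≤ ε / 2 := by
      refine (norm_mul_le _ _).trans ?_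
      calc ‖α x‖ * ‖Φ y - α y‖ ≤ (‖x‖ + 1) * (ε / 2 / (‖x‖ + 1)) :=
            mul_le_mul ((intertwC_norm' α x).trans (by linarith)) h4 (norm_nonneg _) hx1.le
        _ = ε / 2 := mul_div_cancel₀ _ hx1.ne'
    rw [h5]
    linarith [norm_add_le ((Φ x - α x) * Φ y) (α x * (Φ y - α y))]
  | star x _ h1 =>
    intro ε hε
    obtain ⟨F, hF, δ, hδ, H⟩ := h1 ε hε
    refine ⟨F, hF, δ, hδ, fun α hα => ?_⟩
    rw [map_star, map_star, ← star_sub, norm_star]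
    exact H α hα

theorem intertwC_closure {P : Type*} [CStarAlgebra P] (G0 : Set P) (Φ : P →⋆ₐ[ℂ] P) (x : P)
    (hx : x ∈ (StarAlgebra.adjoin ℂ G0).topologicalClosure) : intertwCGood G0 Φ x := by
  intro ε hε
  have hx' : x ∈ closure ((StarAlgebra.adjoin ℂ G0 : StarSubalgebra ℂ P) : Set P) := hx
  obtain ⟨y, hy, hxy⟩ := Metric.mem_closure_iff.1 hx' (ε / 3) (by positivity)
  rw [dist_eq_norm] at hxy
  obtain ⟨F, hF, δ, hδ, H⟩ := intertwC_adjoin G0 Φ y hy (ε / 3) (by positivity)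
  refine ⟨F, hF, δ, hδ, fun α hα => ?_⟩
  have h1 := H α hα
  have h2 : Φ x - α x = Φ (x - y) + (Φ y - α y) - α (x - y) := by
    rw [map_sub, map_sub]
    abel
  have h3 := intertwC_norm Φ (x - y)
  have h4 := intertwC_norm' α (x - y)
  rw [h2]
  linarith [norm_sub_le (Φ (x - y) + (Φ y - α y)) (α (x - y)),
    norm_add_le (Φ (x - y)) (Φ y - α y)]

/-- Approximation on generators implies approximation everywhere.

Proof. Let `𝒮` be the set of `x` such that for every `ε > 0` there are a finite `F ⊆ G0` and `δ > 0` with: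
every automorphism `α` with `‖Φ y - α y‖ ≤ δ` for `y ∈ F` satisfies `‖Φ x - α x‖ ≤ ε`. `𝒮` contains
`G0` and the scalars, is closed under sums, products (`Φ(xy) - α(xy) = (Φx - αx) Φy + αx (Φy - αy)`,
homomorphisms are contractive), star, and is closed in norm. So `𝒮` is everything. A finite set `F`
of elements is handled by taking the union of the finite sets and the minimum of the `δ`. -/
theorem approx_of_gen {P : Type*} [CStarAlgebra P] (G0 : Set P)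
    (hG : (StarAlgebra.adjoin ℂ G0).topologicalClosure = ⊤) (Φ : P →⋆ₐ[ℂ] P)
    (h : ∀ (F : Finset P), (∀ x ∈ F, x ∈ G0) → ∀ ε : ℝ, 0 < ε →
      ∃ α : P ≃⋆ₐ[ℂ] P, ∀ x ∈ F, ‖Φ x - α x‖ ≤ ε) :
    ∀ (F : Finset P) (ε : ℝ), 0 < ε → ∃ α : P ≃⋆ₐ[ℂ] P, ∀ x ∈ F, ‖Φ x - α x‖ ≤ ε := by
  classical
  intro F ε hε
  have key : ∀ F : Finset P, ∃ F' : Finset P, (∀ y ∈ F', y ∈ G0) ∧ ∃ δ : ℝ, 0 < δ ∧
      ∀ α : P ≃⋆ₐ[ℂ] P, (∀ y ∈ F', ‖Φ y - α y‖ ≤ δ) → ∀ x ∈ F, ‖Φ x - α x‖ ≤ ε := by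
    intro F
    induction F using Finset.induction_on with
    | empty =>
      exact ⟨∅, fun y hy => absurd hy (Finset.notMem_empty y), 1, one_pos,
        fun α _ x hx => absurd hx (Finset.notMem_empty x)⟩
    | insert a s _ ih =>
      obtain ⟨F₁, hF₁, δ₁, hδ₁, H₁⟩ := ih
      have ha : a ∈ (StarAlgebra.adjoin ℂ G0).topologicalClosure := by
        rw [hG]
        trivial
      obtain ⟨F₂, hF₂, δ₂, hδ₂, H₂⟩ := intertwC_closure G0 Φ a ha ε hε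
      refine ⟨F₁ ∪ F₂, ?_, min δ₁ δ₂, lt_min hδ₁ hδ₂, ?_⟩
      · intro z hz
        rcases Finset.mem_union.1 hz with h | h
        · exact hF₁ z h
        · exact hF₂ z h
      · intro α hα x hx
        rcases Finset.mem_insert.1 hx with rfl | hx
        · exact H₂ α fun z hz => (hα z (Finset.mem_union_right _ hz)).trans (min_le_right _ _)
        · exact H₁ α (fun z hz => (hα z (Finset.mem_union_left _ hz)).trans (min_le_left _ _))
            x hx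
  obtain ⟨F', hF', δ, hδ, H⟩ := key F
  obtain ⟨α, hα⟩ := h F' hF' δ hδ
  exact ⟨α, H α hα⟩

end H47
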