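import Pool.Agent.H.MP_47f0a1_an.Util

/-!
# Polar decomposition of almost unitary elements
-/

namespace H47

/-- An element of a closed star subalgebra that is almost unitary is close to a unitary of the
subalgebra.

Proof. Let `δ ≤ 1/2`. `h = star x * x` is selfadjoint with spectrum in `[1-δ, 1+δ]`, invertible; and
`x * star x` is invertible, so `x` is invertible. Put `u = x * cfc (fun t => 1/√(max t (1/2))) h`;
then `u* u = 1`, `u` is invertible so `u u* = 1`, `u ∈ S` by `cfc_mem_of_isClosed`, and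
`‖u - x‖ ≤ ‖x‖ sup_{|t-1| ≤ δ} |t^{-1/2} - 1| ≤ 2 * 2 δ`. -/
theorem polar (η : ℝ) (hη : 0 < η) : ∃ δ : ℝ, 0 < δ ∧ ∀ (A : Type) [CStarAlgebra A]
    (S : StarSubalgebra ℂ A), IsClosed (S : Set A) → ∀ x ∈ S, ‖star x * x - 1‖ ≤ δ →
      ‖x * star x - 1‖ ≤ δ → ∃ u ∈ S, star u * u = 1 ∧ u * star u = 1 ∧ ‖u - x‖ ≤ η := by
  have hgc : Continuous fun t : ℝ => (√(max t (1 / 2)))⁻¹ := by
    refine Continuous.inv₀ (by fun_prop) fun t => ?_
    exact (Real.sqrt_pos.2 (lt_of_lt_of_le (by norm_num) (le_max_right t (1 / 2)))).ne'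
  obtain ⟨g, hg⟩ : ∃ g : ℝ → ℝ, g = fun t : ℝ => (√(max t (1 / 2)))⁻¹ := ⟨_, rfl⟩
  rw [← hg] at hgc
  have hg1 : g 1 = 1 := by rw [hg]; norm_num
  have hgt : ∀ t : ℝ, 1 / 2 ≤ t → g t * g t * t = 1 := by
    intro t ht
    have h1 : 0 < √t := Real.sqrt_pos.2 (by linarith)
    have h2 : √t * √t = t := Real.mul_self_sqrt (by linarith)
    rw [hg]
    simp only [max_eq_left ht]
    nth_rewrite 3 [← h2]
    field_simp
  obtain ⟨ε, hε, hgε⟩ := Metric.continuous_iff.1 hgc 1 (η / 2) (by positivity)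
  refine ⟨min (1 / 2) (ε / 2), by positivity, fun A _ S hS x hx h1 h2 => ?_⟩
  rcases subsingleton_or_nontrivial A with hA | hA
  · refine ⟨x, hx, Subsingleton.elim _ _, Subsingleton.elim _ _, ?_⟩
    rw [sub_self, norm_zero]
    exact hη.le
  have hsa : IsSelfAdjoint (star x * x) := IsSelfAdjoint.star_mul_self x
  have hh1 : ‖star x * x - 1‖ ≤ 1 / 2 := h1.trans (min_le_left _ _)
  have hh2 : ‖x * star x - 1‖ ≤ 1 / 2 := h2.trans (min_le_left _ _)
  have hsp : ∀ t ∈ spectrum ℝ (star x * x), |t - 1| ≤ min (1 / 2) (ε / 2) := by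
    intro t ht
    have h3 : t - 1 ∈ spectrum ℝ (star x * x - 1) := by
      rw [spectrum.mem_iff] at ht ⊢
      rwa [map_sub, map_one, sub_sub_sub_cancel_right]
    have h4 := spectrum.norm_le_norm_of_mem h3
    rw [Real.norm_eq_abs] at h4
    exact h4.trans h1
  have hunit : ∀ y : A, ‖y - 1‖ ≤ 1 / 2 → IsUnit y := by
    intro y hy
    have h3 : ‖1 - y‖ < 1 := by
      rw [norm_sub_rev]
      linarith
    have h4 := (Units.oneSub (1 - y) h3).isUnit
    rwa [Units.val_oneSub, sub_sub_cancel] at h4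
  obtain ⟨p, hp⟩ := hunit _ hh1
  obtain ⟨r, hr⟩ := hunit _ hh2
  have hl : (↑p⁻¹ * star x) * x = 1 := by rw [mul_assoc, ← hp, Units.inv_mul]
  have hrr : x * (star x * ↑r⁻¹) = 1 := by rw [← mul_assoc, ← hr, Units.mul_inv]
  have hc : cfc g (star x * x) * cfc g (star x * x) * (star x * x) = 1 := by
    conv_lhs => rw [← cfc_mul g g (star x * x) hgc.continuousOn hgc.continuousOn]
    conv_lhs =>
      rhs
      rw [← cfc_id ℝ (star x * x) hsa]
    rw [← cfc_mul (fun t => g t * g t) id (star x * x) (hgc.mul hgc).continuousOn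
      continuous_id.continuousOn]
    rw [← cfc_one ℝ (star x * x) hsa]
    refine cfc_congr fun t ht => ?_
    have h3 := abs_le.1 ((hsp t ht).trans (min_le_left _ _))
    exact hgt t (by linarith)
  have hcs : star (cfc g (star x * x)) = cfc g (star x * x) :=
    (cfc_predicate g (star x * x)).star_eq
  have hcomm : cfc g (star x * x) * (star x * x) = star x * x * cfc g (star x * x) :=
    ((cfc_commute_cfc g id (star x * x)).eq.trans rfl |> fun h => by
      rwa [cfc_id ℝ (star x * x) hsa] at h)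
  refine ⟨x * cfc g (star x * x), mul_mem hx (cfc_mem_of_isClosed S hS _
    (mul_mem (star_mem hx) hx) hsa g hgc), ?_, ?_, ?_⟩
  · rw [star_mul, hcs]
    calc cfc g (star x * x) * star x * (x * cfc g (star x * x))
        = cfc g (star x * x) * (star x * x * cfc g (star x * x)) := by
          simp only [mul_assoc]
      _ = 1 := by rw [← hcomm, ← mul_assoc, hc]
  · rw [star_mul, hcs]
    have hy : cfc g (star x * x) * cfc g (star x * x) * star x = star x * ↑r⁻¹ := by
      calc cfc g (star x * x) * cfc g (star x * x) * star x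
          = cfc g (star x * x) * cfc g (star x * x) * star x * (x * (star x * ↑r⁻¹)) := by
            rw [hrr, mul_one]
        _ = cfc g (star x * x) * cfc g (star x * x) * (star x * x) * (star x * ↑r⁻¹) := by
            simp only [mul_assoc]
        _ = star x * ↑r⁻¹ := by rw [hc, one_mul]
    calc x * cfc g (star x * x) * (cfc g (star x * x) * star x)
        = x * (cfc g (star x * x) * cfc g (star x * x) * star x) := by
          simp only [mul_assoc]
      _ = 1 := by rw [hy, hrr]
  · have hx2 : ‖x‖ ≤ 2 := by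
      have h3 : ‖star x * x‖ = ‖x‖ * ‖x‖ := CStarRing.norm_star_mul_self
      have h4 : ‖star x * x‖ ≤ ‖star x * x - 1‖ + ‖(1 : A)‖ := by
        calc ‖star x * x‖ = ‖(star x * x - 1) + 1‖ := by rw [sub_add_cancel]
          _ ≤ _ := norm_add_le _ _
      rw [norm_one] at h4
      nlinarith [norm_nonneg x]
    have hc1 : ‖cfc g (star x * x) - 1‖ ≤ η / 2 := by
      rw [← cfc_one ℝ (star x * x) hsa, ← cfc_sub g 1 (star x * x) hgc.continuousOn
        continuous_one.continuousOn]
      refine norm_cfc_le (by positivity) fun t ht => ?_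
      have h3 := (hsp t ht).trans (min_le_right _ _)
      have h4 := hgε t (by rw [Real.dist_eq]; linarith)
      rw [hg1, Real.dist_eq] at h4
      exact h4.le
    calc ‖x * cfc g (star x * x) - x‖ = ‖x * (cfc g (star x * x) - 1)‖ := by
          rw [mul_sub, mul_one]
      _ ≤ ‖x‖ * ‖cfc g (star x * x) - 1‖ := norm_mul_le _ _
      _ ≤ 2 * (η / 2) := by gcongr
      _ = η := by ring

end H47
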