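import Pool.Agent.H.MP_47f0a1_an.PropA
import Pool.Agent.H.MP_47f0a1_an.Polar

/-!
# Approximately inner implementation of measure preserving maps
-/

open scoped InnerProductSpace
open MeasureTheory Matrix Filter Topology

namespace H47

namespace FModel

variable {Z : Type} [MetricSpace Z] [CompactSpace Z] [MeasurableSpace Z] [BorelSpace Z]
  {μ : Measure Z} [IsProbabilityMeasure μ]
  {K : Type} [NormedAddCommGroup K] [InnerProductSpace ℂ K] [CompleteSpace K]
  (M : FModel C(Z, ℂ) (intL μ) K)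

/-- **Main approximation theorem**: a measure preserving continuous map `θ` is approximately
implemented by unitaries, if there is a homotopy `h` of `Z` from the identity to a map `r` with
`r ∘ θ = r`.

Proof. By uniform continuity of `(s, z) ↦ a (h (s, z))` on the compact space `[0,1] × Z` there is `N`
with `‖a (h (k/(N+1), z)) - a (h ((k+1)/(N+1), z))‖ ≤ ε/20` for `a ∈ F`, `k ≤ N`. Put
`r k z = h (min 1 (k/(N+1)), z)`. `exists_almost` with `ε/20` and `δ` from `polar` for a small `η`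
(such that `2 η (max ‖inc a‖ + 1)… ≤ ε/4`), then `polar` for the closed star subalgebra
`M.E univ`. -/
theorem prop1 [μ.IsOpenPosMeasure] (θ : C(Z, Z)) (hθ : ∀ a, intL μ (a.comp θ) = intL μ a)
    (h : C(unitInterval × Z, Z)) (h0 : ∀ z, h (0, z) = z) (h1 : ∀ z, h (1, θ z) = h (1, z))
    (F : Finset C(Z, ℂ)) (ε : ℝ) (hε : 0 < ε) :
    ∃ u ∈ M.E Set.univ, star u * u = 1 ∧ u * star u = 1 ∧
      ∀ a ∈ F, ‖M.inc (a.comp θ) * u - u * M.inc a‖ ≤ ε := by
  classical
  -- uniform continuity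
  have huc : ∀ a ∈ F, ∃ δ > 0, ∀ s s' : unitInterval, ∀ z : Z, dist s s' < δ →
      ‖a (h (s, z)) - a (h (s', z))‖ ≤ ε / 20 := by
    intro a _
    have hc : UniformContinuous (fun q : unitInterval × Z => a (h q)) :=
      CompactSpace.uniformContinuous_of_continuous (a.continuous.comp h.continuous)
    obtain ⟨δ, hδ, hh⟩ := Metric.uniformContinuous_iff.1 hc (ε / 20) (by positivity)
    refine ⟨δ, hδ, fun s s' z hs => ?_⟩
    have h2 : dist (s, z) (s', z) < δ := by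
      rw [Prod.dist_eq]
      simp only [dist_self]
      exact max_lt hs hδ
    have := hh h2
    rw [dist_eq_norm] at this
    exact this.le
  have hN : ∃ N : ℕ, ∀ a ∈ F, ∀ s s' : unitInterval, ∀ z : Z, dist s s' ≤ 1 / ((N : ℝ) + 1) →
      ‖a (h (s, z)) - a (h (s', z))‖ ≤ ε / 20 := by
    have hev : ∀ᶠ N : ℕ in atTop, ∀ a ∈ F, ∀ s s' : unitInterval, ∀ z : Z,
        dist s s' ≤ 1 / ((N : ℝ) + 1) → ‖a (h (s, z)) - a (h (s', z))‖ ≤ ε / 20 := by
      rw [Filter.eventually_all_finset]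
      intro a ha
      obtain ⟨δ, hδ, hh⟩ := huc a ha
      have ht : ∀ᶠ N : ℕ in atTop, 1 / ((N : ℝ) + 1) < δ :=
        (tendsto_one_div_add_atTop_nhds_zero_nat (𝕜 := ℝ)).eventually_lt_const hδ
      filter_upwards [ht] with N hN s s' z hs
      exact hh s s' z (hs.trans_lt hN)
    exact hev.exists
  obtain ⟨N, hN⟩ := hN
  have hN0 : (0 : ℝ) < (N : ℝ) + 1 := by positivity
  -- the points of the partition
  let p : ℕ → unitInterval := fun k => ⟨min 1 ((k : ℝ) / ((N : ℝ) + 1)),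
    ⟨le_min zero_le_one (by positivity), min_le_left _ _⟩⟩
  have hp0 : p 0 = 0 := by
    apply Subtype.ext
    simp [p]
  have hpN : p (N + 1) = 1 := by
    apply Subtype.ext
    change min 1 (((N + 1 : ℕ) : ℝ) / ((N : ℝ) + 1)) = 1
    rw [Nat.cast_add, Nat.cast_one, div_self hN0.ne', min_self]
  have hpd : ∀ k, dist (p k) (p (k + 1)) ≤ 1 / ((N : ℝ) + 1) := by
    intro k
    have e1 : dist (p k) (p (k + 1)) = |min 1 ((k : ℝ) / ((N : ℝ) + 1)) -
        min 1 (((k + 1 : ℕ) : ℝ) / ((N : ℝ) + 1))| := rfl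
    rw [e1]
    refine (abs_min_sub_min_le_max _ _ _ _).trans ?_
    rw [sub_self, abs_zero, ← sub_div]
    refine max_le (by positivity) ?_
    rw [Nat.cast_add, Nat.cast_one, abs_div, abs_of_pos hN0]
    have : |(k : ℝ) - ((k : ℝ) + 1)| = 1 := by
      rw [show (k : ℝ) - ((k : ℝ) + 1) = -1 by ring, abs_neg, abs_one]
    rw [this]
  let r : ℕ → C(Z, Z) := fun k => ⟨fun z => h (p k, z), by fun_prop⟩
  have hr0 : r 0 = ContinuousMap.id Z := by
    ext z
    change h (p 0, z) = z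
    rw [hp0, h0]
  have hlast : (r (N + 1)).comp θ = r (N + 1) := by
    ext z
    change h (p (N + 1), θ z) = h (p (N + 1), z)
    rw [hpN, h1]
  have hstep : ∀ a ∈ F, ∀ k ≤ N, ∀ z, ‖a (r k z) - a (r (k + 1) z)‖ ≤ ε / 20 :=
    fun a ha k _ z => hN a ha (p k) (p (k + 1)) z (hpd k)
  -- the constants
  obtain ⟨C, hC0, hC⟩ : ∃ C : ℝ, 0 ≤ C ∧ ∀ a ∈ F, ‖M.inc (a.comp θ)‖ + ‖M.inc a‖ ≤ C := by
    refine ⟨∑ a ∈ F, (‖M.inc (a.comp θ)‖ + ‖M.inc a‖),
      Finset.sum_nonneg fun a _ => by positivity, fun a ha => ?_⟩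
    exact Finset.single_le_sum (f := fun a => ‖M.inc (a.comp θ)‖ + ‖M.inc a‖)
      (fun a _ => by positivity) ha
  have hη : 0 < ε / (4 * (C + 1)) := by positivity
  obtain ⟨δ, hδ, hpol⟩ := polar (ε / (4 * (C + 1))) hη
  obtain ⟨u, hu, hu1, hu2, hu3⟩ := M.exists_almost θ hθ N r hr0 hlast F (ε / 20) (by positivity)
    hstep δ hδ
  obtain ⟨v, hv, hv1, hv2, hv3⟩ := hpol (K →L[ℂ] K) (M.E Set.univ) (M.isClosed_E Set.univ) u hu
    hu1 hu2
  refine ⟨v, hv, hv1, hv2, fun a ha => ?_⟩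
  have e : M.inc (a.comp θ) * v - v * M.inc a = (M.inc (a.comp θ) * u - u * M.inc a) +
      M.inc (a.comp θ) * (v - u) - (v - u) * M.inc a := by
    noncomm_ring
  rw [e]
  have b1 := hu3 a ha
  have b2 : ‖M.inc (a.comp θ) * (v - u)‖ ≤ ‖M.inc (a.comp θ)‖ * (ε / (4 * (C + 1))) :=
    (norm_mul_le _ _).trans (mul_le_mul_of_nonneg_left hv3 (norm_nonneg _))
  have b3 : ‖(v - u) * M.inc a‖ ≤ (ε / (4 * (C + 1))) * ‖M.inc a‖ :=
    (norm_mul_le _ _).trans (mul_le_mul_of_nonneg_right hv3 (norm_nonneg _))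
  have b4 : (‖M.inc (a.comp θ)‖ + ‖M.inc a‖) * (ε / (4 * (C + 1))) ≤ ε / 4 := by
    calc (‖M.inc (a.comp θ)‖ + ‖M.inc a‖) * (ε / (4 * (C + 1)))
        ≤ (C + 1) * (ε / (4 * (C + 1))) :=
          mul_le_mul_of_nonneg_right ((hC a ha).trans (by linarith)) hη.le
      _ = ε / 4 := by
          field_simp
  calc ‖(M.inc (a.comp θ) * u - u * M.inc a) + M.inc (a.comp θ) * (v - u) - (v - u) * M.inc a‖
      ≤ ‖(M.inc (a.comp θ) * u - u * M.inc a) + M.inc (a.comp θ) * (v - u)‖ +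
        ‖(v - u) * M.inc a‖ := norm_sub_le _ _
    _ ≤ ‖M.inc (a.comp θ) * u - u * M.inc a‖ + ‖M.inc (a.comp θ) * (v - u)‖ +
        ‖(v - u) * M.inc a‖ := by gcongr; exact norm_add_le _ _
    _ ≤ ε := by nlinarith [b1, b2, b3, b4]

end FModel
end H47
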