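import Pool.Agent.H.MP_47f0a1_an.Aut
import Pool.Agent.H.MP_47f0a1_an.IntertwC
import Pool.Agent.H.MP_47f0a1_an.Prop1

/-!
# Approximation of endomorphisms by automorphisms
-/

open scoped InnerProductSpace
open MeasureTheory

namespace H47
namespace FModel

variable {Z : Type} [MetricSpace Z] [CompactSpace Z] [MeasurableSpace Z] [BorelSpace Z]
  {μ : Measure Z} [IsProbabilityMeasure μ]
  {K : Type} [NormedAddCommGroup K] [InnerProductSpace ℂ K] [CompleteSpace K]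
  (M : FModel C(Z, ℂ) (intL μ) K)

/-- Automorphisms that approximate `a ↦ a ∘ θ` on `C(Z)` and fix finitely many copies of `C([0,1])`.

Proof. `prop1` for the model `M.shift m` (same `inc`, `st`, and `(M.shift m).E univ = M.E {j | m ≤ j}`)
gives a unitary `u ∈ M.E {j | m ≤ j} ⊆ M.E univ`; `exists_aut`. `α (incP a) = u inc(a) u*` and
`‖u inc(a) u* - inc(a ∘ θ)‖ = ‖(u inc(a) - inc(a ∘ θ) u) u*‖ ≤ ε`. -/
theorem exists_aut_approx [μ.IsOpenPosMeasure] (hc : M.Cyclic) (θ : C(Z, Z))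
    (hθ : ∀ a, intL μ (a.comp θ) = intL μ a)
    (h : C(unitInterval × Z, Z)) (h0 : ∀ z, h (0, z) = z) (h1 : ∀ z, h (1, θ z) = h (1, z))
    (m : ℕ) (F : Finset C(Z, ℂ)) (ε : ℝ) (hε : 0 < ε) :
    ∃ α : M.PA ≃⋆ₐ[ℂ] M.PA, (∀ a ∈ F, ‖α (M.incP a) - M.incP (a.comp θ)‖ ≤ ε) ∧
      ∀ j < m, ∀ f, α (M.kapP j f) = M.kapP j f := by
  obtain ⟨u, hu, h2, h3, h4⟩ := (M.shift m).prop1 θ hθ h h0 h1 F ε hε
  have hu1 : u ∈ M.E {j | m ≤ j} := by
    rw [← M.shift_E m]
    exact hu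
  have hu2 : u ∈ M.E Set.univ := M.E_mono (Set.subset_univ _) hu1
  have h5 : ‖u‖ ≤ 1 := by
    have h6 : ‖u‖ * ‖u‖ ≤ 1 := by
      rw [← CStarRing.norm_star_mul_self, h2]
      exact ContinuousLinearMap.norm_id_le
    nlinarith [norm_nonneg u]
  obtain ⟨α, hα1, hα2⟩ := M.exists_aut hc m (⟨u, hu2⟩ : M.PA) hu1 (Subtype.ext h2)
    (Subtype.ext h3)
  refine ⟨α, fun a ha => ?_, fun j hj f => hα2 ⟨j, hj⟩ f⟩
  have h6 : M.incP a ∈ M.famP m none := M.inc_mem {j | m ≤ j} a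
  rw [hα1 _ h6]
  show ‖u * M.inc a * star u - M.inc (a.comp θ)‖ ≤ ε
  have h7 : u * M.inc a * star u - M.inc (a.comp θ) =
      -(M.inc (a.comp θ) * u - u * M.inc a) * star u := by
    rw [neg_mul, sub_mul, mul_assoc (M.inc (a.comp θ)), h3, mul_one, neg_sub]
  rw [h7]
  refine (norm_mul_le _ _).trans ?_
  rw [norm_neg, norm_star]
  calc ‖M.inc (a.comp θ) * u - u * M.inc a‖ * ‖u‖ ≤ ε * 1 :=
        mul_le_mul (h4 a ha) h5 (norm_nonneg _) hε.le
    _ = ε := mul_one ε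

/-- The endomorphism induced by `θ` is a pointwise limit of automorphisms.

Proof. `approx_of_gen` with `G0 = range incP ∪ ⋃ j, range (kapP j)` (`rfp_famPZ.gen`) and
`exists_aut_approx`: a finite subset of `G0` involves finitely many `a`'s and `j`'s. -/
theorem endo_approx [μ.IsOpenPosMeasure] (hc : M.Cyclic) (θ : C(Z, Z))
    (hθ : ∀ a, intL μ (a.comp θ) = intL μ a)
    (h : C(unitInterval × Z, Z)) (h0 : ∀ z, h (0, z) = z) (h1 : ∀ z, h (1, θ z) = h (1, z))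
    (Φ : M.PA →⋆ₐ[ℂ] M.PA) (hΦ1 : ∀ a, Φ (M.incP a) = M.incP (a.comp θ))
    (hΦ2 : ∀ j f, Φ (M.kapP j f) = M.kapP j f) (F : Finset M.PA) (ε : ℝ) (hε : 0 < ε) :
    ∃ α : M.PA ≃⋆ₐ[ℂ] M.PA, ∀ x ∈ F, ‖Φ x - α x‖ ≤ ε := by
  classical
  refine approx_of_gen (Set.range M.incP ∪ ⋃ j, Set.range (M.kapP j)) ?_ Φ ?_ F ε hε
  · refine top_unique ?_
    rw [← (M.rfp_famPZ hc).gen]
    refine StarSubalgebra.topologicalClosure_mono (iSup_le fun i => ?_)
    intro x hx
    refine StarAlgebra.subset_adjoin ℂ _ ?_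
    rcases i with _ | j
    · obtain ⟨a, rfl⟩ := hx
      exact Or.inl ⟨a, rfl⟩
    · obtain ⟨f, rfl⟩ := hx
      exact Or.inr (Set.mem_iUnion.2 ⟨j, ⟨f, rfl⟩⟩)
  · clear hε ε F
    intro F hF ε hε
    obtain ⟨α, hα1, hα2⟩ := M.exists_aut_approx hc θ hθ h h0 h1
      (F.sup fun x => if hx : ∃ j f, M.kapP j f = x then hx.choose + 1 else 0)
      (F.image fun x => if hx : ∃ a, M.incP a = x then hx.choose else 0) ε hε
    refine ⟨α, fun x hx => ?_⟩
    by_cases h2 : ∃ a, M.incP a = x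
    · have h3 := h2.choose_spec
      have h4 : h2.choose ∈ F.image fun x => if hx : ∃ a, M.incP a = x then hx.choose else 0 := by
        refine Finset.mem_image.2 ⟨x, hx, ?_⟩
        rw [dif_pos h2]
      have h5 := hα1 _ h4
      rw [← h3, hΦ1, norm_sub_rev]
      exact h5
    · have h3 : ∃ j f, M.kapP j f = x := by
        rcases hF x hx with ⟨a, ha⟩ | h4
        · exact absurd ⟨a, ha⟩ h2
        · obtain ⟨j, f, hf⟩ := Set.mem_iUnion.1 h4
          exact ⟨j, f, hf⟩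
      obtain ⟨f, hf⟩ := h3.choose_spec
      have h4 : h3.choose + 1 ≤
          F.sup fun x => if hx : ∃ j f, M.kapP j f = x then hx.choose + 1 else 0 := by
        have h5 := Finset.le_sup (f := fun x : M.PA =>
          if hx : ∃ j f, M.kapP j f = x then hx.choose + 1 else 0) hx
        simp only [dif_pos h3] at h5
        exact h5
      have h6 := hα2 h3.choose (Nat.lt_of_succ_le h4) f
      have h7 := hΦ2 h3.choose f
      rw [hf] at h6 h7
      rw [h6, h7, sub_self, norm_zero]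
      exact hε.le

end FModel
end H47
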