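import Pool.Agent.H.MP_47f0a1_an.ModelTrace

/-!
# Integration as a state on `C(Z, ℂ)`; fine partitions of unity by squares
-/

open MeasureTheory

namespace H47

variable {Z : Type} [MetricSpace Z] [CompactSpace Z] [MeasurableSpace Z] [BorelSpace Z]

/-- Integration against a finite measure as a linear functional. -/
noncomputable def intL (μ : Measure Z) [IsFiniteMeasure μ] : C(Z, ℂ) →ₗ[ℂ] ℂ where
  toFun f := ∫ x, f x ∂μ
  map_add' f g := by
    simp only [ContinuousMap.add_apply]
    exact integral_add (BoundedContinuousFunction.integrable μ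
      (BoundedContinuousFunction.mkOfCompact f))
      (BoundedContinuousFunction.integrable μ (BoundedContinuousFunction.mkOfCompact g))
  map_smul' c f := by
    simp only [ContinuousMap.smul_apply, RingHom.id_apply]
    exact integral_smul c _

theorem intL_apply (μ : Measure Z) [IsFiniteMeasure μ] (f : C(Z, ℂ)) :
    intL μ f = ∫ x, f x ∂μ := rfl

theorem intL_comm (μ : Measure Z) [IsFiniteMeasure μ] (a b : C(Z, ℂ)) :
    intL μ (a * b) = intL μ (b * a) := by rw [mul_comm]

/-- The integral of `star f * f` is the integral of the squared absolute value. -/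
theorem base_intL_star_mul (μ : Measure Z) [IsFiniteMeasure μ] (f : C(Z, ℂ)) :
    intL μ (star f * f) = ((∫ x, ‖f x‖ ^ 2 ∂μ : ℝ) : ℂ) := by
  rw [intL_apply, ← integral_complex_ofReal]
  refine integral_congr_ae (Filter.Eventually.of_forall fun x => ?_)
  simp only [ContinuousMap.mul_apply, ContinuousMap.star_apply, Complex.star_def,
    Complex.conj_mul', Complex.ofReal_pow]

open scoped ComplexOrder in
/-- Integration against a probability measure is a state. -/
theorem intL_isSt (μ : Measure Z) [IsProbabilityMeasure μ] : IsSt (intL μ) := by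
  refine ⟨?_, fun x => ?_⟩
  · rw [intL_apply]
    simp
  · rw [base_intL_star_mul]
    exact_mod_cast integral_nonneg (fun x => by positivity)

/-- It is faithful if the measure has full support. -/
theorem intL_faithful (μ : Measure Z) [IsProbabilityMeasure μ] [μ.IsOpenPosMeasure]
    (f : C(Z, ℂ)) (h : intL μ (star f * f) = 0) : f = 0 := by
  rw [base_intL_star_mul, Complex.ofReal_eq_zero] at h
  have hcont : Continuous fun x => ‖f x‖ ^ 2 := (f.continuous.norm).pow 2
  by_contra hf
  obtain ⟨x, hx⟩ : ∃ x, f x ≠ 0 := by
    by_contra hcon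
    push Not at hcon
    exact hf (ContinuousMap.ext hcon)
  have h2 := hcont.integral_pos_of_hasCompactSupport_nonneg_nonzero (μ := μ) (x := x)
    (HasCompactSupport.of_compactSpace _) (fun x => by positivity)
    (by have := norm_pos_iff.mpr hx; positivity)
  linarith

/-- A measure preserving continuous map preserves the integral. -/
theorem intL_comp {Z' : Type} [MetricSpace Z'] [CompactSpace Z'] [MeasurableSpace Z']
    [BorelSpace Z'] (μ : Measure Z) [IsFiniteMeasure μ] (μ' : Measure Z') [IsFiniteMeasure μ']
    (θ : C(Z, Z')) (h : MeasurePreserving θ μ μ') (f : C(Z', ℂ)) :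
    intL μ (f.comp θ) = intL μ' f := by
  rw [intL_apply, intL_apply, ← h.map_eq,
    integral_map h.measurable.aemeasurable f.continuous.aestronglyMeasurable]
  rfl

/-- Norm bound for the values: `‖∫ f‖ ≤ C` if `‖f x‖ ≤ C` everywhere. -/
theorem norm_intL_le (μ : Measure Z) [IsProbabilityMeasure μ] (f : C(Z, ℂ)) (C : ℝ)
    (h : ∀ x, ‖f x‖ ≤ C) : ‖intL μ f‖ ≤ C := by
  rw [intL_apply]
  have := norm_integral_le_of_norm_le_const (μ := μ) (Filter.Eventually.of_forall h)
  simpa using this

end H47
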