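import Pool.Agent.H.MP_47f0a1_an.Defs

/-!
# The abstract unitarity argument
-/

open Matrix

namespace H47

variable {R : Type*} [Ring R] [StarRing R] {I : Type*} [Fintype I] [DecidableEq I]

/-- Abstract chain lemma. `e` is a row with `e e* = 1`; `p = 1 - U* U`, `q = 1 - U U*`;
`D = G - B`, `V = P' - e`, `M = B* D`, `P = U P' B* + q e`, `u = U + P D P'*`.

Proof.
(H3) `U* P = P' B*`: `U* P = U* U P' B* + U* q e` and
`P' B* - U* U P' B* = p P' B* = p e B* = p U* e = U* q e` (`hE`, `heB'`).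
(H4) `U P' = P B`: `P B = U P' B* B + q e B = U P' - U P' e* p e + q U e = U P' - U p e + q U e = U P'`
(`hBB`, `hPe`, `heB`, `U p = q U`).
(H5) `P' (1 - B* B) P'* = P' e* p e P'* = p`; and `P (1 - B B*) P* = P e* q e P* = q`, since
`P e* = U P' B* e* + q = U P' e* U* + q = U U* + q = 1`.
(H1) `D P'* P' D* = D D*`: `P'* P' = e* e + e* V + V* e + V* V`; `D e* V = 0` (`hD`), so
`D e* V D* = 0 = D V* e D*`; `D V* V D* = D (1 - e* e) D*` (`hC`).
(H2) `D* P* P D = D* D`: `P D = U P' M + q e D`, `e M = U* e D` (as `e B* = U* e`). Put `m = e D`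
(so `e M = U* m`). `P' M = e M + V M = U* m + V M`. By `hE`, `p V = 0`, i.e. `U* U V = V`, and
`V* U* U = V*`. By `hB`, `V* e M = 0`. So
`(U P' M)* (U P' M) = (U* m + V M)* U* U (U* m + V M) = m* U U* U U* m + m* U V M + (…)* + M* V* V M`
and `m* U V M = (e M)* V M = (V* e M)* M = 0`; `M* V* V M = M* (1 - e* e) M` by `hA`.
Cross terms: `(U P' M)* q m = M* P'* U* q m = M* P'* p U* m`, and `P'* p = (p P')* = (p e)* = e* p`
so it is `(e M)* p U* m = m* U p U* m`. Altogether, with `r = U U*` (`U p U* = r q = r - r²`,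
`q = 1 - r`), the `m* … m` part is `m* (r² + 2 (r - r²) + (1 - r)²) m = m* m`, and
`M* (1 - e* e) M = M* M - m* r m`, `M* M = D* B B* D = D* D - m* q m`. So the sum is
`m* m + D* D - m* q m - m* r m = D* D`.
(Final) `u* u = U* U + U* P D P'* + P' D* P* U + P' D* P* P D P'* =
U* U + P' (B* D + D* B + D* D) P'* = U* U + P' (G* G - B* B) P'* = U* U + p = 1`, and similarly
`u u* = U U* + U P' D* P* + P D P'* U* + P D P'* P' D* P* = U U* + P (B D* + D B* + D D*) P* =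
U U* + P (1 - B B*) P* = U U* + q = 1`. -/
theorem chain_abstract (U : Matrix Unit Unit R) (e P' : Matrix Unit I R) (G B : Matrix I I R)
    (hee : e * eᴴ = 1) (hG : Gᴴ * G = 1) (hG' : G * Gᴴ = 1)
    (heB : e * B = U * e) (heB' : e * Bᴴ = Uᴴ * e)
    (hBB : Bᴴ * B = 1 - eᴴ * (1 - Uᴴ * U) * e) (hBB' : B * Bᴴ = 1 - eᴴ * (1 - U * Uᴴ) * e)
    (hPe : P' * eᴴ = 1) (hE : (1 - Uᴴ * U) * P' = (1 - Uᴴ * U) * e)
    (hD : (G - B) * eᴴ * (P' - e) = 0)
    (hC : (P' - e)ᴴ * (P' - e) * (G - B)ᴴ = (1 - eᴴ * e) * (G - B)ᴴ)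
    (hA : (P' - e)ᴴ * (P' - e) * (Bᴴ * (G - B)) = (1 - eᴴ * e) * (Bᴴ * (G - B)))
    (hB : (P' - e)ᴴ * e * (Bᴴ * (G - B)) = 0) :
    (U + (U * P' * Bᴴ + (1 - U * Uᴴ) * e) * (G - B) * P'ᴴ)ᴴ *
        (U + (U * P' * Bᴴ + (1 - U * Uᴴ) * e) * (G - B) * P'ᴴ) = 1 ∧
      (U + (U * P' * Bᴴ + (1 - U * Uᴴ) * e) * (G - B) * P'ᴴ) *
        (U + (U * P' * Bᴴ + (1 - U * Uᴴ) * e) * (G - B) * P'ᴴ)ᴴ = 1 := by
  have heBs : Bᴴ * eᴴ = eᴴ * Uᴴ := by
    have := congrArg conjTranspose heB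
    simpa [conjTranspose_mul] using this
  have heBs' : B * eᴴ = eᴴ * U := by
    have := congrArg conjTranspose heB'
    simpa [conjTranspose_mul] using this
  have hPes : e * P'ᴴ = 1 := by
    have := congrArg conjTranspose hPe
    simpa [conjTranspose_mul] using this
  obtain ⟨D, hDd⟩ : ∃ D : Matrix I I R, D = G - B := ⟨_, rfl⟩
  obtain ⟨V, hVd⟩ : ∃ V : Matrix Unit I R, V = P' - e := ⟨_, rfl⟩
  obtain ⟨P, hPd⟩ : ∃ P : Matrix Unit I R, P = U * P' * Bᴴ + (1 - U * Uᴴ) * e := ⟨_, rfl⟩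
  rw [← hDd] at hD hC hA hB
  rw [← hVd] at hD hC hA hB
  rw [← hPd, ← hDd]
  have hP' : P' = e + V := by rw [hVd]; abel
  have hGd : G = B + D := by rw [hDd]; abel
  have hpV : Uᴴ * U * V = V := by
    have h1 : (1 - Uᴴ * U) * V = 0 := by
      rw [hVd, Matrix.mul_sub, hE, sub_self]
    rw [Matrix.sub_mul, Matrix.one_mul] at h1
    exact (sub_eq_zero.mp h1).symm
  have h3 : Uᴴ * P = P' * Bᴴ := by
    have a1 : Uᴴ * U * P' = P' - (1 - Uᴴ * U) * e := by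
      rw [← hE, Matrix.sub_mul, Matrix.one_mul]; abel
    calc Uᴴ * P = (Uᴴ * U * P') * Bᴴ + Uᴴ * ((1 - U * Uᴴ) * e) := by
          rw [hPd, Matrix.mul_add]; simp only [Matrix.mul_assoc]
      _ = (P' - (1 - Uᴴ * U) * e) * Bᴴ + Uᴴ * ((1 - U * Uᴴ) * e) := by rw [a1]
      _ = P' * Bᴴ - (1 - Uᴴ * U) * (e * Bᴴ) + Uᴴ * ((1 - U * Uᴴ) * e) := by
          rw [Matrix.sub_mul, Matrix.mul_assoc (1 - Uᴴ * U)]
      _ = P' * Bᴴ - (1 - Uᴴ * U) * (Uᴴ * e) + Uᴴ * ((1 - U * Uᴴ) * e) := by rw [heB']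
      _ = P' * Bᴴ := by
          simp only [Matrix.sub_mul, Matrix.mul_sub, Matrix.one_mul, Matrix.mul_assoc]
          abel
  have h3s : Pᴴ * U = B * P'ᴴ := by
    have := congrArg conjTranspose h3
    simpa [conjTranspose_mul] using this
  have h4 : P * B = U * P' := by
    calc P * B = U * P' * (Bᴴ * B) + (1 - U * Uᴴ) * (e * B) := by
          rw [hPd, Matrix.add_mul]; simp only [Matrix.mul_assoc]
      _ = U * P' * (1 - eᴴ * (1 - Uᴴ * U) * e) + (1 - U * Uᴴ) * (U * e) := by rw [hBB, heB]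
      _ = U * P' - U * (P' * eᴴ) * ((1 - Uᴴ * U) * e) + (1 - U * Uᴴ) * (U * e) := by
          rw [Matrix.mul_sub, Matrix.mul_one]; simp only [Matrix.mul_assoc]
      _ = U * P' - U * ((1 - Uᴴ * U) * e) + (1 - U * Uᴴ) * (U * e) := by
          rw [hPe, Matrix.mul_one]
      _ = U * P' := by
          simp only [Matrix.sub_mul, Matrix.mul_sub, Matrix.one_mul, Matrix.mul_assoc]
          abel
  have h4s : Bᴴ * Pᴴ = P'ᴴ * Uᴴ := by
    have := congrArg conjTranspose h4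
    simpa [conjTranspose_mul] using this
  have hPee : P * eᴴ = 1 := by
    calc P * eᴴ = U * P' * (Bᴴ * eᴴ) + (1 - U * Uᴴ) * (e * eᴴ) := by
          rw [hPd, Matrix.add_mul]; simp only [Matrix.mul_assoc]
      _ = U * (P' * eᴴ) * Uᴴ + (1 - U * Uᴴ) := by
          rw [heBs, hee, Matrix.mul_one]; simp only [Matrix.mul_assoc]
      _ = 1 := by rw [hPe, Matrix.mul_one]; abel
  have hPees : e * Pᴴ = 1 := by
    have := congrArg conjTranspose hPee
    simpa [conjTranspose_mul] using this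
  have h5 : P' * (1 - Bᴴ * B) * P'ᴴ = 1 - Uᴴ * U := by
    calc P' * (1 - Bᴴ * B) * P'ᴴ = P' * (eᴴ * (1 - Uᴴ * U) * e) * P'ᴴ := by
          rw [hBB, sub_sub_cancel]
      _ = (P' * eᴴ) * (1 - Uᴴ * U) * (e * P'ᴴ) := by simp only [Matrix.mul_assoc]
      _ = 1 - Uᴴ * U := by rw [hPe, hPes, Matrix.mul_one, Matrix.one_mul]
  have h5' : P * (1 - B * Bᴴ) * Pᴴ = 1 - U * Uᴴ := by
    calc P * (1 - B * Bᴴ) * Pᴴ = P * (eᴴ * (1 - U * Uᴴ) * e) * Pᴴ := by
          rw [hBB', sub_sub_cancel]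
      _ = (P * eᴴ) * (1 - U * Uᴴ) * (e * Pᴴ) := by simp only [Matrix.mul_assoc]
      _ = 1 - U * Uᴴ := by rw [hPee, hPees, Matrix.mul_one, Matrix.one_mul]
  have hDs : Vᴴ * (e * Dᴴ) = 0 := by
    have := congrArg conjTranspose hD
    simpa [conjTranspose_mul, Matrix.mul_assoc] using this
  have h1 : D * P'ᴴ * (P' * Dᴴ) = D * Dᴴ := by
    calc D * P'ᴴ * (P' * Dᴴ)
        = D * eᴴ * (e * Dᴴ) + (D * eᴴ * V) * Dᴴ + D * (Vᴴ * (e * Dᴴ)) +
            D * (Vᴴ * V * Dᴴ) := by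
          rw [hP', conjTranspose_add]
          simp only [Matrix.mul_add, Matrix.add_mul, Matrix.mul_assoc]
          abel
      _ = D * eᴴ * (e * Dᴴ) + D * ((1 - eᴴ * e) * Dᴴ) := by
          rw [hD, hDs, hC]; simp
      _ = D * Dᴴ := by
          simp only [Matrix.sub_mul, Matrix.mul_sub, Matrix.one_mul, Matrix.mul_assoc]
          abel
  obtain ⟨M, hMd⟩ : ∃ M : Matrix I I R, M = Bᴴ * D := ⟨_, rfl⟩
  obtain ⟨m, hmd⟩ : ∃ m : Matrix Unit I R, m = e * D := ⟨_, rfl⟩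
  rw [← hMd] at hA hB
  have heM : e * M = Uᴴ * m := by
    rw [hMd, hmd, ← Matrix.mul_assoc, heB', Matrix.mul_assoc]
  have heMs : Mᴴ * eᴴ = mᴴ * U := by
    have := congrArg conjTranspose heM
    simpa [conjTranspose_mul] using this
  have hBs : Mᴴ * (eᴴ * V) = 0 := by
    have := congrArg conjTranspose hB
    simpa [conjTranspose_mul, Matrix.mul_assoc] using this
  have hPD : P * D = m + U * (V * M) := by
    calc P * D = U * (P' * (Bᴴ * D)) + (1 - U * Uᴴ) * (e * D) := by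
          rw [hPd, Matrix.add_mul]; simp only [Matrix.mul_assoc]
      _ = U * (P' * M) + (1 - U * Uᴴ) * m := by rw [← hMd, ← hmd]
      _ = U * (e * M + V * M) + (1 - U * Uᴴ) * m := by rw [hP', Matrix.add_mul]
      _ = m + U * (V * M) := by
          rw [heM]
          simp only [Matrix.sub_mul, Matrix.mul_add, Matrix.one_mul, Matrix.mul_assoc]
          abel
  have c1 : mᴴ * (U * (V * M)) = 0 := by
    calc mᴴ * (U * (V * M)) = (mᴴ * U) * (V * M) := by simp only [Matrix.mul_assoc]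
      _ = (Mᴴ * eᴴ) * (V * M) := by rw [heMs]
      _ = (Mᴴ * (eᴴ * V)) * M := by simp only [Matrix.mul_assoc]
      _ = 0 := by rw [hBs, Matrix.zero_mul]
  have c2 : (U * (V * M))ᴴ * m = 0 := by
    have := congrArg conjTranspose c1
    simpa [conjTranspose_mul, Matrix.mul_assoc] using this
  have c3 : (U * (V * M))ᴴ * (U * (V * M)) = Mᴴ * M - mᴴ * (U * (Uᴴ * m)) := by
    calc (U * (V * M))ᴴ * (U * (V * M)) = Mᴴ * (Vᴴ * ((Uᴴ * U * V) * M)) := by
          simp only [conjTranspose_mul, Matrix.mul_assoc]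
      _ = Mᴴ * (Vᴴ * V * M) := by rw [hpV, Matrix.mul_assoc Vᴴ]
      _ = Mᴴ * ((1 - eᴴ * e) * M) := by rw [hA]
      _ = Mᴴ * M - (Mᴴ * eᴴ) * (e * M) := by
          simp only [Matrix.sub_mul, Matrix.mul_sub, Matrix.one_mul, Matrix.mul_assoc]
      _ = Mᴴ * M - mᴴ * (U * (Uᴴ * m)) := by rw [heMs, heM, Matrix.mul_assoc]
  have c4 : Mᴴ * M = Dᴴ * D - (mᴴ * m - mᴴ * (U * (Uᴴ * m))) := by
    calc Mᴴ * M = Dᴴ * ((B * Bᴴ) * D) := by
          rw [hMd, conjTranspose_mul, conjTranspose_conjTranspose]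
          simp only [Matrix.mul_assoc]
      _ = Dᴴ * D - Dᴴ * (eᴴ * ((1 - U * Uᴴ) * (e * D))) := by
          rw [hBB']
          simp only [Matrix.sub_mul, Matrix.mul_sub, Matrix.one_mul, Matrix.mul_assoc]
      _ = Dᴴ * D - (Dᴴ * eᴴ) * ((1 - U * Uᴴ) * m) := by rw [← hmd, Matrix.mul_assoc Dᴴ]
      _ = Dᴴ * D - mᴴ * ((1 - U * Uᴴ) * m) := by rw [hmd, conjTranspose_mul]
      _ = Dᴴ * D - (mᴴ * m - mᴴ * (U * (Uᴴ * m))) := by
          simp only [Matrix.sub_mul, Matrix.mul_sub, Matrix.one_mul, Matrix.mul_assoc]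
  have h2 : (P * D)ᴴ * (P * D) = Dᴴ * D := by
    rw [hPD, conjTranspose_add, Matrix.add_mul, Matrix.mul_add, Matrix.mul_add, c1, c2, c3, c4]
    abel
  have hGG : Bᴴ * D + Dᴴ * B + Dᴴ * D = 1 - Bᴴ * B := by
    rw [← hG, hGd, conjTranspose_add]
    simp only [Matrix.add_mul, Matrix.mul_add]
    abel
  have hGG' : B * Dᴴ + D * Bᴴ + D * Dᴴ = 1 - B * Bᴴ := by
    rw [← hG', hGd, conjTranspose_add]
    simp only [Matrix.add_mul, Matrix.mul_add]
    abel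
  constructor
  · calc (U + P * D * P'ᴴ)ᴴ * (U + P * D * P'ᴴ)
        = Uᴴ * U + (Uᴴ * P) * (D * P'ᴴ) + P' * (Dᴴ * (Pᴴ * U)) +
            P' * (((P * D)ᴴ * (P * D)) * P'ᴴ) := by
          rw [conjTranspose_add, Matrix.add_mul, Matrix.mul_add, Matrix.mul_add]
          simp only [conjTranspose_mul, conjTranspose_conjTranspose, Matrix.mul_assoc]
          abel
      _ = Uᴴ * U + (P' * Bᴴ) * (D * P'ᴴ) + P' * (Dᴴ * (B * P'ᴴ)) +
            P' * ((Dᴴ * D) * P'ᴴ) := by rw [h3, h3s, h2]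
      _ = Uᴴ * U + P' * (Bᴴ * D + Dᴴ * B + Dᴴ * D) * P'ᴴ := by
          simp only [Matrix.add_mul, Matrix.mul_add, Matrix.mul_assoc]
          abel
      _ = 1 := by rw [hGG, h5]; abel
  · calc (U + P * D * P'ᴴ) * (U + P * D * P'ᴴ)ᴴ
        = U * Uᴴ + (U * P') * (Dᴴ * Pᴴ) + P * (D * (P'ᴴ * Uᴴ)) +
            P * ((D * P'ᴴ * (P' * Dᴴ)) * Pᴴ) := by
          rw [conjTranspose_add, Matrix.add_mul, Matrix.mul_add, Matrix.mul_add]
          simp only [conjTranspose_mul, conjTranspose_conjTranspose, Matrix.mul_assoc]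
          abel
      _ = U * Uᴴ + (P * B) * (Dᴴ * Pᴴ) + P * (D * (Bᴴ * Pᴴ)) +
            P * ((D * Dᴴ) * Pᴴ) := by rw [h4, h4s, h1]
      _ = U * Uᴴ + P * (B * Dᴴ + D * Bᴴ + D * Dᴴ) * Pᴴ := by
          simp only [Matrix.add_mul, Matrix.mul_add, Matrix.mul_assoc]
          abel
      _ = 1 := by rw [hGG', h5']; abel

end H47
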