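import Pool.Agent.H.MP_47f0a1_an.Defs

/-!
# The abstract intertwining argument
-/

open Matrix

namespace H47

variable {R : Type*} [Ring R] [StarRing R] {I : Type*} [Fintype I] [DecidableEq I]

/-- Abstract intertwining. `Om, Om', Op, Op'` are the four diagonal matrices.

Proof. `(H4)` `U P' = P B` as in `chain_abstract`, so `u = U + P G P'* - U P' P'*`. Then
`φ u - u ψ = (φ U - U ψ) + (φ P G P'* - P G P'* ψ) - (φ U P' P'* - U P' P'* ψ)`, where
`φ P = P Om`: `φ U P' B* = U ψ P' B* = U P' Om' B* = U P' B* Om` and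
`φ q e = q φ e = q e Om` (`φ U U* = U ψ U* = U U* φ`); `P'* ψ = Om' P'*`, `ψ P' = P' Om'`;
so it equals `P Om G P'* - P G Om' P'* - U (P' Om' P'* - P' Om' P'*)`, and subtract
`0 = P (Op G - G Op') P'*`. -/
theorem chain_inter (U φ ψ : Matrix Unit Unit R) (e P' : Matrix Unit I R) (G B : Matrix I I R)
    (Om Om' Op Op' : Matrix I I R)
    (heB : e * B = U * e)
    (hBB : Bᴴ * B = 1 - eᴴ * (1 - Uᴴ * U) * e) (hPe : P' * eᴴ = 1)
    (h1 : φ * U = U * ψ) (h2 : ψ * Uᴴ = Uᴴ * φ) (h3 : ψ * P' = P' * Om')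
    (h4 : P'ᴴ * ψ = Om' * P'ᴴ) (h5 : Om' * Bᴴ = Bᴴ * Om) (h6 : φ * e = e * Om)
    (h7 : Op * G = G * Op') :
    φ * (U + (U * P' * Bᴴ + (1 - U * Uᴴ) * e) * (G - B) * P'ᴴ) -
        (U + (U * P' * Bᴴ + (1 - U * Uᴴ) * e) * (G - B) * P'ᴴ) * ψ =
      (U * P' * Bᴴ + (1 - U * Uᴴ) * e) * (Om - Op) * G * P'ᴴ -
        (U * P' * Bᴴ + (1 - U * Uᴴ) * e) * G * (Om' - Op') * P'ᴴ := by
  obtain ⟨P, hPd⟩ : ∃ P : Matrix Unit I R, P = U * P' * Bᴴ + (1 - U * Uᴴ) * e := ⟨_, rfl⟩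
  rw [← hPd]
  have k4 : P * B = U * P' := by
    calc P * B = U * P' * (Bᴴ * B) + (1 - U * Uᴴ) * (e * B) := by
          rw [hPd, Matrix.add_mul]; simp only [Matrix.mul_assoc]
      _ = U * P' * (1 - eᴴ * (1 - Uᴴ * U) * e) + (1 - U * Uᴴ) * (U * e) := by rw [hBB, heB]
      _ = U * P' - U * (P' * eᴴ) * ((1 - Uᴴ * U) * e) + (1 - U * Uᴴ) * (U * e) := by
          rw [Matrix.mul_sub, Matrix.mul_one]; simp only [Matrix.mul_assoc]
      _ = U * P' - U * ((1 - Uᴴ * U) * e) + (1 - U * Uᴴ) * (U * e) := by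
          rw [hPe, Matrix.mul_one]
      _ = U * P' := by
          simp only [Matrix.sub_mul, Matrix.mul_sub, Matrix.one_mul, Matrix.mul_assoc]
          abel
  have kP : φ * P = P * Om := by
    calc φ * P = (φ * U) * (P' * Bᴴ) + (φ * e - (φ * U) * (Uᴴ * e)) := by
          rw [hPd]
          simp only [Matrix.sub_mul, Matrix.mul_sub, Matrix.mul_add, Matrix.one_mul,
            Matrix.mul_assoc]
      _ = U * ((ψ * P') * Bᴴ) + (φ * e - U * ((ψ * Uᴴ) * e)) := by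
          rw [h1]; simp only [Matrix.mul_assoc]
      _ = U * (P' * (Om' * Bᴴ)) + (φ * e - U * (Uᴴ * (φ * e))) := by
          rw [h3, h2]; simp only [Matrix.mul_assoc]
      _ = U * (P' * (Bᴴ * Om)) + (e * Om - U * (Uᴴ * (e * Om))) := by rw [h5, h6]
      _ = P * Om := by
          rw [hPd]
          simp only [Matrix.sub_mul, Matrix.add_mul, Matrix.one_mul, Matrix.mul_assoc]
  have ku : U + P * (G - B) * P'ᴴ = U + P * G * P'ᴴ - U * P' * P'ᴴ := by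
    rw [Matrix.mul_sub, k4, Matrix.sub_mul]; abel
  rw [ku]
  have k1 : φ * (U + P * G * P'ᴴ - U * P' * P'ᴴ) =
      U * ψ + P * Om * G * P'ᴴ - U * P' * Om' * P'ᴴ := by
    calc φ * (U + P * G * P'ᴴ - U * P' * P'ᴴ)
        = φ * U + (φ * P) * (G * P'ᴴ) - (φ * U) * (P' * P'ᴴ) := by
          simp only [Matrix.mul_sub, Matrix.mul_add, Matrix.mul_assoc]
      _ = U * ψ + (P * Om) * (G * P'ᴴ) - U * ((ψ * P') * P'ᴴ) := by
          rw [h1, kP]; simp only [Matrix.mul_assoc]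
      _ = U * ψ + P * Om * G * P'ᴴ - U * P' * Om' * P'ᴴ := by
          rw [h3]; simp only [Matrix.mul_assoc]
  have k2 : (U + P * G * P'ᴴ - U * P' * P'ᴴ) * ψ =
      U * ψ + P * G * Om' * P'ᴴ - U * P' * Om' * P'ᴴ := by
    calc (U + P * G * P'ᴴ - U * P' * P'ᴴ) * ψ
        = U * ψ + P * G * (P'ᴴ * ψ) - U * P' * (P'ᴴ * ψ) := by
          simp only [Matrix.sub_mul, Matrix.add_mul, Matrix.mul_assoc]
      _ = U * ψ + P * G * Om' * P'ᴴ - U * P' * Om' * P'ᴴ := by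
          rw [h4]; simp only [Matrix.mul_assoc]
  have k3 : P * Op * G * P'ᴴ = P * G * Op' * P'ᴴ := by
    calc P * Op * G * P'ᴴ = P * (Op * G) * P'ᴴ := by simp only [Matrix.mul_assoc]
      _ = P * G * Op' * P'ᴴ := by rw [h7]; simp only [Matrix.mul_assoc]
  have k5 : P * (Om - Op) * G * P'ᴴ = P * Om * G * P'ᴴ - P * Op * G * P'ᴴ := by
    simp only [Matrix.sub_mul, Matrix.mul_sub]
  have k6 : P * G * (Om' - Op') * P'ᴴ = P * G * Om' * P'ᴴ - P * G * Op' * P'ᴴ := by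
    simp only [Matrix.sub_mul, Matrix.mul_sub]
  rw [k1, k2, k5, k6, k3]
  abel

end H47
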