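import Pool.Agent.H.MP_47f0a1_an.MatsB
import Pool.Agent.H.MP_47f0a1_an.Chain1

/-!
# The concrete chain: unitarity
-/

open Matrix

namespace H47

variable {R : Type*} [Ring R] [StarRing R]

/-- The absorption relations of the row `v`. -/
structure Rel1 {N : ℕ} (U f g w : R) (v : Idx N → R) : Prop where
  v0 : v (Sum.inl 0) = 1
  vf : ∀ x y, x ≠ Sum.inl 0 → y ≠ Sum.inl 0 → star (v x) * v y * f = if x = y then f else 0
  vg : ∀ x y, x ≠ Sum.inl 0 → y ≠ Sum.inl 0 → star (v x) * v y * g = if x = y then g else 0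
  vw : ∀ x y, x ≠ Sum.inl 0 → y ≠ Sum.inl 0 →
    star (v x) * v y * (w - U) = if x = y then w - U else 0
  vws : ∀ x y, x ≠ Sum.inl 0 → y ≠ Sum.inl 0 →
    star (v x) * v y * star (w - U) = if x = y then star (w - U) else 0
  vUw : ∀ x y, x ≠ Sum.inl 0 → y ≠ Sum.inl 0 →
    star (v x) * v y * (star U * (w - U)) = if x = y then star U * (w - U) else 0
  gv : ∀ x, x ≠ Sum.inl 0 → g * v x = 0

/-- The entries of `D = G - B`: every entry is one of `0, ±f, ±g, w - U` in the way used below. -/
theorem D_col_zero (N : ℕ) (U f g w : R) (hN : 0 < N) (x : Idx N) :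
    (Gm N U f g w - Bm N U f g) x (Sum.inl 0) =
      match x with
      | .inl _ => 0
      | .inr j => if (j : ℕ) = 0 then g else 0 := by
  have hlast : (0 : Fin (N + 1)) ≠ Fin.last N := by
    intro h
    have := congrArg Fin.val h
    simp at this
    omega
  rcases x with i | j
  · rw [Matrix.sub_apply]
    by_cases hi : i = 0
    · subst hi
      simp [Gm, Bm, hlast]
    · simp [Gm, Bm, hi]
  · rw [Matrix.sub_apply]
    have h1 : ((0 : Fin (N + 1)) = j.castSucc) ↔ (j : ℕ) = 0 := by
      rw [Fin.ext_iff]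
      simp [eq_comm]
    by_cases hj : (j : ℕ) = 0
    · have h2 := h1.mpr hj
      simp only [Gm, Bm, Matrix.of_apply]
      rw [if_pos h2, if_neg (Fin.succ_ne_zero j).symm, if_pos hj, sub_zero]
    · have h2 : ¬ ((0 : Fin (N + 1)) = j.castSucc) := fun h => hj (h1.mp h)
      simp only [Gm, Bm, Matrix.of_apply]
      rw [if_neg h2, if_neg (Fin.succ_ne_zero j).symm, if_neg hj, sub_zero]

omit [StarRing R] in
theorem chain3_V {N : ℕ} (v : Idx N → R) (h0 : v (Sum.inl 0) = 1) (u : Unit) (x : Idx N) :
    (rowM v - er R N) u x = if x = Sum.inl 0 then 0 else v x := by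
  rw [Matrix.sub_apply, matsb_er]
  by_cases hx : x = Sum.inl 0
  · subst hx
    simp [rowM, h0]
  · simp [rowM, hx]

theorem chain3_ee {N : ℕ} (X : Matrix (Idx N) (Idx N) R) (x z : Idx N) :
    ((1 - (er R N)ᴴ * er R N) * X : Matrix (Idx N) (Idx N) R) x z =
      if x = Sum.inl 0 then 0 else X x z := by
  rw [Matrix.sub_mul, Matrix.one_mul, Matrix.sub_apply, Matrix.mul_assoc, Matrix.mul_apply]
  simp only [Finset.univ_unique, Finset.sum_singleton, Matrix.conjTranspose_apply, matsb_er]
  rw [Matrix.mul_apply]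
  simp only [matsb_er]
  rw [matsb_sum]
  by_cases hx : x = Sum.inl 0
  · subst hx
    simp
  · simp [hx]

/-- A matrix `X` is absorbed if every entry `b` in the rows `≠ inl 0` satisfies
`v_x* v_y b = δ_{xy} b`. Then `(P' - e)* (P' - e) X = (1 - e* e) X`. Proof: the entries of `P' - e` are
`v x` for `x ≠ inl 0` and `0` at `inl 0`. -/
theorem absorbed {N : ℕ} (v : Idx N → R) (h0 : v (Sum.inl 0) = 1) (X : Matrix (Idx N) (Idx N) R)
    (hX : ∀ x y z, x ≠ Sum.inl 0 → y ≠ Sum.inl 0 →
      star (v x) * v y * X y z = if x = y then X y z else 0) :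
    (rowM v - er R N)ᴴ * (rowM v - er R N) * X = (1 - (er R N)ᴴ * er R N) * X := by
  ext x z
  rw [chain3_ee, Matrix.mul_assoc, Matrix.mul_apply]
  simp only [Finset.univ_unique, Finset.sum_singleton, Matrix.conjTranspose_apply]
  rw [Matrix.mul_apply, Finset.mul_sum]
  simp only [chain3_V v h0]
  by_cases hx : x = Sum.inl 0
  · subst hx
    simp
  · simp only [if_neg hx]
    rw [Finset.sum_eq_single x]
    · rw [if_neg hx, ← mul_assoc, hX x x z hx hx, if_pos rfl]
    · intro y _ hy
      by_cases hy0 : y = Sum.inl 0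
      · simp [hy0]
      · rw [if_neg hy0, ← mul_assoc, hX x y z hx hy0, if_neg (Ne.symm hy)]
    · intro h
      exact absurd (Finset.mem_univ x) h

/-- `b` is absorbed by the row `v`. -/
def Chain3Ab {N : ℕ} (v : Idx N → R) (b : R) : Prop :=
  ∀ x y, x ≠ Sum.inl 0 → y ≠ Sum.inl 0 → star (v x) * v y * b = if x = y then b else 0

theorem chain3_zero {N : ℕ} (v : Idx N → R) : Chain3Ab v 0 := by
  intro x y _ _
  simp

theorem chain3_sub {N : ℕ} {v : Idx N → R} {a b : R} (ha : Chain3Ab v a) (hb : Chain3Ab v b) :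
    Chain3Ab v (a - b) := by
  intro x y hx hy
  rw [mul_sub, ha x y hx hy, hb x y hx hy]
  by_cases h : x = y
  · simp [h]
  · simp [h]

theorem chain3_add {N : ℕ} {v : Idx N → R} {a b : R} (ha : Chain3Ab v a) (hb : Chain3Ab v b) :
    Chain3Ab v (a + b) := by
  intro x y hx hy
  rw [mul_add, ha x y hx hy, hb x y hx hy]
  by_cases h : x = y
  · simp [h]
  · simp [h]

theorem chain3_neg {N : ℕ} {v : Idx N → R} {a : R} (ha : Chain3Ab v a) :
    Chain3Ab v (-a) := by
  intro x y hx hy
  rw [mul_neg, ha x y hx hy]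
  by_cases h : x = y
  · simp [h]
  · simp [h]

theorem chain3_mul {N : ℕ} {v : Idx N → R} {a : R} (ha : Chain3Ab v a) (c : R) :
    Chain3Ab v (a * c) := by
  intro x y hx hy
  rw [← mul_assoc, ha x y hx hy]
  by_cases h : x = y
  · simp [h]
  · simp [h]

theorem chain3_ite {N : ℕ} {v : Idx N → R} {a : R} (ha : Chain3Ab v a) (p : Prop) [Decidable p] :
    Chain3Ab v (if p then a else 0) := by
  by_cases h : p
  · rw [if_pos h]
    exact ha
  · rw [if_neg h]
    exact chain3_zero v

/-- The entries of `D` in the column `inl i`, `i ≠ 0`, or `inr`. -/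
theorem chain3_Dll (N : ℕ) (U f g w : R) (i i' : Fin (N + 1)) :
    (Gm N U f g w - Bm N U f g) (Sum.inl i) (Sum.inl i') =
      if i = i' then (if i = Fin.last N then w - U else 0) else 0 := by
  rw [Matrix.sub_apply]
  by_cases h : i = i'
  · by_cases hl : i = Fin.last N
    · simp [Gm, Bm, ← h, hl]
    · simp [Gm, Bm, ← h, hl]
  · simp [Gm, Bm, h]

theorem chain3_Dlr (N : ℕ) (U f g w : R) (i : Fin (N + 1)) (j : Fin N) :
    (Gm N U f g w - Bm N U f g) (Sum.inl i) (Sum.inr j) =
      (if i = j.succ then f else 0) - (if i = j.castSucc then f else 0) := by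
  rw [Matrix.sub_apply]
  simp only [Gm, Bm, Matrix.of_apply]
  split_ifs <;> simp

theorem chain3_Drl (N : ℕ) (U f g w : R) (i : Fin (N + 1)) (j : Fin N) :
    (Gm N U f g w - Bm N U f g) (Sum.inr j) (Sum.inl i) =
      (if i = j.castSucc then g else 0) - (if i = j.succ then g else 0) := by
  rw [Matrix.sub_apply]
  simp only [Gm, Bm, Matrix.of_apply]

theorem chain3_Drr (N : ℕ) (U f g w : R) (j j' : Fin N) :
    (Gm N U f g w - Bm N U f g) (Sum.inr j) (Sum.inr j') = 0 := by
  rw [Matrix.sub_apply]
  simp only [Gm, Bm, Matrix.of_apply, sub_self]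

theorem chain3_BDl (N : ℕ) (U f g w : R) (k : Fin N) (z : Idx N) :
    ((Bm N U f g)ᴴ * (Gm N U f g w - Bm N U f g)) (Sum.inl k.succ) z =
      star U * (Gm N U f g w - Bm N U f g) (Sum.inl k.succ) z +
        star g * (Gm N U f g w - Bm N U f g) (Sum.inr k) z := by
  obtain ⟨D, hD⟩ : ∃ D, D = Gm N U f g w - Bm N U f g := ⟨_, rfl⟩
  rw [← hD, Matrix.mul_apply, Fintype.sum_sum_type]
  simp only [Bm, Matrix.conjTranspose_apply, Matrix.of_apply]
  congr 1
  · rw [Finset.sum_eq_single k.succ]
    · simp
    · intro b _ hb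
      simp [hb]
    · intro h
      exact absurd (Finset.mem_univ _) h
  · rw [Finset.sum_eq_single k]
    · simp
    · intro b _ hb
      simp [Ne.symm hb]
    · intro h
      exact absurd (Finset.mem_univ _) h

theorem chain3_BDr (N : ℕ) (U f g w : R) (j : Fin N) (z : Idx N) :
    ((Bm N U f g)ᴴ * (Gm N U f g w - Bm N U f g)) (Sum.inr j) z =
      -(star f * (Gm N U f g w - Bm N U f g) (Sum.inl j.succ) z) +
        U * (Gm N U f g w - Bm N U f g) (Sum.inr j) z := by
  obtain ⟨D, hD⟩ : ∃ D, D = Gm N U f g w - Bm N U f g := ⟨_, rfl⟩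
  rw [← hD, Matrix.mul_apply, Fintype.sum_sum_type]
  simp only [Bm, Matrix.conjTranspose_apply, Matrix.of_apply]
  congr 1
  · rw [Finset.sum_eq_single j.succ]
    · simp
    · intro b _ hb
      simp [hb]
    · intro h
      exact absurd (Finset.mem_univ _) h
  · rw [Finset.sum_eq_single j]
    · simp
    · intro b _ hb
      simp [hb]
    · intro h
      exact absurd (Finset.mem_univ _) h

theorem chain3_hC {N : ℕ} {U f g w : R} {v : Idx N → R} (h0 : Rel0 U f g w)
    (h1 : Rel1 U f g w v) (y z : Idx N) :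
    y ≠ Sum.inl 0 → Chain3Ab v ((Gm N U f g w - Bm N U f g)ᴴ y z) := by
  intro hy
  have af : Chain3Ab v f := h1.vf
  have ag : Chain3Ab v g := h1.vg
  have aws : Chain3Ab v (star (w - U)) := h1.vws
  rw [Matrix.conjTranspose_apply]
  rcases y with i | j <;> rcases z with i' | j'
  · rw [chain3_Dll]
    have e : star (if i' = i then (if i' = Fin.last N then w - U else 0) else (0 : R)) =
        if i' = i then (if i' = Fin.last N then star (w - U) else 0) else 0 := by
      split_ifs <;> simp
    rw [e]
    exact chain3_ite (chain3_ite aws _) _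
  · rw [chain3_Drl]
    have e : star ((if i = j'.castSucc then g else 0) - (if i = j'.succ then g else (0 : R))) =
        (if i = j'.castSucc then g else 0) - (if i = j'.succ then g else (0 : R)) := by
      rw [star_sub]
      congr 1 <;> split_ifs <;> simp [h0.gs]
    rw [e]
    exact chain3_sub (chain3_ite ag _) (chain3_ite ag _)
  · rw [chain3_Dlr]
    have e : star ((if i' = j.succ then f else 0) - (if i' = j.castSucc then f else (0 : R))) =
        (if i' = j.succ then f else 0) - (if i' = j.castSucc then f else (0 : R)) := by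
      rw [star_sub]
      congr 1 <;> split_ifs <;> simp [h0.fs]
    rw [e]
    exact chain3_sub (chain3_ite af _) (chain3_ite af _)
  · rw [chain3_Drr, star_zero]
    exact chain3_zero v

theorem chain3_hA {N : ℕ} {U f g w : R} {v : Idx N → R} (h0 : Rel0 U f g w)
    (h1 : Rel1 U f g w v) (y z : Idx N) :
    y ≠ Sum.inl 0 →
      Chain3Ab v (((Bm N U f g)ᴴ * (Gm N U f g w - Bm N U f g)) y z) := by
  intro hy
  have af : Chain3Ab v f := h1.vf
  have ag : Chain3Ab v g := h1.vg
  have aUw : Chain3Ab v (star U * (w - U)) := h1.vUw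
  have aUf : Chain3Ab v (star U * f) := by
    rw [h0.Uf]
    exact chain3_mul ag _
  have aUg : Chain3Ab v (U * g) := by
    rw [← h0.fU]
    exact chain3_mul af _
  have hite : ∀ (c b : R) (p : Prop) [Decidable p],
      c * (if p then b else 0) = if p then c * b else 0 := by
    intro c b p _
    split_ifs <;> simp
  rcases y with i | j
  · obtain ⟨k, rfl⟩ : ∃ k : Fin N, k.succ = i := by
      have hi : i ≠ 0 := by
        rintro rfl
        exact hy rfl
      exact Fin.exists_succ_eq.mpr hi
    rw [chain3_BDl, h0.gs]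
    refine chain3_add ?_ (chain3_mul ag _)
    rcases z with i' | j'
    · rw [chain3_Dll, hite, hite]
      exact chain3_ite (chain3_ite aUw _) _
    · rw [chain3_Dlr, mul_sub, hite, hite]
      exact chain3_sub (chain3_ite aUf _) (chain3_ite aUf _)
  · rw [chain3_BDr, h0.fs]
    refine chain3_add (chain3_neg (chain3_mul af _)) ?_
    rcases z with i' | j'
    · rw [chain3_Drl, mul_sub, hite, hite]
      exact chain3_sub (chain3_ite aUg _) (chain3_ite aUg _)
    · rw [chain3_Drr, mul_zero]
      exact chain3_zero v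

/-- Concrete unitarity.

Proof. `chain_abstract` with `U := s1 U`, `e := er R N`, `P' := rowM v`. Hypotheses:
* `hG, hG'`: `Gm_unitary`; `heB, heB', hee, hBB, hBB', hPe`: file `MatsB`.
* `hE`: `g² = 1 - U* U` and `g v_x = 0` for `x ≠ inl 0`; `v (inl 0) = 1`.
* `hD`: column `inl 0` of `D = G - B` consists of `0` and `g` (for `N > 0`; it is `(w - U)` if `N = 0`,
  but then `P' - e = 0`), and `g v_x = 0`.
* `hC`: `absorbed` for `X = Dᴴ`; the entries of `Dᴴ` in the rows `y ≠ inl 0` are `0`, `± star f = ± f`,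
  `± star g = ± g` or `star (w - U)`.
* `hA`: `absorbed` for `X = Bᴴ D`. Its entries in the row `y ≠ inl 0`: for `y = inl (j+1)`:
  `U* D (inl (j+1)) z + g D (inr j) z`, and for `y = inr j`: `-f D (inl (j+1)) z + U D (inr j) z`. Here
  `D (inl (j+1)) z ∈ {0, ± f, w - U}` and `D (inr j) z ∈ {0, ± g}`. Use `U* f = g U*`, `U g = f U`, so that
  all terms are right multiples of `f, g` or equal to `U* (w - U)`.
* `hB`: `e Bᴴ D = U* (e D)`, whose entries are `0`, `- U* f = - g U*` (and `U* (w - U)` if `N = 0`, but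
  then `P' - e = 0`); `v_x* g = (g v_x)* = 0`.
The result for `uM`: it is the matrix `u` of `chain_abstract` by definition
(`s1 (1 - U * star U) = 1 - s1 U * (s1 U)ᴴ`). -/
theorem chain_unitary {N : ℕ} {U f g w : R} {v : Idx N → R} (h0 : Rel0 U f g w)
    (h1 : Rel1 U f g w v) :
    (uM U f g w v)ᴴ * uM U f g w v = 1 ∧ uM U f g w v * (uM U f g w v)ᴴ = 1 := by
  have eq1 : s1 (1 - U * star U) = 1 - s1 U * (s1 U)ᴴ := by
    rw [s1_sub, s1_one, s1_mul, s1_star]
  have ep1 : s1 (1 - star U * U) = 1 - (s1 U)ᴴ * s1 U := by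
    rw [s1_sub, s1_one, s1_mul, s1_star]
  have hN : ∀ x : Idx N, x ≠ Sum.inl 0 → 0 < N := by
    intro x hx
    rcases Nat.eq_zero_or_pos N with h | h
    · subst h
      rcases x with i | j
      · refine absurd (congrArg Sum.inl ?_) hx
        apply Fin.ext
        have h1 := i.isLt
        have h2 := (0 : Fin (0 + 1)).isLt
        omega
      · exact j.elim0
    · exact h
  have key := chain_abstract (s1 U) (er R N) (rowM v) (Gm N U f g w) (Bm N U f g)
    (er_mul_er_star N) (Gm_unitary N h0).1 (Gm_unitary N h0).2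
    (er_mul_Bm N U f g) (by rw [s1_star]; exact er_mul_Bm_star N U f g)
    (by rw [← ep1]; exact Bm_star_mul N h0) (by rw [← eq1]; exact Bm_mul_star N h0)
    (rowM_mul_er_star v h1.v0) ?_ ?_ ?_ ?_ ?_
  · unfold uM Prow
    rw [eq1]
    exact key
  · -- hE
    rw [← ep1, ← sub_eq_zero, ← Matrix.mul_sub]
    ext u x
    rw [Matrix.mul_apply]
    simp only [Finset.univ_unique, Finset.sum_singleton, chain3_V v h1.v0, s1, Matrix.of_apply,
      Matrix.zero_apply]
    by_cases hx : x = Sum.inl 0
    · rw [if_pos hx, mul_zero]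
    · rw [if_neg hx, ← h0.gg, mul_assoc, h1.gv x hx, mul_zero]
  · -- hD
    ext x y
    rw [Matrix.mul_apply]
    simp only [Finset.univ_unique, Finset.sum_singleton, chain3_V v h1.v0, Matrix.zero_apply]
    by_cases hy : y = Sum.inl 0
    · rw [if_pos hy, mul_zero]
    · rw [if_neg hy, Matrix.mul_apply]
      have e : ∑ t, (Gm N U f g w - Bm N U f g) x t * (er R N)ᴴ t default =
          (Gm N U f g w - Bm N U f g) x (Sum.inl 0) := by
        rw [Finset.sum_eq_single (Sum.inl 0)]
        · simp [Matrix.conjTranspose_apply, matsb_er]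
        · intro b _ hb
          simp [Matrix.conjTranspose_apply, matsb_er, hb]
        · intro h
          exact absurd (Finset.mem_univ _) h
      rw [e, D_col_zero N U f g w (hN y hy) x]
      rcases x with i | j
      · exact zero_mul _
      · show (if (j : ℕ) = 0 then g else 0) * v y = 0
        split_ifs
        · exact h1.gv y hy
        · exact zero_mul _
  · -- hC
    exact absorbed v h1.v0 _ (fun x y z hx hy => chain3_hC h0 h1 y z hy x y hx hy)
  · -- hA
    exact absorbed v h1.v0 _ (fun x y z hx hy => chain3_hA h0 h1 y z hy x y hx hy)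
  · -- hB
    rw [Matrix.mul_assoc, ← Matrix.mul_assoc (er R N), er_mul_Bm_star, Matrix.mul_assoc (s1 _)]
    ext x z
    rw [Matrix.mul_apply]
    simp only [Finset.univ_unique, Finset.sum_singleton, Matrix.conjTranspose_apply,
      chain3_V v h1.v0, Matrix.zero_apply]
    by_cases hx : x = Sum.inl 0
    · rw [if_pos hx, star_zero, zero_mul]
    · rw [if_neg hx, Matrix.mul_apply]
      simp only [Finset.univ_unique, Finset.sum_singleton, s1, Matrix.of_apply]
      have e : (er R N * (Gm N U f g w - Bm N U f g)) default z =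
          (Gm N U f g w - Bm N U f g) (Sum.inl 0) z := by
        rw [Matrix.mul_apply]
        simp only [matsb_er]
        rw [matsb_sum]
      rw [e]
      have hNx := hN x hx
      have hl : (0 : Fin (N + 1)) ≠ Fin.last N := by
        intro h
        have := congrArg Fin.val h
        simp at this
        omega
      have hvg : star (v x) * g = 0 := by
        have := congrArg star (h1.gv x hx)
        rwa [star_mul, h0.gs, star_zero] at this
      rcases z with i' | j'
      · rw [chain3_Dll, if_neg hl]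
        simp
      · rw [chain3_Dlr, if_neg (Fin.succ_ne_zero j').symm, zero_sub, mul_neg]
        have h3 : star U * (if (0 : Fin (N + 1)) = j'.castSucc then f else 0) =
            if (0 : Fin (N + 1)) = j'.castSucc then g * star U else 0 := by
          split_ifs
          · exact h0.Uf
          · exact mul_zero _
        rw [h3, mul_neg]
        split_ifs
        · rw [← mul_assoc, hvg, zero_mul, neg_zero]
        · rw [mul_zero, neg_zero]

end H47
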