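import Pool.Agent.H.MP_47f0a1_an.MatsB
import Pool.Agent.H.MP_47f0a1_an.Chain2

/-!
# The concrete chain: intertwining
-/

open Matrix

namespace H47

variable {R : Type*} [Ring R] [StarRing R]

/-- The diagonal entries: `a k` at `inl k`, `b (j+1)` at `inr j`. -/
def dg (N : ℕ) (a b : ℕ → R) : Idx N → R
  | .inl k => a k
  | .inr j => b (j + 1)

/-- The intertwining relations of the chain, for `φ k, ψ k`, `k ≤ N + 1`. -/
structure Rel2 {N : ℕ} (U f g w : R) (v : Idx N → R) (φ ψ : ℕ → R) : Prop where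
  U1 : ∀ k ≤ N + 1, φ k * U = U * ψ k
  U2 : ∀ k ≤ N + 1, ψ k * star U = star U * φ k
  ff : ∀ k ≤ N + 1, φ k * f = f * φ k
  gg : ∀ k ≤ N + 1, ψ k * g = g * ψ k
  ww : φ (N + 1) * w = w * ψ (N + 1)
  v1 : ∀ x, ψ 0 * v x = v x * dg N ψ φ x
  v2 : ∀ x, star (v x) * ψ 0 = dg N ψ φ x * star (v x)

/-- Concrete intertwining.

Proof. `chain_inter` with `Om = diagonal (dg N φ ψ)`, `Om' = diagonal (dg N ψ φ)`,
`Op = diagonal (dg N (fun k => φ (k+1)) ψ)`, `Op' = diagonal (dg N (fun k => ψ (k+1)) φ)`.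
* `h5 : Om' Bᴴ = Bᴴ Om`: entries: `(inl k, inl k)`: `ψ k U* = U* φ k`; `(inl (j+1), inr j)` of `Bᴴ` is
  `star g = g`: `ψ (j+1) g = g ψ (j+1)`; `(inr j, inl (j+1))` is `-f`: `φ (j+1) f = f φ (j+1)`;
  `(inr j, inr j)` is `U`: `φ (j+1) U = U ψ (j+1)`.
* `h6`: `φ 0` at `inl 0`.
* `h7 : Op G = G Op'`: `(inl i, inl i)`, `i < N`: `φ (i+1) U = U ψ (i+1)`; `i = N`:
  `φ (N+1) w = w ψ (N+1)`; `(inl j, inr j)`: `φ (j+1) f = f φ (j+1)`; `(inr j, inl j)`:
  `ψ (j+1) g = g ψ (j+1)`; `(inr j, inr j)`: `ψ (j+1) U* = U* φ (j+1)`. -/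
theorem chain_intertwine {N : ℕ} {U f g w : R} {v : Idx N → R} {φ ψ : ℕ → R}
    (h0 : Rel0 U f g w) (hv : v (Sum.inl 0) = 1) (h2 : Rel2 U f g w v φ ψ) :
    s1 (φ 0) * uM U f g w v - uM U f g w v * s1 (ψ 0) =
      Prow U f g v * (diagonal (dg N φ ψ) - diagonal (dg N (fun k => φ (k + 1)) ψ)) *
          Gm N U f g w * (rowM v)ᴴ -
        Prow U f g v * Gm N U f g w *
          (diagonal (dg N ψ φ) - diagonal (dg N (fun k => ψ (k + 1)) φ)) * (rowM v)ᴴ := by
  have hq : (1 : Matrix Unit Unit R) - s1 U * (s1 U)ᴴ = s1 (1 - U * star U) := by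
    rw [s1_star, ← s1_mul, s1_sub, s1_one]
  have hp : (1 : Matrix Unit Unit R) - (s1 U)ᴴ * s1 U = s1 (1 - star U * U) := by
    rw [s1_star, ← s1_mul, s1_sub, s1_one]
  have hle : ∀ i : Fin (N + 1), (i : ℕ) ≤ N + 1 := fun i => by omega
  have hlj : ∀ j : Fin N, (j : ℕ) + 1 ≤ N + 1 := fun j => by omega
  have key := chain_inter (s1 U) (s1 (φ 0)) (s1 (ψ 0)) (er R N) (rowM v) (Gm N U f g w)
    (Bm N U f g) (diagonal (dg N φ ψ)) (diagonal (dg N ψ φ))
    (diagonal (dg N (fun k => φ (k + 1)) ψ)) (diagonal (dg N (fun k => ψ (k + 1)) φ))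
    (er_mul_Bm N U f g) (by rw [hp]; exact Bm_star_mul N h0) (rowM_mul_er_star v hv)
    (by rw [← s1_mul, ← s1_mul, h2.U1 0 (Nat.zero_le _)])
    (by rw [s1_star, ← s1_mul, ← s1_mul, h2.U2 0 (Nat.zero_le _)])
    ?_ ?_ ?_ ?_ ?_
  · rw [hq] at key
    exact key
  · ext u x
    rw [Matrix.mul_diagonal, Matrix.mul_apply]
    simpa [s1, rowM] using h2.v1 x
  · ext x u
    rw [Matrix.diagonal_mul, Matrix.mul_apply]
    simpa [s1, rowM] using h2.v2 x
  · ext x y
    rw [Matrix.diagonal_mul, Matrix.mul_diagonal, Matrix.conjTranspose_apply]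
    rcases x with i | j <;> rcases y with i' | j'
    · by_cases hi : i' = i
      · subst hi
        simpa [Bm, dg] using h2.U2 i' (hle i')
      · simp [Bm, hi]
    · by_cases hi : i = j'.succ
      · subst hi
        simpa [Bm, dg, h0.gs] using h2.gg (j' + 1) (hlj j')
      · simp [Bm, hi]
    · by_cases hi : i' = j.succ
      · subst hi
        simpa [Bm, dg, h0.fs] using h2.ff (j + 1) (hlj j)
      · simp [Bm, hi]
    · by_cases hi : j' = j
      · subst hi
        simpa [Bm, dg] using h2.U1 (j' + 1) (hlj j')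
      · simp [Bm, hi]
  · ext u x
    rw [Matrix.mul_diagonal, Matrix.mul_apply]
    by_cases hx : x = Sum.inl 0
    · subst hx
      simp [s1, er, dg]
    · simp [s1, er, hx]
  · ext x y
    rw [Matrix.diagonal_mul, Matrix.mul_diagonal]
    rcases x with i | j <;> rcases y with i' | j'
    · by_cases hi : i = i'
      · subst hi
        by_cases hl : i = Fin.last N
        · subst hl
          simpa [Gm, dg] using h2.ww
        · simpa [Gm, dg, hl] using h2.U1 (i + 1) (by omega)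
      · simp [Gm, hi]
    · by_cases hi : i = j'.castSucc
      · subst hi
        simpa [Gm, dg] using h2.ff (j' + 1) (hlj j')
      · simp [Gm, hi]
    · by_cases hi : i' = j.castSucc
      · subst hi
        simpa [Gm, dg] using h2.gg (j + 1) (hlj j)
      · simp [Gm, hi]
    · by_cases hi : j = j'
      · subst hi
        simpa [Gm, dg] using h2.U2 (j + 1) (hlj j)
      · simp [Gm, hi]

end H47
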