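import Pool.Agent.H.MP_47f0a1_an.Defs

/-!
# The semicircle law and Chebyshev polynomials
-/

open Polynomial

namespace H47

/-- The semicircle law with variance one, parametrized by `x = 2 cos t`, `0 ≤ t ≤ π`. -/
noncomputable def sc (f : ℝ → ℂ) : ℂ :=
  ∫ t in (0:ℝ)..Real.pi, f (2 * Real.cos t) * ((2 / Real.pi * Real.sin t ^ 2 : ℝ) : ℂ)

/-- integral of `cos (m t)` over `[0, π]`. -/
theorem scpoly_cos (m : ℕ) :
    ∫ t in (0:ℝ)..Real.pi, Real.cos ((m : ℝ) * t) = if m = 0 then Real.pi else 0 := by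
  split_ifs with h
  · subst h
    simp
  · have hc : (m : ℝ) ≠ 0 := Nat.cast_ne_zero.2 h
    rw [intervalIntegral.integral_comp_mul_left (fun x => Real.cos x) hc, integral_cos, mul_zero,
      Real.sin_zero, sub_zero, Real.sin_nat_mul_pi, smul_zero]

theorem scpoly_delta (n : ℕ) (F : ℝ → ℂ)
    (hF : ∀ t : ℝ, F (2 * Real.cos t) * ((Real.sin t : ℝ) : ℂ) =
      ((Real.sin (((n : ℝ) + 1) * t) : ℝ) : ℂ)) :
    sc F = if n = 0 then 1 else 0 := by
  unfold sc
  have h1 : ∀ t : ℝ, F (2 * Real.cos t) * ((2 / Real.pi * Real.sin t ^ 2 : ℝ) : ℂ) =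
      ((1 / Real.pi * (Real.cos ((n : ℝ) * t) - Real.cos (((n + 2 : ℕ) : ℝ) * t)) : ℝ) : ℂ) := by
    intro t
    have h2 : F (2 * Real.cos t) * ((2 / Real.pi * Real.sin t ^ 2 : ℝ) : ℂ) =
        (F (2 * Real.cos t) * ((Real.sin t : ℝ) : ℂ)) * ((2 / Real.pi * Real.sin t : ℝ) : ℂ) := by
      push_cast
      ring
    rw [h2, hF, ← Complex.ofReal_mul]
    congr 1
    have h3 : Real.cos ((n : ℝ) * t) - Real.cos (((n + 2 : ℕ) : ℝ) * t) =
        2 * Real.sin (((n : ℝ) + 1) * t) * Real.sin t := by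
      rw [show (n : ℝ) * t = ((n : ℝ) + 1) * t - t by ring,
        show ((n + 2 : ℕ) : ℝ) * t = ((n : ℝ) + 1) * t + t by push_cast; ring, Real.cos_sub,
        Real.cos_add]
      ring
    rw [h3]
    ring
  simp_rw [h1]
  rw [intervalIntegral.integral_ofReal, intervalIntegral.integral_const_mul,
    intervalIntegral.integral_sub (Continuous.intervalIntegrable (by fun_prop) _ _)
      (Continuous.intervalIntegrable (by fun_prop) _ _), scpoly_cos, scpoly_cos,
    if_neg (by omega : ¬ n + 2 = 0)]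
  split_ifs with h
  · rw [sub_zero, one_div, inv_mul_cancel₀ Real.pi_pos.ne', Complex.ofReal_one]
  · simp

theorem scpoly_top (S : Submodule ℂ (Polynomial ℂ)) (h1 : (1 : Polynomial ℂ) ∈ S)
    (hX : ∀ s ∈ S, X * s ∈ S) (q : Polynomial ℂ) : q ∈ S := by
  have h : ∀ n : ℕ, (X : Polynomial ℂ) ^ n ∈ S := by
    intro n
    induction n with
    | zero => simpa using h1
    | succ n ih =>
      rw [pow_succ']
      exact hX _ ih
  induction q using Polynomial.induction_on' with
  | add p q hp hq => exact S.add_mem hp hq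
  | monomial n a =>
    rw [← Polynomial.C_mul_X_pow_eq_monomial, ← Polynomial.smul_eq_C_mul]
    exact S.smul_mem a (h n)

theorem scpoly_uniq (L L' : Polynomial ℂ →ₗ[ℂ] ℂ) (p : ℕ → Polynomial ℂ) (h0 : p 0 = 1)
    (hX : ∀ n, X * p n ∈ Submodule.span ℂ (Set.range p)) (h : ∀ n, L (p n) = L' (p n))
    (q : Polynomial ℂ) : L q = L' q := by
  have hq : q ∈ Submodule.span ℂ (Set.range p) := by
    apply scpoly_top
    · rw [← h0]
      exact Submodule.subset_span ⟨0, rfl⟩
    · intro s hs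
      induction hs using Submodule.span_induction with
      | mem x hx =>
        obtain ⟨n, rfl⟩ := hx
        exact hX n
      | zero => simp
      | add x y _ _ hx hy =>
        rw [mul_add]
        exact Submodule.add_mem _ hx hy
      | smul a x _ hx =>
        rw [mul_smul_comm]
        exact Submodule.smul_mem _ a hx
  induction hq using Submodule.span_induction with
  | mem x hx =>
    obtain ⟨n, rfl⟩ := hx
    exact h n
  | zero => simp
  | add x y _ _ hx hy => rw [map_add, map_add, hx, hy]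
  | smul a x _ hx => rw [map_smul, map_smul, hx]

/-- The functional `q ↦ sc (q ∘ φ)`. -/
noncomputable def scpolyL (φ : ℝ → ℂ) (hφ : Continuous φ) : Polynomial ℂ →ₗ[ℂ] ℂ where
  toFun q := sc (fun x => q.eval (φ x))
  map_add' p q := by
    simp only [sc, Polynomial.eval_add, add_mul]
    have hc : ∀ r : Polynomial ℂ, Continuous (fun t : ℝ => r.eval (φ (2 * Real.cos t)) *
        ((2 / Real.pi * Real.sin t ^ 2 : ℝ) : ℂ)) := by
      intro r
      have h := r.continuous.comp (hφ.comp (continuous_const.mul Real.continuous_cos :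
        Continuous fun t : ℝ => 2 * Real.cos t))
      exact h.mul (by fun_prop)
    exact intervalIntegral.integral_add ((hc p).intervalIntegrable _ _)
      ((hc q).intervalIntegrable _ _)
  map_smul' c q := by
    simp only [sc, Polynomial.eval_smul, smul_eq_mul, mul_assoc, RingHom.id_apply]
    exact intervalIntegral.integral_const_mul _ _

/-- A linear functional on polynomials which takes the values `δ_{n0}` on the Chebyshev polynomials
is the integral against the semicircle law.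

Proof. `p n (2 cos t) * sin t = sin ((n+1) t)` by induction
(`2 cos t sin ((n+1) t) - sin (n t) = sin ((n+2) t)`), so that
`sc (p n) = (2/π) ∫_0^π sin ((n+1) t) sin t dt = δ_{n0}`
(`2 sin a sin b = cos (a-b) - cos (a+b)`). The `p n` span all polynomials: `p n` is monic of degree
`n`, or: the span is stable under multiplication by `X` (`X p₀ = p₁`, `X pₙ₊₁ = pₙ₊₂ + pₙ`) and
contains `1`. -/
theorem sc_unique (L : Polynomial ℂ →ₗ[ℂ] ℂ) (p : ℕ → Polynomial ℂ) (h0 : p 0 = 1) (h1 : p 1 = X)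
    (h2 : ∀ n, p (n + 2) = X * p (n + 1) - p n) (hL : ∀ n, L (p n) = if n = 0 then 1 else 0) :
    ∀ q : Polynomial ℂ, L q = sc (fun x => q.eval (x : ℂ)) := by
  have hP : ∀ n : ℕ, (∀ t : ℝ, (p n).eval ((2 * Real.cos t : ℝ) : ℂ) * ((Real.sin t : ℝ) : ℂ) =
      ((Real.sin (((n : ℝ) + 1) * t) : ℝ) : ℂ)) ∧
      (∀ t : ℝ, (p (n + 1)).eval ((2 * Real.cos t : ℝ) : ℂ) * ((Real.sin t : ℝ) : ℂ) =
      ((Real.sin ((((n + 1 : ℕ) : ℝ) + 1) * t) : ℝ) : ℂ)) := by
    intro n
    induction n with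
    | zero =>
      refine ⟨fun t => ?_, fun t => ?_⟩
      · rw [h0]
        simp
      · rw [zero_add, h1, eval_X, ← Complex.ofReal_mul]
        congr 1
        rw [show (((1 : ℕ) : ℝ) + 1) * t = 2 * t by push_cast; ring, Real.sin_two_mul]
        ring
    | succ n ih =>
      refine ⟨ih.2, fun t => ?_⟩
      have h3 := ih.1 t
      have h4 := ih.2 t
      rw [h2, eval_sub, eval_mul, eval_X, sub_mul, mul_assoc, h3, h4, ← Complex.ofReal_mul,
        ← Complex.ofReal_sub]
      congr 1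
      rw [show ((n : ℝ) + 1) * t = (((n + 1 : ℕ) : ℝ) + 1) * t - t by push_cast; ring,
        show (((n + 1 + 1 : ℕ) : ℝ) + 1) * t = (((n + 1 : ℕ) : ℝ) + 1) * t + t by push_cast; ring,
        Real.sin_sub, Real.sin_add]
      ring
  have hc : Continuous (fun x : ℝ => (x : ℂ)) := Complex.continuous_ofReal
  refine scpoly_uniq L (scpolyL _ hc) p h0 ?_ ?_
  · intro n
    cases n with
    | zero =>
      rw [h0, mul_one, ← h1]
      exact Submodule.subset_span ⟨1, rfl⟩
    | succ n =>
      have h5 : X * p (n + 1) = p (n + 2) + p n := by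
        rw [h2]
        ring
      rw [h5]
      exact Submodule.add_mem _ (Submodule.subset_span ⟨n + 2, rfl⟩)
        (Submodule.subset_span ⟨n, rfl⟩)
  · intro n
    rw [hL]
    exact (scpoly_delta n (fun x => (p n).eval (x : ℂ)) (hP n).1).symm

/-- The analogous statement for the law of the square of a semicircular element.

Proof. `q₀ = 1`, `q₁ = X - 1`, `qₙ₊₂ = (X - 2) qₙ₊₁ - qₙ` satisfy `qₙ(x²) = p₂ₙ(x)` for the
polynomials of `sc_unique` (`p₂ₙ₊₂... = (x² - 2) p₂ₙ - p₂ₙ₋₂`), so `sc (x ↦ qₙ(x²)) = δ_{n0}`;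
the `qₙ` span all polynomials. -/
theorem sc_unique_sq (L : Polynomial ℂ →ₗ[ℂ] ℂ) (q : ℕ → Polynomial ℂ) (h0 : q 0 = 1)
    (h1 : q 1 = X - 1) (h2 : ∀ n, q (n + 2) = (X - 2) * q (n + 1) - q n)
    (hL : ∀ n, L (q n) = if n = 0 then 1 else 0) :
    ∀ r : Polynomial ℂ, L r = sc (fun x => r.eval ((x : ℂ) ^ 2)) := by
  have hP : ∀ n : ℕ, (∀ t : ℝ, (q n).eval (((2 * Real.cos t : ℝ) : ℂ) ^ 2) *
      ((Real.sin t : ℝ) : ℂ) = ((Real.sin ((((2 * n : ℕ) : ℝ) + 1) * t) : ℝ) : ℂ)) ∧
      (∀ t : ℝ, (q (n + 1)).eval (((2 * Real.cos t : ℝ) : ℂ) ^ 2) * ((Real.sin t : ℝ) : ℂ) =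
      ((Real.sin ((((2 * (n + 1) : ℕ) : ℝ) + 1) * t) : ℝ) : ℂ)) := by
    intro n
    induction n with
    | zero =>
      refine ⟨fun t => ?_, fun t => ?_⟩
      · rw [h0]
        simp
      · rw [zero_add, h1, eval_sub, eval_X, eval_one, ← Complex.ofReal_pow, ← Complex.ofReal_one,
          ← Complex.ofReal_sub, ← Complex.ofReal_mul]
        congr 1
        rw [show (((2 * 1 : ℕ) : ℝ) + 1) * t = 3 * t by push_cast; ring, Real.sin_three_mul]
        have h6 := Real.sin_sq_add_cos_sq t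
        have h7 : Real.cos t ^ 2 = 1 - Real.sin t ^ 2 := by linarith
        rw [mul_pow, h7]
        ring
    | succ n ih =>
      refine ⟨ih.2, fun t => ?_⟩
      have h3 := ih.1 t
      have h4 := ih.2 t
      have e2 : (2 : Polynomial ℂ).eval (((2 * Real.cos t : ℝ) : ℂ) ^ 2) = 2 := by
        simp
      rw [h2, eval_sub, eval_mul, eval_sub, eval_X, e2, sub_mul, mul_assoc, h3, h4,
        ← Complex.ofReal_pow, ← Complex.ofReal_ofNat 2, ← Complex.ofReal_sub,
        ← Complex.ofReal_mul, ← Complex.ofReal_sub]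
      congr 1
      rw [show (((2 * n : ℕ) : ℝ) + 1) * t = (((2 * (n + 1) : ℕ) : ℝ) + 1) * t - 2 * t by
          push_cast; ring,
        show (((2 * (n + 1 + 1) : ℕ) : ℝ) + 1) * t = (((2 * (n + 1) : ℕ) : ℝ) + 1) * t + 2 * t by
          push_cast; ring,
        Real.sin_sub, Real.sin_add, Real.cos_two_mul]
      ring
  have hc : Continuous (fun x : ℝ => (x : ℂ) ^ 2) := by fun_prop
  refine scpoly_uniq L (scpolyL _ hc) q h0 ?_ ?_
  · intro n
    cases n with
    | zero =>
      have h5 : X * q 0 = q 1 + q 0 := by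
        rw [h0, h1]
        ring
      rw [h5]
      exact Submodule.add_mem _ (Submodule.subset_span ⟨1, rfl⟩)
        (Submodule.subset_span ⟨0, rfl⟩)
    | succ n =>
      have h5 : X * q (n + 1) = q (n + 2) + q n + (q (n + 1) + q (n + 1)) := by
        rw [h2]
        ring
      rw [h5]
      have h6 := fun m : ℕ => (Submodule.subset_span ⟨m, rfl⟩ :
        q m ∈ Submodule.span ℂ (Set.range q))
      exact Submodule.add_mem _ (Submodule.add_mem _ (h6 _) (h6 _))
        (Submodule.add_mem _ (h6 _) (h6 _))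
  · intro n
    rw [hL]
    have h8 := scpoly_delta (2 * n) (fun x => (q n).eval ((x : ℂ) ^ 2)) (hP n).1
    have h9 : (2 * n = 0) = (n = 0) := by
      apply propext
      omega
    rw [show (if n = 0 then (1 : ℂ) else 0) = if 2 * n = 0 then 1 else 0 by
      by_cases hn : n = 0
      · rw [if_pos hn, if_pos (by omega)]
      · rw [if_neg hn, if_neg (by omega)]]
    exact h8.symm

/-- Smallness near zero: for every `κ > 0` there is `η > 0` with
`∫ (1 - min 1 (x²/η)) ≤ κ`. Proof: dominated convergence as `η → 0+` (the integrand is between `0`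
and `1` times the density and tends to `0` for every `t` with `cos t ≠ 0`), or directly: the
integrand vanishes unless `|2 cos t| ≤ √η`. -/
theorem sc_gap (κ : ℝ) (hκ : 0 < κ) : ∃ η : ℝ, 0 < η ∧ η ≤ 1 ∧
    (sc (fun x => ((1 - min 1 (x ^ 2 / η) : ℝ) : ℂ))).re ≤ κ := by
  have hre : ∀ η : ℝ, (sc (fun x => ((1 - min 1 (x ^ 2 / η) : ℝ) : ℂ))).re =
      ∫ t in (0:ℝ)..Real.pi, (1 - min 1 ((2 * Real.cos t) ^ 2 / η)) *
        (2 / Real.pi * Real.sin t ^ 2) := by
    intro η
    unfold sc
    simp_rw [← Complex.ofReal_mul]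
    rw [intervalIntegral.integral_ofReal, Complex.ofReal_re]
  have hlim : Filter.Tendsto (fun n : ℕ => ∫ t in (0:ℝ)..Real.pi,
      (1 - min 1 ((2 * Real.cos t) ^ 2 / (1 / ((n : ℝ) + 1)))) *
        (2 / Real.pi * Real.sin t ^ 2)) Filter.atTop (nhds (∫ _t in (0:ℝ)..Real.pi, (0:ℝ))) := by
    refine intervalIntegral.tendsto_integral_filter_of_dominated_convergence
      (fun _ => 2 / Real.pi) ?_ ?_ ?_ ?_
    · refine Filter.Eventually.of_forall fun n => ?_
      have hc : Continuous (fun t : ℝ => (1 - min 1 ((2 * Real.cos t) ^ 2 / (1 / ((n : ℝ) + 1)))) *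
        (2 / Real.pi * Real.sin t ^ 2)) := by fun_prop
      exact hc.aestronglyMeasurable
    · refine Filter.Eventually.of_forall fun n => Filter.Eventually.of_forall fun t _ => ?_
      have h1 : 0 ≤ (2 * Real.cos t) ^ 2 / (1 / ((n : ℝ) + 1)) := by positivity
      have h2 : 0 ≤ 1 - min 1 ((2 * Real.cos t) ^ 2 / (1 / ((n : ℝ) + 1))) := by
        have := min_le_left 1 ((2 * Real.cos t) ^ 2 / (1 / ((n : ℝ) + 1)))
        linarith
      have h3 : 1 - min 1 ((2 * Real.cos t) ^ 2 / (1 / ((n : ℝ) + 1))) ≤ 1 := by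
        have := le_min zero_le_one h1
        linarith
      have h4 : Real.sin t ^ 2 ≤ 1 := Real.sin_sq_le_one t
      have h5 : (0 : ℝ) ≤ 2 / Real.pi := by positivity
      have h6 : 2 / Real.pi * Real.sin t ^ 2 ≤ 2 / Real.pi := by
        have := mul_le_mul_of_nonneg_left h4 h5
        linarith
      have h7 : 0 ≤ 2 / Real.pi * Real.sin t ^ 2 := by positivity
      rw [Real.norm_eq_abs, abs_of_nonneg (mul_nonneg h2 h7)]
      calc _ ≤ 1 * (2 / Real.pi * Real.sin t ^ 2) := mul_le_mul_of_nonneg_right h3 h7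
        _ ≤ _ := by linarith
    · exact intervalIntegrable_const
    · have hne : ∀ᵐ t : ℝ, t ≠ Real.pi / 2 := by
        rw [MeasureTheory.ae_iff]
        simp
      filter_upwards [hne] with t ht htm
      rw [Set.uIoc_of_le Real.pi_pos.le] at htm
      have hcos : Real.cos t ≠ 0 := by
        intro h0
        apply ht
        apply Real.injOn_cos ⟨htm.1.le, htm.2⟩ ⟨by positivity, by linarith [Real.pi_pos]⟩
        rw [h0, Real.cos_pi_div_two]
      have hpos : 0 < (2 * Real.cos t) ^ 2 := by positivity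
      obtain ⟨N, hN⟩ := exists_nat_gt (1 / (2 * Real.cos t) ^ 2)
      refine tendsto_const_nhds.congr' ?_
      filter_upwards [Filter.eventually_ge_atTop N] with n hn
      have hn' : (N : ℝ) ≤ n := Nat.cast_le.2 hn
      have h1 : 1 ≤ (2 * Real.cos t) ^ 2 / (1 / ((n : ℝ) + 1)) := by
        rw [div_div_eq_mul_div, div_one]
        rw [div_lt_iff₀ hpos] at hN
        nlinarith
      rw [min_eq_left h1, sub_self, zero_mul]
  rw [intervalIntegral.integral_zero] at hlim
  obtain ⟨n, hn⟩ := ((tendsto_order.1 hlim).2 κ hκ).exists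
  refine ⟨1 / ((n : ℝ) + 1), by positivity, ?_, ?_⟩
  · rw [div_le_one (by positivity)]
    have := Nat.cast_nonneg (α := ℝ) n
    linarith
  · rw [hre]
    exact hn.le

end H47
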