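import Pool.Agent.H.MP_47f0a1_an.CircT
import Pool.Agent.H.MP_47f0a1_an.ScPoly

/-!
# The distribution of a circular element
-/

open scoped InnerProductSpace

namespace H47

variable {K : Type*} [NormedAddCommGroup K] [InnerProductSpace ℂ K] [CompleteSpace K]
  {Om : K} {T : K →L[ℂ] K}

/-- An isometry is a contraction. -/
theorem circdist_norm_le_one {L : K →L[ℂ] K} (hL : star L * L = 1) : ‖L‖ ≤ 1 := by
  have h1 : ‖star L * L‖ = ‖L‖ * ‖L‖ := CStarRing.norm_star_mul_self
  rw [hL] at h1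
  have h2 : ‖(1 : K →L[ℂ] K)‖ ≤ 1 := ContinuousLinearMap.norm_id_le
  nlinarith [norm_nonneg L]

/-- `‖T‖ ≤ 2`. -/
theorem IsCirc.norm_le (h : IsCirc Om T) : ‖T‖ ≤ 2 := by
  obtain ⟨L, R, rfl, hL, hR, -, -, -⟩ := h
  calc ‖L + star R‖ ≤ ‖L‖ + ‖star R‖ := norm_add_le _ _
    _ ≤ 1 + 1 := by
      rw [norm_star]
      exact add_le_add (circdist_norm_le_one hL) (circdist_norm_le_one hR)
    _ = 2 := by norm_num

/-- The polynomials `q₀ = 1`, `q₁ = X - 1`, `qₙ₊₂ = (X - 2) qₙ₊₁ - qₙ`. -/
noncomputable def circDistQ : ℕ → Polynomial ℂ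
  | 0 => 1
  | 1 => Polynomial.X - 1
  | (n + 2) => (Polynomial.X - 2) * circDistQ (n + 1) - circDistQ n

/-- The linear functional `r ↦ ⟪Ω, r(S) Ω⟫`. -/
noncomputable def circDistFun (Om : K) (S : K →L[ℂ] K) : Polynomial ℂ →ₗ[ℂ] ℂ where
  toFun r := ⟪Om, (Polynomial.aeval S r) Om⟫_ℂ
  map_add' p q := by
    rw [map_add, ContinuousLinearMap.add_apply, inner_add_right]
  map_smul' c p := by
    rw [map_smul, ContinuousLinearMap.smul_apply, inner_smul_right, RingHom.id_apply, smul_eq_mul]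

/-- The Chebyshev-type polynomials produce the powers of `R L`. -/
theorem circdist_q_apply {L R : K →L[ℂ] K} (hL : star L * L = 1) (hR : star R * R = 1)
    (hR0 : (star R) Om = 0) (n : ℕ) :
    (Polynomial.aeval (star (L + star R) * (L + star R)) (circDistQ n)) Om
      = ((R * L) ^ n) Om := by
  have hLv : ∀ v : K, (star L) (L v) = v := fun v => by
    rw [← ContinuousLinearMap.mul_apply, hL, ContinuousLinearMap.one_apply]
  have hRv : ∀ v : K, (star R) (R v) = v := fun v => by
    rw [← ContinuousLinearMap.mul_apply, hR, ContinuousLinearMap.one_apply]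
  have hS : ∀ v : K, (star (L + star R) * (L + star R)) v
      = v + (star L) ((star R) v) + R (L v) + R ((star R) v) := fun v => by
    rw [star_add, star_star, ContinuousLinearMap.mul_apply]
    simp only [ContinuousLinearMap.add_apply, map_add, hLv]
    abel
  induction n using Nat.twoStepInduction with
  | zero =>
    rw [circDistQ, map_one, pow_zero]
  | one =>
    rw [circDistQ, map_sub, map_one, Polynomial.aeval_X, pow_one, ContinuousLinearMap.sub_apply,
      hS, ContinuousLinearMap.one_apply, hR0, map_zero, map_zero, ContinuousLinearMap.mul_apply]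
    abel
  | more n ih1 ih2 =>
    rw [circDistQ, map_sub, map_mul, map_sub, Polynomial.aeval_X, ContinuousLinearMap.sub_apply,
      ContinuousLinearMap.mul_apply, ih2, ih1, ContinuousLinearMap.sub_apply, hS]
    have e2 : (Polynomial.aeval (star (L + star R) * (L + star R)) (2 : Polynomial ℂ))
        (((R * L) ^ (n + 1)) Om) = ((R * L) ^ (n + 1)) Om + ((R * L) ^ (n + 1)) Om := by
      have : (2 : Polynomial ℂ) = 1 + 1 := by norm_num
      rw [this, map_add, map_one, ContinuousLinearMap.add_apply, ContinuousLinearMap.one_apply]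
    have e3 : ((R * L) ^ (n + 1)) Om = R (L (((R * L) ^ n) Om)) := by
      rw [pow_succ', ContinuousLinearMap.mul_apply, ContinuousLinearMap.mul_apply]
    have e4 : ((R * L) ^ (n + 2)) Om = R (L (((R * L) ^ (n + 1)) Om)) := by
      rw [pow_succ' _ (n + 1), ContinuousLinearMap.mul_apply, ContinuousLinearMap.mul_apply]
    have e5 : (star R) (((R * L) ^ (n + 1)) Om) = L (((R * L) ^ n) Om) := by
      rw [e3, hRv]
    have e6 : (star L) ((star R) (((R * L) ^ (n + 1)) Om)) = ((R * L) ^ n) Om := by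
      rw [e5, hLv]
    have e7 : R ((star R) (((R * L) ^ (n + 1)) Om)) = ((R * L) ^ (n + 1)) Om := by
      rw [e5, ← e3]
    rw [e2, e6, e7, e4]
    abel

/-- Polynomial moments of `T* T`.

Proof. `T* T = (L* + R)(L + R*) = 1 + L* R* + R L + R R*`. Put `X = R L`; `X* X = L* R* R L = 1`,
`X* Ω = L* (R* Ω) = 0`, `R R* X = X`, `R R* Ω = 0`. Hence
`T* T Ω = Ω + X Ω`, and for `n ≥ 1`: `T* T Xⁿ Ω = 2 Xⁿ Ω + Xⁿ⁻¹ Ω + Xⁿ⁺¹ Ω`.
So the polynomials `q₀ = 1`, `q₁ = X - 1`, `qₙ₊₂ = (X - 2) qₙ₊₁ - qₙ` satisfy `qₙ(T* T) Ω = Xⁿ Ω`, and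
`⟪Ω, Xⁿ Ω⟫ = δ_{n0}` as `‖Ω‖ = 1` and `X* Ω = 0`. Apply `sc_unique_sq`. -/
theorem IsCirc.moments (h : IsCirc Om T) (hOm : ‖Om‖ = 1) (r : Polynomial ℂ) :
    ⟪Om, (Polynomial.aeval (star T * T) r) Om⟫_ℂ = sc (fun x => r.eval ((x : ℂ) ^ 2)) := by
  obtain ⟨L, R, rfl, hL, hR, -, -, hR0⟩ := h
  refine sc_unique_sq (circDistFun Om (star (L + star R) * (L + star R))) circDistQ rfl rfl
    (fun n => rfl) (fun n => ?_) r
  change ⟪Om, (Polynomial.aeval (star (L + star R) * (L + star R)) (circDistQ n)) Om⟫_ℂ = _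
  rw [circdist_q_apply hL hR hR0]
  rcases n with _ | n
  · rw [pow_zero, ContinuousLinearMap.one_apply, inner_self_eq_norm_sq_to_K, hOm]
    simp
  · rw [pow_succ', ContinuousLinearMap.mul_apply, ContinuousLinearMap.mul_apply, if_neg (by omega),
      ← ContinuousLinearMap.adjoint_inner_left, ← ContinuousLinearMap.star_eq_adjoint, hR0,
      inner_zero_left]

/-- The mass of the semicircle law is one. -/
theorem circdist_mass : ∫ t in (0:ℝ)..Real.pi, (2 / Real.pi * Real.sin t ^ 2) = 1 := by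
  rw [intervalIntegral.integral_const_mul, integral_sin_sq]
  have hpi := Real.pi_ne_zero
  simp only [Real.sin_zero, Real.sin_pi, zero_mul, sub_zero, zero_add]
  field_simp

/-- The semicircle functional is contractive for the supremum norm. -/
theorem circdist_sc_sub {f g : ℝ → ℂ} (hf : Continuous f) (hg : Continuous g) {ε : ℝ}
    (h : ∀ x, |x| ≤ 2 → ‖f x - g x‖ ≤ ε) : ‖sc f - sc g‖ ≤ ε := by
  have hd : Continuous fun t : ℝ => ((2 / Real.pi * Real.sin t ^ 2 : ℝ) : ℂ) := by fun_prop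
  have hcos : Continuous fun t : ℝ => 2 * Real.cos t := by fun_prop
  have i1 : IntervalIntegrable (fun t => f (2 * Real.cos t) *
      ((2 / Real.pi * Real.sin t ^ 2 : ℝ) : ℂ)) MeasureTheory.volume 0 Real.pi :=
    ((hf.comp hcos).mul hd).intervalIntegrable _ _
  have i2 : IntervalIntegrable (fun t => g (2 * Real.cos t) *
      ((2 / Real.pi * Real.sin t ^ 2 : ℝ) : ℂ)) MeasureTheory.volume 0 Real.pi :=
    ((hg.comp hcos).mul hd).intervalIntegrable _ _
  have i3 : IntervalIntegrable (fun t => ε * (2 / Real.pi * Real.sin t ^ 2))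
      MeasureTheory.volume 0 Real.pi := by
    apply Continuous.intervalIntegrable
    fun_prop
  unfold sc
  rw [← intervalIntegral.integral_sub i1 i2]
  refine (intervalIntegral.norm_integral_le_of_norm_le Real.pi_pos.le
    (Filter.Eventually.of_forall fun t _ => ?_) i3).trans ?_
  · rw [← sub_mul, norm_mul]
    have hnn : 0 ≤ 2 / Real.pi * Real.sin t ^ 2 := by
      have := Real.pi_pos
      positivity
    rw [Complex.norm_real, Real.norm_of_nonneg hnn]
    refine mul_le_mul_of_nonneg_right (h _ ?_) hnn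
    rw [abs_mul, abs_of_pos (by norm_num : (0:ℝ) < 2)]
    have := Real.abs_cos_le_one t
    linarith
  · rw [intervalIntegral.integral_const_mul, circdist_mass, mul_one]

/-- Continuous functions of `T* T` (real functional calculus). Proof: Weierstrass approximation on
`[0, 4]`, which contains the spectrum of `T* T` (`norm_le`, `T* T ≥ 0`) and the values `(2 cos t)²`. -/
theorem IsCirc.st_cfc (h : IsCirc Om T) (hOm : ‖Om‖ = 1) (f : ℝ → ℝ) (hf : Continuous f) :
    ⟪Om, (cfc f (star T * T)) Om⟫_ℂ = sc (fun x => ((f (x ^ 2) : ℝ) : ℂ)) := by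
  have hne : Nontrivial (K →L[ℂ] K) := by
    refine ⟨1, 0, fun h0 => ?_⟩
    have h1 : (1 : K →L[ℂ] K) Om = (0 : K →L[ℂ] K) Om := by rw [h0]
    rw [ContinuousLinearMap.one_apply, ContinuousLinearMap.zero_apply] at h1
    rw [h1, norm_zero] at hOm
    exact zero_ne_one hOm
  have hsa : IsSelfAdjoint (star T * T) := IsSelfAdjoint.star_mul_self T
  have hnorm : ‖star T * T‖ ≤ 4 := by
    have h1 : ‖star T * T‖ = ‖T‖ * ‖T‖ := CStarRing.norm_star_mul_self
    have h2 := h.norm_le
    rw [h1]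
    nlinarith [norm_nonneg T]
  have key : ∀ ε : ℝ, 0 < ε →
      ‖⟪Om, (cfc f (star T * T)) Om⟫_ℂ - sc (fun x => ((f (x ^ 2) : ℝ) : ℂ))‖ ≤ ε + ε := by
    intro ε hε
    obtain ⟨p, hp⟩ := exists_polynomial_near_of_continuousOn (-4) 4 f hf.continuousOn ε hε
    have hd : ‖cfc f (star T * T) - Polynomial.aeval (star T * T) p‖ ≤ ε := by
      rw [← cfc_polynomial p (star T * T) hsa, ← cfc_sub f p.eval (star T * T) hf.continuousOn
        (p.continuous.continuousOn)]
      refine norm_cfc_le hε.le fun t ht => ?_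
      have h1 : ‖t‖ ≤ ‖star T * T‖ := spectrum.norm_le_norm_of_mem ht
      have h2 : |t| ≤ 4 := by rw [← Real.norm_eq_abs]; exact h1.trans hnorm
      have h3 := hp t ⟨(abs_le.1 h2).1, (abs_le.1 h2).2⟩
      rw [Real.norm_eq_abs, abs_sub_comm]
      exact h3.le
    have hmap : Polynomial.aeval (star T * T) (p.map (algebraMap ℝ ℂ))
        = Polynomial.aeval (star T * T) p := Polynomial.aeval_map_algebraMap ℂ _ p
    have hmom : ⟪Om, (Polynomial.aeval (star T * T) p) Om⟫_ℂ
        = sc (fun x => ((p.eval (x ^ 2) : ℝ) : ℂ)) := by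
      rw [← hmap, h.moments hOm]
      congr 1
      funext x
      have hx : ((x : ℂ) ^ 2) = algebraMap ℝ ℂ (x ^ 2) := by
        rw [map_pow]; rfl
      rw [hx, Polynomial.eval_map, Polynomial.eval₂_at_apply]
      rfl
    have b1 : ‖⟪Om, (cfc f (star T * T)) Om⟫_ℂ - ⟪Om, (Polynomial.aeval (star T * T) p) Om⟫_ℂ‖
        ≤ ε := by
      rw [← inner_sub_right, ← ContinuousLinearMap.sub_apply]
      calc _ ≤ ‖Om‖ * ‖(cfc f (star T * T) - Polynomial.aeval (star T * T) p) Om‖ :=
            norm_inner_le_norm _ _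
        _ ≤ ‖Om‖ * (‖cfc f (star T * T) - Polynomial.aeval (star T * T) p‖ * ‖Om‖) := by
            gcongr
            exact ContinuousLinearMap.le_opNorm _ _
        _ ≤ ε := by rw [hOm]; linarith
    have b2 : ‖sc (fun x => ((p.eval (x ^ 2) : ℝ) : ℂ)) - sc (fun x => ((f (x ^ 2) : ℝ) : ℂ))‖
        ≤ ε := by
      refine circdist_sc_sub ?_ ?_ fun x hx => ?_
      · exact Complex.continuous_ofReal.comp (p.continuous.comp (continuous_pow 2))
      · exact Complex.continuous_ofReal.comp (hf.comp (continuous_pow 2))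
      · rw [← Complex.ofReal_sub, Complex.norm_real, Real.norm_eq_abs]
        have h4 : x ^ 2 ≤ 4 := by
          have := abs_le.1 hx
          nlinarith [this.1, this.2]
        exact (hp (x ^ 2) ⟨by nlinarith [sq_nonneg x], h4⟩).le
    rw [hmom] at b1
    calc _ ≤ _ := norm_sub_le_norm_sub_add_norm_sub _ (sc (fun x => ((p.eval (x ^ 2) : ℝ) : ℂ))) _
      _ ≤ ε + ε := add_le_add b1 b2
  rw [← sub_eq_zero, ← norm_le_zero_iff]
  refine le_of_forall_pos_le_add fun ε hε => ?_
  have := key (ε / 2) (half_pos hε)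
  linarith

end H47
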