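import Pool.Agent.H.MP_47f0a1_an.CircT

/-!
# The circular intertwiner of a partition
-/

open scoped InnerProductSpace
open MeasureTheory

namespace H47
namespace FModel

variable {Z : Type} [MetricSpace Z] [CompactSpace Z] [MeasurableSpace Z] [BorelSpace Z]
  {μ : Measure Z} [IsProbabilityMeasure μ]
  {K : Type} [NormedAddCommGroup K] [InnerProductSpace ℂ K] [CompleteSpace K]
  (M : FModel C(Z, ℂ) (intL μ) K)

/-- Values of a self-adjoint function. -/
theorem circI_sq (h : C(Z, ℂ)) (hs : star h = h) (x : Z) : ((‖h x‖ ^ 2 : ℝ) : ℂ) = h x * h x := by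
  have h1 : star (h x) = h x := by
    have := congrArg (fun f : C(Z, ℂ) => f x) hs
    simpa using this
  have h2 : ((‖h x‖ ^ 2 : ℝ) : ℂ) = star (h x) * h x := by
    rw [Complex.star_def, Complex.conj_mul', Complex.ofReal_pow]
  rw [h2, h1]

theorem circI_sum_sq {F : Finset C(Z, ℂ)} {ε : ℝ} (P : Part μ F ε) (x : Z) :
    ∑ j, ‖P.h j x‖ ^ 2 = 1 := by
  have h1 : ((∑ j, ‖P.h j x‖ ^ 2 : ℝ) : ℂ) = 1 := by
    rw [Complex.ofReal_sum, Finset.sum_congr rfl fun j _ => circI_sq (P.h j) (P.sa j) x]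
    have h2 := congrArg (fun f : C(Z, ℂ) => f x) P.sum
    simpa using h2
  exact_mod_cast h1

theorem circI_star_ca_Om (j : ℕ) (y : C(Z, ℂ)) : (star (M.ca j)) (M.inc y M.Om) = 0 := by
  have h0 : star (M.ca j) = (starRingEnd ℂ) (((Real.sqrt 2)⁻¹ : ℝ) : ℂ) •
      (star (M.ell (2 * j)) + (starRingEnd ℂ) Complex.I • star (M.ell (2 * j + 1))) := by
    rw [ca, star_smul, star_add, star_smul]
    rfl
  rw [h0]
  simp only [smul_apply, add_apply, M.ell_Om, smul_zero, add_zero]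

theorem circI_star_cb_Om (j : ℕ) (y : C(Z, ℂ)) : (star (M.cb j)) (M.inc y M.Om) = 0 := by
  have h0 : star (M.cb j) = (starRingEnd ℂ) (((Real.sqrt 2)⁻¹ : ℝ) : ℂ) •
      (star (M.ell (2 * j)) - (starRingEnd ℂ) Complex.I • star (M.ell (2 * j + 1))) := by
    rw [cb, star_smul, star_sub, star_smul]
    rfl
  rw [h0]
  simp only [smul_apply, sub_apply, M.ell_Om, smul_zero, sub_zero]

/-- The scalars. -/
theorem circI_coef (m : ℝ) (hm : 0 < m) (g : C(Z, ℂ)) (hg : intL μ (star g * g) = m) :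
    M.st (star ((((Real.sqrt m)⁻¹ : ℝ) : ℂ) • M.inc g) * ((((Real.sqrt m)⁻¹ : ℝ) : ℂ) • M.inc g))
      = 1 := by
  have h1 : star ((((Real.sqrt m)⁻¹ : ℝ) : ℂ) • M.inc g) * ((((Real.sqrt m)⁻¹ : ℝ) : ℂ) • M.inc g) =
      ((((Real.sqrt m)⁻¹ : ℝ) : ℂ) * (((Real.sqrt m)⁻¹ : ℝ) : ℂ)) • M.inc (star g * g) := by
    rw [star_smul, smul_mul_smul_comm, map_mul, map_star, Complex.star_def, Complex.conj_ofReal]
  rw [h1, map_smul, M.st_inc, hg, smul_eq_mul, ← Complex.ofReal_mul, ← Complex.ofReal_mul,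
    ← mul_inv, Real.mul_self_sqrt hm.le, inv_mul_cancel₀ hm.ne', Complex.ofReal_one]

theorem circI_comp_mul (a b : C(Z, ℂ)) (θ : C(Z, Z)) :
    (a * b).comp θ = a.comp θ * b.comp θ := rfl

theorem circI_comp_star (a : C(Z, ℂ)) (θ : C(Z, Z)) : (star a).comp θ = star (a.comp θ) := rfl

theorem circI_comp_sub (a b : C(Z, ℂ)) (θ : C(Z, Z)) :
    (a - b).comp θ = a.comp θ - b.comp θ := rfl

theorem circI_comp_smul (c : ℂ) (a : C(Z, ℂ)) (θ : C(Z, Z)) :
    (c • a).comp θ = c • a.comp θ := rfl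

theorem circI_comp_sum {n : ℕ} (a : Fin n → C(Z, ℂ)) (θ : C(Z, Z)) :
    (∑ j, a j).comp θ = ∑ j, (a j).comp θ := by
  ext x
  simp [ContinuousMap.comp_apply, ContinuousMap.sum_apply]

theorem circI_ca_fam {n : ℕ} (s t : Fin n) (x : K →L[ℂ] K) (hx : x ∈ M.inc.range) :
    star (M.ca s) * x * M.ca t = if s = t then algebraMap ℂ (K →L[ℂ] K) (M.st x) else 0 := by
  obtain ⟨y, rfl⟩ := hx
  have h := M.ca_ca s t y
  simp only [Fin.val_inj] at h
  have h2 : M.st (M.inc y) = intL μ y := M.st_inc y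
  rw [← h2] at h
  exact h

theorem circI_cb_fam {n : ℕ} (s t : Fin n) (x : K →L[ℂ] K) (hx : x ∈ M.inc.range) :
    star (M.cb s) * x * M.cb t = if s = t then algebraMap ℂ (K →L[ℂ] K) (M.st x) else 0 := by
  obtain ⟨y, rfl⟩ := hx
  have h := M.cb_cb s t y
  simp only [Fin.val_inj] at h
  have h2 : M.st (M.inc y) = intL μ y := M.st_inc y
  rw [← h2] at h
  exact h

/-- For a partition the sum `T` is a circular element.

Proof. `L = ∑ m_j^{-1/2} inc (h_j ∘ θ) ca_j inc (h_j)`,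
`R = ∑ m_j^{-1/2} inc (h_j) cb_j inc (h_j ∘ θ)`. By `cre_mul` (with `B` the range of `inc`), or by
direct expansion, `L* L = ∑ m_j⁻¹ τ((h_j ∘ θ)²) inc (h_j²) = ∑ inc (h_j²) = 1`,
`R* R = ∑ m_j⁻¹ τ(h_j²) inc ((h_j ∘ θ)²) = 1`, `R* L = 0` by `cb_ca`;
`L* Ω = ∑ … ca_j* inc (h_j ∘ θ) Ω = 0` by `ell_Om`, and `R* Ω = 0` in the same way. -/
theorem isCirc_cT {F : Finset C(Z, ℂ)} {ε : ℝ} (P : Part μ F ε) (θ : C(Z, Z))
    (hθ : ∀ a, intL μ (a.comp θ) = intL μ a) : IsCirc M.Om (M.cT P.m θ P.h P.h) := by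
  classical
  have hsa : ∀ j, star ((P.h j).comp θ) = (P.h j).comp θ := fun j => by
    rw [← circI_comp_star, P.sa j]
  have hm1 : ∀ j, intL μ (star (P.h j) * P.h j) = P.m j := fun j => by
    rw [P.sa j, P.mass j]
  have hm2 : ∀ j, intL μ (star ((P.h j).comp θ) * (P.h j).comp θ) = P.m j := fun j => by
    rw [hsa j, ← circI_comp_mul, hθ, P.mass j]
  let c : Fin P.n → ℂ := fun j => (((Real.sqrt (P.m j))⁻¹ : ℝ) : ℂ)
  have hc : ∀ j, c j = (((Real.sqrt (P.m j))⁻¹ : ℝ) : ℂ) := fun j => rfl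
  have hcs : ∀ j, star (c j) = c j := fun j => by
    rw [hc, Complex.star_def, Complex.conj_ofReal]
  let L : K →L[ℂ] K := ∑ j : Fin P.n, (c j • M.inc ((P.h j).comp θ)) * M.ca j * M.inc (P.h j)
  let R : K →L[ℂ] K := ∑ j : Fin P.n, (c j • M.inc (P.h j)) * M.cb j * M.inc ((P.h j).comp θ)
  have hL : L = ∑ j : Fin P.n, (c j • M.inc ((P.h j).comp θ)) * M.ca j * M.inc (P.h j) := rfl
  have hR : R = ∑ j : Fin P.n, (c j • M.inc (P.h j)) * M.cb j * M.inc ((P.h j).comp θ) := rfl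
  have hmem : ∀ (d : ℂ) (y : C(Z, ℂ)), d • M.inc y ∈ M.inc.range := fun d y =>
    ⟨d • y, map_smul M.inc d y⟩
  have hLs : star L = ∑ j : Fin P.n, M.inc (P.h j) * star (M.ca j) *
      (c j • M.inc ((P.h j).comp θ)) := by
    rw [hL, star_sum]
    refine Finset.sum_congr rfl fun j _ => ?_
    rw [star_mul, star_mul, star_smul, ← map_star, ← map_star, hsa j, P.sa j, hcs, mul_assoc]
  have hRs : star R = ∑ j : Fin P.n, M.inc ((P.h j).comp θ) * star (M.cb j) *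
      (c j • M.inc (P.h j)) := by
    rw [hR, star_sum]
    refine Finset.sum_congr rfl fun j _ => ?_
    rw [star_mul, star_mul, star_smul, ← map_star, ← map_star, hsa j, P.sa j, hcs, mul_assoc]
  refine ⟨L, R, ?_, ?_, ?_, ?_, ?_, ?_⟩
  · rw [hL, hRs, cT, ← Finset.sum_add_distrib]
    refine Finset.sum_congr rfl fun j _ => ?_
    rw [← hc, mul_add, add_mul, smul_add, smul_mul_assoc, smul_mul_assoc, mul_smul_comm]
  · rw [hL, cre_mul M.inc.range M.st (fun j : Fin P.n => M.ca j) (fun j : Fin P.n => M.ca j)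
      (fun s t x hx => M.circI_ca_fam s t x hx) (fun j => c j • M.inc ((P.h j).comp θ))
      (fun j => M.inc (P.h j)) (fun j => c j • M.inc ((P.h j).comp θ))
      (fun j => M.inc (P.h j)) (fun j => hmem _ _) (fun j => hmem _ _)]
    have h1 : ∀ j : Fin P.n, M.st (star (c j • M.inc ((P.h j).comp θ)) *
        (c j • M.inc ((P.h j).comp θ))) • (star (M.inc (P.h j)) * M.inc (P.h j)) =
        M.inc (P.h j * P.h j) := by
      intro j
      rw [hc, M.circI_coef (P.m j) (P.pos j) _ (hm2 j), one_smul, ← map_star, P.sa j, map_mul]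
    rw [Finset.sum_congr rfl fun j _ => h1 j, ← map_sum, P.sum, map_one]
  · rw [hR, cre_mul M.inc.range M.st (fun j : Fin P.n => M.cb j) (fun j : Fin P.n => M.cb j)
      (fun s t x hx => M.circI_cb_fam s t x hx) (fun j => c j • M.inc (P.h j))
      (fun j => M.inc ((P.h j).comp θ)) (fun j => c j • M.inc (P.h j))
      (fun j => M.inc ((P.h j).comp θ)) (fun j => hmem _ _) (fun j => hmem _ _)]
    have h1 : ∀ j : Fin P.n, M.st (star (c j • M.inc (P.h j)) *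
        (c j • M.inc (P.h j))) • (star (M.inc ((P.h j).comp θ)) * M.inc ((P.h j).comp θ)) =
        M.inc ((P.h j * P.h j).comp θ) := by
      intro j
      rw [hc, M.circI_coef (P.m j) (P.pos j) _ (hm1 j), one_smul, ← map_star, hsa j,
        circI_comp_mul, map_mul]
    rw [Finset.sum_congr rfl fun j _ => h1 j, ← map_sum, ← circI_comp_sum, P.sum]
    have h2 : (1 : C(Z, ℂ)).comp θ = 1 := rfl
    rw [h2, map_one]
  · rw [hL, hR]
    refine cre_mul_zero M.inc.range (fun j : Fin P.n => M.cb j) (fun j : Fin P.n => M.ca j) ?_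
      (fun j => c j • M.inc (P.h j)) (fun j => M.inc ((P.h j).comp θ))
      (fun j => c j • M.inc ((P.h j).comp θ)) (fun j => M.inc (P.h j))
      (fun j => hmem _ _) (fun j => hmem _ _)
    rintro s t x ⟨y, rfl⟩
    exact M.cb_ca s t y
  · rw [hLs, sum_apply]
    refine Finset.sum_eq_zero fun j _ => ?_
    rw [mul_smul_comm, smul_apply, mul_apply_eq_comp, mul_apply_eq_comp, M.circI_star_ca_Om,
      map_zero, smul_zero]
  · rw [hRs, sum_apply]
    refine Finset.sum_eq_zero fun j _ => ?_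
    rw [mul_smul_comm, smul_apply, mul_apply_eq_comp, mul_apply_eq_comp, M.circI_star_cb_Om,
      map_zero, smul_zero]

/-- Membership. -/
theorem cT_mem {n : ℕ} (m : Fin n → ℝ) (θ : C(Z, Z)) (a b : Fin n → C(Z, ℂ)) :
    M.cT m θ a b ∈ M.E {j | j < 2 * n} := by
  rw [cT]
  refine sum_mem fun j _ => ?_
  refine SMulMemClass.smul_mem _ (mul_mem (mul_mem (M.inc_mem _ _) ?_) (M.inc_mem _ _))
  rw [M.ca_add_cb]
  refine SMulMemClass.smul_mem _ (add_mem (M.s_mem _ _ ?_) (SMulMemClass.smul_mem _ (M.s_mem _ _ ?_)))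
  · show 2 * (j : ℕ) < 2 * n
    have := j.isLt
    omega
  · show 2 * (j : ℕ) + 1 < 2 * n
    have := j.isLt
    omega

/-- Existence of circular approximate intertwiners.

Proof. `P : Part μ F (ε/4)`, `T = cT P.m θ P.h P.h`;
`inc (a ∘ θ) T - T inc a = cT (k, h) - cT (h, k)` with `k_j = (a - a (z_j)) h_j`, `|k_j| ≤ (ε/4) |h_j|`
(the constants cancel), and `norm_cT_le` gives `≤ 2 (ε/4) + 2 (ε/4) = ε`. -/
theorem exists_T [μ.IsOpenPosMeasure] (θ : C(Z, Z)) (hθ : ∀ a, intL μ (a.comp θ) = intL μ a)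
    (F : Finset C(Z, ℂ)) (ε : ℝ) (hε : 0 < ε) :
    ∃ (k : ℕ) (T : K →L[ℂ] K), T ∈ M.E {j | j < k} ∧ IsCirc M.Om T ∧
      ∀ a ∈ F, ‖M.inc (a.comp θ) * T - T * M.inc a‖ ≤ ε := by
  classical
  obtain ⟨P⟩ := exists_part μ F (ε / 4) (by positivity)
  refine ⟨2 * P.n, M.cT P.m θ P.h P.h, M.cT_mem _ _ _ _, M.isCirc_cT P θ hθ, ?_⟩
  intro a ha
  let k : Fin P.n → C(Z, ℂ) := fun j => a * P.h j - a (P.z j) • P.h j
  have hk : ∀ j, k j = a * P.h j - a (P.z j) • P.h j := fun j => rfl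
  have hkx : ∀ j x, ‖k j x‖ ≤ ε / 4 * ‖P.h j x‖ := by
    intro j x
    have h1 : k j x = (a x - a (P.z j)) * P.h j x := by
      rw [hk]
      simp only [ContinuousMap.sub_apply, ContinuousMap.mul_apply, ContinuousMap.smul_apply,
        smul_eq_mul]
      ring
    rw [h1]
    exact P.osc a ha j x
  have hkx2 : ∀ j x, ‖k j x‖ ^ 2 ≤ (ε / 4) ^ 2 * ‖P.h j x‖ ^ 2 := by
    intro j x
    have h1 := pow_le_pow_left₀ (norm_nonneg _) (hkx j x) 2
    rwa [mul_pow] at h1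
  have hmh : ∀ j, ∫ x, ‖P.h j x‖ ^ 2 ∂μ = P.m j := by
    intro j
    have h1 := base_intL_star_mul μ (P.h j)
    rw [P.sa j, P.mass j] at h1
    exact_mod_cast h1.symm
  have hint : ∀ g : C(Z, ℂ), Integrable (fun x => ‖g x‖ ^ 2) μ := by
    intro g
    have hcont : Continuous fun x => ‖g x‖ ^ 2 := (g.continuous.norm).pow 2
    exact BoundedContinuousFunction.integrable μ
      (BoundedContinuousFunction.mkOfCompact ⟨fun x => ‖g x‖ ^ 2, hcont⟩)
  have hkm : ∀ j, (intL μ (star (k j) * k j)).re ≤ (ε / 4) ^ 2 * P.m j := by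
    intro j
    rw [base_intL_star_mul, Complex.ofReal_re, ← hmh j, ← integral_const_mul]
    exact integral_mono (hint _) ((hint _).const_mul _) (hkx2 j)
  have hhm : ∀ j, (intL μ (star (P.h j) * P.h j)).re ≤ 1 ^ 2 * P.m j := by
    intro j
    rw [base_intL_star_mul, Complex.ofReal_re, hmh j, one_pow, one_mul]
  have hks : ∀ x, ∑ j, ‖k j x‖ ^ 2 ≤ (ε / 4) ^ 2 := by
    intro x
    calc ∑ j, ‖k j x‖ ^ 2 ≤ ∑ j, (ε / 4) ^ 2 * ‖P.h j x‖ ^ 2 :=
          Finset.sum_le_sum fun j _ => hkx2 j x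
      _ = (ε / 4) ^ 2 := by rw [← Finset.mul_sum, circI_sum_sq P x, mul_one]
  have hhs : ∀ x, ∑ j, ‖P.h j x‖ ^ 2 ≤ 1 ^ 2 := by
    intro x
    rw [circI_sum_sq P x, one_pow]
  have e4 : 0 ≤ ε / 4 := by positivity
  have n1 := M.norm_cT_le P.m P.pos θ hθ k P.h (ε / 4) 1 e4 zero_le_one hkm hhm hks hhs
  have n2 := M.norm_cT_le P.m P.pos θ hθ P.h k 1 (ε / 4) zero_le_one e4 hhm hkm hhs hks
  have key : M.inc (a.comp θ) * M.cT P.m θ P.h P.h - M.cT P.m θ P.h P.h * M.inc a =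
      M.cT P.m θ k P.h - M.cT P.m θ P.h k := by
    rw [cT, cT, cT, Finset.mul_sum, Finset.sum_mul, ← Finset.sum_sub_distrib,
      ← Finset.sum_sub_distrib]
    refine Finset.sum_congr rfl fun j _ => ?_
    have h1 : M.inc ((k j).comp θ) = M.inc (a.comp θ) * M.inc ((P.h j).comp θ) -
        a (P.z j) • M.inc ((P.h j).comp θ) := by
      rw [hk, circI_comp_sub, circI_comp_mul, circI_comp_smul, map_sub, map_mul, map_smul]
    have h2 : M.inc (k j) = M.inc (P.h j) * M.inc a - a (P.z j) • M.inc (P.h j) := by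
      rw [hk, mul_comm a, map_sub, map_mul, map_smul]
    rw [h1, h2, mul_smul_comm, smul_mul_assoc, ← smul_sub, ← smul_sub]
    congr 1
    rw [sub_mul, sub_mul, mul_sub, smul_mul_assoc, smul_mul_assoc, mul_smul_comm]
    simp only [mul_assoc]
    abel
  rw [key]
  calc ‖M.cT P.m θ k P.h - M.cT P.m θ P.h k‖ ≤ ‖M.cT P.m θ k P.h‖ + ‖M.cT P.m θ P.h k‖ :=
        norm_sub_le _ _
    _ ≤ 2 * (ε / 4 * 1) + 2 * (1 * (ε / 4)) := add_le_add n1 n2
    _ = ε := by ring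

end FModel
end H47
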