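import Pool.Agent.H.MP_47f0a1_an.CircT

/-!
# Vanishing powers
-/

open scoped InnerProductSpace

namespace H47

variable {K : Type*} [NormedAddCommGroup K] [InnerProductSpace ℂ K] [CompleteSpace K]
  {Om : K} {T : K →L[ℂ] K}

/-- The words in `T, T*` shift the charge.

`chV L R Ω m` is the span of the vectors `w Ω`, `w` a product of `L`s (charge `+1`) and `R`s (charge
`-1`) with total charge `m`. -/
inductive ChWord (L R : K →L[ℂ] K) (Om : K) : ℤ → K → Prop
  | base : ChWord L R Om 0 Om
  | left (m : ℤ) (ξ : K) (h : ChWord L R Om m ξ) : ChWord L R Om (m + 1) (L ξ)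
  | right (m : ℤ) (ξ : K) (h : ChWord L R Om m ξ) : ChWord L R Om (m - 1) (R ξ)

/-- Operators that map a set into a closed subspace map its closed span there. -/
theorem circPow_map (X : K →L[ℂ] K) (s : Set K) (W : Submodule ℂ K)
    (hW : IsClosed (W : Set K)) (h : ∀ ξ ∈ s, X ξ ∈ W) (ξ : K)
    (hξ : ξ ∈ (Submodule.span ℂ s).topologicalClosure) : X ξ ∈ W := by
  have h1 : (Submodule.span ℂ s).topologicalClosure ≤ W.comap (X : K →ₗ[ℂ] K) := by
    refine Submodule.topologicalClosure_minimal _ ?_ ?_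
    · rw [Submodule.span_le]
      intro ζ hζ
      exact h ζ hζ
    · exact hW.preimage X.continuous
  exact h1 hξ

/-- The star algebra of the operators which preserve all members of a family of subspaces,
together with their adjoints. -/
def circPow_SA (V : ℤ → Submodule ℂ K) : StarSubalgebra ℂ (K →L[ℂ] K) where
  carrier := {X | ∀ m, ∀ ξ ∈ V m, X ξ ∈ V m ∧ (star X) ξ ∈ V m}
  mul_mem' := by
    intro X Y hX hY m ξ hξ
    refine ⟨?_, ?_⟩
    · rw [ContinuousLinearMap.mul_apply]
      exact (hX m _ (hY m ξ hξ).1).1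
    · rw [star_mul, ContinuousLinearMap.mul_apply]
      exact (hY m _ (hX m ξ hξ).2).2
  add_mem' := by
    intro X Y hX hY m ξ hξ
    refine ⟨?_, ?_⟩
    · rw [ContinuousLinearMap.add_apply]
      exact (V m).add_mem (hX m ξ hξ).1 (hY m ξ hξ).1
    · rw [star_add, ContinuousLinearMap.add_apply]
      exact (V m).add_mem (hX m ξ hξ).2 (hY m ξ hξ).2
  algebraMap_mem' := by
    intro r m ξ hξ
    refine ⟨?_, ?_⟩
    · rw [Algebra.algebraMap_eq_smul_one, ContinuousLinearMap.smul_apply,
        ContinuousLinearMap.one_apply]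
      exact (V m).smul_mem _ hξ
    · rw [← algebraMap_star_comm, Algebra.algebraMap_eq_smul_one,
        ContinuousLinearMap.smul_apply, ContinuousLinearMap.one_apply]
      exact (V m).smul_mem _ hξ
  star_mem' := by
    intro X hX m ξ hξ
    refine ⟨(hX m ξ hξ).2, ?_⟩
    rw [star_star]
    exact (hX m ξ hξ).1

theorem circPow_closed (V : ℤ → Submodule ℂ K) (hV : ∀ m, IsClosed (V m : Set K)) :
    IsClosed (circPow_SA V : Set (K →L[ℂ] K)) := by
  have h1 : (circPow_SA V : Set (K →L[ℂ] K)) =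
      ⋂ m, ⋂ ξ ∈ V m, ({X : K →L[ℂ] K | X ξ ∈ V m} ∩ {X : K →L[ℂ] K | (star X) ξ ∈ V m}) := by
    ext X
    simp only [Set.mem_iInter, Set.mem_inter_iff, Set.mem_setOf_eq]
    exact Iff.rfl
  rw [h1]
  refine isClosed_iInter fun m => isClosed_iInter fun ξ => isClosed_iInter fun _ => ?_
  refine IsClosed.inter ?_ ?_
  · exact (hV m).preimage (ContinuousLinearMap.apply ℂ K ξ).continuous
  · exact (hV m).preimage ((ContinuousLinearMap.apply ℂ K ξ).continuous.comp continuous_star)

/-- Vanishing of the powers of `U = T f(T* T)`.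

Proof. Let `V m` be the closure of the span of the vectors `ξ` with `ChWord L R Ω m ξ`.
`T V m ⊆ V (m+1)`: `L ξ` has charge `m+1`; `R* ξ` is `0` for `ξ = Ω` and `ξ = L ξ'`
(`R* L = 0`), and is `ξ'` of charge `m + 1` for `ξ = R ξ'`. In the same way `T* V m ⊆ V (m-1)`:
`T* = L* + R`, `R ξ` has charge `m - 1`, `L* ξ` is `0` for `ξ = Ω`, `ξ = R ξ'` (`L* R = (R* L)* = 0`)
and `ξ'` of charge `m - 1` for `ξ = L ξ'`. So `T* T`, its real polynomials, and their norm limit
`cfc f (star T * T)` map `V m` to itself, `U` maps `V m` to `V (m+1)`, and `Uⁿ Ω ∈ V n`. For `m ≠ 0`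
the space `V m` is orthogonal to `Ω`: every word of nonzero charge is `L ξ` or `R ξ`, and
`⟪Ω, L ξ⟫ = ⟪L* Ω, ξ⟫ = 0`. -/
theorem IsCirc.pow_zero (h : IsCirc Om T) (f : ℝ → ℝ) (hf : Continuous f) (n : ℕ) (hn : 1 ≤ n) :
    ⟪Om, ((T * cfc f (star T * T)) ^ n) Om⟫_ℂ = 0 := by
  obtain ⟨L, R, hT, hLL, hRR, hRL, hLO, hRO⟩ := h
  have hLR : star L * R = 0 := by
    have := congrArg star hRL
    simpa using this
  have hRR' : ∀ ξ, (star R) (R ξ) = ξ := fun ξ => by
    rw [← ContinuousLinearMap.mul_apply, hRR, ContinuousLinearMap.one_apply]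
  have hLL' : ∀ ξ, (star L) (L ξ) = ξ := fun ξ => by
    rw [← ContinuousLinearMap.mul_apply, hLL, ContinuousLinearMap.one_apply]
  have hRL' : ∀ ξ, (star R) (L ξ) = 0 := fun ξ => by
    rw [← ContinuousLinearMap.mul_apply, hRL, ContinuousLinearMap.zero_apply]
  have hLR' : ∀ ξ, (star L) (R ξ) = 0 := fun ξ => by
    rw [← ContinuousLinearMap.mul_apply, hLR, ContinuousLinearMap.zero_apply]
  have hsT : star T = star L + R := by
    rw [hT, star_add, star_star]
  let V : ℤ → Submodule ℂ K := fun m =>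
    (Submodule.span ℂ {ξ | ChWord L R Om m ξ}).topologicalClosure
  have hVc : ∀ m, IsClosed (V m : Set K) := fun m =>
    Submodule.isClosed_topologicalClosure _
  have hmem : ∀ m ξ, ChWord L R Om m ξ → ξ ∈ V m := fun m ξ hξ =>
    Submodule.le_topologicalClosure _ (Submodule.subset_span hξ)
  have hT1 : ∀ m ξ, ChWord L R Om m ξ → T ξ ∈ V (m + 1) := by
    intro m ξ hξ
    have h1 : L ξ ∈ V (m + 1) := hmem _ _ (ChWord.left m ξ hξ)
    have h2 : (star R) ξ ∈ V (m + 1) := by
      cases hξ with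
      | base => rw [hRO]; exact (V _).zero_mem
      | left m' ξ' h' => rw [hRL']; exact (V _).zero_mem
      | right m' ξ' h' =>
        rw [hRR']
        have := hmem _ _ h'
        rwa [sub_add_cancel]
    rw [hT, ContinuousLinearMap.add_apply]
    exact (V _).add_mem h1 h2
  have hT2 : ∀ m ξ, ChWord L R Om m ξ → (star T) ξ ∈ V (m - 1) := by
    intro m ξ hξ
    have h1 : R ξ ∈ V (m - 1) := hmem _ _ (ChWord.right m ξ hξ)
    have h2 : (star L) ξ ∈ V (m - 1) := by
      cases hξ with
      | base => rw [hLO]; exact (V _).zero_mem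
      | left m' ξ' h' =>
        rw [hLL']
        have := hmem _ _ h'
        rwa [add_sub_cancel_right]
      | right m' ξ' h' => rw [hLR']; exact (V _).zero_mem
    rw [hsT, ContinuousLinearMap.add_apply]
    exact (V _).add_mem h2 h1
  have hTV : ∀ m, ∀ ξ ∈ V m, T ξ ∈ V (m + 1) := fun m ξ hξ =>
    circPow_map T _ _ (hVc _) (hT1 m) ξ hξ
  have hTV' : ∀ m, ∀ ξ ∈ V m, (star T) ξ ∈ V (m - 1) := fun m ξ hξ =>
    circPow_map (star T) _ _ (hVc _) (hT2 m) ξ hξ
  have hA : star T * T ∈ circPow_SA V := by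
    intro m ξ hξ
    have h1 : (star T * T) ξ ∈ V m := by
      rw [ContinuousLinearMap.mul_apply]
      have := hTV' _ _ (hTV m ξ hξ)
      rwa [add_sub_cancel_right] at this
    refine ⟨h1, ?_⟩
    rw [star_mul, star_star]
    exact h1
  have hC : cfc f (star T * T) ∈ circPow_SA V := by
    haveI : IsClosed ((circPow_SA V : StarSubalgebra ℂ (K →L[ℂ] K)) : Set (K →L[ℂ] K)) :=
      circPow_closed V hVc
    exact cfc_mem (𝕜 := ℝ) (𝕜' := ℂ) f hA
  have hU : ∀ k : ℕ, ((T * cfc f (star T * T)) ^ k) Om ∈ V (k : ℤ) := by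
    intro k
    induction k with
    | zero =>
      rw [_root_.pow_zero, ContinuousLinearMap.one_apply]
      exact hmem _ _ (by simpa using ChWord.base (L := L) (R := R) (Om := Om))
    | succ k ih =>
      rw [pow_succ', ContinuousLinearMap.mul_apply, ContinuousLinearMap.mul_apply]
      have h1 := (hC (k : ℤ) _ ih).1
      have h2 := hTV _ _ h1
      rw [Nat.cast_succ]
      exact h2
  have hort : ∀ m : ℤ, m ≠ 0 → ∀ ξ ∈ V m, ⟪Om, ξ⟫_ℂ = 0 := by
    intro m hm
    have h1 : V m ≤ (ℂ ∙ Om)ᗮ := by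
      refine Submodule.topologicalClosure_minimal _ ?_ (Submodule.isClosed_orthogonal _)
      rw [Submodule.span_le]
      intro ξ hξ
      rw [SetLike.mem_coe, Submodule.mem_orthogonal_singleton_iff_inner_right]
      have hξ' : ChWord L R Om m ξ := hξ
      cases hξ' with
      | base => exact absurd rfl hm
      | left m' ξ' h' =>
        rw [← ContinuousLinearMap.adjoint_inner_left, ← ContinuousLinearMap.star_eq_adjoint, hLO,
          inner_zero_left]
      | right m' ξ' h' =>
        rw [← ContinuousLinearMap.adjoint_inner_left, ← ContinuousLinearMap.star_eq_adjoint, hRO,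
          inner_zero_left]
    intro ξ hξ
    exact (Submodule.mem_orthogonal_singleton_iff_inner_right).mp (h1 hξ)
  exact hort n (by exact_mod_cast (by omega : n ≠ 0)) _ (hU n)

end H47
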