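import Pool.Agent.H.MP_47f0a1_an.IncSum
import Pool.Agent.H.MP_47f0a1_an.NormL

/-!
# The circular intertwiner
-/

open scoped InnerProductSpace
open MeasureTheory

namespace H47

/-- The relations of `T = L + R*` that make it a circular element in the vacuum state. -/
def IsCirc {K : Type*} [NormedAddCommGroup K] [InnerProductSpace ℂ K] [CompleteSpace K]
    (Om : K) (T : K →L[ℂ] K) : Prop :=
  ∃ L R : K →L[ℂ] K, T = L + star R ∧ star L * L = 1 ∧ star R * R = 1 ∧ star R * L = 0 ∧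
    (star L) Om = 0 ∧ (star R) Om = 0

namespace FModel

variable {Z : Type} [MetricSpace Z] [CompactSpace Z] [MeasurableSpace Z] [BorelSpace Z]
  {μ : Measure Z} [IsProbabilityMeasure μ]
  {K : Type} [NormedAddCommGroup K] [InnerProductSpace ℂ K] [CompleteSpace K]
  (M : FModel C(Z, ℂ) (intL μ) K)

/-- `a_j = (ℓ_{2j} + i ℓ_{2j+1})/√2`. -/
noncomputable def ca (j : ℕ) : K →L[ℂ] K :=
  (((Real.sqrt 2)⁻¹ : ℝ) : ℂ) • (M.ell (2 * j) + Complex.I • M.ell (2 * j + 1))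

/-- `b_j = (ℓ_{2j} - i ℓ_{2j+1})/√2`. -/
noncomputable def cb (j : ℕ) : K →L[ℂ] K :=
  (((Real.sqrt 2)⁻¹ : ℝ) : ℂ) • (M.ell (2 * j) - Complex.I • M.ell (2 * j + 1))

/-- The common computation behind `ca_ca`, `cb_cb` and `cb_ca`. -/
theorem circT_aux (c ε η : ℂ) (i j : ℕ) (x : C(Z, ℂ)) :
    star (c • (M.ell (2 * i) + ε • M.ell (2 * i + 1))) * M.inc x *
      (c • (M.ell (2 * j) + η • M.ell (2 * j + 1))) =
    if i = j then algebraMap ℂ (K →L[ℂ] K) (star c * c * (1 + star ε * η) * intL μ x) else 0 := by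
  have h1 : star (M.ell (2 * i)) * M.inc x * M.ell (2 * j + 1) = 0 := by
    rw [M.ell_inc_ell, if_neg (by omega)]
  have h2 : star (M.ell (2 * i + 1)) * M.inc x * M.ell (2 * j) = 0 := by
    rw [M.ell_inc_ell, if_neg (by omega)]
  rw [star_smul, star_add, star_smul]
  simp only [smul_mul_assoc, mul_smul_comm, add_mul, mul_add, smul_add, h1, h2, smul_zero,
    add_zero, zero_add]
  rw [M.ell_inc_ell, M.ell_inc_ell]
  by_cases h : i = j
  · subst h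
    rw [if_pos rfl, if_pos rfl, if_pos rfl]
    simp only [Algebra.algebraMap_eq_smul_one, smul_smul, ← add_smul]
    congr 1
    ring
  · rw [if_neg (by omega), if_neg (by omega), if_neg h]
    simp only [smul_zero, add_zero]

theorem circT_sq : star (((Real.sqrt 2)⁻¹ : ℝ) : ℂ) * (((Real.sqrt 2)⁻¹ : ℝ) : ℂ) = 1 / 2 := by
  rw [RCLike.star_def, Complex.conj_ofReal, ← Complex.ofReal_mul, ← mul_inv,
    Real.mul_self_sqrt (by norm_num)]
  norm_num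

/-- `a_i* x a_j = δ τ(x)` for `x ∈ inc`. From `ell_inc_ell`:
`½ (τ + (-i)(i) τ) = τ`. -/
theorem ca_ca (i j : ℕ) (x : C(Z, ℂ)) : star (M.ca i) * M.inc x * M.ca j =
    if i = j then algebraMap ℂ (K →L[ℂ] K) (intL μ x) else 0 := by
  have h := M.circT_aux (((Real.sqrt 2)⁻¹ : ℝ) : ℂ) Complex.I Complex.I i j x
  rw [circT_sq] at h
  have h2 : (1 / 2 : ℂ) * (1 + star Complex.I * Complex.I) * intL μ x = intL μ x := by
    rw [RCLike.star_def, Complex.conj_I, neg_mul, Complex.I_mul_I]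
    ring
  rw [h2] at h
  exact h

theorem cb_cb (i j : ℕ) (x : C(Z, ℂ)) : star (M.cb i) * M.inc x * M.cb j =
    if i = j then algebraMap ℂ (K →L[ℂ] K) (intL μ x) else 0 := by
  have h := M.circT_aux (((Real.sqrt 2)⁻¹ : ℝ) : ℂ) (-Complex.I) (-Complex.I) i j x
  rw [circT_sq] at h
  have h2 : (1 / 2 : ℂ) * (1 + star (-Complex.I) * (-Complex.I)) * intL μ x = intL μ x := by
    rw [star_neg, RCLike.star_def, Complex.conj_I, neg_neg, mul_neg, Complex.I_mul_I]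
    ring
  rw [h2] at h
  simp only [neg_smul, ← sub_eq_add_neg] at h
  exact h

/-- `b_i* x a_j = 0`: `½ (τ + (i)(i) τ) = 0`, since `b* = (ℓ* + i ℓ'*)/√2`. -/
theorem cb_ca (i j : ℕ) (x : C(Z, ℂ)) : star (M.cb i) * M.inc x * M.ca j = 0 := by
  have h := M.circT_aux (((Real.sqrt 2)⁻¹ : ℝ) : ℂ) (-Complex.I) Complex.I i j x
  have h2 : (1 + star (-Complex.I) * Complex.I) = 0 := by
    rw [star_neg, RCLike.star_def, Complex.conj_I, neg_neg, Complex.I_mul_I]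
    ring
  rw [h2, mul_zero, zero_mul, map_zero, ite_self] at h
  simp only [neg_smul, ← sub_eq_add_neg] at h
  exact h

/-- `a_j + b_j* = (s_{2j} + i s_{2j+1})/√2`. -/
theorem ca_add_cb (j : ℕ) : M.ca j + star (M.cb j) =
    (((Real.sqrt 2)⁻¹ : ℝ) : ℂ) • (M.s (2 * j) + Complex.I • M.s (2 * j + 1)) := by
  rw [ca, cb, star_smul, star_sub, star_smul, RCLike.star_def, Complex.conj_ofReal,
    Complex.conj_I, neg_smul, sub_neg_eq_add]
  simp only [s, smul_add]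
  abel

/-- The general sum `∑ m_j^{-1/2} (a_j ∘ θ) c_j b_j` with `c_j = ca j + star (cb j)`. -/
noncomputable def cT {n : ℕ} (m : Fin n → ℝ) (θ : C(Z, Z)) (a b : Fin n → C(Z, ℂ)) :
    K →L[ℂ] K :=
  ∑ j, (((Real.sqrt (m j))⁻¹ : ℝ) : ℂ) •
    (M.inc ((a j).comp θ) * (M.ca j + star (M.cb j)) * M.inc (b j))

/-- Norm bound: `≤ 2 Ca Cb` when `∫ |a j|² ≤ Ca² m j`, `∑ |b j|² ≤ Cb²` and
`∑ |a j|² ≤ Ca²`, `∫ |b j|² ≤ Cb² m j`.

Proof. Split `cT = L + star R`, `L = ∑ m_j^{-1/2} inc (a_j ∘ θ) ca_j inc (b_j)`,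
`R = ∑ m_j^{-1/2} inc (star b_j) cb_j inc (star a_j ∘ θ)`. By `cre_norm_le` with `B` the range of
`inc` as a star subalgebra (for `x = inc y`, `⟪Ω, x Ω⟫ = ∫ y`): the first has
`‖α_j Ω‖² = m_j⁻¹ ∫ |a_j ∘ θ|² ≤ Ca²` (`hθ`) and `∑ ‖inc (b_j) ξ‖² ≤ Cb² ‖ξ‖²` (`sum_inc_le`);
the second has `‖α_j Ω‖² = m_j⁻¹ ∫ |b_j|² ≤ Cb²` and `∑ ‖inc (star a_j ∘ θ) ξ‖² ≤ Ca² ‖ξ‖²`. -/
theorem norm_cT_le {n : ℕ} (m : Fin n → ℝ) (hm : ∀ j, 0 < m j) (θ : C(Z, Z))
    (hθ : ∀ a, intL μ (a.comp θ) = intL μ a) (a b : Fin n → C(Z, ℂ)) (Ca Cb : ℝ)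
    (hCa : 0 ≤ Ca) (hCb : 0 ≤ Cb)
    (ha : ∀ j, (intL μ (star (a j) * a j)).re ≤ Ca ^ 2 * m j)
    (hb : ∀ j, (intL μ (star (b j) * b j)).re ≤ Cb ^ 2 * m j)
    (ha' : ∀ x, ∑ j, ‖a j x‖ ^ 2 ≤ Ca ^ 2) (hb' : ∀ x, ∑ j, ‖b j x‖ ^ 2 ≤ Cb ^ 2) :
    ‖M.cT m θ a b‖ ≤ 2 * (Ca * Cb) := by
  have hsq : ∀ j, ‖(((Real.sqrt (m j))⁻¹ : ℝ) : ℂ)‖ ^ 2 = (m j)⁻¹ := by
    intro j
    rw [Complex.norm_real, Real.norm_eq_abs, sq_abs, inv_pow, Real.sq_sqrt (hm j).le]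
  have hst : ∀ j, star (((Real.sqrt (m j))⁻¹ : ℝ) : ℂ) = (((Real.sqrt (m j))⁻¹ : ℝ) : ℂ) := by
    intro j
    rw [RCLike.star_def, Complex.conj_ofReal]
  -- compression hypotheses
  have hca : ∀ s t : Fin n, ∀ x ∈ M.inc.range, star (M.ca s) * x * M.ca t =
      if s = t then algebraMap ℂ (K →L[ℂ] K) ⟪M.Om, x M.Om⟫_ℂ else 0 := by
    rintro s t x ⟨y, rfl⟩
    have h := M.ca_ca s t y
    simp only [Fin.val_inj] at h
    refine h.trans ?_
    rw [← M.inc_Om y]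
    rfl
  have hcb : ∀ s t : Fin n, ∀ x ∈ M.inc.range, star (M.cb s) * x * M.cb t =
      if s = t then algebraMap ℂ (K →L[ℂ] K) ⟪M.Om, x M.Om⟫_ℂ else 0 := by
    rintro s t x ⟨y, rfl⟩
    have h := M.cb_cb s t y
    simp only [Fin.val_inj] at h
    refine h.trans ?_
    rw [← M.inc_Om y]
    rfl
  have hmem : ∀ (c : ℂ) (y : C(Z, ℂ)), c • M.inc y ∈ M.inc.range := fun c y =>
    ⟨c • y, map_smul M.inc c y⟩
  have hnorm : ∀ (j : Fin n) (y : C(Z, ℂ)),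
      ‖((((Real.sqrt (m j))⁻¹ : ℝ) : ℂ) • M.inc y) M.Om‖ ^ 2 =
        (m j)⁻¹ * (intL μ (star y * y)).re := by
    intro j y
    have h : ((((Real.sqrt (m j))⁻¹ : ℝ) : ℂ) • M.inc y) M.Om =
        (((Real.sqrt (m j))⁻¹ : ℝ) : ℂ) • (M.inc y M.Om) := rfl
    rw [h, norm_smul, mul_pow, hsq, M.norm_inc_Om_sq]
  -- the first sum
  have h1 := (cre_norm_le M.inc.range M.Om (fun j : Fin n => M.ca j) hca
    (fun j => (((Real.sqrt (m j))⁻¹ : ℝ) : ℂ) • M.inc ((a j).comp θ))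
    (fun j => M.inc (b j)) (fun j => hmem _ _) (Ca * Cb) (mul_nonneg hCa hCb) (by
      intro ξ
      have e1 : ∀ j ∈ Finset.univ, ‖((((Real.sqrt (m j))⁻¹ : ℝ) : ℂ) •
          M.inc ((a j).comp θ)) M.Om‖ ^ 2 * ‖M.inc (b j) ξ‖ ^ 2 ≤
          Ca ^ 2 * ‖M.inc (b j) ξ‖ ^ 2 := by
        intro j _
        refine mul_le_mul_of_nonneg_right ?_ (sq_nonneg _)
        rw [hnorm]
        have e2 : star ((a j).comp θ) * (a j).comp θ = (star (a j) * a j).comp θ := rfl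
        rw [e2, hθ, inv_mul_le_iff₀ (hm j), mul_comm (m j)]
        exact ha j
      refine (Finset.sum_le_sum e1).trans ?_
      rw [← Finset.mul_sum, mul_pow, mul_assoc]
      exact mul_le_mul_of_nonneg_left (M.sum_inc_le b Cb hb' ξ) (sq_nonneg _))).1
  -- the second sum
  have h2 := (cre_norm_le M.inc.range M.Om (fun j : Fin n => M.cb j) hcb
    (fun j => (((Real.sqrt (m j))⁻¹ : ℝ) : ℂ) • M.inc (star (b j)))
    (fun j => M.inc (star ((a j).comp θ))) (fun j => hmem _ _) (Ca * Cb)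
    (mul_nonneg hCa hCb) (by
      intro ξ
      have e1 : ∀ j ∈ Finset.univ, ‖((((Real.sqrt (m j))⁻¹ : ℝ) : ℂ) •
          M.inc (star (b j))) M.Om‖ ^ 2 * ‖M.inc (star ((a j).comp θ)) ξ‖ ^ 2 ≤
          Cb ^ 2 * ‖M.inc (star ((a j).comp θ)) ξ‖ ^ 2 := by
        intro j _
        refine mul_le_mul_of_nonneg_right ?_ (sq_nonneg _)
        rw [hnorm, star_star, mul_comm (b j), inv_mul_le_iff₀ (hm j), mul_comm (m j)]
        exact hb j
      refine (Finset.sum_le_sum e1).trans ?_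
      rw [← Finset.mul_sum, mul_comm Ca Cb, mul_pow, mul_assoc]
      refine mul_le_mul_of_nonneg_left (M.sum_inc_le (fun j => star ((a j).comp θ)) Ca ?_ ξ)
        (sq_nonneg _)
      intro x
      have e3 : ∀ j, ‖(star ((a j).comp θ)) x‖ = ‖a j (θ x)‖ := fun j => by
        rw [ContinuousMap.star_apply, norm_star, ContinuousMap.comp_apply]
      simp only [e3]
      exact ha' (θ x))).2
  have h3 : M.cT m θ a b =
      (∑ j : Fin n, ((((Real.sqrt (m j))⁻¹ : ℝ) : ℂ) • M.inc ((a j).comp θ)) * M.ca j *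
        M.inc (b j)) +
      ∑ j : Fin n, star (M.inc (star ((a j).comp θ))) * star (M.cb j) *
        star ((((Real.sqrt (m j))⁻¹ : ℝ) : ℂ) • M.inc (star (b j))) := by
    rw [cT, ← Finset.sum_add_distrib]
    refine Finset.sum_congr rfl fun j _ => ?_
    rw [star_smul, hst, ← map_star, ← map_star, star_star, star_star]
    simp only [smul_mul_assoc, mul_smul_comm, mul_add, add_mul, smul_add]
  rw [h3]
  refine (norm_add_le _ _).trans ?_
  rw [two_mul]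
  exact add_le_add h1 h2

end FModel
end H47
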