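import Pool.Agent.H.MP_47f0a1_an.Defs

/-!
# Functional calculus: membership, approximate commutation, polar decomposition
-/

namespace H47

/-- The continuous functional calculus stays in closed star subalgebras (`1` is in every star
subalgebra). Proof: the values lie in `StarAlgebra.elemental ℂ h` or its real analogue
(`cfc_mem_elemental`-like lemmas), which is contained in every closed star subalgebra that contains
`h` (`StarAlgebra.elemental.le_of_mem`); or: approximate `f` by real polynomials on the compact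
spectrum. -/
theorem cfc_mem_of_isClosed {A : Type*} [CStarAlgebra A] (S : StarSubalgebra ℂ A)
    (hS : IsClosed (S : Set A)) (h : A) (hh : h ∈ S) (hsa : IsSelfAdjoint h) (f : ℝ → ℝ)
    (hf : Continuous f) : cfc f h ∈ S := by
  haveI : IsClosed (S : Set A) := hS
  exact cfc_mem (𝕜 := ℝ) (𝕜' := ℂ) (p := IsSelfAdjoint) f hh

theorem util_pow_mul {A : Type} [CStarAlgebra A] (h y : A) (R : ℝ) (hh : ‖h‖ ≤ R) (k : ℕ) :
    ‖h ^ k * y‖ ≤ R ^ k * ‖y‖ := by
  have hR : 0 ≤ R := (norm_nonneg _).trans hh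
  induction k with
  | zero => simp
  | succ k ih =>
    calc ‖h ^ (k + 1) * y‖ = ‖h * (h ^ k * y)‖ := by rw [pow_succ', mul_assoc]
      _ ≤ ‖h‖ * ‖h ^ k * y‖ := norm_mul_le _ _
      _ ≤ R * (R ^ k * ‖y‖) := by gcongr
      _ = R ^ (k + 1) * ‖y‖ := by ring

theorem util_pow (R : ℝ) (k : ℕ) : ∃ L : ℝ, 0 ≤ L ∧ ∀ (A : Type) [CStarAlgebra A] (x h : A),
    ‖h‖ ≤ R → ‖x * h ^ k - h ^ k * x‖ ≤ L * ‖x * h - h * x‖ := by
  by_cases hR : 0 ≤ R
  swap
  · refine ⟨0, le_rfl, fun A _ x h hh => ?_⟩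
    exact absurd ((norm_nonneg _).trans hh) hR
  induction k with
  | zero => exact ⟨0, le_rfl, fun A _ x h hh => by simp⟩
  | succ k ih =>
    obtain ⟨L, hL, H⟩ := ih
    refine ⟨L * R + R ^ k, by positivity, fun A _ x h hh => ?_⟩
    have e : x * h ^ (k + 1) - h ^ (k + 1) * x
        = (x * h ^ k - h ^ k * x) * h + h ^ k * (x * h - h * x) := by
      rw [pow_succ]; noncomm_ring
    rw [e]
    calc ‖(x * h ^ k - h ^ k * x) * h + h ^ k * (x * h - h * x)‖
        ≤ ‖(x * h ^ k - h ^ k * x) * h‖ + ‖h ^ k * (x * h - h * x)‖ := norm_add_le _ _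
      _ ≤ ‖x * h ^ k - h ^ k * x‖ * ‖h‖ + R ^ k * ‖x * h - h * x‖ :=
          add_le_add (norm_mul_le _ _) (util_pow_mul _ _ _ hh _)
      _ ≤ (L * ‖x * h - h * x‖) * R + R ^ k * ‖x * h - h * x‖ := by
          gcongr
          exact H A x h hh
      _ = (L * R + R ^ k) * ‖x * h - h * x‖ := by ring

theorem util_poly (R : ℝ) (p : Polynomial ℝ) : ∃ L : ℝ, 0 ≤ L ∧
    ∀ (A : Type) [CStarAlgebra A] (x h : A), ‖h‖ ≤ R →
      ‖x * Polynomial.aeval h p - Polynomial.aeval h p * x‖ ≤ L * ‖x * h - h * x‖ := by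
  induction p using Polynomial.induction_on' with
  | add p q hp hq =>
    obtain ⟨L, hL, H⟩ := hp
    obtain ⟨M, hM, K⟩ := hq
    refine ⟨L + M, by positivity, fun A _ x h hh => ?_⟩
    have e : x * Polynomial.aeval h (p + q) - Polynomial.aeval h (p + q) * x
        = (x * Polynomial.aeval h p - Polynomial.aeval h p * x)
          + (x * Polynomial.aeval h q - Polynomial.aeval h q * x) := by
      rw [map_add]; noncomm_ring
    rw [e, add_mul]
    exact (norm_add_le _ _).trans (add_le_add (H A x h hh) (K A x h hh))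
  | monomial k c =>
    obtain ⟨L, hL, H⟩ := util_pow R k
    refine ⟨|c| * L, by positivity, fun A _ x h hh => ?_⟩
    have e : x * Polynomial.aeval h (Polynomial.monomial k c)
        - Polynomial.aeval h (Polynomial.monomial k c) * x
        = c • (x * h ^ k - h ^ k * x) := by
      rw [Polynomial.aeval_monomial, ← Algebra.smul_def, mul_smul_comm, smul_mul_assoc, smul_sub]
    rw [e, norm_smul, Real.norm_eq_abs, mul_assoc]
    exact mul_le_mul_of_nonneg_left (H A x h hh) (abs_nonneg _)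

/-- Approximate commutation passes to continuous functions, uniformly.

Proof. Choose a real polynomial `p` with `|f - p| ≤ ε/(2 (|C| + 1) + 1)`-small on `[-r, r]`
(Weierstrass); then `‖cfc f h - p(h)‖` is small because the spectrum of `h` is in `[-r, r]`; and
`‖x p(h) - p(h) x‖ ≤ L ‖x h - h x‖` with `L = ∑ |p_k| k |r|^{k-1}`, by
`x h^k - h^k x = ∑ h^i (x h - h x) h^{k-1-i}`. -/
theorem comm_cfc (f : ℝ → ℝ) (hf : Continuous f) (r C ε : ℝ) (hε : 0 < ε) :
    ∃ η : ℝ, 0 < η ∧ ∀ (A : Type) [CStarAlgebra A] (x h : A), IsSelfAdjoint h → ‖h‖ ≤ r →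
      ‖x‖ ≤ C → ‖x * h - h * x‖ ≤ η → ‖x * cfc f h - cfc f h * x‖ ≤ ε := by
  have hC : 0 < |C| + 1 := by positivity
  obtain ⟨p, hp⟩ := exists_polynomial_near_of_continuousOn (-r) r f hf.continuousOn
    (ε / (4 * (|C| + 1))) (by positivity)
  obtain ⟨L, hL, HL⟩ := util_poly r p
  refine ⟨ε / (2 * (L + 1)), by positivity, fun A _ x h hsa hh hx hη => ?_⟩
  rcases subsingleton_or_nontrivial A with hA | hA
  · rw [Subsingleton.elim (x * cfc f h - cfc f h * x) 0, norm_zero]
    exact hε.le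
  have hd : ‖cfc f h - Polynomial.aeval h p‖ ≤ ε / (4 * (|C| + 1)) := by
    rw [← cfc_polynomial p h hsa, ← cfc_sub f p.eval h hf.continuousOn
      (p.continuous.continuousOn)]
    refine norm_cfc_le (by positivity) fun t ht => ?_
    have h1 : ‖t‖ ≤ ‖h‖ := spectrum.norm_le_norm_of_mem ht
    have h2 : |t| ≤ r := by rw [← Real.norm_eq_abs]; exact h1.trans hh
    have h3 := hp t ⟨(abs_le.1 h2).1, (abs_le.1 h2).2⟩
    rw [Real.norm_eq_abs, abs_sub_comm]
    exact h3.le
  have e : x * cfc f h - cfc f h * x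
      = x * (cfc f h - Polynomial.aeval h p)
        + (x * Polynomial.aeval h p - Polynomial.aeval h p * x)
        - (cfc f h - Polynomial.aeval h p) * x := by
    noncomm_ring
  have hxC : ‖x‖ ≤ |C| + 1 := hx.trans ((le_abs_self C).trans (by linarith))
  have b1 : ‖x * (cfc f h - Polynomial.aeval h p)‖ ≤ ε / 4 := by
    calc ‖x * (cfc f h - Polynomial.aeval h p)‖
        ≤ ‖x‖ * ‖cfc f h - Polynomial.aeval h p‖ := norm_mul_le _ _
      _ ≤ (|C| + 1) * (ε / (4 * (|C| + 1))) := by gcongr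
      _ = ε / 4 := by field_simp
  have b2 : ‖(cfc f h - Polynomial.aeval h p) * x‖ ≤ ε / 4 := by
    calc ‖(cfc f h - Polynomial.aeval h p) * x‖
        ≤ ‖cfc f h - Polynomial.aeval h p‖ * ‖x‖ := norm_mul_le _ _
      _ ≤ (ε / (4 * (|C| + 1))) * (|C| + 1) := by gcongr
      _ = ε / 4 := by field_simp
  have b3 : ‖x * Polynomial.aeval h p - Polynomial.aeval h p * x‖ ≤ ε / 2 := by
    calc ‖x * Polynomial.aeval h p - Polynomial.aeval h p * x‖
        ≤ L * ‖x * h - h * x‖ := HL A x h hh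
      _ ≤ (L + 1) * (ε / (2 * (L + 1))) := by
          gcongr
          linarith
      _ = ε / 2 := by field_simp
  rw [e]
  calc _ ≤ ‖x * (cfc f h - Polynomial.aeval h p)
        + (x * Polynomial.aeval h p - Polynomial.aeval h p * x)‖
        + ‖(cfc f h - Polynomial.aeval h p) * x‖ := norm_sub_le _ _
    _ ≤ (‖x * (cfc f h - Polynomial.aeval h p)‖
        + ‖x * Polynomial.aeval h p - Polynomial.aeval h p * x‖)
        + ‖(cfc f h - Polynomial.aeval h p) * x‖ := by
          gcongr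
          exact norm_add_le _ _
    _ ≤ ε := by linarith

end H47
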