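import Pool.Agent.H.MP_47f0a1_an.CircDist
import Pool.Agent.H.MP_47f0a1_an.CircPow
import Pool.Agent.H.MP_47f0a1_an.CircI
import Pool.Agent.H.MP_47f0a1_an.Util

/-!
# Almost unitary approximate intertwiners with vanishing powers
-/

open scoped InnerProductSpace
open MeasureTheory

namespace H47

/-- The cut-off inverse square root `t ↦ 1/√(max t η)`. -/
noncomputable def gam (η : ℝ) (t : ℝ) : ℝ := (Real.sqrt (max t η))⁻¹

theorem gam_continuous (η : ℝ) (hη : 0 < η) : Continuous (gam η) := by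
  have h : ∀ t : ℝ, Real.sqrt (max t η) ≠ 0 := fun t =>
    (Real.sqrt_pos.2 (lt_max_of_lt_right hη)).ne'
  exact ((Real.continuous_sqrt.comp (continuous_id.max continuous_const))).inv₀ h

theorem circU_gam_le (η : ℝ) (hη : 0 < η) (t : ℝ) : ‖gam η t‖ ≤ (Real.sqrt η)⁻¹ := by
  have h0 : 0 < Real.sqrt η := Real.sqrt_pos.2 hη
  have h1 : Real.sqrt η ≤ Real.sqrt (max t η) := Real.sqrt_le_sqrt (le_max_right _ _)
  have h2 : 0 ≤ gam η t := inv_nonneg.2 (Real.sqrt_nonneg _)
  rw [Real.norm_of_nonneg h2]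
  exact inv_anti₀ h0 h1

theorem circU_gam_sq (η : ℝ) (hη : 0 < η) (t : ℝ) :
    gam η t * (t * gam η t) = min 1 (t / η) := by
  have hm : 0 < max t η := lt_max_of_lt_right hη
  have h1 : gam η t * gam η t = (max t η)⁻¹ := by
    rw [gam, ← mul_inv, Real.mul_self_sqrt hm.le]
  have h2 : gam η t * (t * gam η t) = t * (max t η)⁻¹ := by
    rw [← h1]; ring
  rw [h2]
  rcases le_total t η with h | h
  · rw [max_eq_right h, ← div_eq_mul_inv, min_eq_right ((div_le_one hη).2 h)]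
  · rw [max_eq_left h, mul_inv_cancel₀ (lt_of_lt_of_le hη h).ne',
      min_eq_left ((one_le_div hη).2 h)]

/-- `U = T γ(T* T)` has `U* U = cfc (t ↦ min 1 (t/η)) (T* T)`.
Proof: `t γ(t)² = min 1 (t/η)` on `[0, ∞)`, which contains the spectrum of `T* T`. -/
theorem star_U_mul_U {A : Type*} [CStarAlgebra A] (T : A) (η : ℝ) (hη : 0 < η) :
    star (T * cfc (gam η) (star T * T)) * (T * cfc (gam η) (star T * T)) =
      cfc (fun t => min 1 (t / η)) (star T * T) := by
  have hsa : IsSelfAdjoint (star T * T) := IsSelfAdjoint.star_mul_self T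
  have hg : IsSelfAdjoint (cfc (gam η) (star T * T)) := cfc_predicate _ _
  have hc := gam_continuous η hη
  have e1 : star (T * cfc (gam η) (star T * T)) * (T * cfc (gam η) (star T * T)) =
      cfc (gam η) (star T * T) * (star T * T * cfc (gam η) (star T * T)) := by
    rw [star_mul, hg.star_eq]
    simp only [mul_assoc]
  have e2 : star T * T * cfc (gam η) (star T * T) =
      cfc (fun t : ℝ => t * gam η t) (star T * T) := by
    rw [cfc_mul (fun t : ℝ => t) (gam η) (star T * T) continuous_id.continuousOn hc.continuousOn,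
      cfc_id' ℝ (star T * T) hsa]
  rw [e1, e2, ← cfc_mul (gam η) (fun t : ℝ => t * gam η t) (star T * T) hc.continuousOn
    (continuous_id.mul hc).continuousOn]
  exact cfc_congr fun t _ => circU_gam_sq η hη t

theorem norm_U_le {A : Type*} [CStarAlgebra A] (T : A) (η : ℝ) (hη : 0 < η) :
    ‖T * cfc (gam η) (star T * T)‖ ≤ 1 := by
  have h1 : ‖T * cfc (gam η) (star T * T)‖ * ‖T * cfc (gam η) (star T * T)‖ ≤ 1 := by
    rw [← CStarRing.norm_star_mul_self, star_U_mul_U T η hη]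
    refine norm_cfc_le zero_le_one fun t ht => ?_
    have ht0 : 0 ≤ t := spectrum_star_mul_self_nonneg t ht
    have h0 : 0 ≤ min 1 (t / η) := le_min zero_le_one (div_nonneg ht0 hη.le)
    rw [Real.norm_of_nonneg h0]
    exact min_le_left _ _
  nlinarith [norm_nonneg (T * cfc (gam η) (star T * T))]

namespace FModel

variable {Z : Type} [MetricSpace Z] [CompactSpace Z] [MeasurableSpace Z] [BorelSpace Z]
  {μ : Measure Z} [IsProbabilityMeasure μ]
  {K : Type} [NormedAddCommGroup K] [InnerProductSpace ℂ K] [CompleteSpace K]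
  (M : FModel C(Z, ℂ) (intL μ) K)

/-- Almost unitary approximate intertwiners.

Proof. Given `κ` choose `η` from `sc_gap`. Enlarge `F` to a finite set `F'` closed under `star`.
By `comm_cfc` for `gam η`, `r = 4` and `C` a bound of `‖inc a‖`, `a ∈ F'`, there is `η'` such that
`‖[inc a, T* T]‖ ≤ η'` implies `‖[inc a, γ(T* T)]‖ ≤ ε/4`. Take `T` from `exists_T` for `F'` with a small
error `ε₁ ≤ ε √η/2` and `4 ε₁ ≤ η'`. Then for `a ∈ F'`:
`‖[inc a, T* T]‖ ≤ ‖inc a T* - T* inc (a ∘ θ)‖ ‖T‖ + ‖T*‖ ‖inc (a ∘ θ) T - T inc a‖ ≤ 4 ε₁`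
(the first norm is that of the adjoint, for `star a ∈ F'`).
`U = T γ(T* T)`: `‖inc (a∘θ) U - U inc a‖ ≤ ‖inc (a∘θ) T - T inc a‖ ‖γ‖ + ‖T‖ ‖[inc a, γ(T* T)]‖
≤ ε₁ η^{-1/2} + 2 ε/4 ≤ ε`. `st (1 - U* U) = sc (1 - min 1 (x²/η)) ≤ κ` by `IsCirc.st_cfc`;
`st (Uⁿ) = 0` by `IsCirc.pow_zero`; `U ∈ E` by `cfc_mem_of_isClosed`. -/
theorem exists_U [μ.IsOpenPosMeasure] (θ : C(Z, Z)) (hθ : ∀ a, intL μ (a.comp θ) = intL μ a)
    (F : Finset C(Z, ℂ)) (ε κ : ℝ) (hε : 0 < ε) (hκ : 0 < κ) :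
    ∃ (k : ℕ) (U : K →L[ℂ] K), U ∈ M.E {j | j < k} ∧ ‖U‖ ≤ 1 ∧
      (∀ a ∈ F, ‖M.inc (a.comp θ) * U - U * M.inc a‖ ≤ ε) ∧
      (M.st (1 - star U * U)).re ≤ κ ∧ ∀ n : ℕ, 1 ≤ n → M.st (U ^ n) = 0 := by
  classical
  obtain ⟨η, hη, hη1, hgap⟩ := sc_gap κ hκ
  obtain ⟨F', hFF', hF'⟩ : ∃ F' : Finset C(Z, ℂ), F ⊆ F' ∧ ∀ a ∈ F', star a ∈ F' := by
    refine ⟨F ∪ F.image star, Finset.subset_union_left, fun a ha => ?_⟩
    rcases Finset.mem_union.1 ha with ha | ha
    · exact Finset.mem_union_right _ (Finset.mem_image_of_mem _ ha)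
    · obtain ⟨b, hb, rfl⟩ := Finset.mem_image.1 ha
      rw [star_star]
      exact Finset.mem_union_left _ hb
  obtain ⟨C, hC⟩ : ∃ C : ℝ, ∀ a ∈ F', ‖M.inc a‖ ≤ C :=
    ⟨∑ a ∈ F', ‖M.inc a‖, fun a ha =>
      Finset.single_le_sum (f := fun a => ‖M.inc a‖) (fun _ _ => norm_nonneg _) ha⟩
  obtain ⟨η', hη', H⟩ := comm_cfc (gam η) (gam_continuous η hη) 4 C (ε / 4) (by linarith)
  have hsη : 0 < Real.sqrt η := Real.sqrt_pos.2 hη
  obtain ⟨ε₁, hε₁, hε₁a, hε₁b⟩ : ∃ ε₁ : ℝ, 0 < ε₁ ∧ ε₁ ≤ ε / 2 * Real.sqrt η ∧ 4 * ε₁ ≤ η' := by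
    refine ⟨min (ε / 2 * Real.sqrt η) (η' / 4), lt_min (by positivity) (by positivity),
      min_le_left _ _, ?_⟩
    have := min_le_right (ε / 2 * Real.sqrt η) (η' / 4)
    linarith
  obtain ⟨k, T, hT, hcirc, hTc⟩ := M.exists_T θ hθ F' ε₁ hε₁
  have hT2 : ‖T‖ ≤ 2 := hcirc.norm_le
  have hsT2 : ‖star T‖ ≤ 2 := by rw [norm_star]; exact hT2
  have hsa : IsSelfAdjoint (star T * T) := IsSelfAdjoint.star_mul_self T
  have hh4 : ‖star T * T‖ ≤ 4 := by
    calc ‖star T * T‖ ≤ ‖star T‖ * ‖T‖ := norm_mul_le _ _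
      _ ≤ 2 * 2 := mul_le_mul hsT2 hT2 (norm_nonneg _) (by norm_num)
      _ = 4 := by norm_num
  have hcomm : ∀ a ∈ F', ‖M.inc a * (star T * T) - star T * T * M.inc a‖ ≤ 4 * ε₁ := by
    intro a ha
    have h1 := hTc a ha
    have h2 := hTc (star a) (hF' a ha)
    have e0 : (star a).comp θ = star (a.comp θ) := rfl
    have e : star (M.inc ((star a).comp θ) * T - T * M.inc (star a)) =
        star T * M.inc (a.comp θ) - M.inc a * star T := by
      rw [e0, star_sub, star_mul, star_mul, map_star, map_star, star_star, star_star]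
    have h3 : ‖star T * M.inc (a.comp θ) - M.inc a * star T‖ ≤ ε₁ := by
      rw [← e, norm_star]
      exact h2
    have e2 : M.inc a * (star T * T) - star T * T * M.inc a =
        star T * (M.inc (a.comp θ) * T - T * M.inc a) -
          (star T * M.inc (a.comp θ) - M.inc a * star T) * T := by
      rw [mul_sub, sub_mul]
      simp only [mul_assoc]
      abel
    rw [e2]
    calc ‖star T * (M.inc (a.comp θ) * T - T * M.inc a) -
          (star T * M.inc (a.comp θ) - M.inc a * star T) * T‖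
        ≤ ‖star T * (M.inc (a.comp θ) * T - T * M.inc a)‖ +
          ‖(star T * M.inc (a.comp θ) - M.inc a * star T) * T‖ := norm_sub_le _ _
      _ ≤ ‖star T‖ * ‖M.inc (a.comp θ) * T - T * M.inc a‖ +
          ‖star T * M.inc (a.comp θ) - M.inc a * star T‖ * ‖T‖ :=
        add_le_add (norm_mul_le _ _) (norm_mul_le _ _)
      _ ≤ 2 * ε₁ + ε₁ * 2 :=
        add_le_add (mul_le_mul hsT2 h1 (norm_nonneg _) (by norm_num))
          (mul_le_mul h3 hT2 (norm_nonneg _) hε₁.le)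
      _ = 4 * ε₁ := by ring
  have hgn : ‖cfc (gam η) (star T * T)‖ ≤ (Real.sqrt η)⁻¹ :=
    norm_cfc_le (inv_nonneg.2 hsη.le) fun t _ => circU_gam_le η hη t
  refine ⟨k, T * cfc (gam η) (star T * T), ?_, norm_U_le T η hη, ?_, ?_, ?_⟩
  · exact mul_mem hT (cfc_mem_of_isClosed (M.E _) (M.isClosed_E _) (star T * T)
      (mul_mem (star_mem hT) hT) hsa _ (gam_continuous η hη))
  · intro a ha
    have ha' : a ∈ F' := hFF' ha
    have h1 := hTc a ha'
    have h2 := H (K →L[ℂ] K) (M.inc a) (star T * T) hsa hh4 (hC a ha')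
      ((hcomm a ha').trans hε₁b)
    have e3 : M.inc (a.comp θ) * (T * cfc (gam η) (star T * T)) -
        T * cfc (gam η) (star T * T) * M.inc a =
        (M.inc (a.comp θ) * T - T * M.inc a) * cfc (gam η) (star T * T) +
          T * (M.inc a * cfc (gam η) (star T * T) - cfc (gam η) (star T * T) * M.inc a) := by
      rw [mul_sub, sub_mul]
      simp only [mul_assoc]
      abel
    rw [e3]
    calc ‖(M.inc (a.comp θ) * T - T * M.inc a) * cfc (gam η) (star T * T) +
          T * (M.inc a * cfc (gam η) (star T * T) - cfc (gam η) (star T * T) * M.inc a)‖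
        ≤ ‖(M.inc (a.comp θ) * T - T * M.inc a) * cfc (gam η) (star T * T)‖ +
          ‖T * (M.inc a * cfc (gam η) (star T * T) - cfc (gam η) (star T * T) * M.inc a)‖ :=
        norm_add_le _ _
      _ ≤ ‖M.inc (a.comp θ) * T - T * M.inc a‖ * ‖cfc (gam η) (star T * T)‖ +
          ‖T‖ * ‖M.inc a * cfc (gam η) (star T * T) - cfc (gam η) (star T * T) * M.inc a‖ :=
        add_le_add (norm_mul_le _ _) (norm_mul_le _ _)
      _ ≤ (ε / 2 * Real.sqrt η) * (Real.sqrt η)⁻¹ + 2 * (ε / 4) :=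
        add_le_add (mul_le_mul (h1.trans hε₁a) hgn (norm_nonneg _) (by positivity))
          (mul_le_mul hT2 h2 (norm_nonneg _) (by norm_num))
      _ = ε := by
        rw [mul_assoc, mul_inv_cancel₀ hsη.ne']
        ring
  · have hc1 : Continuous fun t : ℝ => min 1 (t / η) :=
      continuous_const.min (continuous_id.div_const η)
    have hc2 : Continuous fun t : ℝ => 1 - min 1 (t / η) := continuous_const.sub hc1
    have e : (1 : K →L[ℂ] K) - star (T * cfc (gam η) (star T * T)) *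
        (T * cfc (gam η) (star T * T)) = cfc (fun t : ℝ => 1 - min 1 (t / η)) (star T * T) := by
      rw [star_U_mul_U T η hη, cfc_sub (fun _ : ℝ => (1 : ℝ)) (fun t : ℝ => min 1 (t / η))
        (star T * T) continuous_const.continuousOn hc1.continuousOn,
        cfc_const_one ℝ (star T * T) hsa]
    rw [e, M.st_apply, hcirc.st_cfc M.norm_Om _ hc2]
    exact hgap
  · intro n hn
    rw [M.st_apply]
    exact hcirc.pow_zero (gam η) (gam_continuous η hη) n hn

end FModel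
end H47
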