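import Pool.Agent.H.MP_47f0a1_an.LogE

/-!
# A unitary close to an almost unitary element with vanishing powers
-/

open scoped InnerProductSpace

namespace H47

namespace FModel

variable {A : Type*} [Ring A] [StarRing A] [Algebra ℂ A] [StarModule ℂ A]
  {τ : A →ₗ[ℂ] ℂ} {K : Type} [NormedAddCommGroup K] [InnerProductSpace ℂ K]
  [CompleteSpace K] (M : FModel A τ K)

theorem logc_l1_nonneg (p : LaurentPolynomial ℂ) : 0 ≤ l1 p :=
  Finset.sum_nonneg fun _ _ => norm_nonneg _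

/-- Powers: `‖(Λ(p)^n - Λ(p^n)) Ω‖ ≤ C √κ` with a constant `C` depending only on `p, n`. Proof: induction,
`Λ(p)^{n+1} - Λ(p^{n+1}) = Λ(p) (Λ(p)^n - Λ(p^n)) + (Λ(p) Λ(p^n) - Λ(p p^n))` and `Lam_mul`. -/
theorem Lam_pow (hτ : ∀ a b, τ (a * b) = τ (b * a)) (p : LaurentPolynomial ℂ) (n : ℕ) :
    ∃ C : ℝ, 0 ≤ C ∧ ∀ U ∈ M.E Set.univ, ‖U‖ ≤ 1 → ∀ κ : ℝ, (M.st (1 - star U * U)).re ≤ κ →
      ‖(Lam U p ^ n - Lam U (p ^ n)) M.Om‖ ≤ C * Real.sqrt κ := by
  induction n with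
  | zero =>
    refine ⟨0, le_rfl, fun U _ _ κ _ => ?_⟩
    have h1 : Lam U (p ^ 0) = 1 := by
      rw [pow_zero, AddMonoidAlgebra.one_def, logb_Lam_single, one_smul]
      exact pow_zero U
    rw [h1, pow_zero, sub_self, zero_mul]
    simp
  | succ n ih =>
    obtain ⟨C, hC0, hC⟩ := ih
    refine ⟨l1 p * C + (Finsupp.sum p.coeff (fun (k : ℤ) (c : ℂ) => |(k : ℝ)| * ‖c‖) *
      l1 (p ^ n)), ?_, ?_⟩
    · have h1 : 0 ≤ l1 p := logc_l1_nonneg p
      have h2 : 0 ≤ l1 (p ^ n) := logc_l1_nonneg _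
      have h3 : 0 ≤ Finsupp.sum p.coeff (fun (k : ℤ) (c : ℂ) => |(k : ℝ)| * ‖c‖) :=
        Finset.sum_nonneg fun k _ => by positivity
      positivity
    · intro U hU hU1 κ hκ
      have e : (Lam U p ^ (n + 1) - Lam U (p ^ (n + 1))) M.Om =
          (Lam U p) ((Lam U p ^ n - Lam U (p ^ n)) M.Om) +
            (Lam U p * Lam U (p ^ n) - Lam U (p * p ^ n)) M.Om := by
        have e1 : Lam U p ^ (n + 1) - Lam U (p ^ (n + 1)) =
            Lam U p * (Lam U p ^ n - Lam U (p ^ n)) +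
              (Lam U p * Lam U (p ^ n) - Lam U (p * p ^ n)) := by
          rw [pow_succ' (Lam U p) n, pow_succ' p n, mul_sub]
          abel
        rw [e1]
        rfl
      have h1 : ‖(Lam U p) ((Lam U p ^ n - Lam U (p ^ n)) M.Om)‖ ≤
          l1 p * (C * Real.sqrt κ) := by
        refine ((Lam U p).le_opNorm _).trans ?_
        exact mul_le_mul (norm_Lam_le U hU1 p) (hC U hU hU1 κ hκ) (norm_nonneg _)
          (logc_l1_nonneg p)
      have h2 := M.Lam_mul hτ U hU hU1 κ hκ p (p ^ n)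
      rw [e]
      refine (norm_add_le _ _).trans ((add_le_add h1 h2).trans (le_of_eq ?_))
      ring

theorem logc_Lam_sub (U : K →L[ℂ] K) (p q : LaurentPolynomial ℂ) :
    Lam U (p - q) = Lam U p - Lam U q := by
  have h : ∀ x, Lam U x = logb_L U x := fun _ => rfl
  rw [h, h, h, map_sub]

theorem logc_Lam_T (U : K →L[ℂ] K) : Lam U (LaurentPolynomial.T 1) = U := by
  rw [LaurentPolynomial.T, logb_Lam_single, one_smul]
  exact pow_one U

theorem logc_Lam_tay (U : K →L[ℂ] K) (p : LaurentPolynomial ℂ) (N : ℕ) :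
    Lam U (tay p N) = ∑ n ∈ Finset.range (N + 1),
      ((Complex.I ^ n / (n.factorial : ℂ)) • Lam U (p ^ n)) := by
  have h : ∀ x, Lam U x = logb_L U x := fun _ => rfl
  rw [h, tay, map_sum]
  refine Finset.sum_congr rfl fun n _ => ?_
  rw [map_smul, ← h]

/-- **The logarithm.** For every `δ` there are a real Laurent polynomial `p` and `κ > 0` such that
`exp(i Λ_U(p))` is `δ`-close to `U` in the two-norm for every contraction `U` with
`st (1 - U* U) ≤ κ` and `st (Uⁿ) = 0` for `n ≥ 1`.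

Proof. Take `p, N` from `exists_tay` with a small `δ'`. Then
`‖exp(iΛ(p)) - ∑_{n ≤ N} (iΛ(p))^n/n!‖ ≤ δ'` (`exp_tail`, `norm_Lam_le`),
`‖(∑_{n ≤ N} (iΛ(p))^n/n! - Λ(tay p N)) Ω‖ ≤ C √κ` (`Lam_pow`, linearity of `Λ`), and
`Λ(tay p N) - U = Λ(tay p N - T)` (`Λ(T 1) = U`), whose norm on `Ω` is at most
`√(δ' + C' √κ)` by `Lam_norm_sq`. -/
theorem exists_log (hτ : ∀ a b, τ (a * b) = τ (b * a)) (δ : ℝ) (hδ : 0 < δ) :
    ∃ (p : LaurentPolynomial ℂ) (κ : ℝ), 0 < κ ∧ (∀ k : ℤ, p.coeff (-k) = (starRingEnd ℂ) (p.coeff k)) ∧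
      ∀ U ∈ M.E Set.univ, ‖U‖ ≤ 1 → (M.st (1 - star U * U)).re ≤ κ →
        (∀ n : ℕ, 1 ≤ n → M.st (U ^ n) = 0) → ‖(logU U p - U) M.Om‖ ≤ δ := by
  haveI : Nontrivial K := ⟨M.Om, 0, fun h => by
    have := M.norm_Om
    rw [h, norm_zero] at this
    exact zero_ne_one this⟩
  obtain ⟨p, N, hp, hexp, htay⟩ := exists_tay (min (δ / 4) (δ ^ 2 / 32))
    (lt_min (by positivity) (by positivity))
  choose C hC0 hC using fun n : ℕ => M.Lam_pow hτ p n
  obtain ⟨r, hr⟩ : ∃ r : LaurentPolynomial ℂ, r = tay p N - LaurentPolynomial.T 1 := ⟨_, rfl⟩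
  obtain ⟨C1, hC1⟩ : ∃ C1 : ℝ, C1 = ∑ n ∈ Finset.range (N + 1), C n := ⟨_, rfl⟩
  obtain ⟨C2, hC2⟩ : ∃ C2 : ℝ, C2 =
    Finsupp.sum r.coeff (fun (k : ℤ) (c : ℂ) => |(k : ℝ)| * ‖c‖) * l1 r := ⟨_, rfl⟩
  have hC10 : 0 ≤ C1 := by
    rw [hC1]
    exact Finset.sum_nonneg fun n _ => hC0 n
  have hC20 : 0 ≤ C2 := by
    rw [hC2]
    exact mul_nonneg (Finset.sum_nonneg fun k _ => by positivity) (logc_l1_nonneg r)
  obtain ⟨q, hq⟩ : ∃ q : ℝ, q = min (δ / (4 * (C1 + 1))) (δ ^ 2 / (32 * (C2 + 1))) := ⟨_, rfl⟩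
  have hq0 : 0 < q := by
    rw [hq]
    exact lt_min (by positivity) (by positivity)
  refine ⟨p, q ^ 2, by positivity, hp, ?_⟩
  intro U hU hU1 hκ hpow
  have hsq : Real.sqrt (q ^ 2) = q := Real.sqrt_sq hq0.le
  have hq1 : C1 * q ≤ δ / 4 := by
    have h1 : q ≤ δ / (4 * (C1 + 1)) := by
      rw [hq]
      exact min_le_left _ _
    calc C1 * q ≤ (C1 + 1) * (δ / (4 * (C1 + 1))) := by
          gcongr
          linarith
      _ = δ / 4 := by
          field_simp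
  have hq2 : C2 * q ≤ δ ^ 2 / 32 := by
    have h1 : q ≤ δ ^ 2 / (32 * (C2 + 1)) := by
      rw [hq]
      exact min_le_right _ _
    calc C2 * q ≤ (C2 + 1) * (δ ^ 2 / (32 * (C2 + 1))) := by
          gcongr
          linarith
      _ = δ ^ 2 / 32 := by
          field_simp
  obtain ⟨x, hx⟩ : ∃ x : K →L[ℂ] K, x = Complex.I • Lam U p := ⟨_, rfl⟩
  obtain ⟨S, hS⟩ : ∃ S : K →L[ℂ] K, S =
    ∑ n ∈ Finset.range (N + 1), ((n.factorial : ℂ)⁻¹ • x ^ n) := ⟨_, rfl⟩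
  have hxn : ‖x‖ ≤ l1 p := by
    rw [hx, norm_smul, Complex.norm_I, one_mul]
    exact norm_Lam_le U hU1 p
  have h1 : ‖(NormedSpace.exp x - S) M.Om‖ ≤ δ / 4 := by
    refine (M.norm_apply_Om_le _).trans ?_
    rw [hS]
    exact (exp_tail x (l1 p) hxn N).trans (hexp.trans (min_le_left _ _))
  have h2 : ‖(S - Lam U (tay p N)) M.Om‖ ≤ δ / 4 := by
    have e : S - Lam U (tay p N) = ∑ n ∈ Finset.range (N + 1),
        ((Complex.I ^ n / (n.factorial : ℂ)) • (Lam U p ^ n - Lam U (p ^ n))) := by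
      rw [hS, logc_Lam_tay, ← Finset.sum_sub_distrib]
      refine Finset.sum_congr rfl fun n _ => ?_
      rw [hx, smul_pow, smul_smul, smul_sub, div_eq_inv_mul]
    have e2 : (S - Lam U (tay p N)) M.Om = ∑ n ∈ Finset.range (N + 1),
        ((Complex.I ^ n / (n.factorial : ℂ)) • ((Lam U p ^ n - Lam U (p ^ n)) M.Om)) := by
      rw [e, ContinuousLinearMap.sum_apply]
      rfl
    rw [e2]
    refine (norm_sum_le _ _).trans ?_
    have e3 : ∀ n ∈ Finset.range (N + 1),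
        ‖(Complex.I ^ n / (n.factorial : ℂ)) • ((Lam U p ^ n - Lam U (p ^ n)) M.Om)‖ ≤
          C n * q := by
      intro n _
      rw [norm_smul, norm_div, norm_pow, Complex.norm_I, one_pow, Complex.norm_natCast]
      have h3 := hC n U hU hU1 (q ^ 2) hκ
      rw [hsq] at h3
      have h4 : (1 : ℝ) / (n.factorial : ℝ) ≤ 1 := by
        rw [div_le_one (by positivity)]
        exact_mod_cast Nat.succ_le_of_lt (Nat.factorial_pos n)
      calc 1 / (n.factorial : ℝ) * ‖(Lam U p ^ n - Lam U (p ^ n)) M.Om‖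
          ≤ 1 * ‖(Lam U p ^ n - Lam U (p ^ n)) M.Om‖ :=
            mul_le_mul_of_nonneg_right h4 (norm_nonneg _)
        _ ≤ C n * q := by rw [one_mul]; exact h3
    refine (Finset.sum_le_sum e3).trans ?_
    rw [← Finset.sum_mul, ← hC1]
    exact hq1
  have h3 : ‖(Lam U (tay p N) - U) M.Om‖ ≤ δ / 4 := by
    have e : Lam U (tay p N) - U = Lam U r := by
      rw [hr, logc_Lam_sub, logc_Lam_T]
    have h4 := M.Lam_norm_sq hτ U hU hU1 (q ^ 2) hκ hpow r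
    rw [hsq, ← hC2] at h4
    have h5 : ‖(Lam U r) M.Om‖ ^ 2 ≤ (δ / 4) ^ 2 := by
      have h6 : Finsupp.sum r.coeff (fun (_ : ℤ) (c : ℂ) => ‖c‖ ^ 2) ≤ δ ^ 2 / 32 := by
        rw [hr]
        exact htay.trans (min_le_right _ _)
      calc ‖(Lam U r) M.Om‖ ^ 2 ≤ δ ^ 2 / 32 + δ ^ 2 / 32 := h4.trans (add_le_add h6 hq2)
        _ = (δ / 4) ^ 2 := by ring
    rw [e]
    exact le_of_sq_le_sq h5 (by positivity)
  have e : (logU U p - U) M.Om = (NormedSpace.exp x - S) M.Om +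
      (S - Lam U (tay p N)) M.Om + (Lam U (tay p N) - U) M.Om := by
    have e1 : logU U p - U = (NormedSpace.exp x - S) + (S - Lam U (tay p N)) +
        (Lam U (tay p N) - U) := by
      rw [hx]
      unfold logU
      abel
    rw [e1]
    rfl
  rw [e]
  refine (norm_add₃_le).trans ?_
  linarith

end FModel

end H47
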