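import Pool.Agent.H.MP_47f0a1_an.CircU
import Pool.Agent.H.MP_47f0a1_an.LogC

/-!
# The almost unitary intertwiner together with a nearby unitary
-/

open scoped InnerProductSpace
open MeasureTheory

namespace H47
namespace FModel

variable {Z : Type} [MetricSpace Z] [CompactSpace Z] [MeasurableSpace Z] [BorelSpace Z]
  {μ : Measure Z} [IsProbabilityMeasure μ]
  {K : Type} [NormedAddCommGroup K] [InnerProductSpace ℂ K] [CompleteSpace K]
  (M : FModel C(Z, ℂ) (intL μ) K)

/-- `U` and a unitary `w` close to `U` in the two-norm.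

Proof. `p, κ₁` from `exists_log` for `δ = κ`; `η` from `logU_comm` for `p, ε`; `U` from `exists_U` for
`F ∪ star F` with error `min ε η` and `min κ κ₁`; `w = logU U p`. For `a ∈ F` with `a ∘ θ = a`:
`‖inc a U - U inc a‖ ≤ η` and, for `star a` (also `star a ∘ θ = star a`), taking adjoints,
`‖inc a U* - U* inc a‖ ≤ η`. -/
theorem exists_Uw [μ.IsOpenPosMeasure] (θ : C(Z, Z)) (hθ : ∀ a, intL μ (a.comp θ) = intL μ a)
    (F : Finset C(Z, ℂ)) (ε κ : ℝ) (hε : 0 < ε) (hκ : 0 < κ) :
    ∃ (k : ℕ) (U w : K →L[ℂ] K), U ∈ M.E {j | j < k} ∧ w ∈ M.E {j | j < k} ∧ ‖U‖ ≤ 1 ∧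
      star w * w = 1 ∧ w * star w = 1 ∧
      (∀ a ∈ F, ‖M.inc (a.comp θ) * U - U * M.inc a‖ ≤ ε) ∧
      (∀ a ∈ F, a.comp θ = a → ‖M.inc a * w - w * M.inc a‖ ≤ ε) ∧
      (M.st (1 - star U * U)).re ≤ κ ∧ ‖(w - U) M.Om‖ ≤ κ := by
  classical
  have hτ : ∀ a b : C(Z, ℂ), intL μ (a * b) = intL μ (b * a) := intL_comm μ
  obtain ⟨p, κ₁, hκ₁, hp, hlog⟩ := M.exists_log hτ κ hκ
  obtain ⟨η, hη, hcomm⟩ := logU_comm p ε hε
  obtain ⟨k, U, hUE, hU1, hint, hst, hpow⟩ := M.exists_U θ hθ (F ∪ F.image star) (min ε η)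
    (min κ κ₁) (lt_min hε hη) (lt_min hκ hκ₁)
  have hUu : U ∈ M.E Set.univ := M.E_mono (Set.subset_univ _) hUE
  refine ⟨k, U, logU U p, hUE, logU_mem (M.E _) (M.isClosed_E _) U hUE p, hU1,
    (logU_unitary U p hp).1, (logU_unitary U p hp).2, ?_, ?_, hst.trans (min_le_left _ _),
    hlog U hUu hU1 (hst.trans (min_le_right _ _)) hpow⟩
  · intro a ha
    exact (hint a (Finset.mem_union_left _ ha)).trans (min_le_left _ _)
  · intro a ha haθ
    refine hcomm (K →L[ℂ] K) (M.inc a) U hU1 ?_ ?_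
    · have h1 := (hint a (Finset.mem_union_left _ ha)).trans (min_le_right _ _)
      rwa [haθ] at h1
    · have h1 := (hint (star a) (Finset.mem_union_right _ (Finset.mem_image_of_mem _ ha))).trans
        (min_le_right _ _)
      have h2 : (star a).comp θ = star a := by
        have h3 : (star a).comp θ = star (a.comp θ) := by
          ext x
          rfl
        rw [h3, haθ]
      rw [h2] at h1
      have h4 : star (M.inc a * star U - star U * M.inc a) =
          -(M.inc (star a) * U - U * M.inc (star a)) := by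
        rw [star_sub, star_mul, star_mul, star_star, map_star]
        abel
      rw [← norm_star, h4, norm_neg]
      exact h1

end FModel
end H47
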