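import Pool.Agent.H.MP_47f0a1_an.Util

/-!
# Defect operators of contractions
-/

namespace H47

/-- The defect operator `(1 - U U*)^{1/2}`. -/
noncomputable def dft {A : Type*} [CStarAlgebra A] (U : A) : A := cfc Real.sqrt (1 - U * star U)

variable {A : Type*} [CStarAlgebra A] (U : A)

theorem dft_arg_sa : IsSelfAdjoint (1 - U * star U) :=
  (IsSelfAdjoint.one A).sub (IsSelfAdjoint.mul_star_self U)

/-- the spectrum of `1 - U U*` -/
theorem dft_spec (hU : ‖U‖ ≤ 1) {x : ℝ} (hx : x ∈ spectrum ℝ (1 - U * star U)) :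
    0 ≤ x ∧ x ≤ 1 := by
  have h1 : 1 - x ∈ spectrum ℝ (U * star U) := by
    have h2 := spectrum.singleton_sub_eq (R := ℝ) (U * star U) 1
    rw [map_one] at h2
    rw [← h2] at hx
    obtain ⟨r, hr, y, hy, hxy⟩ := hx
    rw [Set.mem_singleton_iff] at hr
    subst hr
    have h3 : (1 : ℝ) - x = y := by
      have h4 : (1 : ℝ) - y = x := hxy
      linarith
    rw [h3]
    exact hy
  have h0 : 0 ≤ 1 - x := by
    have h2 := spectrum_star_mul_self_nonneg (b := star U) (1 - x)
    rw [star_star] at h2
    exact h2 h1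
  have hn : ‖U * star U‖ ≤ 1 := by
    rw [CStarRing.norm_self_mul_star]
    nlinarith [norm_nonneg U]
  have h5 : ‖1 - x‖ ≤ ‖U * star U‖ * ‖(1 : A)‖ := spectrum.norm_le_norm_mul_of_mem h1
  have h6 : ‖(1 : A)‖ ≤ 1 := by
    rcases subsingleton_or_nontrivial A with h | h
    · rw [Subsingleton.elim (1 : A) 0, norm_zero]
      exact zero_le_one
    · exact (CStarRing.norm_one).le
  rw [Real.norm_eq_abs, abs_of_nonneg h0] at h5
  constructor
  · nlinarith [norm_nonneg (1 : A), norm_nonneg (U * star U)]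
  · linarith

theorem dft_sa : star (dft U) = dft U := by
  have h : IsSelfAdjoint (dft U) := cfc_predicate Real.sqrt (1 - U * star U)
  exact h.star_eq

/-- `(dft U)² = 1 - U U*`: the spectrum of `1 - U U*` is in `[0, 1]` for a contraction `U`. -/
theorem dft_sq (hU : ‖U‖ ≤ 1) : dft U * dft U = 1 - U * star U := by
  unfold dft
  rw [← cfc_mul Real.sqrt Real.sqrt (1 - U * star U) Real.continuous_sqrt.continuousOn
    Real.continuous_sqrt.continuousOn]
  have h1 : cfc (fun x => Real.sqrt x * Real.sqrt x) (1 - U * star U) =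
      cfc (fun x : ℝ => x) (1 - U * star U) :=
    cfc_congr fun x hx => Real.mul_self_sqrt (dft_spec U hU hx).1
  rw [h1]
  exact cfc_id' ℝ _ (dft_arg_sa U)

theorem dft_norm (hU : ‖U‖ ≤ 1) : ‖dft U‖ ≤ 1 := by
  refine norm_cfc_le zero_le_one fun x hx => ?_
  have h := dft_spec U hU hx
  rw [Real.norm_eq_abs, abs_of_nonneg (Real.sqrt_nonneg x)]
  exact Real.sqrt_le_one.2 h.2

theorem dft_poly (p : Polynomial ℝ) : star U * Polynomial.aeval (1 - U * star U) p =
    Polynomial.aeval (1 - star U * star (star U)) p * star U := by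
  have hs : SemiconjBy (star U) (1 - U * star U) (1 - star U * star (star U)) := by
    unfold SemiconjBy
    rw [star_star]
    simp only [mul_sub, sub_mul, mul_one, one_mul, mul_assoc]
  induction p using Polynomial.induction_on' with
  | add p q hp hq => rw [map_add, map_add, mul_add, add_mul, hp, hq]
  | monomial n a =>
    rw [Polynomial.aeval_monomial, Polynomial.aeval_monomial, ← mul_assoc,
      ← Algebra.commutes a (star U), mul_assoc, (hs.pow_right n).eq, mul_assoc]

/-- `U* (1 - U U*)^{1/2} = (1 - U* U)^{1/2} U*`. Proof: `U* p(1 - U U*) = p(1 - U* U) U*` for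
polynomials; approximate `√` by polynomials uniformly on `[0,1]`. -/
theorem dft_inter (hU : ‖U‖ ≤ 1) : star U * dft U = dft (star U) * star U := by
  have hU' : ‖star U‖ ≤ 1 := by rwa [norm_star]
  rw [← sub_eq_zero, ← norm_le_zero_iff]
  refine le_of_forall_pos_le_add fun ε hε => ?_
  obtain ⟨p, hp⟩ := exists_polynomial_near_of_continuousOn 0 1 Real.sqrt
    Real.continuous_sqrt.continuousOn (ε / 2) (by positivity)
  have key : ∀ V : A, ‖V‖ ≤ 1 → ‖dft V - Polynomial.aeval (1 - V * star V) p‖ ≤ ε / 2 := by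
    intro V hV
    rw [← cfc_polynomial p (1 - V * star V) (dft_arg_sa V)]
    unfold dft
    rw [← cfc_sub Real.sqrt p.eval (1 - V * star V) Real.continuous_sqrt.continuousOn
      p.continuous.continuousOn]
    refine norm_cfc_le (by positivity) fun x hx => ?_
    have h := hp x (dft_spec V hV hx)
    rw [abs_sub_comm] at h
    exact h.le
  have h1 : star U * dft U - dft (star U) * star U =
      star U * (dft U - Polynomial.aeval (1 - U * star U) p) -
        (dft (star U) - Polynomial.aeval (1 - star U * star (star U)) p) * star U := by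
    rw [mul_sub, sub_mul, dft_poly]
    abel
  rw [h1]
  have h2 : ‖star U * (dft U - Polynomial.aeval (1 - U * star U) p)‖ ≤ 1 * (ε / 2) :=
    (norm_mul_le _ _).trans (mul_le_mul hU' (key U hU) (norm_nonneg _) zero_le_one)
  have h3 : ‖(dft (star U) - Polynomial.aeval (1 - star U * star (star U)) p) * star U‖ ≤
      ε / 2 * 1 :=
    (norm_mul_le _ _).trans (mul_le_mul (key (star U) hU') hU' (norm_nonneg _) (by positivity))
  have h4 := norm_sub_le (star U * (dft U - Polynomial.aeval (1 - U * star U) p))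
    ((dft (star U) - Polynomial.aeval (1 - star U * star (star U)) p) * star U)
  linarith

/-- `(1 - U U*)^{1/2} U = U (1 - U* U)^{1/2}`: the adjoint of `dft_inter`. -/
theorem dft_inter' (hU : ‖U‖ ≤ 1) : dft U * U = U * dft (star U) := by
  have h := congrArg star (dft_inter U hU)
  rw [star_mul, star_mul, star_star, dft_sa, dft_sa] at h
  exact h

theorem dft_mem (S : StarSubalgebra ℂ A) (hS : IsClosed (S : Set A)) (hU : U ∈ S) :
    dft U ∈ S :=
  cfc_mem_of_isClosed S hS _ (sub_mem (one_mem S) (mul_mem hU (star_mem hU))) (dft_arg_sa U)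
    Real.sqrt Real.continuous_sqrt

/-- Approximate commutation: if `U` approximately intertwines `x` and `y` (and `U*` the other way)
then `dft U` approximately commutes with `x`. Proof: `‖x U U* - U U* x‖ ≤ 2 η`, and `comm_cfc` for
`Real.sqrt` and `h = 1 - U U*`, `r = 2`. -/
theorem dft_comm (C ε : ℝ) (hε : 0 < ε) : ∃ η : ℝ, 0 < η ∧ ∀ (A : Type) [CStarAlgebra A]
    (U x y : A), ‖U‖ ≤ 1 → ‖x‖ ≤ C → ‖y‖ ≤ C → ‖x * U - U * y‖ ≤ η →
      ‖y * star U - star U * x‖ ≤ η → ‖x * dft U - dft U * x‖ ≤ ε := by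
  obtain ⟨η, hη, h⟩ := comm_cfc Real.sqrt Real.continuous_sqrt 1 C ε hε
  refine ⟨η / 2, by positivity, fun A _ U x y hU hx _ h1 h2 => ?_⟩
  have hn : ‖(1 : A) - U * star U‖ ≤ 1 := by
    have h3 := norm_cfc_le (f := fun x : ℝ => x) (a := 1 - U * star U) zero_le_one
      (fun x hx => by
        have h4 := dft_spec U hU hx
        rw [Real.norm_eq_abs, abs_of_nonneg h4.1]
        exact h4.2)
    rwa [cfc_id' ℝ _ (dft_arg_sa U)] at h3
  refine h A x (1 - U * star U) (dft_arg_sa U) hn hx ?_
  have h3 : x * (1 - U * star U) - (1 - U * star U) * x =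
      -((x * U - U * y) * star U + U * (y * star U - star U * x)) := by
    simp only [mul_sub, sub_mul, mul_one, one_mul, mul_assoc]
    abel
  rw [h3, norm_neg]
  have h4 : ‖(x * U - U * y) * star U‖ ≤ η / 2 * 1 :=
    (norm_mul_le _ _).trans (mul_le_mul h1 (by rwa [norm_star]) (norm_nonneg _) (by positivity))
  have h5 : ‖U * (y * star U - star U * x)‖ ≤ 1 * (η / 2) :=
    (norm_mul_le _ _).trans (mul_le_mul hU h2 (norm_nonneg _) zero_le_one)
  have h6 := norm_add_le ((x * U - U * y) * star U) (U * (y * star U - star U * x))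
  linarith

end H47
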