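import Pool.Agent.H.MP_47f0a1_an.Defs

/-!
# The matrices of the chain argument, over an arbitrary star ring
-/

open Matrix

namespace H47

/-- The index set of the chain. -/
abbrev Idx (N : ℕ) : Type := Fin (N + 1) ⊕ Fin N

variable {R : Type*} [Ring R] [StarRing R]

/-- Blocks `[[U, -f], [g, U*]]` on the pairs `(inl j, inr j)`, and `w` at `inl N`. -/
def Gm (N : ℕ) (U f g w : R) : Matrix (Idx N) (Idx N) R :=
  Matrix.of fun x y => match x, y with
    | .inl i, .inl i' => if i = i' then (if i = Fin.last N then w else U) else 0
    | .inl i, .inr j => if i = j.castSucc then -f else 0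
    | .inr j, .inl i => if i = j.castSucc then g else 0
    | .inr j, .inr j' => if j = j' then star U else 0

/-- Blocks `[[U, -f], [g, U*]]` on the pairs `(inl (j+1), inr j)`, and `U` at `inl 0`. -/
def Bm (N : ℕ) (U f g : R) : Matrix (Idx N) (Idx N) R :=
  Matrix.of fun x y => match x, y with
    | .inl i, .inl i' => if i = i' then U else 0
    | .inl i, .inr j => if i = j.succ then -f else 0
    | .inr j, .inl i => if i = j.succ then g else 0
    | .inr j, .inr j' => if j = j' then star U else 0

/-- The row vector `(1, 0, …)` with `1` at `inl 0`. -/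
def er (R : Type*) [Ring R] (N : ℕ) : Matrix Unit (Idx N) R :=
  Matrix.of fun _ x => if x = Sum.inl 0 then 1 else 0

/-- A row vector. -/
def rowM {N : ℕ} (v : Idx N → R) : Matrix Unit (Idx N) R := Matrix.of fun _ x => v x

/-- A `1 × 1` matrix. -/
def s1 (a : R) : Matrix Unit Unit R := Matrix.of fun _ _ => a

theorem s1_mul (a b : R) : s1 (a * b) = s1 a * s1 b := by
  ext i j
  simp [s1, Matrix.mul_apply]

theorem s1_sub (a b : R) : s1 (a - b) = s1 a - s1 b := by
  ext i j
  simp [s1]

theorem s1_one : s1 (1 : R) = 1 := by
  ext i j
  simp [s1]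

theorem s1_star (a : R) : (s1 a)ᴴ = s1 (star a) := by
  ext i j
  simp [s1]

theorem s1_inj (a b : R) : s1 a = s1 b ↔ a = b := by
  constructor
  · intro h
    have := congrFun (congrFun h ()) ()
    simpa [s1] using this
  · rintro rfl
    rfl

/-- The first row `P = U P' B* + (1 - U U*) e` of the chain, with `P' = v`. -/
def Prow {N : ℕ} (U f g : R) (v : Idx N → R) : Matrix Unit (Idx N) R :=
  s1 U * rowM v * (Bm N U f g)ᴴ + s1 (1 - U * star U) * er R N

/-- The element `u = U + P (G - B) P'*`. -/
def uM {N : ℕ} (U f g w : R) (v : Idx N → R) : Matrix Unit Unit R :=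
  s1 U + Prow U f g v * (Gm N U f g w - Bm N U f g) * (rowM v)ᴴ

/-- The relations of a contraction and its defect operators, and a unitary. -/
structure Rel0 (U f g w : R) : Prop where
  fs : star f = f
  gs : star g = g
  ff : f * f = 1 - U * star U
  gg : g * g = 1 - star U * U
  Uf : star U * f = g * star U
  fU : f * U = U * g
  ww : star w * w = 1
  ww' : w * star w = 1

/-- `G` is unitary. Proof: entrywise; for the row `inl i` with `i = castSucc j` the partner index is
`inr j`, for `i = last` there is none. Block identities:
`U* U + g g = 1`, `U U* + f f = 1`, `-U* f + g U* = 0`, `-f U + U g = 0`. Sums over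
`Fin (N+1)` and `Fin N` with `Finset.sum_ite_eq`; `Fintype.sum_sum_type`. -/
theorem Gm_unitary (N : ℕ) {U f g w : R} (h : Rel0 U f g w) :
    (Gm N U f g w)ᴴ * Gm N U f g w = 1 ∧ Gm N U f g w * (Gm N U f g w)ᴴ = 1 := by
  have e1 : star U * U + g * g = 1 := by rw [h.gg]; abel
  have e2 : U * star U + f * f = 1 := by rw [h.ff]; abel
  have e3 : f * f + U * star U = 1 := by rw [h.ff]; abel
  have e4 : g * g + star U * U = 1 := by rw [h.gg]; abel
  have l1 : ∀ k : Fin N, (Fin.last N = k.castSucc) = False := fun k =>
    eq_false (Fin.castSucc_lt_last k).ne'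
  constructor
  · ext x y
    rcases x with i | j <;> rcases y with i' | j'
    · induction i using Fin.lastCases with
      | last =>
        induction i' using Fin.lastCases with
        | last => simp [Gm, Matrix.mul_apply, Fintype.sum_sum_type, h.ww, l1]
        | cast k => simp [Gm, Matrix.mul_apply, Fintype.sum_sum_type, l1, Matrix.one_apply]
      | cast k =>
        induction i' using Fin.lastCases with
        | last => simp [Gm, Matrix.mul_apply, Fintype.sum_sum_type, l1, Matrix.one_apply]
        | cast l =>
          by_cases hkl : l = k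
          · subst hkl
            simp [Gm, Matrix.mul_apply, Fintype.sum_sum_type, h.gs, e1]
          · simp [Gm, Matrix.mul_apply, Fintype.sum_sum_type, hkl, Ne.symm hkl, Matrix.one_apply]
    · induction i using Fin.lastCases with
      | last => simp [Gm, Matrix.mul_apply, Fintype.sum_sum_type, l1, Matrix.one_apply]
      | cast k =>
        by_cases hkl : j' = k
        · subst hkl
          simp [Gm, Matrix.mul_apply, Fintype.sum_sum_type, h.gs, h.Uf, Matrix.one_apply]
        · simp [Gm, Matrix.mul_apply, Fintype.sum_sum_type, hkl, Ne.symm hkl, Matrix.one_apply]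
    · induction i' using Fin.lastCases with
      | last => simp [Gm, Matrix.mul_apply, Fintype.sum_sum_type, l1, Matrix.one_apply]
      | cast k =>
        by_cases hkl : j = k
        · subst hkl
          simp [Gm, Matrix.mul_apply, Fintype.sum_sum_type, h.fs, h.fU, Matrix.one_apply]
        · simp [Gm, Matrix.mul_apply, Fintype.sum_sum_type, hkl, Ne.symm hkl, Matrix.one_apply]
    · by_cases hkl : j' = j
      · subst hkl
        simp [Gm, Matrix.mul_apply, Fintype.sum_sum_type, h.fs, e3]
      · simp [Gm, Matrix.mul_apply, Fintype.sum_sum_type, hkl, Ne.symm hkl, Matrix.one_apply]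
  · ext x y
    rcases x with i | j <;> rcases y with i' | j'
    · induction i using Fin.lastCases with
      | last =>
        induction i' using Fin.lastCases with
        | last => simp [Gm, Matrix.mul_apply, Fintype.sum_sum_type, h.ww', l1]
        | cast k => simp [Gm, Matrix.mul_apply, Fintype.sum_sum_type, l1, Matrix.one_apply]
      | cast k =>
        induction i' using Fin.lastCases with
        | last => simp [Gm, Matrix.mul_apply, Fintype.sum_sum_type, l1, Matrix.one_apply]
        | cast l =>
          by_cases hkl : l = k
          · subst hkl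
            simp [Gm, Matrix.mul_apply, Fintype.sum_sum_type, h.fs, e2]
          · simp [Gm, Matrix.mul_apply, Fintype.sum_sum_type, hkl, Ne.symm hkl, Matrix.one_apply]
    · induction i using Fin.lastCases with
      | last => simp [Gm, Matrix.mul_apply, Fintype.sum_sum_type, l1, Matrix.one_apply]
      | cast k =>
        by_cases hkl : j' = k
        · subst hkl
          simp [Gm, Matrix.mul_apply, Fintype.sum_sum_type, h.gs, h.fU, Matrix.one_apply]
        · simp [Gm, Matrix.mul_apply, Fintype.sum_sum_type, hkl, Ne.symm hkl, Matrix.one_apply]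
    · induction i' using Fin.lastCases with
      | last => simp [Gm, Matrix.mul_apply, Fintype.sum_sum_type, l1, Matrix.one_apply]
      | cast k =>
        by_cases hkl : j = k
        · subst hkl
          simp [Gm, Matrix.mul_apply, Fintype.sum_sum_type, h.fs, h.Uf, Matrix.one_apply]
        · simp [Gm, Matrix.mul_apply, Fintype.sum_sum_type, hkl, Ne.symm hkl, Matrix.one_apply]
    · by_cases hkl : j' = j
      · subst hkl
        simp [Gm, Matrix.mul_apply, Fintype.sum_sum_type, h.gs, e4]
      · simp [Gm, Matrix.mul_apply, Fintype.sum_sum_type, hkl, Ne.symm hkl, Matrix.one_apply]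

end H47
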