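import Pool.Agent.H.MP_47f0a1_an.CircW
import Pool.Agent.H.MP_47f0a1_an.Absorb
import Pool.Agent.H.MP_47f0a1_an.Dft
import Pool.Agent.H.MP_47f0a1_an.Mats

/-!
# The approximate data of the chain
-/

open scoped InnerProductSpace
open MeasureTheory

namespace H47
namespace FModel

variable {Z : Type} [MetricSpace Z] [CompactSpace Z] [MeasurableSpace Z] [BorelSpace Z]
  {μ : Measure Z} [IsProbabilityMeasure μ]
  {K : Type} [NormedAddCommGroup K] [InnerProductSpace ℂ K] [CompleteSpace K]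
  (M : FModel C(Z, ℂ) (intL μ) K)

/-- The maps attached to the indices of the chain. -/
def tmap {N : ℕ} (r : ℕ → C(Z, Z)) (θ : C(Z, Z)) : Idx N → C(Z, Z)
  | .inl k => r k
  | .inr j => (r (j + 1)).comp θ

/-- **Approximate data.** `f = dft U`, `g = dft (U*)`.

Proof. Let `X = {x : Idx N // x ≠ inl 0}`, `t x = tmap r θ x`, `κ₀` from `absorb` for the family
`t`, the set `F`, the bound `C = 2`, the index type `ι = Fin 5` and `ε`. Take `k, U, w` from
`exists_Uw` for `F`, error `ε` and `κ = min κ₀ (κ₀²)` (so that `√κ ≤ κ₀`). Apply `absorb` with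
`y i = g` for all `i`, and `b = ![f, g, w - U, star (w - U), star U * (w - U)]`. Their norms are at most
`2` and the norms on `Ω`: `‖g Ω‖² = st (g²) = st (1 - U* U) ≤ κ₀²`; `‖f Ω‖² = st (1 - U U*) =
st (1 - U* U)` (trace); `‖(w - U) Ω‖ ≤ κ₀`, `‖(w - U)* Ω‖ = ‖(w-U) Ω‖` (`norm_star_Om`),
`‖U* (w - U) Ω‖ ≤ ‖(w - U) Ω‖`. Memberships by `dft_mem`.
Put `v (inl 0) = 1` and `v x` from `absorb` otherwise. `‖∑ v_x v_x*‖ ≤ 1 + 4`. The
intertwining for `x = inl 0` is trivial since `r 0 = id`. -/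
theorem exists_data [μ.IsOpenPosMeasure] (θ : C(Z, Z)) (hθ : ∀ a, intL μ (a.comp θ) = intL μ a)
    (N : ℕ) (r : ℕ → C(Z, Z)) (hr0 : r 0 = ContinuousMap.id Z) (F : Finset C(Z, ℂ)) (ε : ℝ)
    (hε : 0 < ε) :
    ∃ (U w : K →L[ℂ] K) (v : Idx N → (K →L[ℂ] K)),
      U ∈ M.E Set.univ ∧ w ∈ M.E Set.univ ∧ (∀ x, v x ∈ M.E Set.univ) ∧ ‖U‖ ≤ 1 ∧
      star w * w = 1 ∧ w * star w = 1 ∧ v (Sum.inl 0) = 1 ∧
      ‖∑ x, v x * star (v x)‖ ≤ 5 ∧
      (∀ a ∈ F, ‖M.inc (a.comp θ) * U - U * M.inc a‖ ≤ ε) ∧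
      (∀ a ∈ F, a.comp θ = a → ‖M.inc a * w - w * M.inc a‖ ≤ ε) ∧
      (∀ x, ∀ a ∈ F, ‖M.inc a * v x - v x * M.inc (a.comp (tmap r θ x))‖ ≤ ε) ∧
      (∀ x y, x ≠ Sum.inl 0 → y ≠ Sum.inl 0 →
        ∀ b ∈ ({dft U, dft (star U), w - U, star (w - U), star U * (w - U)} :
          Set (K →L[ℂ] K)), ‖star (v x) * v y * b - (if x = y then b else 0)‖ ≤ ε) ∧
      (∀ x, x ≠ Sum.inl 0 → ‖dft (star U) * v x‖ ≤ ε) := by
  classical
  have hτ : ∀ a b : C(Z, ℂ), intL μ (a * b) = intL μ (b * a) := intL_comm μ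
  obtain ⟨κ₀, hκ₀, habs⟩ := M.absorb (X := {x : Idx N // x ≠ Sum.inl 0}) (ι := Fin 5)
    (fun x => tmap r θ x.1) F 2 ε (by norm_num) hε
  obtain ⟨k, U, w, hU, hw, hU1, hww, hww', hint, hcom, hst, hwU⟩ :=
    M.exists_Uw θ hθ F ε (min κ₀ (κ₀ ^ 2)) hε (lt_min hκ₀ (by positivity))
  have hSU : M.E {j | j < k} ≤ M.E Set.univ := M.E_mono (Set.subset_univ _)
  have hU1' : ‖star U‖ ≤ 1 := by rwa [norm_star]
  have hw1 : ‖w‖ ≤ 1 := by
    have h : ‖w‖ * ‖w‖ = ‖(1 : K →L[ℂ] K)‖ := by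
      rw [← hww, CStarRing.norm_star_mul_self]
    have h1 : ‖(1 : K →L[ℂ] K)‖ ≤ 1 := ContinuousLinearMap.norm_id_le
    nlinarith [norm_nonneg w]
  have hf1 : ‖dft U‖ ≤ 1 := dft_norm U hU1
  have hg1 : ‖dft (star U)‖ ≤ 1 := dft_norm (star U) hU1'
  have hfE : dft U ∈ M.E {j | j < k} := dft_mem U (M.E _) (M.isClosed_E _) hU
  have hgE : dft (star U) ∈ M.E {j | j < k} :=
    dft_mem (star U) (M.E _) (M.isClosed_E _) (star_mem hU)
  have hwUE : w - U ∈ M.E {j | j < k} := sub_mem hw hU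
  have hwU2 : ‖w - U‖ ≤ 2 := (norm_sub_le _ _).trans (by linarith)
  have hwUO : ‖(w - U) M.Om‖ ≤ κ₀ := hwU.trans (min_le_left _ _)
  have hstκ : (M.st (1 - star U * U)).re ≤ κ₀ ^ 2 := hst.trans (min_le_right _ _)
  have hgO : ‖(dft (star U)) M.Om‖ ≤ κ₀ := by
    have h1 := M.st_star_mul (dft (star U))
    rw [dft_sa (star U), dft_sq (star U) hU1', star_star] at h1
    rw [h1, Complex.ofReal_re] at hstκ
    exact absorb_sq hstκ hκ₀.le
  have hfO : ‖(dft U) M.Om‖ ≤ κ₀ := by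
    have h1 := M.st_star_mul (dft U)
    rw [dft_sa U, dft_sq U hU1] at h1
    have h2 : M.st (1 - U * star U) = M.st (1 - star U * U) := by
      rw [map_sub, map_sub, M.st_tr hτ U (star U) (hSU hU) (star_mem (hSU hU))]
    rw [h2] at h1
    rw [h1, Complex.ofReal_re] at hstκ
    exact absorb_sq hstκ hκ₀.le
  have hswO : ‖(star (w - U)) M.Om‖ ≤ κ₀ := by
    rw [M.norm_star_Om hτ _ (hSU hwUE)]
    exact hwUO
  have huwO : ‖(star U * (w - U)) M.Om‖ ≤ κ₀ := by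
    have h1 : (star U * (w - U)) M.Om = (star U) ((w - U) M.Om) := rfl
    rw [h1]
    refine ((star U).le_opNorm _).trans ?_
    exact (mul_le_of_le_one_left (norm_nonneg _) hU1').trans hwUO
  have huw2 : ‖star U * (w - U)‖ ≤ 2 := by
    refine (norm_mul_le _ _).trans ?_
    exact (mul_le_of_le_one_left (norm_nonneg _) hU1').trans hwU2
  have hsw2 : ‖star (w - U)‖ ≤ 2 := by rwa [norm_star]
  obtain ⟨v, hvE, hvint, hvp, hvg, hvs⟩ := habs k (fun _ => dft (star U))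
    ![dft U, dft (star U), w - U, star (w - U), star U * (w - U)]
    (fun _ => ⟨hgE, hg1.trans (by norm_num), hgO⟩)
    (fun i => by
      fin_cases i
      · exact ⟨hfE, hf1.trans (by norm_num), hfO⟩
      · exact ⟨hgE, hg1.trans (by norm_num), hgO⟩
      · exact ⟨hwUE, hwU2, hwUO⟩
      · exact ⟨star_mem hwUE, hsw2, hswO⟩
      · exact ⟨mul_mem (star_mem hU) hwUE, huw2, huwO⟩)
  refine ⟨U, w, fun x => if h : x = Sum.inl 0 then 1 else v ⟨x, h⟩, hSU hU, hSU hw, ?_, hU1,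
    hww, hww', ?_, ?_, hint, hcom, ?_, ?_, ?_⟩
  · intro x
    by_cases h : x = Sum.inl 0
    · simp only [h, dite_true]
      exact one_mem _
    · simp only [h, dite_false]
      exact hvE _
  · simp only [dite_true]
  · rw [Fintype.sum_eq_add_sum_subtype_ne _ (Sum.inl 0 : Idx N)]
    have h1 : ∑ i : {i : Idx N // i ≠ Sum.inl 0},
        (if h : (i : Idx N) = Sum.inl 0 then (1 : K →L[ℂ] K) else v ⟨i, h⟩) *
          star (if h : (i : Idx N) = Sum.inl 0 then (1 : K →L[ℂ] K) else v ⟨i, h⟩) =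
        ∑ i, v i * star (v i) := by
      refine Finset.sum_congr rfl fun i _ => ?_
      simp only [i.2, dite_false]
    rw [h1]
    simp only [dite_true, star_one, mul_one]
    have h2 : ‖(1 : K →L[ℂ] K)‖ ≤ 1 := ContinuousLinearMap.norm_id_le
    have h3 := norm_add_le (1 : K →L[ℂ] K) (∑ i, v i * star (v i))
    linarith
  · intro x a ha
    by_cases h : x = Sum.inl 0
    · subst h
      have h1 : a.comp (tmap r θ (Sum.inl 0 : Idx N)) = a := by
        have h2 : tmap r θ (Sum.inl 0 : Idx N) = ContinuousMap.id Z := hr0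
        rw [h2, ContinuousMap.comp_id]
      rw [h1]
      simp only [dite_true, mul_one, one_mul, sub_self, norm_zero]
      exact hε.le
    · simp only [h, dite_false]
      exact hvint ⟨x, h⟩ a ha
  · intro x y hx hy b hb
    simp only [hx, hy, dite_false]
    have key : ∀ i : Fin 5, b = (![dft U, dft (star U), w - U, star (w - U),
        star U * (w - U)] : Fin 5 → (K →L[ℂ] K)) i →
        ‖star (v ⟨x, hx⟩) * v ⟨y, hy⟩ * b - (if x = y then b else 0)‖ ≤ ε := by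
      intro i hi
      have h1 := hvp ⟨x, hx⟩ ⟨y, hy⟩ i
      rw [← hi] at h1
      simpa only [Subtype.mk.injEq] using h1
    rcases hb with h | h | h | h | h
    · exact key 0 h
    · exact key 1 h
    · exact key 2 h
    · exact key 3 h
    · exact key 4 h
  · intro x hx
    simp only [hx, dite_false]
    exact hvg ⟨x, hx⟩ 0

end FModel
end H47
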