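import Mathlib

/-!
# Reduced free products of C*-algebras: the definitions

`IsFree` is Voiculescu's freeness (free independence) of a family of unital star subalgebras.
`IsRFP φ S` says that the C*-algebra `A` with the state `φ` is the reduced free product of the
family `S` of its unital star subalgebras.
-/

open MeasureTheory

namespace H47

/-- Freeness of a family `S` of unital star subalgebras with respect to a linear functional `φ`:
`φ` vanishes on every nonempty alternating product of centred elements. -/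
def IsFree {A I : Type*} [Ring A] [StarRing A] [Algebra ℂ A] [StarModule ℂ A]
    (φ : A →ₗ[ℂ] ℂ) (S : I → StarSubalgebra ℂ A) : Prop :=
  ∀ l : List (I × A), l ≠ [] → l.IsChain (fun p q => p.1 ≠ q.1) →
    (∀ p ∈ l, p.2 ∈ S p.1 ∧ φ p.2 = 0) → φ (l.map Prod.snd).prod = 0

open scoped ComplexOrder in
/-- `φ` is a state. -/
structure IsSt {A : Type*} [CStarAlgebra A] (φ : A →ₗ[ℂ] ℂ) : Prop where
  one : φ 1 = 1
  nonneg : ∀ x, 0 ≤ φ (star x * x)

/-- `(A, φ)` is the reduced free product of the unital star subalgebras `S i` (with the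
restrictions of `φ` to them): `φ` is a state, the `S i` are free, they generate `A`, and the
GNS representation of `φ` is injective. -/
structure IsRFP {A I : Type*} [CStarAlgebra A] (φ : A →ₗ[ℂ] ℂ)
    (S : I → StarSubalgebra ℂ A) : Prop where
  st : IsSt φ
  free : IsFree φ S
  gen : (⨆ i, S i).topologicalClosure = ⊤
  gns : ∀ x, (∀ y, φ (star y * star x * x * y) = 0) → x = 0

/-- `φ` is a faithful tracial state. -/
structure IsFT {A : Type*} [CStarAlgebra A] (φ : A →ₗ[ℂ] ℂ) : Prop where
  st : IsSt φ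
  tr : ∀ x y, φ (x * y) = φ (y * x)
  faithful : ∀ x, φ (star x * x) = 0 → x = 0

/-- `(B, τ)` is the reduced free product of infinitely many copies `ι j` of `C([0,1])` with
Lebesgue measure. -/
structure FreeInf (B : Type*) [CStarAlgebra B] (τ : B →ₗ[ℂ] ℂ)
    (ι : ℕ → C(unitInterval, ℂ) →⋆ₐ[ℂ] B) : Prop where
  integral : ∀ j f, τ (ι j f) = ∫ x, f x
  rfp : IsRFP τ (fun j => (ι j).range)

/-- `(P, σ)` is the reduced free product of `C([0,1]^n)` with Lebesgue measure (embedded by `a`)
and of `(B, τ)` (embedded by `b`). -/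
structure FreeProd (n : ℕ) {B : Type*} [CStarAlgebra B] (τ : B →ₗ[ℂ] ℂ)
    (P : Type*) [CStarAlgebra P] (σ : P →ₗ[ℂ] ℂ)
    (a : C(Fin n → unitInterval, ℂ) →⋆ₐ[ℂ] P) (b : B →⋆ₐ[ℂ] P) : Prop where
  integral : ∀ f, σ (a f) = ∫ x, f x
  state : ∀ x, σ (b x) = τ x
  rfp : IsRFP σ ![a.range, b.range]

end H47
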