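import Pool.Agent.H.MP_47f0a1_an.FreeBasic

/-!
# Freeness: refinement of a free family
-/

namespace H47

variable {A I : Type*} [Ring A] [StarRing A] [Algebra ℂ A] [StarModule ℂ A]

/-- The grouping of a word. -/
theorem freerefine_group {J : I → Type*} (φ : A →ₗ[ℂ] ℂ) (S : I → StarSubalgebra ℂ A)
    (T : ∀ i, J i → StarSubalgebra ℂ A) (hTS : ∀ i j, T i j ≤ S i)
    (hT : ∀ i, IsFree φ (T i)) (l : List ((Σ i, J i) × A)) :
    ∀ (i : I) (j : J i) (x : A),
      ((⟨⟨i, j⟩, x⟩ : (Σ i, J i) × A) :: l).IsChain (fun p q => p.1 ≠ q.1) →
      (∀ p ∈ ((⟨⟨i, j⟩, x⟩ : (Σ i, J i) × A) :: l), p.2 ∈ T p.1.1 p.1.2 ∧ φ p.2 = 0) →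
      ∃ (r : List (J i × A)) (m : List (I × A)),
        ((j, x) :: r).IsChain (fun p q => p.1 ≠ q.1) ∧
        (∀ p ∈ (j, x) :: r, p.2 ∈ T i p.1 ∧ φ p.2 = 0) ∧
        m.IsChain (fun p q => p.1 ≠ q.1) ∧ (∀ p ∈ m, p.2 ∈ S p.1 ∧ φ p.2 = 0) ∧
        (∀ p ∈ m.head?, i ≠ p.1) ∧
        x * (l.map Prod.snd).prod = (x * (r.map Prod.snd).prod) * (m.map Prod.snd).prod := by
  induction l with
  | nil =>
    intro i j x _ hp
    refine ⟨[], [], List.isChain_singleton _, ?_, List.isChain_nil, by simp, by simp, by simp⟩
    intro p hpl
    rw [List.mem_singleton] at hpl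
    subst hpl
    exact hp _ List.mem_cons_self
  | cons q l ih =>
    obtain ⟨⟨i', j'⟩, x'⟩ := q
    intro i j x hc hp
    rw [List.isChain_cons_cons] at hc
    obtain ⟨hne, hc'⟩ := hc
    obtain ⟨r, m, hr1, hr2, hm1, hm2, hm3, hprod⟩ := ih i' j' x' hc'
      (fun p hpl => hp p (List.mem_cons_of_mem _ hpl))
    by_cases h : i = i'
    · subst h
      refine ⟨(j', x') :: r, m, ?_, ?_, hm1, hm2, hm3, ?_⟩
      · rw [List.isChain_cons_cons]
        refine ⟨?_, hr1⟩
        intro hj
        apply hne
        simp only at hj
        simp only [hj]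
      · intro p hpl
        rcases List.mem_cons.1 hpl with rfl | hpl
        · exact hp (⟨⟨i, j⟩, x⟩ : (Σ i, J i) × A) List.mem_cons_self
        · exact hr2 p hpl
      · simp only [List.map_cons, List.prod_cons]
        rw [hprod]
        simp only [mul_assoc]
    · refine ⟨[], (i', x' * (r.map Prod.snd).prod) :: m, List.isChain_singleton _, ?_, ?_, ?_, ?_,
        ?_⟩
      · intro p hpl
        rw [List.mem_singleton] at hpl
        subst hpl
        exact hp (⟨⟨i, j⟩, x⟩ : (Σ i, J i) × A) List.mem_cons_self
      · rw [List.isChain_cons]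
        exact ⟨hm3, hm1⟩
      · intro p hpl
        rcases List.mem_cons.1 hpl with rfl | hpl
        · refine ⟨?_, ?_⟩
          · have h1 : (((j', x') :: r).map Prod.snd).prod ∈ S i' := by
              apply list_prod_mem
              intro y hy
              rw [List.mem_map] at hy
              obtain ⟨q, hq, rfl⟩ := hy
              exact hTS i' q.1 (hr2 q hq).1
            simpa only [List.map_cons, List.prod_cons] using h1
          · have h1 := hT i' ((j', x') :: r) (List.cons_ne_nil _ _) hr1 hr2
            simpa only [List.map_cons, List.prod_cons] using h1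
        · exact hm2 p hpl
      · intro p hpl
        simp only [List.head?_cons, Option.mem_def, Option.some.injEq] at hpl
        subst hpl
        exact h
      · simp only [List.map_cons, List.prod_cons, List.map_nil, List.prod_nil, mul_one]
        rw [hprod]

/-- If the `S i` are free and, for every `i`, the `T i j ≤ S i` (`j : J i`) are free, then all the
`T i j` together are free.

Proof. Let `l` be a nonempty alternating centred list over `Σ i, J i`. Group maximal runs of letters
with the same first index `i`: each run is a nonempty alternating centred list for `T i`, so that its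
value lies in `S i` and has `φ = 0` by freeness of `T i`. The grouped list is a nonempty alternating
centred list for `S` with the same product.
Formally prove by induction on `l` (with `List.rec` from the left): for every alternating centred
`l ≠ []` with head `⟨i, j⟩`, there are a list `r` over `J i`, nonempty, alternating, centred for `T i`,
with head index `j`, and a list `m` over `I`, alternating, centred for `S`, whose head index (if any)
is `≠ i`, such that the product of `l` is `(product of r) * (product of m)`. Step: to add a letter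
`(⟨i', j'⟩, x)` in front of `l`: if `i' = i` (then `j' ≠ j`) put `(j', x)` in front of `r`; if `i' ≠ i`
take `r' = [(j', x)]` and `m' = (i, product of r) :: m`. -/
theorem free_refine {J : I → Type*} (φ : A →ₗ[ℂ] ℂ) (S : I → StarSubalgebra ℂ A)
    (T : ∀ i, J i → StarSubalgebra ℂ A) (hTS : ∀ i j, T i j ≤ S i) (hS : IsFree φ S)
    (hT : ∀ i, IsFree φ (T i)) : IsFree φ (fun p : Σ i, J i => T p.1 p.2) := by
  intro l hl hc hp
  obtain ⟨q, l, rfl⟩ := List.exists_cons_of_ne_nil hl
  obtain ⟨⟨i, j⟩, x⟩ := q
  obtain ⟨r, m, hr1, hr2, hm1, hm2, hm3, hprod⟩ := freerefine_group φ S T hTS hT l i j x hc hp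
  have h0 := hT i ((j, x) :: r) (List.cons_ne_nil _ _) hr1 hr2
  have h1 := hS ((i, x * (r.map Prod.snd).prod) :: m) (List.cons_ne_nil _ _)
    (by
      rw [List.isChain_cons]
      exact ⟨hm3, hm1⟩)
    (by
      intro p hpl
      rcases List.mem_cons.1 hpl with rfl | hpl
      · refine ⟨?_, ?_⟩
        · have h1 : (((j, x) :: r).map Prod.snd).prod ∈ S i := by
            apply list_prod_mem
            intro y hy
            rw [List.mem_map] at hy
            obtain ⟨q, hq, rfl⟩ := hy
            exact hTS i q.1 (hr2 q hq).1
          simpa only [List.map_cons, List.prod_cons] using h1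
        · simpa only [List.map_cons, List.prod_cons] using h0
      · exact hm2 p hpl)
  simp only [List.map_cons, List.prod_cons] at h1 ⊢
  rw [hprod]
  exact h1

/-- The form used later: `S` is free over `![a, b]`-like data indexed by `Fin 2`, the member `1` is
refined to the family `T : ℕ → _`, the member `0` is kept. Proof: `free_refine` with
`J 0 = Unit`, `J 1 = ℕ` and then reindexing along the injection
`Option ℕ → Σ i : Fin 2, J i`, `none ↦ ⟨0, ()⟩`, `some j ↦ ⟨1, j⟩` (a direct proof is fine too). -/
theorem free_refine_option (φ : A →ₗ[ℂ] ℂ) (S : Fin 2 → StarSubalgebra ℂ A)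
    (T : ℕ → StarSubalgebra ℂ A) (hTS : ∀ j, T j ≤ S 1) (hS : IsFree φ S) (hT : IsFree φ T) :
    IsFree φ (fun o : Option ℕ => match o with
      | none => S 0
      | some j => T j) := by
  have h := free_refine (J := fun i : Fin 2 => {k : ℕ // i = 0 → k = 0}) φ S
    (fun i j => if i = 0 then S 0 else T j.1) ?_ hS ?_
  · have he : Function.Injective (fun o : Option ℕ => match o with
        | none => (⟨0, ⟨0, fun _ => rfl⟩⟩ : Σ i : Fin 2, {k : ℕ // i = 0 → k = 0})
        | some j => ⟨1, ⟨j, fun h => absurd h (by decide)⟩⟩) := by
      intro o o' hoo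
      rcases o with _ | o <;> rcases o' with _ | o'
      · rfl
      · have h1 : (0 : Fin 2) = 1 := congrArg Sigma.fst hoo
        exact absurd h1 (by decide)
      · have h1 : (1 : Fin 2) = 0 := congrArg Sigma.fst hoo
        exact absurd h1 (by decide)
      · simp only [Sigma.mk.injEq, heq_eq_eq, Subtype.mk.injEq, true_and] at hoo
        rw [hoo]
    have h2 := free_reindex φ _ _ he h
    refine free_mono φ _ _ ?_ h2
    intro o
    rcases o with _ | o
    · simp
    · simp
  · intro i j
    split_ifs with hi
    · rw [hi]
    · have : i = 1 := by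
        have := i.2
        ext
        have h3 : (i : ℕ) ≠ 0 := fun h => hi (Fin.ext h)
        simp only [Fin.val_one]
        omega
      subst this
      exact hTS _
  · intro i
    by_cases hi : i = 0
    · subst hi
      intro l hl hc hp
      obtain ⟨q, l, rfl⟩ := List.exists_cons_of_ne_nil hl
      rcases l with _ | ⟨q', l⟩
      · simpa using (hp q List.mem_cons_self).2
      · rw [List.isChain_cons_cons] at hc
        exfalso
        apply hc.1
        apply Subtype.ext
        rw [q.1.2 rfl, q'.1.2 rfl]
    · simp only [if_neg hi]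
      exact free_reindex φ T (fun j : {k : ℕ // i = 0 → k = 0} => j.1) Subtype.val_injective hT

end H47
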