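import Pool.Agent.H.MP_47f0a1_an.PZ
import Pool.Agent.H.MP_47f0a1_an.FreeRefine
import Pool.Agent.H.MP_47f0a1_an.FreeBasic

/-!
# Free absorption of `C([0,1]^n)` by `C([0,1])^{*∞}`
-/

open MeasureTheory TopologicalSpace

namespace H47

/-- The shift `ℕ ≃ Option ℕ`. -/
def finalAE : ℕ ≃ Option ℕ where
  toFun n := Nat.casesOn n none some
  invFun o := o.elim 0 Nat.succ
  left_inv n := by cases n <;> rfl
  right_inv o := by cases o <;> rfl

theorem finalA_reindex {A I J : Type*} [CStarAlgebra A] {φ : A →ₗ[ℂ] ℂ}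
    {S : I → StarSubalgebra ℂ A} (e : J ≃ I) (h : IsRFP φ S) :
    IsRFP φ (fun j => S (e j)) where
  st := h.st
  free := free_reindex φ S e e.injective h.free
  gen := by
    rw [Equiv.iSup_comp (g := S) e]
    exact h.gen
  gns := h.gns

/-- An algebra of type `IsPZ` over `[0,1]` is `FreeInf`: put `ι 0 = inc`, `ι (j+1) = kap j`.
Reindex along `ℕ ≃ Option ℕ`. -/
theorem freeInf_of_PZ {P : Type*} [CStarAlgebra P] {tr : P →ₗ[ℂ] ℂ}
    {inc : C(unitInterval, ℂ) →⋆ₐ[ℂ] P} {kap : ℕ → C(unitInterval, ℂ) →⋆ₐ[ℂ] P}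
    (h : IsPZ (volume : Measure unitInterval) tr inc kap) :
    FreeInf P tr (fun j => Nat.casesOn j inc kap) where
  integral j f := by
    cases j with
    | zero => exact h.tr_inc f
    | succ j => exact h.tr_kap j f
  rfp := by
    have h1 := finalA_reindex finalAE h.rfp
    have h2 : (fun j => famZ inc kap (finalAE j)) =
        (fun j : ℕ => (Nat.casesOn j inc kap : C(unitInterval, ℂ) →⋆ₐ[ℂ] P).range) := by
      funext j
      cases j <;> rfl
    rw [h2] at h1
    exact h1

/-- Conversely a `FreeInf` algebra is of type `IsPZ` over `[0,1]` with `inc = ι 0`,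
`kap j = ι (j+1)`. -/
theorem PZ_of_freeInf {B : Type*} [CStarAlgebra B] {τ : B →ₗ[ℂ] ℂ}
    {ι : ℕ → C(unitInterval, ℂ) →⋆ₐ[ℂ] B} (h : FreeInf B τ ι) :
    IsPZ (volume : Measure unitInterval) τ (ι 0) (fun j => ι (j + 1)) where
  tr_inc a := h.integral 0 a
  tr_kap j f := h.integral (j + 1) f
  rfp := by
    have h1 := finalA_reindex finalAE.symm h.rfp
    have h2 : (fun o => (ι (finalAE.symm o)).range) = famZ (ι 0) (fun j => ι (j + 1)) := by
      funext o
      cases o <;> rfl
    rw [h2] at h1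
    exact h1

theorem finalA_gen {A C B P : Type*} [CStarAlgebra A] [CStarAlgebra B] [CStarAlgebra C]
    [CStarAlgebra P] (ι : ℕ → C →⋆ₐ[ℂ] B) (hι : (⨆ j, (ι j).range).topologicalClosure = ⊤)
    (a : A →⋆ₐ[ℂ] P) (b : B →⋆ₐ[ℂ] P)
    (hab : (⨆ i, ![a.range, b.range] i).topologicalClosure = ⊤)
    (K : StarSubalgebra ℂ P) (hK : IsClosed (K : Set P)) (ha : a.range ≤ K)
    (hb : ∀ j, (b.comp (ι j)).range ≤ K) : K = ⊤ := by
  have hbK : b.range ≤ K := by
    have hb' : (⊤ : StarSubalgebra ℂ B) ≤ K.comap b := by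
      rw [← hι]
      refine StarSubalgebra.topologicalClosure_minimal (iSup_le fun j => ?_) ?_
      · rintro _ ⟨x, rfl⟩
        exact hb j ⟨x, rfl⟩
      · have hcont : Continuous b :=
          AddMonoidHomClass.continuous_of_bound b 1 (fun x => by
            rw [one_mul]
            exact NonUnitalStarAlgHom.norm_apply_le b x)
        exact hK.preimage hcont
    rintro _ ⟨x, rfl⟩
    exact hb' (StarSubalgebra.mem_top (x := x))
  refine top_unique ?_
  rw [← hab]
  refine StarSubalgebra.topologicalClosure_minimal (iSup_le fun i => ?_) hK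
  fin_cases i
  · exact ha
  · exact hbK

/-- A `FreeProd` algebra over a `FreeInf` algebra is of type `IsPZ` over the cube, with
`kap j = b ∘ ι j`.

Proof. Integrals: `σ (b (ι j f)) = τ (ι j f) = ∫ f`. State, GNS: from `hP.rfp`. Freeness:
`free_refine_option` with `S = ![a.range, b.range]` and `T j = (b.comp (ι j)).range ≤ b.range`; the
family `T` is free for `σ` because the `(ι j).range` are free for `τ = σ ∘ b` (`free_push`).
Generation: the closure of `⨆` contains `a.range` and the closure of the algebra generated by the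
`b (ι j f)`, which contains `b.range` (`b` is continuous and the `ι j` generate `B`). -/
theorem PZ_of_freeProd {n : ℕ} {B P : Type*} [CStarAlgebra B] [CStarAlgebra P]
    {τ : B →ₗ[ℂ] ℂ} {ι : ℕ → C(unitInterval, ℂ) →⋆ₐ[ℂ] B} (hB : FreeInf B τ ι)
    {σ : P →ₗ[ℂ] ℂ} {a : C(Fin n → unitInterval, ℂ) →⋆ₐ[ℂ] P} {b : B →⋆ₐ[ℂ] P}
    (hP : FreeProd n τ P σ a b) :
    IsPZ (volume : Measure (Fin n → unitInterval)) σ a (fun j => b.comp (ι j)) where
  tr_inc f := hP.integral f
  tr_kap j f := by
    rw [← hB.integral j f, ← hP.state (ι j f)]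
    rfl
  rfp := by
    refine ⟨hP.rfp.st, ?_, ?_, hP.rfp.gns⟩
    · have hT : IsFree σ (fun j => (b.comp (ι j)).range) := by
        refine free_push σ b (fun j => (ι j).range) _ ?_ τ (fun x => (hP.state x).symm)
          hB.rfp.free
        rintro j _ ⟨x, rfl⟩
        exact ⟨ι j x, ⟨x, rfl⟩, rfl⟩
      have h1 := free_refine_option σ ![a.range, b.range] (fun j => (b.comp (ι j)).range)
        (by
          rintro j _ ⟨x, rfl⟩
          exact ⟨ι j x, rfl⟩) hP.rfp.free hT
      refine cast (congrArg (IsFree σ) ?_) h1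
      funext o
      cases o <;> rfl
    · refine finalA_gen ι hB.rfp.gen a b hP.rfp.gen _
        (StarSubalgebra.isClosed_topologicalClosure _) ?_ ?_
      · exact (le_iSup (famZ a (fun j => b.comp (ι j))) none).trans
          (StarSubalgebra.le_topologicalClosure _)
      · intro j
        exact (le_iSup (famZ a (fun j => b.comp (ι j))) (some j)).trans
          (StarSubalgebra.le_topologicalClosure _)

end H47
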