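import Pool.Agent.H.MP_47f0a1_an.Defs

/-!
# Freeness: closures
-/

namespace H47

variable {A I : Type*} [CStarAlgebra A]

omit [CStarAlgebra A] in
theorem freeclosure_chain (l' m : List (I × A)) (i : I) (x y : A)
    (h : (l' ++ (i, x) :: m).IsChain (fun p q => p.1 ≠ q.1)) :
    ((l' ++ [(i, y)]) ++ m).IsChain (fun p q => p.1 ≠ q.1) := by
  have h1 : ((l' ++ (i, x) :: m).map Prod.fst).IsChain (fun p q => p ≠ q) :=
    (List.isChain_map Prod.fst).mpr h
  have h2 : ((l' ++ (i, x) :: m).map Prod.fst) = (((l' ++ [(i, y)]) ++ m).map Prod.fst) := by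
    simp
  rw [h2] at h1
  exact (List.isChain_map Prod.fst).mp h1

theorem freeclosure_aux (φ : A →ₗ[ℂ] ℂ) (h1 : φ 1 = 1) (hc : Continuous φ)
    (S : I → StarSubalgebra ℂ A) (hS : IsFree φ S) :
    ∀ l l' : List (I × A), l' ++ l ≠ [] → (l' ++ l).IsChain (fun p q => p.1 ≠ q.1) →
      (∀ p ∈ l', p.2 ∈ S p.1 ∧ φ p.2 = 0) →
      (∀ p ∈ l, p.2 ∈ (S p.1).topologicalClosure ∧ φ p.2 = 0) →
      φ ((l' ++ l).map Prod.snd).prod = 0 := by
  intro l
  induction l with
  | nil =>
    intro l' hne hch h' _
    rw [List.append_nil] at hne hch ⊢
    exact hS l' hne hch h'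
  | cons p m ih =>
    obtain ⟨i, x⟩ := p
    intro l' _ hch h' hl
    have hx := hl (i, x) List.mem_cons_self
    have hm := fun p hp => hl p (List.mem_cons_of_mem _ hp)
    have key : ∀ z ∈ (S i).topologicalClosure,
        φ ((l'.map Prod.snd).prod * ((z - algebraMap ℂ A (φ z)) * (m.map Prod.snd).prod)) = 0 := by
      intro z hz
      refine closure_minimal (s := (S i : Set A))
        (t := {z | φ ((l'.map Prod.snd).prod *
          ((z - algebraMap ℂ A (φ z)) * (m.map Prod.snd).prod)) = 0}) ?_ ?_ hz
      · intro y hy
        have hy1 : y - algebraMap ℂ A (φ y) ∈ S i := sub_mem hy (algebraMap_mem (S i) _)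
        have hy2 : φ (y - algebraMap ℂ A (φ y)) = 0 := by
          rw [Algebra.algebraMap_eq_smul_one, map_sub, map_smul, h1, smul_eq_mul, mul_one,
            sub_self]
        have h := ih (l' ++ [(i, y - algebraMap ℂ A (φ y))]) (by simp)
          (freeclosure_chain l' m i x _ hch) (fun p hp => by
            rcases List.mem_append.mp hp with hp | hp
            · exact h' p hp
            · rw [List.mem_singleton] at hp
              subst hp
              exact ⟨hy1, hy2⟩) hm
        rw [List.append_assoc, List.singleton_append, List.map_append, List.prod_append,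
          List.map_cons, List.prod_cons] at h
        exact h
      · refine isClosed_eq (hc.comp ?_) continuous_const
        refine continuous_const.mul (Continuous.mul (continuous_id.sub ?_) continuous_const)
        exact (continuous_algebraMap ℂ A).comp hc
    have h := key x hx.1
    rw [hx.2, map_zero, sub_zero] at h
    rw [List.map_append, List.prod_append, List.map_cons, List.prod_cons]
    exact h

/-- The closures of the members of a free family are free, for a continuous functional with
`φ 1 = 1`.

Proof. A centred element `x` of the closure of `S i` is a limit of centred elements of `S i`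
(`xₙ - φ xₙ` with `xₙ → x`). Prove by induction on `l` (letters in closures) and for every list `l'`
with letters in the `S i` such that `l' ++ l` is alternating, centred and nonempty:
`φ (product of (l' ++ l)) = 0`: for `l = (i, x) :: m` write `x = lim xₙ`; the lists
`(l' ++ [(i, xₙ)]) ++ m` satisfy the induction hypothesis for `m`, and the product depends
continuously on the one letter `xₙ`. -/
theorem free_closure (φ : A →ₗ[ℂ] ℂ) (h1 : φ 1 = 1) (hc : Continuous φ)
    (S : I → StarSubalgebra ℂ A) (hS : IsFree φ S) :
    IsFree φ (fun i => (S i).topologicalClosure) := by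
  intro l hne hch hl
  exact freeclosure_aux φ h1 hc S hS l [] hne hch (fun p hp => absurd hp List.not_mem_nil) hl

end H47
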