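import Pool.Agent.H.MP_47f0a1_an.FreeSpan

/-!
# Freeness: associativity
-/

namespace H47

variable {A I J : Type*} [Ring A] [StarRing A] [Algebra ℂ A] [StarModule ℂ A]

/-- Values of alternating centred lists over `I` whose head group is the given one. -/
def freegroupW (φ : A →ₗ[ℂ] ℂ) (S : I → StarSubalgebra ℂ A) (k : I → J) (o : Option J) : Set A :=
  {w | ∃ m : List (I × A), m.IsChain (fun p q => p.1 ≠ q.1) ∧
    (∀ p ∈ m, p.2 ∈ S p.1 ∧ φ p.2 = 0) ∧ m.head?.map (fun p => k p.1) = o ∧
    w = (m.map Prod.snd).prod}

/-- Concatenation of a word over one group and of a word whose head group is different. -/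
theorem freegroup_cat (φ : A →ₗ[ℂ] ℂ) (S : I → StarSubalgebra ℂ A) (k : I → J) (j : J)
    (o : Option J) (ho : ∀ j' ∈ o, j ≠ j') (w₁ w₂ : A)
    (h₁ : w₁ ∈ cwords φ (fun i : {i // k i = j} => S i.1)) (h₂ : w₂ ∈ freegroupW φ S k o) :
    w₁ * w₂ ∈ freegroupW φ S k (some j) := by
  obtain ⟨m₁, hne, hc₁, hp₁, rfl⟩ := h₁
  obtain ⟨m₂, hc₂, hp₂, hh₂, rfl⟩ := h₂
  refine ⟨m₁.map (Prod.map Subtype.val id) ++ m₂, ?_, ?_, ?_, ?_⟩
  · rw [List.isChain_append]
    refine ⟨?_, hc₂, ?_⟩
    · rw [List.isChain_map]
      exact hc₁.imp (fun p q hpq => fun h => hpq (Subtype.ext h))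
    · intro x hx y hy hxy
      rw [List.getLast?_map, Option.mem_map] at hx
      obtain ⟨x', -, rfl⟩ := hx
      have hy' : k y.1 ∈ o := by
        rw [← hh₂]
        exact Option.mem_map_of_mem (fun p : I × A => k p.1) hy
      refine ho _ hy' ?_
      rw [← hxy]
      exact x'.1.2.symm
  · intro p hp
    rw [List.mem_append] at hp
    rcases hp with hp | hp
    · rw [List.mem_map] at hp
      obtain ⟨q, hq, rfl⟩ := hp
      exact hp₁ q hq
    · exact hp₂ p hp
  · cases m₁ with
    | nil => exact absurd rfl hne
    | cons q m =>
      simp only [List.map_cons, List.cons_append, List.head?_cons, Option.map_some, Prod.map_fst]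
      exact congrArg some q.1.2
  · rw [List.map_append, List.prod_append, List.map_map]
    rfl

/-- The product of a centred alternating list over the groups is a combination of words. -/
theorem freegroup_span (φ : A →ₗ[ℂ] ℂ) (h1 : φ 1 = 1) (S : I → StarSubalgebra ℂ A) (k : I → J)
    (hS : IsFree φ S) (l : List (J × A)) (hc : l.IsChain (fun p q => p.1 ≠ q.1))
    (hl : ∀ p ∈ l, p.2 ∈ (⨆ i : {i // k i = p.1}, S i.1) ∧ φ p.2 = 0) :
    (l.map Prod.snd).prod ∈
      Submodule.span ℂ (freegroupW φ S k (l.head?.map Prod.fst)) := by
  induction l with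
  | nil =>
    refine Submodule.subset_span ⟨[], List.isChain_nil, by simp, rfl, rfl⟩
  | cons q l ih =>
    have ih' := ih hc.tail (fun p hp => hl p (List.mem_cons_of_mem _ hp))
    have hq := hl q List.mem_cons_self
    have hfr : IsFree φ (fun i : {i // k i = q.1} => S i.1) := by
      intro m hm hmc hmp
      have h2 := hS (m.map (Prod.map Subtype.val id)) (by simpa using hm) (by
        rw [List.isChain_map]
        exact hmc.imp (fun p r hpr => fun h => hpr (Subtype.ext h))) (by
        intro p hp
        rw [List.mem_map] at hp
        obtain ⟨r, hr, rfl⟩ := hp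
        exact hmp r hr)
      rw [List.map_map] at h2
      exact h2
    have hx := span_words_free φ h1 (fun i : {i // k i = q.1} => S i.1) hfr q.2 hq.1
    rw [hq.2, map_zero, sub_zero] at hx
    rw [List.map_cons, List.prod_cons, List.head?_cons, Option.map_some]
    have hmul := Submodule.mul_mem_mul hx ih'
    rw [Submodule.span_mul_span] at hmul
    refine Submodule.span_mono ?_ hmul
    rintro w ⟨w₁, hw₁, w₂, hw₂, rfl⟩
    refine freegroup_cat φ S k q.1 _ ?_ w₁ w₂ hw₁ hw₂
    intro j' hj'
    cases l with
    | nil => simp at hj'
    | cons r l' =>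
      rw [List.isChain_cons_cons] at hc
      simp only [List.head?_cons, Option.map_some, Option.mem_def, Option.some.injEq] at hj'
      rw [← hj']
      exact hc.1

/-- Grouping the members of a free family gives a free family.

Proof. Let `l` be a nonempty alternating centred list over the groups. By `span_words_free`, applied
to the restricted family `S` on the group (index type `{i // k i = j}`; it is free by restriction;
its supremum is `⨆ i, ⨆ _ : k i = j, S i` by `iSup_subtype'`), every letter `x` (which has `φ x = 0`)
is a linear combination of values of nonempty alternating centred lists with indices in the group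
`j`. Prove by induction on `l`: for every alternating centred list `l` over the groups the product
is a linear combination of values of alternating centred lists `m` over `I` such that, if `l` is
nonempty, `m` is nonempty and the head index of `m` lies in the head group of `l`. In the induction
step the concatenation `m₁ ++ m₂` of a list over the first group and of a list whose head index lies
in the (different) second group is alternating. Finally `φ` vanishes on the values of nonempty lists
by `hS`. -/
theorem free_group (φ : A →ₗ[ℂ] ℂ) (h1 : φ 1 = 1) (S : I → StarSubalgebra ℂ A) (k : I → J)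
    (hS : IsFree φ S) : IsFree φ (fun j : J => ⨆ i : {i // k i = j}, S i.1) := by
  intro l hl hc hp
  have h := freegroup_span φ h1 S k hS l hc hp
  have hle : Submodule.span ℂ (freegroupW φ S k (l.head?.map Prod.fst)) ≤ LinearMap.ker φ := by
    rw [Submodule.span_le]
    rintro w ⟨m, hm1, hm2, hm3, rfl⟩
    refine hS m ?_ hm1 hm2
    rintro rfl
    cases l with
    | nil => exact hl rfl
    | cons q l => simp at hm3
  exact hle h

end H47
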