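import Pool.Agent.H.MP_47f0a1_an.Defs

/-!
# Diagonal operators on a Hilbert sum of copies of a Hilbert space
-/

open scoped InnerProductSpace

namespace H47

theorem fock1_memlp (W H : Type) [NormedAddCommGroup H] [InnerProductSpace ℂ H]
    (x : H →L[ℂ] H) (ξ : lp (fun _ : W => H) 2) :
    Memℓp (fun w : W => x ((ξ : W → H) w)) 2 := by
  have h0 : (0 : ℝ) < (2 : ENNReal).toReal := by norm_num
  have h1 := lp.memℓp ξ
  rw [memℓp_gen_iff h0] at h1 ⊢
  refine Summable.of_nonneg_of_le (fun w => by positivity) (fun w => ?_)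
    (h1.mul_left (‖x‖ ^ (2 : ENNReal).toReal))
  rw [← Real.mul_rpow (norm_nonneg _) (norm_nonneg _)]
  exact Real.rpow_le_rpow (norm_nonneg _) (x.le_opNorm _) h0.le

/-- The diagonal operator as a linear map. -/
noncomputable def fock1Lin (W H : Type) [NormedAddCommGroup H] [InnerProductSpace ℂ H]
    (x : H →L[ℂ] H) : lp (fun _ : W => H) 2 →ₗ[ℂ] lp (fun _ : W => H) 2 where
  toFun ξ := ⟨fun w => x ((ξ : W → H) w), fock1_memlp W H x ξ⟩
  map_add' ξ η := by
    apply lp.ext
    funext w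
    simp
  map_smul' c ξ := by
    apply lp.ext
    funext w
    simp

theorem fock1_bound (W H : Type) [NormedAddCommGroup H] [InnerProductSpace ℂ H]
    (x : H →L[ℂ] H) (ξ : lp (fun _ : W => H) 2) :
    ‖fock1Lin W H x ξ‖ ≤ ‖x‖ * ‖ξ‖ := by
  have h0 : (0 : ℝ) < (2 : ENNReal).toReal := by norm_num
  refine lp.norm_le_of_forall_sum_le h0 (by positivity) (fun s => ?_)
  have h2 : ∀ w ∈ s, ‖(fock1Lin W H x ξ : W → H) w‖ ^ (2 : ENNReal).toReal ≤
      ‖x‖ ^ (2 : ENNReal).toReal * ‖(ξ : W → H) w‖ ^ (2 : ENNReal).toReal := by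
    intro w _
    rw [← Real.mul_rpow (norm_nonneg _) (norm_nonneg _)]
    exact Real.rpow_le_rpow (norm_nonneg _) (x.le_opNorm _) h0.le
  refine (Finset.sum_le_sum h2).trans ?_
  rw [← Finset.mul_sum, Real.mul_rpow (norm_nonneg _) (norm_nonneg _)]
  exact mul_le_mul_of_nonneg_left (lp.sum_rpow_le_norm_rpow h0 ξ s) (by positivity)

/-- The diagonal operator. -/
noncomputable def fock1Clm (W H : Type) [NormedAddCommGroup H] [InnerProductSpace ℂ H]
    (x : H →L[ℂ] H) : lp (fun _ : W => H) 2 →L[ℂ] lp (fun _ : W => H) 2 :=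
  (fock1Lin W H x).mkContinuous ‖x‖ (fock1_bound W H x)

theorem fock1Clm_apply (W H : Type) [NormedAddCommGroup H] [InnerProductSpace ℂ H]
    (x : H →L[ℂ] H) (ξ : lp (fun _ : W => H) 2) (w : W) :
    (fock1Clm W H x ξ : W → H) w = x ((ξ : W → H) w) := rfl

/-- The diagonal representation of `B(H)` on `ℓ²(W; H)`.

Proof. For `ξ ∈ lp (fun _ : W => H) 2` the family `w ↦ x (ξ w)` is in `lp`, because
`‖x (ξ w)‖ ≤ ‖x‖ ‖ξ w‖` (`Memℓp`, comparison), and the map is linear with bound `‖x‖`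
(`lp.norm_rpow_eq_tsum` or `lp.norm_le_of_forall_sum_le`; or: `lp.inner_eq_tsum` and
`‖ξ‖² = ∑ ‖ξ w‖²`). Multiplicativity, linearity are checked pointwise (`lp.ext`). For the star:
`star (D x) = D (star x)` by `ContinuousLinearMap.eq_adjoint_iff` and
`⟪D x ξ, η⟫ = ∑ ⟪x (ξ w), η w⟫ = ∑ ⟪ξ w, x* (η w)⟫` (`lp.inner_eq_tsum`,
`ContinuousLinearMap.adjoint_inner_right`). -/
theorem exists_diag (W H : Type) [NormedAddCommGroup H] [InnerProductSpace ℂ H]
    [CompleteSpace H] :
    ∃ D : (H →L[ℂ] H) →⋆ₐ[ℂ] (lp (fun _ : W => H) 2 →L[ℂ] lp (fun _ : W => H) 2),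
      ∀ x (ξ : lp (fun _ : W => H) 2) (w : W), (D x ξ : W → H) w = x ((ξ : W → H) w) := by
  refine ⟨{ toFun := fun x => fock1Clm W H x
            map_one' := ?_
            map_mul' := ?_
            map_zero' := ?_
            map_add' := ?_
            commutes' := ?_
            map_star' := ?_ }, fun x ξ w => rfl⟩
  · ext ξ w
    rw [fock1Clm_apply]
    rfl
  · intro x y
    ext ξ w
    rw [fock1Clm_apply, mul_apply_eq_comp, mul_apply_eq_comp,
      fock1Clm_apply, fock1Clm_apply]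
  · ext ξ w
    rw [fock1Clm_apply]
    rfl
  · intro x y
    ext ξ w
    rw [fock1Clm_apply]
    simp [fock1Clm_apply]
  · intro c
    ext ξ w
    rw [fock1Clm_apply]
    simp [Algebra.algebraMap_eq_smul_one]
  · intro x
    rw [ContinuousLinearMap.star_eq_adjoint, ContinuousLinearMap.star_eq_adjoint,
      ContinuousLinearMap.eq_adjoint_iff]
    intro ξ η
    rw [lp.inner_eq_tsum, lp.inner_eq_tsum]
    refine tsum_congr (fun w => ?_)
    rw [fock1Clm_apply, fock1Clm_apply, ContinuousLinearMap.adjoint_inner_left]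

end H47
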