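import Pool.Agent.H.MP_47f0a1_an.Fock2

/-!
# The relations of the creation operators
-/

open scoped InnerProductSpace

namespace H47

variable {E H : Type} [NormedAddCommGroup H] [InnerProductSpace ℂ H] [CompleteSpace H]

/-- `ℓ_i* D(x) ℓ_j = δ_{ij} ⟨ζ, x ζ⟩`.

Proof. It suffices (`ContinuousLinearMap.ext`, `ext_inner_left`) that
`⟪T_i η, D (T_j ξ)⟫ = δ_{ij} ⟪ζ, x ζ⟫ ⟪η, ξ⟫` for all `ξ, η`. By `lp.inner_eq_tsum` the left side is
`∑_v ⟪creFun i η v, x (creFun j ξ v)⟫`, the summand vanishes unless `v = (i, e) :: w` and `i = j`,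
and then it is `conj ⟪b e, η w⟫ ⟪b e, ξ w⟫ ⟪ζ, x ζ⟫ = ⟪η w, b e⟫ ⟪b e, ξ w⟫ ⟪ζ, x ζ⟫`, whose sum over
`e` is `⟪η w, ξ w⟫ ⟪ζ, x ζ⟫` (`HilbertBasis.hasSum_inner_mul_inner`); use
`hasSum_words_complex` (`lp.summable_inner` gives the summability). -/
theorem cre_rel (b : HilbertBasis E ℂ H) (ζ : H) (hζ : ‖ζ‖ = 1) (i j : ℕ)
    (Ti Tj D : lp (fun _ : List (ℕ × E) => H) 2 →L[ℂ] lp (fun _ : List (ℕ × E) => H) 2)
    (hTi : ∀ ξ, ((Ti ξ : lp (fun _ : List (ℕ × E) => H) 2) : List (ℕ × E) → H)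
        = creFun b ζ i ((ξ : lp (fun _ : List (ℕ × E) => H) 2) : List (ℕ × E) → H))
    (hTj : ∀ ξ, ((Tj ξ : lp (fun _ : List (ℕ × E) => H) 2) : List (ℕ × E) → H)
        = creFun b ζ j ((ξ : lp (fun _ : List (ℕ × E) => H) 2) : List (ℕ × E) → H))
    (x : H →L[ℂ] H)
    (hD : ∀ (ξ : lp (fun _ : List (ℕ × E) => H) 2) w, (D ξ : List (ℕ × E) → H) w
      = x ((ξ : List (ℕ × E) → H) w)) :
    star Ti * D * Tj = if i = j then
      algebraMap ℂ (lp (fun _ : List (ℕ × E) => H) 2 →L[ℂ] lp (fun _ : List (ℕ × E) => H) 2)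
        ⟪ζ, x ζ⟫_ℂ else 0 := by
  refine ContinuousLinearMap.ext fun ξ => ext_inner_left ℂ fun η => ?_
  have hL : ⟪η, (star Ti * D * Tj) ξ⟫_ℂ
      = ∑' v, ⟪creFun b ζ i ((η : lp (fun _ : List (ℕ × E) => H) 2) : List (ℕ × E) → H) v,
          x (creFun b ζ j ((ξ : lp (fun _ : List (ℕ × E) => H) 2) : List (ℕ × E) → H) v)⟫_ℂ := by
    rw [ContinuousLinearMap.mul_apply, ContinuousLinearMap.mul_apply,
      ContinuousLinearMap.star_eq_adjoint, ContinuousLinearMap.adjoint_inner_right,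
      lp.inner_eq_tsum]
    refine tsum_congr fun v => ?_
    rw [hD, hTi, hTj]
  have hS : Summable fun v => ⟪creFun b ζ i ((η : lp (fun _ : List (ℕ × E) => H) 2) :
      List (ℕ × E) → H) v,
          x (creFun b ζ j ((ξ : lp (fun _ : List (ℕ × E) => H) 2) : List (ℕ × E) → H) v)⟫_ℂ := by
    have h := lp.summable_inner (𝕜 := ℂ) (Ti η) (D (Tj ξ))
    refine h.congr fun v => ?_
    rw [hD, hTi, hTj]
  rw [hL]
  by_cases hij : i = j
  · subst hij
    rw [if_pos rfl]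
    rw [hasSum_words_complex i _ (fun w => ⟪(η : List (ℕ × E) → H) w, (ξ : List (ℕ × E) → H) w⟫_ℂ
      * ⟪ζ, x ζ⟫_ℂ) ?_ ?_ hS ?_]
    · rw [tsum_mul_right, ← lp.inner_eq_tsum, Algebra.algebraMap_eq_smul_one,
        ContinuousLinearMap.smul_apply, ContinuousLinearMap.one_apply, inner_smul_right, mul_comm]
    · simp [creFun]
    · intro k e w hk
      simp [creFun, hk]
    · intro w
      have h := (b.hasSum_inner_mul_inner ((η : List (ℕ × E) → H) w)
        ((ξ : List (ℕ × E) → H) w)).mul_right ⟪ζ, x ζ⟫_ℂ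
      refine h.congr_fun ?_
      intro e
      simp only [creFun, if_true, map_smul, inner_smul_left, inner_smul_right, inner_conj_symm]
      ring
  · rw [if_neg hij]
    have h0 : ∀ v, ⟪creFun b ζ i ((η : lp (fun _ : List (ℕ × E) => H) 2) : List (ℕ × E) → H) v,
          x (creFun b ζ j ((ξ : lp (fun _ : List (ℕ × E) => H) 2) : List (ℕ × E) → H) v)⟫_ℂ
          = 0 := by
      intro v
      match v with
      | [] => simp [creFun]
      | (k, e) :: w =>
        by_cases hk : k = i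
        · subst hk
          simp [creFun, hij]
        · simp [creFun, hk]
    simp [h0]

/-- `ℓ_i*` kills the vectors supported at the empty word. Proof: `⟪T_i η, ξ⟫ = 0` for all `η`, since
`T_i η` vanishes at the empty word. -/
theorem cre_star_nil (b : HilbertBasis E ℂ H) (ζ : H) (i : ℕ)
    (Ti : lp (fun _ : List (ℕ × E) => H) 2 →L[ℂ] lp (fun _ : List (ℕ × E) => H) 2)
    (hTi : ∀ ξ, ((Ti ξ : lp (fun _ : List (ℕ × E) => H) 2) : List (ℕ × E) → H)
        = creFun b ζ i ((ξ : lp (fun _ : List (ℕ × E) => H) 2) : List (ℕ × E) → H))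
    (ξ : lp (fun _ : List (ℕ × E) => H) 2) (hξ : ∀ v : List (ℕ × E), v ≠ [] →
      (ξ : List (ℕ × E) → H) v = 0) : (star Ti) ξ = 0 := by
  refine ext_inner_left ℂ fun η => ?_
  rw [ContinuousLinearMap.star_eq_adjoint, ContinuousLinearMap.adjoint_inner_right,
    lp.inner_eq_tsum, inner_zero_right]
  have h0 : ∀ v, ⟪((Ti η : lp (fun _ : List (ℕ × E) => H) 2) : List (ℕ × E) → H) v,
      (ξ : List (ℕ × E) → H) v⟫_ℂ = 0 := by
    intro v
    by_cases hv : v = []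
    · subst hv
      rw [hTi]
      simp [creFun]
    · rw [hξ v hv, inner_zero_right]
  simp [h0]

end H47
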