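import Pool.Agent.H.MP_47f0a1_an.ModelR

/-!
# Fock models: a criterion for cyclicity
-/

open scoped InnerProductSpace

namespace H47
namespace FModel

variable {A : Type*} [Ring A] [StarRing A] [Algebra ℂ A] [StarModule ℂ A]
  {τ : A →ₗ[ℂ] ℂ} {K : Type*} [NormedAddCommGroup K] [InnerProductSpace ℂ K]
  [CompleteSpace K] (M : FModel A τ K)

/-- The set `{x Ω : x ∈ E univ}` as a submodule. -/
def modelcW : Submodule ℂ K where
  carrier := {ξ | ∃ x ∈ M.E Set.univ, x M.Om = ξ}
  add_mem' := by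
    rintro _ _ ⟨x, hx, rfl⟩ ⟨y, hy, rfl⟩
    exact ⟨x + y, add_mem hx hy, rfl⟩
  zero_mem' := ⟨0, zero_mem _, rfl⟩
  smul_mem' := by
    rintro c _ ⟨x, hx, rfl⟩
    exact ⟨c • x, SMulMemClass.smul_mem c hx, rfl⟩

theorem modelcW_apply {y : K →L[ℂ] K} (hy : y ∈ M.E Set.univ) {ξ : K} (h : ξ ∈ M.modelcW) :
    y ξ ∈ M.modelcW := by
  obtain ⟨x, hx, rfl⟩ := h
  exact ⟨y * x, mul_mem hy hx, rfl⟩

theorem modelc_word {X : K →L[ℂ] K} (hX : M.CWord Set.univ X) :
    X M.Om ∈ M.modelcW ∧ ∀ j, (star (M.ell j)) (X M.Om) ∈ M.modelcW := by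
  induction hX with
  | base a =>
    refine ⟨⟨M.inc a, M.inc_mem _ a, rfl⟩, fun j => ?_⟩
    rw [M.ell_Om]
    exact M.modelcW.zero_mem
  | step a i hi X hX ih =>
    obtain ⟨h1, h2⟩ := ih
    have h3 : M.ell i (X M.Om) ∈ M.modelcW := by
      have h4 : M.ell i (X M.Om) = M.s i (X M.Om) - (star (M.ell i)) (X M.Om) := by
        have h5 : M.s i (X M.Om) = M.ell i (X M.Om) + (star (M.ell i)) (X M.Om) := rfl
        rw [h5, add_sub_cancel_right]
      rw [h4]
      exact M.modelcW.sub_mem (M.modelcW_apply (M.s_mem _ i (Set.mem_univ i)) h1) (h2 i)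
    refine ⟨M.modelcW_apply (M.inc_mem _ a) h3, fun j => ?_⟩
    have h6 : (star (M.ell j)) ((M.inc a * M.ell i * X) M.Om)
        = (star (M.ell j) * M.inc a * M.ell i) (X M.Om) := rfl
    rw [h6, M.ell_inc_ell]
    split_ifs with hji
    · rw [Algebra.algebraMap_eq_smul_one]
      exact M.modelcW.smul_mem _ h1
    · exact M.modelcW.zero_mem

/-- If the creation words applied to the vacuum span a dense subspace then the model is cyclic.

Proof. Let `V` be the closure of `{x Ω : x ∈ E univ}`, a closed subspace which is invariant under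
`E univ`. Prove by strong induction on the number of creation operators of a word `X` that
`X Ω ∈ V`: for `X = inc a` clear. For `X = inc a * ℓ_j * X'`, by induction `X' Ω ∈ V` and
`ℓ_j X' Ω = s_j X' Ω - ℓ_j* X' Ω`; here `ℓ_j* X' Ω` is `0` if `X' = inc b` (`ell_Om`) and
`δ τ(b) X'' Ω` if `X' = inc b * ℓ_i * X''` (`ell_inc_ell`), where `X''` is a shorter word. -/
theorem cyclic_of_words
    (h : closure (Submodule.span ℂ {ξ : K | ∃ X, M.CWord Set.univ X ∧ X M.Om = ξ} : Set K)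
      = Set.univ) : M.Cyclic := by
  have h1 : Submodule.span ℂ {ξ : K | ∃ X, M.CWord Set.univ X ∧ X M.Om = ξ} ≤ M.modelcW := by
    rw [Submodule.span_le]
    rintro _ ⟨X, hX, rfl⟩
    exact (M.modelc_word hX).1
  have h2 : closure (Submodule.span ℂ {ξ : K | ∃ X, M.CWord Set.univ X ∧ X M.Om = ξ} : Set K) ⊆
      closure {ξ | ∃ x ∈ M.E Set.univ, x M.Om = ξ} := closure_mono h1
  rw [h] at h2
  exact Set.eq_univ_of_univ_subset h2

end FModel
end H47
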