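import Pool.Agent.H.MP_47f0a1_an.Model

/-!
# Fock models: compression of the algebra by creation operators with new labels
-/

open scoped InnerProductSpace

namespace H47
namespace FModel

variable {A : Type*} [Ring A] [StarRing A] [Algebra ℂ A] [StarModule ℂ A]
  {τ : A →ₗ[ℂ] ℂ} {K : Type*} [NormedAddCommGroup K] [InnerProductSpace ℂ K]
  [CompleteSpace K] (M : FModel A τ K)

/-- Creation words with labels in `S`: `inc a₀ · ℓ_{j₁} · inc a₁ ⋯ ℓ_{jₚ} · inc aₚ`. -/
inductive CWord (S : Set ℕ) : (K →L[ℂ] K) → Prop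
  | base (a : A) : CWord S (M.inc a)
  | step (a : A) (j : ℕ) (hj : j ∈ S) (X : K →L[ℂ] K) (hX : CWord S X) :
      CWord S (M.inc a * M.ell j * X)

/-- The span of the operators `X Y*`, `X, Y` creation words with labels in `S`. -/
def NW (S : Set ℕ) : Submodule ℂ (K →L[ℂ] K) :=
  Submodule.span ℂ {z | ∃ X Y, M.CWord S X ∧ M.CWord S Y ∧ z = X * star Y}

variable {M}

theorem modelR_mul_inc {S : Set ℕ} {Y : K →L[ℂ] K} (hY : M.CWord S Y) (c : A) :
    M.CWord S (Y * M.inc c) := by
  induction hY with
  | base b =>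
    rw [← map_mul]
    exact CWord.base _
  | step a j hj X hX ih =>
    rw [mul_assoc]
    exact CWord.step a j hj _ ih

theorem modelR_mul_ell {S : Set ℕ} {Y : K →L[ℂ] K} (hY : M.CWord S Y) (c : A) {j : ℕ}
    (hj : j ∈ S) : M.CWord S (Y * (M.inc c * M.ell j)) := by
  induction hY with
  | base b =>
    have h := CWord.step (M := M) (S := S) (b * c) j hj (M.inc 1) (CWord.base 1)
    rw [map_one, mul_one, map_mul, mul_assoc] at h
    exact h
  | step a i hi X hX ih =>
    rw [mul_assoc]
    exact CWord.step a i hi _ ih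

theorem modelR_inc_mul {S : Set ℕ} {X : K →L[ℂ] K} (hX : M.CWord S X) (a : A) :
    M.CWord S (M.inc a * X) := by
  cases hX with
  | base b =>
    rw [← map_mul]
    exact CWord.base _
  | step b j hj X hX =>
    rw [← mul_assoc, ← mul_assoc, ← map_mul]
    exact CWord.step _ j hj X hX

theorem modelR_ell_mul {S : Set ℕ} {X : K →L[ℂ] K} (hX : M.CWord S X) {j : ℕ} (hj : j ∈ S) :
    M.CWord S (M.ell j * X) := by
  have h := CWord.step (M := M) (S := S) 1 j hj X hX
  rwa [map_one, one_mul] at h

theorem modelR_star_ell {S : Set ℕ} {X Y : K →L[ℂ] K} (hX : M.CWord S X) (hY : M.CWord S Y)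
    {j : ℕ} (hj : j ∈ S) : star (M.ell j) * (X * star Y) ∈ M.NW S := by
  cases hX with
  | base a =>
    refine Submodule.subset_span ⟨M.inc 1, _, CWord.base 1, modelR_mul_ell hY (star a) hj, ?_⟩
    rw [map_one, one_mul, star_mul, star_mul, map_star, star_star, mul_assoc]
  | step a i hi X hX =>
    have h : star (M.ell j) * (M.inc a * M.ell i * X * star Y) =
        (star (M.ell j) * M.inc a * M.ell i) * (X * star Y) := by
      simp only [mul_assoc]
    rw [h, M.ell_inc_ell]
    split_ifs with hji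
    · rw [← Algebra.smul_def]
      exact (M.NW S).smul_mem _ (Submodule.subset_span ⟨X, Y, hX, hY, rfl⟩)
    · rw [zero_mul]
      exact (M.NW S).zero_mem

/-- Left multiplication, stated on the generators of the span. -/
theorem modelR_left {S : Set ℕ} {b : K →L[ℂ] K}
    (h : ∀ X Y, M.CWord S X → M.CWord S Y → b * (X * star Y) ∈ M.NW S) (x : K →L[ℂ] K)
    (hx : x ∈ M.NW S) : b * x ∈ M.NW S := by
  induction hx using Submodule.span_induction with
  | mem z hz =>
    obtain ⟨X, Y, hX, hY, rfl⟩ := hz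
    exact h X Y hX hY
  | zero =>
    rw [mul_zero]
    exact (M.NW S).zero_mem
  | add x y _ _ h1 h2 =>
    rw [mul_add]
    exact (M.NW S).add_mem h1 h2
  | smul c x _ h1 =>
    rw [mul_smul_comm]
    exact (M.NW S).smul_mem _ h1

theorem modelR_inc {S : Set ℕ} (a : A) (x : K →L[ℂ] K) (hx : x ∈ M.NW S) :
    M.inc a * x ∈ M.NW S := by
  refine modelR_left (fun X Y hX hY => ?_) x hx
  rw [← mul_assoc]
  exact Submodule.subset_span ⟨_, Y, modelR_inc_mul hX a, hY, rfl⟩

theorem modelR_s {S : Set ℕ} {j : ℕ} (hj : j ∈ S) (x : K →L[ℂ] K) (hx : x ∈ M.NW S) :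
    M.s j * x ∈ M.NW S := by
  refine modelR_left (fun X Y hX hY => ?_) x hx
  rw [s, add_mul]
  refine (M.NW S).add_mem ?_ (modelR_star_ell hX hY hj)
  rw [← mul_assoc]
  exact Submodule.subset_span ⟨_, Y, modelR_ell_mul hX hj, hY, rfl⟩

theorem modelR_s_star (j : ℕ) : star (M.s j) = M.s j := by
  rw [s, star_add, star_star, add_comm]

/-- `Y* Ω = 0` if `Y` has a creation operator. -/
theorem modelR_star_Om (a : A) (j : ℕ) (X : K →L[ℂ] K) :
    (star (M.inc a * M.ell j * X)) M.Om = 0 := by
  have h : star (M.inc a * M.ell j * X) = star X * (star (M.ell j) * M.inc (star a)) := by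
    rw [star_mul, star_mul, map_star]
  rw [h]
  show (star X) ((star (M.ell j)) (M.inc (star a) M.Om)) = 0
  rw [M.ell_Om, map_zero]

theorem modelR_st (X Y : K →L[ℂ] K) :
    M.st (X * star Y) = ⟪(star X) M.Om, (star Y) M.Om⟫_ℂ := by
  rw [st_apply]
  show ⟪M.Om, X ((star Y) M.Om)⟫_ℂ = _
  rw [ContinuousLinearMap.star_eq_adjoint X, ContinuousLinearMap.adjoint_inner_left]

theorem modelR_cword_kill {S : Set ℕ} {j : ℕ} (hj : j ∉ S) {X : K →L[ℂ] K} (hX : M.CWord S X) :
    (star (M.ell j)) (X M.Om) = 0 := by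
  cases hX with
  | base a => exact M.ell_Om j a
  | step a i hi X hX =>
    have hji : ¬ j = i := fun h => hj (h ▸ hi)
    have h := M.ell_inc_ell j i a
    rw [if_neg hji] at h
    have h2 : (star (M.ell j) * M.inc a * M.ell i) (X M.Om) = 0 := by
      rw [h]
      rfl
    exact h2

variable (M)

/-- The algebraic part: `adjoin (range inc ∪ s '' S) ⊆ NW S`.

Proof. `NW S` is stable under left multiplication by `inc a` (clear), by `ℓ_j`, `j ∈ S`
(`ℓ_j X = inc 1 * ℓ_j * X`), and by `ℓ_j*`, `j ∈ S`: if `X = inc a * ℓ_i * X'` then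
`ℓ_j* X Y* = δ_{ij} τ(a) X' Y*` (`ell_inc_ell`); if `X = inc a` then
`ℓ_j* inc a Y* = (Y * inc (a*) * ℓ_j)*` and `Y * inc (a*) * ℓ_j` is a creation word with labels in
`S`: prove by induction on `Y` that `Y * inc c` and `Y * inc c * ℓ_j` are creation words (for the
base `inc b * inc c * ℓ_j = inc (b c) * ℓ_j * inc 1`). As `1 = inc 1 * star (inc 1) ∈ NW S`, the set
of `b` such that `b` and `star b` map `NW S` into itself by left multiplication is a star subalgebra
which contains the generators, hence the adjoined algebra; apply to `1`. -/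
theorem adjoin_le_NW (S : Set ℕ) (x : K →L[ℂ] K)
    (hx : x ∈ StarAlgebra.adjoin ℂ (Set.range M.inc ∪ M.s '' S)) : x ∈ M.NW S := by
  have key : (∀ y ∈ M.NW S, x * y ∈ M.NW S) ∧ (∀ y ∈ M.NW S, star x * y ∈ M.NW S) := by
    induction hx using StarAlgebra.adjoin_induction with
    | mem b hb =>
      rcases hb with ⟨a, rfl⟩ | ⟨j, hj, rfl⟩
      · refine ⟨fun y hy => modelR_inc a y hy, fun y hy => ?_⟩
        rw [← map_star]
        exact modelR_inc (star a) y hy
      · refine ⟨fun y hy => modelR_s hj y hy, fun y hy => ?_⟩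
        rw [modelR_s_star]
        exact modelR_s hj y hy
    | algebraMap c =>
      refine ⟨fun y hy => ?_, fun y hy => ?_⟩
      · rw [← Algebra.smul_def]
        exact (M.NW S).smul_mem _ hy
      · rw [← algebraMap_star_comm, ← Algebra.smul_def]
        exact (M.NW S).smul_mem _ hy
    | add b d _ _ h1 h2 =>
      refine ⟨fun y hy => ?_, fun y hy => ?_⟩
      · rw [add_mul]
        exact (M.NW S).add_mem (h1.1 y hy) (h2.1 y hy)
      · rw [star_add, add_mul]
        exact (M.NW S).add_mem (h1.2 y hy) (h2.2 y hy)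
    | mul b d _ _ h1 h2 =>
      refine ⟨fun y hy => ?_, fun y hy => ?_⟩
      · rw [mul_assoc]
        exact h1.1 _ (h2.1 y hy)
      · rw [star_mul, mul_assoc]
        exact h2.2 _ (h1.2 y hy)
    | star b _ h1 =>
      refine ⟨h1.2, fun y hy => ?_⟩
      rw [star_star]
      exact h1.1 y hy
  have h1 : (1 : K →L[ℂ] K) ∈ M.NW S := by
    refine Submodule.subset_span ⟨M.inc 1, M.inc 1, CWord.base 1, CWord.base 1, ?_⟩
    rw [map_one, star_one, one_mul]
  have h2 := key.1 1 h1
  rwa [mul_one] at h2

/-- Compression formula for the span. For `x = X Y*`: if `X` has a creation operator, then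
`ℓ_i* X = 0` (`i ∉ S`, `ell_inc_ell`), and `X* Ω = 0`-type identities give `st (X Y*) = 0`
(`st (X Y*) = ⟨X* Ω, Y* Ω⟩` and `X* Ω = X'* ℓ_j* inc(a*) Ω = 0` by `ell_Om`); the same for `Y`;
if `X = inc a` and `Y = inc b` then both sides are `δ_{ij} τ (a b*)`. -/
theorem compress_NW (S : Set ℕ) (i j : ℕ) (hi : i ∉ S) (hj : j ∉ S) (x : K →L[ℂ] K)
    (hx : x ∈ M.NW S) :
    star (M.ell i) * x * M.ell j = if i = j then algebraMap ℂ (K →L[ℂ] K) (M.st x) else 0 := by
  induction hx using Submodule.span_induction with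
  | mem z hz =>
    obtain ⟨X, Y, hX, hY, rfl⟩ := hz
    cases hX with
    | step a k hk X hX =>
      have hik : ¬ i = k := fun h => hi (h ▸ hk)
      have h1 := M.ell_inc_ell i k a
      rw [if_neg hik] at h1
      have h2 : star (M.ell i) * (M.inc a * M.ell k * X * star Y) * M.ell j =
          (star (M.ell i) * M.inc a * M.ell k) * (X * star Y * M.ell j) := by
        simp only [mul_assoc]
      rw [h2, h1, zero_mul, modelR_st, modelR_star_Om, inner_zero_left, map_zero, ite_self]
    | base a =>
      cases hY with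
      | step b k hk Y hY =>
        have hkj : ¬ k = j := fun h => hj (h ▸ hk)
        have h1 := M.ell_inc_ell k j (star b)
        rw [if_neg hkj] at h1
        have h2 : star (M.ell i) * (M.inc a * star (M.inc b * M.ell k * Y)) * M.ell j =
            (star (M.ell i) * M.inc a * star Y) * (star (M.ell k) * M.inc (star b) * M.ell j) := by
          rw [star_mul, star_mul, ← map_star]
          simp only [mul_assoc]
        rw [h2, h1, mul_zero, modelR_st, modelR_star_Om, inner_zero_right, map_zero, ite_self]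
      | base b =>
        rw [← map_star, ← map_mul, M.ell_inc_ell, M.st_inc]
  | zero => rw [mul_zero, zero_mul, map_zero, map_zero, ite_self]
  | add x y _ _ h1 h2 =>
    rw [mul_add, add_mul, h1, h2, map_add, map_add]
    split_ifs
    · rfl
    · rw [add_zero]
  | smul c x _ h1 =>
    rw [mul_smul_comm, smul_mul_assoc, h1, map_smul]
    split_ifs
    · rw [smul_eq_mul, map_mul, Algebra.smul_def]
    · rw [smul_zero]

/-- Similarly `ℓ_j* x Ω = 0`. -/
theorem kill_NW (S : Set ℕ) (j : ℕ) (hj : j ∉ S) (x : K →L[ℂ] K) (hx : x ∈ M.NW S) :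
    (star (M.ell j)) (x M.Om) = 0 := by
  induction hx using Submodule.span_induction with
  | mem z hz =>
    obtain ⟨X, Y, hX, hY, rfl⟩ := hz
    cases hY with
    | step b k hk Y hY =>
      show (star (M.ell j)) (X ((star (M.inc b * M.ell k * Y)) M.Om)) = 0
      rw [modelR_star_Om, map_zero, map_zero]
    | base b =>
      rw [← map_star]
      exact modelR_cword_kill hj (modelR_mul_inc hX (star b))
  | zero =>
    show (star (M.ell j)) 0 = 0
    rw [map_zero]
  | add x y _ _ h1 h2 =>
    rw [ContinuousLinearMap.add_apply, map_add, h1, h2, add_zero]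
  | smul c x _ h1 =>
    rw [ContinuousLinearMap.smul_apply, map_smul, h1, smul_zero]

/-- The compression formula on `E S`. Proof: both sides are continuous in `x`. -/
theorem compress (S : Set ℕ) (i j : ℕ) (hi : i ∉ S) (hj : j ∉ S) (x : K →L[ℂ] K)
    (hx : x ∈ M.E S) :
    star (M.ell i) * x * M.ell j = if i = j then algebraMap ℂ (K →L[ℂ] K) (M.st x) else 0 := by
  have hc : IsClosed {x : K →L[ℂ] K | star (M.ell i) * x * M.ell j =
      if i = j then algebraMap ℂ (K →L[ℂ] K) (M.st x) else 0} := by
    refine isClosed_eq ((continuous_const.mul continuous_id).mul continuous_const) ?_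
    split_ifs
    · exact (continuous_algebraMap ℂ (K →L[ℂ] K)).comp M.st_continuous
    · exact continuous_const
  exact closure_minimal (fun y hy => M.compress_NW S i j hi hj y (M.adjoin_le_NW S y hy)) hc hx

theorem kill (S : Set ℕ) (j : ℕ) (hj : j ∉ S) (x : K →L[ℂ] K) (hx : x ∈ M.E S) :
    (star (M.ell j)) (x M.Om) = 0 := by
  have hc : IsClosed {x : K →L[ℂ] K | (star (M.ell j)) (x M.Om) = 0} := by
    refine isClosed_eq ?_ continuous_const
    exact (star (M.ell j)).continuous.comp (ContinuousLinearMap.apply ℂ K M.Om).continuous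
  exact closure_minimal (fun y hy => M.kill_NW S j hj y (M.adjoin_le_NW S y hy)) hc hx

end FModel
end H47
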