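import Pool.Agent.H.MP_47f0a1_an.Fock0
import Pool.Agent.H.MP_47f0a1_an.Fock1
import Pool.Agent.H.MP_47f0a1_an.Fock3
import Pool.Agent.H.MP_47f0a1_an.ModelR
import Pool.Agent.H.MP_47f0a1_an.ModelC

/-!
# Existence of cyclic Fock models
-/

open scoped InnerProductSpace

namespace H47

section fockAux

variable {E H : Type} [NormedAddCommGroup H] [InnerProductSpace ℂ H] [CompleteSpace H]

open Classical in
/-- The vector `η` at the word `w`. -/
noncomputable def fockSing (w : List (ℕ × E)) (η : H) : lp (fun _ : List (ℕ × E) => H) 2 :=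
  lp.single 2 w η

open Classical in
theorem fock_sing_apply (w v : List (ℕ × E)) (η : H) :
    (fockSing w η : List (ℕ × E) → H) v = if v = w then η else 0 := by
  unfold fockSing
  rw [lp.single_apply, Pi.single_apply]

theorem fock_sing_self (w : List (ℕ × E)) (η : H) :
    (fockSing w η : List (ℕ × E) → H) w = η := by
  rw [fock_sing_apply, if_pos rfl]

theorem fock_sing_ne (w v : List (ℕ × E)) (η : H) (h : v ≠ w) :
    (fockSing w η : List (ℕ × E) → H) v = 0 := by
  rw [fock_sing_apply, if_neg h]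

open Classical in
theorem fock_inner_sing (w : List (ℕ × E)) (η : H) (ξ : lp (fun _ : List (ℕ × E) => H) 2) :
    ⟪fockSing w η, ξ⟫_ℂ = ⟪η, (ξ : List (ℕ × E) → H) w⟫_ℂ := by
  unfold fockSing
  exact lp.inner_single_left (𝕜 := ℂ) w η ξ

open Classical in
theorem fock_norm_sing (w : List (ℕ × E)) (η : H) : ‖fockSing w η‖ = ‖η‖ := by
  unfold fockSing
  exact lp.norm_single (E := fun _ : List (ℕ × E) => H) (p := 2) (by norm_num) w η

open Classical in
theorem fock_sing_sub (w : List (ℕ × E)) (η η' : H) :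
    fockSing w (η - η') = fockSing w η - fockSing w η' := by
  unfold fockSing
  exact lp.single_sub _ _ _ _

theorem fock_sing_continuous (w : List (ℕ × E)) :
    Continuous (fun η : H => fockSing w η) := by
  refine (Isometry.of_dist_eq fun η η' => ?_).continuous
  rw [dist_eq_norm, dist_eq_norm, ← fock_sing_sub, fock_norm_sing]

open Classical in
theorem fock_hasSum (ξ : lp (fun _ : List (ℕ × E) => H) 2) :
    HasSum (fun w => fockSing w ((ξ : List (ℕ × E) → H) w)) ξ := by
  unfold fockSing
  exact lp.hasSum_single (by norm_num) ξ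

/-- A diagonal operator on a vector at one word. -/
theorem fock_diag_sing (D : lp (fun _ : List (ℕ × E) => H) 2 →L[ℂ] lp (fun _ : List (ℕ × E) => H) 2)
    (x : H →L[ℂ] H)
    (hD : ∀ (ξ : lp (fun _ : List (ℕ × E) => H) 2) w, (D ξ : List (ℕ × E) → H) w
      = x ((ξ : List (ℕ × E) → H) w)) (w : List (ℕ × E)) (η : H) :
    D (fockSing w η) = fockSing w (x η) := by
  apply lp.ext
  funext v
  rw [hD, fock_sing_apply, fock_sing_apply]
  split_ifs
  · rfl
  · exact map_zero x

open Classical in
/-- A creation operator on a basis vector at one word. -/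
theorem fock_cre_sing (b : HilbertBasis E ℂ H) (ζ : H) (j : ℕ)
    (T : lp (fun _ : List (ℕ × E) => H) 2 →L[ℂ] lp (fun _ : List (ℕ × E) => H) 2)
    (hT : ∀ ξ, ((T ξ : lp (fun _ : List (ℕ × E) => H) 2) : List (ℕ × E) → H)
        = creFun b ζ j ((ξ : lp (fun _ : List (ℕ × E) => H) 2) : List (ℕ × E) → H))
    (e : E) (w : List (ℕ × E)) :
    T (fockSing w (b e)) = fockSing ((j, e) :: w) ζ := by
  apply lp.ext
  rw [hT]
  funext v
  rcases v with _ | ⟨⟨i, e'⟩, v⟩
  · rw [fock_sing_ne _ _ _ (by simp)]
    rfl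
  · show (if i = j then ⟪b e', (fockSing w (b e) : List (ℕ × E) → H) v⟫_ℂ • ζ else 0) = _
    by_cases hij : i = j
    · rw [if_pos hij]
      by_cases hv : v = w
      · rw [hv, fock_sing_self]
        by_cases he : e' = e
        · rw [he, hij, fock_sing_self, (orthonormal_iff_ite.1 b.orthonormal) e e, if_pos rfl,
            one_smul]
        · rw [(orthonormal_iff_ite.1 b.orthonormal) e' e, if_neg he, zero_smul,
            fock_sing_ne]
          intro h
          rw [List.cons.injEq, Prod.mk.injEq] at h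
          exact he h.1.2
      · rw [fock_sing_ne _ _ _ hv, inner_zero_right, zero_smul, fock_sing_ne]
        intro h
        rw [List.cons.injEq] at h
        exact hv h.2
    · rw [if_neg hij, fock_sing_ne]
      intro h
      rw [List.cons.injEq, Prod.mk.injEq] at h
      exact hij h.1.1

/-- The cyclicity criterion in coordinates. -/
theorem fock_cyclic {A : Type} [Ring A] [StarRing A] [Algebra ℂ A] [StarModule ℂ A]
    {τ : A →ₗ[ℂ] ℂ} (ρ : A →⋆ₐ[ℂ] (H →L[ℂ] H)) (ζ : H)
    (hcyc : closure (Set.range fun a => ρ a ζ) = Set.univ)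
    (M : FModel A τ (lp (fun _ : List (ℕ × E) => H) 2))
    (h0 : M.Om = fockSing [] ζ)
    (h1 : ∀ a w η, M.inc a (fockSing w η) = fockSing w (ρ a η)) (e : E → H)
    (h2 : ∀ j i w, M.ell j (fockSing w (e i)) = fockSing ((j, i) :: w) ζ) : M.Cyclic := by
  apply FModel.cyclic_of_words
  set V := Submodule.span ℂ {ξ | ∃ X, M.CWord Set.univ X ∧ X M.Om = ξ} with hV
  -- invariance of the closure
  have hinv : ∀ L : lp (fun _ : List (ℕ × E) => H) 2 →L[ℂ] lp (fun _ : List (ℕ × E) => H) 2,
      (∀ X, M.CWord Set.univ X → M.CWord Set.univ (L * X)) →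
      ∀ ξ ∈ V.topologicalClosure, L ξ ∈ V.topologicalClosure := by
    intro L hL ξ hξ
    have hle : V.topologicalClosure ≤
        V.topologicalClosure.comap (L : lp (fun _ : List (ℕ × E) => H) 2 →ₗ[ℂ] _) := by
      refine Submodule.topologicalClosure_minimal _ ?_ ?_
      · rw [hV, Submodule.span_le]
        rintro _ ⟨X, hX, rfl⟩
        exact V.le_topologicalClosure (Submodule.subset_span ⟨L * X, hL X hX, rfl⟩)
      · exact V.isClosed_topologicalClosure.preimage L.continuous
    exact hle hξ
  have hinc : ∀ a, ∀ ξ ∈ V.topologicalClosure, M.inc a ξ ∈ V.topologicalClosure := fun a =>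
    hinv (M.inc a) (fun X hX => FModel.modelR_inc_mul hX a)
  have hell : ∀ j, ∀ ξ ∈ V.topologicalClosure, M.ell j ξ ∈ V.topologicalClosure := fun j =>
    hinv (M.ell j) (fun X hX => FModel.modelR_ell_mul hX (Set.mem_univ j))
  -- from `ζ` at the word `w` to all vectors at the word `w`
  have hstep : ∀ w, fockSing w ζ ∈ V.topologicalClosure →
      ∀ η, fockSing w η ∈ V.topologicalClosure := by
    intro w hw η
    have hcl : IsClosed {η : H | fockSing w η ∈ V.topologicalClosure} :=
      V.isClosed_topologicalClosure.preimage (fock_sing_continuous w)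
    have hsub : Set.range (fun a => ρ a ζ) ⊆ {η : H | fockSing w η ∈ V.topologicalClosure} := by
      rintro _ ⟨a, rfl⟩
      show fockSing w (ρ a ζ) ∈ V.topologicalClosure
      rw [← h1]
      exact hinc a _ hw
    have h := closure_minimal hsub hcl
    rw [hcyc] at h
    exact h (Set.mem_univ η)
  have hall : ∀ w η, fockSing w η ∈ V.topologicalClosure := by
    intro w
    induction w with
    | nil =>
      refine hstep [] ?_
      rw [← h0]
      refine V.le_topologicalClosure (Submodule.subset_span ⟨M.inc 1, FModel.CWord.base 1, ?_⟩)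
      rw [map_one]
      rfl
    | cons p w ih =>
      obtain ⟨j, i⟩ := p
      refine hstep _ ?_
      rw [← h2]
      exact hell j _ (ih _)
  rw [Set.eq_univ_iff_forall]
  intro ξ
  refine V.isClosed_topologicalClosure.mem_of_tendsto (fock_hasSum ξ)
    (Filter.Eventually.of_forall fun s => ?_)
  exact V.topologicalClosure.sum_mem fun w _ => hall w _

end fockAux

/-- Existence of a Fock model over a representation with a cyclic unit vector.

Proof. `K = lp (fun _ : List (ℕ × E) => H) 2` with `E` the index set of a Hilbert basis `b` of `H`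
(`exists_hilbertBasis`), `inc a = D (ρ a)` (`exists_diag`), `ell j` from `exists_cre`,
`Om = lp.single 2 [] ζ`. The relations are `cre_rel`, `cre_star_nil`.
Cyclicity by `FModel.cyclic_of_words`: let `V` be the closure of the span of the vectors
`X Ω`, `X` a creation word. It is invariant under `inc a` and `ell j`
(`inc b * X` and `ell j * X = inc 1 * ell j * X` are creation words, for `X = inc a` or
`X = inc a * ell i * Y`). By induction on `w`, `lp.single 2 w η ∈ V` for all `η : H`:
for `w = []`, `lp.single 2 [] (ρ a ζ) = inc a Ω` and the vectors `ρ a ζ` are dense; for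
`w' = (j, e) :: w`, `ell j (lp.single 2 w (b e)) = lp.single 2 ((j, e) :: w) ζ` (as
`⟪b e', b e⟫ = δ`), apply `inc a` and density again. Finally the span of the `lp.single` is dense
(`lp.hasSum_single` for `p ≠ ∞`). -/
theorem exists_model_of_rep (A : Type) [Ring A] [StarRing A] [Algebra ℂ A] [StarModule ℂ A]
    (τ : A →ₗ[ℂ] ℂ)
    (H : Type) [NormedAddCommGroup H] [InnerProductSpace ℂ H] [CompleteSpace H]
    (ρ : A →⋆ₐ[ℂ] (H →L[ℂ] H)) (ζ : H) (hζ : ‖ζ‖ = 1) (hτ : ∀ a, ⟪ζ, ρ a ζ⟫_ℂ = τ a)
    (hcyc : closure (Set.range fun a => ρ a ζ) = Set.univ) :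
    ∃ (K : Type) (_ : NormedAddCommGroup K) (_ : InnerProductSpace ℂ K) (_ : CompleteSpace K)
      (M : FModel A τ K), M.Cyclic := by
  obtain ⟨B, b, -⟩ := exists_hilbertBasis ℂ H
  obtain ⟨D, hD⟩ := exists_diag (List (ℕ × B)) H
  choose T hT using fun j => exists_cre b ζ hζ j
  have hDs : ∀ (a : A) (w : List (ℕ × B)) (η : H),
      D (ρ a) (fockSing w η) = fockSing w (ρ a η) := fun a w η =>
    fock_diag_sing (D (ρ a)) (ρ a) (hD (ρ a)) w η
  have e1 : ∀ a, ⟪fockSing [] ζ, D (ρ a) (fockSing [] ζ)⟫_ℂ = τ a := by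
    intro a
    rw [hDs, fock_inner_sing, fock_sing_self, hτ]
  have e2 : ∀ i j a, star (T i) * D (ρ a) * T j = if i = j then
      algebraMap ℂ (lp (fun _ : List (ℕ × B) => H) 2 →L[ℂ] lp (fun _ : List (ℕ × B) => H) 2)
        (τ a) else 0 := by
    intro i j a
    rw [← hτ]
    exact cre_rel b ζ hζ i j (T i) (T j) (D (ρ a)) (hT i) (hT j) (ρ a) (hD (ρ a))
  have e3 : ∀ i a, (star (T i)) (D (ρ a) (fockSing [] ζ)) = 0 := by
    intro i a
    rw [hDs]
    exact cre_star_nil b ζ i (T i) (hT i) _ (fun v hv => fock_sing_ne _ _ _ hv)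
  let M : FModel A τ (lp (fun _ : List (ℕ × B) => H) 2) :=
    { inc := D.comp ρ
      ell := T
      Om := fockSing [] ζ
      norm_Om := by rw [fock_norm_sing, hζ]
      inc_Om := e1
      ell_inc_ell := e2
      ell_Om := e3 }
  exact ⟨lp (fun _ : List (ℕ × B) => H) 2, inferInstance, inferInstance, inferInstance, M,
    fock_cyclic ρ ζ hcyc M rfl hDs b (fun j i w => fock_cre_sing b ζ j (T j) (hT j) i w)⟩

/-- Existence of cyclic Fock models for a state on a C*-algebra. -/
theorem exists_model (A : Type) [CStarAlgebra A] (τ : A →ₗ[ℂ] ℂ) (hτ : IsSt τ) :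
    ∃ (K : Type) (_ : NormedAddCommGroup K) (_ : InnerProductSpace ℂ K) (_ : CompleteSpace K)
      (M : FModel A τ K), M.Cyclic := by
  obtain ⟨H, _, _, _, ρ, ζ, h1, h2, h3⟩ := exists_rep A τ hτ
  exact exists_model_of_rep A τ H ρ ζ h1 h2 h3

end H47
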