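import Pool.Agent.H.MP_47f0a1_an.IntertwA

/-!
# Intertwining up to automorphisms; approximation on generators
-/

open TopologicalSpace

namespace H47

/-- If `Ψ Φ` and `Φ Ψ` are pointwise limits of automorphisms then the algebras are isomorphic.

Proof. `ping_pong` for `𝒜 = {β ∘ Φ ∘ α}`, `ℬ = {α ∘ Ψ ∘ β}` with `α`, `β` automorphisms of `A`, `B`
(automorphisms are isometric). Let `Φ' = β ∘ Φ ∘ α`. Choose an automorphism `γ` with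
`‖Ψ Φ y - γ y‖ ≤ ε` for `y ∈ α(F)`; `Ψ' = α⁻¹ ∘ γ⁻¹ ∘ Ψ ∘ β⁻¹` satisfies, for `x ∈ F`,
`‖Ψ' Φ' x - x‖ = ‖γ⁻¹ Ψ Φ α x - α x‖ = ‖Ψ Φ (α x) - γ (α x)‖ ≤ ε`. Symmetrically for `ℬ`. -/
theorem intertwine {A B : Type*} [CStarAlgebra A] [CStarAlgebra B] [SeparableSpace A]
    [SeparableSpace B] (Φ : A →⋆ₐ[ℂ] B) (Ψ : B →⋆ₐ[ℂ] A)
    (hΦ : ∀ x, ‖Φ x‖ = ‖x‖) (hΨ : ∀ y, ‖Ψ y‖ = ‖y‖)
    (h1 : ∀ (F : Finset A) (ε : ℝ), 0 < ε → ∃ α : A ≃⋆ₐ[ℂ] A, ∀ x ∈ F, ‖Ψ (Φ x) - α x‖ ≤ ε)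
    (h2 : ∀ (G : Finset B) (ε : ℝ), 0 < ε → ∃ β : B ≃⋆ₐ[ℂ] B, ∀ y ∈ G, ‖Φ (Ψ y) - β y‖ ≤ ε) :
    Nonempty (A ≃⋆ₐ[ℂ] B) := by
  classical
  refine ping_pong
    {f | ∃ (α : A ≃⋆ₐ[ℂ] A) (β : B ≃⋆ₐ[ℂ] B), ∀ x, f x = β (Φ (α x))}
    {g | ∃ (α : A ≃⋆ₐ[ℂ] A) (β : B ≃⋆ₐ[ℂ] B), ∀ y, g y = α (Ψ (β y))} ?_ ?_ ?_ ?_ ?_
  · rintro f ⟨α, β, hf⟩ x
    rw [hf, StarAlgEquiv.norm_map, hΦ, StarAlgEquiv.norm_map]
  · rintro g ⟨α, β, hg⟩ y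
    rw [hg, StarAlgEquiv.norm_map, hΨ, StarAlgEquiv.norm_map]
  · exact ⟨Φ, .refl ℂ A, .refl ℂ B, fun x => rfl⟩
  · rintro f ⟨α, β, hf⟩ F ε hε
    obtain ⟨γ, hγ⟩ := h1 (F.image α) ε hε
    refine ⟨(α.symm.toStarAlgHom.comp γ.symm.toStarAlgHom).comp (Ψ.comp β.symm.toStarAlgHom),
      ⟨γ.symm.trans α.symm, β.symm, fun y => rfl⟩, fun x hx => ?_⟩
    have h := hγ (α x) (Finset.mem_image_of_mem _ hx)
    have e : ((α.symm.toStarAlgHom.comp γ.symm.toStarAlgHom).comp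
        (Ψ.comp β.symm.toStarAlgHom)) (f x) - x
        = α.symm (γ.symm (Ψ (Φ (α x)) - γ (α x))) := by
      rw [map_sub, map_sub, StarAlgEquiv.symm_apply_apply, StarAlgEquiv.symm_apply_apply, hf]
      change α.symm (γ.symm (Ψ (β.symm (β (Φ (α x)))))) - x = _
      rw [StarAlgEquiv.symm_apply_apply]
    rw [e, StarAlgEquiv.norm_map, StarAlgEquiv.norm_map]
    exact h
  · rintro g ⟨α, β, hg⟩ G ε hε
    obtain ⟨γ, hγ⟩ := h2 (G.image β) ε hε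
    refine ⟨(β.symm.toStarAlgHom.comp γ.symm.toStarAlgHom).comp (Φ.comp α.symm.toStarAlgHom),
      ⟨α.symm, γ.symm.trans β.symm, fun y => rfl⟩, fun y hy => ?_⟩
    have h := hγ (β y) (Finset.mem_image_of_mem _ hy)
    have e : ((β.symm.toStarAlgHom.comp γ.symm.toStarAlgHom).comp
        (Φ.comp α.symm.toStarAlgHom)) (g y) - y
        = β.symm (γ.symm (Φ (Ψ (β y)) - γ (β y))) := by
      rw [map_sub, map_sub, StarAlgEquiv.symm_apply_apply, StarAlgEquiv.symm_apply_apply, hg]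
      change β.symm (γ.symm (Φ (α.symm (α (Ψ (β y)))))) - y = _
      rw [StarAlgEquiv.symm_apply_apply]
    rw [e, StarAlgEquiv.norm_map, StarAlgEquiv.norm_map]
    exact h

end H47
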