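import Pool.Agent.H.MP_47f0a1_an.PZ
import Pool.Agent.H.MP_47f0a1_an.AutB
import Pool.Agent.H.MP_47f0a1_an.Fock
import Pool.Agent.H.MP_47f0a1_an.IntertwB

/-!
# Existence and the isomorphism theorem
-/

open MeasureTheory TopologicalSpace

namespace H47

variable {Z Z' : Type} [MetricSpace Z] [CompactSpace Z] [MeasurableSpace Z] [BorelSpace Z]
  [MetricSpace Z'] [CompactSpace Z'] [MeasurableSpace Z'] [BorelSpace Z']
  {μ : Measure Z} [IsProbabilityMeasure μ] {μ' : Measure Z'} [IsProbabilityMeasure μ']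
  {P P' : Type*} [CStarAlgebra P] [CStarAlgebra P'] {tr : P →ₗ[ℂ] ℂ} {tr' : P' →ₗ[ℂ] ℂ}
  {inc : C(Z, ℂ) →⋆ₐ[ℂ] P} {kap : ℕ → C(unitInterval, ℂ) →⋆ₐ[ℂ] P}
  {inc' : C(Z', ℂ) →⋆ₐ[ℂ] P'} {kap' : ℕ → C(unitInterval, ℂ) →⋆ₐ[ℂ] P'}

/-- Existence, in the form needed for approximation by automorphisms.

Proof. `exists_model` for `A = C(Z, ℂ)`, `τ = intL μ` (`intL_isSt`), giving a cyclic model `M`; take
`P = M.PA`, `tr = M.trP`, … : `rfp_famPZ`, `endo_approx`. -/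
theorem exists_PZ (μ : Measure Z) [IsProbabilityMeasure μ] [μ.IsOpenPosMeasure] :
    ∃ (P : Type) (_ : CStarAlgebra P) (tr : P →ₗ[ℂ] ℂ) (inc : C(Z, ℂ) →⋆ₐ[ℂ] P)
      (kap : ℕ → C(unitInterval, ℂ) →⋆ₐ[ℂ] P), IsPZ μ tr inc kap ∧
      ∀ (θ : C(Z, Z)) (_ : ∀ a, intL μ (a.comp θ) = intL μ a)
        (h : C(unitInterval × Z, Z)) (_ : ∀ z, h (0, z) = z)
        (_ : ∀ z, h (1, θ z) = h (1, z)) (Φ : P →⋆ₐ[ℂ] P)
        (_ : ∀ a, Φ (inc a) = inc (a.comp θ)) (_ : ∀ j f, Φ (kap j f) = kap j f)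
        (F : Finset P) (ε : ℝ), 0 < ε → ∃ α : P ≃⋆ₐ[ℂ] P, ∀ x ∈ F, ‖Φ x - α x‖ ≤ ε := by
  obtain ⟨K, _, _, _, M, hc⟩ := exists_model C(Z, ℂ) (intL μ) (intL_isSt μ)
  refine ⟨M.PA, inferInstance, M.trP, M.incP, M.kapP, ⟨M.trP_incP, M.trP_kapP, ?_⟩, ?_⟩
  · have e : famZ M.incP M.kapP = M.famPZ := by
      funext i
      cases i <;> rfl
    rw [e]
    exact M.rfp_famPZ hc
  · intro θ hθ h h0 h1 Φ hΦ1 hΦ2 F ε hε
    exact M.endo_approx hc θ hθ h h0 h1 Φ hΦ1 hΦ2 F ε hε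

/-- **Isomorphism theorem.** If there are measure preserving continuous maps `p : Z' → Z`,
`q : Z → Z'`, and both spaces are contractible, then the algebras are isomorphic.

Proof. By uniqueness (`IsPZ.unique`) we may take the algebras of `exists_PZ`. Let `Φ : P → P'` be the
homomorphism of `p` and `Ψ : P' → P` that of `q` (`IsPZ.hom`). `Ψ Φ` is the endomorphism of
`θ = p ∘ q : Z → Z` and `Φ Ψ` that of `q ∘ p`; both are pointwise limits of automorphisms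
(a contraction `h` of the space to a point satisfies `h (1, θ z) = h (1, z)`). `intertwine`. -/
theorem IsPZ.iso [μ.IsOpenPosMeasure] [μ'.IsOpenPosMeasure] (h : IsPZ μ tr inc kap)
    (h' : IsPZ μ' tr' inc' kap') (p : C(Z', Z)) (q : C(Z, Z'))
    (hp : MeasurePreserving p μ' μ) (hq : MeasurePreserving q μ μ')
    (c : C(unitInterval × Z, Z)) (c0 : ∀ z, c (0, z) = z) (c1 : ∀ z w, c (1, z) = c (1, w))
    (c' : C(unitInterval × Z', Z')) (c0' : ∀ z, c' (0, z) = z)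
    (c1' : ∀ z w, c' (1, z) = c' (1, w)) : Nonempty (P ≃⋆ₐ[ℂ] P') := by
  obtain ⟨P₀, _, tr₀, inc₀, kap₀, k₀, app₀⟩ := exists_PZ μ
  obtain ⟨P₁, _, tr₁, inc₁, kap₁, k₁, app₁⟩ := exists_PZ μ'
  obtain ⟨u₀, -⟩ := h.unique k₀
  obtain ⟨u₁, -⟩ := h'.unique k₁
  have hp' : ∀ a, intL μ' (a.comp p) = intL μ a := fun a => intL_comp μ' μ p hp a
  have hq' : ∀ a, intL μ (a.comp q) = intL μ' a := fun a => intL_comp μ μ' q hq a
  obtain ⟨Φ, hΦ1, hΦ2, -, hΦ3⟩ := k₀.hom k₁ p hp'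
  obtain ⟨Ψ, hΨ1, hΨ2, -, hΨ3⟩ := k₁.hom k₀ q hq'
  have := k₀.separable
  have := k₁.separable
  obtain ⟨e⟩ := intertwine Φ Ψ hΦ3 hΨ3
    (fun F ε hε => by
      refine app₀ (p.comp q) (fun a => ?_) c c0 (fun z => c1 _ _) (Ψ.comp Φ) (fun a => ?_)
        (fun j f => ?_) F ε hε
      · rw [← ContinuousMap.comp_assoc, hq', hp']
      · rw [StarAlgHom.comp_apply, hΦ1, hΨ1, ContinuousMap.comp_assoc]
      · rw [StarAlgHom.comp_apply, hΦ2, hΨ2])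
    (fun F ε hε => by
      refine app₁ (q.comp p) (fun a => ?_) c' c0' (fun z => c1' _ _) (Φ.comp Ψ) (fun a => ?_)
        (fun j f => ?_) F ε hε
      · rw [← ContinuousMap.comp_assoc, hp', hq']
      · rw [StarAlgHom.comp_apply, hΨ1, hΦ1, ContinuousMap.comp_assoc]
      · rw [StarAlgHom.comp_apply, hΨ2, hΦ2])
  exact ⟨(u₀.trans e).trans u₁.symm⟩

end H47
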