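import Pool.Agent.H.MP_47f0a1_an.PeanoM

/-!
# Measure preserving maps between cubes
-/

open MeasureTheory

namespace H47

theorem volume_I_pos : (volume : Measure unitInterval).IsOpenPosMeasure := by
  constructor
  intro U hU hne hzero
  obtain ⟨V, hV, rfl⟩ := isOpen_induced_iff.1 hU
  obtain ⟨x, hx⟩ := hne
  have hx1 : (x : ℝ) ∈ closure (Set.Ioo (0 : ℝ) 1) := by
    rw [closure_Ioo (by norm_num)]
    exact x.2
  obtain ⟨y, hyV, hyI⟩ := mem_closure_iff.1 hx1 V hV hx
  have hopen : IsOpen (V ∩ Set.Ioo (0 : ℝ) 1) := hV.inter isOpen_Ioo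
  have hpos : 0 < (volume : Measure ℝ) (V ∩ Set.Ioo (0 : ℝ) 1) :=
    hopen.measure_pos volume ⟨y, hyV, hyI⟩
  have hle : (volume : Measure ℝ) (V ∩ Set.Ioo (0 : ℝ) 1) ≤
      (volume : Measure unitInterval) (Subtype.val ⁻¹' V) := by
    rw [unitInterval.volume_apply]
    apply measure_mono
    rintro z ⟨hz1, hz2⟩
    exact ⟨⟨z, hz2.1.le, hz2.2.le⟩, hz1, rfl⟩
  exact absurd hzero (hpos.trans_le hle).ne'

/-- The unit interval carries a probability measure with full support, and so does the cube. -/
theorem volume_cube_pos (n : ℕ) :
    (volume : Measure (Fin n → unitInterval)).IsOpenPosMeasure := by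
  have := volume_I_pos
  infer_instance

/-- A coordinate projection preserves Lebesgue measure
(`MeasureTheory.measurePreserving_eval`). -/
theorem exists_proj (n : ℕ) (hn : 1 ≤ n) : ∃ p : C(Fin n → unitInterval, unitInterval),
    MeasurePreserving p volume volume :=
  ⟨⟨fun x => x ⟨0, hn⟩, by fun_prop⟩,
    measurePreserving_eval (fun _ : Fin n => (volume : Measure unitInterval)) ⟨0, hn⟩⟩

/-- Peano curves onto cubes that preserve Lebesgue measure.

Proof. Induction on `n`. `n = 1`: the homeomorphism `[0,1] ≅ (Fin 1 → [0,1])`
(`MeasureTheory.measurePreserving_funUnique`). From `n` to `n + 1`: compose the Hilbert curve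
`[0,1] → [0,1] × [0,1]`, the product `id × qₙ` (`MeasurePreserving.prod`) and the homeomorphism
`[0,1] × (Fin n → [0,1]) → (Fin (n+1) → [0,1])`, `(x, y) ↦ Fin.cons x y`
(`MeasureTheory.measurePreserving_piFinSuccAbove`, its inverse). -/
theorem exists_peano (n : ℕ) (hn : 1 ≤ n) : ∃ q : C(unitInterval, Fin n → unitInterval),
    MeasurePreserving q volume volume := by
  induction n, hn using Nat.le_induction with
  | base =>
    refine ⟨⟨fun x => fun _ => x, by fun_prop⟩, ?_⟩
    have h := (volume_preserving_funUnique (Fin 1) unitInterval).symm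
    exact h
  | succ n hn ih =>
    obtain ⟨q, hq⟩ := ih
    obtain ⟨f, hf⟩ := exists_hilbert
    have hf' := hilbert_measurePreserving f hf
    refine ⟨⟨fun x => Fin.cons (f x).1 (q (f x).2), ?_⟩, ?_⟩
    · refine continuous_pi fun i => ?_
      refine Fin.cases ?_ (fun j => ?_) i
      · simp only [Fin.cons_zero]
        fun_prop
      · simp only [Fin.cons_succ]
        exact (continuous_apply j).comp (q.continuous.comp (continuous_snd.comp f.continuous))
    · have h1 := (volume_preserving_piFinSuccAbove (fun _ : Fin (n + 1) => unitInterval) 0).symm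
      have h2 : MeasurePreserving (Prod.map (id : unitInterval → unitInterval) q)
          (volume : Measure (unitInterval × unitInterval)) volume :=
        (MeasurePreserving.id volume).prod hq
      have h3 := h1.comp (h2.comp hf')
      have h4 : (fun x => (Fin.cons (f x).1 (q (f x).2) : Fin (n + 1) → unitInterval)) =
          (MeasurableEquiv.piFinSuccAbove (fun _ : Fin (n + 1) => unitInterval) 0).symm ∘
            (Prod.map (id : unitInterval → unitInterval) q ∘ f) := by
        funext x
        simp only [Function.comp_apply]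
        exact (Fin.insertNth_zero' (f x).1 (q (f x).2)).symm
      rw [← h4] at h3
      exact h3

/-- The linear contraction of the cube to the origin. -/
theorem exists_contraction (n : ℕ) : ∃ h : C(unitInterval × (Fin n → unitInterval),
    Fin n → unitInterval), (∀ z, h (0, z) = z) ∧ ∀ z w, h (1, z) = h (1, w) := by
  refine ⟨⟨fun p i => unitInterval.symm p.1 * p.2 i, ?_⟩, fun z => ?_, fun z w => ?_⟩
  · refine continuous_pi fun i => ?_
    exact (unitInterval.continuous_symm.comp continuous_fst).mul
      ((continuous_apply i).comp continuous_snd)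
  · funext i
    simp
  · funext i
    simp

theorem exists_contraction_I : ∃ h : C(unitInterval × unitInterval, unitInterval),
    (∀ z, h (0, z) = z) ∧ ∀ z w, h (1, z) = h (1, w) := by
  refine ⟨⟨fun p => unitInterval.symm p.1 * p.2, ?_⟩, fun z => ?_, fun z w => ?_⟩
  · exact (unitInterval.continuous_symm.comp continuous_fst).mul continuous_snd
  · simp
  · simp

end H47
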