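import Pool.Agent.H.MP_47f0a1_an.FinalA
import Pool.Agent.H.MP_47f0a1_an.PZB
import Pool.Agent.H.MP_47f0a1_an.PeanoB
import Pool.Agent.H.MP_47f0a1_an.FreeGroup
import Pool.Agent.H.MP_47f0a1_an.FreeClosure

/-!
# Free absorption of `C([0,1]^n)` by `C([0,1])^{*∞}`
-/

open MeasureTheory TopologicalSpace

namespace H47

/-- The range of a homomorphism from a generated algebra is in the closure of what its members
generate. -/
theorem finalb_range_le {A B I : Type*} [CStarAlgebra A] [CStarAlgebra B] (b : B →⋆ₐ[ℂ] A)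
    (S : I → StarSubalgebra ℂ B) (hgen : (⨆ i, S i).topologicalClosure = ⊤)
    (T : StarSubalgebra ℂ A) (h : ∀ i, ∀ x ∈ S i, b x ∈ T) :
    b.range ≤ T.topologicalClosure := by
  have hc : Continuous b := AddMonoidHomClass.continuous_of_bound b 1 (fun x => by
    rw [one_mul]; exact NonUnitalStarAlgHom.norm_apply_le b x)
  have h1 : (⨆ i, S i) ≤ T.topologicalClosure.comap b :=
    iSup_le fun i x hx => T.le_topologicalClosure (h i x hx)
  have h2 : IsClosed ((T.topologicalClosure.comap b : StarSubalgebra ℂ B) : Set B) :=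
    T.isClosed_topologicalClosure.preimage hc
  have h3 : (⨆ i, S i).topologicalClosure ≤ T.topologicalClosure.comap b :=
    StarSubalgebra.topologicalClosure_minimal h1 h2
  rw [hgen] at h3
  rintro _ ⟨x, rfl⟩
  exact h3 (StarSubalgebra.mem_top (x := x))

/-- Existence of the free product of `C([0,1]^n)` and a given `FreeInf` algebra.

Proof. Take `(P, tr, inc, kap)` from `exists_PZ` for the cube. The homomorphism `b : B → P` with
`b ∘ ι j = kap j` exists by `univ_hom` (`Γ j` = the range of `f ↦ (ι j f, kap j f)`, indexed by `ℕ`; the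
`ι j` generate `B`; freeness of the `kap j` by reindexing). `FreeProd`: `σ = tr`, `a = inc`.
Freeness of `![inc.range, b.range]`: `b.range` is contained in the closure of
`⨆ j, (kap j).range`, so use `free_group` (groups `{none}` and `{some j}`), `free_closure`, `free_mono`
and reindexing. Generation is clear, the GNS condition is that of `P`. -/
theorem exists_freeProd (n : ℕ) {B : Type*} [CStarAlgebra B] {τ : B →ₗ[ℂ] ℂ}
    {ι : ℕ → C(unitInterval, ℂ) →⋆ₐ[ℂ] B} (hB : FreeInf B τ ι) :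
    ∃ (P : Type) (_ : CStarAlgebra P) (σ : P →ₗ[ℂ] ℂ)
      (a : C(Fin n → unitInterval, ℂ) →⋆ₐ[ℂ] P) (b : B →⋆ₐ[ℂ] P), FreeProd n τ P σ a b := by
  have := volume_cube_pos n
  obtain ⟨P, iP, tr, inc, kap, h, -⟩ := exists_PZ (volume : Measure (Fin n → unitInterval))
  have hft : IsFT tr := h.ft
  have hτ : IsFT τ := hB.rfp.ft_comm (by
    rintro i _ ⟨x, rfl⟩ _ ⟨y, rfl⟩
    change ι i x * ι i y = ι i y * ι i x
    rw [← map_mul, ← map_mul, mul_comm])
  have hfk : IsFree tr (fun j => (kap j).range) :=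
    free_reindex tr (famZ inc kap) some (Option.some_injective ℕ) h.rfp.free
  obtain ⟨b, hb1, hb2, -⟩ := univ_ranges τ tr hτ.st hft.st hτ.faithful hft.faithful ι kap
    hB.rfp.free hfk (fun i c => by rw [hB.integral, h.tr_kap]) hB.rfp.gen
  refine ⟨P, iP, tr, inc, b, ⟨fun f => by rw [h.tr_inc, intL_apply], hb2, h.rfp.st, ?_, ?_,
    h.rfp.gns⟩⟩
  · have hg := free_closure tr h.rfp.st.one h.rfp.st.continuous _
      (free_group tr h.rfp.st.one (famZ inc kap)
        (fun o : Option ℕ => (Option.elim o 0 (fun _ => 1) : Fin 2)) h.rfp.free)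
    refine free_mono tr _ _ (fun i => ?_) hg
    fin_cases i
    · refine le_trans ?_ (StarSubalgebra.le_topologicalClosure _)
      exact le_iSup (fun i : {i : Option ℕ // Option.elim i (0 : Fin 2) (fun _ => 1) = 0} =>
        famZ inc kap i.1) ⟨none, rfl⟩
    · refine finalb_range_le b _ hB.rfp.gen _ ?_
      rintro j _ ⟨f, rfl⟩
      refine (le_iSup (fun i : {i : Option ℕ // Option.elim i (0 : Fin 2) (fun _ => 1) = 1} =>
        famZ inc kap i.1) ⟨some j, rfl⟩) ?_
      change b (ι j f) ∈ (kap j).range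
      rw [hb1]
      exact ⟨f, rfl⟩
  · refine top_le_iff.mp ?_
    rw [← h.rfp.gen]
    refine StarSubalgebra.topologicalClosure_mono (iSup_le fun o => ?_)
    rcases o with _ | j
    · exact le_iSup (![inc.range, b.range]) 0
    · refine le_trans ?_ (le_iSup (![inc.range, b.range]) 1)
      rintro _ ⟨f, rfl⟩
      exact ⟨ι j f, hb1 j f⟩

/-- Existence of the infinite free power: `exists_PZ` for `[0,1]` and `freeInf_of_PZ`. -/
theorem exists_freeInf : ∃ (B : Type) (_ : CStarAlgebra B) (τ : B →ₗ[ℂ] ℂ)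
    (ι : ℕ → C(unitInterval, ℂ) →⋆ₐ[ℂ] B), FreeInf B τ ι := by
  have := volume_I_pos
  obtain ⟨P, iP, tr, inc, kap, h, -⟩ := exists_PZ (volume : Measure unitInterval)
  exact ⟨P, iP, tr, _, freeInf_of_PZ h⟩

/-- **The answer to the question.** Proof: `PZ_of_freeProd`, `PZ_of_freeInf`, `IsPZ.iso` with
`exists_proj`, `exists_peano`, `exists_contraction`, `exists_contraction_I`. -/
theorem absorption (n : ℕ) (hn : 1 ≤ n) {B P : Type*} [CStarAlgebra B] [CStarAlgebra P]
    {τ : B →ₗ[ℂ] ℂ} {ι : ℕ → C(unitInterval, ℂ) →⋆ₐ[ℂ] B} (hB : FreeInf B τ ι)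
    {σ : P →ₗ[ℂ] ℂ} {a : C(Fin n → unitInterval, ℂ) →⋆ₐ[ℂ] P} {b : B →⋆ₐ[ℂ] P}
    (hP : FreeProd n τ P σ a b) : Nonempty (P ≃⋆ₐ[ℂ] B) := by
  have := volume_I_pos
  have := volume_cube_pos n
  obtain ⟨p, hp⟩ := exists_proj n hn
  obtain ⟨q, hq⟩ := exists_peano n hn
  obtain ⟨c, c0, c1⟩ := exists_contraction n
  obtain ⟨c', c0', c1'⟩ := exists_contraction_I
  exact (PZ_of_freeProd hB hP).iso (PZ_of_freeInf hB) q p hq hp c c0 c1 c' c0' c1'

end H47
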