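import Pool.Agent.H.MP_47f0a1_an.Defs

/-!
# The GNS representation
-/

open scoped InnerProductSpace

namespace H47

open scoped ComplexOrder in
/-- The GNS representation of a state (from Mathlib). The cyclic vector is the class of `1`. -/
theorem exists_rep (A : Type) [CStarAlgebra A] (τ : A →ₗ[ℂ] ℂ) (hτ : IsSt τ) :
    ∃ (H : Type) (_ : NormedAddCommGroup H) (_ : InnerProductSpace ℂ H) (_ : CompleteSpace H)
      (ρ : A →⋆ₐ[ℂ] (H →L[ℂ] H)) (ζ : H), ‖ζ‖ = 1 ∧ (∀ a, ⟪ζ, ρ a ζ⟫_ℂ = τ a) ∧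
        closure (Set.range fun a => ρ a ζ) = Set.univ := by
  let _ : PartialOrder A := CStarAlgebra.spectralOrder A
  have : StarOrderedRing A := CStarAlgebra.spectralOrderedRing A
  obtain ⟨f, hf⟩ : ∃ f : A →ₚ[ℂ] ℂ, ∀ x, f x = τ x :=
    ⟨PositiveLinearMap.mk₀ τ (fun x hx => by
      obtain ⟨y, rfl⟩ := CStarAlgebra.nonneg_iff_eq_star_mul_self.1 hx
      exact hτ.nonneg y), fun x => rfl⟩
  have key : ∀ a : A, f.gnsStarAlgHom a ((f.toPreGNS 1 : f.PreGNS) : f.GNS) =
      ((f.toPreGNS a : f.PreGNS) : f.GNS) := by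
    intro a
    show f.gnsNonUnitalStarAlgHom a ((f.toPreGNS 1 : f.PreGNS) : f.GNS) = _
    rw [PositiveLinearMap.gnsNonUnitalStarAlgHom_apply_coe,
      PositiveLinearMap.leftMulMapPreGNS_apply]
    simp
  refine ⟨f.GNS, inferInstance, inferInstance, inferInstance, f.gnsStarAlgHom,
    ((f.toPreGNS 1 : f.PreGNS) : f.GNS), ?_, ?_, ?_⟩
  · rw [UniformSpace.Completion.norm_coe, PositiveLinearMap.preGNS_norm_def]
    simp [hf, hτ.one]
  · intro a
    rw [key, UniformSpace.Completion.inner_coe, PositiveLinearMap.preGNS_inner_def]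
    simp [hf]
  · have h1 : (Set.range fun a => f.gnsStarAlgHom a ((f.toPreGNS 1 : f.PreGNS) : f.GNS)) =
        Set.range (fun x : f.PreGNS => (x : f.GNS)) := by
      ext y
      constructor
      · rintro ⟨a, rfl⟩
        exact ⟨f.toPreGNS a, (key a).symm⟩
      · rintro ⟨x, rfl⟩
        exact ⟨f.ofPreGNS x, (key _).trans (by simp)⟩
    rw [h1]
    exact UniformSpace.Completion.denseRange_coe.closure_range

end H47
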