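import Mathlib

/-!
# Sums over words
-/

namespace H47

variable {E : Type}

/-- Sums over nonempty words. If `F [] = 0` and `F ((i, e) :: w) = 0` for `i ≠ j`, and
`∑ₑ F ((j, e) :: w) = G w` (unconditionally), `F ≥ 0`, `G` summable then `F` is summable with
`∑ F = ∑ G`.

Proof. The injection `(w, e) ↦ (j, e) :: w` of `List (ℕ × E) × E` into `List (ℕ × E)` has a range
that contains the support of `F` (`Function.Injective.hasSum_iff`), and `summable_prod_of_nonneg`,
`HasSum.prod_fiberwise` or `tsum_prod'`. -/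
theorem hasSum_words (j : ℕ) (F : List (ℕ × E) → ℝ) (G : List (ℕ × E) → ℝ) (h0 : F [] = 0)
    (hne : ∀ i e w, i ≠ j → F ((i, e) :: w) = 0) (hF : ∀ v, 0 ≤ F v)
    (hFG : ∀ w, HasSum (fun e => F ((j, e) :: w)) (G w)) (hG : Summable G) :
    HasSum F (∑' w, G w) := by
  have hinj : Function.Injective (fun p : List (ℕ × E) × E => ((j, p.2) :: p.1 : List (ℕ × E))) := by
    rintro ⟨w, e⟩ ⟨w', e'⟩ h
    simp only [List.cons.injEq, Prod.mk.injEq, true_and] at h
    rw [h.1, h.2]
  have hsupp : ∀ v ∉ Set.range (fun p : List (ℕ × E) × E => ((j, p.2) :: p.1 : List (ℕ × E))),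
      F v = 0 := by
    intro v hv
    match v, hv with
    | [], _ => exact h0
    | (i, e) :: w, hv =>
      refine hne i e w ?_
      rintro rfl
      exact hv ⟨(w, e), rfl⟩
  rw [← hinj.hasSum_iff hsupp]
  have hsum : Summable (F ∘ (fun p : List (ℕ × E) × E => ((j, p.2) :: p.1 : List (ℕ × E)))) := by
    refine (summable_prod_of_nonneg (f := F ∘ (fun p : List (ℕ × E) × E =>
      ((j, p.2) :: p.1 : List (ℕ × E)))) (fun p => hF _)).2 ?_
    refine ⟨fun w => (hFG w).summable, ?_⟩
    have e : (fun w => ∑' e, (F ∘ (fun p : List (ℕ × E) × E =>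
        ((j, p.2) :: p.1 : List (ℕ × E)))) (w, e)) = G := by
      funext w
      exact (hFG w).tsum_eq
    rw [e]
    exact hG
  have h1 : HasSum G _ := hsum.hasSum.prod_fiberwise (fun w => hFG w)
  rw [h1.tsum_eq]
  exact hsum.hasSum

/-- The complex version, with absolute summability of `F` given. -/
theorem hasSum_words_complex (j : ℕ) (F : List (ℕ × E) → ℂ) (G : List (ℕ × E) → ℂ) (h0 : F [] = 0)
    (hne : ∀ i e w, i ≠ j → F ((i, e) :: w) = 0) (hF : Summable F)
    (hFG : ∀ w, HasSum (fun e => F ((j, e) :: w)) (G w)) : ∑' v, F v = ∑' w, G w := by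
  have hinj : Function.Injective (fun p : List (ℕ × E) × E => ((j, p.2) :: p.1 : List (ℕ × E))) := by
    rintro ⟨w, e⟩ ⟨w', e'⟩ h
    simp only [List.cons.injEq, Prod.mk.injEq, true_and] at h
    rw [h.1, h.2]
  have hsupp : ∀ v ∉ Set.range (fun p : List (ℕ × E) × E => ((j, p.2) :: p.1 : List (ℕ × E))),
      F v = 0 := by
    intro v hv
    match v, hv with
    | [], _ => exact h0
    | (i, e) :: w, hv =>
      refine hne i e w ?_
      rintro rfl
      exact hv ⟨(w, e), rfl⟩
  have h1 : HasSum (F ∘ (fun p : List (ℕ × E) × E => ((j, p.2) :: p.1 : List (ℕ × E))))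
      (∑' v, F v) := (hinj.hasSum_iff hsupp).2 hF.hasSum
  have h2 : HasSum G _ := h1.prod_fiberwise (fun w => hFG w)
  exact h2.tsum_eq.symm

end H47
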