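import Pool.Agent.H.MP_47f0a1_an.Defs
import Pool.Agent.H.MP_47f0a1_an.FockS

/-!
# Creation operators on the full Fock space, in coordinates
-/

open scoped InnerProductSpace

namespace H47

variable {E H : Type} [NormedAddCommGroup H] [InnerProductSpace ℂ H] [CompleteSpace H]

/-- The coordinates of the `j`-th creation operator: the vector `ξ` at the word `w` is sent to the
family `⟪b e, ξ w⟫ ζ` at the words `(j, e) :: w`. -/
noncomputable def creFun (b : E → H) (ζ : H) (j : ℕ) (ξ : List (ℕ × E) → H) :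
    List (ℕ × E) → H
  | [] => 0
  | (i, e) :: w => if i = j then ⟪b e, ξ w⟫_ℂ • ζ else 0

theorem fock2_parseval (b : HilbertBasis E ℂ H) (x : H) :
    HasSum (fun e => ‖⟪b e, x⟫_ℂ‖ ^ 2) (‖x‖ ^ 2) := by
  have h := b.hasSum_inner_mul_inner x x
  have h2 := (Complex.hasSum_re h)
  have e1 : (⟪x, x⟫_ℂ).re = ‖x‖ ^ 2 := by
    have := inner_self_eq_norm_sq (𝕜 := ℂ) x
    simpa using this
  rw [e1] at h2
  convert h2 using 1
  funext e
  rw [← inner_conj_symm x (b e), ← Complex.normSq_eq_conj_mul_self, Complex.ofReal_re,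
    Complex.normSq_eq_norm_sq]

theorem fock2_hasSum (b : HilbertBasis E ℂ H) (ζ : H) (hζ : ‖ζ‖ = 1) (j : ℕ)
    (ξ : lp (fun _ : List (ℕ × E) => H) 2) :
    HasSum (fun v => ‖creFun b ζ j (ξ : List (ℕ × E) → H) v‖ ^ 2) (‖ξ‖ ^ 2) := by
  have hG : HasSum (fun w => ‖(ξ : List (ℕ × E) → H) w‖ ^ 2) (‖ξ‖ ^ 2) := by
    have := lp.hasSum_norm (p := 2) (by norm_num) ξ
    simpa using this
  have := hasSum_words j (fun v => ‖creFun b ζ j (ξ : List (ℕ × E) → H) v‖ ^ 2)
    (fun w => ‖(ξ : List (ℕ × E) → H) w‖ ^ 2) (by simp [creFun])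
    (by intro i e w hi; simp [creFun, hi]) (by intro v; positivity)
    (by
      intro w
      have := fock2_parseval b ((ξ : List (ℕ × E) → H) w)
      simpa [creFun, norm_smul, hζ] using this) hG.summable
  rwa [hG.tsum_eq] at this

/-- The creation operators exist as bounded operators.

Proof. `‖creFun b ζ j ξ ((j,e)::w)‖² = |⟪b e, ξ w⟫|²` (`‖ζ‖ = 1`), whose sum over `e` is `‖ξ w‖²`
(Parseval for the Hilbert basis: `HilbertBasis.hasSum_inner_mul_inner`, or
`OrthonormalBasis`-like `HilbertBasis.tsum_inner_mul_inner`; `b.repr` is an isometry onto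
`lp` and `b.repr_apply_apply`). By `hasSum_words` the squares are summable with sum `‖ξ‖²`; so
`Memℓp` for `p = 2`, and the norm is preserved. Linearity is pointwise. -/
theorem exists_cre (b : HilbertBasis E ℂ H) (ζ : H) (hζ : ‖ζ‖ = 1) (j : ℕ) :
    ∃ T : lp (fun _ : List (ℕ × E) => H) 2 →L[ℂ] lp (fun _ : List (ℕ × E) => H) 2,
      ∀ ξ, ((T ξ : lp (fun _ : List (ℕ × E) => H) 2) : List (ℕ × E) → H)
        = creFun b ζ j ((ξ : lp (fun _ : List (ℕ × E) => H) 2) : List (ℕ × E) → H) := by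
  have hp : Fact ((1 : ENNReal) ≤ 2) := ⟨by norm_num⟩
  have hmem : ∀ ξ : lp (fun _ : List (ℕ × E) => H) 2,
      Memℓp (creFun b ζ j (ξ : List (ℕ × E) → H)) 2 := by
    intro ξ
    refine memℓp_gen ?_
    simpa using (fock2_hasSum b ζ hζ j ξ).summable
  let T0 : lp (fun _ : List (ℕ × E) => H) 2 →ₗ[ℂ] lp (fun _ : List (ℕ × E) => H) 2 :=
    { toFun := fun ξ => ⟨creFun b ζ j (ξ : List (ℕ × E) → H), hmem ξ⟩
      map_add' := by
        intro x y
        ext v
        match v with
        | [] => simp [creFun]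
        | (i, e) :: w =>
          by_cases hi : i = j <;> simp [creFun, hi, inner_add_right, add_smul]
      map_smul' := by
        intro c x
        ext v
        match v with
        | [] => simp [creFun]
        | (i, e) :: w =>
          by_cases hi : i = j <;> simp [creFun, hi, inner_smul_right, mul_smul] }
  refine ⟨T0.mkContinuous 1 ?_, ?_⟩
  · intro ξ
    have h1 : HasSum (fun v => ‖((T0 ξ : lp (fun _ : List (ℕ × E) => H) 2) :
        List (ℕ × E) → H) v‖ ^ 2) (‖T0 ξ‖ ^ 2) := by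
      have := lp.hasSum_norm (p := 2) (by norm_num) (T0 ξ)
      simpa using this
    have h2 := h1.unique (fock2_hasSum b ζ hζ j ξ)
    rw [one_mul]
    exact (pow_le_pow_iff_left₀ (norm_nonneg _) (norm_nonneg _) two_ne_zero).1 h2.le
  · intro ξ
    rfl

end H47
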