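import Pool.Agent.H.MP_47f0a1_an.Defs

/-!
# Freeness: the span of the words, uniqueness of the functional
-/

namespace H47

variable {A I : Type*} [Ring A] [StarRing A] [Algebra ℂ A] [StarModule ℂ A]

/-- Values of nonempty alternating centred words. -/
def cwords (φ : A →ₗ[ℂ] ℂ) (S : I → StarSubalgebra ℂ A) : Set A :=
  {w | ∃ l : List (I × A), l ≠ [] ∧ l.IsChain (fun p q => p.1 ≠ q.1) ∧
    (∀ p ∈ l, p.2 ∈ S p.1 ∧ φ p.2 = 0) ∧ w = (l.map Prod.snd).prod}

/-- The span of `1` and of the centred words. -/
def freespanV (φ : A →ₗ[ℂ] ℂ) (S : I → StarSubalgebra ℂ A) : Submodule ℂ A :=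
  Submodule.span ℂ (insert 1 (cwords φ S))

/-- Left multiplication of a word by an element of a member. -/
theorem freespan_mul_word (φ : A →ₗ[ℂ] ℂ) (h1 : φ 1 = 1) (S : I → StarSubalgebra ℂ A)
    (i : I) (a : A) (ha : a ∈ S i) (l : List (I × A))
    (hc : l.IsChain (fun p q => p.1 ≠ q.1))
    (hl : ∀ p ∈ l, p.2 ∈ S p.1 ∧ φ p.2 = 0) :
    a * (l.map Prod.snd).prod ∈ freespanV φ S := by
  have hval : ∀ m : List (I × A), m.IsChain (fun p q => p.1 ≠ q.1) →
      (∀ p ∈ m, p.2 ∈ S p.1 ∧ φ p.2 = 0) → (m.map Prod.snd).prod ∈ freespanV φ S := by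
    intro m hm1 hm2
    by_cases hm : m = []
    · subst hm
      simp only [List.map_nil, List.prod_nil]
      exact Submodule.subset_span (Set.mem_insert _ _)
    · exact Submodule.subset_span (Set.mem_insert_of_mem _ ⟨m, hm, hm1, hm2, rfl⟩)
  have hcen : ∀ b ∈ S i, (b - φ b • (1 : A)) ∈ S i ∧ φ (b - φ b • (1 : A)) = 0 := by
    intro b hb
    refine ⟨sub_mem hb (SMulMemClass.smul_mem _ (one_mem _)), ?_⟩
    rw [map_sub, map_smul, h1, smul_eq_mul, mul_one, sub_self]
  cases l with
  | nil =>
    have h2 : a * (([] : List (I × A)).map Prod.snd).prod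
        = (([(i, a - φ a • (1 : A))] : List (I × A)).map Prod.snd).prod + φ a • (1 : A) := by
      simp
    rw [h2]
    refine add_mem (hval _ (List.isChain_singleton _) ?_)
      (Submodule.smul_mem _ _ (Submodule.subset_span (Set.mem_insert _ _)))
    intro p hp
    rw [List.mem_singleton] at hp
    subst hp
    exact hcen a ha
  | cons q l' =>
    by_cases hij : i = q.1
    · have hq := hl q (List.mem_cons_self)
      have hax : a * q.2 ∈ S i := mul_mem ha (by rw [hij]; exact hq.1)
      have h2 : a * ((q :: l').map Prod.snd).prod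
          = (((i, a * q.2 - φ (a * q.2) • (1 : A)) :: l').map Prod.snd).prod
            + φ (a * q.2) • (l'.map Prod.snd).prod := by
        simp only [List.map_cons, List.prod_cons]
        rw [sub_mul, smul_mul_assoc, one_mul, mul_assoc]
        abel
      rw [h2]
      refine add_mem (hval _ ?_ ?_) (Submodule.smul_mem _ _ (hval _ ?_ ?_))
      · cases l' with
        | nil => exact List.isChain_singleton _
        | cons r l'' =>
          rw [List.isChain_cons_cons] at hc ⊢
          refine ⟨?_, hc.2⟩
          simpa [hij] using hc.1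
      · intro p hp
        rw [List.mem_cons] at hp
        rcases hp with hp | hp
        · subst hp
          exact hcen _ hax
        · exact hl p (List.mem_cons_of_mem _ hp)
      · exact hc.tail
      · intro p hp
        exact hl p (List.mem_cons_of_mem _ hp)
    · have h2 : a * ((q :: l').map Prod.snd).prod
          = (((i, a - φ a • (1 : A)) :: q :: l').map Prod.snd).prod
            + φ a • ((q :: l').map Prod.snd).prod := by
        simp only [List.map_cons, List.prod_cons]
        rw [sub_mul, smul_mul_assoc, one_mul]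
        abel
      rw [h2]
      refine add_mem (hval _ ?_ ?_) (Submodule.smul_mem _ _ (hval _ hc hl))
      · rw [List.isChain_cons_cons]
        exact ⟨hij, hc⟩
      · intro p hp
        rw [List.mem_cons] at hp
        rcases hp with hp | hp
        · subst hp
          exact hcen a ha
        · exact hl p hp

/-- Left multiplication by an element of a member maps the span into itself. -/
theorem freespan_mul (φ : A →ₗ[ℂ] ℂ) (h1 : φ 1 = 1) (S : I → StarSubalgebra ℂ A)
    (i : I) (a : A) (ha : a ∈ S i) (v : A) (hv : v ∈ freespanV φ S) :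
    a * v ∈ freespanV φ S := by
  induction hv using Submodule.span_induction with
  | mem x hx =>
    rcases hx with hx | ⟨l, -, hc, hl, hw⟩
    · subst hx
      have := freespan_mul_word φ h1 S i a ha [] List.isChain_nil (by simp)
      simpa using this
    · rw [hw]
      exact freespan_mul_word φ h1 S i a ha l hc hl
  | zero => rw [mul_zero]; exact zero_mem _
  | add x y _ _ hx hy => rw [mul_add]; exact add_mem hx hy
  | smul c x _ hx => rw [mul_smul_comm]; exact Submodule.smul_mem _ _ hx

/-- The star subalgebra of the elements mapping the span into itself, with their adjoint. -/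
def freespanT (φ : A →ₗ[ℂ] ℂ) (S : I → StarSubalgebra ℂ A) : StarSubalgebra ℂ A where
  carrier := {b | (∀ v ∈ freespanV φ S, b * v ∈ freespanV φ S) ∧
    (∀ v ∈ freespanV φ S, star b * v ∈ freespanV φ S)}
  mul_mem' := by
    rintro a b ⟨ha1, ha2⟩ ⟨hb1, hb2⟩
    refine ⟨fun v hv => ?_, fun v hv => ?_⟩
    · rw [mul_assoc]; exact ha1 _ (hb1 _ hv)
    · rw [star_mul, mul_assoc]; exact hb2 _ (ha2 _ hv)
  add_mem' := by
    rintro a b ⟨ha1, ha2⟩ ⟨hb1, hb2⟩
    refine ⟨fun v hv => ?_, fun v hv => ?_⟩
    · rw [add_mul]; exact add_mem (ha1 _ hv) (hb1 _ hv)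
    · rw [star_add, add_mul]; exact add_mem (ha2 _ hv) (hb2 _ hv)
  algebraMap_mem' := by
    intro r
    refine ⟨fun v hv => ?_, fun v hv => ?_⟩
    · rw [← Algebra.smul_def]; exact Submodule.smul_mem _ _ hv
    · rw [← algebraMap_star_comm, ← Algebra.smul_def]; exact Submodule.smul_mem _ _ hv
  star_mem' := by
    rintro a ⟨ha1, ha2⟩
    refine ⟨ha2, fun v hv => ?_⟩
    rw [star_star]; exact ha1 v hv

/-- Every element of the algebra generated by the `S i` is a scalar plus a linear combination of
nonempty alternating centred words. NO freeness is needed.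

Proof. Let `V` be the span of `{1} ∪ cwords φ S`. (1) For `a ∈ S i` and a word `w` of the list `l`,
`a * w ∈ V`: if `l = []` (that is `w = 1`) then `a = (a - φ a • 1) + φ a • 1`. If `l = (j, x) :: l'`
and `i ≠ j` then `a * w = (a - φ a) * w + φ a • w` and `(i, a - φ a) :: l` is again an alternating
centred list. If `i = j` then `a * x ∈ S i` and
`a * w = (a x - φ (a x)) * w' + φ (a x) • w'`, where `w'` is the value of `l'`, the list
`(i, a x - φ (a x)) :: l'` is alternating and centred, and `l'` is either empty (`w' = 1`) or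
alternating and centred. (2) So `V` is stable under left multiplication by every `S i`, hence by
the star subalgebra `⨆ i, S i` (the set of `b` with `b V ⊆ V` is a subalgebra; the `S i` are star
closed so that the supremum is the algebra generated by the union; use
`StarAlgebra.adjoin_induction` for `adjoin (⋃ S i)`, or the set of `b` such that `b` and `star b`
both map `V` into itself, which is a star subalgebra). As `1 ∈ V` we get the claim, with
`1` contributing `c • 1`. -/
theorem span_words (φ : A →ₗ[ℂ] ℂ) (h1 : φ 1 = 1) (S : I → StarSubalgebra ℂ A) (x : A)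
    (hx : x ∈ ⨆ i, S i) :
    ∃ c : ℂ, x - algebraMap ℂ A c ∈ Submodule.span ℂ (cwords φ S) := by
  have hle : (⨆ i, S i) ≤ freespanT φ S := by
    refine iSup_le fun i a ha => ?_
    exact ⟨fun v hv => freespan_mul φ h1 S i a ha v hv,
      fun v hv => freespan_mul φ h1 S i (star a) (star_mem ha) v hv⟩
  have hx1 : x * 1 ∈ freespanV φ S :=
    (hle hx).1 1 (Submodule.subset_span (Set.mem_insert _ _))
  rw [mul_one, freespanV, Submodule.mem_span_insert] at hx1
  obtain ⟨c, z, hz, hxz⟩ := hx1
  refine ⟨c, ?_⟩
  rw [hxz, Algebra.algebraMap_eq_smul_one, add_sub_cancel_left]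
  exact hz

/-- If the family is free then `x - φ x` is a linear combination of nonempty alternating centred
words. Proof: `span_words`; `φ` vanishes on `cwords`, so that `φ x = c`. -/
theorem span_words_free (φ : A →ₗ[ℂ] ℂ) (h1 : φ 1 = 1) (S : I → StarSubalgebra ℂ A)
    (hS : IsFree φ S) (x : A) (hx : x ∈ ⨆ i, S i) :
    x - algebraMap ℂ A (φ x) ∈ Submodule.span ℂ (cwords φ S) := by
  obtain ⟨c, hc⟩ := span_words φ h1 S x hx
  have h0 : ∀ y ∈ Submodule.span ℂ (cwords φ S), φ y = 0 := by
    intro y hy
    have hle : Submodule.span ℂ (cwords φ S) ≤ LinearMap.ker φ := by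
      rw [Submodule.span_le]
      rintro w ⟨l, hl0, hl1, hl2, rfl⟩
      exact hS l hl0 hl1 hl2
    exact hle hy
  have h2 := h0 _ hc
  rw [map_sub, Algebra.algebraMap_eq_smul_one, map_smul, h1, smul_eq_mul, mul_one,
    sub_eq_zero] at h2
  rw [h2]
  exact hc

/-- Uniqueness of the free product functional: two functionals for which the same family is free
and which agree on every member agree on the generated algebra. Proof: by `span_words` for `φ`;
the centred words for `φ` and for `ψ` are the same. -/
theorem free_eq (φ ψ : A →ₗ[ℂ] ℂ) (h1 : φ 1 = 1) (h2 : ψ 1 = 1) (S : I → StarSubalgebra ℂ A)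
    (hφ : IsFree φ S) (hψ : IsFree ψ S) (heq : ∀ i, ∀ x ∈ S i, φ x = ψ x) :
    ∀ x ∈ ⨆ i, S i, φ x = ψ x := by
  intro x hx
  have hc := span_words_free φ h1 S hφ x hx
  have hle : Submodule.span ℂ (cwords φ S) ≤ LinearMap.ker ψ := by
    rw [Submodule.span_le]
    rintro w ⟨l, hl0, hl1, hl2, rfl⟩
    refine hψ l hl0 hl1 fun p hp => ?_
    exact ⟨(hl2 p hp).1, by rw [← heq p.1 p.2 (hl2 p hp).1]; exact (hl2 p hp).2⟩
  have h3 : ψ (x - algebraMap ℂ A (φ x)) = 0 := hle hc
  rw [map_sub, Algebra.algebraMap_eq_smul_one, map_smul, h2, smul_eq_mul, mul_one,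
    sub_eq_zero] at h3
  exact h3.symm

end H47
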