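import Pool.Agent.H.MP_47f0a1_an.Part

/-!
# Vector estimates for multiplication operators
-/

open scoped InnerProductSpace
open MeasureTheory

namespace H47
namespace FModel

variable {Z : Type} [MetricSpace Z] [CompactSpace Z] [MeasurableSpace Z] [BorelSpace Z]
  {μ : Measure Z} [IsProbabilityMeasure μ]
  {K : Type} [NormedAddCommGroup K] [InnerProductSpace ℂ K] [CompleteSpace K]
  (M : FModel C(Z, ℂ) (intL μ) K)

theorem norm_inc_le (a : C(Z, ℂ)) (C : ℝ) (hC : 0 ≤ C) (h : ∀ x, ‖a x‖ ≤ C) :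
    ‖M.inc a‖ ≤ C :=
  le_trans (NonUnitalStarAlgHom.norm_apply_le M.inc a) ((ContinuousMap.norm_le a hC).2 h)

/-- `‖inc a Ω‖² = ∫ |a|²`. -/
theorem norm_inc_Om_sq (a : C(Z, ℂ)) : ‖M.inc a M.Om‖ ^ 2 = (intL μ (star a * a)).re := by
  rw [← M.st_inc (star a * a), map_mul, map_star, M.st_star_mul, Complex.ofReal_re]

theorem incSum_norm_sq (x : K →L[ℂ] K) (ξ : K) :
    ((‖x ξ‖ ^ 2 : ℝ) : ℂ) = ⟪ξ, (star x * x) ξ⟫_ℂ := by
  rw [mul_apply_eq_comp, ContinuousLinearMap.star_eq_adjoint,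
    ContinuousLinearMap.adjoint_inner_right, inner_self_eq_norm_sq_to_K]
  norm_cast

/-- `∑ ‖inc (b j) ξ‖² ≤ C² ‖ξ‖²` if `∑ |b j|² ≤ C²` pointwise. Proof: let
`c = √(C² - ∑ |b j|²)`, a continuous function; `C² - ∑ star (b j) * b j = star c * c`, so that
`C² ‖ξ‖² - ∑ ‖inc (b j) ξ‖² = ‖inc c ξ‖² ≥ 0`. -/
theorem sum_inc_le {ι : Type*} [Fintype ι] (b : ι → C(Z, ℂ)) (C : ℝ)
    (hb : ∀ x, ∑ j, ‖b j x‖ ^ 2 ≤ C ^ 2) (ξ : K) :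
    ∑ j, ‖M.inc (b j) ξ‖ ^ 2 ≤ C ^ 2 * ‖ξ‖ ^ 2 := by
  obtain ⟨c, hc⟩ : ∃ c : C(Z, ℂ), ∀ x, c x = ((Real.sqrt (C ^ 2 - ∑ j, ‖b j x‖ ^ 2) : ℝ) : ℂ) :=
    ⟨⟨fun x => ((Real.sqrt (C ^ 2 - ∑ j, ‖b j x‖ ^ 2) : ℝ) : ℂ), by fun_prop⟩, fun _ => rfl⟩
  have h1 : star c * c + ∑ j, star (b j) * b j = algebraMap ℂ C(Z, ℂ) ((C ^ 2 : ℝ) : ℂ) := by
    ext x
    have h2 : (star c * c) x = ((C ^ 2 - ∑ j, ‖b j x‖ ^ 2 : ℝ) : ℂ) := by
      rw [ContinuousMap.mul_apply, ContinuousMap.star_apply, hc x]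
      have h3 : 0 ≤ C ^ 2 - ∑ j, ‖b j x‖ ^ 2 := sub_nonneg.2 (hb x)
      rw [RCLike.star_def, Complex.conj_ofReal, ← Complex.ofReal_mul, Real.mul_self_sqrt h3]
    have h4 : ∀ j, (star (b j) * b j) x = ((‖b j x‖ ^ 2 : ℝ) : ℂ) := by
      intro j
      rw [ContinuousMap.mul_apply, ContinuousMap.star_apply, RCLike.star_def,
        ← Complex.normSq_eq_conj_mul_self, Complex.normSq_eq_norm_sq]
    have h5 : (algebraMap ℂ C(Z, ℂ) ((C ^ 2 : ℝ) : ℂ)) x = ((C ^ 2 : ℝ) : ℂ) := rfl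
    rw [ContinuousMap.add_apply, ContinuousMap.sum_apply, h2, Finset.sum_congr rfl fun j _ => h4 j,
      h5]
    push_cast
    ring
  have h2 := congrArg M.inc h1
  rw [map_add, map_sum, map_mul, map_star] at h2
  have h3 : ((‖M.inc c ξ‖ ^ 2 + ∑ j, ‖M.inc (b j) ξ‖ ^ 2 : ℝ) : ℂ) =
      ((C ^ 2 * ‖ξ‖ ^ 2 : ℝ) : ℂ) := by
    have h4 : ⟪ξ, (star (M.inc c) * M.inc c + ∑ j, M.inc (star (b j) * b j)) ξ⟫_ℂ =
        ⟪ξ, (M.inc (algebraMap ℂ C(Z, ℂ) ((C ^ 2 : ℝ) : ℂ))) ξ⟫_ℂ := by rw [h2]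
    rw [add_apply, inner_add_right, sum_apply,
      inner_sum] at h4
    rw [Complex.ofReal_add, Complex.ofReal_sum, incSum_norm_sq]
    have h5 : ∀ j, (((‖M.inc (b j) ξ‖ ^ 2 : ℝ)) : ℂ) = ⟪ξ, (M.inc (star (b j) * b j)) ξ⟫_ℂ := by
      intro j
      rw [incSum_norm_sq, map_mul, map_star]
    rw [Finset.sum_congr rfl fun j _ => h5 j, h4, AlgHomClass.commutes]
    rw [Algebra.algebraMap_eq_smul_one, smul_apply,
      one_apply_eq_self, inner_smul_right, inner_self_eq_norm_sq_to_K]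
    push_cast
    rfl
  have h4 := Complex.ofReal_injective h3
  have h5 := sq_nonneg ‖M.inc c ξ‖
  linarith

end FModel
end H47
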