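import Mathlib

/-!
# Two-sided approximate intertwining
-/

open TopologicalSpace

namespace H47

open Filter Topology

theorem intertwA_exists_seq {α : Type*} (P : ℕ → α → Prop) (R : ℕ → α → α → Prop)
    (h0 : ∃ x, P 0 x) (hs : ∀ n x, P n x → ∃ y, P (n + 1) y ∧ R n x y) :
    ∃ f : ℕ → α, ∀ n, P n (f n) ∧ R n (f n) (f (n + 1)) := by
  classical
  obtain ⟨x0, hx0⟩ := h0
  have : Nonempty α := ⟨x0⟩
  choose! g hg using hs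
  let f : ∀ n, {x // P n x} := fun n =>
    Nat.rec ⟨x0, hx0⟩ (fun n x => ⟨g n x.1, (hg n x.1 x.2).1⟩) n
  exact ⟨fun n => (f n).1, fun n => ⟨(f n).2, (hg n (f n).1 (f n).2).2⟩⟩

theorem intertwA_dist {A B : Type*} [CStarAlgebra A] [CStarAlgebra B] (Φ : A →⋆ₐ[ℂ] B)
    (hΦ : ∀ x, ‖Φ x‖ = ‖x‖) (x y : A) : dist (Φ x) (Φ y) = dist x y := by
  rw [dist_eq_norm, ← map_sub, hΦ, dist_eq_norm]

theorem intertwA_cauchy {A B : Type*} [CStarAlgebra A] [CStarAlgebra B]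
    (Φ : ℕ → (A →⋆ₐ[ℂ] B)) (hΦ : ∀ n x, ‖Φ n x‖ = ‖x‖) (D : Set A) (hD : Dense D)
    (hc : ∀ x ∈ D, CauchySeq (fun n => Φ n x)) (x : A) : CauchySeq (fun n => Φ n x) := by
  rw [Metric.cauchySeq_iff]
  intro ε hε
  obtain ⟨d, hd, hxd⟩ := hD.exists_dist_lt x (ε := ε / 3) (by positivity)
  obtain ⟨N, hN⟩ := Metric.cauchySeq_iff.1 (hc d hd) (ε / 3) (by positivity)
  refine ⟨N, fun m hm n hn => ?_⟩
  have h2 := hN m hm n hn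
  have h3 := dist_triangle4 (Φ m x) (Φ m d) (Φ n d) (Φ n x)
  rw [intertwA_dist (Φ m) (hΦ m), dist_comm (Φ n d), intertwA_dist (Φ n) (hΦ n)] at h3
  linarith

theorem intertwA_limit {A B : Type*} [CStarAlgebra A] [CStarAlgebra B]
    (Φ : ℕ → (A →⋆ₐ[ℂ] B)) (hΦ : ∀ n x, ‖Φ n x‖ = ‖x‖) (D : Set A) (hD : Dense D)
    (hc : ∀ x ∈ D, CauchySeq (fun n => Φ n x)) :
    ∃ Θ : A →⋆ₐ[ℂ] B, (∀ x, Tendsto (fun n => Φ n x) atTop (𝓝 (Θ x))) ∧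
      ∀ x, ‖Θ x‖ = ‖x‖ := by
  have h : ∀ x, ∃ y, Tendsto (fun n => Φ n x) atTop (𝓝 y) := fun x =>
    cauchySeq_tendsto_of_complete (intertwA_cauchy Φ hΦ D hD hc x)
  choose f hf using h
  refine ⟨{ toFun := f, map_one' := ?_, map_mul' := ?_, map_zero' := ?_, map_add' := ?_,
            commutes' := ?_, map_star' := ?_ }, hf, ?_⟩
  · refine tendsto_nhds_unique (hf 1) ?_
    simp
  · intro x y
    refine tendsto_nhds_unique (hf (x * y)) ?_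
    simpa using (hf x).mul (hf y)
  · refine tendsto_nhds_unique (hf 0) ?_
    simp
  · intro x y
    refine tendsto_nhds_unique (hf (x + y)) ?_
    simpa using (hf x).add (hf y)
  · intro r
    refine tendsto_nhds_unique (hf _) ?_
    simp only [AlgHomClass.commutes]
    exact tendsto_const_nhds
  · intro x
    refine tendsto_nhds_unique (hf (star x)) ?_
    simpa [map_star] using (hf x).star
  · intro x
    refine tendsto_nhds_unique ((hf x).norm) ?_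
    simp [hΦ]

theorem intertwA_comp {A B : Type*} [CStarAlgebra A] [CStarAlgebra B]
    (Φ : ℕ → (A →⋆ₐ[ℂ] B)) (Ψ : ℕ → (B →⋆ₐ[ℂ] A)) (hΨ : ∀ n x, ‖Ψ n x‖ = ‖x‖)
    (Φ' : A →⋆ₐ[ℂ] B) (Ψ' : B →⋆ₐ[ℂ] A)
    (h1 : ∀ x, Tendsto (fun n => Φ n x) atTop (𝓝 (Φ' x)))
    (h2 : ∀ x, Tendsto (fun n => Ψ n x) atTop (𝓝 (Ψ' x))) (x : A) :
    Tendsto (fun n => Ψ n (Φ n x)) atTop (𝓝 (Ψ' (Φ' x))) := by
  rw [tendsto_iff_dist_tendsto_zero]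
  have h3 : Tendsto (fun n => dist (Φ n x) (Φ' x) + dist (Ψ n (Φ' x)) (Ψ' (Φ' x))) atTop
      (𝓝 (0 + 0)) :=
    (tendsto_iff_dist_tendsto_zero.1 (h1 x)).add (tendsto_iff_dist_tendsto_zero.1 (h2 (Φ' x)))
  rw [add_zero] at h3
  refine squeeze_zero (fun n => dist_nonneg) (fun n => ?_) h3
  have h4 := dist_triangle (Ψ n (Φ n x)) (Ψ n (Φ' x)) (Ψ' (Φ' x))
  rwa [intertwA_dist (Ψ n) (hΨ n)] at h4

theorem intertwA_cauchy_of {A B : Type*} [CStarAlgebra A] [CStarAlgebra B]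
    (Φ : ℕ → (A →⋆ₐ[ℂ] B)) (x : A) (N : ℕ)
    (h : ∀ n, N ≤ n → ‖Φ (n + 1) x - Φ n x‖ ≤ 2 * (1 / 2) ^ n) :
    CauchySeq (fun n => Φ n x) := by
  rw [← cauchySeq_shift N]
  refine cauchySeq_of_le_geometric (1 / 2) 2 (by norm_num) (fun n => ?_)
  have h1 := h (n + N) (by omega)
  rw [dist_comm, dist_eq_norm]
  have h2 : n + 1 + N = n + N + 1 := by omega
  rw [h2]
  refine h1.trans ?_
  have h3 : ((1 : ℝ) / 2) ^ (n + N) ≤ (1 / 2) ^ n :=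
    pow_le_pow_of_le_one (by norm_num) (by norm_num) (by omega)
  linarith

/-- From two convergent sequences with small composition errors on a dense set to an inverse. -/
theorem intertwA_inv {A B : Type*} [CStarAlgebra A] [CStarAlgebra B]
    (Φ : ℕ → (A →⋆ₐ[ℂ] B)) (Ψ : ℕ → (B →⋆ₐ[ℂ] A)) (hΨ : ∀ n x, ‖Ψ n x‖ = ‖x‖)
    (Φ' : A →⋆ₐ[ℂ] B) (Ψ' : B →⋆ₐ[ℂ] A) (hΦ' : ∀ x, ‖Φ' x‖ = ‖x‖) (hΨ' : ∀ x, ‖Ψ' x‖ = ‖x‖)
    (h1 : ∀ x, Tendsto (fun n => Φ n x) atTop (𝓝 (Φ' x)))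
    (h2 : ∀ x, Tendsto (fun n => Ψ n x) atTop (𝓝 (Ψ' x)))
    (D : Set A) (hD : Dense D)
    (h3 : ∀ x ∈ D, ∃ N : ℕ, ∀ n, N ≤ n → ‖Ψ n (Φ n x) - x‖ ≤ (1 / 2) ^ n) (x : A) :
    Ψ' (Φ' x) = x := by
  have hd : ∀ x ∈ D, Ψ' (Φ' x) = x := by
    intro x hx
    refine tendsto_nhds_unique (intertwA_comp Φ Ψ hΨ Φ' Ψ' h1 h2 x) ?_
    rw [tendsto_iff_norm_sub_tendsto_zero]
    obtain ⟨N, hN⟩ := h3 x hx
    refine squeeze_zero' (Eventually.of_forall fun n => norm_nonneg _) ?_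
      (tendsto_pow_atTop_nhds_zero_of_lt_one (r := (1 / 2 : ℝ)) (by norm_num) (by norm_num))
    filter_upwards [eventually_ge_atTop N] with n hn
    exact hN n hn
  have hc1 : Continuous Φ' := (Isometry.of_dist_eq (intertwA_dist Φ' hΦ')).continuous
  have hc2 : Continuous Ψ' := (Isometry.of_dist_eq (intertwA_dist Ψ' hΨ')).continuous
  have := Continuous.ext_on hD (hc2.comp hc1) continuous_id (fun x hx => hd x hx)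
  exact congrFun this x

/-- The state of the back and forth construction. -/
structure IntertwAState (A B : Type*) [CStarAlgebra A] [CStarAlgebra B] where
  P : A →⋆ₐ[ℂ] B
  Q : B →⋆ₐ[ℂ] A
  F : Finset A
  G : Finset B


/-- The ping-pong lemma. `𝒜` is a class of isometric homomorphisms `A → B`, `ℬ` one of isometric
homomorphisms `B → A`, and every member of one class has approximate left inverses in the other.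

Proof. Let `a_n`, `b_n` be dense sequences in `A`, `B`. Choose inductively `Φ_n ∈ 𝒜`, `Ψ_n ∈ ℬ` and
finite sets `F_n ⊆ A`, `G_n ⊆ B`: `F_n ⊇ F_{n-1} ∪ Ψ_{n-1}(G_{n-1}) ∪ {a_n}`,
`‖Ψ_n (Φ_n x) - x‖ ≤ 2^{-n}` for `x ∈ F_n`; `G_n ⊇ G_{n-1} ∪ Φ_n(F_n) ∪ {b_n}`,
`‖Φ_{n+1} (Ψ_n y) - y‖ ≤ 2^{-n}` for `y ∈ G_n`. Then for `x ∈ F_n`:
`‖Φ_{n+1} x - Φ_n x‖ ≤ ‖Φ_{n+1} x - Φ_{n+1} Ψ_n Φ_n x‖ + ‖Φ_{n+1} Ψ_n Φ_n x - Φ_n x‖ ≤ 2^{-n} + 2^{-n}`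
(`Φ_{n+1}` is isometric, `Φ_n x ∈ G_n`). So `(Φ_n x)` is Cauchy for `x ∈ ⋃ F_n`, which is dense, and, all
maps being isometric, for every `x`. The limit `Φ` is an isometric star homomorphism; in the same way
`Ψ_n → Ψ` pointwise (for `y ∈ G_n`: `‖Ψ_{n+1} y - Ψ_n y‖ ≤ ‖Ψ_{n+1} y - Ψ_{n+1} Φ_{n+1} Ψ_n y‖ +
‖Ψ_{n+1} Φ_{n+1} Ψ_n y - Ψ_n y‖ ≤ 2^{-n} + 2^{-n-1}`, since `Ψ_n y ∈ F_{n+1}`).
Finally `Ψ (Φ x) = lim Ψ_n (Φ_n x) = x` for `x ∈ ⋃ F_n`, hence for all `x`, and `Φ (Ψ y) = y` similarly. -/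
theorem ping_pong {A B : Type*} [CStarAlgebra A] [CStarAlgebra B] [SeparableSpace A]
    [SeparableSpace B] (𝒜 : Set (A →⋆ₐ[ℂ] B)) (ℬ : Set (B →⋆ₐ[ℂ] A))
    (h𝒜 : ∀ Φ ∈ 𝒜, ∀ x, ‖Φ x‖ = ‖x‖) (hℬ : ∀ Ψ ∈ ℬ, ∀ y, ‖Ψ y‖ = ‖y‖)
    (hne : 𝒜.Nonempty)
    (h1 : ∀ Φ ∈ 𝒜, ∀ (F : Finset A) (ε : ℝ), 0 < ε → ∃ Ψ ∈ ℬ, ∀ x ∈ F, ‖Ψ (Φ x) - x‖ ≤ ε)
    (h2 : ∀ Ψ ∈ ℬ, ∀ (G : Finset B) (ε : ℝ), 0 < ε → ∃ Φ ∈ 𝒜, ∀ y ∈ G, ‖Φ (Ψ y) - y‖ ≤ ε) :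
    Nonempty (A ≃⋆ₐ[ℂ] B) := by
  classical
  obtain ⟨a, ha⟩ := exists_dense_seq A
  obtain ⟨b, hb⟩ := exists_dense_seq B
  obtain ⟨f, hf⟩ := intertwA_exists_seq (α := IntertwAState A B)
    (fun n s => s.P ∈ 𝒜 ∧ s.Q ∈ ℬ ∧ a n ∈ s.F ∧ b n ∈ s.G ∧ (∀ x ∈ s.F, s.P x ∈ s.G) ∧
      ∀ x ∈ s.F, ‖s.Q (s.P x) - x‖ ≤ (1 / 2) ^ n)
    (fun n s t => s.F ⊆ t.F ∧ s.G ⊆ t.G ∧ (∀ y ∈ s.G, s.Q y ∈ t.F) ∧
      ∀ y ∈ s.G, ‖t.P (s.Q y) - y‖ ≤ (1 / 2) ^ n)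
    (by
      obtain ⟨Φ, hΦ⟩ := hne
      obtain ⟨Ψ, hΨ, hΨ'⟩ := h1 Φ hΦ {a 0} ((1 / 2) ^ 0) (by positivity)
      exact ⟨⟨Φ, Ψ, {a 0}, {b 0} ∪ ({a 0} : Finset A).image Φ⟩, hΦ, hΨ, by simp, by simp,
        by simp, hΨ'⟩)
    (by
      rintro n ⟨Φ, Ψ, F, G⟩ ⟨hP, hQ, haF, hbG, hFG, hQP⟩
      obtain ⟨Φ₁, hΦ₁, hΦ₁'⟩ := h2 Ψ hQ G ((1 / 2) ^ n) (by positivity)
      obtain ⟨Ψ₁, hΨ₁, hΨ₁'⟩ := h1 Φ₁ hΦ₁ (F ∪ G.image Ψ ∪ {a (n + 1)}) ((1 / 2) ^ (n + 1))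
        (by positivity)
      refine ⟨⟨Φ₁, Ψ₁, F ∪ G.image Ψ ∪ {a (n + 1)},
        G ∪ (F ∪ G.image Ψ ∪ {a (n + 1)}).image Φ₁ ∪ {b (n + 1)}⟩,
        ⟨hΦ₁, hΨ₁, ?_, ?_, ?_, hΨ₁'⟩, ?_, ?_, ?_, hΦ₁'⟩
      · simp
      · simp
      · intro x hx
        exact Finset.mem_union_left _ (Finset.mem_union_right _ (Finset.mem_image_of_mem _ hx))
      · intro x hx
        exact Finset.mem_union_left _ (Finset.mem_union_left _ hx)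
      · intro x hx
        exact Finset.mem_union_left _ (Finset.mem_union_left _ hx)
      · intro y hy
        exact Finset.mem_union_left _ (Finset.mem_union_right _ (Finset.mem_image_of_mem _ hy)))
  have hFmono : ∀ m n, m ≤ n → (f m).F ⊆ (f n).F := fun m n hmn =>
    monotone_nat_of_le_succ (f := fun n => (f n).F) (fun n => (hf n).2.1) hmn
  have hGmono : ∀ m n, m ≤ n → (f m).G ⊆ (f n).G := fun m n hmn =>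
    monotone_nat_of_le_succ (f := fun n => (f n).G) (fun n => (hf n).2.2.1) hmn
  have hPn : ∀ n x, ‖(f n).P x‖ = ‖x‖ := fun n x => h𝒜 _ (hf n).1.1 x
  have hQn : ∀ n x, ‖(f n).Q x‖ = ‖x‖ := fun n x => hℬ _ (hf n).1.2.1 x
  -- the dense sets
  have hDA : Dense (⋃ n, ((f n).F : Set A)) := by
    refine ha.mono ?_
    rintro _ ⟨n, rfl⟩
    exact Set.mem_iUnion.2 ⟨n, (hf n).1.2.2.1⟩
  have hDB : Dense (⋃ n, ((f n).G : Set B)) := by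
    refine hb.mono ?_
    rintro _ ⟨n, rfl⟩
    exact Set.mem_iUnion.2 ⟨n, (hf n).1.2.2.2.1⟩
  -- Cauchy
  have hcA : ∀ x ∈ (⋃ n, ((f n).F : Set A)), CauchySeq (fun n => (f n).P x) := by
    intro x hx
    obtain ⟨N, hN⟩ := Set.mem_iUnion.1 hx
    refine intertwA_cauchy_of (fun n => (f n).P) x N (fun n hn => ?_)
    have hxn : x ∈ (f n).F := hFmono N n hn hN
    have e1 : ‖(f (n + 1)).P x - (f (n + 1)).P ((f n).Q ((f n).P x))‖ ≤ (1 / 2) ^ n := by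
      rw [← map_sub, hPn, norm_sub_rev]
      exact (hf n).1.2.2.2.2.2 x hxn
    have e2 : ‖(f (n + 1)).P ((f n).Q ((f n).P x)) - (f n).P x‖ ≤ (1 / 2) ^ n :=
      (hf n).2.2.2.2 _ ((hf n).1.2.2.2.2.1 x hxn)
    calc ‖(f (n + 1)).P x - (f n).P x‖
        ≤ ‖(f (n + 1)).P x - (f (n + 1)).P ((f n).Q ((f n).P x))‖ +
          ‖(f (n + 1)).P ((f n).Q ((f n).P x)) - (f n).P x‖ := norm_sub_le_norm_sub_add_norm_sub _ _ _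
      _ ≤ 2 * (1 / 2) ^ n := by linarith
  have hcB : ∀ y ∈ (⋃ n, ((f n).G : Set B)), CauchySeq (fun n => (f n).Q y) := by
    intro y hy
    obtain ⟨N, hN⟩ := Set.mem_iUnion.1 hy
    refine intertwA_cauchy_of (fun n => (f n).Q) y N (fun n hn => ?_)
    have hyn : y ∈ (f n).G := hGmono N n hn hN
    have e1 : ‖(f (n + 1)).Q y - (f (n + 1)).Q ((f (n + 1)).P ((f n).Q y))‖ ≤ (1 / 2) ^ n := by
      rw [← map_sub, hQn, norm_sub_rev]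
      exact (hf n).2.2.2.2 y hyn
    have e2 : ‖(f (n + 1)).Q ((f (n + 1)).P ((f n).Q y)) - (f n).Q y‖ ≤ (1 / 2) ^ (n + 1) :=
      (hf (n + 1)).1.2.2.2.2.2 _ ((hf n).2.2.2.1 y hyn)
    have e3 : ((1 : ℝ) / 2) ^ (n + 1) ≤ (1 / 2) ^ n :=
      pow_le_pow_of_le_one (by norm_num) (by norm_num) (by omega)
    calc ‖(f (n + 1)).Q y - (f n).Q y‖
        ≤ ‖(f (n + 1)).Q y - (f (n + 1)).Q ((f (n + 1)).P ((f n).Q y))‖ +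
          ‖(f (n + 1)).Q ((f (n + 1)).P ((f n).Q y)) - (f n).Q y‖ :=
          norm_sub_le_norm_sub_add_norm_sub _ _ _
      _ ≤ 2 * (1 / 2) ^ n := by linarith
  obtain ⟨Φ', hΦ', hΦn⟩ := intertwA_limit (fun n => (f n).P) hPn _ hDA hcA
  obtain ⟨Ψ', hΨ', hΨn⟩ := intertwA_limit (fun n => (f n).Q) hQn _ hDB hcB
  have hl : ∀ x, Ψ' (Φ' x) = x := by
    refine intertwA_inv (fun n => (f n).P) (fun n => (f n).Q) hQn Φ' Ψ' hΦn hΨn hΦ' hΨ' _ hDA ?_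
    intro x hx
    obtain ⟨N, hN⟩ := Set.mem_iUnion.1 hx
    exact ⟨N, fun n hn => (hf n).1.2.2.2.2.2 x (hFmono N n hn hN)⟩
  have hr : ∀ y, Φ' (Ψ' y) = y := by
    refine intertwA_inv (fun n => (f n).Q) (fun n => (f (n + 1)).P) (fun n => hPn (n + 1)) Ψ' Φ'
      hΨn hΦn hΨ' (fun x => (hΦ' x).comp (tendsto_add_atTop_nat 1)) _ hDB ?_
    intro y hy
    obtain ⟨N, hN⟩ := Set.mem_iUnion.1 hy
    exact ⟨N, fun n hn => (hf n).2.2.2.2 y (hGmono N n hn hN)⟩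
  exact ⟨StarAlgEquiv.ofStarAlgHom Φ' Ψ' (StarAlgHom.ext hl) (StarAlgHom.ext hr)⟩

end H47
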