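import Pool.Agent.H.MP_47f0a1_an.Defs

/-!
# Trigonometric polynomials: the logarithm of the identity function of the circle
-/

open MeasureTheory

namespace H47

/-- Value of a Laurent polynomial at `exp(i t)`. -/
noncomputable def lev (p : LaurentPolynomial ℂ) (t : ℝ) : ℂ :=
  Finsupp.sum p.coeff (fun (k : ℤ) (c : ℂ) => c * Complex.exp (Complex.I * k * t))

theorem loga_exp_pi (k : ℤ) : Complex.exp (Complex.I * k * (Real.pi : ℝ)) = (-1) ^ k := by
  have h : Complex.I * k * (Real.pi : ℝ) = k * (Real.pi * Complex.I) := by ring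
  rw [h, Complex.exp_int_mul, Complex.exp_pi_mul_I]

theorem loga_neg_one_neg (k : ℤ) : ((-1 : ℂ)) ^ (-k) = (-1) ^ k := by
  rcases Int.even_or_odd k with h | h
  · rw [h.neg_one_zpow, h.neg.neg_one_zpow]
  · rw [h.neg_one_zpow, h.neg.neg_one_zpow]

theorem loga_exp_neg_pi (k : ℤ) :
    Complex.exp (Complex.I * k * ((-Real.pi : ℝ) : ℂ)) = (-1) ^ k := by
  have h : Complex.I * k * ((-Real.pi : ℝ) : ℂ) = Complex.I * ((-k : ℤ) : ℂ) * (Real.pi : ℝ) := by
    push_cast; ring
  rw [h, loga_exp_pi, loga_neg_one_neg]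

theorem loga_int_exp (k : ℤ) :
    ∫ t in (-Real.pi)..Real.pi, Complex.exp (Complex.I * k * (t : ℝ)) =
      if k = 0 then 2 * (Real.pi : ℂ) else 0 := by
  split_ifs with hk
  · subst hk
    simp
    ring
  · have hk' : Complex.I * (k : ℂ) ≠ 0 :=
      mul_ne_zero Complex.I_ne_zero (by exact_mod_cast hk)
    rw [integral_exp_mul_complex hk', loga_exp_pi, loga_exp_neg_pi, sub_self, zero_div]

theorem loga_int_mul_exp (k : ℤ) (hk : k ≠ 0) :
    ∫ t in (-Real.pi)..Real.pi, ((t : ℝ) : ℂ) * Complex.exp (Complex.I * k * (t : ℝ)) =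
      2 * (Real.pi : ℂ) * (-(Complex.I * (-1) ^ k / k)) := by
  have hkc : (k : ℂ) ≠ 0 := by exact_mod_cast hk
  have hderiv : ∀ t : ℝ, HasDerivAt
      (fun t : ℝ => Complex.exp (Complex.I * k * (t : ℂ)) * (-(Complex.I * t / k) + 1 / (k : ℂ) ^ 2))
      ((t : ℂ) * Complex.exp (Complex.I * k * (t : ℂ))) t := by
    intro t
    have h0 : HasDerivAt (fun t : ℝ => (t : ℂ)) 1 t := Complex.ofRealCLM.hasDerivAt
    have h1 : HasDerivAt (fun t : ℝ => Complex.exp (Complex.I * k * (t : ℂ)))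
        (Complex.exp (Complex.I * k * (t : ℂ)) * (Complex.I * k * 1)) t :=
      (h0.const_mul (Complex.I * k)).cexp
    have h2 : HasDerivAt (fun t : ℝ => -(Complex.I * (t : ℂ) / k) + 1 / (k : ℂ) ^ 2)
        (-(Complex.I * 1 / k)) t :=
      (((h0.const_mul Complex.I).div_const (k : ℂ)).neg).add_const _
    refine (h1.mul h2).congr_deriv ?_
    field_simp
    ring_nf
    rw [Complex.I_sq]
    ring
  rw [intervalIntegral.integral_eq_sub_of_hasDerivAt (fun t _ => hderiv t)
    (by apply Continuous.intervalIntegrable; fun_prop)]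
  rw [loga_exp_pi, loga_exp_neg_pi]
  push_cast
  ring

theorem loga_lev_continuous (p : LaurentPolynomial ℂ) : Continuous (lev p) := by
  unfold lev Finsupp.sum
  fun_prop

/-- The square of the norm. -/
theorem loga_norm_sq (S : Finset ℤ) (c : ℤ → ℂ) :
    ∫ t in (-Real.pi)..Real.pi, ‖∑ k ∈ S, c k * Complex.exp (Complex.I * k * (t : ℝ))‖ ^ 2 =
      2 * Real.pi * ∑ k ∈ S, ‖c k‖ ^ 2 := by
  have hpt : ∀ t : ℝ, ((‖∑ k ∈ S, c k * Complex.exp (Complex.I * k * (t : ℝ))‖ ^ 2 : ℝ) : ℂ) =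
      ∑ k ∈ S, ∑ l ∈ S, (c k * (starRingEnd ℂ) (c l)) *
        Complex.exp (Complex.I * ((k - l : ℤ) : ℂ) * (t : ℝ)) := by
    intro t
    rw [Complex.ofReal_pow, ← Complex.mul_conj', map_sum, Finset.sum_mul_sum]
    refine Finset.sum_congr rfl fun k _ => Finset.sum_congr rfl fun l _ => ?_
    rw [map_mul, ← Complex.exp_conj, map_mul, map_mul, Complex.conj_I, Complex.conj_ofReal,
      map_intCast]
    rw [mul_mul_mul_comm, ← Complex.exp_add]
    congr 2
    push_cast
    ring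
  have h : ((∫ t in (-Real.pi)..Real.pi,
      ‖∑ k ∈ S, c k * Complex.exp (Complex.I * k * (t : ℝ))‖ ^ 2 : ℝ) : ℂ) =
      ((2 * Real.pi * ∑ k ∈ S, ‖c k‖ ^ 2 : ℝ) : ℂ) := by
    rw [← intervalIntegral.integral_ofReal]
    simp_rw [hpt]
    rw [intervalIntegral.integral_finsetSum]
    · have : ∀ k ∈ S, ∫ t in (-Real.pi)..Real.pi, ∑ l ∈ S, (c k * (starRingEnd ℂ) (c l)) *
          Complex.exp (Complex.I * ((k - l : ℤ) : ℂ) * (t : ℝ)) = 2 * Real.pi * ‖c k‖ ^ 2 := by
        intro k hk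
        rw [intervalIntegral.integral_finsetSum]
        · simp_rw [intervalIntegral.integral_const_mul, loga_int_exp]
          rw [Finset.sum_eq_single k]
          · simp only [sub_self, if_true]
            rw [Complex.mul_conj']
            ring
          · intro l _ hl
            rw [if_neg (sub_ne_zero.2 (Ne.symm hl)), mul_zero]
          · exact fun h => absurd hk h
        · intro l _
          apply Continuous.intervalIntegrable
          fun_prop
      rw [Finset.sum_congr rfl this]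
      push_cast
      rw [Finset.mul_sum]
    · intro k _
      apply Continuous.intervalIntegrable
      fun_prop
  exact_mod_cast h

/-- Parseval. Proof: expand the square, `(1/2π) ∫_{-π}^{π} exp(i (k-l) t) dt = δ_{kl}`
(or `tsum_sq_fourierCoeff`). -/
theorem lev_parseval (p : LaurentPolynomial ℂ) :
    Finsupp.sum p.coeff (fun (_ : ℤ) (c : ℂ) => ‖c‖ ^ 2) =
      (2 * Real.pi)⁻¹ * ∫ t in (-Real.pi)..Real.pi, ‖lev p t‖ ^ 2 := by
  unfold lev Finsupp.sum
  rw [loga_norm_sq, ← mul_assoc, inv_mul_cancel₀ (by positivity), one_mul]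

/-- `lev` is multiplicative, etc. -/
theorem lev_mul (p q : LaurentPolynomial ℂ) (t : ℝ) : lev (p * q) t = lev p t * lev q t := by
  let F : Multiplicative ℤ →* ℂ :=
    { toFun := fun k => Complex.exp (Complex.I * (Multiplicative.toAdd k : ℤ) * t)
      map_one' := by simp
      map_mul' := by
        intro a b
        rw [← Complex.exp_add, toAdd_mul]
        congr 1
        push_cast
        ring }
  have h : ∀ r : LaurentPolynomial ℂ, lev r t = AddMonoidAlgebra.lift ℂ ℂ ℤ F r := by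
    intro r
    rw [AddMonoidAlgebra.lift_apply]
    rfl
  rw [h, h, h, map_mul]

/-- The truncated sawtooth. -/
theorem loga_saw_trunc (S : Finset ℤ) (p : LaurentPolynomial ℂ)
    (h0 : (0 : ℤ) ∉ S) (hp : ∀ k, p.coeff k = if k ∈ S then Complex.I * (-1) ^ k / k else 0) :
    (2 * Real.pi)⁻¹ * ∫ t in (-Real.pi)..Real.pi, ‖lev p t - (t : ℂ)‖ ^ 2 =
      Real.pi ^ 2 / 3 - ∑ k ∈ S, 1 / (k : ℝ) ^ 2 := by
  have hlev : ∀ t : ℝ, lev p t = ∑ k ∈ S, (Complex.I * (-1) ^ k / k) *
      Complex.exp (Complex.I * k * (t : ℝ)) := by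
    intro t
    unfold lev
    rw [Finsupp.sum_of_support_subset (s := S)]
    · refine Finset.sum_congr rfl fun k hk => ?_
      rw [hp, if_pos hk]
    · intro k hk
      by_contra hkS
      rw [Finsupp.mem_support_iff, hp, if_neg hkS] at hk
      exact hk rfl
    · intro k _
      rw [zero_mul]
  have hcont := loga_lev_continuous p
  have hnorm : ∀ k : ℤ, ‖Complex.I * (-1) ^ k / (k : ℂ)‖ ^ 2 = 1 / (k : ℝ) ^ 2 := by
    intro k
    rw [norm_div, norm_mul, Complex.norm_I, norm_zpow, norm_neg, norm_one, one_zpow, mul_one,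
      div_pow, one_pow, Complex.norm_intCast, sq_abs]
  have hexp : ∀ t : ℝ, ‖lev p t - (t : ℂ)‖ ^ 2 =
      ‖lev p t‖ ^ 2 - 2 * ((t : ℂ) * lev p t).re + t ^ 2 := by
    intro t
    rw [← Complex.normSq_eq_norm_sq, ← Complex.normSq_eq_norm_sq, Complex.normSq_sub,
      Complex.normSq_ofReal, Complex.conj_ofReal, mul_comm (lev p t)]
    ring
  have h1 : ∫ t in (-Real.pi)..Real.pi, ‖lev p t‖ ^ 2 =
      2 * Real.pi * ∑ k ∈ S, 1 / (k : ℝ) ^ 2 := by
    simp_rw [hlev]
    rw [loga_norm_sq]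
    simp_rw [hnorm]
  have h2c : ∫ t in (-Real.pi)..Real.pi, (t : ℂ) * lev p t =
      ((2 * Real.pi * ∑ k ∈ S, 1 / (k : ℝ) ^ 2 : ℝ) : ℂ) := by
    simp_rw [hlev, Finset.mul_sum]
    rw [intervalIntegral.integral_finsetSum]
    · push_cast
      refine Finset.sum_congr rfl fun k hk => ?_
      have hk0 : k ≠ 0 := fun h => h0 (h ▸ hk)
      have hkc : (k : ℂ) ≠ 0 := by exact_mod_cast hk0
      have e : ∀ t : ℝ, (t : ℂ) * (Complex.I * (-1) ^ k / k *
          Complex.exp (Complex.I * k * (t : ℝ))) = (Complex.I * (-1) ^ k / k) *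
          ((t : ℂ) * Complex.exp (Complex.I * k * (t : ℝ))) := by
        intro t
        ring
      simp_rw [e]
      rw [intervalIntegral.integral_const_mul, loga_int_mul_exp k hk0]
      have hsq : ((-1 : ℂ) ^ k) * ((-1) ^ k) = 1 := by
        rw [← mul_zpow]
        simp
      have : Complex.I * (-1) ^ k / (k : ℂ) * (2 * Real.pi * (-(Complex.I * (-1) ^ k / k))) =
          -(Complex.I * Complex.I) * (((-1 : ℂ) ^ k) * ((-1) ^ k)) * (2 * Real.pi) / (k : ℂ) ^ 2 := by
        field_simp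
      rw [this, hsq, Complex.I_mul_I]
      ring
    · intro k _
      apply Continuous.intervalIntegrable
      fun_prop
  have h2 : ∫ t in (-Real.pi)..Real.pi, ((t : ℂ) * lev p t).re =
      2 * Real.pi * ∑ k ∈ S, 1 / (k : ℝ) ^ 2 := by
    have := intervalIntegral.intervalIntegral_re (μ := volume) (a := -Real.pi) (b := Real.pi)
      (f := fun t : ℝ => (t : ℂ) * lev p t) (Continuous.intervalIntegrable (by fun_prop) _ _)
    simp only [RCLike.re_to_complex] at this
    rw [this, h2c, Complex.ofReal_re]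
  have h3 : ∫ t in (-Real.pi)..Real.pi, t ^ 2 = 2 * Real.pi * (Real.pi ^ 2 / 3) := by
    rw [integral_pow]
    push_cast
    ring
  simp_rw [hexp]
  rw [intervalIntegral.integral_add, intervalIntegral.integral_sub,
    intervalIntegral.integral_const_mul, h1, h2, h3]
  · have : Real.pi ≠ 0 := Real.pi_ne_zero
    field_simp
    ring
  all_goals
    apply Continuous.intervalIntegrable
    fun_prop

theorem loga_hasSum : HasSum (fun k : ℤ => 1 / (k : ℝ) ^ 2) (Real.pi ^ 2 / 3) := by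
  have h1 : HasSum (fun n : ℕ => 1 / (((n : ℤ) : ℤ) : ℝ) ^ 2) (Real.pi ^ 2 / 6) := by
    simpa using hasSum_zeta_two
  have h2 : HasSum (fun n : ℕ => 1 / (((-(n + 1 : ℤ)) : ℤ) : ℝ) ^ 2) (Real.pi ^ 2 / 6) := by
    have h := (hasSum_nat_add_iff' (f := fun n : ℕ => (1 : ℝ) / (n : ℝ) ^ 2) 1).2 hasSum_zeta_two
    simp only [Finset.range_one, Finset.sum_singleton, Nat.cast_zero, ne_eq, OfNat.ofNat_ne_zero,
      not_false_eq_true, zero_pow, div_zero, sub_zero] at h
    have e : (fun n : ℕ => 1 / (((-(n + 1 : ℤ)) : ℤ) : ℝ) ^ 2) =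
        fun n : ℕ => (1 : ℝ) / ((n + 1 : ℕ) : ℝ) ^ 2 := by
      funext n
      push_cast
      congr 1
      ring
    rw [e]
    exact h
  have h := HasSum.of_nat_of_neg_add_one (f := fun k : ℤ => 1 / (k : ℝ) ^ 2) h1 h2
  have e : Real.pi ^ 2 / 3 = Real.pi ^ 2 / 6 + Real.pi ^ 2 / 6 := by ring
  rw [e]
  exact h

/-- Real trigonometric polynomials approximate the sawtooth function `t` in `L²(-π, π)`.

Proof. The explicit truncations of the Fourier series: `p = ∑_{0<|k|≤n} c_k T^k` with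
`c_k = (1/2π) ∫ t exp(-i k t) dt`, converge in `L²` (`hasSum_fourier_series_L2` on
`AddCircle (2π)` applied to the lift of `t` from `(-π, π]`), and `c_{-k} = conj c_k` because `t` is real.
(With the explicit value `c_k = (-1)^{k+1}/(i k)·(-1)`, one can also use Parseval
`‖t - p‖² = ‖t‖² - ∑ |c_k|²` and `∑ 1/k² = π²/6`.) -/
theorem exists_saw (δ : ℝ) (hδ : 0 < δ) : ∃ p : LaurentPolynomial ℂ,
    (∀ k : ℤ, p.coeff (-k) = (starRingEnd ℂ) (p.coeff k)) ∧
    (2 * Real.pi)⁻¹ * ∫ t in (-Real.pi)..Real.pi, ‖lev p t - (t : ℂ)‖ ^ 2 ≤ δ := by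
  classical
  have hev := (loga_hasSum.eventually (lt_mem_nhds (show Real.pi ^ 2 / 3 - δ < Real.pi ^ 2 / 3 by
    linarith)))
  rw [SummationFilter.unconditional_filter, Filter.eventually_atTop] at hev
  obtain ⟨S0, hS0⟩ := hev
  set S1 : Finset ℤ := S0 ∪ S0.image (fun k => -k) with hS1
  have hb := hS0 S1 Finset.subset_union_left
  set S : Finset ℤ := S1.erase 0 with hS
  have hsum : ∑ k ∈ S, 1 / (k : ℝ) ^ 2 = ∑ k ∈ S1, 1 / (k : ℝ) ^ 2 := by
    refine Finset.sum_subset (Finset.erase_subset _ _) fun k hk hk' => ?_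
    have : k = 0 := by
      by_contra h
      exact hk' (Finset.mem_erase.2 ⟨h, hk⟩)
    rw [this]
    simp
  have hsym1 : ∀ k ∈ S1, -k ∈ S1 := by
    intro k hk
    rw [hS1, Finset.mem_union, Finset.mem_image] at hk ⊢
    rcases hk with hk | ⟨a, ha, rfl⟩
    · exact Or.inr ⟨k, hk, rfl⟩
    · left
      simpa using ha
  have hsym : ∀ k ∈ S, -k ∈ S := by
    intro k hk
    rw [hS, Finset.mem_erase] at hk ⊢
    exact ⟨neg_ne_zero.2 hk.1, hsym1 k hk.2⟩
  have hsym' : ∀ k, -k ∈ S ↔ k ∈ S := by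
    intro k
    refine ⟨fun h => ?_, hsym k⟩
    have := hsym _ h
    rwa [neg_neg] at this
  let f : ℤ →₀ ℂ := Finsupp.onFinset S
    (fun k => if k ∈ S then Complex.I * (-1) ^ k / k else 0) (by
      intro k hk
      by_contra h
      exact hk (if_neg h))
  have hf : ∀ k, (AddMonoidAlgebra.ofCoeff f : LaurentPolynomial ℂ).coeff k =
      if k ∈ S then Complex.I * (-1) ^ k / k else 0 := by
    intro k
    rfl
  refine ⟨AddMonoidAlgebra.ofCoeff f, ?_, ?_⟩
  · intro k
    rw [hf, hf]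
    by_cases hk : k ∈ S
    · rw [if_pos ((hsym' k).2 hk), if_pos hk, map_div₀, map_mul, Complex.conj_I, map_zpow₀,
        map_neg, map_one, map_intCast, loga_neg_one_neg]
      push_cast
      rw [div_neg, neg_mul, neg_div]
    · rw [if_neg (fun h => hk ((hsym' k).1 h)), if_neg hk, map_zero]
  · rw [loga_saw_trunc S _ (by simp [hS]) hf, hsum]
    linarith

end H47
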