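import Pool.Agent.H.MP_47f0a1_an.LogB0
import Pool.Agent.H.MP_47f0a1_an.ModelTrace

/-!
# Trigonometric polynomials in an almost unitary element
-/

open scoped InnerProductSpace

namespace H47

namespace FModel

variable {A : Type*} [Ring A] [StarRing A] [Algebra ℂ A] [StarModule ℂ A]
  {τ : A →ₗ[ℂ] ℂ} {K : Type} [NormedAddCommGroup K] [InnerProductSpace ℂ K]
  [CompleteSpace K] (M : FModel A τ K) (hτ : ∀ a b, τ (a * b) = τ (b * a))
  (U : K →L[ℂ] K) (hU : U ∈ M.E Set.univ) (hU1 : ‖U‖ ≤ 1)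

include hU in
theorem logb_zp_mem (k : ℤ) : zp U k ∈ M.E Set.univ := by
  cases k with
  | ofNat n => exact pow_mem hU n
  | negSucc n => exact pow_mem (star_mem hU) (n + 1)

include hU in
theorem Lam_mem (p : LaurentPolynomial ℂ) : Lam U p ∈ M.E Set.univ := by
  unfold Lam Finsupp.sum
  exact sum_mem fun k _ => SMulMemClass.smul_mem _ (M.logb_zp_mem U hU k)

theorem logb_defect (x : K →L[ℂ] K) (hx : ‖x‖ ≤ 1) :
    ‖(1 - star x * x) M.Om‖ ^ 2 ≤ 1 - ‖x M.Om‖ ^ 2 := by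
  have h1 : (1 - star x * x) M.Om = M.Om - (star x) (x M.Om) := rfl
  have h2 : RCLike.re ⟪M.Om, (star x) (x M.Om)⟫_ℂ = ‖x M.Om‖ ^ 2 := by
    have h := M.st_star_mul x
    have h' : ⟪M.Om, (star x) (x M.Om)⟫_ℂ = ((‖x M.Om‖ ^ 2 : ℝ) : ℂ) := h
    rw [h']
    exact Complex.ofReal_re _
  have h3 : ‖(star x) (x M.Om)‖ ≤ ‖x M.Om‖ := by
    refine ((star x).le_opNorm _).trans ?_
    rw [norm_star]
    exact mul_le_of_le_one_left (norm_nonneg _) hx
  have h4 : ‖(star x) (x M.Om)‖ ^ 2 ≤ ‖x M.Om‖ ^ 2 := by gcongr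
  rw [h1, norm_sub_sq (𝕜 := ℂ), h2, M.norm_Om]
  linarith

theorem logb_st_defect (x : K →L[ℂ] K) :
    (M.st (1 - star x * x)).re = 1 - ‖x M.Om‖ ^ 2 := by
  rw [map_sub, M.st_one, M.st_star_mul, Complex.sub_re, Complex.one_re, Complex.ofReal_re]

include hU hτ hU1 in
/-- Defects in the two-norm: `‖(1 - U* U) Ω‖² ≤ st (1 - U* U)`, because `0 ≤ 1 - U* U ≤ 1` gives
`(1 - U* U)² ≤ 1 - U* U`; and the same for `1 - U U*`, whose value under `st` is the same by the trace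
property. -/
theorem defect_Om (κ : ℝ) (hκ : (M.st (1 - star U * U)).re ≤ κ) :
    ‖(1 - star U * U) M.Om‖ ^ 2 ≤ κ ∧ ‖(1 - U * star U) M.Om‖ ^ 2 ≤ κ := by
  rw [M.logb_st_defect] at hκ
  refine ⟨(M.logb_defect U hU1).trans hκ, ?_⟩
  have h1 := M.logb_defect (star U) (by rwa [norm_star])
  rw [star_star, M.norm_star_Om hτ U hU] at h1
  exact h1.trans hκ

theorem logb_zp_nat (V : K →L[ℂ] K) (n : ℕ) : zp V (n : ℤ) = V ^ n := rfl

theorem logb_zp_neg (V : K →L[ℂ] K) (n : ℕ) : zp V (-(n : ℤ)) = (star V) ^ n := by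
  cases n with
  | zero =>
    rw [Nat.cast_zero, neg_zero, pow_zero]
    exact pow_zero V
  | succ n =>
    have h : (-((n + 1 : ℕ) : ℤ)) = Int.negSucc n := rfl
    rw [h]
    rfl

theorem logb_zp_star (V : K →L[ℂ] K) (k : ℤ) : zp (star V) k = zp V (-k) := by
  obtain ⟨n, rfl | rfl⟩ := k.eq_nat_or_neg
  · rw [logb_zp_nat, logb_zp_neg]
  · rw [logb_zp_neg, neg_neg, logb_zp_nat, star_star]

theorem logb_norm_pow (V : K →L[ℂ] K) (hV : ‖V‖ ≤ 1) (n : ℕ) : ‖V ^ n‖ ≤ 1 := by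
  have h := norm_zp_le V hV (n : ℤ)
  rwa [logb_zp_nat] at h

include hτ in
/-- The case `k = n ≥ 0`, `l = -m ≤ 0`. -/
theorem logb_mixed (V : K →L[ℂ] K) (hV : V ∈ M.E Set.univ) (hV1 : ‖V‖ ≤ 1) (e : ℝ)
    (he : ‖(1 - V * star V) M.Om‖ ≤ e) (n : ℕ) :
    ∀ m : ℕ, ‖(V ^ n * (star V) ^ m - zp V ((n : ℤ) - (m : ℤ))) M.Om‖ ≤ n * e := by
  induction n with
  | zero =>
    intro m
    rw [pow_zero, one_mul, Nat.cast_zero, zero_sub, logb_zp_neg, sub_self, Nat.cast_zero, zero_mul]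
    simp
  | succ n ih =>
    intro m
    have he0 : 0 ≤ e := (norm_nonneg _).trans he
    cases m with
    | zero =>
      rw [pow_zero, mul_one, Nat.cast_zero, sub_zero, logb_zp_nat, sub_self]
      have : ‖(0 : K →L[ℂ] K) M.Om‖ = 0 := by simp
      rw [this]
      positivity
    | succ m =>
      have h1 : ((n + 1 : ℕ) : ℤ) - ((m + 1 : ℕ) : ℤ) = (n : ℤ) - (m : ℤ) := by
        push_cast
        ring
      have h2 : V ^ (n + 1) * (star V) ^ (m + 1) - zp V ((n : ℤ) - (m : ℤ)) =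
          (V ^ n * (star V) ^ m - zp V ((n : ℤ) - (m : ℤ))) -
            V ^ n * ((1 - V * star V) * (star V) ^ m) := by
        rw [pow_succ V n, pow_succ' (star V) m]
        noncomm_ring
      have h3 : ‖(V ^ n * ((1 - V * star V) * (star V) ^ m)) M.Om‖ ≤ e := by
        have h4 : (V ^ n * ((1 - V * star V) * (star V) ^ m)) M.Om =
            (V ^ n) ((1 - V * star V) (((star V) ^ m) M.Om)) := rfl
        rw [h4]
        have h5 : ‖(V ^ n) ((1 - V * star V) (((star V) ^ m) M.Om))‖ ≤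
            ‖(1 - V * star V) (((star V) ^ m) M.Om)‖ := by
          refine ((V ^ n).le_opNorm _).trans ?_
          exact mul_le_of_le_one_left (norm_nonneg _) (logb_norm_pow V hV1 n)
        have h6 : ‖(1 - V * star V) (((star V) ^ m) M.Om)‖ ≤
            ‖(star V) ^ m‖ * ‖(1 - V * star V) M.Om‖ := by
          apply M.norm_mul_Om_le hτ
          · exact sub_mem (one_mem _) (mul_mem hV (star_mem hV))
          · exact pow_mem (star_mem hV) m
        have h7 : ‖(star V) ^ m‖ ≤ 1 := logb_norm_pow (star V) (by rwa [norm_star]) m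
        refine h5.trans (h6.trans ?_)
        exact (mul_le_of_le_one_left (norm_nonneg _) h7).trans he
      rw [h1, h2, ContinuousLinearMap.sub_apply]
      refine (norm_sub_le _ _).trans ?_
      refine (add_le_add (ih m) h3).trans (le_of_eq ?_)
      push_cast
      ring

include hU hτ hU1 in
/-- `‖(U^{[k]} U^{[l]} - U^{[k+l]}) Ω‖ ≤ |k| √κ`.

Proof. Equality if `k, l` have the same sign. For `k = n+1`, `l = -(m+1)`:
`U^{n+1} (U*)^{m+1} = U^n (U*)^m - U^n (1 - U U*) (U*)^m`, the last term applied to `Ω` has norm at most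
`‖(1 - U U*) (U*)^m Ω‖ ≤ ‖(1 - U U*) Ω‖ ≤ √κ` (`norm_mul_Om_le`), and induction on `n`. Similarly for
`k < 0 < l`. -/
theorem zp_mul (κ : ℝ) (hκ : (M.st (1 - star U * U)).re ≤ κ) (k l : ℤ) :
    ‖(zp U k * zp U l - zp U (k + l)) M.Om‖ ≤ |(k : ℝ)| * Real.sqrt κ := by
  obtain ⟨hd1, hd2⟩ := M.defect_Om hτ U hU hU1 κ hκ
  have e1 : ‖(1 - star U * U) M.Om‖ ≤ Real.sqrt κ := Real.le_sqrt_of_sq_le hd1
  have e2 : ‖(1 - U * star U) M.Om‖ ≤ Real.sqrt κ := Real.le_sqrt_of_sq_le hd2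
  have hz : ∀ x y : K →L[ℂ] K, x = y → ‖(x - y) M.Om‖ ≤ |(k : ℝ)| * Real.sqrt κ := by
    intro x y hxy
    have : ‖(x - y) M.Om‖ = 0 := by
      rw [hxy, sub_self]
      simp
    rw [this]
    positivity
  obtain ⟨n, hn⟩ := k.eq_nat_or_neg
  obtain ⟨m, hm⟩ := l.eq_nat_or_neg
  rcases hn with hn | hn <;> rcases hm with hm | hm
  · subst hn hm
    apply hz
    rw [← Nat.cast_add, logb_zp_nat, logb_zp_nat, logb_zp_nat, pow_add]
  · have h := M.logb_mixed hτ U hU hU1 (Real.sqrt κ) e2 n m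
    have hk : |(k : ℝ)| = n := by
      rw [hn]
      simp
    rw [hk, hn, hm, logb_zp_nat, logb_zp_neg, ← sub_eq_add_neg]
    exact h
  · have h := M.logb_mixed hτ (star U) (star_mem hU) (by rwa [norm_star]) (Real.sqrt κ)
      (by rwa [star_star]) n m
    have hk : |(k : ℝ)| = n := by
      rw [hn]
      simp
    rw [star_star, logb_zp_star] at h
    have h2 : -((n : ℤ) - (m : ℤ)) = -(n : ℤ) + (m : ℤ) := by ring
    rw [h2] at h
    rw [hk, hn, hm, logb_zp_nat, logb_zp_neg]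
    exact h
  · subst hn hm
    apply hz
    have h2 : (-(n : ℤ) + -(m : ℤ)) = -((n + m : ℕ) : ℤ) := by
      push_cast
      ring
    rw [h2, logb_zp_neg, logb_zp_neg, logb_zp_neg, pow_add]

theorem logb_Lam_sum (p : LaurentPolynomial ℂ) :
    Lam U p = ∑ k ∈ p.coeff.support, p.coeff k • zp U k := rfl

/-- `Λ` as a linear map. -/
noncomputable def logb_L : LaurentPolynomial ℂ →ₗ[ℂ] (K →L[ℂ] K) where
  toFun p := Lam U p
  map_add' p q := Lam_add U p q
  map_smul' c p := Lam_smul U c p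

theorem logb_Lam_single (k : ℤ) (c : ℂ) :
    Lam U (AddMonoidAlgebra.single k c : LaurentPolynomial ℂ) = c • zp U k := by
  unfold Lam
  rw [AddMonoidAlgebra.coeff_single, Finsupp.sum_single_index]
  rw [zero_smul]

theorem logb_Lam_prod (p q : LaurentPolynomial ℂ) :
    Lam U (p * q) = ∑ k ∈ p.coeff.support, ∑ l ∈ q.coeff.support,
      (p.coeff k * q.coeff l) • zp U (k + l) := by
  rw [AddMonoidAlgebra.mul_def]
  have h : ∀ x, Lam U x = logb_L U x := fun _ => rfl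
  unfold Finsupp.sum
  rw [h, map_sum]
  refine Finset.sum_congr rfl fun k _ => ?_
  rw [map_sum]
  refine Finset.sum_congr rfl fun l _ => ?_
  rw [← h, logb_Lam_single]

include hU hτ hU1 in
/-- Hence `‖(Λ(p) Λ(q) - Λ(p q)) Ω‖ ≤ C √κ` with `C = (∑ |k| |p_k|) (∑ |q_l|)`. -/
theorem Lam_mul (κ : ℝ) (hκ : (M.st (1 - star U * U)).re ≤ κ) (p q : LaurentPolynomial ℂ) :
    ‖(Lam U p * Lam U q - Lam U (p * q)) M.Om‖ ≤
      (Finsupp.sum p.coeff (fun (k : ℤ) (c : ℂ) => |(k : ℝ)| * ‖c‖) * l1 q) * Real.sqrt κ := by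
  have h1 : Lam U p * Lam U q - Lam U (p * q) =
      ∑ k ∈ p.coeff.support, ∑ l ∈ q.coeff.support,
        (p.coeff k * q.coeff l) • (zp U k * zp U l - zp U (k + l)) := by
    rw [logb_Lam_prod, logb_Lam_sum, logb_Lam_sum, Finset.sum_mul, ← Finset.sum_sub_distrib]
    refine Finset.sum_congr rfl fun k _ => ?_
    rw [Finset.mul_sum, ← Finset.sum_sub_distrib]
    refine Finset.sum_congr rfl fun l _ => ?_
    rw [smul_mul_smul_comm, smul_sub]
  have h2 : (∑ k ∈ p.coeff.support, ∑ l ∈ q.coeff.support,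
        (p.coeff k * q.coeff l) • (zp U k * zp U l - zp U (k + l))) M.Om =
      ∑ k ∈ p.coeff.support, ∑ l ∈ q.coeff.support,
        (p.coeff k * q.coeff l) • ((zp U k * zp U l - zp U (k + l)) M.Om) := by
    rw [ContinuousLinearMap.sum_apply]
    refine Finset.sum_congr rfl fun k _ => ?_
    rw [ContinuousLinearMap.sum_apply]
    rfl
  rw [h1, h2]
  unfold l1 Finsupp.sum
  rw [Finset.sum_mul_sum, Finset.sum_mul]
  refine (norm_sum_le _ _).trans (Finset.sum_le_sum fun k _ => ?_)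
  rw [Finset.sum_mul]
  refine (norm_sum_le _ _).trans (Finset.sum_le_sum fun l _ => ?_)
  rw [norm_smul, norm_mul]
  have h3 := M.zp_mul hτ U hU hU1 κ hκ k l
  calc ‖p.coeff k‖ * ‖q.coeff l‖ * ‖(zp U k * zp U l - zp U (k + l)) M.Om‖
      ≤ ‖p.coeff k‖ * ‖q.coeff l‖ * (|(k : ℝ)| * Real.sqrt κ) := by gcongr
    _ = |(k : ℝ)| * ‖p.coeff k‖ * ‖q.coeff l‖ * Real.sqrt κ := by ring

theorem logb_norm_sum (r : LaurentPolynomial ℂ) :
    (((‖(Lam U r) M.Om‖ ^ 2 : ℝ)) : ℂ) = ∑ k ∈ r.coeff.support, ∑ l ∈ r.coeff.support,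
      ((starRingEnd ℂ) (r.coeff k) * r.coeff l) * M.st (zp U (-k) * zp U l) := by
  rw [← M.st_star_mul]
  have h1 : star (Lam U r) * Lam U r = ∑ k ∈ r.coeff.support, ∑ l ∈ r.coeff.support,
      ((starRingEnd ℂ) (r.coeff k) * r.coeff l) • (zp U (-k) * zp U l) := by
    rw [logb_Lam_sum, star_sum, Finset.sum_mul]
    refine Finset.sum_congr rfl fun k _ => ?_
    rw [Finset.mul_sum]
    refine Finset.sum_congr rfl fun l _ => ?_
    rw [star_smul, smul_mul_smul_comm, zp_star]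
    rfl
  rw [h1, map_sum]
  refine Finset.sum_congr rfl fun k _ => ?_
  rw [map_sum]
  refine Finset.sum_congr rfl fun l _ => ?_
  rw [map_smul, smul_eq_mul]

theorem logb_st_zp (hpow : ∀ n : ℕ, 1 ≤ n → M.st (U ^ n) = 0) (j : ℤ) :
    M.st (zp U j) = if j = 0 then 1 else 0 := by
  obtain ⟨n, rfl | rfl⟩ := j.eq_nat_or_neg
  · rw [logb_zp_nat]
    rcases Nat.eq_zero_or_pos n with rfl | hn
    · rw [pow_zero, M.st_one]
      simp
    · rw [hpow n hn, if_neg]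
      omega
  · rw [logb_zp_neg]
    rcases Nat.eq_zero_or_pos n with rfl | hn
    · rw [pow_zero, M.st_one]
      simp
    · rw [← star_pow, M.st_star, hpow n hn, map_zero, if_neg]
      omega

theorem logb_norm_st_le (x : K →L[ℂ] K) : ‖M.st x‖ ≤ ‖x M.Om‖ := by
  rw [st_apply]
  refine (norm_inner_le_norm _ _).trans ?_
  rw [M.norm_Om, one_mul]

include hU hτ hU1 in
/-- `‖Λ(r) Ω‖² ≤ ∑ |r_k|² + C √κ` with `C = (∑ |k| |r_k|) (∑ |r_l|)`.

Proof. `‖Λ(r) Ω‖² = ∑_{k,l} conj(r_k) r_l ⟪U^{[k]} Ω, U^{[l]} Ω⟫ =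
∑ conj(r_k) r_l st (U^{[-k]} U^{[l]})` (`zp_star`), and `|st (U^{[-k]} U^{[l]}) - st (U^{[l-k]})| ≤ |k| √κ`,
`st (U^{[j]}) = δ_{j0}` (for `j < 0` by `st_star`). -/
theorem Lam_norm_sq (κ : ℝ) (hκ : (M.st (1 - star U * U)).re ≤ κ)
    (hpow : ∀ n : ℕ, 1 ≤ n → M.st (U ^ n) = 0) (r : LaurentPolynomial ℂ) :
    ‖(Lam U r) M.Om‖ ^ 2 ≤ Finsupp.sum r.coeff (fun (_ : ℤ) (c : ℂ) => ‖c‖ ^ 2) +
      (Finsupp.sum r.coeff (fun (k : ℤ) (c : ℂ) => |(k : ℝ)| * ‖c‖) * l1 r) * Real.sqrt κ := by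
  have h1 : (((‖(Lam U r) M.Om‖ ^ 2 : ℝ)) : ℂ) =
      (∑ k ∈ r.coeff.support, ((‖r.coeff k‖ ^ 2 : ℝ) : ℂ)) +
      ∑ k ∈ r.coeff.support, ∑ l ∈ r.coeff.support,
        ((starRingEnd ℂ) (r.coeff k) * r.coeff l) *
          M.st (zp U (-k) * zp U l - zp U (-k + l)) := by
    rw [M.logb_norm_sum, ← Finset.sum_add_distrib]
    refine Finset.sum_congr rfl fun k hk => ?_
    have h2 : ((‖r.coeff k‖ ^ 2 : ℝ) : ℂ) = ∑ l ∈ r.coeff.support,
        ((starRingEnd ℂ) (r.coeff k) * r.coeff l) * M.st (zp U (-k + l)) := by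
      rw [Finset.sum_eq_single k]
      · rw [M.logb_st_zp U hpow, neg_add_cancel, if_pos rfl, mul_one, mul_comm,
          Complex.mul_conj, Complex.normSq_eq_norm_sq]
      · intro l _ hlk
        rw [M.logb_st_zp U hpow, if_neg, mul_zero]
        omega
      · intro h
        exact absurd hk h
    rw [h2, ← Finset.sum_add_distrib]
    refine Finset.sum_congr rfl fun l _ => ?_
    rw [map_sub]
    ring
  have h3 : ‖(((‖(Lam U r) M.Om‖ ^ 2 : ℝ)) : ℂ)‖ = ‖(Lam U r) M.Om‖ ^ 2 := by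
    rw [Complex.norm_real, Real.norm_of_nonneg (sq_nonneg _)]
  rw [← h3, h1]
  refine (norm_add_le _ _).trans (add_le_add ?_ ?_)
  · unfold Finsupp.sum
    refine (norm_sum_le _ _).trans (Finset.sum_le_sum fun k _ => ?_)
    rw [Complex.norm_real, Real.norm_of_nonneg (sq_nonneg _)]
  · unfold l1 Finsupp.sum
    rw [Finset.sum_mul_sum, Finset.sum_mul]
    refine (norm_sum_le _ _).trans (Finset.sum_le_sum fun k _ => ?_)
    rw [Finset.sum_mul]
    refine (norm_sum_le _ _).trans (Finset.sum_le_sum fun l _ => ?_)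
    rw [norm_mul, norm_mul, RCLike.norm_conj]
    have h4 := (M.logb_norm_st_le (zp U (-k) * zp U l - zp U (-k + l))).trans
      (M.zp_mul hτ U hU hU1 κ hκ (-k) l)
    rw [Int.cast_neg, abs_neg] at h4
    calc ‖r.coeff k‖ * ‖r.coeff l‖ * ‖M.st (zp U (-k) * zp U l - zp U (-k + l))‖
        ≤ ‖r.coeff k‖ * ‖r.coeff l‖ * (|(k : ℝ)| * Real.sqrt κ) := by gcongr
      _ = |(k : ℝ)| * ‖r.coeff k‖ * ‖r.coeff l‖ * Real.sqrt κ := by ring

end FModel

end H47
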