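import Pool.Agent.H.MP_47f0a1_an.LogT

/-!
# Trigonometric polynomials in an element: algebra
-/

namespace H47

/-- `U^k` for `k ≥ 0` and `(U*)^{-k}` for `k < 0`. -/
noncomputable def zp {R : Type*} [Ring R] [StarRing R] (U : R) : ℤ → R
  | Int.ofNat n => U ^ n
  | Int.negSucc n => (star U) ^ (n + 1)

/-- `∑ p_k U^{[k]}`. -/
noncomputable def Lam {R : Type*} [Ring R] [StarRing R] [Algebra ℂ R] (U : R)
    (p : LaurentPolynomial ℂ) : R :=
  Finsupp.sum p.coeff (fun (k : ℤ) (c : ℂ) => c • zp U k)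

theorem zp_star {R : Type*} [Ring R] [StarRing R] (U : R) (k : ℤ) :
    star (zp U k) = zp U (-k) := by
  match k with
  | Int.ofNat 0 => simp [zp]
  | Int.ofNat (n + 1) =>
    show star (U ^ (n + 1)) = (star U) ^ (n + 1)
    rw [star_pow]
  | Int.negSucc n =>
    show star ((star U) ^ (n + 1)) = U ^ (n + 1)
    rw [star_pow, star_star]

theorem Lam_add {R : Type*} [Ring R] [StarRing R] [Algebra ℂ R] (U : R)
    (p q : LaurentPolynomial ℂ) : Lam U (p + q) = Lam U p + Lam U q := by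
  unfold Lam
  rw [AddMonoidAlgebra.coeff_add]
  exact Finsupp.sum_add_index' (fun _ => zero_smul _ _) (fun _ _ _ => add_smul _ _ _)

theorem Lam_smul {R : Type*} [Ring R] [StarRing R] [Algebra ℂ R] (U : R) (c : ℂ)
    (p : LaurentPolynomial ℂ) : Lam U (c • p) = c • Lam U p := by
  unfold Lam
  rw [AddMonoidAlgebra.coeff_smul, Finsupp.smul_sum]
  refine (Finsupp.sum_smul_index' (fun k => zero_smul ℂ (zp U k))).trans ?_
  refine Finsupp.sum_congr fun k _ => ?_
  rw [smul_assoc]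

theorem Lam_star {R : Type*} [Ring R] [StarRing R] [Algebra ℂ R] [StarModule ℂ R] (U : R)
    (p : LaurentPolynomial ℂ) (hp : ∀ k : ℤ, p.coeff (-k) = (starRingEnd ℂ) (p.coeff k)) :
    star (Lam U p) = Lam U p := by
  unfold Lam Finsupp.sum
  rw [star_sum]
  refine Finset.sum_nbij' (fun k => -k) (fun k => -k) ?_ ?_ ?_ ?_ ?_
  · intro k hk
    rw [Finsupp.mem_support_iff] at hk ⊢
    rw [hp k]
    simpa using hk
  · intro k hk
    rw [Finsupp.mem_support_iff] at hk ⊢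
    rw [hp k]
    simpa using hk
  · intro k _
    simp
  · intro k _
    simp
  · intro k _
    rw [star_smul, zp_star, hp k]
    rfl

/-- Powers of a contraction are contractions (`‖1‖ ≤ 1` in every C*-algebra). -/
theorem norm_zp_le {R : Type*} [CStarAlgebra R] (U : R) (hU1 : ‖U‖ ≤ 1) (k : ℤ) :
    ‖zp U k‖ ≤ 1 := by
  have h1 : ‖(1 : R)‖ ≤ 1 := by
    have h : ‖(1 : R)‖ * ‖(1 : R)‖ = ‖(1 : R)‖ := by
      have h2 := CStarRing.norm_star_mul_self (x := (1 : R))
      rw [star_one, mul_one] at h2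
      exact h2.symm
    nlinarith [norm_nonneg (1 : R)]
  have h3 : ∀ V : R, ‖V‖ ≤ 1 → ∀ n : ℕ, ‖V ^ n‖ ≤ 1 := by
    intro V hV n
    induction n with
    | zero => rw [pow_zero]; exact h1
    | succ n ih =>
      rw [pow_succ]
      calc ‖V ^ n * V‖ ≤ ‖V ^ n‖ * ‖V‖ := norm_mul_le _ _
        _ ≤ 1 * 1 := mul_le_mul ih hV (norm_nonneg _) zero_le_one
        _ = 1 := one_mul 1
  match k with
  | Int.ofNat n => exact h3 U hU1 n
  | Int.negSucc n => exact h3 (star U) (by rw [norm_star]; exact hU1) (n + 1)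

theorem norm_Lam_le {R : Type*} [CStarAlgebra R] (U : R) (hU1 : ‖U‖ ≤ 1)
    (p : LaurentPolynomial ℂ) : ‖Lam U p‖ ≤ l1 p := by
  unfold Lam l1 Finsupp.sum
  refine (norm_sum_le _ _).trans (Finset.sum_le_sum fun k _ => ?_)
  calc ‖p.coeff k • zp U k‖ ≤ ‖p.coeff k‖ * ‖zp U k‖ := norm_smul_le _ _
    _ ≤ ‖p.coeff k‖ * 1 := mul_le_mul_of_nonneg_left (norm_zp_le U hU1 k) (norm_nonneg _)
    _ = ‖p.coeff k‖ := mul_one _

end H47
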