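import Pool.Agent.H.MP_47f0a1_an.LogB

/-!
# The exponential of a trigonometric polynomial in an element
-/

namespace H47

theorem logE_real (s : ℝ) : HasSum (fun n : ℕ => s ^ n / (n.factorial : ℝ)) (Real.exp s) := by
  rw [Real.exp_eq_exp_ℝ]
  exact NormedSpace.expSeries_div_hasSum_exp s

theorem logE_term {R : Type*} [NormedRing R] [NormedAlgebra ℂ R] [NormOneClass R]
    (x : R) (s : ℝ) (hs : ‖x‖ ≤ s) (n : ℕ) :
    ‖((n.factorial : ℂ)⁻¹ • x ^ n)‖ ≤ s ^ n / (n.factorial : ℝ) := by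
  rw [norm_smul, norm_inv, Complex.norm_natCast, div_eq_inv_mul]
  exact mul_le_mul_of_nonneg_left ((norm_pow_le x n).trans
    (pow_le_pow_left₀ (norm_nonneg x) hs n)) (by positivity)

/-- Taylor remainder of the exponential in a Banach algebra. -/
theorem exp_tail {R : Type*} [NormedRing R] [NormedAlgebra ℂ R] [CompleteSpace R] [NormOneClass R]
    (x : R) (s : ℝ) (hs : ‖x‖ ≤ s) (N : ℕ) :
    ‖NormedSpace.exp x - ∑ n ∈ Finset.range (N + 1), ((n.factorial : ℂ)⁻¹ • x ^ n)‖ ≤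
      Real.exp s - ∑ n ∈ Finset.range (N + 1), s ^ n / (n.factorial : ℝ) := by
  have h1 : HasSum (fun n : ℕ => ((n + (N + 1)).factorial : ℂ)⁻¹ • x ^ (n + (N + 1)))
      (NormedSpace.exp x - ∑ n ∈ Finset.range (N + 1), ((n.factorial : ℂ)⁻¹ • x ^ n)) := by
    have := (hasSum_nat_add_iff (f := fun n : ℕ => (n.factorial : ℂ)⁻¹ • x ^ n)
      (g := NormedSpace.exp x - ∑ n ∈ Finset.range (N + 1), ((n.factorial : ℂ)⁻¹ • x ^ n))
      (N + 1)).2 (by
        rw [sub_add_cancel]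
        exact NormedSpace.exp_series_hasSum_exp' x)
    exact this
  have h2 : HasSum (fun n : ℕ => s ^ (n + (N + 1)) / ((n + (N + 1)).factorial : ℝ))
      (Real.exp s - ∑ n ∈ Finset.range (N + 1), s ^ n / (n.factorial : ℝ)) := by
    have := (hasSum_nat_add_iff (f := fun n : ℕ => s ^ n / (n.factorial : ℝ))
      (g := Real.exp s - ∑ n ∈ Finset.range (N + 1), s ^ n / (n.factorial : ℝ))
      (N + 1)).2 (by
        rw [sub_add_cancel]
        exact logE_real s)
    exact this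
  exact h1.norm_le_of_bounded h2 fun n => logE_term x s hs _

theorem logE_comm_pow {R : Type*} [NormedRing R] [NormOneClass R] (x h : R) (n : ℕ) :
    ‖x * h ^ (n + 1) - h ^ (n + 1) * x‖ ≤ (n + 1 : ℝ) * ‖h‖ ^ n * ‖x * h - h * x‖ := by
  induction n with
  | zero => simp
  | succ n ih =>
    have e : x * h ^ (n + 1 + 1) - h ^ (n + 1 + 1) * x =
        (x * h ^ (n + 1) - h ^ (n + 1) * x) * h + h ^ (n + 1) * (x * h - h * x) := by
      rw [pow_succ h (n + 1)]
      noncomm_ring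
    rw [e]
    refine (norm_add_le _ _).trans ?_
    have h1 : ‖(x * h ^ (n + 1) - h ^ (n + 1) * x) * h‖ ≤
        (n + 1 : ℝ) * ‖h‖ ^ n * ‖x * h - h * x‖ * ‖h‖ :=
      (norm_mul_le _ _).trans (mul_le_mul_of_nonneg_right ih (norm_nonneg h))
    have h2 : ‖h ^ (n + 1) * (x * h - h * x)‖ ≤ ‖h‖ ^ (n + 1) * ‖x * h - h * x‖ :=
      (norm_mul_le _ _).trans (mul_le_mul_of_nonneg_right (norm_pow_le h _) (norm_nonneg _))
    calc _ ≤ (n + 1 : ℝ) * ‖h‖ ^ n * ‖x * h - h * x‖ * ‖h‖ +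
          ‖h‖ ^ (n + 1) * ‖x * h - h * x‖ := add_le_add h1 h2
      _ = ((n + 1 : ℕ) + 1 : ℝ) * ‖h‖ ^ (n + 1) * ‖x * h - h * x‖ := by
          push_cast
          ring

/-- Commutators with the exponential: `‖[x, exp h]‖ ≤ exp ‖h‖ ‖[x, h]‖`.
Proof: `‖[x, h^n]‖ ≤ n ‖h‖^{n-1} ‖[x, h]‖` and the series. -/
theorem comm_exp {R : Type*} [NormedRing R] [NormedAlgebra ℂ R] [CompleteSpace R] [NormOneClass R]
    (x h : R) : ‖x * NormedSpace.exp h - NormedSpace.exp h * x‖ ≤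
      Real.exp ‖h‖ * ‖x * h - h * x‖ := by
  have h0 : HasSum (fun n : ℕ => (n.factorial : ℂ)⁻¹ • h ^ n) (NormedSpace.exp h) :=
    NormedSpace.exp_series_hasSum_exp' h
  have h1 : HasSum (fun n : ℕ => x * ((n.factorial : ℂ)⁻¹ • h ^ n) -
      ((n.factorial : ℂ)⁻¹ • h ^ n) * x) (x * NormedSpace.exp h - NormedSpace.exp h * x) :=
    (h0.mul_left x).sub (h0.mul_right x)
  have h2 : HasSum (fun n : ℕ => x * (((n + 1).factorial : ℂ)⁻¹ • h ^ (n + 1)) -
      (((n + 1).factorial : ℂ)⁻¹ • h ^ (n + 1)) * x)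
      (x * NormedSpace.exp h - NormedSpace.exp h * x) := by
    have := (hasSum_nat_add_iff (f := fun n : ℕ => x * ((n.factorial : ℂ)⁻¹ • h ^ n) -
      ((n.factorial : ℂ)⁻¹ • h ^ n) * x) (g := x * NormedSpace.exp h - NormedSpace.exp h * x) 1).2
      (by simpa using h1)
    exact this
  refine h2.norm_le_of_bounded ((logE_real ‖h‖).mul_right ‖x * h - h * x‖) fun n => ?_
  have e : x * (((n + 1).factorial : ℂ)⁻¹ • h ^ (n + 1)) -
      (((n + 1).factorial : ℂ)⁻¹ • h ^ (n + 1)) * x =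
      ((n + 1).factorial : ℂ)⁻¹ • (x * h ^ (n + 1) - h ^ (n + 1) * x) := by
    rw [mul_smul_comm, smul_mul_assoc, smul_sub]
  rw [e, norm_smul, norm_inv, Complex.norm_natCast]
  calc ((n + 1).factorial : ℝ)⁻¹ * ‖x * h ^ (n + 1) - h ^ (n + 1) * x‖
      ≤ ((n + 1).factorial : ℝ)⁻¹ * ((n + 1 : ℝ) * ‖h‖ ^ n * ‖x * h - h * x‖) :=
        mul_le_mul_of_nonneg_left (logE_comm_pow x h n) (by positivity)
    _ = ‖h‖ ^ n / (n.factorial : ℝ) * ‖x * h - h * x‖ := by
        rw [Nat.factorial_succ]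
        push_cast
        have h3 : (n.factorial : ℝ) ≠ 0 := by positivity
        have h4 : (n + 1 : ℝ) ≠ 0 := by positivity
        field_simp

/-- The unitary `exp(i Λ(p))`. -/
noncomputable def logU {R : Type*} [NormedRing R] [StarRing R] [NormedAlgebra ℂ R] (U : R)
    (p : LaurentPolynomial ℂ) : R := NormedSpace.exp (Complex.I • Lam U p)

/-- It is unitary for real `p`: `i Λ(p)` is skew-adjoint. -/
theorem logU_unitary {R : Type*} [CStarAlgebra R] (U : R) (p : LaurentPolynomial ℂ)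
    (hp : ∀ k : ℤ, p.coeff (-k) = (starRingEnd ℂ) (p.coeff k)) :
    star (logU U p) * logU U p = 1 ∧ logU U p * star (logU U p) = 1 := by
  letI : NormedAlgebra ℚ R := NormedAlgebra.restrictScalars ℚ ℂ R
  have h1 : IsSelfAdjoint (Lam U p) := Lam_star U p hp
  have h2 : logU U p ∈ unitary R :=
    NormedSpace.exp_mem_unitary_of_mem_skewAdjoint (h1.smul_mem_skewAdjoint Complex.conj_I)
  exact ⟨Unitary.star_mul_self_of_mem h2, Unitary.mul_star_self_of_mem h2⟩

theorem logU_mem {R : Type*} [CStarAlgebra R] (S : StarSubalgebra ℂ R) (hS : IsClosed (S : Set R))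
    (U : R) (hU : U ∈ S) (p : LaurentPolynomial ℂ) : logU U p ∈ S := by
  have h1 : ∀ k : ℤ, zp U k ∈ S := by
    intro k
    cases k with
    | ofNat n => exact pow_mem hU n
    | negSucc n => exact pow_mem (star_mem hU) (n + 1)
  have h2 : Complex.I • Lam U p ∈ S := by
    refine S.smul_mem ?_ _
    unfold Lam
    rw [Finsupp.sum]
    exact sum_mem fun k _ => S.smul_mem (h1 k) _
  have h3 := NormedSpace.exp_series_hasSum_exp' (𝕂 := ℂ) (Complex.I • Lam U p)
  refine hS.mem_of_tendsto h3 (Filter.Eventually.of_forall fun s => ?_)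
  exact sum_mem fun n _ => S.smul_mem (pow_mem h2 n) _

theorem logE_comm_pow' {R : Type*} [CStarAlgebra R] (x V : R) (hV : ‖V‖ ≤ 1) (η : ℝ)
    (hη : ‖x * V - V * x‖ ≤ η) (n : ℕ) : ‖x * V ^ n - V ^ n * x‖ ≤ (n : ℝ) * η := by
  rcases subsingleton_or_nontrivial R with hR | hR
  · have e : x * V ^ n - V ^ n * x = 0 := Subsingleton.elim _ _
    rw [e, norm_zero]
    have : 0 ≤ η := (norm_nonneg _).trans hη
    positivity
  · cases n with
    | zero => simp
    | succ n =>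
      refine (logE_comm_pow x V n).trans ?_
      have h1 : ‖V‖ ^ n ≤ 1 := pow_le_one₀ (norm_nonneg V) hV
      have h2 : 0 ≤ ‖x * V - V * x‖ := norm_nonneg _
      push_cast
      calc (n + 1 : ℝ) * ‖V‖ ^ n * ‖x * V - V * x‖ ≤ (n + 1 : ℝ) * 1 * η := by
            gcongr
        _ = (n + 1 : ℝ) * η := by ring

theorem logE_comm_zp {R : Type*} [CStarAlgebra R] (x U : R) (hU : ‖U‖ ≤ 1) (η : ℝ)
    (h1 : ‖x * U - U * x‖ ≤ η) (h2 : ‖x * star U - star U * x‖ ≤ η) (k : ℤ) :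
    ‖x * zp U k - zp U k * x‖ ≤ |(k : ℝ)| * η := by
  cases k with
  | ofNat n =>
    have := logE_comm_pow' x U hU η h1 n
    simpa [zp] using this
  | negSucc n =>
    have := logE_comm_pow' x (star U) (by rwa [norm_star]) η h2 (n + 1)
    have e : |((Int.negSucc n : ℤ) : ℝ)| = ((n + 1 : ℕ) : ℝ) := by
      rw [Int.cast_negSucc, abs_neg, abs_of_nonneg (by positivity)]
    rw [e]
    exact this

/-- Approximate commutation. Proof: `‖[x, U^{[k]}]‖ ≤ |k| η`, so `‖[x, Λ(p)]‖ ≤ (∑ |k| |p_k|) η`;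
`comm_exp`. -/
theorem logU_comm (p : LaurentPolynomial ℂ) (ε : ℝ) (hε : 0 < ε) : ∃ η : ℝ, 0 < η ∧
    ∀ (R : Type) [CStarAlgebra R] (x U : R), ‖U‖ ≤ 1 → ‖x * U - U * x‖ ≤ η →
      ‖x * star U - star U * x‖ ≤ η → ‖x * logU U p - logU U p * x‖ ≤ ε := by
  obtain ⟨C, hC⟩ : ∃ C : ℝ, C = ∑ k ∈ p.coeff.support, |(k : ℝ)| * ‖p.coeff k‖ := ⟨_, rfl⟩
  have hC0 : 0 ≤ C := by
    rw [hC]
    exact Finset.sum_nonneg fun k _ => by positivity
  have hd : 0 < Real.exp (l1 p) * (C + 1) := by positivity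
  refine ⟨ε / (Real.exp (l1 p) * (C + 1)), div_pos hε hd, ?_⟩
  intro R _ x U hU h1 h2
  rcases subsingleton_or_nontrivial R with hR | hR
  · have e : x * logU U p - logU U p * x = 0 := Subsingleton.elim _ _
    rw [e, norm_zero]
    exact hε.le
  · obtain ⟨η, hη⟩ : ∃ η : ℝ, η = ε / (Real.exp (l1 p) * (C + 1)) := ⟨_, rfl⟩
    rw [← hη] at h1 h2
    have hη0 : 0 < η := by
      rw [hη]
      exact div_pos hε hd
    have h3 : ‖x * (Complex.I • Lam U p) - (Complex.I • Lam U p) * x‖ ≤ C * η := by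
      rw [mul_smul_comm, smul_mul_assoc, ← smul_sub, norm_smul, Complex.norm_I, one_mul]
      unfold Lam
      rw [Finsupp.sum, Finset.mul_sum, Finset.sum_mul, ← Finset.sum_sub_distrib, hC,
        Finset.sum_mul]
      refine norm_sum_le_of_le _ fun k _ => ?_
      rw [mul_smul_comm, smul_mul_assoc, ← smul_sub, norm_smul]
      calc ‖p.coeff k‖ * ‖x * zp U k - zp U k * x‖ ≤ ‖p.coeff k‖ * (|(k : ℝ)| * η) :=
            mul_le_mul_of_nonneg_left (logE_comm_zp x U hU η h1 h2 k) (norm_nonneg _)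
        _ = |(k : ℝ)| * ‖p.coeff k‖ * η := by ring
    have h4 : ‖Complex.I • Lam U p‖ ≤ l1 p := by
      rw [norm_smul, Complex.norm_I, one_mul]
      exact norm_Lam_le U hU p
    calc ‖x * logU U p - logU U p * x‖
        ≤ Real.exp ‖Complex.I • Lam U p‖ *
          ‖x * (Complex.I • Lam U p) - (Complex.I • Lam U p) * x‖ := comm_exp _ _
      _ ≤ Real.exp (l1 p) * (C * η) := by
          gcongr
      _ ≤ Real.exp (l1 p) * ((C + 1) * η) := by
          gcongr
          linarith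
      _ = ε := by
          rw [hη]
          field_simp

end H47
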