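import Pool.Agent.H.MP_47f0a1_an.LogA

/-!
# Taylor polynomials of the exponential of a trigonometric polynomial
-/

open MeasureTheory

namespace H47

/-- The Taylor polynomial `∑_{n ≤ N} (i p)^n/n!` as a Laurent polynomial. -/
noncomputable def tay (p : LaurentPolynomial ℂ) (N : ℕ) : LaurentPolynomial ℂ :=
  ∑ n ∈ Finset.range (N + 1), ((Complex.I ^ n / (n.factorial : ℂ)) • p ^ n)

/-- The `ℓ¹` norm of the coefficients. -/
noncomputable def l1 (p : LaurentPolynomial ℂ) : ℝ := Finsupp.sum p.coeff (fun (_ : ℤ) (c : ℂ) => ‖c‖)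

/-- The character `k ↦ exp(i k t)`. -/
noncomputable def logT_chr (t : ℝ) : Multiplicative ℤ →* ℂ where
  toFun k := Complex.exp (Complex.I * ((Multiplicative.toAdd k : ℤ) : ℂ) * t)
  map_one' := by simp
  map_mul' a b := by
    rw [← Complex.exp_add]
    congr 1
    push_cast [toAdd_mul]
    ring

/-- Evaluation at `exp(i t)` as an algebra homomorphism. -/
noncomputable def logT_ev (t : ℝ) : LaurentPolynomial ℂ →ₐ[ℂ] ℂ :=
  AddMonoidAlgebra.lift ℂ ℂ ℤ (logT_chr t)

theorem logT_lev (p : LaurentPolynomial ℂ) (t : ℝ) : lev p t = logT_ev t p := by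
  rw [logT_ev, AddMonoidAlgebra.lift_apply]
  rfl

theorem logT_lev_T (t : ℝ) : lev (LaurentPolynomial.T 1) t = Complex.exp (Complex.I * t) := by
  rw [logT_lev, logT_ev, LaurentPolynomial.T, AddMonoidAlgebra.lift_single]
  simp [logT_chr]

theorem logT_lev_tay (p : LaurentPolynomial ℂ) (N : ℕ) (t : ℝ) :
    lev (tay p N) t =
      ∑ n ∈ Finset.range (N + 1), (Complex.I * lev p t) ^ n / (n.factorial : ℂ) := by
  rw [logT_lev, logT_lev, tay, map_sum]
  refine Finset.sum_congr rfl fun n _ => ?_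
  rw [map_smul, map_pow, smul_eq_mul, mul_pow]
  ring

theorem logT_norm_le (p : LaurentPolynomial ℂ) (t : ℝ) : ‖lev p t‖ ≤ l1 p := by
  unfold lev l1 Finsupp.sum
  refine (norm_sum_le _ _).trans (Finset.sum_le_sum fun k _ => ?_)
  rw [norm_mul]
  have h : ‖Complex.exp (Complex.I * (k : ℂ) * (t : ℂ))‖ = 1 := by
    have h2 : Complex.I * (k : ℂ) * (t : ℂ) = (((k : ℝ) * t : ℝ) : ℂ) * Complex.I := by
      push_cast
      ring
    rw [h2, Complex.norm_exp_ofReal_mul_I]
  rw [h, mul_one]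

theorem logT_cont (p : LaurentPolynomial ℂ) : Continuous (lev p) := by
  unfold lev Finsupp.sum
  refine continuous_finsetSum _ fun k _ => ?_
  fun_prop

theorem logT_conj (p : LaurentPolynomial ℂ)
    (hp : ∀ k : ℤ, p.coeff (-k) = (starRingEnd ℂ) (p.coeff k)) (t : ℝ) :
    (starRingEnd ℂ) (lev p t) = lev p t := by
  unfold lev Finsupp.sum
  rw [map_sum]
  have hs : ∀ k ∈ p.coeff.support, -k ∈ p.coeff.support := by
    intro k hk
    rw [Finsupp.mem_support_iff] at hk ⊢
    rw [hp k]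
    intro h
    exact hk ((map_eq_zero _).1 h)
  refine Finset.sum_nbij' (fun k => -k) (fun k => -k) hs hs (fun k _ => neg_neg k)
    (fun k _ => neg_neg k) fun k _ => ?_
  rw [map_mul, hp k, ← Complex.exp_conj]
  congr 2
  simp

theorem logT_real (p : LaurentPolynomial ℂ)
    (hp : ∀ k : ℤ, p.coeff (-k) = (starRingEnd ℂ) (p.coeff k)) (t : ℝ) :
    lev p t = ((lev p t).re : ℂ) :=
  ((Complex.conj_eq_iff_re).1 (logT_conj p hp t)).symm

theorem logT_mono (M : ℕ) {x s : ℝ} (hx : 0 ≤ x) (hxs : x ≤ s) :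
    Real.exp x - ∑ n ∈ Finset.range M, x ^ n / (n.factorial : ℝ) ≤
      Real.exp s - ∑ n ∈ Finset.range M, s ^ n / (n.factorial : ℝ) := by
  have h1 := (hasSum_nat_add_iff' M).mpr (NormedSpace.expSeries_div_hasSum_exp x)
  have h2 := (hasSum_nat_add_iff' M).mpr (NormedSpace.expSeries_div_hasSum_exp s)
  rw [← Real.exp_eq_exp_ℝ] at h1 h2
  refine hasSum_le (fun n => ?_) h1 h2
  gcongr

theorem logT_tail (s : ℝ) {η : ℝ} (hη : 0 < η) : ∃ N : ℕ,
    Real.exp s - ∑ n ∈ Finset.range (N + 1), s ^ n / (n.factorial : ℝ) ≤ η := by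
  have h := (NormedSpace.expSeries_div_hasSum_exp s).tendsto_sum_nat
  rw [← Real.exp_eq_exp_ℝ] at h
  have h2 := h.eventually (lt_mem_nhds (show Real.exp s - η < Real.exp s by linarith))
  obtain ⟨N, hN⟩ := (h2.and (Filter.eventually_ge_atTop 0)).exists_forall_of_atTop
  refine ⟨N, ?_⟩
  have := (hN (N + 1) (by omega)).1
  linarith

/-- The main statement of this file.

Proof. Take `p` from `exists_saw` with a small `δ'`. `lev p t` is real. For `N` large,
`|lev (tay p N) t - exp(i lev p t)| ≤ exp s - ∑_{n ≤ N} s^n/n!` with `s = l1 p`, uniformly in `t`, and it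
tends to `0`. And `|exp(i lev p t) - exp(i t)| ≤ |lev p t - t|`. So
`‖lev (tay p N - T) ‖_{L²} ≤ small + √δ'`, conclude with `lev_parseval`. -/
theorem exists_tay (δ : ℝ) (hδ : 0 < δ) : ∃ (p : LaurentPolynomial ℂ) (N : ℕ),
    (∀ k : ℤ, p.coeff (-k) = (starRingEnd ℂ) (p.coeff k)) ∧
    Real.exp (l1 p) - ∑ n ∈ Finset.range (N + 1), (l1 p) ^ n / (n.factorial : ℝ) ≤ δ ∧
    Finsupp.sum (tay p N - LaurentPolynomial.T 1).coeff (fun (_ : ℤ) (c : ℂ) => ‖c‖ ^ 2) ≤ δ := by
  obtain ⟨p, hp, hsaw⟩ := exists_saw (δ / 4) (by linarith)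
  obtain ⟨N, hN⟩ := logT_tail (l1 p) (η := min δ (Real.sqrt δ / 2))
    (lt_min hδ (by positivity))
  refine ⟨p, N, hp, hN.trans (min_le_left _ _), ?_⟩
  set η : ℝ := Real.exp (l1 p) - ∑ n ∈ Finset.range (N + 1), (l1 p) ^ n / (n.factorial : ℝ)
    with hηdef
  have hη2 : η ≤ Real.sqrt δ / 2 := hN.trans (min_le_right _ _)
  rw [lev_parseval]
  have key : ∀ t : ℝ, ‖lev (tay p N - LaurentPolynomial.T 1) t‖ ^ 2 ≤
      δ / 2 + 2 * ‖lev p t - (t : ℂ)‖ ^ 2 := by
    intro t
    have e1 : lev (tay p N - LaurentPolynomial.T 1) t =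
        -(Complex.exp (Complex.I * lev p t) -
          ∑ n ∈ Finset.range (N + 1), (Complex.I * lev p t) ^ n / (n.factorial : ℂ)) +
        (Complex.exp (Complex.I * lev p t) - Complex.exp (Complex.I * t)) := by
      have : lev (tay p N - LaurentPolynomial.T 1) t =
          lev (tay p N) t - lev (LaurentPolynomial.T 1) t := by
        rw [logT_lev, logT_lev, logT_lev, map_sub]
      rw [this, logT_lev_tay, logT_lev_T]
      ring
    have hI : ‖Complex.I * lev p t‖ = ‖lev p t‖ := by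
      rw [norm_mul, Complex.norm_I, one_mul]
    have e2 : ‖Complex.exp (Complex.I * lev p t) -
          ∑ n ∈ Finset.range (N + 1), (Complex.I * lev p t) ^ n / (n.factorial : ℂ)‖ ≤ η := by
      refine (Complex.norm_exp_sub_sum_le_exp_norm_sub_sum _ _).trans ?_
      rw [hI]
      exact logT_mono (N + 1) (norm_nonneg _) (logT_norm_le p t)
    have e3 : ‖Complex.exp (Complex.I * lev p t) - Complex.exp (Complex.I * t)‖ ≤
        ‖lev p t - (t : ℂ)‖ := by
      set x : ℝ := (lev p t).re with hx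
      have hr : lev p t = (x : ℂ) := logT_real p hp t
      rw [hr]
      have h4 : Complex.exp (Complex.I * (x : ℂ)) - Complex.exp (Complex.I * (t : ℂ)) =
          Complex.exp (Complex.I * (t : ℂ)) *
            (Complex.exp (Complex.I * ((x - t : ℝ) : ℂ)) - 1) := by
        rw [mul_sub, mul_one, ← Complex.exp_add]
        congr 2
        push_cast
        ring
      rw [h4, norm_mul]
      have h5 : ‖Complex.exp (Complex.I * (t : ℂ))‖ = 1 := by
        rw [mul_comm, Complex.norm_exp_ofReal_mul_I]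
      rw [h5, one_mul]
      refine (Real.norm_exp_I_mul_ofReal_sub_one_le).trans ?_
      rw [← Complex.ofReal_sub, Complex.norm_real]
    have e4 : ‖lev (tay p N - LaurentPolynomial.T 1) t‖ ≤
        Real.sqrt δ / 2 + ‖lev p t - (t : ℂ)‖ := by
      rw [e1]
      refine (norm_add_le _ _).trans ?_
      rw [norm_neg]
      exact add_le_add (e2.trans hη2) e3
    have h0 : 0 ≤ ‖lev (tay p N - LaurentPolynomial.T 1) t‖ := norm_nonneg _
    have hs : Real.sqrt δ ^ 2 = δ := Real.sq_sqrt hδ.le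
    calc ‖lev (tay p N - LaurentPolynomial.T 1) t‖ ^ 2
        ≤ (Real.sqrt δ / 2 + ‖lev p t - (t : ℂ)‖) ^ 2 := by gcongr
      _ ≤ 2 * (Real.sqrt δ / 2) ^ 2 + 2 * ‖lev p t - (t : ℂ)‖ ^ 2 := by
          nlinarith [sq_nonneg (Real.sqrt δ / 2 - ‖lev p t - (t : ℂ)‖)]
      _ = δ / 2 + 2 * ‖lev p t - (t : ℂ)‖ ^ 2 := by
          rw [div_pow, hs]
          ring
  have hc1 : Continuous fun t : ℝ => ‖lev (tay p N - LaurentPolynomial.T 1) t‖ ^ 2 :=
    (logT_cont _).norm.pow 2
  have hc2 : Continuous fun t : ℝ => ‖lev p t - (t : ℂ)‖ ^ 2 :=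
    ((logT_cont p).sub Complex.continuous_ofReal).norm.pow 2
  have hpi := Real.pi_pos
  have hI1 : (∫ t in (-Real.pi)..Real.pi, ‖lev (tay p N - LaurentPolynomial.T 1) t‖ ^ 2) ≤
      ∫ t in (-Real.pi)..Real.pi, (δ / 2 + 2 * ‖lev p t - (t : ℂ)‖ ^ 2) := by
    refine intervalIntegral.integral_mono_on (by linarith) (hc1.intervalIntegrable _ _)
      ((continuous_const.add (continuous_const.mul hc2)).intervalIntegrable _ _)
      fun t _ => key t
  have hI2 : (∫ t in (-Real.pi)..Real.pi, (δ / 2 + 2 * ‖lev p t - (t : ℂ)‖ ^ 2)) =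
      Real.pi * δ + 2 * ∫ t in (-Real.pi)..Real.pi, ‖lev p t - (t : ℂ)‖ ^ 2 := by
    have hc3 : Continuous fun t : ℝ => 2 * ‖lev p t - (t : ℂ)‖ ^ 2 := continuous_const.mul hc2
    have hi3 : IntervalIntegrable (fun t : ℝ => 2 * ‖lev p t - (t : ℂ)‖ ^ 2) volume
        (-Real.pi) Real.pi := hc3.intervalIntegrable _ _
    have hi4 : IntervalIntegrable (fun _ : ℝ => δ / 2) volume (-Real.pi) Real.pi :=
      continuous_const.intervalIntegrable _ _
    rw [intervalIntegral.integral_add hi4 hi3,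
      intervalIntegral.integral_const_mul, intervalIntegral.integral_const]
    simp only [smul_eq_mul]
    ring
  have hpos : 0 ≤ (2 * Real.pi)⁻¹ := by positivity
  calc (2 * Real.pi)⁻¹ *
        ∫ t in (-Real.pi)..Real.pi, ‖lev (tay p N - LaurentPolynomial.T 1) t‖ ^ 2
      ≤ (2 * Real.pi)⁻¹ *
        (Real.pi * δ + 2 * ∫ t in (-Real.pi)..Real.pi, ‖lev p t - (t : ℂ)‖ ^ 2) := by
          refine mul_le_mul_of_nonneg_left (hI1.trans hI2.le) hpos
    _ = δ / 2 + 2 * ((2 * Real.pi)⁻¹ *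
          ∫ t in (-Real.pi)..Real.pi, ‖lev p t - (t : ℂ)‖ ^ 2) := by
          field_simp
    _ ≤ δ / 2 + 2 * (δ / 4) := by gcongr
    _ = δ := by ring

end H47
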