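import Pool.Agent.H.MP_47f0a1_an.Mats

/-!
# Relations of the matrix `B`
-/

open Matrix

namespace H47

variable {R : Type*} [Ring R] [StarRing R]

omit [StarRing R] in
theorem matsb_er (N : ℕ) (x : Idx N) (u : Unit) :
    er R N u x = if x = Sum.inl 0 then 1 else 0 := rfl

omit [StarRing R] in
theorem matsb_sum (N : ℕ) (F : Idx N → R) :
    ∑ x, (if x = Sum.inl 0 then (1 : R) else 0) * F x = F (Sum.inl 0) := by
  simp

theorem matsb_rhs (N : ℕ) (c : R) (x y : Idx N) :
    (1 - (er R N)ᴴ * s1 c * er R N : Matrix (Idx N) (Idx N) R) x y =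
      (if x = y then 1 else 0) - (if x = Sum.inl 0 ∧ y = Sum.inl 0 then c else 0) := by
  rw [Matrix.sub_apply, Matrix.one_apply, Matrix.mul_apply]
  simp only [Finset.univ_unique, Finset.sum_singleton, Matrix.mul_apply, matsb_er,
    Matrix.conjTranspose_apply, s1, Matrix.of_apply]
  by_cases hx : x = Sum.inl 0 <;> by_cases hy : y = Sum.inl 0 <;> simp [hx, hy]

theorem er_mul_Bm (N : ℕ) (U f g : R) : er R N * Bm N U f g = s1 U * er R N := by
  ext u x
  rw [Matrix.mul_apply, Matrix.mul_apply]
  simp only [matsb_er]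
  rw [matsb_sum]
  rcases x with i | j
  · simp only [Bm, s1, Matrix.of_apply, Finset.univ_unique, Finset.sum_singleton,
      Sum.inl.injEq]
    by_cases hi : i = 0
    · simp [hi]
    · simp [hi, Ne.symm hi]
  · simp [Bm, s1, (Fin.succ_ne_zero j).symm]

theorem er_mul_Bm_star (N : ℕ) (U f g : R) : er R N * (Bm N U f g)ᴴ = s1 (star U) * er R N := by
  ext u x
  rw [Matrix.mul_apply, Matrix.mul_apply]
  simp only [matsb_er]
  rw [matsb_sum]
  rcases x with i | j
  · simp only [Bm, s1, Matrix.of_apply, Finset.univ_unique, Finset.sum_singleton,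
      Sum.inl.injEq, Matrix.conjTranspose_apply]
    by_cases hi : i = 0
    · simp [hi]
    · simp [hi]
  · simp [Bm, s1, (Fin.succ_ne_zero j).symm]

theorem er_mul_er_star (N : ℕ) : er R N * (er R N)ᴴ = 1 := by
  ext u u'
  rw [Matrix.mul_apply]
  simp only [matsb_er, Matrix.conjTranspose_apply]
  rw [matsb_sum]
  simp

/-- `B* B = 1 - e* (1 - U* U) e`: `B` is unitary away from the index `inl 0`. -/
theorem Bm_star_mul (N : ℕ) {U f g w : R} (h : Rel0 U f g w) :
    (Bm N U f g)ᴴ * Bm N U f g = 1 - (er R N)ᴴ * s1 (1 - star U * U) * er R N := by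
  ext x y
  rw [matsb_rhs, Matrix.mul_apply, Fintype.sum_sum_type]
  rcases x with i | j <;> rcases y with i' | j'
  · refine Fin.cases ?_ (fun k => ?_) i <;> refine Fin.cases ?_ (fun k' => ?_) i'
    · simp [Bm, (Fin.succ_ne_zero _).symm]
    · simp [Bm, (Fin.succ_ne_zero _).symm, apply_ite star]
    · simp [Bm, (Fin.succ_ne_zero _).symm, apply_ite star]
    · by_cases hk : k = k'
      · subst hk
        simp [Bm, apply_ite star, h.gs, h.gg]
      · simp [Bm, apply_ite star, hk, Ne.symm hk]
  · refine Fin.cases ?_ (fun k => ?_) i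
    · simp [Bm, (Fin.succ_ne_zero _).symm, apply_ite star]
    · by_cases hk : k = j'
      · subst hk
        simp [Bm, apply_ite star, h.gs, h.Uf]
      · simp [Bm, apply_ite star, hk, Ne.symm hk]
  · refine Fin.cases ?_ (fun k => ?_) i'
    · simp [Bm, (Fin.succ_ne_zero _).symm, apply_ite star]
    · by_cases hk : k = j
      · subst hk
        simp [Bm, apply_ite star, h.fs, h.fU]
      · simp [Bm, apply_ite star, hk, Ne.symm hk]
  · by_cases hk : j = j'
    · subst hk
      simp [Bm, apply_ite star, h.fs, h.ff]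
    · simp [Bm, apply_ite star, hk, Ne.symm hk]

theorem Bm_mul_star (N : ℕ) {U f g w : R} (h : Rel0 U f g w) :
    Bm N U f g * (Bm N U f g)ᴴ = 1 - (er R N)ᴴ * s1 (1 - U * star U) * er R N := by
  ext x y
  rw [matsb_rhs, Matrix.mul_apply, Fintype.sum_sum_type]
  rcases x with i | j <;> rcases y with i' | j'
  · refine Fin.cases ?_ (fun k => ?_) i <;> refine Fin.cases ?_ (fun k' => ?_) i'
    · simp [Bm, (Fin.succ_ne_zero _).symm]
    · simp [Bm, (Fin.succ_ne_zero _).symm, apply_ite star]
    · simp [Bm, (Fin.succ_ne_zero _).symm, apply_ite star]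
    · by_cases hk : k = k'
      · subst hk
        simp [Bm, apply_ite star, h.fs, h.ff]
      · simp [Bm, apply_ite star, hk, Ne.symm hk]
  · refine Fin.cases ?_ (fun k => ?_) i
    · simp [Bm, (Fin.succ_ne_zero _).symm, apply_ite star]
    · by_cases hk : k = j'
      · subst hk
        simp [Bm, apply_ite star, h.gs, h.fU]
      · simp [Bm, apply_ite star, hk, Ne.symm hk]
  · refine Fin.cases ?_ (fun k => ?_) i'
    · simp [Bm, (Fin.succ_ne_zero _).symm, apply_ite star]
    · by_cases hk : k = j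
      · subst hk
        simp [Bm, apply_ite star, h.fs, h.Uf]
      · simp [Bm, apply_ite star, hk, Ne.symm hk]
  · by_cases hk : j = j'
    · subst hk
      simp [Bm, apply_ite star, h.gs, h.gg]
    · simp [Bm, apply_ite star, hk, Ne.symm hk]

theorem rowM_mul_er_star {N : ℕ} (v : Idx N → R) (h0 : v (Sum.inl 0) = 1) :
    rowM v * (er R N)ᴴ = 1 := by
  ext u u'
  rw [Matrix.mul_apply]
  simp only [matsb_er, Matrix.conjTranspose_apply, apply_ite star, star_one, star_zero]
  simp [rowM, h0]

/-- `P P* = U P' P'* U* + (1 - U U*)`.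
Proof. With `p = 1 - U* U`, `q = 1 - U U*`: `P P* = U P' B* B P'* U* + U P' B* e* q + q e B P'* U* + q`;
`B* e* = (e B)* = e* U*`, `P' e* = 1`, `U P' B* B P'* U* = U P' P'* U* - U p U*`, `U p U* = U U* q`,
and the sum of the other terms is `U U* q + q U U* + q² = U U* q + q`. -/
theorem Prow_mul_star {N : ℕ} {U f g w : R} (h : Rel0 U f g w) (v : Idx N → R)
    (h0 : v (Sum.inl 0) = 1) :
    Prow U f g v * (Prow U f g v)ᴴ =
      s1 U * (rowM v * (rowM v)ᴴ) * s1 (star U) + s1 (1 - U * star U) := by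
  have e1 := er_mul_Bm N U f g
  have e2 := er_mul_Bm_star N U f g
  have e3 := er_mul_er_star (R := R) N
  have e4 := Bm_star_mul N h
  have e5 := rowM_mul_er_star v h0
  have e6 : er R N * (rowM v)ᴴ = 1 := by
    have := congrArg Matrix.conjTranspose e5
    rwa [Matrix.conjTranspose_mul, Matrix.conjTranspose_conjTranspose,
      Matrix.conjTranspose_one] at this
  have e7 : Bm N U f g * (er R N)ᴴ = (er R N)ᴴ * s1 U := by
    have := congrArg Matrix.conjTranspose e2
    rwa [Matrix.conjTranspose_mul, Matrix.conjTranspose_conjTranspose,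
      Matrix.conjTranspose_mul, s1_star, star_star] at this
  have e8 : (Bm N U f g)ᴴ * (er R N)ᴴ = (er R N)ᴴ * s1 (star U) := by
    have := congrArg Matrix.conjTranspose e1
    rwa [Matrix.conjTranspose_mul, Matrix.conjTranspose_mul, s1_star] at this
  have e9 : star (1 - U * star U) = 1 - U * star U := by
    rw [star_sub, star_one, star_mul, star_star]
  have hT : (Prow U f g v)ᴴ =
      Bm N U f g * ((rowM v)ᴴ * s1 (star U)) + (er R N)ᴴ * s1 (1 - U * star U) := by
    unfold Prow
    rw [Matrix.conjTranspose_add, Matrix.conjTranspose_mul, Matrix.conjTranspose_mul,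
      Matrix.conjTranspose_mul, Matrix.conjTranspose_conjTranspose, s1_star, s1_star, e9]
  rw [hT]
  unfold Prow
  rw [Matrix.add_mul, Matrix.mul_add, Matrix.mul_add]
  have t1 : s1 U * rowM v * (Bm N U f g)ᴴ * (Bm N U f g * ((rowM v)ᴴ * s1 (star U))) =
      s1 U * (rowM v * (rowM v)ᴴ) * s1 (star U) - s1 (U * (1 - star U * U) * star U) := by
    have : s1 U * rowM v * (Bm N U f g)ᴴ * (Bm N U f g * ((rowM v)ᴴ * s1 (star U))) =
        s1 U * (rowM v * ((Bm N U f g)ᴴ * Bm N U f g) * (rowM v)ᴴ) * s1 (star U) := by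
      simp only [Matrix.mul_assoc]
    rw [this, e4, Matrix.mul_sub, Matrix.mul_one, Matrix.sub_mul]
    have : rowM v * ((er R N)ᴴ * s1 (1 - star U * U) * er R N) * (rowM v)ᴴ =
        (rowM v * (er R N)ᴴ) * s1 (1 - star U * U) * (er R N * (rowM v)ᴴ) := by
      simp only [Matrix.mul_assoc]
    rw [this, e5, e6, Matrix.one_mul, Matrix.mul_one, Matrix.mul_sub, Matrix.sub_mul, s1_mul,
      s1_mul]
  have t2 : s1 U * rowM v * (Bm N U f g)ᴴ * ((er R N)ᴴ * s1 (1 - U * star U)) =
      s1 (U * star U * (1 - U * star U)) := by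
    have : s1 U * rowM v * (Bm N U f g)ᴴ * ((er R N)ᴴ * s1 (1 - U * star U)) =
        s1 U * rowM v * ((Bm N U f g)ᴴ * (er R N)ᴴ) * s1 (1 - U * star U) := by
      simp only [Matrix.mul_assoc]
    rw [this, e8]
    have : s1 U * rowM v * ((er R N)ᴴ * s1 (star U)) * s1 (1 - U * star U) =
        s1 U * (rowM v * (er R N)ᴴ) * s1 (star U) * s1 (1 - U * star U) := by
      simp only [Matrix.mul_assoc]
    rw [this, e5, Matrix.mul_one, s1_mul, s1_mul]
  have t3 : s1 (1 - U * star U) * er R N * (Bm N U f g * ((rowM v)ᴴ * s1 (star U))) =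
      s1 ((1 - U * star U) * U * star U) := by
    have : s1 (1 - U * star U) * er R N * (Bm N U f g * ((rowM v)ᴴ * s1 (star U))) =
        s1 (1 - U * star U) * (er R N * Bm N U f g) * (rowM v)ᴴ * s1 (star U) := by
      simp only [Matrix.mul_assoc]
    rw [this, e1]
    have : s1 (1 - U * star U) * (s1 U * er R N) * (rowM v)ᴴ * s1 (star U) =
        s1 (1 - U * star U) * s1 U * (er R N * (rowM v)ᴴ) * s1 (star U) := by
      simp only [Matrix.mul_assoc]
    rw [this, e6, Matrix.mul_one, s1_mul, s1_mul]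
  have t4 : s1 (1 - U * star U) * er R N * ((er R N)ᴴ * s1 (1 - U * star U)) =
      s1 ((1 - U * star U) * (1 - U * star U)) := by
    have : s1 (1 - U * star U) * er R N * ((er R N)ᴴ * s1 (1 - U * star U)) =
        s1 (1 - U * star U) * (er R N * (er R N)ᴴ) * s1 (1 - U * star U) := by
      simp only [Matrix.mul_assoc]
    rw [this, e3, Matrix.mul_one, s1_mul]
  rw [t1, t2, t3, t4]
  have t5 : (1 - U * star U : R) = U * star U * (1 - U * star U) - U * (1 - star U * U) * star U +
      ((1 - U * star U) * U * star U + (1 - U * star U) * (1 - U * star U)) := by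
    noncomm_ring
  have t6 : s1 (1 - U * star U : R) = s1 (U * star U * (1 - U * star U)) -
      s1 (U * (1 - star U * U) * star U) + (s1 ((1 - U * star U) * U * star U) +
      s1 ((1 - U * star U) * (1 - U * star U))) := by
    conv_lhs => rw [t5]
    ext
    simp [s1]
  rw [t6]
  abel

end H47
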