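import Pool.Agent.H.MP_47f0a1_an.Defs

/-!
# Fock models

`FModel A τ K` is the list of properties that we use of the full Fock space representation of
`A * C*(semicircular family)`: `K` is a Hilbert space, `inc` a representation of `A`, `ell j`
creation operators and `Om` the vacuum vector.
-/

open scoped InnerProductSpace

namespace H47

/-- The data and the relations of a Fock model. -/
structure FModel (A : Type*) [Ring A] [StarRing A] [Algebra ℂ A] [StarModule ℂ A]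
    (τ : A →ₗ[ℂ] ℂ) (K : Type*) [NormedAddCommGroup K] [InnerProductSpace ℂ K]
    [CompleteSpace K] where
  inc : A →⋆ₐ[ℂ] (K →L[ℂ] K)
  ell : ℕ → (K →L[ℂ] K)
  Om : K
  norm_Om : ‖Om‖ = 1
  inc_Om : ∀ a, ⟪Om, inc a Om⟫_ℂ = τ a
  ell_inc_ell : ∀ i j a, star (ell i) * inc a * ell j =
    if i = j then algebraMap ℂ (K →L[ℂ] K) (τ a) else 0
  ell_Om : ∀ i a, (star (ell i)) (inc a Om) = 0

namespace FModel

variable {A : Type*} [Ring A] [StarRing A] [Algebra ℂ A] [StarModule ℂ A]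
  {τ : A →ₗ[ℂ] ℂ} {K : Type*} [NormedAddCommGroup K] [InnerProductSpace ℂ K]
  [CompleteSpace K] (M : FModel A τ K)

/-- The vacuum state on all bounded operators. -/
noncomputable def st : (K →L[ℂ] K) →ₗ[ℂ] ℂ where
  toFun x := ⟪M.Om, x M.Om⟫_ℂ
  map_add' x y := by simp [inner_add_right]
  map_smul' c x := by simp [inner_smul_right]

/-- The semicircular elements. -/
noncomputable def s (j : ℕ) : K →L[ℂ] K := M.ell j + star (M.ell j)

/-- The C*-algebra generated by `A` and by the semicircular elements `s j`, `j ∈ S`. -/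
noncomputable def E (S : Set ℕ) : StarSubalgebra ℂ (K →L[ℂ] K) :=
  (StarAlgebra.adjoin ℂ (Set.range M.inc ∪ M.s '' S)).topologicalClosure

/-- The model is cyclic if the vacuum is cyclic for the algebra generated by `A` and all `s j`. -/
def Cyclic : Prop := closure {ξ | ∃ x ∈ M.E Set.univ, x M.Om = ξ} = Set.univ

/-- The same model with the first `m` creation operators forgotten. -/
noncomputable def shift (m : ℕ) : FModel A τ K where
  inc := M.inc
  ell j := M.ell (m + j)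
  Om := M.Om
  norm_Om := M.norm_Om
  inc_Om := M.inc_Om
  ell_inc_ell i j a := by
    rw [M.ell_inc_ell]
    simp
  ell_Om i a := M.ell_Om _ a

theorem st_apply (x : K →L[ℂ] K) : M.st x = ⟪M.Om, x M.Om⟫_ℂ := rfl

theorem st_one : M.st 1 = 1 := by
  rw [st_apply, ContinuousLinearMap.one_apply, inner_self_eq_norm_sq_to_K, M.norm_Om]
  simp

theorem st_inc (a : A) : M.st (M.inc a) = τ a := M.inc_Om a

include M in
theorem tau_one : τ 1 = 1 := by
  rw [← M.inc_Om 1, map_one, ← st_apply, st_one]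

theorem norm_st_le (x : K →L[ℂ] K) : ‖M.st x‖ ≤ ‖x‖ := by
  rw [st_apply]
  calc ‖⟪M.Om, x M.Om⟫_ℂ‖ ≤ ‖M.Om‖ * ‖x M.Om‖ := norm_inner_le_norm _ _
    _ ≤ ‖M.Om‖ * (‖x‖ * ‖M.Om‖) := by
        exact mul_le_mul_of_nonneg_left (x.le_opNorm _) (norm_nonneg _)
    _ = ‖x‖ := by rw [M.norm_Om]; ring

theorem st_continuous : Continuous M.st := by
  have h : (M.st : (K →L[ℂ] K) → ℂ) = fun x => ⟪M.Om, x M.Om⟫_ℂ := rfl
  rw [h]
  exact continuous_const.inner ((ContinuousLinearMap.apply ℂ K M.Om).continuous)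

theorem st_star (x : K →L[ℂ] K) : M.st (star x) = (starRingEnd ℂ) (M.st x) := by
  rw [st_apply, st_apply, ContinuousLinearMap.star_eq_adjoint,
    ContinuousLinearMap.adjoint_inner_right, inner_conj_symm]

/-- `⟨Ω, x* x Ω⟩ = ‖x Ω‖²`. -/
theorem st_star_mul (x : K →L[ℂ] K) : M.st (star x * x) = ((‖x M.Om‖ ^ 2 : ℝ) : ℂ) := by
  rw [st_apply, ContinuousLinearMap.mul_apply, ContinuousLinearMap.star_eq_adjoint,
    ContinuousLinearMap.adjoint_inner_right, inner_self_eq_norm_sq_to_K]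
  norm_cast

theorem st_isSt : IsSt M.st := by
  refine ⟨M.st_one, fun x => ?_⟩
  rw [M.st_star_mul, Complex.zero_le_real]
  exact sq_nonneg _

theorem norm_apply_Om_le (x : K →L[ℂ] K) : ‖x M.Om‖ ≤ ‖x‖ := by
  calc ‖x M.Om‖ ≤ ‖x‖ * ‖M.Om‖ := x.le_opNorm _
    _ = ‖x‖ := by rw [M.norm_Om, mul_one]

theorem ell_isom (j : ℕ) : star (M.ell j) * M.ell j = 1 := by
  have h := M.ell_inc_ell j j 1
  rw [map_one, mul_one, if_pos rfl, M.tau_one, map_one] at h
  exact h

theorem norm_ell_le (j : ℕ) : ‖M.ell j‖ ≤ 1 := by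
  have h : ‖M.ell j‖ * ‖M.ell j‖ = ‖(1 : K →L[ℂ] K)‖ := by
    rw [← M.ell_isom j, CStarRing.norm_star_mul_self]
  have h1 : ‖(1 : K →L[ℂ] K)‖ ≤ 1 := ContinuousLinearMap.norm_id_le
  nlinarith [norm_nonneg (M.ell j)]

theorem norm_s_le (j : ℕ) : ‖M.s j‖ ≤ 2 := by
  calc ‖M.s j‖ ≤ ‖M.ell j‖ + ‖star (M.ell j)‖ := norm_add_le _ _
    _ ≤ 2 := by rw [norm_star]; linarith [M.norm_ell_le j]

theorem ell_star_Om (j : ℕ) : (star (M.ell j)) M.Om = 0 := by
  have h := M.ell_Om j 1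
  rw [map_one, ContinuousLinearMap.one_apply] at h
  exact h

theorem s_star (j : ℕ) : star (M.s j) = M.s j := by
  rw [s, star_add, star_star, add_comm]

instance isClosed_E (S : Set ℕ) : IsClosed ((M.E S : StarSubalgebra ℂ (K →L[ℂ] K)) : Set (K →L[ℂ] K)) :=
  StarSubalgebra.isClosed_topologicalClosure _

theorem inc_mem (S : Set ℕ) (a : A) : M.inc a ∈ M.E S := by
  exact StarSubalgebra.le_topologicalClosure _
    (StarAlgebra.subset_adjoin ℂ _ (Or.inl ⟨a, rfl⟩))

theorem s_mem (S : Set ℕ) (j : ℕ) (hj : j ∈ S) : M.s j ∈ M.E S := by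
  exact StarSubalgebra.le_topologicalClosure _
    (StarAlgebra.subset_adjoin ℂ _ (Or.inr ⟨j, hj, rfl⟩))

theorem E_mono {S T : Set ℕ} (h : S ⊆ T) : M.E S ≤ M.E T := by
  exact StarSubalgebra.topologicalClosure_mono
    (StarAlgebra.adjoin_le (fun x hx => StarAlgebra.subset_adjoin ℂ _
      (Set.union_subset_union_right _ (Set.image_mono h) hx)))

theorem E_le (S : Set ℕ) (B : StarSubalgebra ℂ (K →L[ℂ] K)) (hB : IsClosed (B : Set (K →L[ℂ] K)))
    (h1 : ∀ a, M.inc a ∈ B) (h2 : ∀ j ∈ S, M.s j ∈ B) : M.E S ≤ B := by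
  refine StarSubalgebra.topologicalClosure_minimal (StarAlgebra.adjoin_le ?_) hB
  rintro x (⟨a, rfl⟩ | ⟨j, hj, rfl⟩)
  · exact h1 a
  · exact h2 j hj

theorem shift_st (m : ℕ) : (M.shift m).st = M.st := rfl

theorem shift_s (m j : ℕ) : (M.shift m).s j = M.s (m + j) := rfl

theorem shift_E (m : ℕ) : (M.shift m).E Set.univ = M.E {j | m ≤ j} := by
  apply le_antisymm
  · refine E_le _ _ _ (M.isClosed_E _) (fun a => M.inc_mem _ a) (fun j _ => ?_)
    rw [shift_s]
    exact M.s_mem _ _ (Nat.le_add_right m j)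
  · refine E_le _ _ _ ((M.shift m).isClosed_E _) (fun a => (M.shift m).inc_mem _ a)
      (fun j hj => ?_)
    have h := (M.shift m).s_mem Set.univ (j - m) (Set.mem_univ _)
    rw [shift_s, Nat.add_sub_cancel' hj] at h
    exact h

end FModel

end H47
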