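import Pool.Agent.H.MP_47f0a1_an.ModelR

/-!
# Fock models: one semicircular element on the kernel of the annihilation operator
-/

open scoped InnerProductSpace

namespace H47
namespace FModel

variable {A : Type*} [Ring A] [StarRing A] [Algebra ℂ A] [StarModule ℂ A]
  {τ : A →ₗ[ℂ] ℂ} {K : Type*} [NormedAddCommGroup K] [InnerProductSpace ℂ K]
  [CompleteSpace K] (M : FModel A τ K)

theorem modelCheb_s_ker (j : ℕ) (ξ : K) (hξ : (star (M.ell j)) ξ = 0) :
    M.s j ξ = M.ell j ξ := by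
  have h : M.s j ξ = M.ell j ξ + (star (M.ell j)) ξ := rfl
  rw [h, hξ, add_zero]

theorem modelCheb_star_ell (j : ℕ) (η : K) : (star (M.ell j)) (M.ell j η) = η := by
  have h : (star (M.ell j) * M.ell j) η = η := by
    rw [M.ell_isom j]
    rfl
  exact h

theorem modelCheb_s_ell (j : ℕ) (η : K) :
    M.s j (M.ell j η) = M.ell j (M.ell j η) + η := by
  have h : M.s j (M.ell j η) = M.ell j (M.ell j η) + (star (M.ell j)) (M.ell j η) := rfl
  rw [h, M.modelCheb_star_ell]

/-- On the kernel of the annihilation operator, a polynomial in `s` acts as a polynomial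
in `ℓ`. -/
theorem modelCheb_exists_ell (j : ℕ) (p : Polynomial ℂ) : ∃ r : Polynomial ℂ,
    ∀ ξ : K, (star (M.ell j)) ξ = 0 →
      (Polynomial.aeval (M.s j) p) ξ = (Polynomial.aeval (M.ell j) r) ξ := by
  induction p using Polynomial.induction_on with
  | C a =>
    refine ⟨Polynomial.C a, fun ξ _ => ?_⟩
    rw [Polynomial.aeval_C, Polynomial.aeval_C]
  | add p q hp hq =>
    obtain ⟨r, hr⟩ := hp
    obtain ⟨t, ht⟩ := hq
    refine ⟨r + t, fun ξ hξ => ?_⟩
    rw [map_add, map_add]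
    show (Polynomial.aeval (M.s j) p) ξ + (Polynomial.aeval (M.s j) q) ξ =
      (Polynomial.aeval (M.ell j) r) ξ + (Polynomial.aeval (M.ell j) t) ξ
    rw [hr ξ hξ, ht ξ hξ]
  | monomial n a h =>
    obtain ⟨r, hr⟩ := h
    refine ⟨Polynomial.X * r + r.divX, fun ξ hξ => ?_⟩
    have e : (Polynomial.C a * Polynomial.X ^ (n + 1) : Polynomial ℂ) =
        Polynomial.X * (Polynomial.C a * Polynomial.X ^ n) := by ring
    have h1 : (Polynomial.aeval (M.s j) (Polynomial.X * (Polynomial.C a * Polynomial.X ^ n))) ξ =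
        M.s j ((Polynomial.aeval (M.s j) (Polynomial.C a * Polynomial.X ^ n)) ξ) := by
      rw [map_mul, Polynomial.aeval_X]
      rfl
    rw [e, h1, hr ξ hξ]
    have h2 : (Polynomial.aeval (M.ell j) (Polynomial.X * r + r.divX)) ξ =
        M.ell j ((Polynomial.aeval (M.ell j) r) ξ) + (Polynomial.aeval (M.ell j) r.divX) ξ := by
      rw [map_add, map_mul, Polynomial.aeval_X]
      rfl
    have h3 : (Polynomial.aeval (M.ell j) r) ξ =
        M.ell j ((Polynomial.aeval (M.ell j) r.divX) ξ) + (r.coeff 0) • ξ := by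
      conv_lhs => rw [← Polynomial.divX_mul_X_add r, mul_comm r.divX]
      rw [map_add, map_mul, Polynomial.aeval_X, Polynomial.aeval_C,
        Algebra.algebraMap_eq_smul_one]
      rfl
    have h4 : M.s j ((Polynomial.aeval (M.ell j) r) ξ) =
        M.ell j ((Polynomial.aeval (M.ell j) r) ξ) +
          (star (M.ell j)) ((Polynomial.aeval (M.ell j) r) ξ) := rfl
    have h5 : (star (M.ell j)) ((Polynomial.aeval (M.ell j) r) ξ) =
        (Polynomial.aeval (M.ell j) r.divX) ξ := by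
      rw [h3, map_add, map_smul, hξ, smul_zero, add_zero, M.modelCheb_star_ell]
    rw [h2, h4, h5]

theorem modelCheb_aeval_divX (j : ℕ) (r : Polynomial ℂ) (ξ : K) :
    (Polynomial.aeval (M.ell j) r) ξ =
        (r.coeff 0) • ξ + M.ell j ((Polynomial.aeval (M.ell j) r.divX) ξ) := by
  conv_lhs => rw [← Polynomial.divX_mul_X_add r, mul_comm r.divX]
  rw [map_add, map_mul, Polynomial.aeval_X, Polynomial.aeval_C,
    Algebra.algebraMap_eq_smul_one, add_comm]
  rfl

/-- Chebyshev polynomials of the second kind in `s = ℓ + ℓ*` act on `ker ℓ*` as powers of `ℓ`: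
for every `n` there is a (monic) polynomial `p` of degree `n` with `p(s) ξ = ℓⁿ ξ` for all
`ξ ∈ ker ℓ*`. Proof: `p₀ = 1`, `p₁ = X`, `pₙ₊₂ = X pₙ₊₁ - pₙ`: `s ℓⁿ⁺¹ ξ = ℓⁿ⁺² ξ + ℓⁿ ξ` because
`ℓ* ℓ = 1`, `s ξ = ℓ ξ`. -/
theorem exists_cheb (j : ℕ) (n : ℕ) : ∃ p : Polynomial ℂ, p.Monic ∧ p.natDegree = n ∧
    ∀ ξ : K, (star (M.ell j)) ξ = 0 → (Polynomial.aeval (M.s j) p) ξ = ((M.ell j) ^ n) ξ := by
  have key : ∀ n : ℕ,
      (∃ p : Polynomial ℂ, p.Monic ∧ p.natDegree = n ∧
        ∀ ξ : K, (star (M.ell j)) ξ = 0 →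
          (Polynomial.aeval (M.s j) p) ξ = ((M.ell j) ^ n) ξ) ∧
      (∃ p : Polynomial ℂ, p.Monic ∧ p.natDegree = n + 1 ∧
        ∀ ξ : K, (star (M.ell j)) ξ = 0 →
          (Polynomial.aeval (M.s j) p) ξ = ((M.ell j) ^ (n + 1)) ξ) := by
    intro n
    induction n with
    | zero =>
      refine ⟨⟨1, Polynomial.monic_one, Polynomial.natDegree_one, fun ξ _ => ?_⟩,
        ⟨Polynomial.X, Polynomial.monic_X, Polynomial.natDegree_X, fun ξ hξ => ?_⟩⟩
      · rw [map_one, pow_zero]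
      · rw [Polynomial.aeval_X, zero_add, pow_one, M.modelCheb_s_ker j ξ hξ]
    | succ n ih =>
      obtain ⟨⟨r, hr1, hr2, hr3⟩, ⟨q, hq1, hq2, hq3⟩⟩ := ih
      refine ⟨⟨q, hq1, hq2, hq3⟩, ⟨Polynomial.X * q - r, ?_, ?_, fun ξ hξ => ?_⟩⟩
      · apply Polynomial.Monic.sub_of_left (Polynomial.monic_X.mul hq1)
        apply Polynomial.degree_lt_degree
        rw [Polynomial.natDegree_X_mul hq1.ne_zero, hq2, hr2]
        omega
      · rw [Polynomial.natDegree_sub_eq_left_of_natDegree_lt,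
          Polynomial.natDegree_X_mul hq1.ne_zero, hq2]
        rw [Polynomial.natDegree_X_mul hq1.ne_zero, hq2, hr2]
        omega
      · have h1 : (Polynomial.aeval (M.s j) (Polynomial.X * q - r)) ξ =
            M.s j ((Polynomial.aeval (M.s j) q) ξ) - (Polynomial.aeval (M.s j) r) ξ := by
          rw [map_sub, map_mul, Polynomial.aeval_X]
          rfl
        rw [h1, hq3 ξ hξ, hr3 ξ hξ]
        have h2 : ((M.ell j) ^ (n + 1)) ξ = M.ell j (((M.ell j) ^ n) ξ) := by
          rw [pow_succ']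
          rfl
        have h3 : ((M.ell j) ^ (n + 1 + 1)) ξ = M.ell j (((M.ell j) ^ (n + 1)) ξ) := by
          rw [pow_succ']
          rfl
        rw [h3, h2, M.modelCheb_s_ell]
        abel
  exact (key n).1

/-- Every polynomial in `s = s_j` is, on `ker ℓ*`, of the form `c + ℓ (polynomial in ℓ)`, with
`c = st(p(s))`. Proof: by `exists_cheb` the polynomials `pₙ` span all polynomials (induction on the
degree), and `st (pₙ(s)) = ⟨Ω, ℓⁿ Ω⟩ = δ_{n0}` because `ℓ* Ω = 0`. -/
theorem poly_on_ker (j : ℕ) (p : Polynomial ℂ) : ∃ q : K →L[ℂ] K,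
    ∀ ξ : K, (star (M.ell j)) ξ = 0 →
      (Polynomial.aeval (M.s j) p) ξ = M.st (Polynomial.aeval (M.s j) p) • ξ + M.ell j (q ξ) := by
  obtain ⟨r, hr⟩ := M.modelCheb_exists_ell j p
  have h0 : M.st (Polynomial.aeval (M.s j) p) = r.coeff 0 := by
    rw [st_apply, hr _ (M.ell_star_Om j), M.modelCheb_aeval_divX, inner_add_right,
      inner_smul_right, inner_self_eq_norm_sq_to_K, M.norm_Om,
      ← ContinuousLinearMap.adjoint_inner_left, ← ContinuousLinearMap.star_eq_adjoint,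
      M.ell_star_Om, inner_zero_left]
    simp
  refine ⟨Polynomial.aeval (M.ell j) r.divX, fun ξ hξ => ?_⟩
  rw [h0, hr ξ hξ, M.modelCheb_aeval_divX]

/-- Centred elements of `C*(s_j)` map `ker ℓ_j*` into the range of `ℓ_j`.
Proof. `y` is a limit of polynomials `pₙ(s_j)` (`s_j` is selfadjoint, so the star algebra adjoined
to `s_j` consists of polynomials in `s_j`), `st (pₙ(s_j)) → st y = 0`, and by `poly_on_ker` the
vectors `pₙ(s_j) ξ - st (pₙ(s_j)) • ξ` lie in the range of `ℓ_j`, which is closed because `ℓ_j` is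
isometric; they converge to `y ξ`. -/
theorem centred_s (j : ℕ) (y : K →L[ℂ] K) (hy : y ∈ StarAlgebra.elemental ℂ (M.s j))
    (h0 : M.st y = 0) (ξ : K) (hξ : (star (M.ell j)) ξ = 0) : ∃ η, y ξ = M.ell j η := by
  have hc : IsClosed {z : K →L[ℂ] K |
      z ξ - M.st z • ξ = M.ell j ((star (M.ell j)) (z ξ - M.st z • ξ))} := by
    have c1 : Continuous (fun z : K →L[ℂ] K => z ξ - M.st z • ξ) :=
      (ContinuousLinearMap.apply ℂ K ξ).continuous.sub
        (M.st_continuous.smul continuous_const)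
    exact isClosed_eq c1 ((M.ell j).continuous.comp ((star (M.ell j)).continuous.comp c1))
  have hs : ((StarAlgebra.adjoin ℂ {M.s j} : StarSubalgebra ℂ (K →L[ℂ] K)) :
      Set (K →L[ℂ] K)) ⊆ {z : K →L[ℂ] K |
      z ξ - M.st z • ξ = M.ell j ((star (M.ell j)) (z ξ - M.st z • ξ))} := by
    intro z hz
    have h1 : z ∈ (StarAlgebra.adjoin ℂ {M.s j}).toSubalgebra := hz
    have h2 : ({M.s j} : Set (K →L[ℂ] K)) ∪ star {M.s j} = {M.s j} := by
      rw [Set.star_singleton, M.s_star, Set.union_self]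
    rw [StarAlgebra.adjoin_toSubalgebra, h2, Algebra.adjoin_singleton_eq_range_aeval] at h1
    obtain ⟨p, hp⟩ := h1
    obtain ⟨q, hq⟩ := M.poly_on_ker j p
    have h3 : z ξ - M.st z • ξ = M.ell j (q ξ) := by
      have hp' : Polynomial.aeval (M.s j) p = z := hp
      rw [← hp', hq ξ hξ, add_sub_cancel_left]
    show z ξ - M.st z • ξ = M.ell j ((star (M.ell j)) (z ξ - M.st z • ξ))
    rw [h3, M.modelCheb_star_ell]
  have h := closure_minimal hs hc hy
  have h' : y ξ - M.st y • ξ = M.ell j ((star (M.ell j)) (y ξ - M.st y • ξ)) := h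
  rw [h0, zero_smul, sub_zero] at h'
  exact ⟨_, h'⟩

end FModel
end H47
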