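import Pool.Agent.H.MP_47f0a1_an.ModelCheb

/-!
# Fock models: freeness
-/

open scoped InnerProductSpace

namespace H47
namespace FModel

variable {A : Type*} [Ring A] [StarRing A] [Algebra ℂ A] [StarModule ℂ A]
  {τ : A →ₗ[ℂ] ℂ} {K : Type*} [NormedAddCommGroup K] [InnerProductSpace ℂ K]
  [CompleteSpace K] (M : FModel A τ K)

/-- The family consisting of `E S` and of the C*-algebras generated by the `s j`, `j ∉ S`. -/
noncomputable def fam (S : Set ℕ) : Option {j : ℕ // j ∉ S} → StarSubalgebra ℂ (K →L[ℂ] K)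
  | none => M.E S
  | some j => StarAlgebra.elemental ℂ (M.s j.1)

/-- Vectors orthogonal to the vacuum and killed by all `ℓ_j*`, `j ∉ S`. -/
def Wperp (S : Set ℕ) : Set K := {ξ | ⟪M.Om, ξ⟫_ℂ = 0 ∧ ∀ j, j ∉ S → (star (M.ell j)) ξ = 0}

/-- Centred elements of `E S` map the vacuum and the ranges of the `ℓ_j`, `j ∉ S`, into `Wperp S`.
Proof: `ℓ_i* x ℓ_j η = δ st(x) η = 0` (`compress`), `⟨Ω, x ℓ_j η⟩ = ⟨ℓ_j* x* Ω, η⟩ = 0` (`kill`),
`ℓ_i* x Ω = 0` (`kill`), `⟨Ω, x Ω⟩ = st x = 0`. -/
theorem centred_E (S : Set ℕ) (x : K →L[ℂ] K) (hx : x ∈ M.E S) (h0 : M.st x = 0) :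
    x M.Om ∈ M.Wperp S ∧ ∀ j, j ∉ S → ∀ η, x (M.ell j η) ∈ M.Wperp S := by
  refine ⟨⟨h0, fun j hj => M.kill S j hj x hx⟩, fun j hj η => ⟨?_, fun i hi => ?_⟩⟩
  · have h1 : (star (M.ell j)) ((star x) M.Om) = 0 := M.kill S j hj (star x) (star_mem hx)
    rw [← ContinuousLinearMap.adjoint_inner_left, ← ContinuousLinearMap.star_eq_adjoint,
      ← ContinuousLinearMap.adjoint_inner_left, ← ContinuousLinearMap.star_eq_adjoint, h1,
      inner_zero_left]
  · have h1 := M.compress S i j hi hj x hx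
    have h2 : (star (M.ell i)) (x (M.ell j η)) = (star (M.ell i) * x * M.ell j) η := rfl
    rw [h2, h1, h0, map_zero, ite_self]
    rfl

theorem modelfree_star_ell_ell (i j : ℕ) (hij : i ≠ j) (η : K) :
    (star (M.ell i)) (M.ell j η) = 0 := by
  have h1 := M.ell_inc_ell i j 1
  rw [map_one, mul_one, if_neg hij] at h1
  have h2 : (star (M.ell i)) (M.ell j η) = (star (M.ell i) * M.ell j) η := rfl
  rw [h2, h1]
  rfl

theorem modelfree_inner_ell (j : ℕ) (η : K) : ⟪M.Om, M.ell j η⟫_ℂ = 0 := by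
  rw [← ContinuousLinearMap.adjoint_inner_left, ← ContinuousLinearMap.star_eq_adjoint,
    M.ell_star_Om, inner_zero_left]

/-- Where the vector `(product of l) Om` lies, for a list with head index `i`. -/
def modelfreeP (S : Set ℕ) : Option {j : ℕ // j ∉ S} → K → Prop
  | none, ξ => ξ ∈ M.Wperp S
  | some j, ξ => ∃ η, ξ = M.ell j.1 η

theorem modelfree_orth (S : Set ℕ) (i : Option {j : ℕ // j ∉ S}) (ξ : K)
    (h : M.modelfreeP S i ξ) : ⟪M.Om, ξ⟫_ℂ = 0 := by
  cases i with
  | none => exact h.1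
  | some j =>
    obtain ⟨η, rfl⟩ := h
    exact M.modelfree_inner_ell j.1 η

/-- The first step. -/
theorem modelfree_Om (S : Set ℕ) (i : Option {j : ℕ // j ∉ S}) (x : K →L[ℂ] K)
    (hx : x ∈ M.fam S i) (h0 : M.st x = 0) : M.modelfreeP S i (x M.Om) := by
  cases i with
  | none => exact (M.centred_E S x hx h0).1
  | some j => exact M.centred_s j.1 x hx h0 M.Om (M.ell_star_Om j.1)

/-- The inductive step. -/
theorem modelfree_step (S : Set ℕ) (i k : Option {j : ℕ // j ∉ S}) (hik : i ≠ k)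
    (x : K →L[ℂ] K) (hx : x ∈ M.fam S i) (h0 : M.st x = 0) (ξ : K)
    (h : M.modelfreeP S k ξ) : M.modelfreeP S i (x ξ) := by
  cases i with
  | none =>
    cases k with
    | none => exact absurd rfl hik
    | some j =>
      obtain ⟨η, rfl⟩ := h
      exact (M.centred_E S x hx h0).2 j.1 j.2 η
  | some j =>
    refine M.centred_s j.1 x hx h0 ξ ?_
    cases k with
    | none => exact h.2 j.1 j.2
    | some l =>
      obtain ⟨η, rfl⟩ := h
      refine M.modelfree_star_ell_ell j.1 l.1 (fun e => hik ?_) η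
      rw [Subtype.ext e]

theorem modelfree_list (S : Set ℕ) (l : List (Option {j : ℕ // j ∉ S} × (K →L[ℂ] K))) :
    ∀ p : Option {j : ℕ // j ∉ S} × (K →L[ℂ] K),
      (p :: l).IsChain (fun p q => p.1 ≠ q.1) →
      (∀ q ∈ p :: l, q.2 ∈ M.fam S q.1 ∧ M.st q.2 = 0) →
      M.modelfreeP S p.1 (((p :: l).map Prod.snd).prod M.Om) := by
  induction l with
  | nil =>
    intro p _ hp
    have h1 := hp p (List.mem_singleton.2 rfl)
    have h2 : (([p].map Prod.snd).prod) M.Om = p.2 M.Om := by
      simp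
    rw [h2]
    exact M.modelfree_Om S p.1 p.2 h1.1 h1.2
  | cons q l ih =>
    intro p hc hp
    rw [List.isChain_cons_cons] at hc
    have h1 := hp p List.mem_cons_self
    have h2 := ih q hc.2 (fun r hr => hp r (List.mem_cons_of_mem p hr))
    have h3 : (((p :: q :: l).map Prod.snd).prod) M.Om =
        p.2 ((((q :: l).map Prod.snd).prod) M.Om) := by
      rw [List.map_cons, List.prod_cons]
      rfl
    rw [h3]
    exact M.modelfree_step S p.1 q.1 hc.1 p.2 h1.1 h1.2 _ h2

/-- `E S` and the `C*(s_j)`, `j ∉ S`, are free.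

Proof. By induction on the alternating centred list `l` (nonempty) the vector `(product of l) Ω`
lies in `Wperp S` if the head index is `none`, and in the range of `ℓ_j` if the head index is
`some j`. Indeed the vector for the tail (or `Ω` itself if the tail is empty) is: `Ω`, or in
`Wperp S`, or in the range of `ℓ_i`, with the head index of the tail different from that of `l`; if
the head index is `none`, use `centred_E`; if it is `some j` then the previous vector lies in
`ker ℓ_j*` (`ell_star_Om`; definition of `Wperp`; `ℓ_j* ℓ_i = 0` for `i ≠ j` by `ell_inc_ell` with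
`a = 1`) and `centred_s` applies. In both cases the result is orthogonal to `Ω`
(`⟨Ω, ℓ_j η⟩ = ⟨ℓ_j* Ω, η⟩ = 0`). -/
theorem free_fam (S : Set ℕ) : IsFree M.st (M.fam S) := by
  intro l hl hc hp
  cases l with
  | nil => exact absurd rfl hl
  | cons p l =>
    rw [st_apply]
    exact M.modelfree_orth S p.1 _ (M.modelfree_list S l p hc hp)

end FModel
end H47
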