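import Pool.Agent.H.MP_47f0a1_an.Semi
import Pool.Agent.H.MP_47f0a1_an.Base
import Pool.Agent.H.MP_47f0a1_an.FreeClosure

/-!
# The C*-algebra of a Fock model as an abstract C*-algebra
-/

open scoped InnerProductSpace
open MeasureTheory

namespace H47
namespace FModel

variable {Z : Type} [MetricSpace Z] [CompactSpace Z] [MeasurableSpace Z] [BorelSpace Z]
  {μ : Measure Z} [IsProbabilityMeasure μ]
  {K : Type} [NormedAddCommGroup K] [InnerProductSpace ℂ K] [CompleteSpace K]
  (M : FModel C(Z, ℂ) (intL μ) K)

/-- The C*-algebra generated by `C(Z)` and all semicircular elements. -/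
abbrev PA : Type := ↥(M.E Set.univ)

/-- The embedding of `C(Z)`. -/
noncomputable def incP : C(Z, ℂ) →⋆ₐ[ℂ] M.PA :=
  M.inc.codRestrict (M.E Set.univ) (fun a => M.inc_mem Set.univ a)

/-- The embeddings of `C([0,1])`. -/
noncomputable def kapP (j : ℕ) : C(unitInterval, ℂ) →⋆ₐ[ℂ] M.PA :=
  (M.kap j).codRestrict (M.E Set.univ) (fun f => M.kap_mem Set.univ j (Set.mem_univ j) f)

/-- The restriction of the vacuum state. -/
noncomputable def trP : M.PA →ₗ[ℂ] ℂ := M.st ∘ₗ (M.E Set.univ).subtype.toAlgHom.toLinearMap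

theorem trP_apply (x : M.PA) : M.trP x = M.st (x : K →L[ℂ] K) := rfl

theorem coe_incP (a : C(Z, ℂ)) : ((M.incP a : M.PA) : K →L[ℂ] K) = M.inc a := rfl

theorem coe_kapP (j : ℕ) (f : C(unitInterval, ℂ)) :
    ((M.kapP j f : M.PA) : K →L[ℂ] K) = M.kap j f := rfl

theorem trP_incP (a : C(Z, ℂ)) : M.trP (M.incP a) = intL μ a := M.st_inc a

theorem trP_kapP (j : ℕ) (f : C(unitInterval, ℂ)) : M.trP (M.kapP j f) = ∫ x, f x :=
  M.st_kap j f

/-- The vacuum state is a faithful trace for a cyclic model: `st_isSt`, `st_tr`, `eq_zero_of_Om` and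
`st_star_mul`. -/
theorem trP_ft (hc : M.Cyclic) : IsFT M.trP where
  st := ⟨M.st_one, fun x => M.st_isSt.nonneg (x : K →L[ℂ] K)⟩
  tr := fun x y => M.st_tr (intL_comm μ) x y x.2 y.2
  faithful := by
    intro x hx
    apply Subtype.ext
    apply M.eq_zero_of_Om (intL_comm μ) hc (x : K →L[ℂ] K) x.2
    have h1 : M.st (star (x : K →L[ℂ] K) * (x : K →L[ℂ] K)) = 0 := hx
    rw [M.st_star_mul] at h1
    have h2 : (‖(x : K →L[ℂ] K) M.Om‖ ^ 2 : ℝ) = 0 := by exact_mod_cast h1
    exact norm_eq_zero.1 (pow_eq_zero_iff (two_ne_zero)|>.1 h2)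

/-- The generators in the closure of a star subalgebra of `M.PA`: then it is dense. -/
theorem modelP_gen (T : StarSubalgebra ℂ M.PA) (h1 : ∀ a, M.incP a ∈ T)
    (h2 : ∀ j, ∃ x ∈ T, ((x : M.PA) : K →L[ℂ] K) = M.s j) : T.topologicalClosure = ⊤ := by
  have hcl : IsClosed ((T.topologicalClosure.map (M.E Set.univ).subtype :
      StarSubalgebra ℂ (K →L[ℂ] K)) : Set (K →L[ℂ] K)) := by
    rw [StarSubalgebra.coe_map]
    exact (M.isClosed_E Set.univ).isClosedEmbedding_subtypeVal.isClosedMap _
      (StarSubalgebra.isClosed_topologicalClosure T)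
  have hle : M.E Set.univ ≤ T.topologicalClosure.map (M.E Set.univ).subtype := by
    apply M.E_le Set.univ _ hcl
    · intro a
      rw [StarSubalgebra.mem_map]
      exact ⟨M.incP a, StarSubalgebra.le_topologicalClosure T (h1 a), rfl⟩
    · intro j _
      rw [StarSubalgebra.mem_map]
      obtain ⟨x, hx, hxs⟩ := h2 j
      exact ⟨x, StarSubalgebra.le_topologicalClosure T hx, hxs⟩
  rw [eq_top_iff]
  intro x _
  obtain ⟨y, hy, hxy⟩ := StarSubalgebra.mem_map.1 (hle x.2)
  have : y = x := Subtype.ext hxy
  rwa [this] at hy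

/-- The members of the family: for `m : ℕ`, the algebra generated by `C(Z)` and the `s j`, `j ≥ m`,
and the copies of `C([0,1])` with labels `< m`. -/
noncomputable def famP (m : ℕ) : Option (Fin m) → StarSubalgebra ℂ M.PA
  | none => (M.E {j | m ≤ j}).comap (M.E Set.univ).subtype
  | some j => (M.kapP j).range

/-- They are free: `free_fam` for `S = {j | m ≤ j}`, reindexed along `Option (Fin m) → Option _`,
and `free_comp`, `free_mono` (`kap_mem_elemental`). -/
theorem free_famP (m : ℕ) : IsFree M.trP (M.famP m) := by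
  have hj : ∀ j : Fin m, j.1 ∉ {j : ℕ | m ≤ j} := fun j h => absurd j.2 (not_lt.2 h)
  let e : Option (Fin m) → Option {j : ℕ // j ∉ {j : ℕ | m ≤ j}} :=
    Option.map (fun j => ⟨j.1, hj j⟩)
  have he : Function.Injective e := by
    apply Option.map_injective
    intro a b hab
    exact Fin.ext (congrArg Subtype.val hab)
  refine free_comp M.st (M.E Set.univ).subtype (M.famP m)
    (fun i => M.fam {j : ℕ | m ≤ j} (e i)) ?_ (free_reindex M.st _ e he (M.free_fam _))
    M.trP (fun x => rfl)
  intro i x hx
  match i, hx with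
  | none, hx => exact hx
  | some j, hx =>
    obtain ⟨f, rfl⟩ := hx
    exact M.kap_mem_elemental j f

/-- They generate: the closure of the supremum is a closed star subalgebra of `M.PA` that contains
`incP` (in the member `none`), and for every `j` an element which is mapped to `s j`
(`j ≥ m`: in the member `none`; `j < m`: `exists_kap_eq_s`). Its image under the (isometric) inclusion
in `K →L[ℂ] K` is a closed star subalgebra which contains the generators, so it is `M.E univ`
(`E_le`). -/
theorem gen_famP (m : ℕ) : (⨆ i, M.famP m i).topologicalClosure = ⊤ := by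
  apply M.modelP_gen
  · intro a
    apply le_iSup (M.famP m) none
    exact M.inc_mem _ a
  · intro j
    rcases le_or_gt m j with hj | hj
    · refine ⟨⟨M.s j, M.s_mem _ j (Set.mem_univ j)⟩, ?_, rfl⟩
      apply le_iSup (M.famP m) none
      exact M.s_mem _ j hj
    · obtain ⟨f, hf⟩ := M.exists_kap_eq_s j
      refine ⟨M.kapP j f, ?_, hf⟩
      apply le_iSup (M.famP m) (some ⟨j, hj⟩)
      exact ⟨f, rfl⟩

/-- The family of all the generating copies. -/
noncomputable def famPZ : Option ℕ → StarSubalgebra ℂ M.PA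
  | none => M.incP.range
  | some j => (M.kapP j).range

/-- `M.PA` is the reduced free product of `C(Z)` and of infinitely many copies of `C([0,1])`.
Freeness: `free_fam` for `S = ∅`. Generation as in `gen_famP`. The GNS condition follows from
faithfulness: take `y = 1`. -/
theorem rfp_famPZ (hc : M.Cyclic) : IsRFP M.trP M.famPZ where
  st := (M.trP_ft hc).st
  free := by
    let e : Option ℕ → Option {j : ℕ // j ∉ (∅ : Set ℕ)} :=
      Option.map (fun j => ⟨j, Set.notMem_empty j⟩)
    have he : Function.Injective e := by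
      apply Option.map_injective
      intro a b hab
      exact congrArg Subtype.val hab
    refine free_comp M.st (M.E Set.univ).subtype M.famPZ
      (fun i => M.fam ∅ (e i)) ?_ (free_reindex M.st _ e he (M.free_fam _))
      M.trP (fun x => rfl)
    intro i x hx
    match i, hx with
    | none, hx =>
      obtain ⟨a, rfl⟩ := hx
      exact M.inc_mem _ a
    | some j, hx =>
      obtain ⟨f, rfl⟩ := hx
      exact M.kap_mem_elemental j f
  gen := by
    apply M.modelP_gen
    · intro a
      apply le_iSup M.famPZ none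
      exact ⟨a, rfl⟩
    · intro j
      obtain ⟨f, hf⟩ := M.exists_kap_eq_s j
      refine ⟨M.kapP j f, ?_, hf⟩
      apply le_iSup M.famPZ (some j)
      exact ⟨f, rfl⟩
  gns := by
    intro x hx
    apply (M.trP_ft hc).faithful x
    have h1 := hx 1
    simpa using h1

end FModel
end H47
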