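import Mathlib

/-!
# Separability
-/

open TopologicalSpace

namespace H47

/-- A C*-algebra generated by a separable set is separable.

Proof. `StarAlgebra.adjoin ℂ G0` is the span of the monoid generated by `G0 ∪ star G0`
(`Algebra.adjoin_eq_span`); a countable dense subset `D` of `G0` gives the dense subalgebra
generated by `D` (closure), whose elements are linear combinations of the countably many words in
`D ∪ star D`; the span of a countable set is separable (`TopologicalSpace.IsSeparable.span`). -/
theorem separable_of_gen {P : Type*} [CStarAlgebra P] (G0 : Set P) (hs : IsSeparable G0)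
    (hG : (StarAlgebra.adjoin ℂ G0).topologicalClosure = ⊤) : SeparableSpace P := by
  obtain ⟨c, hc, hsub⟩ := hs
  have hcs : (c ∪ star c).Countable := by
    refine hc.union ?_
    rw [← Set.image_star]
    exact hc.image _
  have hM : (Submonoid.closure (c ∪ star c) : Set P).Countable := by
    haveI := hcs.to_subtype
    rw [Submonoid.closure_eq_mrange, MonoidHom.coe_mrange]
    exact Set.countable_range _
  have hsep : IsSeparable ((StarAlgebra.adjoin ℂ c : StarSubalgebra ℂ P) : Set P) := by
    have h1 : IsSeparable (Submodule.span ℂ (Submonoid.closure (c ∪ star c) : Set P) : Set P) :=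
      hM.isSeparable.span
    rw [← Algebra.adjoin_eq_span] at h1
    exact h1
  have hsep2 := hsep.closure
  rw [← StarSubalgebra.topologicalClosure_coe] at hsep2
  have hle : StarAlgebra.adjoin ℂ G0 ≤ (StarAlgebra.adjoin ℂ c).topologicalClosure := by
    refine StarAlgebra.adjoin_le fun x hx => ?_
    have hx' := hsub hx
    rw [StarSubalgebra.topologicalClosure_coe]
    exact closure_mono (StarAlgebra.subset_adjoin ℂ c) hx'
  have htop : (⊤ : StarSubalgebra ℂ P) ≤ (StarAlgebra.adjoin ℂ c).topologicalClosure := by
    rw [← hG]
    exact StarSubalgebra.topologicalClosure_minimal hle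
      (StarSubalgebra.isClosed_topologicalClosure _)
  rw [← isSeparable_univ_iff]
  exact hsep2.mono fun x _ => htop trivial

end H47
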