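import Pool.Agent.H.MP_47f0a1_an.Base
import Pool.Agent.H.MP_47f0a1_an.Uniq
import Pool.Agent.H.MP_47f0a1_an.Sep

/-!
# The algebras `C(Z) * C([0,1])^{*∞}` up to isomorphism
-/

open MeasureTheory TopologicalSpace

namespace H47

/-- The family of the copies. -/
noncomputable def famZ {C P : Type*} [Ring C] [StarRing C] [Algebra ℂ C] [CStarAlgebra P]
    (inc : C →⋆ₐ[ℂ] P) (kap : ℕ → C(unitInterval, ℂ) →⋆ₐ[ℂ] P) :
    Option ℕ → StarSubalgebra ℂ P
  | none => inc.range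
  | some j => (kap j).range

/-- `(P, tr)` is the reduced free product of `C(Z)` with the measure `μ` and of infinitely many copies
of `C([0,1])` with Lebesgue measure. -/
structure IsPZ {Z : Type} [MetricSpace Z] [CompactSpace Z] [MeasurableSpace Z] [BorelSpace Z]
    (μ : Measure Z) [IsProbabilityMeasure μ] {P : Type*} [CStarAlgebra P] (tr : P →ₗ[ℂ] ℂ)
    (inc : C(Z, ℂ) →⋆ₐ[ℂ] P) (kap : ℕ → C(unitInterval, ℂ) →⋆ₐ[ℂ] P) : Prop where
  tr_inc : ∀ a, tr (inc a) = intL μ a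
  tr_kap : ∀ j f, tr (kap j f) = ∫ x, f x
  rfp : IsRFP tr (famZ inc kap)

variable {Z Z' : Type} [MetricSpace Z] [CompactSpace Z] [MeasurableSpace Z] [BorelSpace Z]
  [MetricSpace Z'] [CompactSpace Z'] [MeasurableSpace Z'] [BorelSpace Z']
  {μ : Measure Z} [IsProbabilityMeasure μ] {μ' : Measure Z'} [IsProbabilityMeasure μ']
  {P P' : Type*} [CStarAlgebra P] [CStarAlgebra P'] {tr : P →ₗ[ℂ] ℂ} {tr' : P' →ₗ[ℂ] ℂ}
  {inc : C(Z, ℂ) →⋆ₐ[ℂ] P} {kap : ℕ → C(unitInterval, ℂ) →⋆ₐ[ℂ] P}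
  {inc' : C(Z', ℂ) →⋆ₐ[ℂ] P'} {kap' : ℕ → C(unitInterval, ℂ) →⋆ₐ[ℂ] P'}

theorem pz_range_comm {C P : Type*} [CommRing C] [StarRing C] [Algebra ℂ C] [CStarAlgebra P]
    (f : C →⋆ₐ[ℂ] P) : ∀ x ∈ f.range, ∀ y ∈ f.range, x * y = y * x := by
  rintro x ⟨a, rfl⟩ y ⟨b, rfl⟩
  change f a * f b = f b * f a
  rw [← map_mul, ← map_mul, mul_comm]

/-- The state is a faithful trace (`IsRFP.ft_comm`; the ranges of homomorphisms from commutative
algebras are commutative). -/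
theorem IsPZ.ft (h : IsPZ μ tr inc kap) : IsFT tr := by
  refine h.rfp.ft_comm ?_
  rintro (_ | j)
  · exact pz_range_comm inc
  · exact pz_range_comm (kap j)

/-- The graphs of the prescribed maps. -/
noncomputable def pzGraph (inc : C(Z, ℂ) →⋆ₐ[ℂ] P) (kap : ℕ → C(unitInterval, ℂ) →⋆ₐ[ℂ] P)
    (inc' : C(Z', ℂ) →⋆ₐ[ℂ] P') (kap' : ℕ → C(unitInterval, ℂ) →⋆ₐ[ℂ] P') (p : C(Z', Z)) :
    Option ℕ → StarSubalgebra ℂ (P × P')
  | none => (inc.prod (inc'.comp (ContinuousMap.compStarAlgHom' ℂ ℂ p))).range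
  | some j => ((kap j).prod (kap' j)).range

theorem pz_iSup_le_adjoin (inc : C(Z, ℂ) →⋆ₐ[ℂ] P) (kap : ℕ → C(unitInterval, ℂ) →⋆ₐ[ℂ] P)
    (T : StarSubalgebra ℂ P) (h1 : ∀ a, inc a ∈ T) (h2 : ∀ j f, kap j f ∈ T) :
    (⨆ i, famZ inc kap i) ≤ T := by
  refine iSup_le ?_
  rintro (_ | j)
  · rintro x ⟨a, rfl⟩
    exact h1 a
  · rintro x ⟨a, rfl⟩
    exact h2 j a

/-- Functoriality for measure preserving continuous maps.

Proof. `univ_hom` with `Γ none` = the range of `a ↦ (inc a, inc' (a ∘ p))` and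
`Γ (some j)` = the range of `f ↦ (kap j f, kap' j f)` (`StarAlgHom.prod`); freeness by `free_comp`. -/
theorem IsPZ.hom (h : IsPZ μ tr inc kap) (h' : IsPZ μ' tr' inc' kap') (p : C(Z', Z))
    (hp : ∀ a, intL μ' (a.comp p) = intL μ a) :
    ∃ Φ : P →⋆ₐ[ℂ] P', (∀ a, Φ (inc a) = inc' (a.comp p)) ∧ (∀ j f, Φ (kap j f) = kap' j f) ∧
      (∀ x, tr' (Φ x) = tr x) ∧ ∀ x, ‖Φ x‖ = ‖x‖ := by
  obtain ⟨Φ, hΦ, hΦ2, hΦ3⟩ := univ_hom tr tr' h.rfp.st h'.rfp.st h.ft.faithful h'.ft.faithful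
    (pzGraph inc kap inc' kap' p)
    (free_comp tr (StarAlgHom.fst ℂ P P') _ (famZ inc kap) (by
      rintro (_ | j) x ⟨a, rfl⟩
      · exact ⟨a, rfl⟩
      · exact ⟨a, rfl⟩) h.rfp.free _ (fun x => rfl))
    (free_comp tr' (StarAlgHom.snd ℂ P P') _ (famZ inc' kap') (by
      rintro (_ | j) x ⟨a, rfl⟩
      · exact ⟨a.comp p, rfl⟩
      · exact ⟨a, rfl⟩) h'.rfp.free _ (fun x => rfl))
    (by
      rintro (_ | j) z ⟨a, rfl⟩
      · change tr (inc a) = tr' (inc' (a.comp p))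
        rw [h.tr_inc, h'.tr_inc, hp]
      · change tr (kap j a) = tr' (kap' j a)
        rw [h.tr_kap, h'.tr_kap])
    (by
      intro x
      have hle : (⨆ i, famZ inc kap i) ≤
          (⨆ i, pzGraph inc kap inc' kap' p i).map (StarAlgHom.fst ℂ P P') := by
        refine pz_iSup_le_adjoin inc kap _ (fun a => ?_) (fun j f => ?_)
        · refine ⟨(inc a, inc' (a.comp p)), ?_, rfl⟩
          exact (le_iSup (pzGraph inc kap inc' kap' p) none) ⟨a, rfl⟩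
        · refine ⟨(kap j f, kap' j f), ?_, rfl⟩
          exact (le_iSup (pzGraph inc kap inc' kap' p) (some j)) ⟨f, rfl⟩
      have hx : x ∈ (⨆ i, famZ inc kap i).topologicalClosure := by
        rw [h.rfp.gen]
        trivial
      exact closure_mono hle hx)
  refine ⟨Φ, fun a => ?_, fun j f => ?_, hΦ2, hΦ3⟩
  · exact hΦ none (inc a, inc' (a.comp p)) ⟨a, rfl⟩
  · exact hΦ (some j) (kap j f, kap' j f) ⟨f, rfl⟩

theorem pz_hom_ext (h : IsPZ μ tr inc kap) (Φ Ψ : P →⋆ₐ[ℂ] P')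
    (h1 : ∀ a, Φ (inc a) = Ψ (inc a)) (h2 : ∀ j f, Φ (kap j f) = Ψ (kap j f)) : Φ = Ψ := by
  refine hom_ext_gen (famZ inc kap) h.rfp.gen Φ Ψ ?_
  rintro (_ | j) x ⟨a, rfl⟩
  · exact h1 a
  · exact h2 j a

/-- Uniqueness. Proof: `IsPZ.hom` in both directions with `p = id`; the compositions are the identity
by `hom_ext_gen`. -/
theorem IsPZ.unique {inc' : C(Z, ℂ) →⋆ₐ[ℂ] P'} (h : IsPZ μ tr inc kap)
    (h' : IsPZ μ tr' inc' kap') :
    ∃ Φ : P ≃⋆ₐ[ℂ] P', (∀ a, Φ (inc a) = inc' a) ∧ (∀ j f, Φ (kap j f) = kap' j f) ∧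
      ∀ x, tr' (Φ x) = tr x := by
  obtain ⟨Φ, a1, a2, a3, -⟩ := h.hom h' (ContinuousMap.id Z) (fun a => by
    rw [ContinuousMap.comp_id])
  obtain ⟨Ψ, b1, b2, -, -⟩ := h'.hom h (ContinuousMap.id Z) (fun a => by
    rw [ContinuousMap.comp_id])
  simp only [ContinuousMap.comp_id] at a1 b1
  have e1 : Ψ.comp Φ = StarAlgHom.id ℂ P := by
    refine pz_hom_ext h _ _ (fun a => ?_) (fun j f => ?_)
    · rw [StarAlgHom.comp_apply, a1, b1]
      rfl
    · rw [StarAlgHom.comp_apply, a2, b2]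
      rfl
  have e2 : Φ.comp Ψ = StarAlgHom.id ℂ P' := by
    refine pz_hom_ext h' _ _ (fun a => ?_) (fun j f => ?_)
    · rw [StarAlgHom.comp_apply, b1, a1]
      rfl
    · rw [StarAlgHom.comp_apply, b2, a2]
      rfl
  exact ⟨StarAlgEquiv.ofStarAlgHom Φ Ψ e1 e2, a1, a2, a3⟩

/-- Separability: `separable_of_gen`; `C(Z, ℂ)` is separable for compact metric `Z`, so the
union of the ranges is separable. -/
theorem IsPZ.separable (h : IsPZ μ tr inc kap) : SeparableSpace P := by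
  refine separable_of_gen (Set.range inc ∪ ⋃ j, Set.range (kap j)) ?_ ?_
  · haveI : ContinuousLinearMapClass (C(Z, ℂ) →⋆ₐ[ℂ] P) ℂ C(Z, ℂ) P :=
      NonUnitalStarAlgHom.instContinuousLinearMapClassComplex
    haveI : ContinuousLinearMapClass (C(unitInterval, ℂ) →⋆ₐ[ℂ] P) ℂ C(unitInterval, ℂ) P :=
      NonUnitalStarAlgHom.instContinuousLinearMapClassComplex
    have hc : Continuous inc := map_continuous inc
    have hk : ∀ j, Continuous (kap j) := fun j => map_continuous (kap j)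
    exact (isSeparable_range hc).union (IsSeparable.iUnion fun j => isSeparable_range (hk j))
  · rw [eq_top_iff, ← h.rfp.gen]
    refine StarSubalgebra.topologicalClosure_mono ?_
    refine pz_iSup_le_adjoin inc kap _ (fun a => ?_) (fun j f => ?_)
    · exact StarAlgebra.subset_adjoin ℂ _ (Or.inl ⟨a, rfl⟩)
    · exact StarAlgebra.subset_adjoin ℂ _ (Or.inr (Set.mem_iUnion.2 ⟨j, f, rfl⟩))

end H47
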