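import Pool.Agent.H.MP_47f0a1_an.Base

/-!
# Fine partitions of unity by squares
-/

open MeasureTheory

namespace H47

variable {Z : Type} [MetricSpace Z] [CompactSpace Z] [MeasurableSpace Z] [BorelSpace Z]

/-- A partition of unity by squares of real functions, on the supports of which the functions of the
finite set `F` vary by at most `ε`; `z j` is a sample point. -/
structure Part (μ : Measure Z) [IsFiniteMeasure μ] (F : Finset C(Z, ℂ)) (ε : ℝ) where
  n : ℕ
  h : Fin n → C(Z, ℂ)
  z : Fin n → Z
  m : Fin n → ℝ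
  sa : ∀ j, star (h j) = h j
  sum : ∑ j, h j * h j = 1
  pos : ∀ j, 0 < m j
  mass : ∀ j, intL μ (h j * h j) = m j
  osc : ∀ a ∈ F, ∀ j x, ‖(a x - a (z j)) * h j x‖ ≤ ε * ‖h j x‖

theorem part_delta (F : Finset C(Z, ℂ)) (ε : ℝ) (hε : 0 < ε) :
    ∃ δ > 0, ∀ a ∈ F, ∀ x y, dist x y < δ → ‖a x - a y‖ ≤ ε := by
  classical
  induction F using Finset.induction_on with
  | empty => exact ⟨1, one_pos, fun a ha => absurd ha (Finset.notMem_empty a)⟩
  | insert a s has ih =>
    obtain ⟨δ, hδ, h⟩ := ih
    have hu : UniformContinuous a := CompactSpace.uniformContinuous_of_continuous a.continuous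
    obtain ⟨δ', hδ', h'⟩ := Metric.uniformContinuous_iff.1 hu ε hε
    refine ⟨min δ δ', lt_min hδ hδ', ?_⟩
    intro b hb x y hxy
    rcases Finset.mem_insert.1 hb with rfl | hb
    · have := h' (lt_of_lt_of_le hxy (min_le_right _ _))
      rw [dist_eq_norm] at this
      exact this.le
    · exact h b hb x y (lt_of_lt_of_le hxy (min_le_left _ _))

/-- Existence of fine partitions.

Proof. By uniform continuity of the finitely many functions of `F` there is `δ > 0` with
`‖a x - a y‖ ≤ ε` whenever `dist x y < δ`. Choose a finite `δ`-net `z j` (compactness: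
`finite_cover_balls_of_compact` or `isCompact_univ.finite_cover_balls`), put
`k j x = max 0 (δ - dist x (z j))`, continuous, nonnegative, with support in the ball, and
`∑ k j > 0` everywhere. Put `h j = √(k j / ∑ k)` (as complex valued continuous functions).
`m j = ∫ h j ² > 0` since `h j ² ` is continuous, nonnegative and positive at `z j`
(`Continuous.integral_pos_of_hasCompactSupport_nonneg_nonzero`, `μ` has full support). -/
theorem exists_part (μ : Measure Z) [IsProbabilityMeasure μ] [μ.IsOpenPosMeasure]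
    (F : Finset C(Z, ℂ)) (ε : ℝ) (hε : 0 < ε) : Nonempty (Part μ F ε) := by
  classical
  obtain ⟨δ, hδ, hosc⟩ := part_delta F ε hε
  obtain ⟨t, -, htfin, hcov⟩ := finite_cover_balls_of_compact (isCompact_univ (X := Z)) hδ
  obtain ⟨n, z, hz⟩ := htfin.fin_embedding
  obtain ⟨k, hk⟩ : ∃ k : Fin n → Z → ℝ, ∀ j x, k j x = max 0 (δ - dist x (z j)) :=
    ⟨fun j x => max 0 (δ - dist x (z j)), fun _ _ => rfl⟩
  have hkc : ∀ j, Continuous (k j) := by
    intro j
    have : k j = fun x => max 0 (δ - dist x (z j)) := funext (hk j)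
    rw [this]
    fun_prop
  have hk0 : ∀ j x, 0 ≤ k j x := by
    intro j x
    rw [hk]
    exact le_max_left _ _
  have hkz : ∀ j x, ¬ dist x (z j) < δ → k j x = 0 := by
    intro j x h
    rw [hk]
    exact max_eq_left (by linarith [not_lt.1 h])
  have hkp : ∀ j x, dist x (z j) < δ → 0 < k j x := by
    intro j x h
    rw [hk]
    exact lt_max_of_lt_right (by linarith)
  obtain ⟨S, hS⟩ : ∃ S : Z → ℝ, ∀ x, S x = ∑ j, k j x := ⟨fun x => ∑ j, k j x, fun _ => rfl⟩
  have hSc : Continuous S := by
    have : S = fun x => ∑ j, k j x := funext hS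
    rw [this]
    exact continuous_finset_sum _ fun j _ => hkc j
  have hSpos : ∀ x, 0 < S x := by
    intro x
    have hx := hcov (Set.mem_univ x)
    simp only [Set.mem_iUnion, Metric.mem_ball] at hx
    obtain ⟨y, hy, hxy⟩ := hx
    rw [← hz] at hy
    obtain ⟨j, rfl⟩ := hy
    rw [hS]
    exact Finset.sum_pos' (fun i _ => hk0 i x) ⟨j, Finset.mem_univ j, hkp j x hxy⟩
  have hqc : ∀ j, Continuous fun x => k j x / S x := fun j =>
    (hkc j).div hSc fun x => (hSpos x).ne'
  have hq0 : ∀ j x, 0 ≤ k j x / S x := fun j x => div_nonneg (hk0 j x) (hSpos x).le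
  obtain ⟨h, hh⟩ : ∃ h : Fin n → C(Z, ℂ), ∀ j x, h j x = ((Real.sqrt (k j x / S x) : ℝ) : ℂ) :=
    ⟨fun j => ⟨fun x => ((Real.sqrt (k j x / S x) : ℝ) : ℂ),
      Complex.continuous_ofReal.comp (Real.continuous_sqrt.comp (hqc j))⟩, fun _ _ => rfl⟩
  have hhh : ∀ j x, (h j * h j) x = ((k j x / S x : ℝ) : ℂ) := by
    intro j x
    rw [ContinuousMap.mul_apply, hh, ← Complex.ofReal_mul, Real.mul_self_sqrt (hq0 j x)]
  refine ⟨⟨n, h, z, fun j => ∫ x, k j x / S x ∂μ, ?_, ?_, ?_, ?_, ?_⟩⟩
  · intro j
    ext x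
    rw [ContinuousMap.star_apply, hh]
    exact Complex.conj_ofReal _
  · ext x
    rw [ContinuousMap.sum_apply]
    simp only [hhh, ContinuousMap.one_apply]
    rw [← Complex.ofReal_sum, ← Finset.sum_div, ← hS, div_self (hSpos x).ne']
    simp
  · intro j
    refine Continuous.integral_pos_of_hasCompactSupport_nonneg_nonzero (x := z j) (hqc j)
      (HasCompactSupport.of_compactSpace _) (hq0 j) ?_
    exact (div_pos (hkp j _ (by rw [dist_self]; exact hδ)) (hSpos _)).ne'
  · intro j
    rw [intL_apply]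
    simp only [hhh]
    exact integral_ofReal
  · intro a ha j x
    rw [norm_mul]
    by_cases hx : dist x (z j) < δ
    · exact mul_le_mul_of_nonneg_right (hosc a ha x (z j) hx) (norm_nonneg _)
    · have : h j x = 0 := by
        rw [hh, hkz j x hx]
        simp
      rw [this]
      simp

end H47
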