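import Mathlib

/-!
# The Hilbert curve
-/

open MeasureTheory

namespace H47

/-- `x ↦ x/2` on the unit interval. -/
noncomputable def hlf0 : C(unitInterval, unitInterval) where
  toFun x := ⟨(x : ℝ) / 2, by constructor <;> [exact div_nonneg x.2.1 (by norm_num); linarith [x.2.2]]⟩
  continuous_toFun := by fun_prop

/-- `x ↦ (x+1)/2` on the unit interval. -/
noncomputable def hlf1 : C(unitInterval, unitInterval) where
  toFun x := ⟨((x : ℝ) + 1) / 2, by constructor <;> [linarith [x.2.1]; linarith [x.2.2]]⟩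
  continuous_toFun := by fun_prop

/-- The four similarities of the Hilbert curve. -/
noncomputable def hA (i : Fin 4) (z : unitInterval × unitInterval) : unitInterval × unitInterval :=
  match i with
  | 0 => (hlf0 z.2, hlf0 z.1)
  | 1 => (hlf0 z.1, hlf1 z.2)
  | 2 => (hlf1 z.1, hlf1 z.2)
  | 3 => (hlf1 (unitInterval.symm z.2), hlf0 (unitInterval.symm z.1))

theorem peanoA_hA_zero (z : unitInterval × unitInterval) : hA 0 z = (hlf0 z.2, hlf0 z.1) := rfl

theorem peanoA_hA_one (z : unitInterval × unitInterval) : hA 1 z = (hlf0 z.1, hlf1 z.2) := rfl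

theorem peanoA_hA_two (z : unitInterval × unitInterval) : hA 2 z = (hlf1 z.1, hlf1 z.2) := rfl

theorem peanoA_hA_three (z : unitInterval × unitInterval) :
    hA 3 z = (hlf1 (unitInterval.symm z.2), hlf0 (unitInterval.symm z.1)) := rfl

theorem continuous_hA (i : Fin 4) : Continuous (hA i) := by
  have h0 : Continuous (hA 0) := by
    have e : hA 0 = fun z => (hlf0 z.2, hlf0 z.1) := funext peanoA_hA_zero
    rw [e]; fun_prop
  have h1 : Continuous (hA 1) := by
    have e : hA 1 = fun z => (hlf0 z.1, hlf1 z.2) := funext peanoA_hA_one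
    rw [e]; fun_prop
  have h2 : Continuous (hA 2) := by
    have e : hA 2 = fun z => (hlf1 z.1, hlf1 z.2) := funext peanoA_hA_two
    rw [e]; fun_prop
  have h3 : Continuous (hA 3) := by
    have e : hA 3 = fun z => (hlf1 (unitInterval.symm z.2), hlf0 (unitInterval.symm z.1)) :=
      funext peanoA_hA_three
    rw [e]
    have hs := unitInterval.continuous_symm
    exact (hlf1.continuous.comp (hs.comp continuous_snd)).prodMk
      (hlf0.continuous.comp (hs.comp continuous_fst))
  fin_cases i
  · exact h0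
  · exact h1
  · exact h2
  · exact h3

theorem peanoA_dist0 (x y : unitInterval) : dist (hlf0 x) (hlf0 y) = dist x y / 2 := by
  rw [Subtype.dist_eq, Subtype.dist_eq, Real.dist_eq, Real.dist_eq]
  have e : ((hlf0 x : unitInterval) : ℝ) - (hlf0 y : unitInterval) = ((x : ℝ) - y) / 2 := by
    show (x : ℝ) / 2 - (y : ℝ) / 2 = _
    ring
  rw [e, abs_div, abs_of_pos (by norm_num : (0 : ℝ) < 2)]

theorem peanoA_dist1 (x y : unitInterval) : dist (hlf1 x) (hlf1 y) = dist x y / 2 := by
  rw [Subtype.dist_eq, Subtype.dist_eq, Real.dist_eq, Real.dist_eq]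
  have e : ((hlf1 x : unitInterval) : ℝ) - (hlf1 y : unitInterval) = ((x : ℝ) - y) / 2 := by
    show ((x : ℝ) + 1) / 2 - ((y : ℝ) + 1) / 2 = _
    ring
  rw [e, abs_div, abs_of_pos (by norm_num : (0 : ℝ) < 2)]

theorem peanoA_distS (x y : unitInterval) :
    dist (unitInterval.symm x) (unitInterval.symm y) = dist x y := by
  rw [Subtype.dist_eq, Subtype.dist_eq, Real.dist_eq, Real.dist_eq]
  have e : ((unitInterval.symm x : unitInterval) : ℝ) - (unitInterval.symm y : unitInterval)
      = -((x : ℝ) - y) := by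
    rw [unitInterval.coe_symm_eq, unitInterval.coe_symm_eq]
    ring
  rw [e, abs_neg]

/-- They halve distances (for the supremum distance of the product). -/
theorem dist_hA (i : Fin 4) (z w : unitInterval × unitInterval) :
    dist (hA i z) (hA i w) = dist z w / 2 := by
  have hm : ∀ a b : ℝ, max (a / 2) (b / 2) = max a b / 2 := fun a b =>
    max_div_div_right (by norm_num : (0 : ℝ) ≤ 2) a b
  have h0 : dist (hA 0 z) (hA 0 w) = dist z w / 2 := by
    rw [peanoA_hA_zero, peanoA_hA_zero, Prod.dist_eq, Prod.dist_eq]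
    simp only [peanoA_dist0]
    rw [hm, max_comm]
  have h1 : dist (hA 1 z) (hA 1 w) = dist z w / 2 := by
    rw [peanoA_hA_one, peanoA_hA_one, Prod.dist_eq, Prod.dist_eq]
    simp only [peanoA_dist0, peanoA_dist1]
    rw [hm]
  have h2 : dist (hA 2 z) (hA 2 w) = dist z w / 2 := by
    rw [peanoA_hA_two, peanoA_hA_two, Prod.dist_eq, Prod.dist_eq]
    simp only [peanoA_dist1]
    rw [hm]
  have h3 : dist (hA 3 z) (hA 3 w) = dist z w / 2 := by
    rw [peanoA_hA_three, peanoA_hA_three, Prod.dist_eq, Prod.dist_eq]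
    simp only [peanoA_dist0, peanoA_dist1, peanoA_distS]
    rw [hm, max_comm]
  fin_cases i
  · exact h0
  · exact h1
  · exact h2
  · exact h3

/-- The point `(i + s)/4`. -/
noncomputable def quart (i : Fin 4) (s : unitInterval) : unitInterval :=
  ⟨((i : ℝ) + s) / 4, by
    constructor
    · exact div_nonneg (add_nonneg (Nat.cast_nonneg _) s.2.1) (by norm_num)
    · have h3 : ((i : ℕ) : ℝ) ≤ 3 := by exact_mod_cast Nat.lt_succ_iff.mp i.2
      linarith [s.2.2]⟩

theorem peanoA_coe_quart (i : Fin 4) (s : unitInterval) :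
    ((quart i s : unitInterval) : ℝ) = ((i : ℕ) + (s : ℝ)) / 4 := rfl

/-- Every point of the unit interval is of the form `(i + s)/4`. -/
theorem peanoA_exists_quart (t : unitInterval) : ∃ (i : Fin 4) (s : unitInterval),
    quart i s = t := by
  have ht0 := t.2.1
  have ht1 := t.2.2
  rcases le_or_gt (t : ℝ) (1 / 4) with h1 | h1
  · refine ⟨0, ⟨4 * (t : ℝ), by constructor <;> linarith⟩, ?_⟩
    apply Subtype.ext
    rw [peanoA_coe_quart]
    simp
  rcases le_or_gt (t : ℝ) (1 / 2) with h2 | h2
  · refine ⟨1, ⟨4 * (t : ℝ) - 1, by constructor <;> linarith⟩, ?_⟩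
    apply Subtype.ext
    rw [peanoA_coe_quart]
    simp
  rcases le_or_gt (t : ℝ) (3 / 4) with h3 | h3
  · refine ⟨2, ⟨4 * (t : ℝ) - 2, by constructor <;> linarith⟩, ?_⟩
    apply Subtype.ext
    rw [peanoA_coe_quart]
    simp
  · refine ⟨3, ⟨4 * (t : ℝ) - 3, by constructor <;> linarith⟩, ?_⟩
    apply Subtype.ext
    rw [peanoA_coe_quart]
    simp

/-- The curve `q` read at the point `4 t - k`. -/
noncomputable def peanoA_piece (q : C(unitInterval, unitInterval × unitInterval)) (k : ℝ)
    (t : unitInterval) : unitInterval × unitInterval :=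
  q (Set.projIcc 0 1 zero_le_one (4 * (t : ℝ) - k))

theorem peanoA_continuous_piece (q : C(unitInterval, unitInterval × unitInterval)) (k : ℝ) :
    Continuous (peanoA_piece q k) := by
  have h : Continuous fun t : unitInterval =>
      (Set.projIcc (0 : ℝ) 1 zero_le_one (4 * (t : ℝ) - k)) :=
    continuous_projIcc.comp (by fun_prop)
  exact q.continuous.comp h

theorem peanoA_piece_eq (q : C(unitInterval, unitInterval × unitInterval)) (k : ℝ)
    (t s : unitInterval) (h : 4 * (t : ℝ) - k = s) : peanoA_piece q k t = q s := by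
  unfold peanoA_piece
  rw [h]
  congr 1
  exact Set.projIcc_val zero_le_one s

/-- The function `T q`. -/
noncomputable def peanoA_fun (q : C(unitInterval, unitInterval × unitInterval))
    (t : unitInterval) : unitInterval × unitInterval :=
  if (t : ℝ) ≤ 1 / 4 then hA 0 (peanoA_piece q 0 t) else
  if (t : ℝ) ≤ 1 / 2 then hA 1 (peanoA_piece q 1 t) else
  if (t : ℝ) ≤ 3 / 4 then hA 2 (peanoA_piece q 2 t) else hA 3 (peanoA_piece q 3 t)

theorem peanoA_hlf0_zero : hlf0 0 = 0 := by
  apply Subtype.ext
  show ((0 : unitInterval) : ℝ) / 2 = ((0 : unitInterval) : ℝ)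
  simp

theorem peanoA_hlf1_one : hlf1 1 = 1 := by
  apply Subtype.ext
  show (((1 : unitInterval) : ℝ) + 1) / 2 = ((1 : unitInterval) : ℝ)
  simp

theorem peanoA_hlf1_zero : hlf1 0 = hlf0 1 := by
  apply Subtype.ext
  show (((0 : unitInterval) : ℝ) + 1) / 2 = ((1 : unitInterval) : ℝ) / 2
  simp

theorem peanoA_start : hA 0 (0, 0) = (0, 0) := by
  rw [peanoA_hA_zero]
  simp only [peanoA_hlf0_zero]

theorem peanoA_end : hA 3 (1, 0) = (1, 0) := by
  rw [peanoA_hA_three]
  simp only [unitInterval.symm_zero, unitInterval.symm_one, peanoA_hlf0_zero, peanoA_hlf1_one]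

theorem peanoA_join1 : hA 0 (1, 0) = hA 1 (0, 0) := by
  rw [peanoA_hA_zero, peanoA_hA_one]
  simp only [peanoA_hlf0_zero, peanoA_hlf1_zero]

theorem peanoA_join2 : hA 1 (1, 0) = hA 2 (0, 0) := by
  rw [peanoA_hA_one, peanoA_hA_two]
  simp only [peanoA_hlf1_zero]

theorem peanoA_join3 : hA 2 (1, 0) = hA 3 (0, 0) := by
  rw [peanoA_hA_two, peanoA_hA_three]
  simp only [unitInterval.symm_zero, peanoA_hlf1_zero]

/-- The curves with the right end points. -/
def peanoA_set : Set (C(unitInterval, unitInterval × unitInterval)) :=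
  {q | q 0 = (0, 0) ∧ q 1 = (1, 0)}

theorem peanoA_continuous_fun (q : C(unitInterval, unitInterval × unitInterval))
    (hq : q ∈ peanoA_set) : Continuous (peanoA_fun q) := by
  have hc : ∀ (i : Fin 4) (k : ℝ), Continuous fun t : unitInterval => hA i (peanoA_piece q k t) :=
    fun i k => (continuous_hA i).comp (peanoA_continuous_piece q k)
  have hv : Continuous fun t : unitInterval => (t : ℝ) := continuous_subtype_val
  unfold peanoA_fun
  refine Continuous.if_le (hc 0 0) ?_ hv continuous_const ?_
  · refine Continuous.if_le (hc 1 1) ?_ hv continuous_const ?_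
    · refine Continuous.if_le (hc 2 2) (hc 3 3) hv continuous_const ?_
      intro t ht
      rw [peanoA_piece_eq q 2 t 1 (by rw [ht]; norm_num),
        peanoA_piece_eq q 3 t 0 (by rw [ht]; norm_num), hq.1, hq.2]
      exact peanoA_join3
    · intro t ht
      rw [if_pos (by rw [ht]; norm_num), peanoA_piece_eq q 1 t 1 (by rw [ht]; norm_num),
        peanoA_piece_eq q 2 t 0 (by rw [ht]; norm_num), hq.1, hq.2]
      exact peanoA_join2
  · intro t ht
    rw [if_pos (by rw [ht]; norm_num), peanoA_piece_eq q 0 t 1 (by rw [ht]; norm_num),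
      peanoA_piece_eq q 1 t 0 (by rw [ht]; norm_num), hq.1, hq.2]
    exact peanoA_join1

theorem peanoA_fun_quart (q : C(unitInterval, unitInterval × unitInterval))
    (hq : q ∈ peanoA_set) (i : Fin 4) (s : unitInterval) :
    peanoA_fun q (quart i s) = hA i (q s) := by
  have hs0 := s.2.1
  have hs1 := s.2.2
  have key0 : peanoA_fun q (quart 0 s) = hA 0 (q s) := by
    have hv : ((quart 0 s : unitInterval) : ℝ) = (s : ℝ) / 4 := by
      rw [peanoA_coe_quart]; simp
    unfold peanoA_fun
    rw [if_pos (by rw [hv]; linarith), peanoA_piece_eq q 0 _ s (by rw [hv]; ring)]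
  have key1 : peanoA_fun q (quart 1 s) = hA 1 (q s) := by
    have hv : ((quart 1 s : unitInterval) : ℝ) = (1 + (s : ℝ)) / 4 := by
      rw [peanoA_coe_quart]; simp
    unfold peanoA_fun
    rcases eq_or_lt_of_le hs0 with h | h
    · have hs : s = 0 := Subtype.ext h.symm
      subst hs
      rw [if_pos (by rw [hv]; simp), peanoA_piece_eq q 0 _ 1 (by rw [hv]; simp),
        hq.1, hq.2]
      exact peanoA_join1
    · rw [if_neg (by rw [hv]; intro h'; linarith), if_pos (by rw [hv]; linarith),
        peanoA_piece_eq q 1 _ s (by rw [hv]; ring)]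
  have key2 : peanoA_fun q (quart 2 s) = hA 2 (q s) := by
    have hv : ((quart 2 s : unitInterval) : ℝ) = (2 + (s : ℝ)) / 4 := by
      rw [peanoA_coe_quart]; simp
    unfold peanoA_fun
    rcases eq_or_lt_of_le hs0 with h | h
    · have hs : s = 0 := Subtype.ext h.symm
      subst hs
      rw [if_neg (by rw [hv]; norm_num), if_pos (by rw [hv]; norm_num),
        peanoA_piece_eq q 1 _ 1 (by rw [hv]; norm_num), hq.1, hq.2]
      exact peanoA_join2
    · rw [if_neg (by rw [hv]; intro h'; linarith), if_neg (by rw [hv]; intro h'; linarith),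
        if_pos (by rw [hv]; linarith), peanoA_piece_eq q 2 _ s (by rw [hv]; ring)]
  have key3 : peanoA_fun q (quart 3 s) = hA 3 (q s) := by
    have hv : ((quart 3 s : unitInterval) : ℝ) = (3 + (s : ℝ)) / 4 := by
      rw [peanoA_coe_quart]; simp
    unfold peanoA_fun
    rcases eq_or_lt_of_le hs0 with h | h
    · have hs : s = 0 := Subtype.ext h.symm
      subst hs
      rw [if_neg (by rw [hv]; norm_num), if_neg (by rw [hv]; norm_num),
        if_pos (by rw [hv]; norm_num),
        peanoA_piece_eq q 2 _ 1 (by rw [hv]; norm_num), hq.1, hq.2]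
      exact peanoA_join3
    · rw [if_neg (by rw [hv]; intro h'; linarith), if_neg (by rw [hv]; intro h'; linarith),
        if_neg (by rw [hv]; intro h'; linarith), peanoA_piece_eq q 3 _ s (by rw [hv]; ring)]
  fin_cases i
  · exact key0
  · exact key1
  · exact key2
  · exact key3

theorem peanoA_quart_zero : quart 0 0 = 0 := by
  apply Subtype.ext
  rw [peanoA_coe_quart]
  simp

theorem peanoA_quart_one : quart 3 1 = 1 := by
  apply Subtype.ext
  rw [peanoA_coe_quart]
  simp
  norm_num

/-- The operator `T` on the curves with the right end points. -/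
noncomputable def peanoA_op (q : peanoA_set) : peanoA_set :=
  ⟨⟨peanoA_fun q.1, peanoA_continuous_fun q.1 q.2⟩, by
    constructor
    · show peanoA_fun q.1 0 = (0, 0)
      rw [← peanoA_quart_zero, peanoA_fun_quart q.1 q.2, q.2.1]
      rw [peanoA_start, peanoA_quart_zero]
    · show peanoA_fun q.1 1 = (1, 0)
      rw [← peanoA_quart_one, peanoA_fun_quart q.1 q.2, q.2.2]
      rw [peanoA_end, peanoA_quart_one]⟩

theorem peanoA_op_apply (q : peanoA_set) (i : Fin 4) (s : unitInterval) :
    (peanoA_op q).1 (quart i s) = hA i (q.1 s) :=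
  peanoA_fun_quart q.1 q.2 i s

theorem peanoA_isClosed : IsClosed peanoA_set := by
  have h0 : IsClosed {q : C(unitInterval, unitInterval × unitInterval) | q 0 = (0, 0)} :=
    isClosed_eq (ContinuousEvalConst.continuous_eval_const 0) continuous_const
  have h1 : IsClosed {q : C(unitInterval, unitInterval × unitInterval) | q 1 = (1, 0)} :=
    isClosed_eq (ContinuousEvalConst.continuous_eval_const 1) continuous_const
  exact h0.inter h1

theorem peanoA_contracting : ContractingWith (1 / 2) peanoA_op := by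
  refine ⟨by rw [← NNReal.coe_lt_coe]; norm_num, ?_⟩
  refine LipschitzWith.of_dist_le_mul ?_
  intro q r
  rw [Subtype.dist_eq, Subtype.dist_eq]
  have hK : ((1 / 2 : NNReal) : ℝ) = 1 / 2 := by push_cast; rfl
  rw [hK]
  have hnn : (0 : ℝ) ≤ 1 / 2 * dist q.1 r.1 := mul_nonneg (by norm_num) dist_nonneg
  rw [ContinuousMap.dist_le hnn]
  intro t
  obtain ⟨i, s, rfl⟩ := peanoA_exists_quart t
  rw [peanoA_op_apply, peanoA_op_apply, dist_hA]
  have := ContinuousMap.dist_apply_le_dist (f := q.1) (g := r.1) s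
  linarith

/-- **The Hilbert curve**: a continuous `q : [0,1] → [0,1]²` with `q ((i + s)/4) = A_i (q s)`.

Proof. Let `𝒞` be the closed subset of the complete metric space `C([0,1], [0,1]²)` of the curves with
`q 0 = (0,0)`, `q 1 = (1,0)` (nonempty: `t ↦ (t, 0)`). For `q ∈ 𝒞` define
`(T q) t = A_0 (q (4t))` for `t ≤ 1/4`, `A_1 (q (4t-1))` for `1/4 ≤ t ≤ 1/2`, `A_2 (q (4t-2))` for
`1/2 ≤ t ≤ 3/4`, `A_3 (q (4t-3))` for `3/4 ≤ t` (arguments through `Set.projIcc 0 1`). The values at the
junctions agree: `A_0 (1,0) = (0,1/2) = A_1 (0,0)`, `A_1 (1,0) = (1/2,1/2) = A_2 (0,0)`,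
`A_2 (1,0) = (1,1/2) = A_3 (0,0)`; so `T q` is continuous (`Continuous.if_le`);
`(T q) 0 = A_0 (0,0) = (0,0)`, `(T q) 1 = A_3 (1,0) = (1,0)`. `T` is a contraction of `𝒞` with factor
`1/2` by `dist_hA`. Its fixed point (`ContractingWith.exists_fixedPoint'` or
`ContractingWith.fixedPoint` on the subtype, which is complete) is the required `q`. -/
theorem exists_hilbert : ∃ q : C(unitInterval, unitInterval × unitInterval),
    ∀ (i : Fin 4) (s : unitInterval), q (quart i s) = hA i (q s) := by
  have : CompleteSpace peanoA_set := peanoA_isClosed.completeSpace_coe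
  have : Nonempty peanoA_set :=
    ⟨⟨⟨fun t => (t, 0), by fun_prop⟩, rfl, rfl⟩⟩
  set p := ContractingWith.fixedPoint peanoA_op peanoA_contracting with hp
  have hfix : peanoA_op p = p := ContractingWith.fixedPoint_isFixedPt peanoA_contracting
  refine ⟨p.1, fun i s => ?_⟩
  have h := peanoA_op_apply p i s
  rw [hfix] at h
  exact h

end H47
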