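import Pool.Agent.H.MP_47f0a1_an.PeanoA

/-!
# The Hilbert curve preserves Lebesgue measure
-/

open MeasureTheory

namespace H47

/-- Continuous extension of a function on the unit interval. -/
noncomputable def peanoM_ext (g : C(unitInterval, ℝ)) (x : ℝ) : ℝ :=
  g (Set.projIcc 0 1 zero_le_one x)

theorem peanoM_ext_continuous (g : C(unitInterval, ℝ)) : Continuous (peanoM_ext g) :=
  g.continuous.comp continuous_projIcc

theorem peanoM_ext_coe (g : C(unitInterval, ℝ)) (x : unitInterval) :
    peanoM_ext g x = g x := by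
  unfold peanoM_ext
  rw [Set.projIcc_val zero_le_one x]

theorem peanoM_integral (φ : ℝ → ℝ) :
    ∫ x : unitInterval, φ x = ∫ x in (0 : ℝ)..1, φ x := by
  rw [intervalIntegral.integral_of_le zero_le_one, ← integral_Icc_eq_integral_Ioc]
  exact integral_subtype measurableSet_Icc φ

theorem peanoM_integral' (g : C(unitInterval, ℝ)) :
    ∫ x, g x = ∫ x in (0 : ℝ)..1, peanoM_ext g x := by
  rw [← peanoM_integral]
  exact integral_congr_ae (Filter.Eventually.of_forall fun x => (peanoM_ext_coe g x).symm)

theorem peanoM_quart_one (g : C(unitInterval, ℝ)) (i : Fin 4) :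
    ∫ s, g (quart i s) = 4 * ∫ x in ((i : ℕ) / 4 : ℝ)..(((i : ℕ) + 1) / 4 : ℝ), peanoM_ext g x := by
  have h1 : ∫ s, g (quart i s) = ∫ s in (0 : ℝ)..1, peanoM_ext g (((i : ℕ) + s) / 4) := by
    rw [← peanoM_integral (fun s => peanoM_ext g (((i : ℕ) + s) / 4))]
    refine integral_congr_ae (Filter.Eventually.of_forall fun s => ?_)
    show g (quart i s) = peanoM_ext g (((i : ℕ) + (s : ℝ)) / 4)
    rw [← peanoA_coe_quart, peanoM_ext_coe]
  rw [h1]
  have h2 : ∀ s : ℝ, peanoM_ext g (((i : ℕ) + s) / 4) = peanoM_ext g (s / 4 + (i : ℕ) / 4) := by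
    intro s
    congr 1
    ring
  simp only [h2]
  rw [intervalIntegral.integral_comp_div_add (peanoM_ext g) (by norm_num : (4 : ℝ) ≠ 0)]
  rw [smul_eq_mul]
  congr 2 <;> ring

/-- One-dimensional self-similarity of Lebesgue measure, quarters:
`∫ g = ¼ ∑ ∫ g (quart i s) ds`. -/
theorem integral_quart (g : C(unitInterval, ℝ)) :
    ∫ x, g x = (1 / 4 : ℝ) * ∑ i : Fin 4, ∫ s, g (quart i s) := by
  simp only [peanoM_quart_one]
  rw [peanoM_integral', Fin.sum_univ_four]
  have hi : ∀ a b : ℝ, IntervalIntegrable (peanoM_ext g) volume a b := fun a b =>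
    (peanoM_ext_continuous g).intervalIntegrable a b
  have e : ∫ x in (0 : ℝ)..1, peanoM_ext g x =
      (∫ x in (0 : ℝ)..1 / 4, peanoM_ext g x) + (∫ x in (1 / 4 : ℝ)..2 / 4, peanoM_ext g x)
      + (∫ x in (2 / 4 : ℝ)..3 / 4, peanoM_ext g x)
      + (∫ x in (3 / 4 : ℝ)..1, peanoM_ext g x) := by
    rw [intervalIntegral.integral_add_adjacent_intervals (hi _ _) (hi _ _),
      intervalIntegral.integral_add_adjacent_intervals (hi _ _) (hi _ _),
      intervalIntegral.integral_add_adjacent_intervals (hi _ _) (hi _ _)]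
  rw [e]
  have c0 : (((0 : Fin 4) : ℕ) : ℝ) = 0 := by simp
  have c1 : (((1 : Fin 4) : ℕ) : ℝ) = 1 := by simp
  have c2 : (((2 : Fin 4) : ℕ) : ℝ) = 2 := by simp
  have c3 : (((3 : Fin 4) : ℕ) : ℝ) = 3 := by simp
  rw [c0, c1, c2, c3]
  have r1 : ((0 : ℝ) / 4) = 0 := by norm_num
  have r2 : (((0 : ℝ) + 1) / 4) = 1 / 4 := by norm_num
  have r3 : (((1 : ℝ) + 1) / 4) = 2 / 4 := by norm_num
  have r4 : (((2 : ℝ) + 1) / 4) = 3 / 4 := by norm_num
  have r5 : (((3 : ℝ) + 1) / 4) = 1 := by norm_num
  rw [r1, r2, r3, r4, r5]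
  ring

theorem peanoM_half (g : C(unitInterval, ℝ)) :
    ∫ x, g x = (1 / 2 : ℝ) * ((∫ s, g (hlf0 s)) + ∫ s, g (hlf1 s)) := by
  have h0 : ∫ s, g (hlf0 s) = 2 * ∫ x in (0 : ℝ)..1 / 2, peanoM_ext g x := by
    have h1 : ∫ s, g (hlf0 s) = ∫ s in (0 : ℝ)..1, peanoM_ext g (s / 2) := by
      rw [← peanoM_integral (fun s => peanoM_ext g (s / 2))]
      refine integral_congr_ae (Filter.Eventually.of_forall fun s => ?_)
      show g (hlf0 s) = peanoM_ext g ((s : ℝ) / 2)
      have : ((hlf0 s : unitInterval) : ℝ) = (s : ℝ) / 2 := rfl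
      rw [← this, peanoM_ext_coe]
    rw [h1, intervalIntegral.integral_comp_div (peanoM_ext g) (by norm_num : (2 : ℝ) ≠ 0)]
    rw [smul_eq_mul]
    congr 2
    norm_num
  have h1 : ∫ s, g (hlf1 s) = 2 * ∫ x in (1 / 2 : ℝ)..1, peanoM_ext g x := by
    have h1 : ∫ s, g (hlf1 s) = ∫ s in (0 : ℝ)..1, peanoM_ext g (s / 2 + 1 / 2) := by
      rw [← peanoM_integral (fun s => peanoM_ext g (s / 2 + 1 / 2))]
      refine integral_congr_ae (Filter.Eventually.of_forall fun s => ?_)
      show g (hlf1 s) = peanoM_ext g ((s : ℝ) / 2 + 1 / 2)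
      have : ((hlf1 s : unitInterval) : ℝ) = (s : ℝ) / 2 + 1 / 2 := by
        show ((s : ℝ) + 1) / 2 = _
        ring
      rw [← this, peanoM_ext_coe]
    rw [h1, intervalIntegral.integral_comp_div_add (peanoM_ext g) (by norm_num : (2 : ℝ) ≠ 0)]
    rw [smul_eq_mul]
    congr 2 <;> norm_num
  have hi : ∀ a b : ℝ, IntervalIntegrable (peanoM_ext g) volume a b := fun a b =>
    (peanoM_ext_continuous g).intervalIntegrable a b
  rw [h0, h1, peanoM_integral', ← intervalIntegral.integral_add_adjacent_intervals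
    (hi 0 (1 / 2)) (hi (1 / 2) 1)]
  ring

theorem peanoM_int (f : C(unitInterval × unitInterval, ℝ)) :
    Integrable (fun z => f z) (volume : Measure (unitInterval × unitInterval)) :=
  f.continuous.integrable_of_hasCompactSupport (HasCompactSupport.of_compactSpace _)

theorem peanoM_swap (f : C(unitInterval × unitInterval, ℝ)) :
    ∫ z : unitInterval × unitInterval, f (z.2, z.1) = ∫ z, f z :=
  integral_prod_swap (fun z : unitInterval × unitInterval => f z)

theorem peanoM_fst (f : C(unitInterval × unitInterval, ℝ)) :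
    ∫ z, f z = (1 / 2 : ℝ) * ((∫ z : unitInterval × unitInterval, f (z.1, hlf0 z.2)) +
      ∫ z : unitInterval × unitInterval, f (z.1, hlf1 z.2)) := by
  have F0 : Continuous fun z : unitInterval × unitInterval => (z.1, hlf0 z.2) := by fun_prop
  have F1 : Continuous fun z : unitInterval × unitInterval => (z.1, hlf1 z.2) := by fun_prop
  have i := peanoM_int f
  have i0 := peanoM_int (f.comp ⟨_, F0⟩)
  have i1 := peanoM_int (f.comp ⟨_, F1⟩)
  have e : ∫ z, f z = ∫ x, ∫ y, f (x, y) := integral_prod _ i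
  have e0 : ∫ z : unitInterval × unitInterval, f (z.1, hlf0 z.2) = ∫ x, ∫ y, f (x, hlf0 y) :=
    integral_prod _ i0
  have e1 : ∫ z : unitInterval × unitInterval, f (z.1, hlf1 z.2) = ∫ x, ∫ y, f (x, hlf1 y) :=
    integral_prod _ i1
  have j0 : Integrable (fun x => ∫ y, f (x, hlf0 y)) (volume : Measure unitInterval) :=
    i0.integral_prod_left
  have j1 : Integrable (fun x => ∫ y, f (x, hlf1 y)) (volume : Measure unitInterval) :=
    i1.integral_prod_left
  rw [e, e0, e1, ← integral_add j0 j1, ← integral_const_mul]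
  refine integral_congr_ae (Filter.Eventually.of_forall fun x => ?_)
  exact peanoM_half ⟨fun y => f (x, y), by fun_prop⟩

theorem peanoM_four (f : C(unitInterval × unitInterval, ℝ)) :
    ∫ z, f z = (1 / 4 : ℝ) * ((∫ z : unitInterval × unitInterval, f (hlf0 z.1, hlf0 z.2)) +
      (∫ z : unitInterval × unitInterval, f (hlf0 z.1, hlf1 z.2)) +
      (∫ z : unitInterval × unitInterval, f (hlf1 z.1, hlf1 z.2)) +
      ∫ z : unitInterval × unitInterval, f (hlf1 z.1, hlf0 z.2)) := by
  have F0 : Continuous fun z : unitInterval × unitInterval => (hlf0 z.2, z.1) := by fun_prop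
  have F1 : Continuous fun z : unitInterval × unitInterval => (hlf1 z.2, z.1) := by fun_prop
  have s : ∫ z, f z = (1 / 2 : ℝ) * ((∫ z : unitInterval × unitInterval, f (hlf0 z.2, z.1)) +
      ∫ z : unitInterval × unitInterval, f (hlf1 z.2, z.1)) := by
    have h := peanoM_fst (f.comp ⟨fun z => (z.2, z.1), by fun_prop⟩)
    have h' : ∫ z : unitInterval × unitInterval,
        (f.comp ⟨fun z : unitInterval × unitInterval => (z.2, z.1), by fun_prop⟩) z =
        ∫ z, f z := peanoM_swap f
    rw [h'] at h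
    exact h
  have t : ∀ (k l : C(unitInterval, unitInterval)),
      ∫ z : unitInterval × unitInterval, f (k z.2, l z.1) =
      ∫ z : unitInterval × unitInterval, f (k z.1, l z.2) := by
    intro k l
    exact peanoM_swap (f.comp ⟨fun z => (k z.1, l z.2), by fun_prop⟩)
  have s0 : ∫ z : unitInterval × unitInterval, f (hlf0 z.2, z.1) =
      (1 / 2 : ℝ) * ((∫ z : unitInterval × unitInterval, f (hlf0 z.1, hlf0 z.2)) +
      ∫ z : unitInterval × unitInterval, f (hlf0 z.1, hlf1 z.2)) := by
    have h1 : ∫ z : unitInterval × unitInterval, f (hlf0 z.2, z.1) =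
        ∫ z : unitInterval × unitInterval, f (hlf0 z.1, z.2) :=
      t hlf0 (ContinuousMap.id _)
    rw [h1]
    exact peanoM_fst (f.comp ⟨fun z => (hlf0 z.1, z.2), by fun_prop⟩)
  have s1 : ∫ z : unitInterval × unitInterval, f (hlf1 z.2, z.1) =
      (1 / 2 : ℝ) * ((∫ z : unitInterval × unitInterval, f (hlf1 z.1, hlf0 z.2)) +
      ∫ z : unitInterval × unitInterval, f (hlf1 z.1, hlf1 z.2)) := by
    have h1 : ∫ z : unitInterval × unitInterval, f (hlf1 z.2, z.1) =
        ∫ z : unitInterval × unitInterval, f (hlf1 z.1, z.2) :=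
      t hlf1 (ContinuousMap.id _)
    rw [h1]
    exact peanoM_fst (f.comp ⟨fun z => (hlf1 z.1, z.2), by fun_prop⟩)
  rw [s, s0, s1]
  ring

theorem peanoM_symm (f : C(unitInterval × unitInterval, ℝ)) :
    ∫ z : unitInterval × unitInterval, f (unitInterval.symm z.1, unitInterval.symm z.2) =
      ∫ z, f z := by
  have hs := unitInterval.continuous_symm
  have F0 : Continuous fun z : unitInterval × unitInterval =>
      (unitInterval.symm z.1, unitInterval.symm z.2) :=
    (hs.comp continuous_fst).prodMk (hs.comp continuous_snd)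
  have i := peanoM_int f
  have i0 := peanoM_int (f.comp ⟨_, F0⟩)
  have e : ∫ z, f z = ∫ x, ∫ y, f (x, y) := integral_prod _ i
  have e0 : ∫ z : unitInterval × unitInterval, f (unitInterval.symm z.1, unitInterval.symm z.2) =
      ∫ x, ∫ y, f (unitInterval.symm x, unitInterval.symm y) :=
    integral_prod _ i0
  have key : ∀ φ : unitInterval → ℝ, ∫ x, φ (unitInterval.symm x) = ∫ x, φ x := fun φ =>
    unitInterval.measurePreserving_symm.integral_comp
      unitInterval.symmMeasurableEquiv.measurableEmbedding φ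
  rw [e, e0]
  have k1 : ∀ x, ∫ y, f (unitInterval.symm x, unitInterval.symm y) =
      ∫ y, f (unitInterval.symm x, y) := fun x => key fun y => f (unitInterval.symm x, y)
  simp only [k1]
  exact key fun x => ∫ y, f (x, y)

/-- Self-similarity of the Lebesgue measure of the square: `∫∫ f = ¼ ∑ ∫∫ f ∘ A_i`.

Proof. `∫_0^1 g = ½ (∫ g(x/2) + ∫ g((x+1)/2))` and `∫ g(1-x) = ∫ g(x)` in each variable, Fubini
(`integral_prod`), and the symmetry `(x,y) ↦ (y,x)` (`integral_prod_swap`). -/
theorem integral_hA (f : C(unitInterval × unitInterval, ℝ)) :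
    ∫ z, f z = (1 / 4 : ℝ) * ∑ i : Fin 4, ∫ z, f (hA i z) := by
  rw [Fin.sum_univ_four, peanoM_four]
  simp only [peanoA_hA_zero, peanoA_hA_one, peanoA_hA_two, peanoA_hA_three]
  have h0 : ∫ z : unitInterval × unitInterval, f (hlf0 z.2, hlf0 z.1) =
      ∫ z : unitInterval × unitInterval, f (hlf0 z.1, hlf0 z.2) :=
    peanoM_swap (f.comp ⟨fun z => (hlf0 z.1, hlf0 z.2), by fun_prop⟩)
  have h3 : ∫ z : unitInterval × unitInterval,
      f (hlf1 (unitInterval.symm z.2), hlf0 (unitInterval.symm z.1)) =
      ∫ z : unitInterval × unitInterval, f (hlf1 z.1, hlf0 z.2) := by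
    have hs := unitInterval.continuous_symm
    have F0 : Continuous fun z : unitInterval × unitInterval =>
        (hlf1 (unitInterval.symm z.1), hlf0 (unitInterval.symm z.2)) :=
      (hlf1.continuous.comp (hs.comp continuous_fst)).prodMk
        (hlf0.continuous.comp (hs.comp continuous_snd))
    have a := peanoM_swap (f.comp ⟨_, F0⟩)
    have b := peanoM_symm (f.comp ⟨fun z => (hlf1 z.1, hlf0 z.2), by fun_prop⟩)
    exact a.trans b
  rw [h0, h3]

/-- The main induction. -/
theorem peanoM_main (q : C(unitInterval, unitInterval × unitInterval))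
    (hq : ∀ (i : Fin 4) (s : unitInterval), q (quart i s) = hA i (q s)) (η : ℝ) :
    ∀ (n : ℕ) (f : C(unitInterval × unitInterval, ℝ)),
      (∀ z w, dist z w ≤ (1 / 2 : ℝ) ^ n → |f z - f w| ≤ η) →
      |(∫ t, f (q t)) - ∫ z, f z| ≤ η := by
  intro n
  induction n with
  | zero =>
    intro f hf
    have hd : ∀ z w : unitInterval × unitInterval, dist z w ≤ (1 / 2 : ℝ) ^ 0 := by
      intro z w
      rw [pow_zero, Prod.dist_eq]
      have h1 : ∀ x y : unitInterval, dist x y ≤ 1 := by
        intro x y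
        rw [Subtype.dist_eq, Real.dist_eq, abs_le]
        constructor <;> linarith [x.2.1, x.2.2, y.2.1, y.2.2]
      exact max_le (h1 _ _) (h1 _ _)
    have h : ∀ z w, |f z - f w| ≤ η := fun z w => hf z w (hd z w)
    have hc : ∀ t : unitInterval, |f (q t) - ∫ z, f z| ≤ η := by
      intro t
      have e : f (q t) - ∫ z, f z = ∫ z, (f (q t) - f z) := by
        rw [integral_sub (integrable_const _) (peanoM_int f)]
        simp
      rw [e]
      calc |∫ z, (f (q t) - f z)| ≤ ∫ z, |f (q t) - f z| := abs_integral_le_integral_abs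
        _ ≤ ∫ _z : unitInterval × unitInterval, η := by
          refine integral_mono_of_nonneg (Filter.Eventually.of_forall fun _ => abs_nonneg _)
            (integrable_const _) (Filter.Eventually.of_forall fun z => h _ _)
        _ = η := by simp
    have ic : Integrable (fun t => f (q t)) (volume : Measure unitInterval) :=
      (f.comp q).continuous.integrable_of_hasCompactSupport (HasCompactSupport.of_compactSpace _)
    have e : (∫ t, f (q t)) - ∫ z, f z = ∫ t, (f (q t) - ∫ z, f z) := by
      rw [integral_sub ic (integrable_const _)]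
      simp
    rw [e]
    calc |∫ t, (f (q t) - ∫ z, f z)| ≤ ∫ t, |f (q t) - ∫ z, f z| := abs_integral_le_integral_abs
      _ ≤ ∫ _t : unitInterval, η := by
        refine integral_mono_of_nonneg (Filter.Eventually.of_forall fun _ => abs_nonneg _)
          (integrable_const _) (Filter.Eventually.of_forall fun z => hc _)
      _ = η := by simp
  | succ n ih =>
    intro f hf
    have h1 : ∫ t, f (q t) = (1 / 4 : ℝ) * ∑ i : Fin 4, ∫ s, f (hA i (q s)) := by
      have h := integral_quart (f.comp q)
      simp only [ContinuousMap.comp_apply, hq] at h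
      exact h
    have h2 := integral_hA f
    have h3 : ∀ i : Fin 4, |(∫ s, f (hA i (q s))) - ∫ z, f (hA i z)| ≤ η := by
      intro i
      refine ih (f.comp ⟨hA i, continuous_hA i⟩) ?_
      intro z w hzw
      refine hf _ _ ?_
      show dist (hA i z) (hA i w) ≤ _
      rw [dist_hA, pow_succ]
      linarith
    rw [h1, h2, ← mul_sub, ← Finset.sum_sub_distrib, abs_mul]
    have h4 : |∑ i : Fin 4, ((∫ s, f (hA i (q s))) - ∫ z, f (hA i z))| ≤ 4 * η := by
      refine (Finset.abs_sum_le_sum_abs _ _).trans ?_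
      refine (Finset.sum_le_sum fun i _ => h3 i).trans ?_
      simp
    rw [abs_of_pos (by norm_num : (0 : ℝ) < 1 / 4)]
    linarith

/-- The Hilbert curve preserves Lebesgue measure.

Proof. Let `E(f) = |∫ f (q t) dt - ∫∫ f|` for continuous `f : [0,1]² → ℝ`. By `integral_quart` and
`integral_hA`, `E(f) ≤ ¼ ∑ E(f ∘ A_i)`. Claim: if `|f z - f w| ≤ η` whenever `dist z w ≤ 2^{-n}` then
`E(f) ≤ η`. For `n = 0` clear (all distances are at most `1`; both measures are probability
measures: `∫ f∘q - ∫∫ f = ∫∫ (f (q t) - f z)`). If true for `n`, and `f` satisfies the hypothesis for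
`n + 1`, then the `f ∘ A_i` satisfy it for `n` (`dist_hA`). By uniform continuity every `η > 0` has
such an `n`, so `E(f) = 0` for all continuous `f`, and the two finite Borel measures agree
(`MeasureTheory.ext_of_forall_integral_eq_of_IsFiniteMeasure`). -/
theorem hilbert_measurePreserving (q : C(unitInterval, unitInterval × unitInterval))
    (hq : ∀ (i : Fin 4) (s : unitInterval), q (quart i s) = hA i (q s)) :
    MeasurePreserving q volume volume := by
  have hE : ∀ f : C(unitInterval × unitInterval, ℝ), ∫ t, f (q t) = ∫ z, f z := by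
    intro f
    have hu : UniformContinuous f := CompactSpace.uniformContinuous_of_continuous f.continuous
    have : ∀ η > 0, |(∫ t, f (q t)) - ∫ z, f z| ≤ η := by
      intro η hη
      obtain ⟨δ, hδ, h⟩ := Metric.uniformContinuous_iff.1 hu η hη
      obtain ⟨n, hn⟩ := exists_pow_lt_of_lt_one hδ (by norm_num : (1 / 2 : ℝ) < 1)
      refine peanoM_main q hq η n f ?_
      intro z w hzw
      have := h (lt_of_le_of_lt hzw hn)
      rw [Real.dist_eq] at this
      exact this.le
    have h0 : |(∫ t, f (q t)) - ∫ z, f z| ≤ 0 :=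
      le_of_forall_pos_le_add fun η hη => by rw [zero_add]; exact this η hη
    have := abs_nonpos_iff.1 h0
    linarith
  refine ⟨q.continuous.measurable, ?_⟩
  have hm : AEMeasurable q (volume : Measure unitInterval) := q.continuous.measurable.aemeasurable
  have : IsProbabilityMeasure (Measure.map q (volume : Measure unitInterval)) :=
    Measure.isProbabilityMeasure_map hm
  refine ext_of_forall_integral_eq_of_IsFiniteMeasure ?_
  intro f
  rw [integral_map hm f.continuous.aestronglyMeasurable]
  exact hE f.toContinuousMap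

end H47
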