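import Pool.Agent.H.MP_47f0a1_an.Defs

/-!
# Bounded sequences modulo null sequences, as a star ring
-/

open Filter Topology BoundedContinuousFunction

namespace H47

variable (A : Type) [CStarAlgebra A]

/-- The congruence of equality up to null sequences on bounded sequences.

Proof of the closure properties: triangle inequality; for products
`f g - f' g' = (f - f') g + f' (g - g')` with bounded factors. -/
def nullCon : RingCon (ℕ →ᵇ A) where
  r f g := Tendsto (fun n => ‖f n - g n‖) atTop (𝓝 0)
  iseqv := by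
    refine ⟨fun f => by simp, fun {f g} h => ?_, fun {f g k} h1 h2 => ?_⟩
    · have e : (fun n => ‖g n - f n‖) = fun n => ‖f n - g n‖ := by
        funext n
        exact norm_sub_rev _ _
      rw [e]
      exact h
    · refine squeeze_zero (fun n => norm_nonneg _)
        (fun n => norm_sub_le_norm_sub_add_norm_sub (f n) (g n) (k n)) ?_
      have h3 := h1.add h2
      rwa [add_zero] at h3
  mul' := by
    intro f f' g g' h1 h2
    have h3 : Tendsto (fun n => ‖f n - f' n‖ * ‖g‖ + ‖f'‖ * ‖g n - g' n‖) atTop (𝓝 0) := by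
      have h4 := (h1.mul_const ‖g‖).add (h2.const_mul ‖f'‖)
      rwa [zero_mul, mul_zero, add_zero] at h4
    refine squeeze_zero (fun n => norm_nonneg _) (fun n => ?_) h3
    have e : (f * g) n - (f' * g') n = (f n - f' n) * g n + f' n * (g n - g' n) := by
      simp only [BoundedContinuousFunction.coe_mul, Pi.mul_apply]
      noncomm_ring
    rw [e]
    refine (norm_add_le _ _).trans (add_le_add ?_ ?_)
    · exact (norm_mul_le _ _).trans
        (mul_le_mul_of_nonneg_left (g.norm_coe_le_norm n) (norm_nonneg _))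
    · exact (norm_mul_le _ _).trans
        (mul_le_mul_of_nonneg_right (f'.norm_coe_le_norm n) (norm_nonneg _))
  add' := by
    intro f f' g g' h1 h2
    refine squeeze_zero (fun n => norm_nonneg _) (fun n => ?_)
      (by have h3 := h1.add h2; rwa [add_zero] at h3)
    have e : (f + g) n - (f' + g') n = (f n - f' n) + (g n - g' n) := by
      simp only [BoundedContinuousFunction.coe_add, Pi.add_apply]
      abel
    rw [e]
    exact norm_add_le _ _

/-- The quotient ring. -/
abbrev Q : Type := (nullCon A).Quotient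

variable {A}

/-- The star operation. -/
noncomputable instance Q.instStar : Star (Q A) where
  star := Quotient.map' (fun f : ℕ →ᵇ A => star f) (by
    intro f g h
    have h' : Tendsto (fun n => ‖f n - g n‖) atTop (𝓝 0) := h
    change Tendsto (fun n => ‖(star f) n - (star g) n‖) atTop (𝓝 0)
    have e : (fun n => ‖(star f) n - (star g) n‖) = fun n => ‖f n - g n‖ := by
      funext n
      rw [BoundedContinuousFunction.star_apply, BoundedContinuousFunction.star_apply,
        ← star_sub, norm_star]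
    rw [e]
    exact h')

theorem seq_star_coe (f : ℕ →ᵇ A) : star ((f : (nullCon A).Quotient) : Q A) =
    ((star f : ℕ →ᵇ A) : (nullCon A).Quotient) := rfl

noncomputable instance Q.instStarRing : StarRing (Q A) where
  star_involutive := by
    intro x
    induction x using Quotient.inductionOn' with
    | h f =>
      change star (star ((f : (nullCon A).Quotient) : Q A)) = (f : (nullCon A).Quotient)
      rw [seq_star_coe, seq_star_coe, star_star]
  star_mul := by
    intro x y
    induction x using Quotient.inductionOn' with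
    | h f =>
      induction y using Quotient.inductionOn' with
      | h g =>
        change star (((f * g : ℕ →ᵇ A) : (nullCon A).Quotient) : Q A) =
          star ((g : (nullCon A).Quotient) : Q A) * star ((f : (nullCon A).Quotient) : Q A)
        rw [seq_star_coe, seq_star_coe, seq_star_coe, star_mul]
        rfl
  star_add := by
    intro x y
    induction x using Quotient.inductionOn' with
    | h f =>
      induction y using Quotient.inductionOn' with
      | h g =>
        change star (((f + g : ℕ →ᵇ A) : (nullCon A).Quotient) : Q A) =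
          star ((f : (nullCon A).Quotient) : Q A) + star ((g : (nullCon A).Quotient) : Q A)
        rw [seq_star_coe, seq_star_coe, seq_star_coe, star_add]
        rfl

/-- The class of a bounded sequence. -/
noncomputable def qm (x : ℕ → A) (h : ∃ C, ∀ n, ‖x n‖ ≤ C) : Q A :=
  ((BoundedContinuousFunction.ofNormedAddCommGroupDiscrete x h.choose h.choose_spec :
    ℕ →ᵇ A) : (nullCon A).Quotient)

variable (x y : ℕ → A) (hx : ∃ C, ∀ n, ‖x n‖ ≤ C) (hy : ∃ C, ∀ n, ‖y n‖ ≤ C)

theorem bdd_add (hx : ∃ C, ∀ n, ‖x n‖ ≤ C) (hy : ∃ C, ∀ n, ‖y n‖ ≤ C) :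
    ∃ C, ∀ n, ‖x n + y n‖ ≤ C := by
  obtain ⟨C, hC⟩ := hx
  obtain ⟨D, hD⟩ := hy
  exact ⟨C + D, fun n => (norm_add_le _ _).trans (add_le_add (hC n) (hD n))⟩

theorem bdd_sub (hx : ∃ C, ∀ n, ‖x n‖ ≤ C) (hy : ∃ C, ∀ n, ‖y n‖ ≤ C) :
    ∃ C, ∀ n, ‖x n - y n‖ ≤ C := by
  obtain ⟨C, hC⟩ := hx
  obtain ⟨D, hD⟩ := hy
  exact ⟨C + D, fun n => (norm_sub_le _ _).trans (add_le_add (hC n) (hD n))⟩

theorem bdd_mul (hx : ∃ C, ∀ n, ‖x n‖ ≤ C) (hy : ∃ C, ∀ n, ‖y n‖ ≤ C) :
    ∃ C, ∀ n, ‖x n * y n‖ ≤ C := by
  obtain ⟨C, hC⟩ := hx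
  obtain ⟨D, hD⟩ := hy
  exact ⟨C * D, fun n => (norm_mul_le _ _).trans
    (mul_le_mul (hC n) (hD n) (norm_nonneg _) ((norm_nonneg _).trans (hC n)))⟩

theorem bdd_star (hx : ∃ C, ∀ n, ‖x n‖ ≤ C) : ∃ C, ∀ n, ‖star (x n)‖ ≤ C := by
  obtain ⟨C, hC⟩ := hx
  exact ⟨C, fun n => by rw [norm_star]; exact hC n⟩

theorem bdd_const (a : A) : ∃ C, ∀ _ : ℕ, ‖a‖ ≤ C := ⟨_, fun _ => le_rfl⟩

theorem qm_eq_iff : qm x hx = qm y hy ↔ Tendsto (fun n => ‖x n - y n‖) atTop (𝓝 0) := by
  unfold qm
  rw [RingCon.eq]
  exact Iff.rfl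

theorem seq_qm_eq (f : ℕ →ᵇ A) (hf : ∀ n, f n = x n) :
    qm x hx = (f : (nullCon A).Quotient) := by
  unfold qm
  congr 1
  ext n
  exact (hf n).symm

theorem qm_add : qm (fun n => x n + y n) (bdd_add x y hx hy) = qm x hx + qm y hy :=
  seq_qm_eq _ _ (BoundedContinuousFunction.ofNormedAddCommGroupDiscrete x hx.choose hx.choose_spec +
    BoundedContinuousFunction.ofNormedAddCommGroupDiscrete y hy.choose hy.choose_spec)
    fun _ => rfl

theorem qm_sub : qm (fun n => x n - y n) (bdd_sub x y hx hy) = qm x hx - qm y hy :=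
  seq_qm_eq _ _ (BoundedContinuousFunction.ofNormedAddCommGroupDiscrete x hx.choose hx.choose_spec -
    BoundedContinuousFunction.ofNormedAddCommGroupDiscrete y hy.choose hy.choose_spec)
    fun _ => rfl

theorem qm_mul : qm (fun n => x n * y n) (bdd_mul x y hx hy) = qm x hx * qm y hy :=
  seq_qm_eq _ _ (BoundedContinuousFunction.ofNormedAddCommGroupDiscrete x hx.choose hx.choose_spec *
    BoundedContinuousFunction.ofNormedAddCommGroupDiscrete y hy.choose hy.choose_spec)
    fun _ => rfl

theorem qm_star : qm (fun n => star (x n)) (bdd_star x hx) = star (qm x hx) :=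
  seq_qm_eq _ _ (star (BoundedContinuousFunction.ofNormedAddCommGroupDiscrete x hx.choose
    hx.choose_spec)) fun _ => rfl

theorem qm_one : qm (fun _ : ℕ => (1 : A)) (bdd_const 1) = 1 :=
  seq_qm_eq _ _ 1 fun _ => rfl

theorem qm_zero : qm (fun _ : ℕ => (0 : A)) (bdd_const 0) = 0 :=
  seq_qm_eq _ _ 0 fun _ => rfl

theorem qm_eq_zero_iff : qm x hx = 0 ↔ Tendsto (fun n => ‖x n‖) atTop (𝓝 0) := by
  rw [← qm_zero, qm_eq_iff]
  simp only [sub_zero]

end H47
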