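import Pool.Agent.H.MP_47f0a1_an.Mats
import Pool.Agent.H.MP_47f0a1_an.Seq

/-!
# Naturality of the chain element
-/

open Matrix Filter Topology

namespace H47

section PropuAux

variable {A : Type} [CStarAlgebra A]

/-- The bounded sequence `x` represents the class `q`. -/
def propuC (x : ℕ → A) (q : Q A) : Prop := ∃ h, qm x h = q

theorem propuC_add {x y : ℕ → A} {p q : Q A} (hx : propuC x p) (hy : propuC y q) :
    propuC (fun n => x n + y n) (p + q) := by
  obtain ⟨hx, rfl⟩ := hx
  obtain ⟨hy, rfl⟩ := hy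
  exact ⟨bdd_add x y hx hy, qm_add x y hx hy⟩

theorem propuC_sub {x y : ℕ → A} {p q : Q A} (hx : propuC x p) (hy : propuC y q) :
    propuC (fun n => x n - y n) (p - q) := by
  obtain ⟨hx, rfl⟩ := hx
  obtain ⟨hy, rfl⟩ := hy
  exact ⟨bdd_sub x y hx hy, qm_sub x y hx hy⟩

theorem propuC_mul {x y : ℕ → A} {p q : Q A} (hx : propuC x p) (hy : propuC y q) :
    propuC (fun n => x n * y n) (p * q) := by
  obtain ⟨hx, rfl⟩ := hx
  obtain ⟨hy, rfl⟩ := hy
  exact ⟨bdd_mul x y hx hy, qm_mul x y hx hy⟩

theorem propuC_star {x : ℕ → A} {p : Q A} (hx : propuC x p) :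
    propuC (fun n => star (x n)) (star p) := by
  obtain ⟨hx, rfl⟩ := hx
  exact ⟨bdd_star x hx, qm_star x hx⟩

theorem propuC_one : propuC (fun _ => (1 : A)) 1 := ⟨bdd_const 1, qm_one⟩

theorem propuC_zero : propuC (fun _ => (0 : A)) 0 := ⟨bdd_const 0, qm_zero⟩

theorem propuC_neg {x : ℕ → A} {p : Q A} (hx : propuC x p) :
    propuC (fun n => -(x n)) (-p) := by
  have h := propuC_sub propuC_zero hx
  simpa using h

theorem propuC_sum {ι : Type*} (s : Finset ι) {x : ι → ℕ → A} {p : ι → Q A}
    (h : ∀ i, propuC (x i) (p i)) : propuC (fun n => ∑ i ∈ s, x i n) (∑ i ∈ s, p i) := by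
  classical
  induction s using Finset.induction_on with
  | empty => simpa using (propuC_zero : propuC (fun _ => (0 : A)) 0)
  | insert a s ha ih =>
    simp only [Finset.sum_insert ha]
    exact propuC_add (h a) ih

/-- The entrywise version for matrices. -/
def propuM {m n : Type} (M : ℕ → Matrix m n A) (N : Matrix m n (Q A)) : Prop :=
  ∀ i j, propuC (fun k => M k i j) (N i j)

theorem propuM_add {m n : Type} {M M' : ℕ → Matrix m n A} {N N' : Matrix m n (Q A)}
    (h : propuM M N) (h' : propuM M' N') : propuM (fun k => M k + M' k) (N + N') :=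
  fun i j => propuC_add (h i j) (h' i j)

theorem propuM_sub {m n : Type} {M M' : ℕ → Matrix m n A} {N N' : Matrix m n (Q A)}
    (h : propuM M N) (h' : propuM M' N') : propuM (fun k => M k - M' k) (N - N') :=
  fun i j => propuC_sub (h i j) (h' i j)

theorem propuM_mul {m n o : Type} [Fintype n] {M : ℕ → Matrix m n A} {M' : ℕ → Matrix n o A}
    {N : Matrix m n (Q A)} {N' : Matrix n o (Q A)}
    (h : propuM M N) (h' : propuM M' N') : propuM (fun k => M k * M' k) (N * N') := by
  intro i j
  simp only [Matrix.mul_apply]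
  exact propuC_sum _ fun l => propuC_mul (h i l) (h' l j)

theorem propuM_star {m n : Type} {M : ℕ → Matrix m n A} {N : Matrix m n (Q A)}
    (h : propuM M N) : propuM (fun k => (M k)ᴴ) Nᴴ := by
  intro i j
  simp only [Matrix.conjTranspose_apply]
  exact propuC_star (h j i)

theorem propuM_s1 {x : ℕ → A} {p : Q A} (hx : propuC x p) :
    propuM (fun k => s1 (x k)) (s1 p) := fun _ _ => hx

theorem propuM_er (N : ℕ) : propuM (fun _ => er A N) (er (Q A) N) := by
  intro i j
  simp only [er, Matrix.of_apply]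
  split_ifs
  · exact propuC_one
  · exact propuC_zero

theorem propuM_rowM {N : ℕ} {v : ℕ → Idx N → A} {p : Idx N → Q A}
    (h : ∀ x, propuC (fun n => v n x) (p x)) : propuM (fun k => rowM (v k)) (rowM p) :=
  fun _ j => h j

theorem propuM_Gm (N : ℕ) {U f g w : ℕ → A} {U' f' g' w' : Q A} (hU : propuC U U')
    (hf : propuC f f') (hg : propuC g g') (hw : propuC w w') :
    propuM (fun k => Gm N (U k) (f k) (g k) (w k)) (Gm N U' f' g' w') := by
  rintro (i | i) (j | j) <;> simp only [Gm, Matrix.of_apply] <;> split_ifs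
  all_goals first
    | exact propuC_zero
    | exact hw
    | exact hU
    | exact hg
    | exact propuC_neg hf
    | exact propuC_star hU

theorem propuM_Bm (N : ℕ) {U f g : ℕ → A} {U' f' g' : Q A} (hU : propuC U U')
    (hf : propuC f f') (hg : propuC g g') :
    propuM (fun k => Bm N (U k) (f k) (g k)) (Bm N U' f' g') := by
  rintro (i | i) (j | j) <;> simp only [Bm, Matrix.of_apply] <;> split_ifs
  all_goals first
    | exact propuC_zero
    | exact hU
    | exact hg
    | exact propuC_neg hf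
    | exact propuC_star hU

theorem propuM_Prow {N : ℕ} {U f g : ℕ → A} {U' f' g' : Q A} {v : ℕ → Idx N → A}
    {p : Idx N → Q A} (hU : propuC U U') (hf : propuC f f') (hg : propuC g g')
    (hv : ∀ x, propuC (fun n => v n x) (p x)) :
    propuM (fun k => Prow (U k) (f k) (g k) (v k)) (Prow U' f' g' p) := by
  have h1 := propuM_mul (propuM_mul (propuM_s1 hU) (propuM_rowM hv))
    (propuM_star (propuM_Bm N hU hf hg))
  have h2 := propuM_mul (propuM_s1 (propuC_sub propuC_one (propuC_mul hU (propuC_star hU))))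
    (propuM_er (A := A) N)
  exact propuM_add h1 h2

theorem propuM_uM {N : ℕ} {U f g w : ℕ → A} {U' f' g' w' : Q A} {v : ℕ → Idx N → A}
    {p : Idx N → Q A} (hU : propuC U U') (hf : propuC f f') (hg : propuC g g')
    (hw : propuC w w') (hv : ∀ x, propuC (fun n => v n x) (p x)) :
    propuM (fun k => uM (U k) (f k) (g k) (w k) (v k)) (uM U' f' g' w' p) := by
  have h1 := propuM_mul (propuM_mul (propuM_Prow hU hf hg hv)
    (propuM_sub (propuM_Gm N hU hf hg hw) (propuM_Bm N hU hf hg)))
    (propuM_star (propuM_rowM hv))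
  exact propuM_add (propuM_s1 hU) h1

end PropuAux

/-- Naturality of `uM` under star ring homomorphism-like maps: the class of the sequence of the `uM`
is the `uM` of the classes. Stated for the quotient of bounded sequences.

Proof. The entries of `Gm, Bm, er, rowM, s1` are `0, 1, ± x, star x`; expand the products of matrices
(finite sums) and use `qm_add`, `qm_mul`, … A convenient way: the star ring homomorphisms
`ev n : (ℕ →ᵇ A) → A` and `π : (ℕ →ᵇ A) → Q A`; `uM` commutes with star ring homomorphisms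
(`Matrix.map`), because all of its ingredients do. -/
theorem qm_uM {A : Type} [CStarAlgebra A] {N : ℕ} (U f g w : ℕ → A) (v : ℕ → Idx N → A)
    (hU : ∃ C, ∀ n, ‖U n‖ ≤ C) (hf : ∃ C, ∀ n, ‖f n‖ ≤ C) (hg : ∃ C, ∀ n, ‖g n‖ ≤ C)
    (hw : ∃ C, ∀ n, ‖w n‖ ≤ C) (hv : ∀ x, ∃ C, ∀ n, ‖v n x‖ ≤ C) :
    ∃ h : ∃ C, ∀ n, ‖uM (U n) (f n) (g n) (w n) (v n) () ()‖ ≤ C,
      qm (fun n => uM (U n) (f n) (g n) (w n) (v n) () ()) h =
        uM (qm U hU) (qm f hf) (qm g hg) (qm w hw) (fun x => qm (fun n => v n x) (hv x)) () () := by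
  exact propuM_uM (U := U) (f := f) (g := g) (w := w) (v := v)
    (p := fun x => qm (fun n => v n x) (hv x))
    ⟨hU, rfl⟩ ⟨hf, rfl⟩ ⟨hg, rfl⟩ ⟨hw, rfl⟩ (fun x => ⟨hv x, rfl⟩) () ()

end H47
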