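import Pool.Agent.H.MP_47f0a1_an.MatsB

/-!
# Norm estimates for rows of operators
-/

open Matrix
open scoped InnerProductSpace

namespace H47

variable {K : Type*} [NormedAddCommGroup K] [InnerProductSpace ℂ K] [CompleteSpace K]

theorem row_sq {I : Type*} [Fintype I] (a : Matrix Unit I (K →L[ℂ] K)) (α : ℝ)
    (hα : 0 ≤ α) (ha : ‖(a * aᴴ) () ()‖ ≤ α) (ξ : K) :
    Real.sqrt (∑ x, ‖star (a () x) ξ‖ ^ 2) ≤ Real.sqrt α * ‖ξ‖ := by
  have h1 : ((∑ x, ‖star (a () x) ξ‖ ^ 2 : ℝ) : ℂ) = ⟪ξ, (a * aᴴ) () () ξ⟫_ℂ := by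
    rw [Matrix.mul_apply, _root_.sum_apply, inner_sum, Complex.ofReal_sum]
    refine Finset.sum_congr rfl fun x _ => ?_
    rw [Matrix.conjTranspose_apply]
    show _ = ⟪ξ, a () x (star (a () x) ξ)⟫_ℂ
    rw [← ContinuousLinearMap.adjoint_inner_left, ← ContinuousLinearMap.star_eq_adjoint,
      inner_self_eq_norm_sq_to_K]
    simp
  have h2 : ∑ x, ‖star (a () x) ξ‖ ^ 2 ≤ α * ‖ξ‖ ^ 2 := by
    have h3 : ∑ x, ‖star (a () x) ξ‖ ^ 2 = ‖((∑ x, ‖star (a () x) ξ‖ ^ 2 : ℝ) : ℂ)‖ := by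
      rw [Complex.norm_real, Real.norm_of_nonneg]
      exact Finset.sum_nonneg fun x _ => by positivity
    rw [h3, h1]
    calc ‖⟪ξ, (a * aᴴ) () () ξ⟫_ℂ‖ ≤ ‖ξ‖ * ‖(a * aᴴ) () () ξ‖ := norm_inner_le_norm _ _
      _ ≤ ‖ξ‖ * (α * ‖ξ‖) := by
        refine mul_le_mul_of_nonneg_left ?_ (norm_nonneg _)
        exact (ContinuousLinearMap.le_opNorm _ _).trans
          (mul_le_mul_of_nonneg_right ha (norm_nonneg _))
      _ = α * ‖ξ‖ ^ 2 := by ring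
  calc Real.sqrt (∑ x, ‖star (a () x) ξ‖ ^ 2) ≤ Real.sqrt (α * ‖ξ‖ ^ 2) := Real.sqrt_le_sqrt h2
    _ = Real.sqrt α * ‖ξ‖ := by
      rw [Real.sqrt_mul hα, Real.sqrt_sq (norm_nonneg _)]

/-- Cauchy–Schwarz for rows with a diagonal matrix in the middle.

Proof. `|⟪ξ, a ω b* η⟫| = |∑ ⟪a_x* ξ, ω_x b_x* η⟫| ≤ c (∑ ‖a_x* ξ‖²)^{1/2} (∑ ‖b_x* η‖²)^{1/2}`
and `∑ ‖a_x* ξ‖² = ⟪ξ, (∑ a_x a_x*) ξ⟫ ≤ α ‖ξ‖²`, the same for `b`. -/
theorem row_cs {I : Type*} [Fintype I] [DecidableEq I] (a b : Matrix Unit I (K →L[ℂ] K))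
    (ω : I → (K →L[ℂ] K)) (c α β : ℝ) (hc : 0 ≤ c) (hα : 0 ≤ α) (hβ : 0 ≤ β)
    (hω : ∀ x, ‖ω x‖ ≤ c) (ha : ‖(a * aᴴ) () ()‖ ≤ α) (hb : ‖(b * bᴴ) () ()‖ ≤ β) :
    ‖(a * diagonal ω * bᴴ) () ()‖ ≤ c * (Real.sqrt α * Real.sqrt β) := by
  have hT : (a * diagonal ω * bᴴ) () () = ∑ x, a () x * ω x * star (b () x) := by
    rw [Matrix.mul_apply]
    refine Finset.sum_congr rfl fun x _ => ?_
    rw [Matrix.mul_diagonal, Matrix.conjTranspose_apply]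
  refine ContinuousLinearMap.opNorm_le_bound _ (by positivity) fun η => ?_
  obtain ⟨ζ, hζ⟩ : ∃ ζ, ζ = (a * diagonal ω * bᴴ) () () η := ⟨_, rfl⟩
  rw [← hζ]
  have h1 : ⟪ζ, ζ⟫_ℂ = ∑ x, ⟪star (a () x) ζ, ω x (star (b () x) η)⟫_ℂ := by
    conv_lhs => rw [show ⟪ζ, ζ⟫_ℂ = ⟪ζ, (a * diagonal ω * bᴴ) () () η⟫_ℂ by rw [← hζ]]
    rw [hT, _root_.sum_apply, inner_sum]
    refine Finset.sum_congr rfl fun x _ => ?_
    exact (ContinuousLinearMap.adjoint_inner_left (a () x) (ω x (star (b () x) η)) ζ).symm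
  have h2 : ‖ζ‖ ^ 2 ≤ ∑ x, ‖star (a () x) ζ‖ * (c * ‖star (b () x) η‖) := by
    have h3 : ‖ζ‖ ^ 2 = ‖⟪ζ, ζ⟫_ℂ‖ := by
      rw [inner_self_eq_norm_sq_to_K, norm_pow]
      simp
    rw [h3, h1]
    refine (norm_sum_le _ _).trans (Finset.sum_le_sum fun x _ => ?_)
    refine (norm_inner_le_norm _ _).trans (mul_le_mul_of_nonneg_left ?_ (norm_nonneg _))
    exact ((ω x).le_opNorm _).trans (mul_le_mul_of_nonneg_right (hω x) (norm_nonneg _))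
  have h4 : ∑ x, ‖star (a () x) ζ‖ * (c * ‖star (b () x) η‖) =
      c * ∑ x, ‖star (a () x) ζ‖ * ‖star (b () x) η‖ := by
    rw [Finset.mul_sum]
    refine Finset.sum_congr rfl fun x _ => by ring
  have h5 : ∑ x, ‖star (a () x) ζ‖ * ‖star (b () x) η‖ ≤
      Real.sqrt (∑ x, ‖star (a () x) ζ‖ ^ 2) * Real.sqrt (∑ x, ‖star (b () x) η‖ ^ 2) :=
    Real.sum_mul_le_sqrt_mul_sqrt _ _ _
  have h6 := row_sq a α hα ha ζ
  have h7 := row_sq b β hβ hb η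
  have h8 : ‖ζ‖ ^ 2 ≤ c * ((Real.sqrt α * ‖ζ‖) * (Real.sqrt β * ‖η‖)) := by
    refine h2.trans ?_
    rw [h4]
    exact mul_le_mul_of_nonneg_left (h5.trans (mul_le_mul h6 h7 (Real.sqrt_nonneg _)
      (by positivity))) hc
  rcases (norm_nonneg ζ).eq_or_lt with h0 | h0
  · rw [← h0]
    positivity
  · have h9 : ‖ζ‖ * ‖ζ‖ ≤ ‖ζ‖ * (c * (Real.sqrt α * Real.sqrt β) * ‖η‖) := by
      calc ‖ζ‖ * ‖ζ‖ = ‖ζ‖ ^ 2 := by ring
        _ ≤ _ := h8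
        _ = _ := by ring
    exact le_of_mul_le_mul_left h9 h0

/-- The two error terms of the chain are small.

Proof. `row_cs` with `a = Prow U f g v`, `b = rowM v * Gᴴ` (`b bᴴ = P' Gᴴ G P'ᴴ = P' P'ᴴ`), and with
`a = Prow U f g v * G`, `b = rowM v`. `‖P' P'*‖ = ‖∑ v_x v_x*‖ ≤ 5`, `‖P P*‖ ≤ 5 + 1` by
`Prow_mul_star` and `‖U‖ ≤ 1`, `‖1 - U U*‖ ≤ 1` (it is `f * f` with... or directly from
`0 ≤ U U* ≤ 1`; `‖1 - U U*‖ ≤ 2` would also be enough with the constant `7`). `√7 √5 ≤ 7`. -/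
theorem row_est {N : ℕ} {U f g w : K →L[ℂ] K} (h : Rel0 U f g w) (hU : ‖U‖ ≤ 1)
    (v : Idx N → (K →L[ℂ] K)) (h0 : v (Sum.inl 0) = 1) (hv : ‖∑ x, v x * star (v x)‖ ≤ 5)
    (ω : Idx N → (K →L[ℂ] K)) (c : ℝ) (hc : 0 ≤ c) (hω : ∀ x, ‖ω x‖ ≤ c) :
    ‖(Prow U f g v * diagonal ω * Gm N U f g w * (rowM v)ᴴ) () ()‖ ≤ 7 * c ∧
      ‖(Prow U f g v * Gm N U f g w * diagonal ω * (rowM v)ᴴ) () ()‖ ≤ 7 * c := by
  classical
  obtain ⟨hG1, hG2⟩ := Gm_unitary N h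
  have hsv : (rowM v * (rowM v)ᴴ) () () = ∑ x, v x * star (v x) := by
    rw [Matrix.mul_apply]
    rfl
  have hvv : ‖(rowM v * (rowM v)ᴴ) () ()‖ ≤ 5 := by
    rw [hsv]
    exact hv
  have hPP : ‖(Prow U f g v * (Prow U f g v)ᴴ) () ()‖ ≤ 7 := by
    rw [Prow_mul_star h v h0]
    have e1 : (s1 U * (rowM v * (rowM v)ᴴ) * s1 (star U) + s1 (1 - U * star U)) () () =
        U * (∑ x, v x * star (v x)) * star U + (1 - U * star U) := by
      rw [Matrix.add_apply, Matrix.mul_apply, Finset.univ_unique, Finset.sum_singleton,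
        Matrix.mul_apply, Finset.univ_unique, Finset.sum_singleton]
      rw [show ((rowM v * (rowM v)ᴴ) (default : Unit) (default : Unit)) =
        ∑ x, v x * star (v x) from hsv]
      rfl
    rw [e1]
    have hU' : ‖star U‖ ≤ 1 := by rw [norm_star]; exact hU
    have e2 : ‖U * (∑ x, v x * star (v x)) * star U‖ ≤ 5 := by
      calc ‖U * (∑ x, v x * star (v x)) * star U‖
          ≤ ‖U‖ * ‖∑ x, v x * star (v x)‖ * ‖star U‖ :=
            (norm_mul_le _ _).trans (mul_le_mul_of_nonneg_right (norm_mul_le _ _)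
              (norm_nonneg _))
        _ ≤ 1 * 5 * 1 := by gcongr
        _ = 5 := by norm_num
    have e3 : ‖1 - U * star U‖ ≤ 2 := by
      calc ‖1 - U * star U‖ ≤ ‖(1 : K →L[ℂ] K)‖ + ‖U * star U‖ := norm_sub_le _ _
        _ ≤ 1 + ‖U‖ * ‖star U‖ := add_le_add ContinuousLinearMap.norm_id_le (norm_mul_le _ _)
        _ ≤ 1 + 1 * 1 := by gcongr
        _ = 2 := by norm_num
    linarith [norm_add_le (U * (∑ x, v x * star (v x)) * star U) (1 - U * star U)]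
  have h35 : c * (Real.sqrt 7 * Real.sqrt 5) ≤ 7 * c := by
    have h7 : Real.sqrt 7 * Real.sqrt 5 ≤ 7 := by
      rw [← Real.sqrt_mul (by norm_num)]
      rw [Real.sqrt_le_left (by norm_num)]
      norm_num
    nlinarith
  constructor
  · have hb : ((rowM v * (Gm N U f g w)ᴴ) * (rowM v * (Gm N U f g w)ᴴ)ᴴ) =
        rowM v * (rowM v)ᴴ := by
      rw [Matrix.conjTranspose_mul, Matrix.conjTranspose_conjTranspose, Matrix.mul_assoc,
        ← Matrix.mul_assoc ((Gm N U f g w)ᴴ), hG1, Matrix.one_mul]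
    have := row_cs (Prow U f g v) (rowM v * (Gm N U f g w)ᴴ) ω c 7 5 hc (by norm_num)
      (by norm_num) hω hPP (by rw [hb]; exact hvv)
    rw [Matrix.conjTranspose_mul, Matrix.conjTranspose_conjTranspose, ← Matrix.mul_assoc] at this
    exact this.trans h35
  · have ha : ((Prow U f g v * Gm N U f g w) * (Prow U f g v * Gm N U f g w)ᴴ) =
        Prow U f g v * (Prow U f g v)ᴴ := by
      rw [Matrix.conjTranspose_mul, Matrix.mul_assoc, ← Matrix.mul_assoc (Gm N U f g w), hG2,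
        Matrix.one_mul]
    have := row_cs (Prow U f g v * Gm N U f g w) (rowM v) ω c 7 5 hc (by norm_num)
      (by norm_num) hω (by rw [ha]; exact hPP) hvv
    exact this.trans h35

end H47
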