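import Pool.Agent.H.MP_47f0a1_an.Data
import Pool.Agent.H.MP_47f0a1_an.Row
import Pool.Agent.H.MP_47f0a1_an.PropU
import Pool.Agent.H.MP_47f0a1_an.Chain3
import Pool.Agent.H.MP_47f0a1_an.Chain4

/-!
# Almost unitary implementation of measure preserving maps
-/

open scoped InnerProductSpace
open MeasureTheory Matrix Filter Topology

namespace H47

section PropANat

variable {R R' : Type*} [Ring R] [StarRing R] [Ring R'] [StarRing R'] (h : R →+* R')
  (hs : ∀ x, h (star x) = star (h x))

include hs in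
theorem propA_Gm (N : ℕ) (U f g w : R) :
    (Gm N U f g w).map h = Gm N (h U) (h f) (h g) (h w) := by
  ext x y
  rcases x with i | i <;> rcases y with j | j <;> simp only [Gm, Matrix.map_apply, Matrix.of_apply]
  · split_ifs <;> simp
  · split_ifs <;> simp
  · split_ifs <;> simp
  · split_ifs <;> simp [hs]

include hs in
theorem propA_Bm (N : ℕ) (U f g : R) :
    (Bm N U f g).map h = Bm N (h U) (h f) (h g) := by
  ext x y
  rcases x with i | i <;> rcases y with j | j <;> simp only [Bm, Matrix.map_apply, Matrix.of_apply]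
  · split_ifs <;> simp
  · split_ifs <;> simp
  · split_ifs <;> simp
  · split_ifs <;> simp [hs]

omit [StarRing R] [StarRing R'] in
theorem propA_er (N : ℕ) : (er R N).map h = er R' N := by
  ext x y
  simp only [er, Matrix.map_apply, Matrix.of_apply]
  split_ifs <;> simp

omit [StarRing R] [StarRing R'] in
theorem propA_rowM {N : ℕ} (v : Idx N → R) : (rowM v).map h = rowM fun x => h (v x) := rfl

omit [StarRing R] [StarRing R'] in
theorem propA_s1 (a : R) : (s1 a).map h = s1 (h a) := rfl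

include hs in
theorem propA_ct {m n : Type*} (A : Matrix m n R) : (Aᴴ).map h = (A.map h)ᴴ :=
  Matrix.conjTranspose_map h hs

omit [StarRing R] [StarRing R'] in
theorem propA_diag {m : Type*} [DecidableEq m] (d : m → R) :
    (diagonal d).map h = diagonal fun x => h (d x) :=
  Matrix.diagonal_map (map_zero h)

include hs in
theorem propA_Prow {N : ℕ} (U f g : R) (v : Idx N → R) :
    (Prow U f g v).map h = Prow (h U) (h f) (h g) fun x => h (v x) := by
  rw [Prow, Prow, Matrix.map_add h (map_add h), Matrix.map_mul, Matrix.map_mul, Matrix.map_mul,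
    propA_s1, propA_rowM, propA_ct h hs, propA_Bm h hs, propA_s1, propA_er, map_sub, map_mul,
    map_one, hs]

include hs in
theorem propA_uM {N : ℕ} (U f g w : R) (v : Idx N → R) :
    (uM U f g w v).map h = uM (h U) (h f) (h g) (h w) fun x => h (v x) := by
  rw [uM, uM, Matrix.map_add h (map_add h), Matrix.map_mul, Matrix.map_mul,
    Matrix.map_sub h (map_sub h), propA_s1, propA_Prow h hs, propA_Gm h hs, propA_Bm h hs,
    propA_ct h hs, propA_rowM]

include hs in
/-- the two error terms -/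
theorem propA_err {N : ℕ} (U f g w : R) (v : Idx N → R) (o : Idx N → R) :
    (Prow U f g v * diagonal o * Gm N U f g w * (rowM v)ᴴ).map h =
      Prow (h U) (h f) (h g) (fun x => h (v x)) * diagonal (fun x => h (o x)) *
        Gm N (h U) (h f) (h g) (h w) * (rowM fun x => h (v x))ᴴ ∧
    (Prow U f g v * Gm N U f g w * diagonal o * (rowM v)ᴴ).map h =
      Prow (h U) (h f) (h g) (fun x => h (v x)) *
        Gm N (h U) (h f) (h g) (h w) * diagonal (fun x => h (o x)) *
        (rowM fun x => h (v x))ᴴ := by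
  constructor <;>
  rw [Matrix.map_mul, Matrix.map_mul, Matrix.map_mul, propA_Prow h hs, propA_Gm h hs,
    propA_diag, propA_ct h hs, propA_rowM]

end PropANat

section PropAQ

variable {A : Type} [CStarAlgebra A]

/-- evaluation -/
noncomputable def propA_ev (n : ℕ) : (BoundedContinuousFunction ℕ A) →+* A where
  toFun f := f n
  map_one' := rfl
  map_mul' _ _ := rfl
  map_zero' := rfl
  map_add' _ _ := rfl

theorem propA_ev_star (n : ℕ) (f : BoundedContinuousFunction ℕ A) :
    propA_ev n (star f) = star (propA_ev n f) := rfl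

/-- the quotient map -/
noncomputable def propA_pi : (BoundedContinuousFunction ℕ A) →+* Q A := (nullCon A).mk'

theorem propA_pi_star (f : BoundedContinuousFunction ℕ A) :
    propA_pi (star f) = star (propA_pi f) := rfl

theorem propA_pi_eq (f g : BoundedContinuousFunction ℕ A) :
    propA_pi f = propA_pi g ↔ Tendsto (fun n => ‖f n - g n‖) atTop (𝓝 0) := by
  exact (nullCon A).eq

theorem propA_pi_eq_of (f g : BoundedContinuousFunction ℕ A) (o : ℕ → ℝ)
    (ho : Tendsto o atTop (𝓝 0)) (hfg : ∀ n, ‖f n - g n‖ ≤ o n) :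
    propA_pi f = propA_pi g := by
  rw [propA_pi_eq]
  exact squeeze_zero (fun n => norm_nonneg _) hfg ho

/-- a bounded sequence -/
noncomputable def propA_lift (x : ℕ → A) (C : ℝ) (h : ∀ n, ‖x n‖ ≤ C) :
    BoundedContinuousFunction ℕ A :=
  BoundedContinuousFunction.ofNormedAddCommGroupDiscrete x C h

theorem propA_lift_apply (x : ℕ → A) (C : ℝ) (h : ∀ n, ‖x n‖ ≤ C) (n : ℕ) :
    propA_lift x C h n = x n := rfl

theorem propA_ev_lift (x : ℕ → A) (C : ℝ) (h : ∀ n, ‖x n‖ ≤ C) (n : ℕ) :
    propA_ev n (propA_lift x C h) = x n := rfl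

end PropAQ


section PropAEntry

variable {R : Type*} [Ring R]

theorem propA_entry {a b : R} {X Y Z : Matrix Unit Unit R} (h : s1 a * X - X * s1 b = Y - Z) :
    a * X () () - X () () * b = Y () () - Z () () := by
  have h1 := congrFun (congrFun h ()) ()
  rw [Matrix.sub_apply, Matrix.sub_apply, Matrix.mul_apply, Matrix.mul_apply,
    Fintype.sum_unique, Fintype.sum_unique] at h1
  exact h1

theorem propA_diag_eq {m : Type*} [DecidableEq m] {a b c : m → R} (h : ∀ x, a x - b x = c x) :
    diagonal a - diagonal b = diagonal c := by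
  rw [Matrix.diagonal_sub]
  congr 1
  funext x
  exact h x

end PropAEntry

section PropAMem

variable {A : Type} [CStarAlgebra A]

theorem propA_mem (S : StarSubalgebra ℂ A) {N : ℕ} {U f g w : A} {v : Idx N → A} (hU : U ∈ S)
    (hf : f ∈ S) (hg : g ∈ S) (hw : w ∈ S) (hv : ∀ x, v x ∈ S) : uM U f g w v () () ∈ S := by
  let h : S →+* A := (S.subtype : S →⋆ₐ[ℂ] A)
  have hs : ∀ x : S, h (star x) = star (h x) := fun x => rfl
  have e := propA_uM h hs (⟨U, hU⟩ : S) ⟨f, hf⟩ ⟨g, hg⟩ ⟨w, hw⟩ (fun x => ⟨v x, hv x⟩)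
  have e1 : uM U f g w v = (uM (⟨U, hU⟩ : S) ⟨f, hf⟩ ⟨g, hg⟩ ⟨w, hw⟩
      (fun x => (⟨v x, hv x⟩ : S))).map h := e.symm
  rw [e1]
  exact (uM (⟨U, hU⟩ : S) ⟨f, hf⟩ ⟨g, hg⟩ ⟨w, hw⟩ (fun x => (⟨v x, hv x⟩ : S)) () ()).2

end PropAMem

section PropARel

variable {R R' : Type*} [Ring R] [StarRing R] [Ring R'] [StarRing R'] (h : R →+* R')
  (hs : ∀ x, h (star x) = star (h x))

include hs in
theorem propA_Rel0 {U f g w : R} (H : Rel0 U f g w) : Rel0 (h U) (h f) (h g) (h w) where
  fs := by rw [← hs, H.fs]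
  gs := by rw [← hs, H.gs]
  ff := by rw [← map_mul, H.ff, map_sub, map_one, map_mul, hs]
  gg := by rw [← map_mul, H.gg, map_sub, map_one, map_mul, hs]
  Uf := by rw [← hs, ← map_mul, H.Uf, map_mul]
  fU := by rw [← map_mul, H.fU, map_mul]
  ww := by rw [← hs, ← map_mul, H.ww, map_one]
  ww' := by rw [← hs, ← map_mul, H.ww', map_one]

end PropARel

section PropAInter

variable {S R : Type*} [Ring S] [StarRing S] [Ring R] [StarRing R] (p : S →+* R)
  (hp : ∀ x, p (star x) = star (p x))

include hp in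
theorem propA_inter {N : ℕ} {U f g w : S} {v : Idx N → S} {φ ψ : ℕ → S}
    (h0 : Rel0 (p U) (p f) (p g) (p w)) (hv : p (v (Sum.inl 0)) = 1)
    (h2 : Rel2 (p U) (p f) (p g) (p w) (fun x => p (v x)) (fun k => p (φ k))
      (fun k => p (ψ k))) :
    p (φ 0 * uM U f g w v () () - uM U f g w v () () * ψ 0) =
      p ((Prow U f g v * diagonal (fun x => dg N φ ψ x - dg N (fun k => φ (k + 1)) ψ x) *
          Gm N U f g w * (rowM v)ᴴ) () () -
        (Prow U f g v * Gm N U f g w *
          diagonal (fun x => dg N ψ φ x - dg N (fun k => ψ (k + 1)) φ x) *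
          (rowM v)ᴴ) () ()) := by
  have hmain := chain_intertwine h0 hv h2
  have hd1 : (diagonal (dg N (fun k => p (φ k)) (fun k => p (ψ k))) -
      diagonal (dg N (fun k => p (φ (k + 1))) (fun k => p (ψ k))) :
      Matrix (Idx N) (Idx N) R) =
      diagonal fun x => p (dg N φ ψ x - dg N (fun k => φ (k + 1)) ψ x) := by
    refine propA_diag_eq fun x => ?_
    rcases x with k | j
    · exact (map_sub p _ _).symm
    · exact (map_sub p _ _).symm
  have hd2 : (diagonal (dg N (fun k => p (ψ k)) (fun k => p (φ k))) -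
      diagonal (dg N (fun k => p (ψ (k + 1))) (fun k => p (φ k))) :
      Matrix (Idx N) (Idx N) R) =
      diagonal fun x => p (dg N ψ φ x - dg N (fun k => ψ (k + 1)) φ x) := by
    refine propA_diag_eq fun x => ?_
    rcases x with k | j
    · exact (map_sub p _ _).symm
    · exact (map_sub p _ _).symm
  rw [hd1, hd2] at hmain
  have h1 := propA_entry hmain
  have e0 : p (uM U f g w v () ()) =
      uM (p U) (p f) (p g) (p w) (fun x => p (v x)) () () :=
    congrFun (congrFun (propA_uM p hp U f g w v) ()) ()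
  have e1 := congrFun (congrFun (propA_err p hp U f g w v
    (fun x => dg N φ ψ x - dg N (fun k => φ (k + 1)) ψ x)).1 ()) ()
  have e2 := congrFun (congrFun (propA_err p hp U f g w v
    (fun x => dg N ψ φ x - dg N (fun k => ψ (k + 1)) φ x)).2 ()) ()
  rw [Matrix.map_apply] at e1 e2
  rw [map_sub, map_sub, map_mul, map_mul, e0, e1, e2]
  exact h1

include hp in
theorem propA_unit {N : ℕ} {U f g w : S} {v : Idx N → S}
    (h0 : Rel0 (p U) (p f) (p g) (p w))
    (h1 : Rel1 (p U) (p f) (p g) (p w) (fun x => p (v x))) :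
    p (star (uM U f g w v () ()) * uM U f g w v () ()) = p 1 ∧
      p (uM U f g w v () () * star (uM U f g w v () ())) = p 1 := by
  obtain ⟨hu1, hu2⟩ := chain_unitary h0 h1
  have e0 : p (uM U f g w v () ()) =
      uM (p U) (p f) (p g) (p w) (fun x => p (v x)) () () :=
    congrFun (congrFun (propA_uM p hp U f g w v) ()) ()
  constructor
  · have := congrFun (congrFun hu1 ()) ()
    rw [Matrix.mul_apply, Fintype.sum_unique, Matrix.conjTranspose_apply, Matrix.one_apply_eq]
      at this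
    rw [map_mul, hp, e0, map_one]
    exact this
  · have := congrFun (congrFun hu2 ()) ()
    rw [Matrix.mul_apply, Fintype.sum_unique, Matrix.conjTranspose_apply, Matrix.one_apply_eq]
      at this
    rw [map_mul, hp, e0, map_one]
    exact this

end PropAInter

section PropARow

variable {K : Type} [NormedAddCommGroup K] [InnerProductSpace ℂ K] [CompleteSpace K]

theorem propA_row_bound {X : Type*} [Fintype X] (v : X → (K →L[ℂ] K))
    (hv : ‖∑ x, v x * star (v x)‖ ≤ 5) (x : X) : ‖v x‖ ≤ 5 := by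
  classical
  rw [← norm_star]
  refine ContinuousLinearMap.opNorm_le_bound _ (by norm_num) fun ξ => ?_
  have h1 : ∀ y, ⟪ξ, (v y * star (v y)) ξ⟫_ℂ = ((‖(star (v y)) ξ‖ ^ 2 : ℝ) : ℂ) := by
    intro y
    show ⟪ξ, v y ((star (v y)) ξ)⟫_ℂ = _
    rw [ContinuousLinearMap.star_eq_adjoint, ← ContinuousLinearMap.adjoint_inner_left, inner_self_eq_norm_sq_to_K]
    norm_cast
  have h2 : ⟪ξ, (∑ y, v y * star (v y)) ξ⟫_ℂ = ((∑ y, ‖(star (v y)) ξ‖ ^ 2 : ℝ) : ℂ) := by
    rw [_root_.sum_apply, inner_sum, Complex.ofReal_sum]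
    exact Finset.sum_congr rfl fun y _ => h1 y
  have h3 : (∑ y, ‖(star (v y)) ξ‖ ^ 2 : ℝ) ≤ 5 * ‖ξ‖ ^ 2 := by
    have h4 : ‖⟪ξ, (∑ y, v y * star (v y)) ξ⟫_ℂ‖ ≤ ‖ξ‖ * (5 * ‖ξ‖) :=
      (norm_inner_le_norm _ _).trans (mul_le_mul_of_nonneg_left
        ((ContinuousLinearMap.le_opNorm _ _).trans
          (mul_le_mul_of_nonneg_right hv (norm_nonneg _))) (norm_nonneg _))
    rw [h2, Complex.norm_real, Real.norm_eq_abs] at h4
    calc _ ≤ _ := le_abs_self _
      _ ≤ _ := h4
      _ = _ := by ring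
  have h5 : ‖(star (v x)) ξ‖ ^ 2 ≤ ∑ y, ‖(star (v y)) ξ‖ ^ 2 :=
    Finset.single_le_sum (f := fun y => ‖(star (v y)) ξ‖ ^ 2) (fun y _ => sq_nonneg _)
      (Finset.mem_univ x)
  rw [← pow_le_pow_iff_left₀ (norm_nonneg _) (by positivity) (two_ne_zero)]
  nlinarith [sq_nonneg ‖ξ‖]

end PropARow

namespace FModel

variable {Z : Type} [MetricSpace Z] [CompactSpace Z] [MeasurableSpace Z] [BorelSpace Z]
  {μ : Measure Z} [IsProbabilityMeasure μ]
  {K : Type} [NormedAddCommGroup K] [InnerProductSpace ℂ K] [CompleteSpace K]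
  (M : FModel C(Z, ℂ) (intL μ) K)

/-- The sequence of the elements `u_n` of the chain built from the data with error `1/(n+1)`.

Proof. Let `F' = ` the finite set of all `a ∘ r k`, `a ∘ r k ∘ θ` (`k ≤ N + 1`), `a ∈ F ∪ star F`
(it contains `a = a ∘ r 0`). For every `n` take the data `U n, w n, v n` of `exists_data` for `F'` and
`ε = 1/(n+1)`; `f n = dft (U n)`, `g n = dft (star (U n))`. These sequences are bounded
(`‖v n x‖² = ‖v_x v_x*‖ ≤ ‖∑ v v*‖ ≤ 5`). Let bars denote the classes in `Q`.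
`Rel0` holds exactly for every `n` (`dft_sa, dft_sq, dft_inter, dft_inter'`) and so for the classes;
`Rel1` holds for the classes by the estimates of `exists_data`. So by `chain_unitary` and `qm_uM`
the class of `u n = uM (U n) … () ()` is unitary: `‖u n* u n - 1‖ → 0`, `‖u n u n* - 1‖ → 0`.
For `a ∈ F` put `φ k = inc (a ∘ r k ∘ θ)`, `ψ k = inc (a ∘ r k)` (constant sequences). `Rel2` holds for
the classes: `U1`: `a ∘ r k ∈ F'`. `U2`: take adjoints, `star a ∘ r k ∈ F'`. `ff, gg`: by `dft_comm` (for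
`U` with `x = φ k`, `y = ψ k`, and for `star U` with `x = ψ k`, `y = φ k`). `ww`:
`φ (N+1) = inc (a ∘ r (N+1) ∘ θ) = inc (a ∘ r (N+1)) = ψ (N+1)` by `hlast`, and
`b = a ∘ r (N+1)` satisfies `b ∘ θ = b`. `v1`: `ψ 0 = inc a`, and
`dg N ψ φ x = inc (a ∘ tmap r θ x)`. `v2`: adjoint of `v1` for `star a`.
So by `chain_intertwine` the class of `inc (a ∘ θ) u n - u n inc a` is the class of the difference of the
two error terms, whose norms are at most `7 c` by `row_est` with
`c = ε ≥ max (‖φ k - φ (k+1)‖, ‖ψ k - ψ (k+1)‖)` (hypothesis `hstep`; `‖inc b‖ ≤ sup |b|`).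
Hence `limsup ‖inc (a ∘ θ) u n - u n inc a‖ ≤ 14 ε`. -/
theorem exists_almost [μ.IsOpenPosMeasure] (θ : C(Z, Z))
    (hθ : ∀ a, intL μ (a.comp θ) = intL μ a)
    (N : ℕ) (r : ℕ → C(Z, Z)) (hr0 : r 0 = ContinuousMap.id Z)
    (hlast : (r (N + 1)).comp θ = r (N + 1)) (F : Finset C(Z, ℂ)) (ε : ℝ) (hε : 0 < ε)
    (hstep : ∀ a ∈ F, ∀ k ≤ N, ∀ z, ‖a (r k z) - a (r (k + 1) z)‖ ≤ ε) (δ : ℝ) (hδ : 0 < δ) :
    ∃ u ∈ M.E Set.univ, ‖star u * u - 1‖ ≤ δ ∧ ‖u * star u - 1‖ ≤ δ ∧
      ∀ a ∈ F, ‖M.inc (a.comp θ) * u - u * M.inc a‖ ≤ 15 * ε := by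
  classical
  let F' : Finset C(Z, ℂ) :=
    ((F ∪ F.image star) ×ˢ Finset.range (N + 2)).image (fun p => p.1.comp (r p.2))
  have hF1 : ∀ a ∈ F, ∀ k ≤ N + 1, a.comp (r k) ∈ F' := fun a ha k hk =>
    Finset.mem_image.2 ⟨(a, k), Finset.mem_product.2 ⟨Finset.mem_union_left _ ha,
      Finset.mem_range.2 (by omega)⟩, rfl⟩
  have hF2 : ∀ a ∈ F, ∀ k ≤ N + 1, star (a.comp (r k)) ∈ F' := fun a ha k hk =>
    Finset.mem_image.2 ⟨(star a, k), Finset.mem_product.2 ⟨Finset.mem_union_right _
      (Finset.mem_image_of_mem _ ha), Finset.mem_range.2 (by omega)⟩, rfl⟩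
  have hr0' : ∀ a : C(Z, ℂ), a.comp (r 0) = a := fun a => by
    rw [hr0]; rfl
  have hF3 : ∀ a ∈ F, a ∈ F' := fun a ha => by
    have := hF1 a ha 0 (by omega)
    rwa [hr0'] at this
  have hF4 : ∀ a ∈ F, star a ∈ F' := fun a ha => by
    have := hF2 a ha 0 (by omega)
    rwa [hr0'] at this
  choose U w v hUm hwm hvm hU hw1 hw2 hv0 hv5 hUa hwa hva hvv hgv using fun n : ℕ =>
    M.exists_data θ hθ N r hr0 F' (1 / ((n : ℝ) + 1)) (by positivity)
  have ho : Tendsto (fun n : ℕ => 1 / ((n : ℝ) + 1)) atTop (𝓝 0) :=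
    tendsto_one_div_add_atTop_nhds_zero_nat
  have hwn : ∀ n, ‖w n‖ ≤ 1 := fun n => by
    have h1 : ‖w n‖ * ‖w n‖ = ‖(1 : K →L[ℂ] K)‖ := by
      rw [← hw1 n, CStarRing.norm_star_mul_self]
    have h2 : ‖(1 : K →L[ℂ] K)‖ ≤ 1 := ContinuousLinearMap.norm_id_le
    nlinarith [norm_nonneg (w n)]
  have hUs : ∀ n, ‖star (U n)‖ ≤ 1 := fun n => by rw [norm_star]; exact hU n
  -- the lifts
  let Uh := propA_lift U 1 hU
  let fh := propA_lift (fun n => dft (U n)) 1 (fun n => dft_norm _ (hU n))
  let gh := propA_lift (fun n => dft (star (U n))) 1 (fun n => dft_norm _ (hUs n))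
  let wh := propA_lift w 1 hwn
  let vh : Idx N → BoundedContinuousFunction ℕ (K →L[ℂ] K) := fun x =>
    propA_lift (fun n => v n x) 5 (fun n => propA_row_bound (v n) (hv5 n) x)
  have hn : ∀ n, Rel0 (U n) (dft (U n)) (dft (star (U n))) (w n) := fun n =>
    { fs := dft_sa _
      gs := dft_sa _
      ff := dft_sq _ (hU n)
      gg := by rw [dft_sq _ (hUs n), star_star]
      Uf := dft_inter _ (hU n)
      fU := dft_inter' _ (hU n)
      ww := hw1 n
      ww' := hw2 n }
  have hR0 : Rel0 Uh fh gh wh :=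
    { fs := BoundedContinuousFunction.ext fun n => (hn n).fs
      gs := BoundedContinuousFunction.ext fun n => (hn n).gs
      ff := BoundedContinuousFunction.ext fun n => (hn n).ff
      gg := BoundedContinuousFunction.ext fun n => (hn n).gg
      Uf := BoundedContinuousFunction.ext fun n => (hn n).Uf
      fU := BoundedContinuousFunction.ext fun n => (hn n).fU
      ww := BoundedContinuousFunction.ext fun n => (hn n).ww
      ww' := BoundedContinuousFunction.ext fun n => (hn n).ww' }
  let π : BoundedContinuousFunction ℕ (K →L[ℂ] K) →+* Q (K →L[ℂ] K) := propA_pi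
  have hπ : ∀ x, π (star x) = star (π x) := propA_pi_star
  have hQ0 : Rel0 (π Uh) (π fh) (π gh) (π wh) := propA_Rel0 π hπ hR0
  have hvb : ∀ x y, x ≠ Sum.inl 0 → y ≠ Sum.inl 0 →
      ∀ b : BoundedContinuousFunction ℕ (K →L[ℂ] K),
      (∀ n, b n ∈ ({dft (U n), dft (star (U n)), w n - U n, star (w n - U n),
        star (U n) * (w n - U n)} : Set (K →L[ℂ] K))) →
      star (π (vh x)) * π (vh y) * π b = if x = y then π b else 0 := by
    intro x y hx hy b hb
    rw [← hπ, ← map_mul, ← map_mul]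
    have e : (if x = y then π b else 0) = π (if x = y then b else 0) := by
      split_ifs <;> simp
    rw [e]
    refine propA_pi_eq_of _ _ _ ho fun n => ?_
    have h1 := hvv n x y hx hy (b n) (hb n)
    have h2 : (if x = y then b else 0 : BoundedContinuousFunction ℕ (K →L[ℂ] K)) n =
        if x = y then b n else 0 := by
      split_ifs <;> rfl
    rw [h2]
    exact h1
  have hQ1 : Rel1 (π Uh) (π fh) (π gh) (π wh) (fun x => π (vh x)) :=
    { v0 := by
        have : vh (Sum.inl 0) = 1 := BoundedContinuousFunction.ext fun n => hv0 n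
        show π (vh (Sum.inl 0)) = 1
        rw [this, map_one]
      vf := fun x y hx hy => hvb x y hx hy fh fun n => Or.inl rfl
      vg := fun x y hx hy => hvb x y hx hy gh fun n => Or.inr (Or.inl rfl)
      vw := fun x y hx hy => by
        rw [← map_sub]
        exact hvb x y hx hy (wh - Uh) fun n => Or.inr (Or.inr (Or.inl rfl))
      vws := fun x y hx hy => by
        rw [← map_sub, ← hπ]
        exact hvb x y hx hy (star (wh - Uh)) fun n => Or.inr (Or.inr (Or.inr (Or.inl rfl)))
      vUw := fun x y hx hy => by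
        rw [← map_sub, ← hπ, ← map_mul]
        exact hvb x y hx hy (star Uh * (wh - Uh))
          fun n => Or.inr (Or.inr (Or.inr (Or.inr rfl)))
      gv := fun x hx => by
        show π gh * π (vh x) = 0
        rw [← map_mul, ← map_zero π]
        refine propA_pi_eq_of _ _ _ ho fun n => ?_
        have h1 := hgv n x hx
        show ‖dft (star (U n)) * v n x - 0‖ ≤ _
        rw [sub_zero]
        exact h1 }
  -- the element
  obtain ⟨uh, huh⟩ : ∃ x : BoundedContinuousFunction ℕ (K →L[ℂ] K),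
      x = uM Uh fh gh wh vh () () := ⟨_, rfl⟩
  have hun : ∀ n, uh n = uM (U n) (dft (U n)) (dft (star (U n))) (w n) (v n) () () := fun n => by
    rw [huh]
    exact congrFun (congrFun (propA_uM (propA_ev n) (propA_ev_star n) Uh fh gh wh vh) ()) ()
  have hmem : ∀ n, uh n ∈ M.E Set.univ := fun n => by
    rw [hun]
    exact propA_mem _ (hUm n) (dft_mem _ _ (M.isClosed_E _) (hUm n))
      (dft_mem _ _ (M.isClosed_E _) (star_mem (hUm n))) (hwm n) (hvm n)
  have hunit := propA_unit π hπ hQ0 hQ1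
  rw [← huh] at hunit
  have ht1 : Tendsto (fun n => ‖star (uh n) * uh n - 1‖) atTop (𝓝 0) :=
    (propA_pi_eq (star uh * uh) 1).1 hunit.1
  have ht2 : Tendsto (fun n => ‖uh n * star (uh n) - 1‖) atTop (𝓝 0) :=
    (propA_pi_eq (uh * star uh) 1).1 hunit.2
  have hst : ∀ (b : C(Z, ℂ)) (t : C(Z, Z)), star ((star b).comp t) = b.comp t := fun b t => by
    ext z
    simp
  -- intertwining
  have ht3 : ∀ a ∈ F, ∀ᶠ n in atTop, ‖M.inc (a.comp θ) * uh n - uh n * M.inc a‖ ≤ 15 * ε := by
    intro a ha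
    let φ : ℕ → BoundedContinuousFunction ℕ (K →L[ℂ] K) := fun k =>
      propA_lift (fun _ => M.inc ((a.comp (r k)).comp θ)) _ (fun _ => le_rfl)
    let ψ : ℕ → BoundedContinuousFunction ℕ (K →L[ℂ] K) := fun k =>
      propA_lift (fun _ => M.inc (a.comp (r k))) _ (fun _ => le_rfl)
    have hE1 : ∀ k ≤ N + 1, ∀ n, ‖M.inc ((a.comp (r k)).comp θ) * U n - U n * M.inc (a.comp (r k))‖
        ≤ 1 / ((n : ℝ) + 1) := fun k hk n => hUa n _ (hF1 a ha k hk)
    have hE2 : ∀ k ≤ N + 1, ∀ n, ‖M.inc (a.comp (r k)) * star (U n) -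
        star (U n) * M.inc ((a.comp (r k)).comp θ)‖ ≤ 1 / ((n : ℝ) + 1) := by
      intro k hk n
      have h1 := hUa n _ (hF2 a ha k hk)
      rw [← norm_star] at h1
      have h2 : star (M.inc ((star (a.comp (r k))).comp θ) * U n -
          U n * M.inc (star (a.comp (r k)))) = star (U n) * M.inc ((a.comp (r k)).comp θ) -
            M.inc (a.comp (r k)) * star (U n) := by
        rw [star_sub, star_mul, star_mul, ← map_star, ← map_star, star_star, hst]
      rw [h2, norm_sub_rev] at h1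
      exact h1
    have hC : ∀ b : C(Z, ℂ), ‖M.inc b‖ ≤ ‖b‖ := fun b => NonUnitalStarAlgHom.norm_apply_le _ b
    have hdf : ∀ k ≤ N + 1, π (φ k) * π fh = π fh * π (φ k) := by
      intro k hk
      rw [← map_mul, ← map_mul, propA_pi_eq]
      rw [Metric.tendsto_atTop]
      intro e he
      obtain ⟨η, hη, H⟩ := dft_comm (max ‖(a.comp (r k)).comp θ‖ ‖a.comp (r k)‖) (e / 2)
        (by positivity)
      obtain ⟨n0, hn0⟩ := (Metric.tendsto_atTop.1 ho) η hη
      refine ⟨n0, fun n hn => ?_⟩
      have h1 := hn0 n hn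
      rw [Real.dist_eq, sub_zero, abs_of_nonneg (by positivity)] at h1
      have h2 := H _ (U n) (M.inc ((a.comp (r k)).comp θ)) (M.inc (a.comp (r k))) (hU n)
        ((hC _).trans (le_max_left _ _)) ((hC _).trans (le_max_right _ _))
        ((hE1 k hk n).trans h1.le) ((hE2 k hk n).trans h1.le)
      rw [dist_zero_right, norm_norm]
      exact h2.trans_lt (by linarith)
    have hdg : ∀ k ≤ N + 1, π (ψ k) * π gh = π gh * π (ψ k) := by
      intro k hk
      rw [← map_mul, ← map_mul, propA_pi_eq]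
      rw [Metric.tendsto_atTop]
      intro e he
      obtain ⟨η, hη, H⟩ := dft_comm (max ‖(a.comp (r k)).comp θ‖ ‖a.comp (r k)‖) (e / 2)
        (by positivity)
      obtain ⟨n0, hn0⟩ := (Metric.tendsto_atTop.1 ho) η hη
      refine ⟨n0, fun n hn => ?_⟩
      have h1 := hn0 n hn
      rw [Real.dist_eq, sub_zero, abs_of_nonneg (by positivity)] at h1
      have h2 := H _ (star (U n)) (M.inc (a.comp (r k))) (M.inc ((a.comp (r k)).comp θ)) (hUs n)
        ((hC _).trans (le_max_right _ _)) ((hC _).trans (le_max_left _ _))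
        ((hE2 k hk n).trans h1.le) (by rw [star_star]; exact (hE1 k hk n).trans h1.le)
      rw [dist_zero_right, norm_norm]
      exact h2.trans_lt (by linarith)
    have hdgx : ∀ x : Idx N, dg N (fun k => π (ψ k)) (fun k => π (φ k)) x =
        π (propA_lift (fun _ => M.inc (a.comp (tmap r θ x))) _ (fun _ => le_rfl)) := by
      intro x
      rcases x with k | j <;> rfl
    have hR2 : Rel2 (π Uh) (π fh) (π gh) (π wh) (fun x => π (vh x)) (fun k => π (φ k))
        (fun k => π (ψ k)) :=
      { U1 := fun k hk => by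
          show π (φ k) * π Uh = π Uh * π (ψ k)
          rw [← map_mul, ← map_mul]
          exact propA_pi_eq_of _ _ _ ho fun n => hE1 k hk n
        U2 := fun k hk => by
          show π (ψ k) * star (π Uh) = star (π Uh) * π (φ k)
          rw [← hπ, ← map_mul, ← map_mul]
          exact propA_pi_eq_of _ _ _ ho fun n => hE2 k hk n
        ff := hdf
        gg := hdg
        ww := by
          show π (φ (N + 1)) * π wh = π wh * π (ψ (N + 1))
          have hb : (a.comp (r (N + 1))).comp θ = a.comp (r (N + 1)) := by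
            rw [ContinuousMap.comp_assoc, hlast]
          rw [← map_mul, ← map_mul]
          refine propA_pi_eq_of _ _ _ ho fun n => ?_
          have h1 := hwa n _ (hF1 a ha (N + 1) le_rfl) hb
          show ‖M.inc ((a.comp (r (N + 1))).comp θ) * w n - w n * M.inc (a.comp (r (N + 1)))‖ ≤ _
          rw [hb]
          exact h1
        v1 := fun x => by
          rw [hdgx]
          show π (ψ 0) * π (vh x) = π (vh x) * _
          rw [← map_mul, ← map_mul]
          refine propA_pi_eq_of _ _ _ ho fun n => ?_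
          show ‖M.inc (a.comp (r 0)) * v n x - v n x * M.inc (a.comp (tmap r θ x))‖ ≤ _
          rw [hr0']
          exact hva n x a (hF3 a ha)
        v2 := fun x => by
          rw [hdgx]
          show star (π (vh x)) * π (ψ 0) = _ * star (π (vh x))
          rw [← hπ, ← map_mul, ← map_mul]
          refine propA_pi_eq_of _ _ _ ho fun n => ?_
          show ‖star (v n x) * M.inc (a.comp (r 0)) -
            M.inc (a.comp (tmap r θ x)) * star (v n x)‖ ≤ _
          rw [hr0']
          have h1 := hva n x _ (hF4 a ha)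
          rw [← norm_star] at h1
          have h2 : star (M.inc (star a) * v n x - v n x * M.inc ((star a).comp (tmap r θ x))) =
              star (v n x) * M.inc a - M.inc (a.comp (tmap r θ x)) * star (v n x) := by
            rw [star_sub, star_mul, star_mul, ← map_star, ← map_star, star_star, hst]
          rw [h2] at h1
          exact h1 }
    let o1 : Idx N → BoundedContinuousFunction ℕ (K →L[ℂ] K) := fun x =>
      dg N φ ψ x - dg N (fun k => φ (k + 1)) ψ x
    let o2 : Idx N → BoundedContinuousFunction ℕ (K →L[ℂ] K) := fun x =>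
      dg N ψ φ x - dg N (fun k => ψ (k + 1)) φ x
    have hfin0 := propA_inter π hπ hQ0 hQ1.v0 hR2
    rw [← huh] at hfin0
    obtain ⟨E1, hE1⟩ : ∃ x, x =
      (Prow Uh fh gh vh * diagonal o1 * Gm N Uh fh gh wh * (rowM vh)ᴴ) () () := ⟨_, rfl⟩
    obtain ⟨E2, hE2⟩ : ∃ x, x =
      (Prow Uh fh gh vh * Gm N Uh fh gh wh * diagonal o2 * (rowM vh)ᴴ) () () := ⟨_, rfl⟩
    have hfin : π (φ 0 * uh - uh * ψ 0) = π (E1 - E2) := by
      rw [hE1, hE2]
      exact hfin0
    have hE1n : ∀ n, E1 n = (Prow (U n) (dft (U n)) (dft (star (U n))) (v n) *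
        diagonal (fun x => o1 x n) * Gm N (U n) (dft (U n)) (dft (star (U n))) (w n) *
          (rowM (v n))ᴴ) () () := fun n => by
      rw [hE1]
      exact
        congrFun (congrFun (propA_err (propA_ev n) (propA_ev_star n) Uh fh gh wh vh o1).1 ()) ()
    have hE2n : ∀ n, E2 n = (Prow (U n) (dft (U n)) (dft (star (U n))) (v n) *
        Gm N (U n) (dft (U n)) (dft (star (U n))) (w n) * diagonal (fun x => o2 x n) *
          (rowM (v n))ᴴ) () () := fun n => by
      rw [hE2]
      exact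
        congrFun (congrFun (propA_err (propA_ev n) (propA_ev_star n) Uh fh gh wh vh o2).2 ()) ()
    have ho1 : ∀ n x, ‖o1 x n‖ ≤ ε := by
      intro n x
      rcases x with k | j
      · show ‖M.inc ((a.comp (r k)).comp θ) - M.inc ((a.comp (r (k + 1))).comp θ)‖ ≤ ε
        rw [← map_sub]
        refine (hC _).trans ?_
        rw [ContinuousMap.norm_le _ hε.le]
        intro z
        exact hstep a ha k (by omega) (θ z)
      · show ‖M.inc (a.comp (r (j + 1))) - M.inc (a.comp (r (j + 1)))‖ ≤ ε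
        rw [sub_self, norm_zero]
        exact hε.le
    have ho2 : ∀ n x, ‖o2 x n‖ ≤ ε := by
      intro n x
      rcases x with k | j
      · show ‖M.inc (a.comp (r k)) - M.inc (a.comp (r (k + 1)))‖ ≤ ε
        rw [← map_sub]
        refine (hC _).trans ?_
        rw [ContinuousMap.norm_le _ hε.le]
        intro z
        exact hstep a ha k (by omega) z
      · show ‖M.inc ((a.comp (r (j + 1))).comp θ) - M.inc ((a.comp (r (j + 1))).comp θ)‖ ≤ ε
        rw [sub_self, norm_zero]
        exact hε.le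
    have hb1 : ∀ n, ‖E1 n‖ ≤ 7 * ε := fun n => by
      rw [hE1n]
      exact (row_est (hn n) (hU n) (v n) (hv0 n) (hv5 n) _ ε hε.le (ho1 n)).1
    have hb2 : ∀ n, ‖E2 n‖ ≤ 7 * ε := fun n => by
      rw [hE2n]
      exact (row_est (hn n) (hU n) (v n) (hv0 n) (hv5 n) _ ε hε.le (ho2 n)).2
    have ht := (propA_pi_eq (φ 0 * uh - uh * ψ 0) (E1 - E2)).1 hfin
    have hev := (tendsto_order.1 ht).2 ε hε
    filter_upwards [hev] with n hn'
    have h3 : (φ 0 * uh - uh * ψ 0) n = M.inc (a.comp θ) * uh n - uh n * M.inc a := by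
      show M.inc ((a.comp (r 0)).comp θ) * uh n - uh n * M.inc (a.comp (r 0)) = _
      rw [hr0']
    have h4 : (E1 - E2) n = E1 n - E2 n := rfl
    rw [h3, h4] at hn'
    have h5 : M.inc (a.comp θ) * uh n - uh n * M.inc a =
        (M.inc (a.comp θ) * uh n - uh n * M.inc a - (E1 n - E2 n)) + (E1 n - E2 n) := by
      abel
    rw [h5]
    calc _ ≤ ‖M.inc (a.comp θ) * uh n - uh n * M.inc a - (E1 n - E2 n)‖ + ‖E1 n - E2 n‖ :=
          norm_add_le _ _
      _ ≤ ε + (7 * ε + 7 * ε) := add_le_add hn'.le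
          ((norm_sub_le _ _).trans (add_le_add (hb1 n) (hb2 n)))
      _ = 15 * ε := by ring
  have hall : ∀ᶠ n in atTop, ∀ a ∈ F, ‖M.inc (a.comp θ) * uh n - uh n * M.inc a‖ ≤ 15 * ε :=
    (Filter.eventually_all_finset F).2 ht3
  obtain ⟨n, ⟨hn1, hn2⟩, hn3⟩ :=
    (((tendsto_order.1 ht1).2 δ hδ).and ((tendsto_order.1 ht2).2 δ hδ)).and hall |>.exists
  exact ⟨uh n, hmem n, hn1.le, hn2.le, hn3⟩

end FModel
end H47
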