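import Pool.Agent.H.MP_47f0a1_an.ScPoly
import Pool.Agent.H.MP_47f0a1_an.ModelFree

/-!
# The distribution of the semicircular elements
-/

open scoped InnerProductSpace

namespace H47
namespace FModel

variable {A : Type*} [Ring A] [StarRing A] [Algebra ℂ A] [StarModule ℂ A]
  {τ : A →ₗ[ℂ] ℂ} {K : Type*} [NormedAddCommGroup K] [InnerProductSpace ℂ K]
  [CompleteSpace K] (M : FModel A τ K)

/-- The Chebyshev polynomials. -/
noncomputable def scCfcP : ℕ → Polynomial ℂ
  | 0 => 1
  | 1 => Polynomial.X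
  | n + 2 => Polynomial.X * scCfcP (n + 1) - scCfcP n

theorem scCfc_aeval (j : ℕ) (n : ℕ) :
    (Polynomial.aeval (M.s j) (scCfcP n)) M.Om = ((M.ell j) ^ n) M.Om ∧
    (Polynomial.aeval (M.s j) (scCfcP (n + 1))) M.Om = ((M.ell j) ^ (n + 1)) M.Om := by
  have hiso : ∀ ξ : K, (star (M.ell j)) (M.ell j ξ) = ξ := by
    intro ξ
    have h := congrArg (fun T : K →L[ℂ] K => T ξ) (M.ell_isom j)
    simpa using h
  have hs : ∀ ξ : K, M.s j ξ = M.ell j ξ + (star (M.ell j)) ξ := by
    intro ξ
    simp [s]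
  induction n with
  | zero =>
    refine ⟨by simp [scCfcP], ?_⟩
    simp [scCfcP, hs, M.ell_star_Om]
  | succ n ih =>
    refine ⟨ih.2, ?_⟩
    have h2 : scCfcP (n + 2) = Polynomial.X * scCfcP (n + 1) - scCfcP n := rfl
    rw [show n + 1 + 1 = n + 2 from rfl, h2, map_sub, map_mul, Polynomial.aeval_X]
    rw [ContinuousLinearMap.sub_apply, ContinuousLinearMap.mul_apply, ih.1, ih.2, hs]
    rw [pow_succ' (M.ell j) (n + 1), pow_succ' (M.ell j) n]
    simp only [ContinuousLinearMap.mul_apply]
    rw [hiso]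
    abel

/-- Polynomial moments. Proof: `sc_unique` for `L q = st (q(s))`. With the Chebyshev polynomials
`p n`, `p n (s) Ω = ℓⁿ Ω` (as in `exists_cheb`, by induction) and `⟨Ω, ℓⁿ Ω⟩ = δ_{n0}`. -/
theorem st_poly_s (j : ℕ) (q : Polynomial ℂ) :
    M.st (Polynomial.aeval (M.s j) q) = sc (fun x => q.eval (x : ℂ)) := by
  have h := sc_unique (M.st ∘ₗ (Polynomial.aeval (M.s j)).toLinearMap) scCfcP rfl rfl
    (fun n => rfl) ?_ q
  · simpa using h
  · intro n
    rw [LinearMap.comp_apply, AlgHom.toLinearMap_apply, st_apply, (M.scCfc_aeval j n).1]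
    rcases n with _ | n
    · simp [M.norm_Om]
    · rw [pow_succ' (M.ell j) n, ContinuousLinearMap.mul_apply,
        ← ContinuousLinearMap.adjoint_inner_left, ← ContinuousLinearMap.star_eq_adjoint,
        M.ell_star_Om]
      simp

/-- Continuous functions. Proof: the spectrum of the selfadjoint operator `s = s_j` lies in the real
interval `[-2, 2]` (`norm_s_le`). Both sides are linear in `f` and bounded by the supremum of `‖f‖`
on `[-2,2]` (note that `∫_0^π (2/π) sin² t dt = 1`); polynomials are dense (Weierstrass: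
`polynomialFunctions_closure_eq_top`, applied to the real and imaginary parts, or
`polynomialFunctions.starClosure_topologicalClosure`), and for them it is `st_poly_s`
(`cfc_polynomial`/`cfc_aeval`). -/
theorem st_cfc_s (j : ℕ) (f : ℂ → ℂ) (hf : Continuous f) :
    M.st (cfc f (M.s j)) = sc (fun x => f (x : ℂ)) := by
  have hsa : IsSelfAdjoint (M.s j) := M.s_star j
  have hn : IsStarNormal (M.s j) := hsa.isStarNormal
  -- the spectrum
  have hspec : ∀ z ∈ spectrum ℂ (M.s j), ∃ x : ℝ, x ∈ Set.Icc (-2 : ℝ) 2 ∧ z = (x : ℂ) := by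
    intro z hz
    have h1 : z = (z.re : ℂ) := hsa.mem_spectrum_eq_re hz
    refine ⟨z.re, ?_, h1⟩
    have h2 : ‖z‖ ≤ ‖M.s j‖ * ‖(1 : K →L[ℂ] K)‖ := spectrum.norm_le_norm_mul_of_mem hz
    have h3 : ‖(1 : K →L[ℂ] K)‖ ≤ 1 := ContinuousLinearMap.norm_id_le
    have h4 : ‖z‖ ≤ 2 := by
      have := M.norm_s_le j
      nlinarith [norm_nonneg (M.s j), norm_nonneg (1 : K →L[ℂ] K)]
    have h5 : |z.re| ≤ 2 := le_trans (Complex.abs_re_le_norm z) h4
    exact abs_le.1 h5
  -- approximation
  have key : ∀ ε : ℝ, 0 < ε → ‖M.st (cfc f (M.s j)) - sc (fun x => f (x : ℂ))‖ ≤ 3 * ε := by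
    intro ε hε
    obtain ⟨p1, hp1⟩ := exists_polynomial_near_of_continuousOn (-2) 2
      (fun x : ℝ => (f (x : ℂ)).re)
      (Complex.continuous_re.comp (hf.comp Complex.continuous_ofReal)).continuousOn (ε / 2)
      (by positivity)
    obtain ⟨p2, hp2⟩ := exists_polynomial_near_of_continuousOn (-2) 2
      (fun x : ℝ => (f (x : ℂ)).im)
      (Complex.continuous_im.comp (hf.comp Complex.continuous_ofReal)).continuousOn (ε / 2)
      (by positivity)
    set q : Polynomial ℂ := p1.map (algebraMap ℝ ℂ) + Polynomial.C Complex.I *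
      p2.map (algebraMap ℝ ℂ) with hq
    have hqe : ∀ x : ℝ, q.eval (x : ℂ) = ((p1.eval x : ℝ) : ℂ) + Complex.I * ((p2.eval x : ℝ) : ℂ) := by
      intro x
      have e1 : ∀ r : Polynomial ℝ, (r.map (algebraMap ℝ ℂ)).eval (x : ℂ) = ((r.eval x : ℝ) : ℂ) := by
        intro r
        have := Polynomial.eval_map_algebraMap (B := ℂ) r (x : ℂ)
        rw [this]
        exact Polynomial.aeval_algebraMap_apply_eq_algebraMap_eval (A := ℂ) x r
      rw [hq, Polynomial.eval_add, Polynomial.eval_mul, Polynomial.eval_C, e1, e1]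
    have hnear : ∀ x ∈ Set.Icc (-2 : ℝ) 2, ‖q.eval (x : ℂ) - f (x : ℂ)‖ ≤ ε := by
      intro x hx
      have h1 := hp1 x hx
      have h2 := hp2 x hx
      have h3 : q.eval (x : ℂ) - f (x : ℂ) =
          ((p1.eval x - (f (x : ℂ)).re : ℝ) : ℂ) +
            Complex.I * ((p2.eval x - (f (x : ℂ)).im : ℝ) : ℂ) := by
        rw [hqe]
        apply Complex.ext
        · simp
        · simp
      rw [h3]
      refine le_trans (norm_add_le _ _) ?_
      rw [norm_mul, Complex.norm_I, one_mul, Complex.norm_real, Complex.norm_real,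
        Real.norm_eq_abs, Real.norm_eq_abs]
      linarith
    have e1 : ‖M.st (cfc f (M.s j)) - M.st (Polynomial.aeval (M.s j) q)‖ ≤ ε := by
      rw [← map_sub]
      refine le_trans (M.norm_st_le _) ?_
      rw [← cfc_polynomial q (M.s j) hn, ← cfc_sub f q.eval (M.s j)
        hf.continuousOn q.continuous.continuousOn]
      refine norm_cfc_le hε.le ?_
      intro z hz
      obtain ⟨x, hx, rfl⟩ := hspec z hz
      rw [norm_sub_rev]
      exact hnear x hx
    have e2 : ‖sc (fun x => q.eval (x : ℂ)) - sc (fun x => f (x : ℂ))‖ ≤ 2 * ε := by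
      have hi1 : IntervalIntegrable (fun t => q.eval ((2 * Real.cos t : ℝ) : ℂ) *
          ((2 / Real.pi * Real.sin t ^ 2 : ℝ) : ℂ)) MeasureTheory.volume 0 Real.pi := by
        apply Continuous.intervalIntegrable
        have := q.continuous
        fun_prop
      have hi2 : IntervalIntegrable (fun t => f ((2 * Real.cos t : ℝ) : ℂ) *
          ((2 / Real.pi * Real.sin t ^ 2 : ℝ) : ℂ)) MeasureTheory.volume 0 Real.pi := by
        apply Continuous.intervalIntegrable
        fun_prop
      have h0 : sc (fun x => q.eval (x : ℂ)) - sc (fun x => f (x : ℂ)) =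
          ∫ t in (0:ℝ)..Real.pi, (q.eval ((2 * Real.cos t : ℝ) : ℂ) -
            f ((2 * Real.cos t : ℝ) : ℂ)) * ((2 / Real.pi * Real.sin t ^ 2 : ℝ) : ℂ) := by
        unfold sc
        rw [← intervalIntegral.integral_sub hi1 hi2]
        congr 1
        ext t
        ring
      rw [h0]
      have h1 := intervalIntegral.norm_integral_le_of_norm_le_const (a := 0) (b := Real.pi)
        (C := ε * (2 / Real.pi)) (f := fun t => (q.eval ((2 * Real.cos t : ℝ) : ℂ) -
            f ((2 * Real.cos t : ℝ) : ℂ)) * ((2 / Real.pi * Real.sin t ^ 2 : ℝ) : ℂ)) ?_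
      · refine le_trans h1 (le_of_eq ?_)
        rw [sub_zero, abs_of_pos Real.pi_pos]
        field_simp
      · intro t _
        rw [norm_mul, Complex.norm_real, Real.norm_eq_abs]
        have hpi := Real.pi_pos
        have h2 : |2 / Real.pi * Real.sin t ^ 2| ≤ 2 / Real.pi := by
          rw [abs_of_nonneg (by positivity)]
          have h3 : Real.sin t ^ 2 ≤ 1 := Real.sin_sq_le_one t
          have h4 : 0 ≤ 2 / Real.pi := by positivity
          nlinarith
        have h5 : ‖q.eval ((2 * Real.cos t : ℝ) : ℂ) - f ((2 * Real.cos t : ℝ) : ℂ)‖ ≤ ε := by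
          apply hnear
          constructor
          · nlinarith [Real.neg_one_le_cos t]
          · nlinarith [Real.cos_le_one t]
        exact mul_le_mul h5 h2 (abs_nonneg _) hε.le
    rw [M.st_poly_s j q] at e1
    calc ‖M.st (cfc f (M.s j)) - sc (fun x => f (x : ℂ))‖
        = ‖(M.st (cfc f (M.s j)) - sc (fun x => q.eval (x : ℂ))) +
          (sc (fun x => q.eval (x : ℂ)) - sc (fun x => f (x : ℂ)))‖ := by
            congr 1
            ring
      _ ≤ _ := norm_add_le _ _
      _ ≤ 3 * ε := by linarith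
  have h0 : ‖M.st (cfc f (M.s j)) - sc (fun x => f (x : ℂ))‖ ≤ 0 := by
    refine le_of_forall_pos_le_add ?_
    intro ε hε
    have := key (ε / 3) (by positivity)
    linarith
  exact sub_eq_zero.1 (norm_le_zero_iff.1 h0)

end FModel
end H47
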