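import Mathlib

/-!
# The distribution function of the semicircle law
-/

namespace H47

theorem semig_deriv (t : ℝ) : HasDerivAt (fun t : ℝ => (t - Real.sin t * Real.cos t) / Real.pi)
    (2 / Real.pi * Real.sin t ^ 2) t := by
  have h := (((hasDerivAt_id t).sub ((Real.hasDerivAt_sin t).mul (Real.hasDerivAt_cos t))).div_const
    Real.pi)
  refine h.congr_deriv ?_
  have h2 := Real.sin_sq_add_cos_sq t
  have h3 : Real.cos t ^ 2 = 1 - Real.sin t ^ 2 := by linarith
  have h4 : (1 - (Real.cos t * Real.cos t + Real.sin t * -Real.sin t)) =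
      2 * Real.sin t ^ 2 := by
    have : Real.cos t * Real.cos t = Real.cos t ^ 2 := by ring
    rw [this, h3]
    ring
  rw [h4]
  ring

theorem semig_mono : StrictMonoOn (fun t : ℝ => (t - Real.sin t * Real.cos t) / Real.pi)
    (Set.Icc 0 Real.pi) := by
  refine strictMonoOn_of_deriv_pos (convex_Icc _ _)
    (fun t _ => (semig_deriv t).continuousAt.continuousWithinAt) ?_
  intro t ht
  rw [interior_Icc] at ht
  rw [(semig_deriv t).deriv]
  have h := Real.sin_pos_of_pos_of_lt_pi ht.1 ht.2
  have hpi := Real.pi_pos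
  positivity

theorem semig_zero : ((0 : ℝ) - Real.sin 0 * Real.cos 0) / Real.pi = 0 := by
  simp

theorem semig_pi : (Real.pi - Real.sin Real.pi * Real.cos Real.pi) / Real.pi = 1 := by
  rw [Real.sin_pi, zero_mul, sub_zero, div_self Real.pi_pos.ne']

theorem semig_mem {t : ℝ} (ht : t ∈ Set.Icc 0 Real.pi) :
    (t - Real.sin t * Real.cos t) / Real.pi ∈ unitInterval := by
  have h0 : (0 : ℝ) ∈ Set.Icc 0 Real.pi := ⟨le_rfl, Real.pi_pos.le⟩
  have h1 : Real.pi ∈ Set.Icc 0 Real.pi := ⟨Real.pi_pos.le, le_rfl⟩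
  have h2 : ((0 : ℝ) - Real.sin 0 * Real.cos 0) / Real.pi ≤ (t - Real.sin t * Real.cos t) / Real.pi :=
    semig_mono.monotoneOn h0 ht ht.1
  have h3 : (t - Real.sin t * Real.cos t) / Real.pi ≤
      (Real.pi - Real.sin Real.pi * Real.cos Real.pi) / Real.pi :=
    semig_mono.monotoneOn ht h1 ht.2
  rw [semig_zero] at h2
  rw [semig_pi] at h3
  exact ⟨h2, h3⟩

/-- The distribution function of the semicircle law in the angle parameter is a homeomorphism of
`[0, π]` onto `[0, 1]`: `G t = (t - sin t cos t)/π`. There are continuous maps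
`g : ℝ → [0,1]` with `g t = G t` on `[0, π]` and `b : [0,1] → ℝ` with `b (g t) = t` for `t ∈ [0, π]`.

Proof. `G' (t) = 2 sin² t/π > 0` on `(0, π)`, so `G` is strictly increasing on `[0, π]`
(`strictMonoOn_of_deriv_pos`), `G 0 = 0`, `G π = 1`; a continuous strictly monotone bijection
between compact intervals has a continuous inverse (`Continuous.homeoOfEquivCompactToT2`, or
`StrictMonoOn.orderIso` and `OrderIso.continuous`). Take `g t = G (proj t)`. -/
theorem exists_G : ∃ (g : C(ℝ, unitInterval)) (b : C(unitInterval, ℝ)),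
    (∀ t ∈ Set.Icc (0:ℝ) Real.pi, ((g t : unitInterval) : ℝ) =
      (t - Real.sin t * Real.cos t) / Real.pi) ∧
    (∀ t ∈ Set.Icc (0:ℝ) Real.pi, b (g t) = t) := by
  have hcont : Continuous fun t : ℝ => (t - Real.sin t * Real.cos t) / Real.pi :=
    continuous_iff_continuousAt.mpr fun t => (semig_deriv t).continuousAt
  let e : Set.Icc (0 : ℝ) Real.pi → unitInterval := fun t =>
    ⟨((t : ℝ) - Real.sin t * Real.cos t) / Real.pi, semig_mem t.2⟩
  have he : Continuous e := (hcont.comp continuous_subtype_val).subtype_mk _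
  have hbij : Function.Bijective e := by
    constructor
    · intro s t hst
      exact Subtype.ext (semig_mono.injOn s.2 t.2 (congrArg Subtype.val hst))
    · intro u
      have h := intermediate_value_Icc Real.pi_pos.le hcont.continuousOn
      have hu : (u : ℝ) ∈ Set.Icc (((0 : ℝ) - Real.sin 0 * Real.cos 0) / Real.pi)
          ((Real.pi - Real.sin Real.pi * Real.cos Real.pi) / Real.pi) := by
        rw [semig_zero, semig_pi]
        exact u.2
      obtain ⟨t, ht, htu⟩ := h hu
      exact ⟨⟨t, ht⟩, Subtype.ext htu⟩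
  let H : Set.Icc (0 : ℝ) Real.pi ≃ₜ unitInterval :=
    Continuous.homeoOfEquivCompactToT2 (f := Equiv.ofBijective e hbij) he
  refine ⟨⟨fun t => e (Set.projIcc 0 Real.pi Real.pi_pos.le t), he.comp continuous_projIcc⟩,
    ⟨fun u => (H.symm u : ℝ), continuous_subtype_val.comp H.symm.continuous⟩, ?_, ?_⟩
  · intro t ht
    have h : Set.projIcc 0 Real.pi Real.pi_pos.le t = ⟨t, ht⟩ := Set.projIcc_of_mem _ ht
    simp only [ContinuousMap.coe_mk]
    rw [h]
  · intro t ht
    have h : Set.projIcc 0 Real.pi Real.pi_pos.le t = ⟨t, ht⟩ := Set.projIcc_of_mem _ ht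
    simp only [ContinuousMap.coe_mk]
    rw [h]
    have h2 : H.symm (e ⟨t, ht⟩) = ⟨t, ht⟩ := H.symm_apply_apply ⟨t, ht⟩
    rw [h2]

/-- Change of variables: `∫_0^1 f = ∫_0^π f(g t) (2/π) sin² t dt`. Proof:
`intervalIntegral.integral_comp_mul_deriv` with `G t = (t - sin t cos t)/π`,
`G' t = (2/π) sin² t`, `G 0 = 0`, `G π = 1`; the integral over `unitInterval` is the integral over
`Set.Icc 0 1` of an extension of `f` (for instance `f ∘ Set.projIcc 0 1 _`),
`MeasureTheory.Measure.Subtype.volume_def`, `MeasureTheory.integral_subtype`. -/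
theorem integral_G (g : C(ℝ, unitInterval))
    (hg : ∀ t ∈ Set.Icc (0:ℝ) Real.pi, ((g t : unitInterval) : ℝ) =
      (t - Real.sin t * Real.cos t) / Real.pi) (f : C(unitInterval, ℂ)) :
    (∫ x, f x) = ∫ t in (0:ℝ)..Real.pi, f (g t) * ((2 / Real.pi * Real.sin t ^ 2 : ℝ) : ℂ) := by
  let F : ℝ → ℂ := fun y => f (Set.projIcc 0 1 zero_le_one y)
  have hF : Continuous F := f.continuous.comp continuous_projIcc
  have h1 : (∫ x, f x) = ∫ y in (0 : ℝ)..1, F y := by
    rw [intervalIntegral.integral_of_le zero_le_one, ← MeasureTheory.integral_Icc_eq_integral_Ioc]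
    have h := MeasureTheory.integral_subtype
      (measurableSet_Icc : MeasurableSet (Set.Icc (0 : ℝ) 1)) F
    rw [← h]
    refine MeasureTheory.integral_congr_ae (Filter.Eventually.of_forall fun x => ?_)
    change f x = f (Set.projIcc 0 1 zero_le_one (x : ℝ))
    rw [Set.projIcc_val]
  have h2 := intervalIntegral.integral_deriv_smul_comp (a := 0) (b := Real.pi)
    (f := fun t : ℝ => (t - Real.sin t * Real.cos t) / Real.pi)
    (f' := fun t : ℝ => 2 / Real.pi * Real.sin t ^ 2) (g := F)
    (fun x _ => semig_deriv x) (by fun_prop) hF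
  simp only [semig_zero, semig_pi] at h2
  rw [h1, ← h2]
  refine intervalIntegral.integral_congr fun t ht => ?_
  rw [Set.uIcc_of_le Real.pi_pos.le] at ht
  have h3 : Set.projIcc 0 1 zero_le_one ((t - Real.sin t * Real.cos t) / Real.pi) = g t := by
    rw [← hg t ht]
    exact Set.projIcc_val _ _
  change (2 / Real.pi * Real.sin t ^ 2) •
    f (Set.projIcc 0 1 zero_le_one ((t - Real.sin t * Real.cos t) / Real.pi)) = _
  rw [h3, Complex.real_smul, mul_comm]

end H47
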