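import Pool.Agent.H.MP_47f0a1_an.ScCfc
import Pool.Agent.H.MP_47f0a1_an.SemiG

/-!
# `C*(s_j)` is a copy of `C([0,1])` with Lebesgue measure
-/

open scoped InnerProductSpace

namespace H47

namespace FModel

variable {A : Type*} [Ring A] [StarRing A] [Algebra ℂ A] [StarModule ℂ A]
  {τ : A →ₗ[ℂ] ℂ} {K : Type*} [NormedAddCommGroup K] [InnerProductSpace ℂ K]
  [CompleteSpace K] (M : FModel A τ K)

/-- Existence of the copies of `C([0,1])`.

Proof. Let `c(x) = g (arccos (x/2))`, a continuous map from the spectrum of `s_j` (or from `ℂ`,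
`x ↦ g (arccos (re x/2))`) to `[0,1]`. Let `κ j` be the composition of
`ContinuousMap.compStarAlgHom' ℂ ℂ c : C([0,1], ℂ) → C(spectrum, ℂ)` and of `cfcHom` for `s_j`
(selfadjoint, so normal). Its values lie in `C*(s_j)` (`cfcHom_apply_mem_elemental` or similar).
`st (κ j f) = sc (f ∘ g ∘ arccos (·/2)) = ∫_0^π f (g t) (2/π) sin² t dt = ∫ f` by `st_cfc_s`,
`arccos (cos t) = t` on `[0,π]`, and `integral_G`. Finally `s_j = κ j f` for
`f u = 2 cos (b u)`, since for `x ∈ [-2,2]` (the spectrum, `norm_s_le`):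
`2 cos (b (g (arccos (x/2)))) = x`. -/
theorem exists_kap : ∃ κ : ℕ → C(unitInterval, ℂ) →⋆ₐ[ℂ] (K →L[ℂ] K),
    (∀ j f, κ j f ∈ StarAlgebra.elemental ℂ (M.s j)) ∧ (∀ j, ∃ f, κ j f = M.s j) ∧
      ∀ j f, M.st (κ j f) = ∫ x, f x := by
  obtain ⟨g, b, hg, hb⟩ := exists_G
  -- the continuous map `x ↦ g (arccos (re x / 2))`
  let C : C(ℂ, unitInterval) := g.comp ⟨fun x : ℂ => Real.arccos (x.re / 2), by fun_prop⟩
  have hC : ∀ x, C x = g (Real.arccos (x.re / 2)) := fun x => rfl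
  have hsa : ∀ j, IsSelfAdjoint (M.s j) := fun j => M.s_star j
  have hn : ∀ j, IsStarNormal (M.s j) := fun j => (hsa j).isStarNormal
  let κ : ℕ → C(unitInterval, ℂ) →⋆ₐ[ℂ] (K →L[ℂ] K) := fun j =>
    (cfcHom (R := ℂ) (hn j)).comp
      (ContinuousMap.compStarAlgHom' ℂ ℂ (C.restrict (spectrum ℂ (M.s j))))
  have hκ : ∀ j f, κ j f = cfc (fun x => f (C x)) (M.s j) := by
    intro j f
    rw [cfc_apply (fun x => f (C x)) (M.s j) (hn j) (by fun_prop)]
    rfl
  refine ⟨κ, fun j f => ?_, fun j => ?_, fun j f => ?_⟩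
  · exact cfcHom_mem_elemental (hn j) _
  · refine ⟨⟨fun u => ((2 * Real.cos (b u) : ℝ) : ℂ), by fun_prop⟩, ?_⟩
    rw [hκ]
    have h1 : (spectrum ℂ (M.s j)).EqOn (fun x => ((2 * Real.cos (b (C x)) : ℝ) : ℂ)) id := by
      intro x hx
      have hre := (hsa j).mem_spectrum_eq_re hx
      have hnorm : ‖x‖ ≤ 2 := by
        have h2 := spectrum.norm_le_norm_mul_of_mem hx
        have h3 : ‖(1 : K →L[ℂ] K)‖ ≤ 1 := ContinuousLinearMap.norm_id_le
        have h4 := M.norm_s_le j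
        nlinarith [norm_nonneg (M.s j), norm_nonneg (1 : K →L[ℂ] K)]
      have habs : |x.re| ≤ 2 := (Complex.abs_re_le_norm x).trans hnorm
      rw [abs_le] at habs
      have h5 : b (C x) = Real.arccos (x.re / 2) := by
        rw [hC]
        exact hb _ ⟨Real.arccos_nonneg _, Real.arccos_le_pi _⟩
      show ((2 * Real.cos (b (C x)) : ℝ) : ℂ) = x
      rw [h5, Real.cos_arccos (by linarith) (by linarith), mul_div_cancel₀ _ (two_ne_zero)]
      exact hre.symm
    exact (cfc_congr h1).trans (cfc_id ℂ (M.s j) (hn j))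
  · rw [hκ, M.st_cfc_s j _ (by fun_prop), integral_G g hg f, sc]
    refine intervalIntegral.integral_congr ?_
    intro t ht
    rw [Set.uIcc_of_le Real.pi_pos.le] at ht
    have h6 : C ((2 * Real.cos t : ℝ) : ℂ) = g t := by
      rw [hC, Complex.ofReal_re, mul_div_cancel_left₀ _ (two_ne_zero' ℝ), Real.arccos_cos ht.1 ht.2]
    simp only [h6]

/-- The copies of `C([0,1])`. -/
noncomputable def kap : ℕ → C(unitInterval, ℂ) →⋆ₐ[ℂ] (K →L[ℂ] K) := M.exists_kap.choose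

theorem kap_mem_elemental (j : ℕ) (f : C(unitInterval, ℂ)) :
    M.kap j f ∈ StarAlgebra.elemental ℂ (M.s j) := M.exists_kap.choose_spec.1 j f

theorem exists_kap_eq_s (j : ℕ) : ∃ f, M.kap j f = M.s j := M.exists_kap.choose_spec.2.1 j

theorem st_kap (j : ℕ) (f : C(unitInterval, ℂ)) : M.st (M.kap j f) = ∫ x, f x :=
  M.exists_kap.choose_spec.2.2 j f

theorem elemental_le_E (S : Set ℕ) (j : ℕ) (hj : j ∈ S) :
    StarAlgebra.elemental ℂ (M.s j) ≤ M.E S := by
  exact StarAlgebra.elemental.le_of_mem (M.isClosed_E S) (M.s_mem S j hj)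

theorem kap_mem (S : Set ℕ) (j : ℕ) (hj : j ∈ S) (f : C(unitInterval, ℂ)) :
    M.kap j f ∈ M.E S := M.elemental_le_E S j hj (M.kap_mem_elemental j f)

end FModel
end H47
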