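import Pool.Agent.H.MP_47f0a1_an.FreeTrace

/-!
# States on abstract C*-algebras
-/

open scoped ComplexOrder

namespace H47

variable {A : Type*} [CStarAlgebra A]

/-- A positive functional commutes with the involution. Proof: `φ (star x * x)` is real for all `x`;
expand `φ (star (1 + x) * (1 + x))` and `φ (star (1 + I x) * (1 + I x))`. -/
theorem IsSt.star {φ : A →ₗ[ℂ] ℂ} (h : IsSt φ) (x : A) :
    φ (Star.star x) = (starRingEnd ℂ) (φ x) := by
  have h0 := (Complex.nonneg_iff.1 (h.nonneg x)).2
  have h1 := (Complex.nonneg_iff.1 (h.nonneg (1 + x))).2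
  have h2 := (Complex.nonneg_iff.1 (h.nonneg (1 + Complex.I • x))).2
  have e1 : Star.star (1 + x) * (1 + x) = 1 + x + Star.star x + Star.star x * x := by
    rw [star_add, star_one]; noncomm_ring
  have e2 : Star.star (1 + Complex.I • x) * (1 + Complex.I • x)
      = 1 + Complex.I • x - Complex.I • Star.star x + Star.star x * x := by
    have hI : Star.star Complex.I = - Complex.I := by simp
    rw [star_add, star_one, star_smul, hI, add_mul, mul_add, mul_add, smul_mul_smul_comm]
    have : -Complex.I * Complex.I = 1 := by simp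
    rw [this, one_smul, one_mul, mul_one, one_mul, neg_smul]
    abel
  rw [e1] at h1
  rw [e2] at h2
  simp only [map_add, map_sub, map_smul, h.one, smul_eq_mul, Complex.add_im, Complex.sub_im,
    Complex.one_im, Complex.mul_im, Complex.I_re, Complex.I_im, zero_mul, one_mul] at h1 h2
  rw [← h0] at h1 h2
  apply Complex.ext
  · rw [Complex.conj_re]; linarith
  · rw [Complex.conj_im]; linarith

/-- Cauchy–Schwarz for the positive semidefinite form `(x, y) ↦ φ (star x * y)`. -/
theorem IsSt.cs {φ : A →ₗ[ℂ] ℂ} (h : IsSt φ) (x y : A) :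
    ‖φ (Star.star x * y)‖ ^ 2 ≤ (φ (Star.star x * x)).re * (φ (Star.star y * y)).re := by
  let c : PreInnerProductSpace.Core ℂ A :=
    { inner := fun x y => φ (Star.star x * y)
      conj_inner_symm := by
        intro x y
        rw [← h.star, star_mul, star_star]
      re_inner_nonneg := fun x => (Complex.nonneg_iff.1 (h.nonneg x)).1
      add_left := by
        intro x y z
        rw [star_add, add_mul, map_add]
      smul_left := by
        intro x y r
        rw [star_smul, smul_mul_assoc, map_smul, smul_eq_mul]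
        rfl }
  have key := @InnerProductSpace.Core.inner_mul_inner_self_le ℂ A _ _ _ c x y
  have e : ‖φ (Star.star y * x)‖ = ‖φ (Star.star x * y)‖ := by
    have : φ (Star.star y * x) = (starRingEnd ℂ) (φ (Star.star x * y)) := by
      rw [← h.star, star_mul, star_star]
    rw [this, RCLike.norm_conj]
  change ‖φ (Star.star x * y)‖ * ‖φ (Star.star y * x)‖
    ≤ (φ (Star.star x * x)).re * (φ (Star.star y * y)).re at key
  rw [e] at key
  rw [sq]
  exact key

/-- `φ (y* x* x y) ≤ ‖x‖² φ (y* y)`. Proof: `‖x‖² - x* x = z* z` for some `z` (it is a nonnegative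
element), and `φ (y* z* z y) = φ ((z y)* (z y)) ≥ 0`. The order needed here is
`CStarAlgebra.spectralOrder`; the continuous functional calculus gives `z`. -/
theorem IsSt.mul_le {φ : A →ₗ[ℂ] ℂ} (h : IsSt φ) (x y : A) :
    (φ (Star.star y * Star.star x * x * y)).re ≤ ‖x‖ ^ 2 * (φ (Star.star y * y)).re := by
  letI := CStarAlgebra.spectralOrder A
  haveI := CStarAlgebra.spectralOrderedRing A
  have h1 : Star.star x * x ≤ algebraMap ℝ A (‖x‖ ^ 2) := CStarAlgebra.star_mul_le_algebraMap_norm_sq
  rw [← sub_nonneg, CStarAlgebra.nonneg_iff_eq_star_mul_self] at h1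
  obtain ⟨z, hz⟩ := h1
  have h2 := (Complex.nonneg_iff.1 (h.nonneg (z * y))).1
  have e : Star.star (z * y) * (z * y)
      = ((‖x‖ ^ 2 : ℝ) : ℂ) • (Star.star y * y) - Star.star y * Star.star x * x * y := by
    rw [star_mul, show Star.star y * Star.star z * (z * y) = Star.star y * (Star.star z * z) * y by
      noncomm_ring, ← hz, mul_sub, sub_mul, Algebra.algebraMap_eq_smul_one, mul_smul_comm, mul_one,
      smul_mul_assoc, ← Complex.coe_smul]
    congr 1
    noncomm_ring
  rw [e, map_sub, map_smul, smul_eq_mul, Complex.sub_re, Complex.re_ofReal_mul] at h2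
  linarith

/-- A state has norm at most one. Proof: `IsSt.cs` with `1, x` and `IsSt.mul_le` with `y = 1`. -/
theorem IsSt.norm_le {φ : A →ₗ[ℂ] ℂ} (h : IsSt φ) (x : A) : ‖φ x‖ ≤ ‖x‖ := by
  have h1 := h.cs 1 x
  have h2 := h.mul_le x 1
  rw [star_one, one_mul, one_mul, h.one, Complex.one_re, one_mul] at h1
  rw [star_one, one_mul, mul_one, mul_one, h.one, Complex.one_re, mul_one] at h2
  exact abs_le_of_sq_le_sq' (h1.trans h2) (norm_nonneg _) |>.2

theorem IsSt.continuous {φ : A →ₗ[ℂ] ℂ} (h : IsSt φ) : Continuous φ :=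
  (LinearMap.mkContinuous φ 1 (fun x => by rw [one_mul]; exact h.norm_le x)).continuous

/-- A reduced free product of algebras with tracial states has a faithful tracial state.

Proof. `φ` is tracial on the algebra generated by the `S i` (`free_tracial`) and by continuity on its
closure, which is everything. Faithfulness: let `φ (x* x) = 0`. For every `y`,
`φ (y* x* x y) = φ ((x y) (y* x*)) = φ (((y* x*))* (y* x*))`, which by `IsSt.mul_le` applied to
`y*` and `x*` is at most `‖y*‖² φ (x x*) = ‖y‖² φ (x* x) = 0`. So `x = 0` by `IsRFP.gns`. -/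
theorem IsRFP.ft {I : Type*} {φ : A →ₗ[ℂ] ℂ} {S : I → StarSubalgebra ℂ A} (h : IsRFP φ S)
    (htr : ∀ i, ∀ x ∈ S i, ∀ y ∈ S i, φ (x * y) = φ (y * x)) : IsFT φ := by
  have hc := h.st.continuous
  have hd : ∀ x : A, x ∈ closure ((⨆ i, S i : StarSubalgebra ℂ A) : Set A) := by
    intro x
    have : x ∈ (⨆ i, S i).topologicalClosure := by rw [h.gen]; trivial
    exact this
  have h0 := free_tracial φ h.st.one S h.free htr
  have h1 : ∀ x : A, ∀ y ∈ ⨆ i, S i, φ (x * y) = φ (y * x) := by
    intro x y hy
    have hcl : IsClosed {x : A | φ (x * y) = φ (y * x)} :=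
      isClosed_eq (hc.comp (continuous_id.mul continuous_const))
        (hc.comp (continuous_const.mul continuous_id))
    exact closure_minimal (fun z hz => h0 z hz y hy) hcl (hd x)
  have htr' : ∀ x y : A, φ (x * y) = φ (y * x) := by
    intro x y
    have hcl : IsClosed {y : A | φ (x * y) = φ (y * x)} :=
      isClosed_eq (hc.comp (continuous_const.mul continuous_id))
        (hc.comp (continuous_id.mul continuous_const))
    exact closure_minimal (fun z hz => h1 x z hz) hcl (hd y)
  refine ⟨h.st, htr', fun x hx => h.gns x fun y => ?_⟩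
  have e1 : φ (Star.star y * Star.star x * x * y)
      = φ (Star.star (Star.star x) * Star.star (Star.star y) * Star.star y * Star.star x) := by
    rw [show Star.star y * Star.star x * x * y = (Star.star y * Star.star x) * (x * y) by
      noncomm_ring, htr' (Star.star y * Star.star x) (x * y), star_star, star_star]
    congr 1
    noncomm_ring
  have h2 := h.st.mul_le (Star.star y) (Star.star x)
  rw [← e1, star_star, htr' x (Star.star x), hx, Complex.zero_re, mul_zero] at h2
  have h3 : 0 ≤ φ (Star.star y * Star.star x * x * y) := by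
    have := h.st.nonneg (x * y)
    rw [star_mul, show Star.star y * Star.star x * (x * y) = Star.star y * Star.star x * x * y by
      noncomm_ring] at this
    exact this
  obtain ⟨h4, h5⟩ := Complex.nonneg_iff.1 h3
  apply Complex.ext
  · rw [Complex.zero_re]; linarith
  · rw [Complex.zero_im, ← h5]

/-- The case of commutative members. -/
theorem IsRFP.ft_comm {I : Type*} {φ : A →ₗ[ℂ] ℂ} {S : I → StarSubalgebra ℂ A} (h : IsRFP φ S)
    (hc : ∀ i, ∀ x ∈ S i, ∀ y ∈ S i, x * y = y * x) : IsFT φ :=
  h.ft fun i x hx y hy => by rw [hc i x hx y hy]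

end H47
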